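import Pool.Agent.Lib.TriS.Sparse
import Pool.Agent.Lib.TriD.ZAll

/-!
All sufficiently large symmetric designs have triple arrays: dense designs (`TriD.dense_full`), sparse
designs (`TriS.sparse`) and their complements (rows and columns exchanged).
-/

set_option autoImplicit false

open scoped Classical

noncomputable section

namespace Pool.Agent.Lib.TriS

open Pool.Agent.Lib.TriD Pool.Agent.Lib.MP_6fba53_co

theorem dsys_swap {R C S : Type} [Fintype R] [Fintype C] [Fintype S] {A : R → S → Prop}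
    {M : C → S → Prop} {r c k : ℕ} (h : DSys A M r c k) : DSys M A c r k where
  cR := h.cC
  cC := h.cR
  cS := by rw [h.cS, add_comm]
  degR := h.degC
  degC := h.degR
  degSR := h.degSC
  degSC := h.degSR
  rc := by
    intro x y
    rw [← h.rc y x]
    congr 1
    ext b
    simp only [Finset.mem_filter, Finset.mem_univ, true_and]
    exact and_comm
  rr := h.cc
  cc := h.rr

theorem dmix_swap {R C S : Type} [Fintype R] [Fintype C] [Fintype S] {A : R → S → Prop}
    {M : C → S → Prop} {r c k : ℕ} (h : DMix A M r c k) : DMix M A c r k where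
  m1 D := by
    have := h.m2 D
    rw [add_comm (r : ℝ) c] at this
    exact this
  m2 D := by
    have := h.m1 D
    rw [add_comm (r : ℝ) c] at this
    exact this
  m3 D := by
    have := h.m4 D
    rw [add_comm (r : ℝ) c] at this
    exact this
  m4 D := by
    have := h.m3 D
    rw [add_comm (r : ℝ) c] at this
    exact this

theorem all_full : ∃ N : ℕ, ∀ r c lam : ℕ, N ≤ r + c → lam + 2 < r →
    ∀ B : Fin (r + c) → Finset (Fin (r + c)), SymD (r + c) r lam B → ∀ j0 : Fin (r + c),
      ∃ f : {x : Fin (r + c) // x ∈ B j0} → {y : Fin (r + c) // y ∉ B j0} →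
        {j : Fin (r + c) // j ≠ j0}, (∀ x y, x.1 ∉ B (f x y).1 ∧ y.1 ∈ B (f x y).1) ∧
          IsTripleArray f (r - lam) (c - (r - lam)) lam (r - lam) := by
  obtain ⟨N1, hN1⟩ := dense_full host_td (1 / (2 * 10 ^ 30)) (by positivity)
  obtain ⟨N2, hN2⟩ := bigV_eventually
  refine ⟨max N1 N2, ?_⟩
  intro r c lam hN hlr B hB j0
  have hv1 : N1 ≤ r + c := le_trans (le_max_left _ _) hN
  have hv2 : N2 ≤ r + c := le_trans (le_max_right _ _) hN
  have hbig := hN2 _ hv2
  push_cast at hbig
  have hr : 2 ≤ r := by omega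
  have hl : lam < r := by omega
  have hv : 0 < r + c := by omega
  obtain ⟨-, hrel⟩ := hB.rep hv hr
  have hrelR : (r : ℝ) * (r - 1) = lam * ((r : ℝ) + c - 1) := by
    have h1 : ((r - 1 : ℕ) : ℝ) = (r : ℝ) - 1 := by
      rw [Nat.cast_sub (by omega)]; simp
    have h2 : ((r + c - 1 : ℕ) : ℝ) = (r : ℝ) + c - 1 := by
      rw [Nat.cast_sub (by omega)]; push_cast; ring
    rw [← h1, ← h2]
    exact_mod_cast hrel
  have hnR : ((r - lam : ℕ) : ℝ) = (r : ℝ) - lam := Nat.cast_sub hl.le
  have hlam1 : 1 ≤ lam := by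
    rcases Nat.eq_zero_or_pos lam with h | h
    · exfalso
      rw [h, zero_mul] at hrel
      have h3 : 0 < r * (r - 1) := Nat.mul_pos (by omega) (by omega)
      omega
    · exact h
  have hsys := sys_of_design hB hr hl j0
  have hmix := mix_of_design hB hr hl j0
  -- relation for the complement
  have hrelC : (c : ℝ) * (c - 1) = ((c : ℝ) - ((r : ℝ) - lam)) * ((c : ℝ) + r - 1) := by
    have e : (c : ℝ) * (c - 1) - ((c : ℝ) - ((r : ℝ) - lam)) * ((c : ℝ) + r - 1) =
        (r : ℝ) * (r - 1) - lam * ((r : ℝ) + c - 1) := by ring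
    have e2 : (r : ℝ) * (r - 1) - lam * ((r : ℝ) + c - 1) = 0 := by rw [hrelR]; ring
    linarith
  have hr3 : (3 : ℝ) ≤ r := by
    have : 3 ≤ r := by omega
    exact_mod_cast this
  have hn3 : (3 : ℝ) ≤ (r : ℝ) - lam := by
    have : lam + 3 ≤ r := by omega
    have h4 : ((lam + 3 : ℕ) : ℝ) ≤ r := by exact_mod_cast this
    push_cast at h4
    linarith
  -- `(r - lam) (v - 1) = r c`
  have hrc : ((r : ℝ) - lam) * ((r : ℝ) + c - 1) = r * c := by
    have : ((r : ℝ) - lam) * ((r : ℝ) + c - 1) = r * ((r : ℝ) + c - 1) - r * (r - 1) := by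
      rw [hrelR]; ring
    rw [this]; ring
  have hc0 : (0 : ℝ) ≤ c := Nat.cast_nonneg c
  have hc2 : 2 ≤ c := by
    by_contra hcon
    push Not at hcon
    have h5 : (c : ℝ) ≤ 1 := by
      have : c ≤ 1 := by omega
      exact_mod_cast this
    nlinarith
  have hc2R : (2 : ℝ) ≤ c := by exact_mod_cast hc2
  have hnc : r - lam < c := by
    have h6 : (0 : ℝ) < (c : ℝ) - ((r : ℝ) - lam) := by
      have h7 : (0 : ℝ) < (c : ℝ) * (c - 1) := by nlinarith
      rw [hrelC] at h7
      have h8 : (0 : ℝ) < (c : ℝ) + r - 1 := by linarith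
      exact (mul_pos_iff_of_pos_right h8).1 h7
    have h9 : ((r - lam : ℕ) : ℝ) < c := by rw [hnR]; linarith
    exact_mod_cast h9
  have e9 : r - (r - lam) = lam := by omega
  by_cases h1 : (r : ℝ) ≤ 1 / 10 ^ 30 * (r + c)
  · -- sparse
    obtain ⟨f, hf1, hf⟩ := sparse _ _ r c (r - lam) hsys hmix hr (by omega) (by
      rw [hnR, hrelR]; ring) hbig h1
    rw [e9] at hf
    exact ⟨f, hf1, hf⟩
  · by_cases h2 : (c : ℝ) ≤ 1 / 10 ^ 30 * (c + r)
    · -- complement
      obtain ⟨f, hf1, hf⟩ := sparse _ _ c r (r - lam) (dsys_swap hsys) (dmix_swap hmix) hc2 hnc (by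
        rw [hnR]; exact hrelC) (by rw [add_comm]; exact hbig) h2
      rw [e9] at hf
      exact ⟨fun x y => f y x, fun x y => ⟨(hf1 y x).2, (hf1 y x).1⟩, hf.transpose⟩
    · -- dense
      push Not at h1 h2
      refine (hN1 r c lam hv1 ?_ B hB).1 j0
      have h10 : 1 / (2 * 10 ^ 30) * ((r : ℝ) + c) ≤ (r : ℝ) - lam := by
        have hvpos : (0 : ℝ) < (r : ℝ) + c - 1 := by linarith
        have h11 : 1 / (2 * 10 ^ 30) * ((r : ℝ) + c) * ((r : ℝ) + c - 1) ≤
            ((r : ℝ) - lam) * ((r : ℝ) + c - 1) := by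
          rw [hrc]
          rcases le_total (r : ℝ) c with h | h
          · have h12 : ((r : ℝ) + c) / 2 ≤ c := by linarith
            have h13 : 1 / 10 ^ 30 * ((r : ℝ) + c) * (((r : ℝ) + c) / 2) ≤ r * c :=
              mul_le_mul h1.le h12 (by linarith) (by linarith)
            have h14 : 0 ≤ 1 / (2 * 10 ^ 30) * ((r : ℝ) + c) := by positivity
            nlinarith
          · have h12 : ((r : ℝ) + c) / 2 ≤ r := by linarith
            have h13 : (((r : ℝ) + c) / 2) * (1 / 10 ^ 30 * ((c : ℝ) + r)) ≤ r * c :=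
              mul_le_mul h12 h2.le (by positivity) (by linarith)
            have h14 : 0 ≤ 1 / (2 * 10 ^ 30) * ((r : ℝ) + c) := by positivity
            nlinarith
        exact le_of_mul_le_mul_right h11 hvpos
      linarith

/-- The labelled form. -/
theorem all_label : ∃ N : ℕ, ∀ r c lam : ℕ, N ≤ r + c → lam + 2 < r →
    ∀ B : Fin (r + c) → Finset (Fin (r + c)), SymD (r + c) r lam B → ∀ j0 : Fin (r + c),
      ∃ (A : Fin r → Fin c → Fin (r + c - 1)) (row : Fin r ≃ {x : Fin (r + c) // x ∈ B j0})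
        (col : Fin c ≃ {y : Fin (r + c) // y ∉ B j0})
        (sym : Fin (r + c - 1) ≃ {j : Fin (r + c) // j ≠ j0}),
        IsTripleArray A (r - lam) (c - (r - lam)) lam (r - lam) ∧
          ∀ i l, (row i).1 ∉ B (sym (A i l)).1 ∧ (col l).1 ∈ B (sym (A i l)).1 := by
  obtain ⟨N, hN⟩ := all_full
  refine ⟨N, fun r c lam h1 h2 B hB j0 => ?_⟩
  obtain ⟨f, hf1, hf⟩ := hN r c lam h1 h2 B hB j0
  have cR : Fintype.card {x : Fin (r + c) // x ∈ B j0} = r := by
    rw [Fintype.card_coe, hB.card]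
  have cC : Fintype.card {y : Fin (r + c) // y ∉ B j0} = c := by
    rw [Fintype.card_subtype_compl, Fintype.card_coe, hB.card, Fintype.card_fin]
    omega
  have cS : Fintype.card {j : Fin (r + c) // j ≠ j0} = r + c - 1 := by
    rw [Fintype.card_subtype_compl, Fintype.card_fin, Fintype.card_subtype_eq]
  have hf' := hf.transport (Fintype.equivFinOfCardEq cR).symm (Fintype.equivFinOfCardEq cC).symm
    (Fintype.equivFinOfCardEq cS)
  refine ⟨_, (Fintype.equivFinOfCardEq cR).symm, (Fintype.equivFinOfCardEq cC).symm,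
    (Fintype.equivFinOfCardEq cS).symm, hf', fun i l => ?_⟩
  simp only [Equiv.symm_apply_apply]
  exact hf1 _ _

end Pool.Agent.Lib.TriS
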