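import Pool.Agent.Lib.TriS.CDefs
import Pool.Agent.Lib.MP_6fba53_co.Basic

/-!
MODULE ArrS (about 150 lines). From the perfect matchings to the triple array.

PROOF. `f x y` = the `l` with `(y, l) ∈ F x` (`ex1`, unique by `un1`). `A x (f x y)`, `M y (f x y)`. `f x` is injective by `un2`, `x ↦ f x y` is injective since `F x`, `F x'` are disjoint. `image (f x) = {l | A x l}` (`ex2`). `image (fun x => f x y) = {l | M y l}`: contained, and both have `r` elements
(`cR`, injectivity; `degC`). `symb`: `card {(x,y) | f x y = l} = card {x | A x l} = k` (`degSR`: for `x` with `A x l` exactly one `y`). `rr`, `cc`, `rc`: `Finset.filter_and` and `DSys.rr`, `cc`, `rc` (see `array_of_TD_full` in Lib/TriD/ZArrF.lean for the same computations).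
-/

set_option autoImplicit false

open scoped Classical

noncomputable section

namespace Pool.Agent.Lib.TriS

open Pool.Agent.Lib.TriD Pool.Agent.Lib.MP_6fba53_co

theorem array_of_family {R C S : Type} [Fintype R] [Fintype C] [Fintype S] [DecidableEq S]
    {A : R → S → Prop} {M : C → S → Prop} {r c k : ℕ} (h : DSys A M r c k)
    (F : R → Finset (C × S)) (hF : ∀ x, (∀ p ∈ F x, M p.1 p.2) ∧
      IsPM (F x) Finset.univ (Finset.univ.filter fun l => A x l))
    (hd : ∀ x y, x ≠ y → Disjoint (F x) (F y)) :
    ∃ f : R → C → S, (∀ x y, A x (f x y) ∧ M y (f x y)) ∧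
      IsTripleArray f k (c - k) (r - k) k := by
  have hch : ∀ x y, ∃ l, (y, l) ∈ F x := fun x y => (hF x).2.ex1 y (Finset.mem_univ y)
  choose f hf using hch
  have hfA : ∀ x y, A x (f x y) := by
    intro x y
    have := ((hF x).2.sub _ (hf x y)).2
    simpa using this
  have hfM : ∀ x y, M y (f x y) := fun x y => (hF x).1 _ (hf x y)
  have hrow : ∀ x, Function.Injective (f x) := by
    intro x y y' hyy
    have h1 := hf x y
    rw [hyy] at h1
    exact (hF x).2.un2 y y' _ h1 (hf x y')
  have hcol : ∀ y, Function.Injective fun x => f x y := by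
    intro y x x' hxx
    by_contra hne
    have hxx' : f x y = f x' y := hxx
    have h1 := hf x y
    rw [hxx'] at h1
    exact (Finset.disjoint_left.1 (hd x x' hne)) h1 (hf x' y)
  have himr : ∀ x, Finset.univ.image (f x) = Finset.univ.filter fun l => A x l := by
    intro x
    ext l
    simp only [Finset.mem_image, Finset.mem_univ, true_and, Finset.mem_filter]
    constructor
    · rintro ⟨y, rfl⟩
      exact hfA x y
    · intro hl
      obtain ⟨y, hy⟩ := (hF x).2.ex2 l (by simpa using hl)
      exact ⟨y, (hF x).2.un1 y _ _ (hf x y) hy⟩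
  have himc : ∀ y, Finset.univ.image (fun x => f x y) = Finset.univ.filter fun l => M y l := by
    intro y
    apply Finset.eq_of_subset_of_card_le
    · intro l hl
      simp only [Finset.mem_image, Finset.mem_univ, true_and] at hl
      obtain ⟨x, rfl⟩ := hl
      simpa using hfM x y
    · rw [h.degC y, Finset.card_image_of_injective _ (hcol y), Finset.card_univ, h.cR]
  refine ⟨f, fun x y => ⟨hfA x y, hfM x y⟩, ?_⟩
  refine ⟨hrow, hcol, ?_, ?_, ?_, ?_⟩
  · intro l
    rw [← h.degSR l]
    refine Finset.card_bij (fun p _ => p.1) ?_ ?_ ?_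
    · intro p hp
      simp only [Finset.mem_filter, Finset.mem_univ, true_and] at hp ⊢
      rw [← hp]
      exact hfA p.1 p.2
    · intro p hp p' hp' hpp
      simp only [Finset.mem_filter, Finset.mem_univ, true_and] at hp hp'
      have hpp1 : p.1 = p'.1 := hpp
      refine Prod.ext hpp1 ?_
      apply hrow p.1
      rw [hp, hpp1, hp']
    · intro x hx
      simp only [Finset.mem_filter, Finset.mem_univ, true_and] at hx
      obtain ⟨y, hy⟩ := (hF x).2.ex2 l (by simpa using hx)
      exact ⟨(x, y), by
        simpa using (hF x).2.un1 y _ _ (hf x y) hy, rfl⟩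
  · intro x x' hne
    rw [himr, himr, ← Finset.filter_and]
    have := h.rr x x' hne
    omega
  · intro y y' hne
    rw [himc, himc, ← Finset.filter_and]
    have := h.cc y y' hne
    omega
  · intro x y
    rw [himr, himc, ← Finset.filter_and]
    exact h.rc x y

end Pool.Agent.Lib.TriS
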