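import Pool.Agent.Lib.TriS.FlowM

/-!
Definitions for the block lemma (section 2.1 of the paper).

`xs : ℕ → X` enumerates the colours of the block (`xs 0, ..., xs (m-1)`); `O`, `R` are the initial graphs, `Ot`, `Rt` the current
ones; `nv` are the needs of the other side.
-/

set_option autoImplicit false

open scoped Classical

noncomputable section

namespace Pool.Agent.Lib.TriS

/-- number of neighbours that do not need `x` -/
def zcB {U V X : Type} [Fintype V] (O : Finset (U × V)) (nv : V → Finset X) (u : U) (x : X) : ℕ :=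
  ((nb O u).filter fun v => x ∉ nv v).card

/-- number of remaining steps of the block in which `u` takes part -/
def remc {U X : Type} (nu : U → Finset X) (xs : ℕ → X) (m t : ℕ) (u : U) : ℕ :=
  ((Finset.Ico t m).filter fun i => xs i ∈ nu u).card

/-- weight after `n` contractions -/
def thf (th q : ℝ) (n : ℕ) : ℝ := th * (1 - (1 - th) / q) ^ n

/-- accumulated error -/
def acc {U V X : Type} [Fintype V] (O : Finset (U × V)) (nv : V → Finset X) (xs : ℕ → X) (th q : ℝ)
    (t : ℕ) (u : U) (x : X) : ℝ :=
  th / q * ∑ i ∈ Finset.range t, (((nb O u).filter fun v => x ∉ nv v ∧ xs i ∉ nv v).card : ℝ)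

/-- term of the potential for the load of `R` at `u` -/
def potU {U V : Type} [Fintype V] (R Rt : Finset (U × V)) (π : ℝ) (t : ℕ) (u : U) : ℝ :=
  Real.exp (((nb R u).card : ℝ) - (nb Rt u).card - (Real.exp 1 - 1) * π * t)

/-- term of the potential for `zcB` at `(u, x)` -/
def potL {U V X : Type} [Fintype V] (O Ot : Finset (U × V)) (nu : U → Finset X)
    (nv : V → Finset X) (xs : ℕ → X) (m : ℕ) (th q : ℝ) (t : ℕ) (u : U) (x : X) : ℝ :=
  Real.exp (thf th q (remc nu xs m t u) * zcB Ot nv u x - acc O nv xs th q t u x -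
    thf th q (remc nu xs m 0 u) * zcB O nv u x)

/-- one-sided potential -/
def pot {U V X : Type} [Fintype U] [Fintype V] (O R Ot Rt : Finset (U × V)) (nu : U → Finset X)
    (nv : V → Finset X) (C : Finset X) (xs : ℕ → X) (m : ℕ) (π th q : ℝ) (t : ℕ) : ℝ :=
  ∑ u, potU R Rt π t u + ∑ u, ∑ x ∈ C, potL O Ot nu nv xs m th q t u x

end Pool.Agent.Lib.TriS
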