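import Pool.Agent.Lib.TriS.BHyp

/-!
MODULE BFin (about 150 lines). The bound at the end of a block (one side).

PROOF. `m = Q.card`, `th = 1/1000`, `q = 1001/1000 * o`. `remc nu xs m m u = 0`, so `thf = th`; `m0 = remc nu xs m 0 u = card (Q ∩ nu u) ≥ m - 1/10^7 s ≥ s (1 - 2/10^7)`.
`acc O nv xs th q m u x = (th/q) ∑_{v ∈ nb O u, x ∉ nv v} #{i < m : xs i ∉ nv v} ≤ (th/q) Z0 (1/10^7 s)` (exchange the sums; `#{i < m : xs i ∉ nv v} = card (Q \ nv v) ≤ 1/10^7 s` by
`missQ` of the other side `hb2`), `Z0 = zcB O nv u x ≤ 1/10^5 o`. From `potL ≤ exp (4L)`: `th Z ≤ 4L + acc + th (1 - (1-th)/q)^m0 Z0`, `Z = zcB Ot nv u x`. `(1-y)^m0 ≤ exp (-y m0)`,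
`y m0 = (999/1000)(s (1-2/10^7))/(1.001 o) ≥ 0.9978 sg`, `sg = s/o ∈ [1/200, 1/100]`, `exp (-w) ≤ 1 - w + w²/2` for `w ≥ 0`; with `w = 0.9978 sg`: `≤ 1 - 0.9978 sg + 0.005 sg`.
So `Z ≤ (1 - 0.9928 sg) Z0 + sg/10^7 Z0 + 4000 L ≤ (1 - 0.992 sg) o/10^5 + 4000 L`. The new graph is `(O ∪ R) \ ⋃ = (O \ ⋃) ∪ (R \ ⋃)`; the `R`-part has at most
`1/10^7 s` bad neighbours (`badR`). Total `≤ o/10^5 - 0.992 s/10^5 + s/10^7 + 4000 L ≤ 1/10^5 (o - 7/8 s)` since `4000 L ≤ 4 s/10^7`.
-/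

set_option autoImplicit false

open scoped Classical

noncomputable section

namespace Pool.Agent.Lib.TriS

private theorem cnt_eq {X : Type} (Q : Finset X) (xs : ℕ → X)
    (hinj : ∀ i < Q.card, ∀ j < Q.card, xs i = xs j → i = j)
    (him : (Finset.range Q.card).image xs = Q) (p : X → Prop) :
    ((Finset.range Q.card).filter fun i => p (xs i)).card = (Q.filter p).card := by
  rw [← Finset.card_image_of_injOn (s := (Finset.range Q.card).filter fun i => p (xs i)) (f := xs)]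
  · congr 1
    ext y
    simp only [Finset.mem_image, Finset.mem_filter, Finset.mem_range]
    constructor
    · rintro ⟨i, ⟨hi, hp⟩, rfl⟩
      refine ⟨?_, hp⟩
      rw [← him]
      exact Finset.mem_image_of_mem xs (Finset.mem_range.2 hi)
    · rintro ⟨hy, hp⟩
      rw [← him] at hy
      obtain ⟨i, hi, rfl⟩ := Finset.mem_image.1 hy
      exact ⟨i, ⟨Finset.mem_range.1 hi, hp⟩, rfl⟩
  · intro i hi j hj hij
    have hi' : i < Q.card := Finset.mem_range.1 (Finset.mem_filter.1 hi).1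
    have hj' : j < Q.card := Finset.mem_range.1 (Finset.mem_filter.1 hj).1
    exact hinj i hi' j hj' hij

private theorem num_exp (w : ℝ) (hw : 0 ≤ w) : Real.exp (-w) ≤ 1 - w + w ^ 2 / 2 := by
  have h1 : 0 < 1 + w + w ^ 2 / 2 := by positivity
  have h2 : 1 + w + w ^ 2 / 2 ≤ Real.exp w := Real.quadratic_le_exp_of_nonneg hw
  rw [Real.exp_neg]
  have h3 : (Real.exp w)⁻¹ ≤ (1 + w + w ^ 2 / 2)⁻¹ := inv_anti₀ h1 h2
  refine h3.trans ?_
  rw [inv_le_iff_one_le_mul₀ h1]
  nlinarith [sq_nonneg w, sq_nonneg (w ^ 2)]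

theorem block_final {U V X : Type} [Fintype U] [Fintype V] (O P R W : Finset (U × V))
    (nu : U → Finset X) (nv : V → Finset X) (C Q : Finset X) (ρ : ℕ) (dP o s L : ℝ)
    (h : BHyp O P R nu nv C Q ρ dP o s L) (xs : ℕ → X)
    (hinj : ∀ i < Q.card, ∀ j < Q.card, xs i = xs j → i = j)
    (him : (Finset.range Q.card).image xs = Q) (u : U) (x : X) (hx : x ∈ C)
    (hpot : potL O (O \ W) nu nv xs Q.card (1 / 1000) (1001 / 1000 * o) Q.card u x ≤
      Real.exp (4 * L)) :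
    (((nb ((O ∪ R) \ W) u).filter fun v => x ∉ nv v).card : ℝ) ≤
      1 / 10 ^ 5 * (o - 7 / 8 * s) := by
  have hsL := h.sL
  have hL1 := h.L1
  have hso1 := h.so1
  have hso2 := h.so2
  have hs0 : 0 < s := by nlinarith
  have ho0 : 0 < o := by linarith
  have hobig : 10 ^ 12 ≤ o := by nlinarith
  set m : ℕ := Q.card with hm
  set Z : ℕ := zcB (O \ W) nv u x with hZ
  set Z0 : ℕ := zcB O nv u x with hZ0
  set m0 : ℕ := remc nu xs m 0 u with hm0
  -- the potential inequality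
  have hrm : remc nu xs m m u = 0 := by
    unfold remc
    simp
  have hpot2 : (1 / 1000 : ℝ) * Z - acc O nv xs (1 / 1000) (1001 / 1000 * o) m u x -
      thf (1 / 1000) (1001 / 1000 * o) m0 * Z0 ≤ 4 * L := by
    have := hpot
    unfold potL at this
    rw [Real.exp_le_exp, hrm] at this
    have h0 : thf (1 / 1000) (1001 / 1000 * o) 0 = 1 / 1000 := by
      unfold thf
      simp
    rw [h0] at this
    exact this
  -- m0
  have hm0e : m0 = (Q.filter fun y => y ∈ nu u).card := by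
    rw [hm0]
    unfold remc
    rw [← Finset.range_eq_Ico]
    have e0 := cnt_eq Q xs hinj him fun y => y ∈ nu u
    convert e0
  have hsplit : (Q.filter fun y => y ∈ nu u).card + (Q \ nu u).card = Q.card := by
    rw [← Finset.card_filter_add_card_filter_not (s := Q) (p := fun y => y ∈ nu u)]
    congr 1
    congr 1
    ext y
    simp [Finset.mem_sdiff]
  have hmq := h.s1.missQ u
  have hcQ := abs_le.1 h.cQ
  have hm0l : s * (1 - 2 / 10 ^ 7) ≤ (m0 : ℝ) := by
    have h1 : ((Q.filter fun y => y ∈ nu u).card : ℝ) + ((Q \ nu u).card : ℝ) = (Q.card : ℝ) := by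
      exact_mod_cast hsplit
    rw [hm0e]
    linarith [hcQ.1]
  -- acc
  have hZ0o : (Z0 : ℝ) ≤ 1 / 10 ^ 5 * o := h.s1.badO u x hx
  have hZ0n : (0 : ℝ) ≤ Z0 := Nat.cast_nonneg _
  have hacc : acc O nv xs (1 / 1000) (1001 / 1000 * o) m u x ≤
      (1 / 1000) / (1001 / 1000 * o) * (Z0 * (1 / 10 ^ 7 * s)) := by
    unfold acc
    refine mul_le_mul_of_nonneg_left ?_ (by positivity)
    have e1 : ∑ i ∈ Finset.range m,
        (((nb O u).filter fun v => x ∉ nv v ∧ xs i ∉ nv v).card : ℝ) =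
        ∑ v ∈ (nb O u).filter fun v => x ∉ nv v,
          (((Finset.range m).filter fun i => xs i ∉ nv v).card : ℝ) := by
      have e2 : ∀ i, (((nb O u).filter fun v => x ∉ nv v ∧ xs i ∉ nv v).card : ℝ) =
          ∑ v ∈ (nb O u).filter fun v => x ∉ nv v, (if xs i ∉ nv v then (1 : ℝ) else 0) := by
        intro i
        rw [Finset.sum_boole, Finset.filter_filter]
      have e3 : ∀ v, (((Finset.range m).filter fun i => xs i ∉ nv v).card : ℝ) =
          ∑ i ∈ Finset.range m, (if xs i ∉ nv v then (1 : ℝ) else 0) := by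
        intro v
        rw [Finset.sum_boole]
      simp_rw [e2, e3]
      rw [Finset.sum_comm]
    rw [e1]
    have e4 : ∀ v ∈ (nb O u).filter fun v => x ∉ nv v,
        (((Finset.range m).filter fun i => xs i ∉ nv v).card : ℝ) ≤ 1 / 10 ^ 7 * s := by
      intro v _
      have e5 : ((Finset.range m).filter fun i => xs i ∉ nv v).card =
          (Q.filter fun y => y ∉ nv v).card := by
        have e0 := cnt_eq Q xs hinj him fun y => y ∉ nv v
        convert e0
      have e6 : (Q.filter fun y => y ∉ nv v) = Q \ nv v := by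
        ext y
        simp [Finset.mem_sdiff]
      rw [e5, e6]
      exact h.s2.missQ v
    refine (Finset.sum_le_sum e4).trans ?_
    rw [Finset.sum_const, nsmul_eq_mul]
    exact le_rfl
  -- contraction
  have hy0 : (1 - 1 / 1000 : ℝ) / (1001 / 1000 * o) = 999 / 1001 / o := by
    field_simp
    ring
  have hy1 : (999 / 1001 / o : ℝ) ≤ 1 := by
    rw [div_le_one ho0]
    linarith
  have hw : (1 - (999 / 1001 / o : ℝ)) ^ m0 ≤ Real.exp (-(999 / 1001 / o * m0)) := by
    have e1 : (1 - (999 / 1001 / o : ℝ)) ≤ Real.exp (-(999 / 1001 / o)) := by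
      have := Real.add_one_le_exp (-(999 / 1001 / o : ℝ))
      linarith
    have e2 : (1 - (999 / 1001 / o : ℝ)) ^ m0 ≤ (Real.exp (-(999 / 1001 / o))) ^ m0 :=
      pow_le_pow_left₀ (by linarith) e1 m0
    rw [← Real.exp_nat_mul] at e2
    refine e2.trans (le_of_eq ?_)
    congr 1
    ring
  set sg : ℝ := s / o with hsg
  have hsgo : s = sg * o := by
    rw [hsg]
    field_simp
  have hsg0 : 0 < sg := div_pos hs0 ho0
  have hsg1 : sg ≤ 1 / 100 := by
    rw [hsg, div_le_iff₀ ho0]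
    linarith
  have hw2 : (9978 / 10000 : ℝ) * sg ≤ 999 / 1001 / o * m0 := by
    have e1 : 999 / 1001 / o * (s * (1 - 2 / 10 ^ 7)) ≤ 999 / 1001 / o * (m0 : ℝ) :=
      mul_le_mul_of_nonneg_left hm0l (by positivity)
    have e2 : 999 / 1001 / o * (s * (1 - 2 / 10 ^ 7)) = 999 / 1001 * (1 - 2 / 10 ^ 7) * sg := by
      rw [hsg]
      field_simp
    rw [e2] at e1
    refine le_trans ?_ e1
    refine mul_le_mul_of_nonneg_right ?_ hsg0.le
    norm_num
  have hw3 : (1 - (999 / 1001 / o : ℝ)) ^ m0 ≤ 1 - 9928 / 10000 * sg := by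
    refine hw.trans ?_
    have e1 : Real.exp (-(999 / 1001 / o * m0)) ≤ Real.exp (-((9978 / 10000 : ℝ) * sg)) := by
      rw [Real.exp_le_exp]
      linarith
    refine e1.trans ((num_exp _ (by positivity)).trans ?_)
    nlinarith
  have hthf : thf (1 / 1000) (1001 / 1000 * o) m0 ≤ 1 / 1000 * (1 - 9928 / 10000 * sg) := by
    unfold thf
    rw [hy0]
    exact mul_le_mul_of_nonneg_left hw3 (by norm_num)
  have hacc2 : acc O nv xs (1 / 1000) (1001 / 1000 * o) m u x ≤ 1 / 1000 * (Z0 * (sg / 10 ^ 7)) := by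
    refine hacc.trans ?_
    have e1 : (1 / 1000 : ℝ) / (1001 / 1000 * o) * (Z0 * (1 / 10 ^ 7 * s)) =
        1000 / 1001 * (1 / 1000 * (Z0 * (sg / 10 ^ 7))) := by
      rw [hsgo]
      field_simp
    rw [e1]
    have e2 : 0 ≤ 1 / 1000 * (Z0 * (sg / 10 ^ 7)) := by positivity
    nlinarith
  have hthf2 : thf (1 / 1000) (1001 / 1000 * o) m0 * Z0 ≤
      1 / 1000 * (1 - 9928 / 10000 * sg) * Z0 := mul_le_mul_of_nonneg_right hthf hZ0n
  have hZb : (Z : ℝ) ≤ (1 - 992 / 1000 * sg) * (1 / 10 ^ 5 * o) + 4000 * L := by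
    have e1 : (Z : ℝ) ≤ (1 - 9928 / 10000 * sg + sg / 10 ^ 7) * Z0 + 4000 * L := by
      nlinarith
    have e2 : (1 - 9928 / 10000 * sg + sg / 10 ^ 7) * Z0 ≤ (1 - 992 / 1000 * sg) * Z0 :=
      mul_le_mul_of_nonneg_right (by nlinarith) hZ0n
    have e3 : (1 - 992 / 1000 * sg) * Z0 ≤ (1 - 992 / 1000 * sg) * (1 / 10 ^ 5 * o) :=
      mul_le_mul_of_nonneg_left hZ0o (by nlinarith)
    linarith
  have hsub : ((nb ((O ∪ R) \ W) u).filter fun v => x ∉ nv v) ⊆
      ((nb (O \ W) u).filter fun v => x ∉ nv v) ∪ ((nb R u).filter fun v => x ∉ nv v) := by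
    intro v hv
    simp only [Finset.mem_filter, Finset.mem_union, mem_nb, Finset.mem_sdiff] at hv ⊢
    tauto
  have hcard : (((nb ((O ∪ R) \ W) u).filter fun v => x ∉ nv v).card : ℝ) ≤
      (Z : ℝ) + (((nb R u).filter fun v => x ∉ nv v).card : ℝ) := by
    have := (Finset.card_le_card hsub).trans (Finset.card_union_le _ _)
    exact_mod_cast this
  have hbR := h.s1.badR u x hx
  have e9 : (1 - 992 / 1000 * sg) * (1 / 10 ^ 5 * o) = 1 / 10 ^ 5 * o - 992 / 1000 / 10 ^ 5 * s := by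
    rw [hsgo]
    ring
  rw [e9] at hZb
  linarith


end Pool.Agent.Lib.TriS
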