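import Pool.Agent.Lib.TriS.BDefs

/-!
Hypotheses of the block lemma (section 2.1 of the paper) as one structure.
-/

set_option autoImplicit false

open scoped Classical

noncomputable section

namespace Pool.Agent.Lib.TriS

structure BHyp {U V X : Type} [Fintype U] [Fintype V] (O P R : Finset (U × V)) (nu : U → Finset X)
    (nv : V → Finset X) (C Q : Finset X) (ρ : ℕ) (dP o s L : ℝ) : Prop where
  s1 : BSide O P R nu nv C Q ρ dP o s
  s2 : BSide (tr O) (tr P) (tr R) nv nu C Q ρ dP o s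
  dOP : Disjoint O P
  RP : R ⊆ P
  QC : Q ⊆ C
  so1 : o / 200 ≤ s
  so2 : s ≤ o / 100
  sL : 10 ^ 10 * L ≤ s
  L1 : 1 ≤ L
  NL : (Fintype.card U : ℝ) ≤ Real.exp L
  CL : (C.card : ℝ) ≤ Real.exp L
  cUV : Fintype.card U = Fintype.card V
  cC : |(C.card : ℝ) + ρ - dP - o| ≤ 2 / 10 ^ 7 * o
  cQ : |(Q.card : ℝ) - s| ≤ 1 / 10 ^ 7 * s
  bal : ∀ x ∈ Q, (wt nu x).card = (wt nv x).card
  mix : Mix R (s / 8) (12 / 10) (1 / 100) (Fintype.card U)

theorem BHyp.symm {U V X : Type} [Fintype U] [Fintype V] {O P R : Finset (U × V)}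
    {nu : U → Finset X} {nv : V → Finset X} {C Q : Finset X} {ρ : ℕ} {dP o s L : ℝ}
    (h : BHyp O P R nu nv C Q ρ dP o s L) :
    BHyp (tr O) (tr P) (tr R) nv nu C Q ρ dP o s L where
  s1 := h.s2
  s2 := by
    rw [tr_tr, tr_tr, tr_tr]
    exact h.s1
  dOP := by
    have h1 := h.dOP
    rw [Finset.disjoint_iff_inter_eq_empty] at h1 ⊢
    rw [← tr_inter, h1]
    rfl
  RP := tr_subset.2 h.RP
  QC := h.QC
  so1 := h.so1
  so2 := h.so2
  sL := h.sL
  L1 := h.L1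
  NL := by rw [← h.cUV]; exact h.NL
  CL := h.CL
  cUV := h.cUV.symm
  cC := h.cC
  cQ := h.cQ
  bal x hx := (h.bal x hx).symm
  mix := by
    rw [← h.cUV]
    exact h.mix.tr

end Pool.Agent.Lib.TriS
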