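import Pool.Agent.Lib.TriS.BDefs

/-!
MODULE BPotL (about 170 lines). The lower-tail term does not increase on average.

PROOF. `x0 = xs t`, `S = wt nu x0`, `T = wt nv x0`, `Z = zcB Ot nv u x`, `th' = thf th q (remc nu xs m (t+1) u)`; `0 ≤ th' ≤ th ≤ 1/2` as `0 ≤ (1-th)/q ≤ 1`.
`acc` is monotone in `t`: `acc (t+1) = acc t + (th/q) cb`, `cb = card {v ∈ nb O u | x ∉ nv v ∧ x0 ∉ nv v}`.
If `u ∉ S` (`x0 ∉ nu u`): `remc` is unchanged, the matchings do not touch `u`, `zcB (Ot \ M i) = Z`; the term changes by the factor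
`exp (-(th/q) cb) ≤ 1`.
If `u ∈ S`: `remc nu xs m t u = remc nu xs m (t+1) u + 1` (uses `t < m`), so `thf .. (remc t) = th' (1 - (1-th)/q)`. `zcB (Ot \ M i) nv u x = Z - d_i`, where `d_i = 1` iff the edge
`(u,v) ∈ M i` has `(u,v) ∈ Ot` and `x ∉ nv v`, else `0`. `P = ∑ p i d_i ≥ (Z - cb)/q`: the edges `(u,v) ∈ Ot` with `x ∉ nv v` and `x0 ∈ nv v` are at least `Z - cb` many
(those with `x0 ∉ nv v` are counted by `cb` as `Ot ⊆ O`) and each has probability `≥ 1/q` (`hO`), the events are disjoint for different `v` (`un1`).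
`∑ p i exp (th' (Z - d_i)) = exp (th' Z) (1 - P (1 - exp (-th'))) ≤ exp (th' Z - P (1 - exp (-th')))`. `1 - exp (-th') ≥ (1 - th) th'` (for `0 ≤ th' ≤ th ≤ 1/2`:
`exp (-y) ≤ 1 - y + y²/2`, or `Real.exp_neg` + `Real.add_one_le_exp`: `exp (-y) ≤ 1/(1+y)`, `1 - 1/(1+y) = y/(1+y) ≥ y (1 - y)`) and `1 - exp (-th') ≤ th' ≤ th`, so
`-P (1 - exp(-th')) ≤ -(1 - exp(-th')) (Z - cb)/q ≤ -(1-th) th' Z/q + th cb/q`. Together the exponent of the average is at most
`th' (1 - (1-th)/q) Z + th cb/q - acc (t+1) - ... = thf (remc t) Z - acc t - ...`.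
-/

set_option autoImplicit false

open scoped Classical

noncomputable section

namespace Pool.Agent.Lib.TriS

private theorem acc_succ {U V X : Type} [Fintype V] (O : Finset (U × V)) (nv : V → Finset X)
    (xs : ℕ → X) (th q : ℝ) (t : ℕ) (u : U) (x : X) :
    acc O nv xs th q (t + 1) u x = acc O nv xs th q t u x +
      th / q * (((nb O u).filter fun v => x ∉ nv v ∧ xs t ∉ nv v).card : ℝ) := by
  unfold acc
  rw [Finset.sum_range_succ, mul_add]

private theorem remc_succ {U X : Type} (nu : U → Finset X) (xs : ℕ → X) (m t : ℕ) (ht : t < m)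
    (u : U) : remc nu xs m t u = (if xs t ∈ nu u then 1 else 0) + remc nu xs m (t + 1) u := by
  unfold remc
  rw [Finset.card_filter, Finset.card_filter, Finset.sum_eq_sum_Ico_succ_bot ht]

private theorem zc_sdiff {U V X : Type} [Fintype V] (O M : Finset (U × V)) (nv : V → Finset X)
    (u : U) (x : X) : zcB (O \ M) nv u x +
      (((nb O u).filter fun v => x ∉ nv v).filter fun v => (u, v) ∈ M).card = zcB O nv u x := by
  unfold zcB
  rw [← Finset.card_filter_add_card_filter_not (s := (nb O u).filter fun v => x ∉ nv v)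
    (fun v => (u, v) ∈ M), add_comm]
  congr 2
  ext v
  simp only [Finset.mem_filter, mem_nb, Finset.mem_sdiff]
  tauto

private theorem thf_bounds (th q : ℝ) (hth : 0 < th) (hth2 : th ≤ 1 / 2) (hq : 1 ≤ q) (n : ℕ) :
    0 ≤ thf th q n ∧ thf th q n ≤ th := by
  have hq0 : 0 < q := by linarith
  have h1 : 0 ≤ (1 - th) / q := div_nonneg (by linarith) hq0.le
  have h2 : (1 - th) / q ≤ 1 := by
    rw [div_le_one hq0]
    linarith
  have h3 : 0 ≤ (1 - (1 - th) / q) ^ n := pow_nonneg (by linarith) n
  have h4 : (1 - (1 - th) / q) ^ n ≤ 1 := pow_le_one₀ (by linarith) (by linarith)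
  unfold thf
  constructor
  · positivity
  · nlinarith

private theorem exp_bounds (y : ℝ) (hy : 0 ≤ y) :
    y * (1 - y) ≤ 1 - Real.exp (-y) ∧ 1 - Real.exp (-y) ≤ y := by
  constructor
  · have h1 : 0 < 1 + y := by linarith
    have h2 : Real.exp (-y) ≤ 1 / (1 + y) := by
      rw [Real.exp_neg, ← one_div]
      apply one_div_le_one_div_of_le h1
      have := Real.add_one_le_exp y
      linarith
    have h3 : 1 - 1 / (1 + y) = y / (1 + y) := by
      field_simp
      ring
    have h4 : y * (1 - y) ≤ y / (1 + y) := by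
      rw [le_div_iff₀ h1]
      nlinarith [mul_nonneg hy (mul_nonneg hy hy)]
    linarith
  · have := Real.add_one_le_exp (-y)
    linarith

theorem potL_step {U V X : Type} [Fintype U] [Fintype V] (O Ot Rt : Finset (U × V)) (hOt : Ot ⊆ O)
    (nu : U → Finset X) (nv : V → Finset X) (xs : ℕ → X) (m t : ℕ) (ht : t < m)
    (th q : ℝ) (hth : 0 < th) (hth2 : th ≤ 1 / 2) (hq : 1 ≤ q) (u : U) (x : X) (k : ℕ)
    (p : Fin k → ℝ) (M : Fin k → Finset (U × V)) (hp : ∀ i, 0 < p i) (hs : ∑ i, p i = 1)
    (hM : ∀ i, IsPM (M i) (wt nu (xs t)) (wt nv (xs t)) ∧ M i ⊆ Ot ∪ Rt) (hd : Disjoint Ot Rt)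
    (hO : ∀ v, xs t ∈ nu u → xs t ∈ nv v → (u, v) ∈ Ot →
      1 / q ≤ ∑ i, if (u, v) ∈ M i then p i else 0) :
    ∑ i, p i * potL O (Ot \ M i) nu nv xs m th q (t + 1) u x ≤
      potL O Ot nu nv xs m th q t u x := by
  have hq0 : 0 < q := by linarith
  set th' := thf th q (remc nu xs m (t + 1) u) with hth'
  set K := thf th q (remc nu xs m 0 u) * (zcB O nv u x : ℝ) with hK
  set A := acc O nv xs th q t u x with hA
  set cb : ℝ := (((nb O u).filter fun v => x ∉ nv v ∧ xs t ∉ nv v).card : ℝ) with hcb
  set Z : ℝ := (zcB Ot nv u x : ℝ) with hZ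
  have hcb0 : 0 ≤ cb := Nat.cast_nonneg _
  have hZ0 : 0 ≤ Z := Nat.cast_nonneg _
  obtain ⟨hb0, hb1⟩ := thf_bounds th q hth hth2 hq (remc nu xs m (t + 1) u)
  rw [← hth'] at hb0 hb1
  have hthq : 0 ≤ th / q * cb := mul_nonneg (div_nonneg hth.le hq0.le) hcb0
  -- value of the new term
  have hnew : ∀ i, potL O (Ot \ M i) nu nv xs m th q (t + 1) u x =
      Real.exp (th' * (zcB (Ot \ M i) nv u x : ℝ) - (A + th / q * cb) - K) := by
    intro i
    unfold potL
    rw [acc_succ]
  have hold : potL O Ot nu nv xs m th q t u x =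
      Real.exp (thf th q (remc nu xs m t u) * Z - A - K) := rfl
  by_cases hu : xs t ∈ nu u
  · -- the vertex takes part
    have hrem : thf th q (remc nu xs m t u) = th' * (1 - (1 - th) / q) := by
      rw [remc_succ nu xs m t ht u, if_pos hu, hth']
      unfold thf
      rw [add_comm 1, pow_succ, mul_assoc]
    set F : Finset V := (nb Ot u).filter fun v => x ∉ nv v with hF
    set d : Fin k → ℝ := fun i => ((F.filter fun v => (u, v) ∈ M i).card : ℝ) with hdd
    have hd1 : ∀ i, d i = 0 ∨ d i = 1 := by
      intro i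
      have h1 : (F.filter fun v => (u, v) ∈ M i).card ≤ 1 := by
        rw [Finset.card_le_one]
        intro a ha b hb
        exact (hM i).1.un1 u a b (Finset.mem_filter.1 ha).2 (Finset.mem_filter.1 hb).2
      simp only [hdd]
      interval_cases hc : (F.filter fun v => (u, v) ∈ M i).card
      · left; simp
      · right; simp
    have hzd : ∀ i, (zcB (Ot \ M i) nv u x : ℝ) = Z - d i := by
      intro i
      have := zc_sdiff Ot (M i) nv u x
      have h2 : ((zcB (Ot \ M i) nv u x : ℕ) : ℝ) +
        ((((nb Ot u).filter fun v => x ∉ nv v).filter fun v => (u, v) ∈ M i).card : ℝ) =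
          (zcB Ot nv u x : ℝ) := by exact_mod_cast this
      simp only [hdd, hF, hZ]
      linarith
    set c : ℝ := 1 - Real.exp (-th') with hc
    obtain ⟨hc1, hc2⟩ := exp_bounds th' hb0
    rw [← hc] at hc1 hc2
    have hc0 : 0 ≤ c := by
      have : 0 ≤ th' * (1 - th') := mul_nonneg hb0 (by linarith)
      linarith
    have hterm : ∀ i, p i * potL O (Ot \ M i) nu nv xs m th q (t + 1) u x =
        Real.exp (th' * Z - (A + th / q * cb) - K) * (p i - c * (p i * d i)) := by
      intro i
      rw [hnew, hzd]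
      rcases hd1 i with h0 | h0
      · rw [h0]
        simp only [sub_zero, mul_zero]
        ring
      · rw [h0]
        have e1 : th' * (Z - 1) - (A + th / q * cb) - K =
          (th' * Z - (A + th / q * cb) - K) + (-th') := by ring
        rw [e1, Real.exp_add]
        simp only [hc]
        ring
    set P : ℝ := ∑ i, p i * d i with hP
    have hPge : (Z - cb) / q ≤ P := by
      have e1 : P = ∑ v ∈ F, ∑ i, if (u, v) ∈ M i then p i else 0 := by
        rw [hP, Finset.sum_comm]
        refine Finset.sum_congr rfl fun i _ => ?_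
        simp only [hdd]
        rw [Finset.card_filter, Nat.cast_sum, Finset.mul_sum]
        refine Finset.sum_congr rfl fun v _ => ?_
        split_ifs <;> simp
      have e2 : ∑ v ∈ F.filter (fun v => xs t ∈ nv v), (1 / q) ≤ P := by
        rw [e1]
        refine le_trans (Finset.sum_le_sum fun v hv => ?_)
          (Finset.sum_le_sum_of_subset_of_nonneg (Finset.filter_subset _ F) ?_)
        · have h1 := (Finset.mem_filter.1 hv).1
          exact hO v hu (Finset.mem_filter.1 hv).2 (mem_nb.1 (Finset.mem_filter.1 h1).1)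
        · intro v _ _
          refine Finset.sum_nonneg fun i _ => ?_
          split_ifs
          · exact (hp i).le
          · exact le_rfl
      rw [Finset.sum_const, nsmul_eq_mul] at e2
      have e3 : Z - cb ≤ ((F.filter (fun v => xs t ∈ nv v)).card : ℝ) := by
        have h1 := Finset.card_filter_add_card_filter_not (s := F) (fun v => xs t ∈ nv v)
        have h2 : (F.filter (fun v => ¬ xs t ∈ nv v)).card ≤
            ((nb O u).filter fun v => x ∉ nv v ∧ xs t ∉ nv v).card := by
          refine Finset.card_le_card ?_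
          intro v hv
          rw [hF, Finset.mem_filter, Finset.mem_filter] at hv
          rw [Finset.mem_filter]
          exact ⟨nb_mono hOt u hv.1.1, hv.1.2, hv.2⟩
        have h3 : ((F.filter (fun v => ¬ xs t ∈ nv v)).card : ℝ) ≤ cb := by
          rw [hcb]
          exact_mod_cast h2
        have h4 : ((F.filter (fun v => xs t ∈ nv v)).card : ℝ) +
            ((F.filter (fun v => ¬ xs t ∈ nv v)).card : ℝ) = Z := by
          rw [hZ]
          unfold zcB
          exact_mod_cast h1
        linarith
      refine le_trans ?_ e2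
      rw [mul_one_div]
      exact div_le_div_of_nonneg_right e3 hq0.le
    have hsum : ∑ i, p i * potL O (Ot \ M i) nu nv xs m th q (t + 1) u x =
        Real.exp (th' * Z - (A + th / q * cb) - K) * (1 - c * P) := by
      rw [Finset.sum_congr rfl fun i _ => hterm i, ← Finset.mul_sum, Finset.sum_sub_distrib, hs,
        ← Finset.mul_sum]
    rw [hsum, hold, hrem]
    have h1 : 1 - c * P ≤ Real.exp (-(c * P)) := by
      have := Real.add_one_le_exp (-(c * P))
      linarith
    calc Real.exp (th' * Z - (A + th / q * cb) - K) * (1 - c * P)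
        ≤ Real.exp (th' * Z - (A + th / q * cb) - K) * Real.exp (-(c * P)) :=
          mul_le_mul_of_nonneg_left h1 (Real.exp_pos _).le
      _ = Real.exp (th' * Z - (A + th / q * cb) - K + -(c * P)) := by rw [Real.exp_add]
      _ ≤ Real.exp (th' * (1 - (1 - th) / q) * Z - A - K) := by
        apply Real.exp_le_exp.2
        have h2 : c * ((Z - cb) / q) ≤ c * P := mul_le_mul_of_nonneg_left hPge hc0
        have h3 : (1 - th) * th' ≤ c := by
          have : (1 - th) * th' ≤ th' * (1 - th') := by nlinarith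
          linarith
        have h4 : (1 - th) * th' * (Z / q) ≤ c * (Z / q) :=
          mul_le_mul_of_nonneg_right h3 (div_nonneg hZ0 hq0.le)
        have h5 : c * (cb / q) ≤ th * (cb / q) :=
          mul_le_mul_of_nonneg_right (by linarith) (div_nonneg hcb0 hq0.le)
        have e1 : c * ((Z - cb) / q) = c * (Z / q) - c * (cb / q) := by ring
        have e2 : th / q * cb = th * (cb / q) := by ring
        have e3 : th' * (1 - (1 - th) / q) * Z = th' * Z - (1 - th) * th' * (Z / q) := by ring
        rw [e2, e3]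
        linarith
  · -- the vertex does not take part
    have hrem : thf th q (remc nu xs m t u) = th' := by
      rw [remc_succ nu xs m t ht u, if_neg hu, zero_add]
    have hz : ∀ i, (zcB (Ot \ M i) nv u x : ℝ) = Z := by
      intro i
      have h1 := zc_sdiff Ot (M i) nv u x
      have h2 : (((nb Ot u).filter fun v => x ∉ nv v).filter fun v => (u, v) ∈ M i).card = 0 := by
        rw [Finset.card_eq_zero, Finset.filter_eq_empty_iff]
        intro v _ hv
        exact hu (mem_wt.1 ((hM i).1.sub _ hv).1)
      rw [h2, add_zero] at h1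
      rw [h1]
    rw [hold, hrem]
    calc ∑ i, p i * potL O (Ot \ M i) nu nv xs m th q (t + 1) u x
        ≤ ∑ i, p i * Real.exp (th' * Z - A - K) := by
          refine Finset.sum_le_sum fun i _ => mul_le_mul_of_nonneg_left ?_ (hp i).le
          rw [hnew, hz]
          apply Real.exp_le_exp.2
          linarith
      _ = Real.exp (th' * Z - A - K) := by
          rw [← Finset.sum_mul, hs, one_mul]

end Pool.Agent.Lib.TriS
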