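import Pool.Agent.Lib.TriS.BPotU
import Pool.Agent.Lib.TriS.BPotL

/-!
MODULE BStep (about 110 lines). One step of the block lemma.

`Sampler Go Gi S T (1/q) π` for `Go = Ot[S,T]`, `Gi = Rt[S,T]`, `S = wt nu (xs t)`, `T = wt nv (xs t)`. PROOF. Take the distribution; `M i ⊆ Go ∪ Gi ⊆ Ot ∪ Rt`.
For both sides (`(O,R,Ot,Rt,nu,nv)` and the transposed data, with `tr (M i)`, `IsPM.tr`, `tr_sdiff`) the average of every term of `pot` is at most the old
term (`potU_step`, `potL_step`; hypotheses: for `(u,v) ∈ Ot` with `xs t ∈ nu u`, `xs t ∈ nv v` the edge is in `Go`; the event 'edge of `Rt` at `u`' is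
the event 'edge of `Gi` at `u`' as `M i ⊆ S × T`). Sum over all terms: `∑ i, p i * (pot (t+1) (M i) + pot' (t+1) (M i)) ≤ pot t + pot' t`, so for some `i` the sum of the two new
potentials is `≤` the old one.
-/

/-!
MODULE BStep (about 110 lines). One step of the block lemma.

`Sampler Go Gi S T (1/q) π` for `Go = Ot[S,T]`, `Gi = Rt[S,T]`, `S = wt nu (xs t)`, `T = wt nv (xs t)`. PROOF. Take the distribution; `M i ⊆ Go ∪ Gi ⊆ Ot ∪ Rt`.
For both sides (`(O,R,Ot,Rt,nu,nv)` and the transposed data, with `tr (M i)`, `IsPM.tr`, `tr_sdiff`) the average of every term of `pot` is at most the old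
term (`potU_step`, `potL_step`; hypotheses: for `(u,v) ∈ Ot` with `xs t ∈ nu u`, `xs t ∈ nv v` the edge is in `Go`; the event 'edge of `Rt` at `u`' is
the event 'edge of `Gi` at `u`' as `M i ⊆ S × T`). Sum over all terms: `∑ i, p i * (pot (t+1) (M i) + pot' (t+1) (M i)) ≤ pot t + pot' t`, so for some `i` the sum of the two new
potentials is `≤` the old one.
-/

set_option autoImplicit false

open scoped Classical

noncomputable section

namespace Pool.Agent.Lib.TriS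

private theorem bstep_pot {U V X : Type} [Fintype U] [Fintype V] (O R Ot Rt : Finset (U × V))
    (hOt : Ot ⊆ O) (hd : Disjoint Ot Rt) (nu : U → Finset X) (nv : V → Finset X) (C : Finset X)
    (xs : ℕ → X) (m t : ℕ) (ht : t < m) (π th q : ℝ) (hπ : 0 ≤ π) (hth : 0 < th)
    (hth2 : th ≤ 1 / 2) (hq : 1 ≤ q) (k : ℕ) (p : Fin k → ℝ) (M : Fin k → Finset (U × V))
    (hp : ∀ i, 0 < p i) (hs : ∑ i, p i = 1)
    (hM : ∀ i, IsPM (M i) (wt nu (xs t)) (wt nv (xs t)) ∧ M i ⊆ Ot ∪ Rt)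
    (hR : ∀ u ∈ wt nu (xs t),
      ∑ i, (if ∃ v, (u, v) ∈ M i ∧ (u, v) ∈ Rt then p i else 0) ≤ π)
    (hO : ∀ u v, xs t ∈ nu u → xs t ∈ nv v → (u, v) ∈ Ot →
      1 / q ≤ ∑ i, if (u, v) ∈ M i then p i else 0) :
    ∑ i, p i * pot O R (Ot \ M i) (Rt \ M i) nu nv C xs m π th q (t + 1) ≤
      pot O R Ot Rt nu nv C xs m π th q t := by
  have e : ∑ i, p i * pot O R (Ot \ M i) (Rt \ M i) nu nv C xs m π th q (t + 1) =
      ∑ u, (∑ i, p i * potU R (Rt \ M i) π (t + 1) u) +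
        ∑ u, ∑ x ∈ C, ∑ i, p i * potL O (Ot \ M i) nu nv xs m th q (t + 1) u x := by
    have e1 : ∑ u, (∑ i, p i * potU R (Rt \ M i) π (t + 1) u) =
        ∑ i, ∑ u, p i * potU R (Rt \ M i) π (t + 1) u := Finset.sum_comm
    have e2 : ∑ u, ∑ x ∈ C, ∑ i, p i * potL O (Ot \ M i) nu nv xs m th q (t + 1) u x =
        ∑ i, ∑ u, ∑ x ∈ C, p i * potL O (Ot \ M i) nu nv xs m th q (t + 1) u x :=
      (Finset.sum_congr rfl fun u _ => Finset.sum_comm).trans Finset.sum_comm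
    rw [e1, e2, ← Finset.sum_add_distrib]
    refine Finset.sum_congr rfl fun i _ => ?_
    unfold pot
    rw [mul_add, Finset.mul_sum, Finset.mul_sum]
    congr 1
    refine Finset.sum_congr rfl fun u _ => ?_
    rw [Finset.mul_sum]
  rw [e]
  unfold pot
  refine add_le_add (Finset.sum_le_sum fun u _ => ?_)
    (Finset.sum_le_sum fun u _ => Finset.sum_le_sum fun x _ => ?_)
  · exact potU_step R Rt Ot (wt nu (xs t)) (wt nv (xs t)) π hπ t u k p M hp hs hM (hR u)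
  · exact potL_step O Ot Rt hOt nu nv xs m t ht th q hth hth2 hq u x k p M hp hs hM hd (hO u)

theorem block_step {U V X : Type} [Fintype U] [Fintype V] (O R Ot Rt : Finset (U × V))
    (hOt : Ot ⊆ O) (hd : Disjoint Ot Rt) (nu : U → Finset X) (nv : V → Finset X) (C : Finset X)
    (xs : ℕ → X) (m t : ℕ) (ht : t < m) (π th q : ℝ) (hπ : 0 ≤ π) (hth : 0 < th)
    (hth2 : th ≤ 1 / 2) (hq : 1 ≤ q)
    (hS : Sampler (Ot.filter fun p => xs t ∈ nu p.1 ∧ xs t ∈ nv p.2)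
      (Rt.filter fun p => xs t ∈ nu p.1 ∧ xs t ∈ nv p.2) (wt nu (xs t)) (wt nv (xs t)) (1 / q) π) :
    ∃ M ⊆ Ot ∪ Rt, IsPM M (wt nu (xs t)) (wt nv (xs t)) ∧
      pot O R (Ot \ M) (Rt \ M) nu nv C xs m π th q (t + 1) +
        pot (tr O) (tr R) (tr (Ot \ M)) (tr (Rt \ M)) nv nu C xs m π th q (t + 1) ≤
      pot O R Ot Rt nu nv C xs m π th q t +
        pot (tr O) (tr R) (tr Ot) (tr Rt) nv nu C xs m π th q t := by
  obtain ⟨k, p, M, hp, hs, hM, hGo, hGu, hGv⟩ := hS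
  have hM1 : ∀ i, IsPM (M i) (wt nu (xs t)) (wt nv (xs t)) ∧ M i ⊆ Ot ∪ Rt := by
    intro i
    refine ⟨(hM i).1, (hM i).2.trans ?_⟩
    exact Finset.union_subset_union (Finset.filter_subset _ _) (Finset.filter_subset _ _)
  have hM2 : ∀ i, IsPM (tr (M i)) (wt nv (xs t)) (wt nu (xs t)) ∧
      tr (M i) ⊆ tr Ot ∪ tr Rt := by
    intro i
    refine ⟨(hM1 i).1.tr, ?_⟩
    rw [← tr_union]
    exact tr_subset.2 (hM1 i).2
  have hR1 : ∀ u ∈ wt nu (xs t),
      ∑ i, (if ∃ v, (u, v) ∈ M i ∧ (u, v) ∈ Rt then p i else 0) ≤ π := by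
    intro u hu
    refine le_trans (le_of_eq ?_) (hGu u hu)
    refine Finset.sum_congr rfl fun i _ => ?_
    have hiff : (∃ v, (u, v) ∈ M i ∧ (u, v) ∈ Rt) ↔ ∃ v, (u, v) ∈ M i ∧
        (u, v) ∈ Rt.filter fun p => xs t ∈ nu p.1 ∧ xs t ∈ nv p.2 := by
      refine exists_congr fun v => and_congr_right fun h => ?_
      rw [Finset.mem_filter]
      have h1 := (hM i).1.sub _ h
      exact ⟨fun h2 => ⟨h2, mem_wt.1 h1.1, mem_wt.1 h1.2⟩, fun h2 => h2.1⟩
    by_cases h : ∃ v, (u, v) ∈ M i ∧ (u, v) ∈ Rt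
    · rw [if_pos h, if_pos (hiff.1 h)]
    · rw [if_neg h, if_neg (fun h' => h (hiff.2 h'))]
  have hR2 : ∀ v ∈ wt nv (xs t),
      ∑ i, (if ∃ u, (v, u) ∈ tr (M i) ∧ (v, u) ∈ tr Rt then p i else 0) ≤ π := by
    intro v hv
    refine le_trans (le_of_eq ?_) (hGv v hv)
    refine Finset.sum_congr rfl fun i _ => ?_
    have hiff : (∃ u, (v, u) ∈ tr (M i) ∧ (v, u) ∈ tr Rt) ↔ ∃ u, (u, v) ∈ M i ∧
        (u, v) ∈ Rt.filter fun p => xs t ∈ nu p.1 ∧ xs t ∈ nv p.2 := by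
      refine exists_congr fun u => ?_
      rw [mem_tr, mem_tr]
      refine and_congr_right fun h => ?_
      rw [Finset.mem_filter]
      have h1 := (hM i).1.sub _ h
      exact ⟨fun h2 => ⟨h2, mem_wt.1 h1.1, mem_wt.1 h1.2⟩, fun h2 => h2.1⟩
    by_cases h : ∃ u, (v, u) ∈ tr (M i) ∧ (v, u) ∈ tr Rt
    · rw [if_pos h, if_pos (hiff.1 h)]
    · rw [if_neg h, if_neg (fun h' => h (hiff.2 h'))]
  have hO1 : ∀ u v, xs t ∈ nu u → xs t ∈ nv v → (u, v) ∈ Ot →
      1 / q ≤ ∑ i, if (u, v) ∈ M i then p i else 0 := fun u v h1 h2 h3 =>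
    hGo (u, v) (Finset.mem_filter.2 ⟨h3, h1, h2⟩)
  have hO2 : ∀ v u, xs t ∈ nv v → xs t ∈ nu u → (v, u) ∈ tr Ot →
      1 / q ≤ ∑ i, if (v, u) ∈ tr (M i) then p i else 0 := by
    intro v u h1 h2 h3
    refine (hO1 u v h2 h1 (mem_tr.1 h3)).trans (le_of_eq ?_)
    exact Finset.sum_congr rfl fun i _ => if_congr mem_tr.symm rfl rfl
  have hd2 : Disjoint (tr Ot) (tr Rt) := by
    rw [Finset.disjoint_iff_inter_eq_empty] at hd ⊢
    rw [← tr_inter, hd]
    rfl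
  have h1 := bstep_pot O R Ot Rt hOt hd nu nv C xs m t ht π th q hπ hth hth2 hq k p M hp hs hM1
    hR1 hO1
  have h2 := bstep_pot (tr O) (tr R) (tr Ot) (tr Rt) (tr_subset.2 hOt) hd2 nv nu C xs m t ht π th q
    hπ hth hth2 hq k p (fun i => tr (M i)) hp hs hM2 hR2 hO2
  by_contra hc
  push Not at hc
  have h3 : ∀ i, pot O R Ot Rt nu nv C xs m π th q t +
      pot (tr O) (tr R) (tr Ot) (tr Rt) nv nu C xs m π th q t <
      pot O R (Ot \ M i) (Rt \ M i) nu nv C xs m π th q (t + 1) +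
        pot (tr O) (tr R) (tr Ot \ tr (M i)) (tr Rt \ tr (M i)) nv nu C xs m π th q (t + 1) := by
    intro i
    rw [← tr_sdiff, ← tr_sdiff]
    exact hc (M i) (hM1 i).2 (hM1 i).1
  have hk : (Finset.univ : Finset (Fin k)).Nonempty := by
    rw [Finset.nonempty_iff_ne_empty]
    intro h0
    rw [h0, Finset.sum_empty] at hs
    exact zero_ne_one hs
  have h4 := Finset.sum_lt_sum_of_nonempty hk fun i _ => mul_lt_mul_of_pos_left (h3 i) (hp i)
  rw [← Finset.sum_mul, hs, one_mul] at h4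
  have h5 : ∑ i, p i * (pot O R (Ot \ M i) (Rt \ M i) nu nv C xs m π th q (t + 1) +
        pot (tr O) (tr R) (tr Ot \ tr (M i)) (tr Rt \ tr (M i)) nv nu C xs m π th q (t + 1)) =
      ∑ i, p i * pot O R (Ot \ M i) (Rt \ M i) nu nv C xs m π th q (t + 1) +
      ∑ i, p i * pot (tr O) (tr R) (tr Ot \ tr (M i)) (tr Rt \ tr (M i)) nv nu C xs m π th q
        (t + 1) := by
    rw [← Finset.sum_add_distrib]
    exact Finset.sum_congr rfl fun i _ => mul_add _ _ _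
  rw [h5] at h4
  linarith

end Pool.Agent.Lib.TriS
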