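import Pool.Agent.Lib.TriS.BSamp
import Pool.Agent.Lib.TriS.BStep

/-!
MODULE BIter (about 200 lines). Iteration of the step over the colours of a block.

PROOF. `π = 2/10^4`, `th = 1/1000`, `q = 1001/1000 * o`, `m = Q.card`, `xs : ℕ → X` injective on `range m` with image `Q`.
Claim for `t ≤ m`: there is `Mt : ℕ → Finset (U × V)` with `Mt i ⊆ O ∪ R`, `IsPM (Mt i) (wt nu (xs i)) (wt nv (xs i))` for `i < t`, pairwise disjoint for `i ≠ j < t`, and with
`Ot = O \ ⋃_{i<t} Mt i`, `Rt = R \ ⋃_{i<t} Mt i`: `pot O R Ot Rt nu nv .. t + pot (tr O) (tr R) (tr Ot) (tr Rt) nv nu .. t ≤ exp (4 L)`.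
`t = 0`: every term is `exp 0 = 1`, the sum is `N + N |C| + N + N |C| ≤ 4 exp (2L) ≤ exp (4L)`.
Step (`t < m`): all terms are positive, so every `potU ≤ exp (4L)`: used edges at `u` `≤ (e-1) π t + 4L ≤ 1.72 * 2/10^4 * 1.01 s + 4/10^10 s ≤ s/400`. `D = image xs (range t) ⊆ C`, `D.card = t`.
Degrees: `Ot ∪ (P \ (R \ Rt)) = (O ∪ P) \ ⋃ Mt i`; by `card_nb_family` (index set `D`, `M x = Mt (index of x)`; or directly by induction: one more perfect
matching lowers the degree of `u` by `[xs t ∈ nu u]`): `card (nb ..) = card (nb (O ∪ P) u) - card (D ∩ nu u) = card (nu u ∩ C) + ρ - card (nu u ∩ D) = card (nu u ∩ (C \ D)) + ρ`.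
So `step_sampler` (with `x0 = xs t`) and `block_step` apply (`1 ≤ q`: `o ≥ 10^12`). The new matching is disjoint from the old ones because it is in `Ot ∪ Rt`.
-/

set_option autoImplicit false

open scoped Classical

noncomputable section

namespace Pool.Agent.Lib.TriS

private theorem bi_pot_nonneg {U V X : Type} [Fintype U] [Fintype V] (O R Ot Rt : Finset (U × V))
    (nu : U → Finset X) (nv : V → Finset X) (C : Finset X) (xs : ℕ → X) (m : ℕ) (π th q : ℝ)
    (t : ℕ) : 0 ≤ pot O R Ot Rt nu nv C xs m π th q t := by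
  unfold pot
  refine add_nonneg (Finset.sum_nonneg fun u _ => (Real.exp_pos _).le) ?_
  exact Finset.sum_nonneg fun u _ => Finset.sum_nonneg fun x _ => (Real.exp_pos _).le

private theorem bi_potU_le {U V X : Type} [Fintype U] [Fintype V] (O R Ot Rt : Finset (U × V))
    (nu : U → Finset X) (nv : V → Finset X) (C : Finset X) (xs : ℕ → X) (m : ℕ) (π th q : ℝ)
    (t : ℕ) (u : U) : potU R Rt π t u ≤ pot O R Ot Rt nu nv C xs m π th q t := by
  unfold pot
  have h1 : potU R Rt π t u ≤ ∑ u, potU R Rt π t u :=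
    Finset.single_le_sum (f := fun u => potU R Rt π t u) (fun u _ => (Real.exp_pos _).le)
      (Finset.mem_univ u)
  have h2 : 0 ≤ ∑ u, ∑ x ∈ C, potL O Ot nu nv xs m th q t u x :=
    Finset.sum_nonneg fun u _ => Finset.sum_nonneg fun x _ => (Real.exp_pos _).le
  linarith

private theorem bi_potL_le {U V X : Type} [Fintype U] [Fintype V] (O R Ot Rt : Finset (U × V))
    (nu : U → Finset X) (nv : V → Finset X) (C : Finset X) (xs : ℕ → X) (m : ℕ) (π th q : ℝ)
    (t : ℕ) (u : U) (x : X) (hx : x ∈ C) :
    potL O Ot nu nv xs m th q t u x ≤ pot O R Ot Rt nu nv C xs m π th q t := by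
  unfold pot
  have h0 : potL O Ot nu nv xs m th q t u x ≤ ∑ x ∈ C, potL O Ot nu nv xs m th q t u x :=
    Finset.single_le_sum (f := fun x => potL O Ot nu nv xs m th q t u x)
      (fun x _ => (Real.exp_pos _).le) hx
  have h1 : ∑ x ∈ C, potL O Ot nu nv xs m th q t u x ≤
      ∑ u, ∑ x ∈ C, potL O Ot nu nv xs m th q t u x :=
    Finset.single_le_sum (f := fun u => ∑ x ∈ C, potL O Ot nu nv xs m th q t u x)
      (fun u _ => Finset.sum_nonneg fun x _ => (Real.exp_pos _).le) (Finset.mem_univ u)
  have h2 : 0 ≤ ∑ u, potU R Rt π t u := Finset.sum_nonneg fun u _ => (Real.exp_pos _).le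
  linarith

private theorem bi_pot_zero {U V X : Type} [Fintype U] [Fintype V] (O R : Finset (U × V))
    (nu : U → Finset X) (nv : V → Finset X) (C : Finset X) (xs : ℕ → X) (m : ℕ) (π th q : ℝ) :
    pot O R O R nu nv C xs m π th q 0 =
      (Fintype.card U : ℝ) + (Fintype.card U : ℝ) * (C.card : ℝ) := by
  have h1 : ∀ u, potU R R π 0 u = 1 := by
    intro u
    unfold potU
    rw [Nat.cast_zero, mul_zero, sub_zero, sub_self, Real.exp_zero]
  have h2 : ∀ u x, potL O O nu nv xs m th q 0 u x = 1 := by
    intro u x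
    unfold potL acc
    rw [Finset.range_zero, Finset.sum_empty, mul_zero, sub_zero, sub_self, Real.exp_zero]
  unfold pot
  simp only [h1, h2, Finset.sum_const, Finset.card_univ, nsmul_eq_mul, mul_one]

private theorem bi_deg {U V X : Type} [Fintype U] [Fintype V] (O P R : Finset (U × V))
    (nu : U → Finset X) (nv : V → Finset X) (C : Finset X) (ρ : ℕ) (xs : ℕ → X) (t : ℕ)
    (hOP : Disjoint O P) (hRP : R ⊆ P)
    (hdeg : ∀ u, (nb (O ∪ P) u).card = (nu u ∩ C).card + ρ)
    (hinj : ∀ i < t, ∀ j < t, xs i = xs j → i = j)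
    (hC : (Finset.range t).image xs ⊆ C) (Mt : ℕ → Finset (U × V))
    (hM : ∀ i < t, Mt i ⊆ O ∪ R ∧ IsPM (Mt i) (wt nu (xs i)) (wt nv (xs i)))
    (hd : ∀ i < t, ∀ j < t, i ≠ j → Disjoint (Mt i) (Mt j)) (u : U) :
    (nb ((O \ (Finset.range t).biUnion Mt) ∪
      (P \ (R \ (R \ (Finset.range t).biUnion Mt)))) u).card =
      (nu u ∩ (C \ (Finset.range t).image xs)).card + ρ := by
  have hB : (Finset.range t).biUnion Mt ⊆ O ∪ R := by
    intro p hp
    obtain ⟨i, hi, hp⟩ := Finset.mem_biUnion.1 hp
    exact (hM i (Finset.mem_range.1 hi)).1 hp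
  have e1 : (O \ (Finset.range t).biUnion Mt) ∪
      (P \ (R \ (R \ (Finset.range t).biUnion Mt))) =
      (O ∪ P) \ (Finset.range t).biUnion Mt := by
    ext p
    have h1 : p ∈ (Finset.range t).biUnion Mt → p ∈ O ∨ p ∈ R := fun h =>
      Finset.mem_union.1 (hB h)
    have h2 : p ∈ O → p ∉ P := fun h => Finset.disjoint_left.1 hOP h
    have h3 : p ∈ R → p ∈ P := fun h => hRP h
    simp only [Finset.mem_union, Finset.mem_sdiff]
    tauto
  rw [e1]
  have hw : ∀ i ∈ Finset.range t,
      Mt i ⊆ O ∪ P ∧ IsPM (Mt i)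
        (wt (fun u => (Finset.range t).filter fun i => xs i ∈ nu u) i)
        (wt (fun v => (Finset.range t).filter fun i => xs i ∈ nv v) i) := by
    intro i hi
    have hi' := Finset.mem_range.1 hi
    have w1 : wt (fun u => (Finset.range t).filter fun i => xs i ∈ nu u) i = wt nu (xs i) := by
      ext u
      simp only [mem_wt, Finset.mem_filter]
      exact ⟨fun h => h.2, fun h => ⟨hi, h⟩⟩
    have w2 : wt (fun v => (Finset.range t).filter fun i => xs i ∈ nv v) i = wt nv (xs i) := by
      ext v
      simp only [mem_wt, Finset.mem_filter]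
      exact ⟨fun h => h.2, fun h => ⟨hi, h⟩⟩
    rw [w1, w2]
    refine ⟨(hM i hi').1.trans (Finset.union_subset_union_right hRP), (hM i hi').2⟩
  have hfam := card_nb_family (O ∪ P) (fun u => (Finset.range t).filter fun i => xs i ∈ nu u)
    (fun v => (Finset.range t).filter fun i => xs i ∈ nv v) (Finset.range t) Mt hw
    (fun i hi j hj hij => hd i (Finset.mem_range.1 hi) j (Finset.mem_range.1 hj) hij) u
  have hcard : (Finset.range t ∩ (Finset.range t).filter fun i => xs i ∈ nu u).card =
      ((Finset.range t).image xs ∩ nu u).card := by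
    refine Finset.card_bij (fun i _ => xs i) ?_ ?_ ?_
    · intro i hi
      simp only [Finset.mem_inter, Finset.mem_filter] at hi
      exact Finset.mem_inter.2 ⟨Finset.mem_image_of_mem _ hi.1, hi.2.2⟩
    · intro i hi j hj hij
      simp only [Finset.mem_inter, Finset.mem_range] at hi hj
      exact hinj i hi.1 j hj.1 hij
    · intro x hx
      obtain ⟨h1, h2⟩ := Finset.mem_inter.1 hx
      obtain ⟨i, hi, rfl⟩ := Finset.mem_image.1 h1
      refine ⟨i, ?_, rfl⟩
      simp only [Finset.mem_inter, Finset.mem_filter]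
      exact ⟨hi, hi, h2⟩
  have hsplit : (nu u ∩ C).card = (nu u ∩ (C \ (Finset.range t).image xs)).card +
      ((Finset.range t).image xs ∩ nu u).card := by
    rw [← Finset.card_union_of_disjoint]
    · congr 1
      ext x
      have h1 : x ∈ (Finset.range t).image xs → x ∈ C := fun h => hC h
      simp only [Finset.mem_inter, Finset.mem_union, Finset.mem_sdiff]
      tauto
    · rw [Finset.disjoint_left]
      intro x hx hx'
      simp only [Finset.mem_inter, Finset.mem_sdiff] at hx hx'
      exact hx.2.2 hx'.1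
  have h4 := hdeg u
  have hfam' : (nb ((O ∪ P) \ (Finset.range t).biUnion Mt) u).card +
      ((Finset.range t).image xs ∩ nu u).card = (nb (O ∪ P) u).card := by
    rw [← hcard]
    refine Eq.trans (congrArg₂ (· + ·) (congrArg Finset.card ?_) (congrArg Finset.card ?_)) hfam
    · ext v
      simp only [mem_nb, Finset.mem_sdiff, Finset.mem_biUnion]
    · ext i
      simp only [Finset.mem_inter, Finset.mem_filter]
  omega

private theorem bi_used {U V : Type} [Fintype U] [Fintype V] (R Rt : Finset (U × V)) (t : ℕ)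
    (u : U) (s L : ℝ) (hs : 0 ≤ s) (ht : (t : ℝ) ≤ 101 / 100 * s) (hL : 10 ^ 10 * L ≤ s)
    (h : potU R Rt (2 / 10 ^ 4) t u ≤ Real.exp (4 * L)) :
    ((nb R u).card : ℝ) - (nb Rt u).card ≤ s / 400 := by
  unfold potU at h
  have h1 := Real.exp_le_exp.1 h
  have h2 : Real.exp 1 - 1 ≤ 172 / 100 := by
    have := Real.exp_one_lt_d9
    linarith
  have h3 : (Real.exp 1 - 1) * (2 / 10 ^ 4) * (t : ℝ) ≤ 172 / 100 * (2 / 10 ^ 4) * (101 / 100 * s) := by
    have h4 : (0 : ℝ) ≤ Real.exp 1 - 1 := by
      have := Real.add_one_le_exp (1 : ℝ)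
      linarith
    have h5 : (0 : ℝ) ≤ t := Nat.cast_nonneg t
    refine mul_le_mul ?_ ht h5 (by norm_num)
    exact mul_le_mul_of_nonneg_right h2 (by norm_num)
  nlinarith

theorem block_iter {U V X : Type} [Fintype U] [Fintype V] (O P R : Finset (U × V))
    (nu : U → Finset X) (nv : V → Finset X) (C Q : Finset X) (ρ : ℕ) (dP o s L : ℝ)
    (h : BHyp O P R nu nv C Q ρ dP o s L) (xs : ℕ → X)
    (hinj : ∀ i < Q.card, ∀ j < Q.card, xs i = xs j → i = j)
    (him : (Finset.range Q.card).image xs = Q) :
    ∃ Mt : ℕ → Finset (U × V),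
      (∀ i < Q.card, Mt i ⊆ O ∪ R ∧ IsPM (Mt i) (wt nu (xs i)) (wt nv (xs i))) ∧
      (∀ i < Q.card, ∀ j < Q.card, i ≠ j → Disjoint (Mt i) (Mt j)) ∧
      (∀ u, ∀ x ∈ C, potL O (O \ (Finset.range Q.card).biUnion Mt) nu nv xs Q.card (1 / 1000)
        (1001 / 1000 * o) Q.card u x ≤ Real.exp (4 * L)) ∧
      (∀ v, ∀ x ∈ C, potL (tr O) (tr (O \ (Finset.range Q.card).biUnion Mt)) nv nu xs Q.card
        (1 / 1000) (1001 / 1000 * o) Q.card v x ≤ Real.exp (4 * L)) := by
  have hsL := h.sL
  have hL1 := h.L1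
  have hso := h.so2
  have hs10 : (10 : ℝ) ^ 10 ≤ s := by nlinarith
  have hs0 : (0 : ℝ) ≤ s := le_trans (by norm_num) hs10
  have hq1 : 1 ≤ 1001 / 1000 * o := by
    have : (1 : ℝ) ≤ s := le_trans (by norm_num) hs10
    nlinarith
  have hmem : ∀ i < Q.card, xs i ∈ Q := by
    intro i hi
    rw [← him]
    exact Finset.mem_image_of_mem _ (Finset.mem_range.2 hi)
  have hm : (Q.card : ℝ) ≤ 101 / 100 * s := by
    have := (abs_le.1 h.cQ).2
    nlinarith
  have key : ∀ t, t ≤ Q.card → ∃ Mt : ℕ → Finset (U × V),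
      (∀ i < t, Mt i ⊆ O ∪ R ∧ IsPM (Mt i) (wt nu (xs i)) (wt nv (xs i))) ∧
      (∀ i < t, ∀ j < t, i ≠ j → Disjoint (Mt i) (Mt j)) ∧
      pot O R (O \ (Finset.range t).biUnion Mt) (R \ (Finset.range t).biUnion Mt) nu nv C xs
          Q.card (2 / 10 ^ 4) (1 / 1000) (1001 / 1000 * o) t +
        pot (tr O) (tr R) (tr (O \ (Finset.range t).biUnion Mt))
          (tr (R \ (Finset.range t).biUnion Mt)) nv nu C xs
          Q.card (2 / 10 ^ 4) (1 / 1000) (1001 / 1000 * o) t ≤ Real.exp (4 * L) := by
    intro t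
    induction t with
    | zero =>
      intro _
      refine ⟨fun _ => ∅, ?_, ?_, ?_⟩
      · intro i hi
        exact absurd hi (Nat.not_lt_zero _)
      · intro i hi
        exact absurd hi (Nat.not_lt_zero _)
      · have e0 : (Finset.range 0).biUnion (fun _ : ℕ => (∅ : Finset (U × V))) = ∅ := by simp
        rw [e0, Finset.sdiff_empty, Finset.sdiff_empty, bi_pot_zero, bi_pot_zero, ← h.cUV]
        have hN := h.NL
        have hC := h.CL
        have hC0 : (0 : ℝ) ≤ (C.card : ℝ) := Nat.cast_nonneg _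
        have hN0 : (0 : ℝ) ≤ (Fintype.card U : ℝ) := Nat.cast_nonneg _
        have hE : (2 : ℝ) ≤ Real.exp L := by
          have := Real.add_one_le_exp L
          linarith
        have h4 : Real.exp (4 * L) = Real.exp L * Real.exp L * (Real.exp L * Real.exp L) := by
          rw [← Real.exp_add, ← Real.exp_add]
          congr 1
          ring
        have h5 : (Fintype.card U : ℝ) * (C.card : ℝ) ≤ Real.exp L * Real.exp L :=
          mul_le_mul hN hC hC0 (le_trans hN0 hN)
        rw [h4]
        have h6 : (4 : ℝ) ≤ Real.exp L * Real.exp L := by nlinarith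
        have h7 : Real.exp L ≤ Real.exp L * Real.exp L := by nlinarith
        nlinarith
    | succ t ih =>
      intro ht
      obtain ⟨Mt, hM, hd, hp⟩ := ih (by omega)
      have htm : t < Q.card := ht
      have htR : (t : ℝ) ≤ 101 / 100 * s := by
        have : (t : ℝ) ≤ Q.card := by exact_mod_cast htm.le
        linarith
      have hinj' : ∀ i < t, ∀ j < t, xs i = xs j → i = j := fun i hi j hj hij =>
        hinj i (by omega) j (by omega) hij
      have hDC : (Finset.range t).image xs ⊆ C := by
        intro x hx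
        obtain ⟨i, hi, rfl⟩ := Finset.mem_image.1 hx
        exact h.QC (hmem i (by have := Finset.mem_range.1 hi; omega))
      have hDc : (((Finset.range t).image xs).card : ℝ) ≤ 101 / 100 * s := by
        have h1 : ((Finset.range t).image xs).card ≤ t := by
          have := Finset.card_image_le (s := Finset.range t) (f := xs)
          rwa [Finset.card_range] at this
        have h2 : (((Finset.range t).image xs).card : ℝ) ≤ t := by exact_mod_cast h1
        linarith
      have hdisj : Disjoint (O \ (Finset.range t).biUnion Mt)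
          (R \ (Finset.range t).biUnion Mt) := by
        rw [Finset.disjoint_left]
        intro p hp1 hp2
        exact Finset.disjoint_left.1 h.dOP (Finset.mem_sdiff.1 hp1).1
          (h.RP (Finset.mem_sdiff.1 hp2).1)
      have hdeg1 := bi_deg O P R nu nv C ρ xs t h.dOP h.RP h.s1.deg hinj' hDC Mt hM hd
      have hdeg2 : ∀ v, (nb (tr ((O \ (Finset.range t).biUnion Mt) ∪
          (P \ (R \ (R \ (Finset.range t).biUnion Mt))))) v).card =
          (nv v ∩ (C \ (Finset.range t).image xs)).card + ρ := by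
        intro v
        have hM' : ∀ i < t, tr (Mt i) ⊆ tr O ∪ tr R ∧
            IsPM (tr (Mt i)) (wt nv (xs i)) (wt nu (xs i)) := by
          intro i hi
          refine ⟨?_, (hM i hi).2.tr⟩
          rw [← tr_union]
          exact tr_subset.2 (hM i hi).1
        have hd' : ∀ i < t, ∀ j < t, i ≠ j → Disjoint (tr (Mt i)) (tr (Mt j)) := by
          intro i hi j hj hij
          rw [Finset.disjoint_left]
          rintro ⟨v, u⟩ h1 h2
          exact Finset.disjoint_left.1 (hd i hi j hj hij) (mem_tr.1 h1) (mem_tr.1 h2)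
        have h3 := bi_deg (tr O) (tr P) (tr R) nv nu C ρ xs t h.symm.dOP h.symm.RP h.s2.deg
          hinj' hDC (fun i => tr (Mt i)) hM' hd' v
        rw [tr_union, tr_sdiff, tr_sdiff, tr_sdiff, tr_sdiff, tr_biUnion]
        exact h3
      have hu1 : ∀ u, ((nb R u).card : ℝ) - (nb (R \ (Finset.range t).biUnion Mt) u).card ≤
          s / 400 := by
        intro u
        refine bi_used R _ t u s L hs0 htR hsL ?_
        refine le_trans (bi_potU_le O R (O \ (Finset.range t).biUnion Mt) _ nu nv C xs Q.card _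
          (1 / 1000) (1001 / 1000 * o) t u) ?_
        refine le_trans ?_ hp
        exact le_add_of_nonneg_right (bi_pot_nonneg _ _ _ _ _ _ _ _ _ _ _ _ _)
      have hu2 : ∀ v, ((nb (tr R) v).card : ℝ) -
          (nb (tr (R \ (Finset.range t).biUnion Mt)) v).card ≤ s / 400 := by
        intro v
        refine bi_used (tr R) _ t v s L hs0 htR hsL ?_
        refine le_trans (bi_potU_le (tr O) (tr R) (tr (O \ (Finset.range t).biUnion Mt)) _ nv nu C
          xs Q.card _ (1 / 1000) (1001 / 1000 * o) t v) ?_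
        refine le_trans ?_ hp
        exact le_add_of_nonneg_left (bi_pot_nonneg _ _ _ _ _ _ _ _ _ _ _ _ _)
      have hsam := step_sampler O P R (O \ (Finset.range t).biUnion Mt)
        (R \ (Finset.range t).biUnion Mt) nu nv C Q ((Finset.range t).image xs) ρ dP o s L (xs t)
        h Finset.sdiff_subset Finset.sdiff_subset hDC hDc (hmem t htm) hdeg1 hdeg2 hu1 hu2
      obtain ⟨M, hMs, hMp, hpot⟩ := block_step O R (O \ (Finset.range t).biUnion Mt)
        (R \ (Finset.range t).biUnion Mt) Finset.sdiff_subset hdisj nu nv C xs Q.card t htm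
        (2 / 10 ^ 4) (1 / 1000) (1001 / 1000 * o) (by norm_num) (by norm_num) (by norm_num) hq1
        hsam
      have hMOR : M ⊆ O ∪ R :=
        hMs.trans (Finset.union_subset_union Finset.sdiff_subset Finset.sdiff_subset)
      have hMdis : ∀ i < t, Disjoint (Mt i) M := by
        intro i hi
        rw [Finset.disjoint_left]
        intro p hp1 hp2
        have h1 : p ∈ (Finset.range t).biUnion Mt :=
          Finset.mem_biUnion.2 ⟨i, Finset.mem_range.2 hi, hp1⟩
        rcases Finset.mem_union.1 (hMs hp2) with h2 | h2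
        · exact (Finset.mem_sdiff.1 h2).2 h1
        · exact (Finset.mem_sdiff.1 h2).2 h1
      have hB : (Finset.range (t + 1)).biUnion (Function.update Mt t M) =
          (Finset.range t).biUnion Mt ∪ M := by
        rw [Finset.range_add_one, Finset.biUnion_insert, Function.update_self, Finset.union_comm]
        congr 1
        refine Finset.biUnion_congr rfl fun i hi => ?_
        rw [Function.update_of_ne (Finset.mem_range.1 hi).ne]
      refine ⟨Function.update Mt t M, ?_, ?_, ?_⟩
      · intro i hi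
        rcases Nat.lt_succ_iff_lt_or_eq.1 hi with h1 | rfl
        · rw [Function.update_of_ne h1.ne]
          exact hM i h1
        · rw [Function.update_self]
          exact ⟨hMOR, hMp⟩
      · intro i hi j hj hij
        rcases Nat.lt_succ_iff_lt_or_eq.1 hi with h1 | rfl
        · rcases Nat.lt_succ_iff_lt_or_eq.1 hj with h2 | rfl
          · rw [Function.update_of_ne h1.ne, Function.update_of_ne h2.ne]
            exact hd i h1 j h2 hij
          · rw [Function.update_of_ne h1.ne, Function.update_self]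
            exact hMdis i h1
        · rcases Nat.lt_succ_iff_lt_or_eq.1 hj with h2 | h2
          · rw [Function.update_self, Function.update_of_ne h2.ne]
            exact (hMdis j h2).symm
          · exact absurd h2.symm hij
      · have hs1 : ∀ A : Finset (U × V), A \ ((Finset.range t).biUnion Mt ∪ M) =
            (A \ (Finset.range t).biUnion Mt) \ M := by
          intro A
          ext p
          simp only [Finset.mem_sdiff, Finset.mem_union]
          tauto
        rw [hB, hs1, hs1]
        exact hpot.trans hp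
  obtain ⟨Mt, hM, hd, hp⟩ := key Q.card le_rfl
  refine ⟨Mt, hM, hd, ?_, ?_⟩
  · intro u x hx
    refine le_trans (bi_potL_le O R _ (R \ (Finset.range Q.card).biUnion Mt) nu nv C xs Q.card
      (2 / 10 ^ 4) (1 / 1000) (1001 / 1000 * o) Q.card u x hx) ?_
    refine le_trans ?_ hp
    exact le_add_of_nonneg_right (bi_pot_nonneg _ _ _ _ _ _ _ _ _ _ _ _ _)
  · intro v x hx
    refine le_trans (bi_potL_le (tr O) (tr R) _ (tr (R \ (Finset.range Q.card).biUnion Mt)) nv nu
      C xs Q.card (2 / 10 ^ 4) (1 / 1000) (1001 / 1000 * o) Q.card v x hx) ?_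
    refine le_trans ?_ hp
    exact le_add_of_nonneg_left (bi_pot_nonneg _ _ _ _ _ _ _ _ _ _ _ _ _)

end Pool.Agent.Lib.TriS
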