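import Pool.Agent.Lib.TriS.BDefs

/-!
MODULE BPotU (about 90 lines). The load term does not increase on average.

`S`, `T` = vertices that need the colour of the step. PROOF. If `u ∉ S` the matchings do not touch `u`: `nb (Rt \ M i) u = nb Rt u`, and the factor
`exp (-(e-1) π) ≤ 1`. If `u ∈ S`: `M i` has exactly one edge `(u,v)` at `u`; `card (nb (Rt \ M i) u) = card (nb Rt u) - [ (u,v) ∈ Rt ]` (real numbers), so
the new term is the old one times `exp ([..] - (e-1)π) = (1 + (e-1) [..]) exp (-(e-1)π)`; average: `(1 + (e-1) P) exp (-(e-1)π) ≤ 1` since `P ≤ π`,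
`1 + y ≤ exp y`.
-/

set_option autoImplicit false

open scoped Classical

noncomputable section

namespace Pool.Agent.Lib.TriS

private theorem bpotu_card {U V : Type} [Fintype V] (Rt M : Finset (U × V)) (S : Finset U)
    (T : Finset V) (hM : IsPM M S T) (u : U) :
    ((nb (Rt \ M) u).card : ℝ) =
      (nb Rt u).card - (if ∃ v, (u, v) ∈ M ∧ (u, v) ∈ Rt then 1 else 0) := by
  rw [nb_sdiff]
  split_ifs with h
  · obtain ⟨v, hv, hv'⟩ := h
    have e : nb Rt u \ nb M u = (nb Rt u).erase v := by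
      ext v'
      rw [Finset.mem_sdiff, Finset.mem_erase, mem_nb, mem_nb]
      constructor
      · rintro ⟨h1, h2⟩
        exact ⟨fun e => h2 (e ▸ hv), h1⟩
      · rintro ⟨h1, h2⟩
        exact ⟨h2, fun h3 => h1 (hM.un1 u v' v h3 hv)⟩
    have h1 := Finset.card_erase_add_one (mem_nb.2 hv')
    rw [e, eq_sub_iff_add_eq]
    exact_mod_cast h1
  · have e : nb Rt u \ nb M u = nb Rt u := by
      rw [Finset.sdiff_eq_self_iff_disjoint, Finset.disjoint_left]
      intro v h1 h2
      exact h ⟨v, mem_nb.1 h2, mem_nb.1 h1⟩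
    rw [e, sub_zero]

theorem potU_step {U V : Type} [Fintype V] (R Rt Ot : Finset (U × V))
    (S : Finset U) (T : Finset V) (π : ℝ) (hπ : 0 ≤ π) (t : ℕ) (u : U) (k : ℕ) (p : Fin k → ℝ)
    (M : Fin k → Finset (U × V)) (hp : ∀ i, 0 < p i) (hs : ∑ i, p i = 1)
    (hM : ∀ i, IsPM (M i) S T ∧ M i ⊆ Ot ∪ Rt)
    (hR : u ∈ S → ∑ i, (if ∃ v, (u, v) ∈ M i ∧ (u, v) ∈ Rt then p i else 0) ≤ π) :
    ∑ i, p i * potU R (Rt \ M i) π (t + 1) u ≤ potU R Rt π t u := by
  set q : Fin k → ℝ := fun i => if ∃ v, (u, v) ∈ M i ∧ (u, v) ∈ Rt then 1 else 0 with hqdef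
  have hq : ∑ i, p i * q i ≤ π := by
    by_cases hu : u ∈ S
    · refine le_trans (le_of_eq ?_) (hR hu)
      refine Finset.sum_congr rfl fun i _ => ?_
      simp only [hqdef]
      split_ifs <;> simp
    · have h0 : ∀ i, q i = 0 := by
        intro i
        simp only [hqdef]
        rw [if_neg]
        rintro ⟨v, hv, -⟩
        exact hu ((hM i).1.sub _ hv).1
      simp only [h0, mul_zero, Finset.sum_const_zero]
      exact hπ
  have he : ∀ i, Real.exp (q i) = 1 + (Real.exp 1 - 1) * q i := by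
    intro i
    simp only [hqdef]
    split_ifs
    · ring
    · rw [Real.exp_zero, mul_zero, add_zero]
  have hterm : ∀ i, p i * potU R (Rt \ M i) π (t + 1) u =
      potU R Rt π t u * Real.exp (-((Real.exp 1 - 1) * π)) *
        (p i + (Real.exp 1 - 1) * (p i * q i)) := by
    intro i
    unfold potU
    rw [bpotu_card Rt (M i) S T (hM i).1 u]
    change p i * Real.exp (((nb R u).card : ℝ) - ((nb Rt u).card - q i) -
      (Real.exp 1 - 1) * π * ((t + 1 : ℕ) : ℝ)) = _
    have h1 : ((nb R u).card : ℝ) - ((nb Rt u).card - q i) -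
        (Real.exp 1 - 1) * π * ((t + 1 : ℕ) : ℝ) =
        (((nb R u).card : ℝ) - (nb Rt u).card - (Real.exp 1 - 1) * π * t) +
          -((Real.exp 1 - 1) * π) + q i := by
      push_cast
      ring
    rw [h1, Real.exp_add, Real.exp_add, he i]
    ring
  have hA : 0 < potU R Rt π t u := Real.exp_pos _
  have hE : 0 ≤ Real.exp 1 - 1 := by
    have := Real.add_one_le_exp (1 : ℝ)
    linarith
  rw [Finset.sum_congr rfl fun i _ => hterm i, ← Finset.mul_sum, Finset.sum_add_distrib, hs,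
    ← Finset.mul_sum, mul_assoc]
  have h2 : Real.exp (-((Real.exp 1 - 1) * π)) * (1 + (Real.exp 1 - 1) * ∑ i, p i * q i) ≤ 1 := by
    rw [Real.exp_neg, inv_mul_le_iff₀ (Real.exp_pos _), mul_one]
    have h3 := Real.add_one_le_exp ((Real.exp 1 - 1) * π)
    have h4 := mul_le_mul_of_nonneg_left hq hE
    linarith
  calc potU R Rt π t u * (Real.exp (-((Real.exp 1 - 1) * π)) *
        (1 + (Real.exp 1 - 1) * ∑ i, p i * q i)) ≤ potU R Rt π t u * 1 :=
        mul_le_mul_of_nonneg_left h2 hA.le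
    _ = potU R Rt π t u := mul_one _

end Pool.Agent.Lib.TriS
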