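import Pool.Agent.Lib.TriS.BWin

/-!
MODULE BSamp (about 150 lines). The sampler of one step of a block exists.

PROOF. `S = wt nu x0`, `T = wt nv x0`, `Go = Ot.filter ..`, `Gi = Rt.filter ..`. For `u ∈ S`: `nb Go u = (nb Ot u).filter (x0 ∈ nv ·)`, the same for `Gi`. If `S` is empty so is
`T` (`hbal`) and `Go`, `Gi` are empty: take `m = 1`, `p = 1`, `M = ∅`. Otherwise: by `window` for both sides with `t = D.card`: the degrees in `Go` are in
`[o - t - 2/10^5 o, o - t + 3/10^5 o]`. `d = ⌈5/10^5 o⌉₊`, `D' = ⌊o - t + 3/10^5 o⌋₊` satisfy the hypotheses of `flow_sample` (`t ≤ 101/100 s ≤ 102/10^4 o`, `o ≥ 10^12`).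
`window_R`, `expans` for both sides give `e1`, `e2` (`card S ≤ card U = N`). `10 ≤ card S`: `u ∈ S` has at least `97/100 (s/8) ≥ 10` neighbours in `Gi`, all in `T`, and
`card T = card S`. `1/(D'+2d) ≥ 1/(1.001 o)` as `D' + 2d ≤ o + 3/10^5 o + 10/10^5 o + 2`; `3d/(D'+2d) ≤ 2/10^4` as `3 d ≤ 15/10^5 o + 3`, `D' + 2 d ≥ 98/100 o`.
(`Sampler` with smaller `α`, larger `β`: monotone.) `Disjoint Go Gi`: `Ot ⊆ O`, `Rt ⊆ P`.
-/

set_option autoImplicit false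

open scoped Classical

noncomputable section

namespace Pool.Agent.Lib.TriS

private theorem bsamp_nb {U V X : Type} [Fintype V] (G : Finset (U × V)) (nu : U → Finset X)
    (nv : V → Finset X) (x0 : X) (u : U) (hu : x0 ∈ nu u) :
    nb (G.filter fun p => x0 ∈ nu p.1 ∧ x0 ∈ nv p.2) u = (nb G u).filter fun v => x0 ∈ nv v := by
  ext v
  simp only [mem_nb, Finset.mem_filter]
  constructor
  · rintro ⟨h1, _, h3⟩
    exact ⟨h1, h3⟩
  · rintro ⟨h1, h3⟩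
    exact ⟨h1, hu, h3⟩

private theorem bsamp_tr {U V X : Type} (G : Finset (U × V)) (nu : U → Finset X)
    (nv : V → Finset X) (x0 : X) :
    tr (G.filter fun p => x0 ∈ nu p.1 ∧ x0 ∈ nv p.2) =
      (tr G).filter fun p => x0 ∈ nv p.1 ∧ x0 ∈ nu p.2 := by
  ext ⟨v, u⟩
  simp only [mem_tr, Finset.mem_filter]
  constructor
  · rintro ⟨h1, h2, h3⟩
    exact ⟨h1, h3, h2⟩
  · rintro ⟨h1, h2, h3⟩
    exact ⟨h1, h3, h2⟩

private theorem bsamp_mono {U V : Type} {Go Gi : Finset (U × V)} {S : Finset U} {T : Finset V}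
    {α β α' β' : ℝ} (h : Sampler Go Gi S T α β) (ha : α' ≤ α) (hb : β ≤ β') :
    Sampler Go Gi S T α' β' := by
  obtain ⟨m, p, M, h1, h2, h3, h4, h5, h6⟩ := h
  exact ⟨m, p, M, h1, h2, h3, fun q hq => ha.trans (h4 q hq), fun u hu => (h5 u hu).trans hb,
    fun v hv => (h6 v hv).trans hb⟩

private theorem bsamp_empty {U V : Type} (α β : ℝ) :
    Sampler (∅ : Finset (U × V)) ∅ ∅ ∅ α β := by
  refine ⟨1, fun _ => 1, fun _ => ∅, fun _ => one_pos, by simp, fun _ => ⟨⟨?_, ?_, ?_, ?_, ?_⟩, by simp⟩,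
    ?_, ?_, ?_⟩
  all_goals simp

theorem step_sampler {U V X : Type} [Fintype U] [Fintype V] (O P R Ot Rt : Finset (U × V))
    (nu : U → Finset X) (nv : V → Finset X) (C Q D : Finset X) (ρ : ℕ) (dP o s L : ℝ) (x0 : X)
    (h : BHyp O P R nu nv C Q ρ dP o s L) (hOt : Ot ⊆ O) (hRt : Rt ⊆ R) (hD : D ⊆ C)
    (hDc : (D.card : ℝ) ≤ 101 / 100 * s) (hx0 : x0 ∈ Q)
    (hdeg1 : ∀ u, (nb (Ot ∪ (P \ (R \ Rt))) u).card = (nu u ∩ (C \ D)).card + ρ)
    (hdeg2 : ∀ v, (nb (tr (Ot ∪ (P \ (R \ Rt)))) v).card = (nv v ∩ (C \ D)).card + ρ)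
    (hu1 : ∀ u, ((nb R u).card : ℝ) - (nb Rt u).card ≤ s / 400)
    (hu2 : ∀ v, ((nb (tr R) v).card : ℝ) - (nb (tr Rt) v).card ≤ s / 400) :
    Sampler (Ot.filter fun p => x0 ∈ nu p.1 ∧ x0 ∈ nv p.2)
      (Rt.filter fun p => x0 ∈ nu p.1 ∧ x0 ∈ nv p.2) (wt nu x0) (wt nv x0)
      (1 / (1001 / 1000 * o)) (2 / 10 ^ 4) := by
  have hs10 : (10 : ℝ) ^ 10 ≤ s := by
    have h1 := h.sL
    have h2 := h.L1
    nlinarith
  have hs : 0 < s := lt_of_lt_of_le (by norm_num) hs10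
  have hso := h.so2
  have ho12 : (10 : ℝ) ^ 12 ≤ o := by
    have : 100 * s ≤ o := by linarith
    nlinarith
  have ho : 0 < o := lt_of_lt_of_le (by norm_num) ho12
  have hx0C : x0 ∈ C := h.QC hx0
  have hbal := h.bal x0 hx0
  have hRtP : Rt ⊆ P := hRt.trans h.RP
  have hsy := h.symm
  have hdeg2' : ∀ v, (nb (tr Ot ∪ (tr P \ (tr R \ tr Rt))) v).card = (nv v ∩ (C \ D)).card + ρ := by
    intro v
    rw [← hdeg2 v, tr_union, tr_sdiff, tr_sdiff]
  have w1 := fun u => window O P R Ot Rt nu nv C Q D ρ dP o s x0 h.s1 h.dOP h.RP hOt hRt hs hso h.cC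
    hD hx0C u (hdeg1 u) (hu1 u)
  have w2 := fun v => window (tr O) (tr P) (tr R) (tr Ot) (tr Rt) nv nu C Q D ρ dP o s x0 hsy.s1
    hsy.dOP hsy.RP (tr_subset.2 hOt) (tr_subset.2 hRt) hs hso hsy.cC hD hx0C v (hdeg2' v) (hu2 v)
  have r1 := fun u => window_R O P R Rt nu nv C Q ρ dP o s x0 h.s1 hRt hs hx0C u (hu1 u)
  have r2 := fun v => window_R (tr O) (tr P) (tr R) (tr Rt) nv nu C Q ρ dP o s x0 hsy.s1
    (tr_subset.2 hRt) hs hx0C v (hu2 v)
  have hgoS : ∀ (G : Finset (U × V)), ∀ p ∈ G.filter (fun p => x0 ∈ nu p.1 ∧ x0 ∈ nv p.2),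
      p.1 ∈ wt nu x0 ∧ p.2 ∈ wt nv x0 := by
    intro G p hp
    have h1 := (Finset.mem_filter.1 hp).2
    exact ⟨mem_wt.2 h1.1, mem_wt.2 h1.2⟩
  rcases Finset.eq_empty_or_nonempty (wt nu x0) with hS | ⟨u0, hu0⟩
  · have hT : wt nv x0 = ∅ := by
      rw [← Finset.card_eq_zero, ← hbal, hS, Finset.card_empty]
    have hem : ∀ (G : Finset (U × V)), G.filter (fun p => x0 ∈ nu p.1 ∧ x0 ∈ nv p.2) = ∅ := by
      intro G
      rw [Finset.eq_empty_iff_forall_notMem]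
      intro p hp
      have h1 := (hgoS G p hp).1
      rw [hS] at h1
      exact Finset.notMem_empty _ h1
    rw [hem, hem, hS, hT]
    exact bsamp_empty _ _
  · have ht0 : (0 : ℝ) ≤ D.card := Nat.cast_nonneg _
    have ht : (D.card : ℝ) ≤ 102 / 10 ^ 4 * o := by
      have : 101 / 100 * s ≤ 101 / 100 * (o / 100) := by
        refine mul_le_mul_of_nonneg_left hso (by norm_num)
      linarith
    have hnn : (0 : ℝ) ≤ o - D.card + 3 / 10 ^ 5 * o := by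
      linarith
    have f1 := Nat.floor_le hnn
    have f2 := Nat.lt_floor_add_one (o - D.card + 3 / 10 ^ 5 * o)
    have g1 := Nat.le_ceil (5 / 10 ^ 5 * o)
    have g2 := Nat.ceil_lt_add_one (show (0 : ℝ) ≤ 5 / 10 ^ 5 * o by positivity)
    obtain ⟨D', hD'⟩ : ∃ D' : ℕ, D' = ⌊o - D.card + 3 / 10 ^ 5 * o⌋₊ := ⟨_, rfl⟩
    obtain ⟨d, hd⟩ : ∃ d : ℕ, d = ⌈5 / 10 ^ 5 * o⌉₊ := ⟨_, rfl⟩
    have hfl : ∀ n : ℕ, (n : ℝ) ≤ o - D.card + 3 / 10 ^ 5 * o → n ≤ D' := by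
      intro n hn
      rw [hD']
      exact Nat.le_floor hn
    rw [← hD'] at f1 f2
    rw [← hd] at g1 g2
    have hlow : ∀ n : ℕ, o - D.card - 2 / 10 ^ 5 * o ≤ (n : ℝ) → D' - d ≤ n := by
      intro n hn
      have : (D' : ℝ) ≤ (n : ℝ) + d := by linarith
      have : D' ≤ n + d := by exact_mod_cast this
      omega
    have hd0 : 0 < d := by
      have : (0 : ℝ) < d := lt_of_lt_of_le (by positivity) g1
      exact_mod_cast this
    have hdD : d ≤ D' := by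
      have : (d : ℝ) ≤ D' := by linarith
      exact_mod_cast this
    have nGi : ∀ u ∈ wt nu x0, 97 / 100 * (s / 8) ≤
        ((nb (Rt.filter fun p => x0 ∈ nu p.1 ∧ x0 ∈ nv p.2) u).card : ℝ) := by
      intro u hu
      rw [bsamp_nb Rt nu nv x0 u (mem_wt.1 hu)]
      exact r1 u
    have nGi2 : ∀ v ∈ wt nv x0, 97 / 100 * (s / 8) ≤
        ((nb (tr (Rt.filter fun p => x0 ∈ nu p.1 ∧ x0 ∈ nv p.2)) v).card : ℝ) := by
      intro v hv
      rw [bsamp_tr, bsamp_nb (tr Rt) nv nu x0 v (mem_wt.1 hv)]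
      exact r2 v
    have hsub1 : (Rt.filter fun p => x0 ∈ nu p.1 ∧ x0 ∈ nv p.2) ⊆ R :=
      (Finset.filter_subset _ _).trans hRt
    have hN : 10 ≤ (wt nu x0).card := by
      have h1 : nb (Rt.filter fun p => x0 ∈ nu p.1 ∧ x0 ∈ nv p.2) u0 ⊆ wt nv x0 := by
        intro v hv
        exact (hgoS Rt _ (mem_nb.1 hv)).2
      have h2 := Finset.card_le_card h1
      rw [← hbal] at h2
      have h3 := nGi u0 hu0
      have h4 : (10 : ℝ) ≤ (wt nu x0).card := by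
        have h5 : ((nb (Rt.filter fun p => x0 ∈ nu p.1 ∧ x0 ∈ nv p.2) u0).card : ℝ) ≤
          (wt nu x0).card := by exact_mod_cast h2
        have h6 : (10 : ℝ) ≤ 97 / 100 * (s / 8) := by
          have : (1000 : ℝ) ≤ s := le_trans (by norm_num) hs10
          linarith
        linarith
      exact_mod_cast h4
    have hdis : Disjoint (Ot.filter fun p => x0 ∈ nu p.1 ∧ x0 ∈ nv p.2)
        (Rt.filter fun p => x0 ∈ nu p.1 ∧ x0 ∈ nv p.2) :=
      h.dOP.mono ((Finset.filter_subset _ _).trans hOt) ((Finset.filter_subset _ _).trans hRtP)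
    have e1 := expans R (Rt.filter fun p => x0 ∈ nu p.1 ∧ x0 ∈ nv p.2) s (Fintype.card U : ℝ) hs
      h.mix hsub1 (wt nu x0) (by exact_mod_cast Finset.card_le_univ _) nGi
    have e2 := expans (tr R) (tr (Rt.filter fun p => x0 ∈ nu p.1 ∧ x0 ∈ nv p.2)) s
      (Fintype.card V : ℝ) hs hsy.mix (tr_subset.2 hsub1) (wt nv x0)
      (by exact_mod_cast Finset.card_le_univ _) nGi2
    have key := flow_sample (Ot.filter fun p => x0 ∈ nu p.1 ∧ x0 ∈ nv p.2)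
      (Rt.filter fun p => x0 ∈ nu p.1 ∧ x0 ∈ nv p.2) (wt nu x0) (wt nv x0) hbal hN hdis
      (hgoS Ot) (hgoS Rt) D' d hd0 hdD ?_ ?_ e1 e2
    · have hd' : (1 : ℝ) ≤ d := by exact_mod_cast hd0
      have hDp : (0 : ℝ) ≤ D' := Nat.cast_nonneg _
      have hpos : (0 : ℝ) < (D' : ℝ) + 2 * d := by linarith
      refine bsamp_mono key ?_ ?_
      · refine one_div_le_one_div_of_le hpos ?_
        linarith
      · rw [div_le_iff₀ hpos]
        linarith
    · intro u hu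
      rw [bsamp_nb Ot nu nv x0 u (mem_wt.1 hu)]
      exact ⟨hlow _ (w1 u).1, hfl _ (w1 u).2⟩
    · intro v hv
      rw [bsamp_tr, bsamp_nb (tr Ot) nv nu x0 v (mem_wt.1 hv)]
      exact ⟨hlow _ (w2 v).1, hfl _ (w2 v).2⟩

end Pool.Agent.Lib.TriS
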