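import Pool.Agent.Lib.TriS.BHyp

/-!
MODULE BWin (about 130 lines). Degree window and expansion during a block.

PROOF of `window`. `Pt = P \ (R \ Rt)`, `Rt ⊆ R ⊆ P`: `card (nb Pt u) = card (nb P u) - (card (nb R u) - card (nb Rt u))`. `Ot`, `Pt` are disjoint, so
`card (nb Ot u) = card (nu u ∩ (C \ D)) + ρ - card (nb Pt u)`. `card (C \ D) = card C - t`, `card (C \ nu u) ≤ 1/10^7 o`, so
`card C - t - 1/10^7 o ≤ card (nu u ∩ (C \ D)) ≤ card C - t`. With `degP`, `hCo` and the bound `s/400 ≤ o/40000` for the used edges: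
`o - t - 4/10^7 o ≤ card (nb Ot u) ≤ o - t + 3/10^7 o + o/40000`. The neighbours `v` of `u` in `Ot ⊆ O` with `x0 ∉ nv v` are at most `1/10^5 o` (`badO`).
`window_R`: `card {v ∈ nb Rt u | x0 ∈ nv v} ≥ card (nb R u) - s/400 - 1/10^7 s ≥ s/8 - 2/10^7 s - s/400 ≥ 97/100 * (s/8)`.
PROOF of `expans`. `T = S'.biUnion (nb Gi)`; if `3 |S'| > 2 |T|` then `|S'| > 0`, `|T| < 3/2 |S'|`, `max |S'| |T| ≤ 3/2 |S'|`, `97/100 (s/8) |S'| ≤ eb Gi S' T ≤ eb R S' T ≤
(s/8) (12/10 |S'||T|/N + 1/100 * 3/2 |S'|)`. Divide by `(s/8)|S'|`: `0.955 ≤ 1.2 |T|/N`, `|T| ≥ 0.795 N` (`N > 0` since `S'` is nonempty), but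
`|T| < 1.5 * 0.51 |S| ≤ 0.765 N`. (`eb_eq_sum`.)
-/

set_option autoImplicit false

open scoped Classical

noncomputable section

namespace Pool.Agent.Lib.TriS

private theorem bwin_split {V : Type} (A : Finset V) (p : V → Prop) [DecidablePred p]
    [DecidablePred fun v => ¬ p v] :
    ((A.filter p).card : ℝ) + ((A.filter fun v => ¬ p v).card : ℝ) = (A.card : ℝ) := by
  have h := Finset.card_filter_add_card_filter_not (s := A) p
  exact_mod_cast h

theorem window {U V X : Type} [Fintype U] [Fintype V] (O P R Ot Rt : Finset (U × V))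
    (nu : U → Finset X) (nv : V → Finset X) (C Q D : Finset X) (ρ : ℕ) (dP o s : ℝ) (x0 : X)
    (hb : BSide O P R nu nv C Q ρ dP o s) (hOP : Disjoint O P) (hRP : R ⊆ P) (hOt : Ot ⊆ O)
    (hRt : Rt ⊆ R) (hs : 0 < s) (hso : s ≤ o / 100)
    (hCo : |(C.card : ℝ) + ρ - dP - o| ≤ 2 / 10 ^ 7 * o) (hD : D ⊆ C) (hx0 : x0 ∈ C) (u : U)
    (hdeg : (nb (Ot ∪ (P \ (R \ Rt))) u).card = (nu u ∩ (C \ D)).card + ρ)
    (hu : ((nb R u).card : ℝ) - (nb Rt u).card ≤ s / 400) :
    o - D.card - 2 / 10 ^ 5 * o ≤ (((nb Ot u).filter fun v => x0 ∈ nv v).card : ℝ) ∧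
      (((nb Ot u).filter fun v => x0 ∈ nv v).card : ℝ) ≤ o - D.card + 3 / 10 ^ 5 * o := by
  have ho : 0 < o := by linarith
  have h1 : (nb (R \ Rt) u).card + (nb Rt u).card = (nb R u).card := by
    rw [nb_sdiff, Finset.card_sdiff_add_card_eq_card (nb_mono hRt u)]
  have h2 : (nb (P \ (R \ Rt)) u).card + (nb (R \ Rt) u).card = (nb P u).card := by
    rw [nb_sdiff P, Finset.card_sdiff_add_card_eq_card
      (nb_mono (Finset.sdiff_subset.trans hRP) u)]
  have h3 : (nb (Ot ∪ (P \ (R \ Rt))) u).card = (nb Ot u).card + (nb (P \ (R \ Rt)) u).card := by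
    rw [nb_union, Finset.card_union_of_disjoint (nb_disj
      (Finset.disjoint_of_subset_left hOt (Finset.disjoint_of_subset_right
        Finset.sdiff_subset hOP)) u)]
  have h4 : (C \ D).card + D.card = C.card := Finset.card_sdiff_add_card_eq_card hD
  have h5 : (nu u ∩ (C \ D)).card ≤ (C \ D).card := Finset.card_le_card Finset.inter_subset_right
  have h6 : (C \ D).card ≤ (nu u ∩ (C \ D)).card + (C \ nu u).card := by
    have h7 : C \ D ⊆ (nu u ∩ (C \ D)) ∪ (C \ nu u) := by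
      intro x hx
      by_cases hxu : x ∈ nu u
      · exact Finset.mem_union_left _ (Finset.mem_inter.2 ⟨hxu, hx⟩)
      · exact Finset.mem_union_right _ (Finset.mem_sdiff.2 ⟨(Finset.mem_sdiff.1 hx).1, hxu⟩)
    exact (Finset.card_le_card h7).trans (Finset.card_union_le _ _)
  have h8 : ((((nb Ot u).filter fun v => x0 ∉ nv v).card : ℕ) : ℝ) ≤ 1 / 10 ^ 5 * o := by
    refine le_trans ?_ (hb.badO u x0 hx0)
    exact_mod_cast Finset.card_le_card (Finset.filter_subset_filter _ (nb_mono hOt u))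
  have h9 := bwin_split (nb Ot u) fun v => x0 ∈ nv v
  have h10 := hb.degP u
  have h11 := hb.miss u
  have e1 : ((nb (R \ Rt) u).card : ℝ) + (nb Rt u).card = (nb R u).card := by exact_mod_cast h1
  have e2 : ((nb (P \ (R \ Rt)) u).card : ℝ) + (nb (R \ Rt) u).card = (nb P u).card := by
    exact_mod_cast h2
  have e3 : ((nu u ∩ (C \ D)).card : ℝ) + ρ = (nb Ot u).card + (nb (P \ (R \ Rt)) u).card := by
    have := hdeg.symm.trans h3
    exact_mod_cast this
  have e4 : ((C \ D).card : ℝ) + D.card = C.card := by exact_mod_cast h4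
  have e5 : ((nu u ∩ (C \ D)).card : ℝ) ≤ (C \ D).card := by exact_mod_cast h5
  have e6 : ((C \ D).card : ℝ) ≤ (nu u ∩ (C \ D)).card + (C \ nu u).card := by exact_mod_cast h6
  have e7 : (0 : ℝ) ≤ (nb (R \ Rt) u).card := Nat.cast_nonneg _
  have e8 : (0 : ℝ) ≤ ((nb Ot u).filter fun v => x0 ∉ nv v).card := Nat.cast_nonneg _
  rw [abs_le] at h10 hCo
  obtain ⟨a1, a2⟩ := h10
  obtain ⟨a3, a4⟩ := hCo
  constructor
  · linarith
  · linarith

theorem window_R {U V X : Type} [Fintype U] [Fintype V] (O P R Rt : Finset (U × V))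
    (nu : U → Finset X) (nv : V → Finset X) (C Q : Finset X) (ρ : ℕ) (dP o s : ℝ) (x0 : X)
    (hb : BSide O P R nu nv C Q ρ dP o s) (hRt : Rt ⊆ R) (hs : 0 < s) (hx0 : x0 ∈ C) (u : U)
    (hu : ((nb R u).card : ℝ) - (nb Rt u).card ≤ s / 400) :
    97 / 100 * (s / 8) ≤ (((nb Rt u).filter fun v => x0 ∈ nv v).card : ℝ) := by
  have h8 : ((((nb Rt u).filter fun v => x0 ∉ nv v).card : ℕ) : ℝ) ≤ 1 / 10 ^ 7 * s := by
    refine le_trans ?_ (hb.badR u x0 hx0)
    exact_mod_cast Finset.card_le_card (Finset.filter_subset_filter _ (nb_mono hRt u))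
  have h9 := bwin_split (nb Rt u) fun v => x0 ∈ nv v
  have h10 := hb.degR u
  rw [abs_le] at h10
  obtain ⟨a1, a2⟩ := h10
  linarith

theorem expans {U V : Type} [Fintype U] [Fintype V] (R Gi : Finset (U × V)) (s N : ℝ)
    (hs : 0 < s) (hmix : Mix R (s / 8) (12 / 10) (1 / 100) N) (hGi : Gi ⊆ R) (S : Finset U)
    (hSN : (S.card : ℝ) ≤ N) (hdeg : ∀ u ∈ S, 97 / 100 * (s / 8) ≤ ((nb Gi u).card : ℝ)) :
    ∀ S' ⊆ S, 100 * S'.card ≤ 51 * S.card → 3 * S'.card ≤ 2 * (S'.biUnion (nb Gi)).card := by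
  intro S' hS' h51
  set T := S'.biUnion (nb Gi) with hT
  by_contra hlt
  push Not at hlt
  have hlt' : 2 * (T.card : ℝ) < 3 * S'.card := by exact_mod_cast hlt
  have h51' : 100 * (S'.card : ℝ) ≤ 51 * S.card := by exact_mod_cast h51
  have hT0 : (0 : ℝ) ≤ T.card := Nat.cast_nonneg _
  have hS0 : (0 : ℝ) < S'.card := by linarith
  have hN : 0 < N := by
    have : (S'.card : ℝ) ≤ S.card := by exact_mod_cast Finset.card_le_card hS'
    linarith
  have h1 : 97 / 100 * (s / 8) * S'.card ≤ (eb Gi S' T : ℝ) := by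
    rw [eb_eq_sum]
    push_cast
    have h2 : ∀ u ∈ S', 97 / 100 * (s / 8) ≤ ((nb Gi u ∩ T).card : ℝ) := by
      intro u hu
      have h3 : nb Gi u ∩ T = nb Gi u := by
        rw [Finset.inter_eq_left, hT]
        exact Finset.subset_biUnion_of_mem (nb Gi) hu
      rw [h3]
      exact hdeg u (hS' hu)
    calc 97 / 100 * (s / 8) * S'.card = ∑ _u ∈ S', 97 / 100 * (s / 8) := by
          rw [Finset.sum_const, nsmul_eq_mul, mul_comm]
      _ ≤ _ := Finset.sum_le_sum h2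
  have h2 : (eb Gi S' T : ℝ) ≤ eb R S' T := by
    unfold eb
    exact_mod_cast Finset.card_le_card (Finset.filter_subset_filter _ hGi)
  have h3 := hmix S' T
  have h4 : max (S'.card : ℝ) T.card ≤ 3 / 2 * S'.card := by
    apply max_le <;> linarith
  have h5 : 97 / 100 * (s / 8) * S'.card ≤
      s / 8 * (12 / 10 * ((S'.card : ℝ) * T.card / N) + 1 / 100 * (3 / 2 * S'.card)) := by
    refine h1.trans (h2.trans (h3.trans ?_))
    gcongr
  have hTN : (T.card : ℝ) / N ≤ 765 / 1000 := by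
    rw [div_le_iff₀ hN]
    linarith
  have h6 : (S'.card : ℝ) * T.card / N = S'.card * (T.card / N) := mul_div_assoc _ _ _
  rw [h6] at h5
  have h7 : (S'.card : ℝ) * (T.card / N) ≤ S'.card * (765 / 1000) :=
    mul_le_mul_of_nonneg_left hTN hS0.le
  have h8 : s / 8 * (12 / 10 * ((S'.card : ℝ) * (T.card / N)) + 1 / 100 * (3 / 2 * S'.card)) ≤
      s / 8 * (12 / 10 * ((S'.card : ℝ) * (765 / 1000)) + 1 / 100 * (3 / 2 * S'.card)) := by
    gcongr
  have h9 : 0 < s / 8 * S'.card := by positivity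
  nlinarith [h5.trans h8, h9]

end Pool.Agent.Lib.TriS
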