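import Pool.Agent.Lib.TriS.BIter
import Pool.Agent.Lib.TriS.BFin

/-!
MODULE Block (about 90 lines). The block lemma.

PROOF. Enumerate `Q` by `xs` (`Q.equivFin`, extended by an arbitrary value; if `Q = ∅`, impossible since `|Q| ≥ s/2 > 0`, or take any function when `X` is nonempty: `Q` is
nonempty so `X` is inhabited), apply `block_iter`, put `Mt' x = Mt (index of x)` for `x ∈ Q` (index with `xs i = x`, `i < Q.card`, unique), so that
`Q.biUnion Mt' = (range Q.card).biUnion Mt`, and `block_final` for `(O,P,R)` and for the transposed data (`BHyp.symm`, `tr_sdiff`, `tr_union`).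
-/

set_option autoImplicit false

open scoped Classical

noncomputable section

namespace Pool.Agent.Lib.TriS

theorem block {U V X : Type} [Fintype U] [Fintype V] (O P R : Finset (U × V))
    (nu : U → Finset X) (nv : V → Finset X) (C Q : Finset X) (ρ : ℕ) (dP o s L : ℝ)
    (h : BHyp O P R nu nv C Q ρ dP o s L) :
    ∃ Mt : X → Finset (U × V),
      (∀ x ∈ Q, Mt x ⊆ O ∪ R ∧ IsPM (Mt x) (wt nu x) (wt nv x)) ∧
      (∀ x ∈ Q, ∀ y ∈ Q, x ≠ y → Disjoint (Mt x) (Mt y)) ∧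
      (∀ u, ∀ x ∈ C, (((nb ((O ∪ R) \ Q.biUnion Mt) u).filter fun v => x ∉ nv v).card : ℝ) ≤
        1 / 10 ^ 5 * (o - 7 / 8 * s)) ∧
      (∀ v, ∀ x ∈ C, (((nb (tr ((O ∪ R) \ Q.biUnion Mt)) v).filter fun u => x ∉ nu u).card : ℝ) ≤
        1 / 10 ^ 5 * (o - 7 / 8 * s)) := by
  have hL := h.L1
  have hsL := h.sL
  have hs : (0 : ℝ) < s := by
    have h1 : (10 : ℝ) ^ 10 * 1 ≤ 10 ^ 10 * L := mul_le_mul_of_nonneg_left hL (by positivity)
    have h2 : (0 : ℝ) < 10 ^ 10 * 1 := by positivity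
    linarith
  have hQ0 : (0 : ℝ) < Q.card := by
    have h1 := (abs_le.1 h.cQ).1
    have h2 : 1 / 10 ^ 7 * s ≤ 1 / 2 * s := mul_le_mul_of_nonneg_right (by norm_num) hs.le
    linarith
  have hQ1 : 0 < Q.card := by exact_mod_cast hQ0
  obtain ⟨x0, hx0⟩ := Finset.card_pos.1 hQ1
  let e : Q ≃ Fin Q.card := Q.equivFin
  let xs : ℕ → X := fun i => if hi : i < Q.card then (e.symm ⟨i, hi⟩).1 else x0
  let idx : X → ℕ := fun x => if hx : x ∈ Q then (e ⟨x, hx⟩).1 else 0
  have hxs : ∀ i (hi : i < Q.card), xs i = (e.symm ⟨i, hi⟩).1 := fun i hi => dif_pos hi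
  have hidx : ∀ x (hx : x ∈ Q), idx x = (e ⟨x, hx⟩).1 := fun x hx => dif_pos hx
  have hidx_lt : ∀ x ∈ Q, idx x < Q.card := by
    intro x hx
    rw [hidx x hx]
    exact (e ⟨x, hx⟩).2
  have hxs_mem : ∀ i < Q.card, xs i ∈ Q := by
    intro i hi
    rw [hxs i hi]
    exact (e.symm ⟨i, hi⟩).2
  have hxi : ∀ x ∈ Q, xs (idx x) = x := by
    intro x hx
    rw [hxs _ (hidx_lt x hx)]
    have h1 : (⟨idx x, hidx_lt x hx⟩ : Fin Q.card) = e ⟨x, hx⟩ := Fin.ext (hidx x hx)
    rw [h1, Equiv.symm_apply_apply]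
  have hix : ∀ i < Q.card, idx (xs i) = i := by
    intro i hi
    rw [hidx _ (hxs_mem i hi)]
    have h1 : (⟨xs i, hxs_mem i hi⟩ : Q) = e.symm ⟨i, hi⟩ := Subtype.ext (hxs i hi)
    rw [h1, Equiv.apply_symm_apply]
  have hinj : ∀ i < Q.card, ∀ j < Q.card, xs i = xs j → i = j := by
    intro i hi j hj hij
    rw [← hix i hi, ← hix j hj, hij]
  have him : (Finset.range Q.card).image xs = Q := by
    ext x
    rw [Finset.mem_image]
    constructor
    · rintro ⟨i, hi, rfl⟩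
      exact hxs_mem i (Finset.mem_range.1 hi)
    · intro hx
      exact ⟨idx x, Finset.mem_range.2 (hidx_lt x hx), hxi x hx⟩
  obtain ⟨Mt, hM1, hM2, hM3, hM4⟩ := block_iter O P R nu nv C Q ρ dP o s L h xs hinj him
  have hbU : Q.biUnion (fun x => Mt (idx x)) = (Finset.range Q.card).biUnion Mt := by
    ext p
    rw [Finset.mem_biUnion, Finset.mem_biUnion]
    constructor
    · rintro ⟨x, hx, hp⟩
      exact ⟨idx x, Finset.mem_range.2 (hidx_lt x hx), hp⟩
    · rintro ⟨i, hi, hp⟩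
      have hi' := Finset.mem_range.1 hi
      refine ⟨xs i, hxs_mem i hi', ?_⟩
      rw [hix i hi']
      exact hp
  refine ⟨fun x => Mt (idx x), ?_, ?_, ?_, ?_⟩
  · intro x hx
    have h1 := hM1 (idx x) (hidx_lt x hx)
    rw [hxi x hx] at h1
    exact h1
  · intro x hx y hy hxy
    refine hM2 (idx x) (hidx_lt x hx) (idx y) (hidx_lt y hy) ?_
    intro hc
    apply hxy
    rw [← hxi x hx, ← hxi y hy, hc]
  · intro u x hx
    rw [hbU]
    exact block_final O P R _ nu nv C Q ρ dP o s L h xs hinj him u x hx (hM3 u x hx)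
  · intro v x hx
    rw [hbU]
    have h1 := hM4 v x hx
    rw [tr_sdiff] at h1
    have h2 := block_final (tr O) (tr P) (tr R) _ nv nu C Q ρ dP o s L h.symm xs hinj him v x hx h1
    rw [tr_sdiff, tr_union]
    exact h2

end Pool.Agent.Lib.TriS
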