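import Pool.Agent.Lib.TriS.Defs
import Pool.Agent.Lib.TriD.ZDefs

/-!
Definitions for sections 3-8 of the paper.

* `PartSys`: parts, hubs (section 3); `A x l` iff the colour `x` is not in the block `l`, `M y l` iff `y ∈ l`; `none` = the set `W`.
* `SInst`: the instance of the survivors after Stage 0 (sections 5-8), abstract types `U`, `V`.
* `PCol`: proper partial colourings of flags.
-/

set_option autoImplicit false

open scoped Classical

noncomputable section

namespace Pool.Agent.Lib.TriS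

/-- Parts and hubs. `η = 1/10^27` in the application. -/
structure PartSys {X Y B : Type} [Fintype X] [Fintype Y] [Fintype B] (A : X → B → Prop)
    (M : Y → B → Prop) (k : ℕ) (G : Finset X) (P s r : ℕ) (pY : Y → Option (Fin P))
    (pB : B → Option (Fin P)) (hub : Fin P → Finset X) (η : ℝ) : Prop where
  cY : ∀ a, (Finset.univ.filter fun y => pY y = some a).card = s
  cB : ∀ a, (Finset.univ.filter fun l => pB l = some a).card = s
  hubc : ∀ a, (hub a).card = r
  hubd : ∀ a b, a ≠ b → Disjoint (hub a) (hub b)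
  hubG : ∀ a, Disjoint (hub a) G
  hubA : ∀ l a, pB l = some a → ∀ x ∈ hub a, A x l
  wY : ∀ y, ((Finset.univ.filter fun l => M y l ∧ pB l = none).card : ℝ) ≤ η * k
  wB : ∀ l, ((Finset.univ.filter fun y => M y l ∧ pY y = none).card : ℝ) ≤ η * k
  upY : ∀ y a, ((Finset.univ.filter fun l => M y l ∧ pB l = some a).card : ℝ) ≤ η * k
  upB : ∀ l a, ((Finset.univ.filter fun y => M y l ∧ pY y = some a).card : ℝ) ≤ η * k
  inY : ∀ y, pY y ≠ none → ∀ a,
    |((Finset.univ.filter fun l => M y l ∧ pB l = some a).card : ℝ) - (k : ℝ) / P| ≤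
      η * ((k : ℝ) / P)
  inB : ∀ l, pB l ≠ none → ∀ a,
    |((Finset.univ.filter fun y => M y l ∧ pY y = some a).card : ℝ) - (k : ℝ) / P| ≤
      η * ((k : ℝ) / P)
  pair : ∀ y, pY y ≠ none → ∀ x ∈ G, ∀ a,
    ((Finset.univ.filter fun l => M y l ∧ pB l = some a ∧ ¬ A x l).card : ℝ) ≤ η * ((k : ℝ) / P)
  hit : ∀ x ∈ G, ∀ a, ((Finset.univ.filter fun l => pB l = some a ∧ ¬ A x l).card : ℝ) ≤ η * s
  GA : ∀ l, ((G.filter fun x => ¬ A x l).card : ℝ) ≤ η * G.card

/-- One side of the survivors' instance: `H` flags between survivors, `nu u` = colours still needed by `u`, `aU`, `aV` parts.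
`η = 1/10^25` in the application, `k` = number of colours. -/
structure SSide {U V X : Type} [Fintype U] [Fintype V] [Fintype X] (H : Finset (U × V))
    (nu : U → Finset X) (nv : V → Finset X) (P : ℕ) (aU : U → Fin P) (aV : V → Fin P)
    (hub : Fin P → Finset X) (G : Finset X) (s : ℕ) (η : ℝ) : Prop where
  cU : ∀ a, (Finset.univ.filter fun u => aU u = a).card = s
  deg : ∀ u, (nb H u).card = (nu u).card
  hubn : ∀ u, hub (aU u) ⊆ nu u
  miss : ∀ u, (((nu u)ᶜ).card : ℝ) ≤ η * Fintype.card X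
  missG : ∀ u, ((G \ nu u).card : ℝ) ≤ η * G.card
  bad : ∀ u x, (((nb H u).filter fun v => x ∉ nv v).card : ℝ) ≤ η * Fintype.card X
  inn : ∀ u a, |(((nb H u).filter fun v => aV v = a).card : ℝ) - (Fintype.card X : ℝ) / P| ≤
    η * ((Fintype.card X : ℝ) / P)
  badin : ∀ u, ∀ x ∈ G, (((nb H u).filter fun v => aV v = aU u ∧ x ∉ nv v).card : ℝ) ≤
    η * ((Fintype.card X : ℝ) / P)
  hit : ∀ a, ∀ x ∈ G, ((Finset.univ.filter fun u => aU u = a ∧ x ∉ nu u).card : ℝ) ≤ η * s

/-- The survivors' instance together with the numerical hypotheses. -/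
structure SInst {U V X : Type} [Fintype U] [Fintype V] [Fintype X] (H : Finset (U × V))
    (nu : U → Finset X) (nv : V → Finset X) (P : ℕ) (aU : U → Fin P) (aV : V → Fin P)
    (hub : Fin P → Finset X) (G : Finset X) (s r : ℕ) (L η : ℝ) : Prop where
  s1 : SSide H nu nv P aU aV hub G s η
  s2 : SSide (tr H) nv nu P aV aU hub G s η
  hubc : ∀ a, (hub a).card = r
  hubd : ∀ a b, a ≠ b → Disjoint (hub a) (hub b)
  hubG : ∀ a, Disjoint (hub a) G
  bal : ∀ x, (wt nu x).card = (wt nv x).card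
  mix : ∀ (S : Finset U) (T : Finset V), (eb H S T : ℝ) ≤
    Fintype.card X * ((S.card : ℝ) * T.card / (P * s)) +
      Real.sqrt (Fintype.card X) * max (S.card : ℝ) T.card
  L1 : 1 ≤ L
  kL : (Fintype.card X : ℝ) ≤ Real.exp L
  NL : (P : ℝ) * s ≤ Real.exp L
  r1 : 10 ^ 21 * L ≤ r
  r2 : (r : ℝ) ≤ 10 ^ 22 * L
  P1 : (10 : ℝ) ^ 60 ≤ P
  G1 : 10 ^ 60 * (P : ℝ) * L ≤ G.card
  G2 : 10 ^ 60 * (P : ℝ) * G.card ≤ Fintype.card X
  P2 : 10 ^ 60 * (P : ℝ) ≤ Real.sqrt (Fintype.card X)
  s3 : 10 ^ 60 * (P : ℝ) ^ 2 * L ≤ s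

/-- A proper partial colouring: a set of pairs (flag, colour). Colours are taken from `G` and needed at both ends. -/
structure PCol {U V X : Type} (K : Finset ((U × V) × X)) (nu : U → Finset X) (nv : V → Finset X)
    (G : Finset X) : Prop where
  col : ∀ p x, (p, x) ∈ K → x ∈ G ∧ x ∈ nu p.1 ∧ x ∈ nv p.2
  fn : ∀ p x y, (p, x) ∈ K → (p, y) ∈ K → x = y
  pr1 : ∀ u v v' x, ((u, v), x) ∈ K → ((u, v'), x) ∈ K → v = v'
  pr2 : ∀ u u' v x, ((u, v), x) ∈ K → ((u', v), x) ∈ K → u = u'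

/-- coloured flags -/
def dom {U V X : Type} (K : Finset ((U × V) × X)) : Finset (U × V) := K.image Prod.fst

/-- flags of colour `x` -/
def cls {U V X : Type} (K : Finset ((U × V) × X)) (x : X) : Finset (U × V) :=
  (K.filter fun q => q.2 = x).image Prod.fst

/-- colours used at `u : U` -/
def cu {U V X : Type} (K : Finset ((U × V) × X)) (u : U) : Finset X :=
  (K.filter fun q => q.1.1 = u).image Prod.snd

/-- colours used at `v : V` -/
def cv {U V X : Type} (K : Finset ((U × V) × X)) (v : V) : Finset X :=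
  (K.filter fun q => q.1.2 = v).image Prod.snd

section

variable {U V X : Type}

theorem mem_dom {K : Finset ((U × V) × X)} {p : U × V} : p ∈ dom K ↔ ∃ x, (p, x) ∈ K := by
  unfold dom
  simp

theorem mem_cls {K : Finset ((U × V) × X)} {x : X} {p : U × V} : p ∈ cls K x ↔ (p, x) ∈ K := by
  unfold cls
  simp

theorem mem_cu {K : Finset ((U × V) × X)} {x : X} {u : U} :
    x ∈ cu K u ↔ ∃ v, ((u, v), x) ∈ K := by
  unfold cu
  simp

theorem mem_cv {K : Finset ((U × V) × X)} {x : X} {v : V} :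
    x ∈ cv K v ↔ ∃ u, ((u, v), x) ∈ K := by
  unfold cv
  simp

end

end Pool.Agent.Lib.TriS
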