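import Pool.Agent.Lib.TriS.FCu

/-!
MODULE FBeta (about 230 lines). The imbalance after 7.1.

PROOF. `bet_row`: `∑ a, |gU .. x a| = #{u : x ∈ nu u, x ∉ cu K u} = |wt nu x| - #{u : x ∈ cu K u}` (`cu K u ⊆ nu u` by `PCol.col`) and `#{u : x ∈ cu K u} = |cls K x|` (sum of `cnt_cu` over
`a`, or the bijection `p ↦ p.1`); the same for `V` (via `trK` or directly); `FIn.bal`.
`bet_col`: `∑ x ∈ G, |gU .. x a| = ∑ u in the part a, |(nu u ∩ G) \ cu K u| = ∑ u, (|nu u ∩ G| - |cu K u|)` and `|cu K u| = |nb O u|` (`card_cu`, `dom K = O`),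
`|nu u ∩ G| + r = |nb O u| + |nb E u| + |nb F u|` (`FSide.deg`, disjointness), so the term of `u` is `|nb E u| + |nb F u| - r`; the sum over the `s` vertices of the part is
`#{e ∈ E : aU e.1 = a} + #{e ∈ F : aU e.1 = a} - r s`. For `V`: `#{e ∈ E : aV e.2 = a} + #{e ∈ F : aV e.2 = a} - r s`. The `E`-terms agree (`Ein`); the `F`-terms are both
`∑ b ≠ a, m = (P - 1) m` (`Fout`, `Fm`).
`bet_le`: `|gU .. x a| ≤ s` (`cU`) and `≥ s - η s - (1/10^14 s + 4 L)` (`hit`; `TB.u (Sum.inr a) x`: the part `a` has `s` elements), the same for `gV`; `4 L ≤ s/10^15` (`s3`, `P1`),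
`η ≤ 2/10^25`: the difference is at most `2/10^14 s` in absolute value.
-/

set_option autoImplicit false

open scoped Classical

noncomputable section

namespace Pool.Agent.Lib.TriS

private theorem fb_gU_trK {U V X : Type} [Fintype V] {P : ℕ} (aV : V → Fin P)
    (K : Finset ((U × V) × X)) (nv : V → Finset X) (x : X) (a : Fin P) :
    gU nv aV (trK K) x a = gV nv aV K x a := by
  ext v
  unfold gU gV
  rw [Finset.mem_filter, Finset.mem_filter, cu_trK]

private theorem fb_card_tr {U V : Type} (H : Finset (U × V)) : (tr H).card = H.card := by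
  unfold tr
  rw [Finset.card_map]

private theorem fb_row {U V X : Type} [Fintype U] {P : ℕ} (aU : U → Fin P)
    {K : Finset ((U × V) × X)} {nu : U → Finset X} {nv : V → Finset X} {G : Finset X}
    (hK : PCol K nu nv G) (x : X) :
    ∑ a, (gU nu aU K x a).card + (cls K x).card = (wt nu x).card := by
  have e1 : (wt nu x).card = ∑ a, ((wt nu x).filter fun u => aU u = a).card :=
    Finset.card_eq_sum_card_fiberwise fun u _ => Finset.mem_coe.2 (Finset.mem_univ _)
  have e2 : (cls K x).card = ∑ a, ((cls K x).filter fun p => aU p.1 = a).card :=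
    Finset.card_eq_sum_card_fiberwise fun u _ => Finset.mem_coe.2 (Finset.mem_univ _)
  rw [e1, e2, ← Finset.sum_add_distrib]
  refine Finset.sum_congr rfl fun a _ => ?_
  rw [← cnt_cu aU hK x a, ← Finset.card_union_of_disjoint]
  · congr 1
    ext u
    unfold gU
    simp only [Finset.mem_union, Finset.mem_filter, Finset.mem_univ, true_and, mem_wt]
    constructor
    · rintro (⟨h1, h2, _⟩ | ⟨h1, h2⟩)
      · exact ⟨h2, h1⟩
      · obtain ⟨v, hv⟩ := mem_cu.1 h2
        exact ⟨(hK.col _ _ hv).2.1, h1⟩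
    · rintro ⟨h1, h2⟩
      by_cases h3 : x ∈ cu K u
      · exact Or.inr ⟨h2, h3⟩
      · exact Or.inl ⟨h2, h1, h3⟩
  · rw [Finset.disjoint_left]
    intro u h1 h2
    unfold gU at h1
    rw [Finset.mem_filter] at h1 h2
    exact h1.2.2.2 h2.2.2

theorem bet_row {U V X : Type} [Fintype U] [Fintype V] {O E F : Finset (U × V)}
    {nu : U → Finset X} {nv : V → Finset X} {P : ℕ} {aU : U → Fin P} {aV : V → Fin P}
    {G : Finset X} {s r m : ℕ} {L η : ℝ} (h : FIn O E F nu nv P aU aV G s r m L η)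
    {K : Finset ((U × V) × X)} (hK : PCol K nu nv G) {x : X} (hx : x ∈ G) :
    ∑ a, bet nu nv aU aV K x a = 0 := by
  have h1 := fb_row aU hK x
  have h2 := fb_row aV hK.trK x
  have h3 := h.bal x hx
  rw [cls_trK, fb_card_tr, ← h3, ← h1] at h2
  have h4 : ∑ a, (gV nv aV K x a).card = ∑ a, (gU nu aU K x a).card := by
    have h5 : ∑ a, (gU nv aV (trK K) x a).card = ∑ a, (gV nv aV K x a).card :=
      Finset.sum_congr rfl fun a _ => by rw [fb_gU_trK]
    rw [h5] at h2
    exact Nat.add_right_cancel h2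
  unfold bet
  rw [Finset.sum_sub_distrib, ← Nat.cast_sum, ← Nat.cast_sum, h4, sub_self]

private theorem fb_nbsum {U V : Type} [Fintype U] [Fintype V] {P : ℕ} (aU : U → Fin P)
    (E : Finset (U × V)) (a : Fin P) :
    ∑ u ∈ Finset.univ.filter (fun u => aU u = a), (nb E u).card =
      (E.filter fun p => aU p.1 = a).card := by
  have h1 := eb_eq_sum E (Finset.univ.filter (fun u => aU u = a)) Finset.univ
  have h2 : eb E (Finset.univ.filter (fun u => aU u = a)) Finset.univ =
      (E.filter fun p => aU p.1 = a).card := by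
    unfold eb
    congr 1
    ext q
    simp
  rw [← h2, h1]
  refine Finset.sum_congr rfl fun u _ => ?_
  rw [Finset.inter_univ]

private theorem fb_col {U V X : Type} [Fintype U] [Fintype V] {O E F : Finset (U × V)}
    {nu : U → Finset X} {nv : V → Finset X} {P : ℕ} {aU : U → Fin P} {aV : V → Fin P}
    {G : Finset X} {s r m : ℕ} {L η : ℝ} (h : FIn O E F nu nv P aU aV G s r m L η)
    {K : Finset ((U × V) × X)} (hK : PCol K nu nv G) (hd : dom K = O) (a : Fin P) :
    ∑ x ∈ G, (gU nu aU K x a).card + s * r =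
      (E.filter fun p => aU p.1 = a).card + (F.filter fun p => aU p.1 = a).card := by
  rw [← fb_nbsum aU E a, ← fb_nbsum aU F a, ← h.s1.cU a]
  have e1 : ∑ x ∈ G, (gU nu aU K x a).card =
      ∑ u ∈ Finset.univ.filter (fun u => aU u = a), ((nu u ∩ G) \ cu K u).card := by
    have e2 : ∀ x ∈ G, (gU nu aU K x a).card =
        ∑ u ∈ Finset.univ.filter (fun u => aU u = a), if x ∈ nu u ∧ x ∉ cu K u then 1 else 0 := by
      intro x _
      rw [← Finset.card_filter, Finset.filter_filter]
      rfl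
    have e3 : ∀ u, ((nu u ∩ G) \ cu K u).card =
        ∑ x ∈ G, if x ∈ nu u ∧ x ∉ cu K u then 1 else 0 := by
      intro u
      rw [← Finset.card_filter]
      congr 1
      ext x
      simp only [Finset.mem_sdiff, Finset.mem_inter, Finset.mem_filter]
      tauto
    rw [Finset.sum_congr rfl e2, Finset.sum_comm]
    exact Finset.sum_congr rfl fun u _ => (e3 u).symm
  rw [e1, ← smul_eq_mul, ← Finset.sum_const, ← Finset.sum_add_distrib, ← Finset.sum_add_distrib]
  refine Finset.sum_congr rfl fun u _ => ?_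
  have hsub : cu K u ⊆ nu u ∩ G := by
    intro x hx
    obtain ⟨v, hv⟩ := mem_cu.1 hx
    have := hK.col _ _ hv
    exact Finset.mem_inter.2 ⟨this.2.1, this.1⟩
  have h1 := Finset.card_sdiff_add_card_eq_card hsub
  have h2 := h.s1.deg u
  have h3 := card_cu hK u
  have hOE : Disjoint (nb O u) (nb E u) := nb_disj h.dOE u
  have hOF : Disjoint (nb O u) (nb F u) := nb_disj h.dOF u
  have hEF : Disjoint (nb E u) (nb F u) := nb_disj h.dEF u
  rw [nb_union, nb_union, Finset.card_union_of_disjoint (Finset.disjoint_union_left.2 ⟨hOF, hEF⟩),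
    Finset.card_union_of_disjoint hOE] at h2
  rw [hd] at h3
  omega

private theorem fb_F {U V X : Type} [Fintype U] [Fintype V] {O E F : Finset (U × V)}
    {nu : U → Finset X} {nv : V → Finset X} {P : ℕ} {aU : U → Fin P} {aV : V → Fin P}
    {G : Finset X} {s r m : ℕ} {L η : ℝ} (h : FIn O E F nu nv P aU aV G s r m L η) (a : Fin P) :
    (F.filter fun p => aU p.1 = a).card = (P - 1) * m := by
  have e1 : (F.filter fun p => aU p.1 = a).card =
      ∑ b, ((F.filter fun p => aU p.1 = a).filter fun p => aV p.2 = b).card :=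
    Finset.card_eq_sum_card_fiberwise fun u _ => Finset.mem_coe.2 (Finset.mem_univ _)
  rw [e1, ← Finset.add_sum_erase _ _ (Finset.mem_univ a)]
  have e2 : ((F.filter fun p => aU p.1 = a).filter fun p => aV p.2 = a).card = 0 := by
    rw [Finset.card_eq_zero, Finset.eq_empty_iff_forall_notMem]
    intro q hq
    rw [Finset.mem_filter, Finset.mem_filter] at hq
    exact h.Fout q hq.1.1 (hq.1.2.trans hq.2.symm)
  have e3 : ∀ b ∈ Finset.univ.erase a,
      ((F.filter fun p => aU p.1 = a).filter fun p => aV p.2 = b).card = m := by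
    intro b hb
    rw [Finset.filter_filter]
    exact h.Fm a b (Finset.ne_of_mem_erase hb).symm
  rw [e2, zero_add, Finset.sum_congr rfl e3, Finset.sum_const, Finset.card_erase_of_mem
    (Finset.mem_univ a), Finset.card_univ, Fintype.card_fin, smul_eq_mul]

theorem bet_col {U V X : Type} [Fintype U] [Fintype V] {O E F : Finset (U × V)}
    {nu : U → Finset X} {nv : V → Finset X} {P : ℕ} {aU : U → Fin P} {aV : V → Fin P}
    {G : Finset X} {s r m : ℕ} {L η : ℝ} (h : FIn O E F nu nv P aU aV G s r m L η)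
    {K : Finset ((U × V) × X)} (hK : PCol K nu nv G) (hd : dom K = O) (a : Fin P) :
    ∑ x ∈ G, bet nu nv aU aV K x a = 0 := by
  have h1 := fb_col h hK hd a
  have h2 := fb_col h.tr hK.trK (by rw [dom_trK, hd]) a
  rw [fb_F h a] at h1
  rw [fb_F h.tr a] at h2
  have h3 : ((tr E).filter fun p => aV p.1 = a).card = (E.filter fun p => aU p.1 = a).card := by
    have e1 : (tr E).filter (fun p => aV p.1 = a) = tr (E.filter fun p => aU p.1 = a) := by
      ext ⟨v, u⟩
      rw [Finset.mem_filter, mem_tr, mem_tr, Finset.mem_filter]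
      constructor
      · rintro ⟨h1, h2⟩
        exact ⟨h1, (h.Ein _ h1).trans h2⟩
      · rintro ⟨h1, h2⟩
        exact ⟨h1, (h.Ein _ h1).symm.trans h2⟩
    rw [e1, fb_card_tr]
  have h5 : ∑ x ∈ G, (gU nv aV (trK K) x a).card = ∑ x ∈ G, (gV nv aV K x a).card :=
    Finset.sum_congr rfl fun x _ => by rw [fb_gU_trK]
  rw [h3, ← h1, h5] at h2
  have h4 := Nat.add_right_cancel h2
  unfold bet
  rw [Finset.sum_sub_distrib, ← Nat.cast_sum, ← Nat.cast_sum, h4, sub_self]

private theorem fb_le {U X : Type} [Fintype U] {nu : U → Finset X} {P : ℕ} {aU : U → Fin P}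
    {s : ℕ} {η B : ℝ} (c : U → Finset X) (x : X) (a : Fin P)
    (hs : (Finset.univ.filter fun u => aU u = a).card = s)
    (hh : ((Finset.univ.filter fun u => aU u = a ∧ x ∉ nu u).card : ℝ) ≤ η * s)
    (hT : (((Finset.univ.filter fun u => aU u = a).filter fun u => x ∈ c u).card : ℝ) ≤ B) :
    ((Finset.univ.filter fun u => aU u = a ∧ x ∈ nu u ∧ x ∉ c u).card : ℝ) ≤ s ∧
    (s : ℝ) - η * s - B ≤ (Finset.univ.filter fun u => aU u = a ∧ x ∈ nu u ∧ x ∉ c u).card := by
  constructor
  · rw [← hs]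
    exact_mod_cast Finset.card_le_card fun u hu => by
      rw [Finset.mem_filter] at hu ⊢
      exact ⟨hu.1, hu.2.1⟩
  · have h1 : (Finset.univ.filter fun u => aU u = a) ⊆
        (Finset.univ.filter fun u => aU u = a ∧ x ∈ nu u ∧ x ∉ c u) ∪
          ((Finset.univ.filter fun u => aU u = a ∧ x ∉ nu u) ∪
            ((Finset.univ.filter fun u => aU u = a).filter fun u => x ∈ c u)) := by
      intro u hu
      simp only [Finset.mem_union, Finset.mem_filter, Finset.mem_univ, true_and] at hu ⊢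
      tauto
    have h2 := Finset.card_le_card h1
    have h3 := h2.trans ((Finset.card_union_le _ _).trans
      (Nat.add_le_add_left (Finset.card_union_le _ _) _))
    rw [hs] at h3
    have h4 : (s : ℝ) ≤ ((Finset.univ.filter fun u => aU u = a ∧ x ∈ nu u ∧ x ∉ c u).card : ℝ) +
        (((Finset.univ.filter fun u => aU u = a ∧ x ∉ nu u).card : ℝ) +
          (((Finset.univ.filter fun u => aU u = a).filter fun u => x ∈ c u).card : ℝ)) := by
      exact_mod_cast h3
    linarith

theorem bet_le {U V X : Type} [Fintype U] [Fintype V] {O E F : Finset (U × V)}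
    {nu : U → Finset X} {nv : V → Finset X} {P : ℕ} {aU : U → Fin P} {aV : V → Fin P}
    {G : Finset X} {s r m : ℕ} {L η : ℝ} (h : FIn O E F nu nv P aU aV G s r m L η)
    {K : Finset ((U × V) × X)} (hK : PCol K nu nv G) (hT : TB E aU aV G K (5 / 10 ^ 15) L)
    {x : X} (hx : x ∈ G) (a : Fin P) :
    |(bet nu nv aU aV K x a : ℝ)| ≤ 2 / 10 ^ 14 * s := by
  have h1 := fb_le (fun u => cu K u) x a (h.s1.cU a) (h.s1.hit a x hx) (hT.u (Sum.inr a) x hx)
  have h2 := fb_le (fun v => cv K v) x a (h.s2.cU a) (h.s2.hit a x hx) (hT.v (Sum.inr a) x hx)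
  have c1 : ((SU E aU (Sum.inr a)).card : ℝ) = s := by
    rw [← h.s1.cU a]
    rfl
  have c2 : ((SV E aV (Sum.inr a)).card : ℝ) = s := by
    rw [← h.s2.cU a]
    rfl
  rw [c1] at h1
  rw [c2] at h2
  have hs0 : (0 : ℝ) ≤ s := Nat.cast_nonneg s
  have hL := h.L1
  have hη := mul_le_mul_of_nonneg_right h.eta hs0
  have h3 : 10 ^ 60 * L ≤ s := by
    have h4 : (1 : ℝ) ≤ (P : ℝ) ^ 2 := by
      have h5 : (1 : ℝ) ≤ P := le_trans (by norm_num) h.P1
      nlinarith
    refine le_trans ?_ h.s3
    have h5 : (10 : ℝ) ^ 60 * 1 ≤ 10 ^ 60 * (P : ℝ) ^ 2 :=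
      mul_le_mul_of_nonneg_left h4 (by norm_num)
    have h6 := mul_le_mul_of_nonneg_right h5 (show (0 : ℝ) ≤ L by linarith)
    linarith
  unfold bet
  rw [Int.cast_sub, Int.cast_natCast, Int.cast_natCast, abs_le]
  unfold gU gV
  obtain ⟨h11, h12⟩ := h1
  obtain ⟨h21, h22⟩ := h2
  constructor
  · linarith
  · linarith

end Pool.Agent.Lib.TriS
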