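import Pool.Agent.Lib.TriS.FDefs

/-!
MODULE FCu (about 180 lines). Counting in proper partial colourings.

PROOF. `card_cu`: the map `v ↦` (the colour of `(u,v)`) is a bijection from `nb (dom K) u` to `cu K u` (`fn`, `pr1`); e.g. both are images of
`K.filter (q.1.1 = u)` under injective maps (`q ↦ q.1.2` is injective there by `fn`, `q ↦ q.2` by `pr1`). `cu_union`: membership. `gU_add`: with
`A = {u | aU u = a ∧ x ∈ nu u ∧ x ∉ cu K u}`: `A` is the disjoint union of `gU .. (K ∪ K') x a` and of the set of the `u` with `aU u = a`, `x ∈ cu K' u`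
(such a `u` needs `x` by `PCol.col`, and `x ∉ cu K u`: if `((u,v),x) ∈ K`, `((u,v'),x) ∈ K'` then `v = v'` by `pr1` for `K ∪ K'`, but the domains are disjoint);
the latter set is in bijection with `(cls K' x).filter (aU p.1 = a)` by `p ↦ p.1` (`pr1`). `gV_add`: apply `gU_add` to `trK` (`cu_trK`, `trK_union`, `cls_trK`,
`PCol.trK`; `gU nv aV (trK K) x a = gV nv aV K x a` by `cu_trK`), and the bijection `tr`. `cnt_cu`: the same bijection `p ↦ p.1` on `cls K x`.
`PCol.mono`: restriction. `pcol_single`: adding one pair `((u,v),x)`.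
-/

set_option autoImplicit false

open scoped Classical

noncomputable section

namespace Pool.Agent.Lib.TriS

theorem PCol.mono {U V X : Type} {K K' : Finset ((U × V) × X)} {nu : U → Finset X}
    {nv : V → Finset X} {G : Finset X} (h : PCol K nu nv G) (hK : K' ⊆ K) : PCol K' nu nv G where
  col p x hx := h.col p x (hK hx)
  fn p x y hx hy := h.fn p x y (hK hx) (hK hy)
  pr1 u v v' x hx hy := h.pr1 u v v' x (hK hx) (hK hy)
  pr2 u u' v x hx hy := h.pr2 u u' v x (hK hx) (hK hy)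

theorem pcol_single {U V X : Type} {K : Finset ((U × V) × X)} {nu : U → Finset X}
    {nv : V → Finset X} {G : Finset X} (h : PCol K nu nv G) {u : U} {v : V} {x : X} (hx : x ∈ G)
    (h1 : x ∈ nu u) (h2 : x ∈ nv v) (h3 : x ∉ cu K u) (h4 : x ∉ cv K v)
    (h5 : (u, v) ∉ dom K) : PCol (K ∪ {((u, v), x)}) nu nv G where
  col p y hy := by
    rcases Finset.mem_union.1 hy with hy | hy
    · exact h.col p y hy
    · rw [Finset.mem_singleton, Prod.mk.injEq] at hy
      obtain ⟨rfl, rfl⟩ := hy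
      exact ⟨hx, h1, h2⟩
  fn p y z hy0 hz0 := by
    rcases Finset.mem_union.1 hy0 with hy | hy <;> rcases Finset.mem_union.1 hz0 with hz | hz
    · exact h.fn p y z hy hz
    · rw [Finset.mem_singleton, Prod.mk.injEq] at hz
      obtain ⟨rfl, rfl⟩ := hz
      exact absurd (mem_dom.2 ⟨y, hy⟩) h5
    · rw [Finset.mem_singleton, Prod.mk.injEq] at hy
      obtain ⟨rfl, rfl⟩ := hy
      exact absurd (mem_dom.2 ⟨z, hz⟩) h5
    · rw [Finset.mem_singleton, Prod.mk.injEq] at hy hz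
      rw [hy.2, hz.2]
  pr1 a b b' y hy0 hz0 := by
    rcases Finset.mem_union.1 hy0 with hy | hy <;> rcases Finset.mem_union.1 hz0 with hz | hz
    · exact h.pr1 a b b' y hy hz
    · rw [Finset.mem_singleton, Prod.mk.injEq, Prod.mk.injEq] at hz
      obtain ⟨⟨rfl, rfl⟩, rfl⟩ := hz
      exact absurd (mem_cu.2 ⟨b, hy⟩) h3
    · rw [Finset.mem_singleton, Prod.mk.injEq, Prod.mk.injEq] at hy
      obtain ⟨⟨rfl, rfl⟩, rfl⟩ := hy
      exact absurd (mem_cu.2 ⟨b', hz⟩) h3
    · rw [Finset.mem_singleton, Prod.mk.injEq, Prod.mk.injEq] at hy hz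
      rw [hy.1.2, hz.1.2]
  pr2 a a' b y hy0 hz0 := by
    rcases Finset.mem_union.1 hy0 with hy | hy <;> rcases Finset.mem_union.1 hz0 with hz | hz
    · exact h.pr2 a a' b y hy hz
    · rw [Finset.mem_singleton, Prod.mk.injEq, Prod.mk.injEq] at hz
      obtain ⟨⟨rfl, rfl⟩, rfl⟩ := hz
      exact absurd (mem_cv.2 ⟨a, hy⟩) h4
    · rw [Finset.mem_singleton, Prod.mk.injEq, Prod.mk.injEq] at hy
      obtain ⟨⟨rfl, rfl⟩, rfl⟩ := hy
      exact absurd (mem_cv.2 ⟨a', hz⟩) h4
    · rw [Finset.mem_singleton, Prod.mk.injEq, Prod.mk.injEq] at hy hz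
      rw [hy.1.1, hz.1.1]

theorem card_cu {U V X : Type} [Fintype V] {K : Finset ((U × V) × X)} {nu : U → Finset X}
    {nv : V → Finset X} {G : Finset X} (h : PCol K nu nv G) (u : U) :
    (cu K u).card = (nb (dom K) u).card := by
  have e1 : (cu K u).card = (K.filter fun q => q.1.1 = u).card := by
    unfold cu
    refine Finset.card_image_of_injOn ?_
    rintro ⟨⟨a, b⟩, y⟩ h1 ⟨⟨a', b'⟩, y'⟩ h2 he
    simp only [Finset.coe_filter, Set.mem_ofPred_eq] at h1 h2 he
    obtain ⟨h1, rfl⟩ := h1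
    obtain ⟨h2, rfl⟩ := h2
    subst he
    rw [h.pr1 _ _ _ _ h1 h2]
  have e2 : nb (dom K) u = (K.filter fun q => q.1.1 = u).image fun q => q.1.2 := by
    ext v
    rw [mem_nb, mem_dom, Finset.mem_image]
    constructor
    · rintro ⟨x, hx⟩
      exact ⟨((u, v), x), Finset.mem_filter.2 ⟨hx, rfl⟩, rfl⟩
    · rintro ⟨⟨⟨a, b⟩, y⟩, h1, rfl⟩
      rw [Finset.mem_filter] at h1
      obtain ⟨h1, rfl⟩ := h1
      exact ⟨y, h1⟩
  rw [e1, e2]
  symm
  refine Finset.card_image_of_injOn ?_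
  rintro ⟨⟨a, b⟩, y⟩ h1 ⟨⟨a', b'⟩, y'⟩ h2 he
  simp only [Finset.coe_filter, Set.mem_ofPred_eq] at h1 h2 he
  obtain ⟨h1, rfl⟩ := h1
  obtain ⟨h2, rfl⟩ := h2
  subst he
  rw [h.fn _ _ _ h1 h2]

theorem card_cv {U V X : Type} [Fintype U] {K : Finset ((U × V) × X)} {nu : U → Finset X}
    {nv : V → Finset X} {G : Finset X} (h : PCol K nu nv G) (v : V) :
    (cv K v).card = (nb (tr (dom K)) v).card := by
  rw [← cu_trK, ← dom_trK]
  exact card_cu h.trK v

theorem cu_union {U V X : Type} (K K' : Finset ((U × V) × X)) (u : U) :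
    cu (K ∪ K') u = cu K u ∪ cu K' u := by
  unfold cu
  rw [Finset.filter_union, Finset.image_union]

theorem cv_union {U V X : Type} (K K' : Finset ((U × V) × X)) (v : V) :
    cv (K ∪ K') v = cv K v ∪ cv K' v := by
  unfold cv
  rw [Finset.filter_union, Finset.image_union]

theorem dom_union {U V X : Type} (K K' : Finset ((U × V) × X)) :
    dom (K ∪ K') = dom K ∪ dom K' := by
  unfold dom
  rw [Finset.image_union]

theorem cnt_cu {U V X : Type} [Fintype U] {P : ℕ} (aU : U → Fin P) {K : Finset ((U × V) × X)}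
    {nu : U → Finset X} {nv : V → Finset X} {G : Finset X} (h : PCol K nu nv G) (x : X)
    (a : Fin P) : (Finset.univ.filter fun u => aU u = a ∧ x ∈ cu K u).card =
      ((cls K x).filter fun p => aU p.1 = a).card := by
  symm
  refine Finset.card_bij (fun p _ => p.1) ?_ ?_ ?_
  · rintro ⟨u, v⟩ hp
    rw [Finset.mem_filter, mem_cls] at hp
    exact Finset.mem_filter.2 ⟨Finset.mem_univ _, hp.2, mem_cu.2 ⟨v, hp.1⟩⟩
  · rintro ⟨u, v⟩ hp ⟨u', v'⟩ hp' he
    rw [Finset.mem_filter, mem_cls] at hp hp'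
    have he' : u = u' := he
    subst he'
    rw [h.pr1 _ _ _ _ hp.1 hp'.1]
  · intro u hu
    rw [Finset.mem_filter, mem_cu] at hu
    obtain ⟨_, h1, v, hv⟩ := hu
    exact ⟨(u, v), Finset.mem_filter.2 ⟨mem_cls.2 hv, h1⟩, rfl⟩

theorem gU_add {U V X : Type} [Fintype U] {P : ℕ} (aU : U → Fin P)
    {K K' : Finset ((U × V) × X)} {nu : U → Finset X} {nv : V → Finset X} {G : Finset X}
    (h : PCol (K ∪ K') nu nv G) (hd : Disjoint (dom K) (dom K')) (x : X) (a : Fin P) :
    (gU nu aU (K ∪ K') x a).card + ((cls K' x).filter fun p => aU p.1 = a).card =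
      (gU nu aU K x a).card := by
  rw [← cnt_cu aU (h.mono Finset.subset_union_right) x a]
  have e : gU nu aU K x a = gU nu aU (K ∪ K') x a ∪
      (Finset.univ.filter fun u => aU u = a ∧ x ∈ cu K' u) := by
    ext u
    unfold gU
    simp only [cu_union, Finset.mem_union, Finset.mem_filter, Finset.mem_univ, true_and]
    constructor
    · rintro ⟨h1, h2, h3⟩
      by_cases h4 : x ∈ cu K' u
      · exact Or.inr ⟨h1, h4⟩
      · exact Or.inl ⟨h1, h2, fun h5 => h5.elim h3 h4⟩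
    · rintro (⟨h1, h2, h3⟩ | ⟨h1, h2⟩)
      · exact ⟨h1, h2, fun h5 => h3 (Or.inl h5)⟩
      · obtain ⟨v, hv⟩ := mem_cu.1 h2
        refine ⟨h1, (h.col _ _ (Finset.mem_union_right _ hv)).2.1, fun h3 => ?_⟩
        obtain ⟨v', hv'⟩ := mem_cu.1 h3
        have e := h.pr1 _ _ _ _ (Finset.mem_union_left _ hv') (Finset.mem_union_right _ hv)
        subst e
        exact Finset.disjoint_left.1 hd (mem_dom.2 ⟨x, hv'⟩) (mem_dom.2 ⟨x, hv⟩)
  rw [e, Finset.card_union_of_disjoint]
  rw [Finset.disjoint_left]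
  intro u h1 h2
  unfold gU at h1
  simp only [cu_union, Finset.mem_union, Finset.mem_filter, Finset.mem_univ, true_and] at h1 h2
  exact h1.2.2 (Or.inr h2.2)

private theorem gU_trK {U V X : Type} [Fintype V] {P : ℕ} (aV : V → Fin P)
    (K : Finset ((U × V) × X)) (nv : V → Finset X) (x : X) (a : Fin P) :
    gU nv aV (trK K) x a = gV nv aV K x a := by
  ext v
  unfold gU gV
  rw [Finset.mem_filter, Finset.mem_filter, cu_trK]

theorem gV_add {U V X : Type} [Fintype V] {P : ℕ} (aV : V → Fin P)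
    {K K' : Finset ((U × V) × X)} {nu : U → Finset X} {nv : V → Finset X} {G : Finset X}
    (h : PCol (K ∪ K') nu nv G) (hd : Disjoint (dom K) (dom K')) (x : X) (a : Fin P) :
    (gV nv aV (K ∪ K') x a).card + ((cls K' x).filter fun p => aV p.2 = a).card =
      (gV nv aV K x a).card := by
  have h' := h.trK
  rw [trK_union] at h'
  have hd' : Disjoint (dom (trK K)) (dom (trK K')) := by
    rw [dom_trK, dom_trK, Finset.disjoint_left]
    rintro ⟨v, u⟩ h1 h2
    exact Finset.disjoint_left.1 hd (mem_tr.1 h1) (mem_tr.1 h2)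
  have key := gU_add aV h' hd' x a
  rw [← trK_union, gU_trK, gU_trK, cls_trK] at key
  rw [← key]
  congr 1
  refine Finset.card_bij (fun p _ => (p.2, p.1)) ?_ ?_ ?_
  · rintro ⟨u, v⟩ hp
    rw [Finset.mem_filter] at hp ⊢
    exact ⟨mem_tr.2 hp.1, hp.2⟩
  · rintro ⟨u, v⟩ _ ⟨u', v'⟩ _ he
    simp only [Prod.mk.injEq] at he
    rw [he.1, he.2]
  · rintro ⟨v, u⟩ hp
    rw [Finset.mem_filter, mem_tr] at hp
    exact ⟨(u, v), Finset.mem_filter.2 ⟨hp.1, hp.2⟩, rfl⟩

end Pool.Agent.Lib.TriS
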