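import Pool.Agent.Lib.TriS.FDefs

/-!
MODULE FPtn (about 110 lines). Pairing of the flags of `Fr` from part `a` to part `c` with those from `c` to `a`.

PROOF. For `a < c` choose a bijection (`Finset.equivOfCardEq` by `h`) `eqv a c` from `{p ∈ Fr : aU p.1 = a, aV p.2 = c}` onto `{p ∈ Fr : aU p.1 = c, aV p.2 = a}`. Put
`pt e = eqv (aU e.1) (aV e.2) e` if `e ∈ Fr` and `aU e.1 < aV e.2`, and `pt e = e` otherwise. Injectivity: `pt e = pt e'` gives the same parts `a`, `c` and then `e = e'`.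
Surjectivity: `e' ∈ Fr` with `aV e'.2 < aU e'.1`: take `a = aV e'.2`, `c = aU e'.1`, `e = (eqv a c).symm e'`.
-/

set_option autoImplicit false

open scoped Classical

noncomputable section

namespace Pool.Agent.Lib.TriS

private theorem exists_bij {α : Type} (s t : Finset α) (h : s.card = t.card) :
    ∃ φ : α → α, (∀ x ∈ s, φ x ∈ t) ∧ (∀ x ∈ s, ∀ y ∈ s, φ x = φ y → x = y) ∧
      ∀ y ∈ t, ∃ x ∈ s, φ x = y := by
  have e := Finset.equivOfCardEq h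
  refine ⟨fun x => if hx : x ∈ s then (e ⟨x, hx⟩ : α) else x, ?_, ?_, ?_⟩
  · intro x hx
    simp only [dif_pos hx]
    exact (e ⟨x, hx⟩).2
  · intro x hx y hy hxy
    simp only [dif_pos hx, dif_pos hy] at hxy
    have h1 := e.injective (Subtype.ext hxy)
    exact congrArg Subtype.val h1
  · intro y hy
    refine ⟨e.symm ⟨y, hy⟩, (e.symm ⟨y, hy⟩).2, ?_⟩
    simp only [dif_pos (e.symm ⟨y, hy⟩).2, Subtype.coe_eta, Equiv.apply_symm_apply]

theorem partner {U V : Type} {P : ℕ} (Fr : Finset (U × V)) (aU : U → Fin P) (aV : V → Fin P)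
    (h : ∀ a c, a ≠ c → (Fr.filter fun p => aU p.1 = a ∧ aV p.2 = c).card =
      (Fr.filter fun p => aU p.1 = c ∧ aV p.2 = a).card) :
    ∃ pt : U × V → U × V, (∀ e ∈ Fr, aU e.1 < aV e.2 →
        pt e ∈ Fr ∧ aU (pt e).1 = aV e.2 ∧ aV (pt e).2 = aU e.1) ∧
      (∀ e ∈ Fr, ∀ e' ∈ Fr, aU e.1 < aV e.2 → aU e'.1 < aV e'.2 → pt e = pt e' → e = e') ∧
      ∀ e' ∈ Fr, aV e'.2 < aU e'.1 → ∃ e ∈ Fr, aU e.1 < aV e.2 ∧ pt e = e' := by
  have hex : ∀ a c : Fin P, ∃ φ : U × V → U × V, a ≠ c →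
      (∀ x ∈ Fr.filter (fun p => aU p.1 = a ∧ aV p.2 = c),
        φ x ∈ Fr.filter (fun p => aU p.1 = c ∧ aV p.2 = a)) ∧
      (∀ x ∈ Fr.filter (fun p => aU p.1 = a ∧ aV p.2 = c),
        ∀ y ∈ Fr.filter (fun p => aU p.1 = a ∧ aV p.2 = c), φ x = φ y → x = y) ∧
      ∀ y ∈ Fr.filter (fun p => aU p.1 = c ∧ aV p.2 = a),
        ∃ x ∈ Fr.filter (fun p => aU p.1 = a ∧ aV p.2 = c), φ x = y := by
    intro a c
    by_cases hac : a = c
    · exact ⟨id, fun h' => absurd hac h'⟩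
    · obtain ⟨φ, h1, h2, h3⟩ := exists_bij _ _ (h a c hac)
      exact ⟨φ, fun _ => ⟨h1, h2, h3⟩⟩
  choose φ hφ using hex
  simp only [Finset.mem_filter] at hφ
  refine ⟨fun e => φ (aU e.1) (aV e.2) e, ?_, ?_, ?_⟩
  · intro e he hlt
    exact (hφ _ _ hlt.ne).1 e ⟨he, rfl, rfl⟩
  · intro e he e' he' hlt hlt' heq
    have h1 := (hφ _ _ hlt.ne).1 e ⟨he, rfl, rfl⟩
    have h2 := (hφ _ _ hlt'.ne).1 e' ⟨he', rfl, rfl⟩
    simp only at heq
    rw [heq] at h1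
    have ha : aU e'.1 = aU e.1 := h2.2.2.symm.trans h1.2.2
    have hc : aV e'.2 = aV e.2 := h2.2.1.symm.trans h1.2.1
    rw [ha, hc] at heq
    exact (hφ _ _ hlt.ne).2.1 e ⟨he, rfl, rfl⟩ e' ⟨he', ha, hc⟩ heq
  · intro e' he' hlt
    obtain ⟨e, ⟨he, ha, hc⟩, hee⟩ := (hφ (aV e'.2) (aU e'.1) hlt.ne).2.2 e' ⟨he', rfl, rfl⟩
    refine ⟨e, he, ?_, ?_⟩
    · rw [ha, hc]
      exact hlt
    · simp only [ha, hc]
      exact hee

end Pool.Agent.Lib.TriS
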