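import Pool.Agent.Lib.TriS.FTests
import Pool.Agent.Lib.TriS.FCu
import Pool.Agent.Lib.TriS.FPtn

/-!
MODULE FPair (about 280 lines). 7.4: colour the remaining flags of `F` in pairs.

PROOF. `Fr = F \ dom K2`, `pt` from `partner`. `ftasks` with `K0 = K2`, `τ = {e // e ∈ Fr ∧ aU e.1 < aV e.2}`, `Opt e = G.image fun x => {(e, x), (pt e, x)}`, `n e = (G.card + 1) / 2`,
`κ = 3/10^11`. With `e = (u,v)`, `pt e = (u',v')`, `aU u = a`, `aV v = c`, `aU u' = c`, `aV v' = a`, `a ≠ c`: `hsep` holds. `hU`: at most one option of `e` touches the test `(S, x)`, and only if `u ∈ S` or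
`u' ∈ S`; the flags `e`, `pt e` (`e : τ`) are pairwise different elements of `F`, so the sum is at most `(2/|G|) #{p ∈ F : p.1 ∈ S} ≤ (2/|G|) |S| (11/10) (1/10^11) |G| ≤ 3/10^11 |S|` (`degF`). `hV`: the same.
`hadm`: `K = K2 ∪ D.biUnion ch`, `dom K ⊆ O ∪ F`, and `e, pt e ∉ dom K` (`e, pt e ∈ Fr`, and they are not among the flags of the other tasks). `x ∈ G` gives an admissible option if `x` is needed at the four ends and
not used there: `pcol_single` twice (for the second flag: `u' ≠ u`, `v' ≠ v` because the parts differ). The other `x` are at most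
`4 η |G| + |cu K u| + |cu K u'| + |cv K v| + |cv K v'| ≤ 4 η |G| + 4 (2.2/10^15 + 1.1/10^11) |G| ≤ |G|/10` (`card_cu`, `dom K ⊆ O ∪ F`, `degO`, `degF`). So at least `9/10 |G| ≥ (|G|+1)/2` options are admissible.
Result: `K'' = univ.biUnion ch`, `dom K'' = Fr` (every `p ∈ Fr` has `aU p.1 < aV p.2`, or `>` and then it is a partner; `Fout`). Balance: the flags of `cls K'' x` are the `e`, `pt e` of the tasks `e` with colour `x`; those with
`aU p.1 = a` are the `e` with `aU e.1 = a` and the `pt e` with `aV e.2 = a`; those with `aV p.2 = a` are the `e` with `aV e.2 = a` and the `pt e` with `aU e.1 = a`: equally many.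
-/

set_option autoImplicit false

open scoped Classical

noncomputable section

namespace Pool.Agent.Lib.TriS

private theorem fp_mem {U V X : Type} {e e' : U × V} {x : X} {q : (U × V) × X}
    (hq : q ∈ ({(e, x), (e', x)} : Finset ((U × V) × X))) : (q.1 = e ∨ q.1 = e') ∧ q.2 = x := by
  rw [Finset.mem_insert, Finset.mem_singleton] at hq
  rcases hq with rfl | rfl
  · exact ⟨Or.inl rfl, rfl⟩
  · exact ⟨Or.inr rfl, rfl⟩

private theorem fp_dom {U V X : Type} (e e' : U × V) (x : X) :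
    dom ({(e, x), (e', x)} : Finset ((U × V) × X)) = {e, e'} := by
  unfold dom
  rw [Finset.image_insert, Finset.image_singleton]

private theorem fp_opt {U V X W : Type} (G : Finset X) (e e' : U × V) (f : U × V → W)
    (S : Finset W) (x : X) :
    ((G.image fun y => ({(e, y), (e', y)} : Finset ((U × V) × X))).filter
      fun Δ => ∃ q ∈ Δ, f q.1 ∈ S ∧ q.2 = x).card ≤ if f e ∈ S ∨ f e' ∈ S then 1 else 0 := by
  split_ifs with hc
  · rw [Finset.card_le_one]
    intro Δ hΔ Δ' hΔ'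
    rw [Finset.mem_filter, Finset.mem_image] at hΔ hΔ'
    obtain ⟨⟨y, _, rfl⟩, q, hq, _, h2⟩ := hΔ
    obtain ⟨⟨y', _, rfl⟩, q', hq', _, h2'⟩ := hΔ'
    have e1 := (fp_mem hq).2
    have e2 := (fp_mem hq').2
    have e3 : y = y' := by rw [← e1, ← e2, h2, h2']
    rw [e3]
  · rw [Nat.le_zero, Finset.card_eq_zero, Finset.filter_eq_empty_iff]
    intro Δ hΔ
    rw [Finset.mem_image] at hΔ
    obtain ⟨y, _, rfl⟩ := hΔ
    rintro ⟨q, hq, h1, _⟩
    rcases (fp_mem hq).1 with h3 | h3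
    · exact hc (Or.inl (h3 ▸ h1))
    · exact hc (Or.inr (h3 ▸ h1))

private theorem fp_inj {U V W : Type} {P : ℕ} (F Fr : Finset (U × V)) (hF : Fr ⊆ F)
    (aU : U → Fin P) (aV : V → Fin P) (pt : U × V → U × V)
    (h1 : ∀ e ∈ Fr, aU e.1 < aV e.2 → pt e ∈ Fr ∧ aU (pt e).1 = aV e.2 ∧ aV (pt e).2 = aU e.1)
    (h2 : ∀ e ∈ Fr, ∀ e' ∈ Fr, aU e.1 < aV e.2 → aU e'.1 < aV e'.2 → pt e = pt e' → e = e')
    (f : U × V → W) (S : Finset W) [Fintype {e // e ∈ Fr ∧ aU e.1 < aV e.2}] :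
    (Finset.univ.filter fun k : {e // e ∈ Fr ∧ aU e.1 < aV e.2} =>
      f k.1 ∈ S ∨ f (pt k.1) ∈ S).card ≤ (F.filter fun p => f p ∈ S).card := by
  refine Finset.card_le_card_of_injOn (fun k => if f k.1 ∈ S then k.1 else pt k.1) ?_ ?_
  · intro k hk
    rw [Finset.mem_coe, Finset.mem_filter] at hk
    rw [Finset.mem_coe, Finset.mem_filter]
    beta_reduce
    split_ifs with hc
    · exact ⟨hF k.2.1, hc⟩
    · exact ⟨hF (h1 _ k.2.1 k.2.2).1, hk.2.resolve_left hc⟩
  · intro k _ k' _ h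
    beta_reduce at h
    have hne : ∀ j j' : {e // e ∈ Fr ∧ aU e.1 < aV e.2}, j.1 ≠ pt j'.1 := by
      intro j j' he
      have h3 := h1 _ j'.2.1 j'.2.2
      have h4 := j.2.2
      rw [he, h3.2.1, h3.2.2] at h4
      exact lt_asymm h4 j'.2.2
    split_ifs at h with ha hb hb
    · exact Subtype.ext h
    · exact absurd h (hne k k')
    · exact absurd h.symm (hne k' k)
    · exact Subtype.ext (h2 _ k.2.1 _ k'.2.1 k.2.2 k'.2.2 h)

private theorem fp_sum {U V X W : Type} {P : ℕ} (F Fr : Finset (U × V)) (hF : Fr ⊆ F)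
    (aU : U → Fin P) (aV : V → Fin P) (pt : U × V → U × V)
    (h1 : ∀ e ∈ Fr, aU e.1 < aV e.2 → pt e ∈ Fr ∧ aU (pt e).1 = aV e.2 ∧ aV (pt e).2 = aU e.1)
    (h2 : ∀ e ∈ Fr, ∀ e' ∈ Fr, aU e.1 < aV e.2 → aU e'.1 < aV e'.2 → pt e = pt e' → e = e')
    (f : U × V → W) (S : Finset W) [Fintype {e // e ∈ Fr ∧ aU e.1 < aV e.2}] (G : Finset X)
    (hG : 0 < G.card) (c : ℝ) (hc : ((F.filter fun p => f p ∈ S).card : ℝ) ≤
      S.card * (11 / 10 * (1 / 10 ^ 11) * G.card)) (x : X) (n : ℕ)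
    (hn : (G.card : ℝ) ≤ 2 * n) (hcc : c = 3 / 10 ^ 11) :
    ∑ k : {e // e ∈ Fr ∧ aU e.1 < aV e.2},
      ((((G.image fun y => ({(k.1, y), (pt k.1, y)} : Finset ((U × V) × X)))).filter
        fun Δ => ∃ q ∈ Δ, f q.1 ∈ S ∧ q.2 = x).card : ℝ) / n ≤ c * S.card := by
  have hG' : (0 : ℝ) < G.card := by exact_mod_cast hG
  have hn' : (0 : ℝ) < n := by linarith
  have e1 : ∑ k : {e // e ∈ Fr ∧ aU e.1 < aV e.2},
      ((((G.image fun y => ({(k.1, y), (pt k.1, y)} : Finset ((U × V) × X)))).filter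
        fun Δ => ∃ q ∈ Δ, f q.1 ∈ S ∧ q.2 = x).card : ℝ) / n ≤
      ((F.filter fun p => f p ∈ S).card : ℝ) / n := by
    rw [← Finset.sum_div]
    refine div_le_div_of_nonneg_right ?_ hn'.le
    have e2 := fp_inj F Fr hF aU aV pt h1 h2 f S
    rw [Finset.card_filter] at e2
    have e3 : ∑ k : {e // e ∈ Fr ∧ aU e.1 < aV e.2},
      ((((G.image fun y => ({(k.1, y), (pt k.1, y)} : Finset ((U × V) × X)))).filter
        fun Δ => ∃ q ∈ Δ, f q.1 ∈ S ∧ q.2 = x).card) ≤
      ∑ k : {e // e ∈ Fr ∧ aU e.1 < aV e.2}, if f k.1 ∈ S ∨ f (pt k.1) ∈ S then 1 else 0 :=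
      Finset.sum_le_sum fun k _ => fp_opt G k.1 (pt k.1) f S x
    exact_mod_cast e3.trans e2
  refine e1.trans ?_
  rw [div_le_iff₀ hn', hcc]
  have hS : (0 : ℝ) ≤ S.card := Nat.cast_nonneg _
  have h3 : (S.card : ℝ) * G.card ≤ S.card * (2 * n) := mul_le_mul_of_nonneg_left hn hS
  have h4 : (0 : ℝ) ≤ S.card * n := mul_nonneg hS hn'.le
  calc ((F.filter fun p => f p ∈ S).card : ℝ) ≤ S.card * (11 / 10 * (1 / 10 ^ 11) * G.card) := hc
    _ = 11 / 10 * (1 / 10 ^ 11) * (S.card * G.card) := by ring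
    _ ≤ 11 / 10 * (1 / 10 ^ 11) * (S.card * (2 * n)) :=
        mul_le_mul_of_nonneg_left h3 (by norm_num)
    _ ≤ 3 / 10 ^ 11 * S.card * n := by nlinarith

private theorem fp_cardU {U V : Type} [Fintype V] (F : Finset (U × V)) (S : Finset U) (b : ℝ)
    (hb : ∀ u, ((nb F u).card : ℝ) ≤ b) :
    ((F.filter fun p => p.1 ∈ S).card : ℝ) ≤ S.card * b := by
  have e1 : (F.filter fun p => p.1 ∈ S).card = ∑ u ∈ S, (nb F u).card := by
    have e2 := eb_eq_sum F S (Finset.univ : Finset V)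
    unfold eb at e2
    simp only [Finset.mem_univ, and_true, Finset.inter_univ] at e2
    exact e2
  rw [e1, Nat.cast_sum, ← nsmul_eq_mul]
  exact Finset.sum_le_card_nsmul _ _ _ fun u _ => hb u

private theorem fp_cardV {U V : Type} [Fintype U] (F : Finset (U × V)) (S : Finset V) (b : ℝ)
    (hb : ∀ v, ((nb (tr F) v).card : ℝ) ≤ b) :
    ((F.filter fun p => p.2 ∈ S).card : ℝ) ≤ S.card * b := by
  refine le_trans (le_of_eq ?_) (fp_cardU (tr F) S b hb)
  congr 1
  refine Finset.card_bij (fun p _ => (p.2, p.1)) ?_ ?_ ?_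
  · rintro ⟨u, v⟩ hp
    rw [Finset.mem_filter] at hp ⊢
    exact ⟨mem_tr.2 hp.1, hp.2⟩
  · rintro ⟨u, v⟩ _ ⟨u', v'⟩ _ he
    simp only [Prod.mk.injEq] at he
    rw [he.1, he.2]
  · rintro ⟨v, u⟩ hp
    rw [Finset.mem_filter, mem_tr] at hp
    exact ⟨(u, v), Finset.mem_filter.2 ⟨hp.1, hp.2⟩, rfl⟩

/-- two flags in different parts get the same colour -/
private theorem fp_two {U V X : Type} {K : Finset ((U × V) × X)} {nu : U → Finset X}
    {nv : V → Finset X} {G : Finset X} (h : PCol K nu nv G) {u u' : U} {v v' : V} {x : X}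
    (hx : x ∈ G) (hu : u ≠ u') (hv : v ≠ v') (h1 : x ∈ nu u) (h2 : x ∈ nv v) (h3 : x ∉ cu K u)
    (h4 : x ∉ cv K v) (h5 : (u, v) ∉ dom K) (h1' : x ∈ nu u') (h2' : x ∈ nv v')
    (h3' : x ∉ cu K u') (h4' : x ∉ cv K v') (h5' : (u', v') ∉ dom K) :
    PCol (K ∪ {((u, v), x), ((u', v'), x)}) nu nv G := by
  have hP := pcol_single h hx h1 h2 h3 h4 h5
  have hP' : PCol ((K ∪ {((u, v), x)}) ∪ {((u', v'), x)}) nu nv G := by
    refine pcol_single hP hx h1' h2' ?_ ?_ ?_
    · rw [cu_union, Finset.mem_union, not_or]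
      refine ⟨h3', ?_⟩
      rw [mem_cu]
      rintro ⟨w, hw⟩
      rw [Finset.mem_singleton, Prod.mk.injEq, Prod.mk.injEq] at hw
      exact hu hw.1.1.symm
    · rw [cv_union, Finset.mem_union, not_or]
      refine ⟨h4', ?_⟩
      rw [mem_cv]
      rintro ⟨w, hw⟩
      rw [Finset.mem_singleton, Prod.mk.injEq, Prod.mk.injEq] at hw
      exact hv hw.1.2.symm
    · rw [dom_union, Finset.mem_union, not_or]
      refine ⟨h5', ?_⟩
      rw [mem_dom]
      rintro ⟨w, hw⟩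
      rw [Finset.mem_singleton, Prod.mk.injEq, Prod.mk.injEq] at hw
      exact hu hw.1.1.symm
  have e : (K ∪ {((u, v), x)}) ∪ {((u', v'), x)} = K ∪ {((u, v), x), ((u', v'), x)} := by
    rw [Finset.union_assoc]
    congr 1
  rw [← e]
  exact hP'

private theorem fp_use {U V X : Type} [Fintype U] [Fintype V] {O E F : Finset (U × V)}
    {nu : U → Finset X} {P : ℕ} {aU : U → Fin P} {aV : V → Fin P} {G : Finset X} {s r m : ℕ}
    {η : ℝ} (h : FSide O E F nu P aU aV G s r m η) {nv : V → Finset X}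
    {K : Finset ((U × V) × X)} (hK : PCol K nu nv G) (hd : dom K ⊆ O ∪ F) (u : U) :
    ((cu K u).card : ℝ) ≤ (2 / 10 ^ 15 * (11 / 10) + 11 / 10 * (1 / 10 ^ 11)) * G.card := by
  rw [card_cu hK]
  have e1 : (nb (dom K) u).card ≤ (nb O u).card + (nb F u).card := by
    refine (Finset.card_le_card (nb_mono hd u)).trans ?_
    rw [nb_union]
    exact Finset.card_union_le _ _
  have e2 : ((nb (dom K) u).card : ℝ) ≤ (nb O u).card + (nb F u).card := by exact_mod_cast e1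
  have e3 := h.degO u
  have e4 := h.degF u
  linarith

private theorem fp_count {X : Type} (G A1 A2 A3 A4 B1 B2 B3 B4 : Finset X) (η b : ℝ)
    (hη : η ≤ 2 / 10 ^ 25) (hb : b = (2 / 10 ^ 15 * (11 / 10) + 11 / 10 * (1 / 10 ^ 11)) * G.card)
    (hG : 10 ≤ G.card)
    (h1 : ((G \ A1).card : ℝ) ≤ η * G.card) (h2 : ((G \ A2).card : ℝ) ≤ η * G.card)
    (h3 : ((G \ A3).card : ℝ) ≤ η * G.card) (h4 : ((G \ A4).card : ℝ) ≤ η * G.card)
    (g1 : (B1.card : ℝ) ≤ b) (g2 : (B2.card : ℝ) ≤ b) (g3 : (B3.card : ℝ) ≤ b)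
    (g4 : (B4.card : ℝ) ≤ b) :
    (G.card + 1) / 2 ≤ (G.filter fun x => (x ∈ A1 ∧ x ∈ A2 ∧ x ∈ A3 ∧ x ∈ A4) ∧
      x ∉ B1 ∧ x ∉ B2 ∧ x ∉ B3 ∧ x ∉ B4).card := by
  set Gd := G.filter fun x => (x ∈ A1 ∧ x ∈ A2 ∧ x ∈ A3 ∧ x ∈ A4) ∧
      x ∉ B1 ∧ x ∉ B2 ∧ x ∉ B3 ∧ x ∉ B4 with hGd
  have hsub : G ⊆ Gd ∪ ((G \ A1) ∪ ((G \ A2) ∪ ((G \ A3) ∪ ((G \ A4) ∪
      (B1 ∪ (B2 ∪ (B3 ∪ B4))))))) := by
    intro x hx
    by_cases hx' : x ∈ Gd
    · exact Finset.mem_union_left _ hx'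
    · refine Finset.mem_union_right _ ?_
      simp only [Finset.mem_union, Finset.mem_sdiff, hx, true_and]
      rw [hGd, Finset.mem_filter, not_and] at hx'
      have := hx' hx
      tauto
  have hc : G.card ≤ Gd.card + ((G \ A1).card + ((G \ A2).card + ((G \ A3).card +
      ((G \ A4).card + (B1.card + (B2.card + (B3.card + B4.card))))))) := by
    refine (Finset.card_le_card hsub).trans ?_
    refine (Finset.card_union_le _ _).trans (Nat.add_le_add_left ?_ _)
    refine (Finset.card_union_le _ _).trans (Nat.add_le_add_left ?_ _)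
    refine (Finset.card_union_le _ _).trans (Nat.add_le_add_left ?_ _)
    refine (Finset.card_union_le _ _).trans (Nat.add_le_add_left ?_ _)
    refine (Finset.card_union_le _ _).trans (Nat.add_le_add_left ?_ _)
    refine (Finset.card_union_le _ _).trans (Nat.add_le_add_left ?_ _)
    refine (Finset.card_union_le _ _).trans (Nat.add_le_add_left ?_ _)
    exact Finset.card_union_le _ _
  have hc' : (G.card : ℝ) ≤ Gd.card + ((G \ A1).card + ((G \ A2).card + ((G \ A3).card +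
      ((G \ A4).card + (B1.card + (B2.card + (B3.card + B4.card))))))) := by exact_mod_cast hc
  have hG' : (10 : ℝ) ≤ G.card := by exact_mod_cast hG
  have hη' : η * G.card ≤ 2 / 10 ^ 25 * G.card :=
    mul_le_mul_of_nonneg_right hη (by linarith)
  have h9 : (9 : ℝ) / 10 * G.card ≤ Gd.card := by
    have h10 : 4 * (η * G.card) + 4 * b ≤ 1 / 10 * G.card := by
      rw [hb]
      nlinarith
    linarith
  have h11 : ((((G.card + 1) / 2 : ℕ)) : ℝ) ≤ Gd.card := by
    refine (Nat.cast_div_le).trans ?_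
    push_cast
    linarith
  exact_mod_cast h11

/-- balance of one colour class -/
private theorem fp_bal {U V α : Type} [Fintype α] {P : ℕ} (C : Finset (U × V)) (T : Finset α)
    (f g : α → U × V) (aU : U → Fin P) (aV : V → Fin P)
    (hC : C = T.image f ∪ T.image g) (hd : Disjoint (T.image f) (T.image g))
    (hf : Set.InjOn f T) (hg : Set.InjOn g T) (h1 : ∀ k ∈ T, aU (g k).1 = aV (f k).2)
    (h2 : ∀ k ∈ T, aV (g k).2 = aU (f k).1) (a : Fin P) :
    (C.filter fun p => aU p.1 = a).card = (C.filter fun p => aV p.2 = a).card := by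
  rw [Finset.card_filter, Finset.card_filter, hC, Finset.sum_union hd, Finset.sum_union hd,
    Finset.sum_image hf, Finset.sum_image hg, Finset.sum_image hf, Finset.sum_image hg,
    add_comm]
  congr 1
  · exact Finset.sum_congr rfl fun k hk => by rw [h1 k hk]
  · exact Finset.sum_congr rfl fun k hk => by rw [h2 k hk]

theorem flush3 {U V X : Type} [Fintype U] [Fintype V] {O E F : Finset (U × V)}
    {nu : U → Finset X} {nv : V → Finset X} {P : ℕ} {aU : U → Fin P} {aV : V → Fin P}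
    {G : Finset X} {s r m : ℕ} {L η : ℝ} (h : FIn O E F nu nv P aU aV G s r m L η)
    {K2 : Finset ((U × V) × X)} (hK2 : PCol K2 nu nv G) (hd2 : dom K2 ⊆ O ∪ F)
    (heq : ∀ a c, a ≠ c → ((F \ dom K2).filter fun p => aU p.1 = a ∧ aV p.2 = c).card =
      ((F \ dom K2).filter fun p => aU p.1 = c ∧ aV p.2 = a).card) :
    ∃ K'' : Finset ((U × V) × X), PCol (K2 ∪ K'') nu nv G ∧ dom K'' = F \ dom K2 ∧
      TB E aU aV G K'' (3 / 10 ^ 11) L ∧ ∀ x ∈ G, ∀ a,
      ((cls K'' x).filter fun p => aU p.1 = a).card =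
        ((cls K'' x).filter fun p => aV p.2 = a).card := by
  obtain ⟨pt, hp1, hp2, hp3⟩ := partner (F \ dom K2) aU aV heq
  set Fr := F \ dom K2 with hFr
  have hFF : Fr ⊆ F := Finset.sdiff_subset
  have hGcard : (10 : ℝ) ≤ G.card := by
    have h1 := h.G1
    have h2 := h.P1
    have h3 := h.L1
    have h4 : (10 : ℝ) ^ 60 * 10 ^ 60 ≤ 10 ^ 60 * (P : ℝ) :=
      mul_le_mul_of_nonneg_left h2 (by positivity)
    have h5 : 10 ^ 60 * (P : ℝ) * 1 ≤ 10 ^ 60 * (P : ℝ) * L :=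
      mul_le_mul_of_nonneg_left h3 (by positivity)
    have h6 : (10 : ℝ) ≤ 10 ^ 60 * 10 ^ 60 := by norm_num
    linarith
  have hG10 : 10 ≤ G.card := by exact_mod_cast hGcard
  have hG0 : 0 < G.card := by omega
  have hne : ∀ e ∈ Fr, ∀ e' ∈ Fr, aU e.1 < aV e.2 → aU e'.1 < aV e'.2 → e ≠ pt e' := by
    intro e he e' he' hlt hlt' hee
    have h3 := hp1 e' he' hlt'
    have h4 := hlt
    rw [hee, h3.2.1, h3.2.2] at h4
    exact lt_asymm h4 hlt'
  let Opt : {e // e ∈ Fr ∧ aU e.1 < aV e.2} → Finset (Finset ((U × V) × X)) :=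
    fun k => G.image fun y => {(k.1, y), (pt k.1, y)}
  have hOpt : ∀ k Δ, Δ ∈ Opt k → ∃ y ∈ G, Δ = {(k.1, y), (pt k.1, y)} := by
    intro k Δ hΔ
    obtain ⟨y, hy, rfl⟩ := Finset.mem_image.1 hΔ
    exact ⟨y, hy, rfl⟩
  have hn2 : (G.card : ℝ) ≤ 2 * (((G.card + 1) / 2 : ℕ) : ℝ) := by
    have : G.card ≤ 2 * ((G.card + 1) / 2) := by omega
    exact_mod_cast this
  obtain ⟨ch, hT, hTB⟩ := ftasks h K2 hK2 Opt (fun _ => (G.card + 1) / 2)
    (fun _ => by show 0 < (G.card + 1) / 2; omega) (3 / 10 ^ 11) (by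
      intro k Δ hΔ q hq q' hq' hqq
      obtain ⟨y, _, rfl⟩ := hOpt k Δ hΔ
      have h1 := hp1 _ k.2.1 k.2.2
      have h2 := k.2.2
      have h3 := fp_mem hq
      have h4 := fp_mem hq'
      rcases h3.1 with h5 | h5 <;> rcases h4.1 with h6 | h6
      · exact absurd (Prod.ext (h5.trans h6.symm) (h3.2.trans h4.2.symm)) hqq
      · rw [h5, h6, h1.2.1, h1.2.2]
        exact ⟨h2.ne, h2.ne'⟩
      · rw [h5, h6, h1.2.1, h1.2.2]
        exact ⟨h2.ne', h2.ne⟩
      · exact absurd (Prod.ext (h5.trans h6.symm) (h3.2.trans h4.2.symm)) hqq)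
    (by
      intro i x _
      exact fp_sum F Fr hFF aU aV pt hp1 hp2 Prod.fst (SU E aU i) G hG0 _
        (fp_cardU F _ _ h.s1.degF) x _ hn2 rfl)
    (by
      intro i x _
      exact fp_sum F Fr hFF aU aV pt hp1 hp2 Prod.snd (SV E aV i) G hG0 _
        (fp_cardV F _ _ h.s2.degF) x _ hn2 rfl)
    (by
      intro D ch hT _ k hk
      have hdomch : ∀ j ∈ D, dom (ch j) = {j.1, pt j.1} := by
        intro j hj
        obtain ⟨y, _, hy⟩ := hOpt j _ (hT.opt j hj)
        rw [hy, fp_dom]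
      have hdomK : ∀ p, p ∈ dom (K2 ∪ D.biUnion ch) →
          p ∈ dom K2 ∨ ∃ j ∈ D, p = j.1 ∨ p = pt j.1 := by
        intro p hp
        rw [dom_union, Finset.mem_union] at hp
        rcases hp with hp | hp
        · exact Or.inl hp
        · right
          obtain ⟨y, hy⟩ := mem_dom.1 hp
          obtain ⟨j, hj, hjy⟩ := Finset.mem_biUnion.1 hy
          have h3 : p ∈ dom (ch j) := mem_dom.2 ⟨y, hjy⟩
          rw [hdomch j hj, Finset.mem_insert, Finset.mem_singleton] at h3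
          exact ⟨j, hj, h3⟩
      have hd : dom (K2 ∪ D.biUnion ch) ⊆ O ∪ F := by
        intro p hp
        rcases hdomK p hp with hp | ⟨j, hj, rfl | rfl⟩
        · exact hd2 hp
        · exact Finset.mem_union_right _ (hFF j.2.1)
        · exact Finset.mem_union_right _ (hFF (hp1 _ j.2.1 j.2.2).1)
      have hkj : ∀ j ∈ D, j ≠ k := by
        rintro j hj rfl
        exact hk hj
      have h1 := hp1 _ k.2.1 k.2.2
      have hk1 : k.1 ∉ dom (K2 ∪ D.biUnion ch) := by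
        intro hp
        rcases hdomK _ hp with hp | ⟨j, hj, hj' | hj'⟩
        · exact (Finset.mem_sdiff.1 k.2.1).2 hp
        · exact hkj j hj (Subtype.ext hj'.symm)
        · exact hne _ k.2.1 _ j.2.1 k.2.2 j.2.2 hj'
      have hk2 : pt k.1 ∉ dom (K2 ∪ D.biUnion ch) := by
        intro hp
        rcases hdomK _ hp with hp | ⟨j, hj, hj' | hj'⟩
        · exact (Finset.mem_sdiff.1 h1.1).2 hp
        · exact hne _ j.2.1 _ k.2.1 j.2.2 k.2.2 hj'.symm
        · exact hkj j hj (Subtype.ext (hp2 _ k.2.1 _ j.2.1 k.2.2 j.2.2 hj').symm)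
      have huu : k.1.1 ≠ (pt k.1).1 := by
        intro he
        have h3 := h1.2.1
        rw [← he] at h3
        exact k.2.2.ne h3
      have hvv : k.1.2 ≠ (pt k.1).2 := by
        intro he
        have h3 := h1.2.2
        rw [← he] at h3
        exact k.2.2.ne' h3
      have hdtr : dom (trK (K2 ∪ D.biUnion ch)) ⊆ tr O ∪ tr F := by
        rw [dom_trK, ← tr_union]
        exact tr_subset.2 hd
      have hcv : ∀ v, ((cv (K2 ∪ D.biUnion ch) v).card : ℝ) ≤
          (2 / 10 ^ 15 * (11 / 10) + 11 / 10 * (1 / 10 ^ 11)) * G.card := by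
        intro v
        rw [← cu_trK]
        exact fp_use h.s2 hT.col.trK hdtr v
      refine (fp_count G (nu k.1.1) (nu (pt k.1).1) (nv k.1.2) (nv (pt k.1).2)
        (cu (K2 ∪ D.biUnion ch) k.1.1) (cu (K2 ∪ D.biUnion ch) (pt k.1).1)
        (cv (K2 ∪ D.biUnion ch) k.1.2) (cv (K2 ∪ D.biUnion ch) (pt k.1).2) η _ h.eta rfl hG10
        (h.s1.missG _) (h.s1.missG _) (h.s2.missG _) (h.s2.missG _)
        (fp_use h.s1 hT.col hd _) (fp_use h.s1 hT.col hd _) (hcv _) (hcv _)).trans ?_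
      refine Finset.card_le_card_of_injOn
        (fun y => ({(k.1, y), (pt k.1, y)} : Finset ((U × V) × X))) ?_ ?_
      · intro y hy
        rw [Finset.mem_coe, Finset.mem_filter] at hy
        obtain ⟨hyG, ⟨a1, a2, a3, a4⟩, b1, b2, b3, b4⟩ := hy
        rw [Finset.mem_coe]
        unfold admis
        rw [Finset.mem_filter]
        refine ⟨Finset.mem_image_of_mem _ hyG, ?_, ?_⟩
        · rw [fp_dom, Finset.disjoint_left]
          intro p hp hp'
          rw [Finset.mem_insert, Finset.mem_singleton] at hp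
          rcases hp with rfl | rfl
          · exact hk1 hp'
          · exact hk2 hp'
        · exact fp_two hT.col hyG huu hvv a1 a3 b1 b3 hk1 a2 a4 b2 b4 hk2
      · intro y _ y' _ he
        beta_reduce at he
        have h5 : (k.1, y) ∈ ({(k.1, y'), (pt k.1, y')} : Finset ((U × V) × X)) := by
          rw [← he]
          exact Finset.mem_insert_self _ _
        exact (fp_mem h5).2)
  have hcolr : ∀ k, ∃ y, y ∈ G ∧ ch k = {(k.1, y), (pt k.1, y)} := by
    intro k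
    obtain ⟨y, hy, he⟩ := hOpt k _ (hT.opt k (Finset.mem_univ _))
    exact ⟨y, hy, he⟩
  choose c hcG hc using hcolr
  have hmem : ∀ p y, (p, y) ∈ Finset.univ.biUnion ch ↔ ∃ k, c k = y ∧ (p = k.1 ∨ p = pt k.1) := by
    intro p y
    rw [Finset.mem_biUnion]
    constructor
    · rintro ⟨k, _, hk⟩
      rw [hc k] at hk
      have h3 := fp_mem hk
      exact ⟨k, h3.2.symm, h3.1⟩
    · rintro ⟨k, rfl, h3⟩
      refine ⟨k, Finset.mem_univ _, ?_⟩
      rw [hc k, Finset.mem_insert, Finset.mem_singleton]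
      rcases h3 with rfl | rfl
      · exact Or.inl rfl
      · exact Or.inr rfl
  refine ⟨Finset.univ.biUnion ch, hT.col, ?_, hTB, ?_⟩
  · ext p
    rw [mem_dom]
    constructor
    · rintro ⟨y, hy⟩
      rw [hmem] at hy
      obtain ⟨k, _, rfl | rfl⟩ := hy
      · exact k.2.1
      · exact (hp1 _ k.2.1 k.2.2).1
    · intro hp
      rcases lt_or_gt_of_ne (h.Fout p (hFF hp)) with hlt | hlt
      · exact ⟨c ⟨p, hp, hlt⟩, (hmem _ _).2 ⟨⟨p, hp, hlt⟩, rfl, Or.inl rfl⟩⟩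
      · obtain ⟨e, he, hlt', hee⟩ := hp3 p hp hlt
        exact ⟨c ⟨e, he, hlt'⟩, (hmem _ _).2 ⟨⟨e, he, hlt'⟩, rfl, Or.inr hee.symm⟩⟩
  · intro x _ a
    refine fp_bal (cls (Finset.univ.biUnion ch) x) (Finset.univ.filter fun k => c k = x)
      (fun k => k.1) (fun k => pt k.1) aU aV ?_ ?_ ?_ ?_ ?_ ?_ a
    · ext p
      rw [mem_cls, hmem, Finset.mem_union, Finset.mem_image, Finset.mem_image]
      constructor
      · rintro ⟨k, hk, rfl | rfl⟩
        · exact Or.inl ⟨k, Finset.mem_filter.2 ⟨Finset.mem_univ _, hk⟩, rfl⟩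
        · exact Or.inr ⟨k, Finset.mem_filter.2 ⟨Finset.mem_univ _, hk⟩, rfl⟩
      · rintro (⟨k, hk, rfl⟩ | ⟨k, hk, rfl⟩)
        · exact ⟨k, (Finset.mem_filter.1 hk).2, Or.inl rfl⟩
        · exact ⟨k, (Finset.mem_filter.1 hk).2, Or.inr rfl⟩
    · rw [Finset.disjoint_left]
      intro p h3 h4
      obtain ⟨k, _, rfl⟩ := Finset.mem_image.1 h3
      obtain ⟨j, _, hj⟩ := Finset.mem_image.1 h4
      exact hne _ k.2.1 _ j.2.1 k.2.2 j.2.2 hj.symm
    · intro k _ j _ he
      exact Subtype.ext he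
    · intro k _ j _ he
      exact Subtype.ext (hp2 _ k.2.1 _ j.2.1 k.2.2 j.2.2 he)
    · intro k _
      exact (hp1 _ k.2.1 k.2.2).2.1
    · intro k _
      exact (hp1 _ k.2.1 k.2.2).2.2

end Pool.Agent.Lib.TriS
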