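import Pool.Agent.Lib.TriS.FTests
import Pool.Agent.Lib.TriS.FCu

/-!
MODULE FReq (about 300 lines). 7.3: fulfil the requests `Req x a c` (colour `x` on that many flags of `F` from part `a` to part `c`).

PROOF. `ftasks` with `K0 = K1`, `τ = Σ t : {x // x ∈ G} × Fin P × Fin P, Fin (Req t.1 t.2.1 t.2.2)`; for `k = ⟨(x, a, c), _⟩` (then `a ≠ c` by `hR0`):
`Fk = F.filter (aU p.1 = a ∧ aV p.2 = c)` (`m` elements, `Fm`), `Opt k = Fk.image fun p => {(p, x)}`, `n k = (m + 1) / 2`, `κ = 4/10^13`. (`m ≥ 2`: `m1`, `G1`, `s3`.)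
`hU` (test `S = SU E aU i`, contained in one part `p0`: `Ein`): the options of `k` that touch `(S, y)` are zero unless `x = y` and `a = p0`; then there are at most
`#{p ∈ Fk : p.1 ∈ S} = ∑ u ∈ S, |(nb F u).filter (aV v = c)| ≤ |S| 2m/s` (`degFa`), and `n k ≥ m/2`, so the quotient is at most `4|S|/s`. The number of such tasks is
`∑ c, Req y p0 c ≤ s/10^13` (`hR3`), so the sum is at most `4/10^13 |S|`. (If `SU E aU i = ∅` both sides are `0`.) `hV`: the same with `c = p0` and `∑ a, Req y a p0`.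
`hadm`: `K' = D.biUnion ch`, `k ∉ D`. A flag `p = (u,v) ∈ Fk` gives an admissible option unless: (1) `p ∈ dom (K1 ∪ K')`: not `p ∈ dom K1 = O` (`dOF`), and the flags of `Fk` in `dom K'` come from
tasks of `D` with the same `(a, c)` (the flag determines the parts), one flag each: at most `∑ x ∈ G, Req x a c ≤ m/10` (`hR2`); (2) `x ∉ nu u`; (3) `x ∈ cu K1 u`; (4) `x ∈ cu K' u`; and the same for `v`.
The `u` of part `a` with (2) are at most `η s` (`hit`), with (3) at most `1/10^14 s + 4L` (`hT1.u (Sum.inr a) x`), with (4) at most `8/10^13 s + 4 L` (`TB` of `K'`); every `u` is in at most `2m/s` flags of `Fk`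
(`degFa`), so (2)-(4) on both sides exclude at most `2 * 2 m/s * 1/10^12 s = 4/10^12 m` (`4 L ≤ s/10^14`). So at least `4/5 m ≥ (m+1)/2` options are admissible (`pcol_single`).
Result: `K' = univ.biUnion ch`; `dom K' ⊆ F`; the flags of `cls K' x` from `a` to `c` are the flags of the tasks `⟨(x, a, c), _⟩` (pairwise different): `Req x a c` of them.
-/

set_option autoImplicit false

open scoped Classical

noncomputable section

namespace Pool.Agent.Lib.TriS

/-- the tasks: one for every requested flag -/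
private abbrev RTy {X : Type} (G : Finset X) (P : ℕ) (Req : X → Fin P → Fin P → ℕ) : Type :=
  (t : {x // x ∈ G} × Fin P × Fin P) × Fin (Req t.1.1 t.2.1 t.2.2)

private theorem sum_RTy {X : Type} (G : Finset X) (P : ℕ) (Req : X → Fin P → Fin P → ℕ)
    (g : X → Fin P → Fin P → ℝ) :
    ∑ k : RTy G P Req, g k.1.1.1 k.1.2.1 k.1.2.2 =
      ∑ x ∈ G, ∑ a, ∑ c, (Req x a c : ℝ) * g x a c := by
  rw [Fintype.sum_sigma]
  simp only [Finset.sum_const, Finset.card_univ, Fintype.card_fin, nsmul_eq_mul]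
  rw [Fintype.sum_prod_type]
  simp only [Fintype.sum_prod_type]
  exact Finset.sum_coe_sort G (fun x => ∑ a, ∑ c, (Req x a c : ℝ) * g x a c)

private theorem sum_RTy1 {X : Type} (G : Finset X) (P : ℕ) (Req : X → Fin P → Fin P → ℕ)
    (y : X) (hy : y ∈ G) (p0 : Fin P) (B : ℝ) :
    ∑ k : RTy G P Req, (if k.1.1.1 = y ∧ k.1.2.1 = p0 then B else 0) =
      (∑ c, (Req y p0 c : ℝ)) * B := by
  rw [sum_RTy G P Req (fun x a _ => if x = y ∧ a = p0 then B else 0)]
  rw [Finset.sum_eq_single y, Finset.sum_eq_single p0]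
  · simp only [and_self, if_true]
    rw [Finset.sum_mul]
  · intro b _ hb
    refine Finset.sum_eq_zero fun c _ => ?_
    rw [if_neg (fun h => hb h.2), mul_zero]
  · intro h
    exact absurd (Finset.mem_univ _) h
  · intro b _ hb
    refine Finset.sum_eq_zero fun a _ => Finset.sum_eq_zero fun c _ => ?_
    rw [if_neg (fun h => hb h.1), mul_zero]
  · intro h
    exact absurd hy h

private theorem sum_RTy2 {X : Type} (G : Finset X) (P : ℕ) (Req : X → Fin P → Fin P → ℕ)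
    (y : X) (hy : y ∈ G) (p0 : Fin P) (B : ℝ) :
    ∑ k : RTy G P Req, (if k.1.1.1 = y ∧ k.1.2.2 = p0 then B else 0) =
      (∑ a, (Req y a p0 : ℝ)) * B := by
  rw [sum_RTy G P Req (fun x _ c => if x = y ∧ c = p0 then B else 0)]
  rw [Finset.sum_eq_single y]
  · rw [Finset.sum_mul]
    refine Finset.sum_congr rfl fun a _ => ?_
    rw [Finset.sum_eq_single p0]
    · simp only [and_self, if_true]
    · intro b _ hb
      rw [if_neg (fun h => hb h.2), mul_zero]
    · intro h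
      exact absurd (Finset.mem_univ _) h
  · intro b _ hb
    refine Finset.sum_eq_zero fun a _ => Finset.sum_eq_zero fun c _ => ?_
    rw [if_neg (fun h => hb h.1), mul_zero]
  · intro h
    exact absurd hy h

private theorem sum_RTy3 {X : Type} (G : Finset X) (P : ℕ) (Req : X → Fin P → Fin P → ℕ)
    (a c : Fin P) :
    ((Finset.univ.filter fun k : RTy G P Req => k.1.2.1 = a ∧ k.1.2.2 = c).card : ℝ) =
      ∑ x ∈ G, (Req x a c : ℝ) := by
  have e : ((Finset.univ.filter fun k : RTy G P Req => k.1.2.1 = a ∧ k.1.2.2 = c).card : ℝ) =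
      ∑ k : RTy G P Req, (if k.1.2.1 = a ∧ k.1.2.2 = c then (1 : ℝ) else 0) := by
    rw [Finset.sum_boole]
  rw [e, sum_RTy G P Req (fun _ a' c' => if a' = a ∧ c' = c then 1 else 0)]
  refine Finset.sum_congr rfl fun x _ => ?_
  rw [Finset.sum_eq_single a, Finset.sum_eq_single c]
  · simp only [and_self, if_true, mul_one]
  · intro b _ hb
    rw [if_neg (fun h => hb h.2), mul_zero]
  · intro h
    exact absurd (Finset.mem_univ _) h
  · intro b _ hb
    refine Finset.sum_eq_zero fun c' _ => ?_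
    rw [if_neg (fun h => hb h.1), mul_zero]
  · intro h
    exact absurd (Finset.mem_univ _) h

private theorem cnt_side {U V : Type} [Fintype V] {P : ℕ} (F : Finset (U × V))
    (aU : U → Fin P) (aV : V → Fin P) (q : ℝ)
    (hdeg : ∀ u b, (((nb F u).filter fun v => aV v = b).card : ℝ) ≤ q) (S : Finset U)
    (a c : Fin P) :
    (((F.filter fun p => aU p.1 = a ∧ aV p.2 = c).filter fun p => p.1 ∈ S).card : ℝ) ≤
      S.card * q := by
  have h1 := Finset.card_eq_sum_card_fiberwise (f := Prod.fst) (t := S)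
    (s := (F.filter fun p => aU p.1 = a ∧ aV p.2 = c).filter fun p => p.1 ∈ S)
    (fun p hp => (Finset.mem_filter.1 (Finset.mem_coe.1 hp)).2)
  rw [h1]
  push_cast
  rw [← nsmul_eq_mul]
  refine Finset.sum_le_card_nsmul _ _ _ fun u _ => ?_
  refine le_trans ?_ (hdeg u c)
  norm_cast
  refine Finset.card_le_card_of_injOn Prod.snd ?_ ?_
  · rintro ⟨u', v⟩ hp
    simp only [Finset.coe_filter, Finset.mem_filter, Set.mem_ofPred_eq] at hp ⊢
    obtain ⟨⟨⟨h1, h2, h3⟩, h4⟩, h5⟩ := hp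
    subst h5
    exact ⟨mem_nb.2 h1, h3⟩
  · rintro ⟨u', v⟩ hp ⟨u'', v'⟩ hp' he
    simp only [Finset.coe_filter, Finset.mem_filter, Set.mem_ofPred_eq] at hp hp' he
    rw [hp.2, hp'.2, he]

private theorem cnt_side2 {U V : Type} [Fintype U] {P : ℕ} (F : Finset (U × V))
    (aU : U → Fin P) (aV : V → Fin P) (q : ℝ)
    (hdeg : ∀ v b, (((nb (tr F) v).filter fun u => aU u = b).card : ℝ) ≤ q) (S : Finset V)
    (a c : Fin P) :
    (((F.filter fun p => aU p.1 = a ∧ aV p.2 = c).filter fun p => p.2 ∈ S).card : ℝ) ≤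
      S.card * q := by
  refine le_trans (le_of_eq ?_) (cnt_side (tr F) aV aU q hdeg S c a)
  norm_cast
  refine Finset.card_bij (fun p _ => (p.2, p.1)) ?_ ?_ ?_
  · rintro ⟨u, v⟩ hp
    simp only [Finset.mem_filter, mem_tr] at hp ⊢
    exact ⟨⟨hp.1.1, hp.1.2.2, hp.1.2.1⟩, hp.2⟩
  · rintro ⟨u, v⟩ _ ⟨u', v'⟩ _ he
    simp only [Prod.mk.injEq] at he
    rw [he.1, he.2]
  · rintro ⟨v, u⟩ hp
    simp only [Finset.mem_filter, mem_tr] at hp
    refine ⟨(u, v), ?_, rfl⟩
    simp only [Finset.mem_filter]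
    exact ⟨⟨hp.1.1, hp.1.2.2, hp.1.2.1⟩, hp.2⟩

private theorem fr_num {U V X : Type} [Fintype U] [Fintype V] {O E F : Finset (U × V)}
    {nu : U → Finset X} {nv : V → Finset X} {P : ℕ} {aU : U → Fin P} {aV : V → Fin P}
    {G : Finset X} {s r m : ℕ} {L η : ℝ} (h : FIn O E F nu nv P aU aV G s r m L η) :
    0 < (s : ℝ) ∧ 2 ≤ (m : ℝ) ∧ 4 * L ≤ 1 / 10 ^ 14 * s := by
  have hL := h.L1
  have hP : (1 : ℝ) ≤ P := le_trans (by norm_num) h.P1
  have hP2 : (1 : ℝ) ≤ (P : ℝ) ^ 2 := one_le_pow₀ hP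
  have hs := h.s3
  have h1 : 10 ^ 60 * L ≤ 10 ^ 60 * (P : ℝ) ^ 2 * L := by
    have : L ≤ (P : ℝ) ^ 2 * L := by nlinarith
    nlinarith
  have h2 : 10 ^ 60 * L ≤ (s : ℝ) := h1.trans hs
  have hs1 : (10 : ℝ) ^ 60 ≤ s := by
    have : (10 : ℝ) ^ 60 * 1 ≤ 10 ^ 60 * L := by
      exact mul_le_mul_of_nonneg_left hL (by positivity)
    linarith
  refine ⟨lt_of_lt_of_le (by positivity) hs1, ?_, ?_⟩
  · have hG := h.G1
    have hP0 : (0 : ℝ) < P := by linarith
    have h3 : 10 ^ 60 * (P : ℝ) ≤ G.card := by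
      have : 10 ^ 60 * (P : ℝ) * 1 ≤ 10 ^ 60 * (P : ℝ) * L :=
        mul_le_mul_of_nonneg_left hL (by positivity)
      linarith
    have h4 := h.m1
    refine le_trans ?_ h4
    rw [le_div_iff₀ (by positivity)]
    have h5 : 1 / 10 ^ 11 * (10 ^ 60 * (P : ℝ)) * 1 ≤ 1 / 10 ^ 11 * (G.card : ℝ) * s := by
      refine mul_le_mul (mul_le_mul_of_nonneg_left h3 (by positivity)) ?_ (by positivity)
        (by positivity)
      exact le_trans (by norm_num) hs1
    refine le_trans ?_ h5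
    nlinarith
  · have : 4 * L ≤ 1 / 10 ^ 14 * (10 ^ 60 * L) := by nlinarith
    refine this.trans ?_
    exact mul_le_mul_of_nonneg_left h2 (by positivity)

/-- the options that touch a test -/
private theorem opt_cnt {U V X : Type} {P : ℕ} (F : Finset (U × V)) (aU : U → Fin P)
    (aV : V → Fin P) (a c : Fin P) (x y : X) (Pr : U × V → Prop) [DecidablePred Pr]
    (q : ℝ) (hq : (((F.filter fun p => aU p.1 = a ∧ aV p.2 = c).filter Pr).card : ℝ) ≤ q)
    (cond : Prop) [Decidable cond] (hc : ∀ p ∈ F, aU p.1 = a → aV p.2 = c → Pr p → cond) (N : ℝ) (hN : 0 < N) :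
    (((((F.filter fun p => aU p.1 = a ∧ aV p.2 = c).image fun p =>
      ({(p, x)} : Finset ((U × V) × X))).filter fun Δ => ∃ z ∈ Δ, Pr z.1 ∧ z.2 = y).card : ℝ)) /
        N ≤ if x = y ∧ cond then q / N else 0 := by
  split_ifs with h
  · refine div_le_div_of_nonneg_right ?_ hN.le
    refine le_trans ?_ hq
    norm_cast
    refine (Finset.card_le_card ?_).trans (Finset.card_image_le (s :=
      (F.filter fun p => aU p.1 = a ∧ aV p.2 = c).filter Pr)
      (f := fun p => ({(p, x)} : Finset ((U × V) × X))))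
    intro Δ hΔ
    rw [Finset.mem_filter, Finset.mem_image] at hΔ
    obtain ⟨⟨p, hp, rfl⟩, z, hz, h1, h2⟩ := hΔ
    rw [Finset.mem_singleton] at hz
    subst hz
    exact Finset.mem_image.2 ⟨p, Finset.mem_filter.2 ⟨hp, h1⟩, rfl⟩
  · have : (((F.filter fun p => aU p.1 = a ∧ aV p.2 = c).image fun p =>
      ({(p, x)} : Finset ((U × V) × X))).filter fun Δ => ∃ z ∈ Δ, Pr z.1 ∧ z.2 = y) = ∅ := by
      rw [Finset.eq_empty_iff_forall_notMem]
      intro Δ hΔ
      rw [Finset.mem_filter, Finset.mem_image] at hΔ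
      obtain ⟨⟨p, hp, rfl⟩, z, hz, h1, h2⟩ := hΔ
      rw [Finset.mem_singleton] at hz
      subst hz
      rw [Finset.mem_filter] at hp
      exact h ⟨h2, hc p hp.1 hp.2.1 hp.2.2 h1⟩
    rw [this]
    simp

/-- the bad vertices of a part -/
private theorem bad_cnt {U : Type} [Fintype U] {P : ℕ} (aU : U → Fin P) (a : Fin P)
    (n1 n2 n3 : U → Prop) [DecidablePred n1] [DecidablePred n2] [DecidablePred n3]
    (b1 b2 b3 b : ℝ)
    (h1 : ((Finset.univ.filter fun u => aU u = a ∧ n1 u).card : ℝ) ≤ b1)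
    (h2 : (((Finset.univ.filter fun u => aU u = a).filter n2).card : ℝ) ≤ b2)
    (h3 : (((Finset.univ.filter fun u => aU u = a).filter n3).card : ℝ) ≤ b3)
    (hb : b1 + b2 + b3 ≤ b) :
    ((Finset.univ.filter fun u => aU u = a ∧ (n1 u ∨ n2 u ∨ n3 u)).card : ℝ) ≤ b := by
  refine le_trans ?_ hb
  refine le_trans ?_ (add_le_add (add_le_add h1 h2) h3)
  norm_cast
  refine (Finset.card_le_card ?_).trans ((Finset.card_union_le _ _).trans
    (Nat.add_le_add_right (Finset.card_union_le _ _) _))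
  intro u hu
  simp only [Finset.mem_filter, Finset.mem_union, Finset.mem_univ, true_and] at hu ⊢
  obtain ⟨h4, h5 | h5 | h5⟩ := hu
  · exact Or.inl (Or.inl ⟨h4, h5⟩)
  · exact Or.inl (Or.inr ⟨h4, h5⟩)
  · exact Or.inr ⟨h4, h5⟩

private theorem fr_adm {U V X : Type} [Fintype U] [Fintype V] {O E F : Finset (U × V)}
    {nu : U → Finset X} {nv : V → Finset X} {P : ℕ} {aU : U → Fin P} {aV : V → Fin P}
    {G : Finset X} {s r m : ℕ} {L η : ℝ} (h : FIn O E F nu nv P aU aV G s r m L η)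
    {K1 K' : Finset ((U × V) × X)} (hPC : PCol (K1 ∪ K') nu nv G) (hd1 : dom K1 = O)
    (hT1 : TB E aU aV G K1 (5 / 10 ^ 15) L) (hT2 : TB E aU aV G K' (4 / 10 ^ 13) L)
    (x : X) (hx : x ∈ G) (a c : Fin P) (hac : a ≠ c)
    (hB0 : (((F.filter fun p => aU p.1 = a ∧ aV p.2 = c).filter
      fun p => p ∈ dom K').card : ℝ) ≤ m / 10) :
    (m + 1) / 2 ≤ (admis (K1 ∪ K') nu nv G
      ((F.filter fun p => aU p.1 = a ∧ aV p.2 = c).image fun p =>
        ({(p, x)} : Finset ((U × V) × X)))).card := by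
  obtain ⟨hs0, hm2, hL4⟩ := fr_num h
  have hη := h.eta
  have hηs : η * s ≤ 2 / 10 ^ 25 * s := mul_le_mul_of_nonneg_right hη hs0.le
  have eU : ((SU E aU (Sum.inr a)).card : ℝ) = s := by
    have : (SU E aU (Sum.inr a)).card = s := h.s1.cU a
    exact_mod_cast this
  have eV : ((SV E aV (Sum.inr c)).card : ℝ) = s := by
    have : (SV E aV (Sum.inr c)).card = s := h.s2.cU c
    exact_mod_cast this
  have u1 := hT1.u (Sum.inr a) x hx
  have u2 := hT2.u (Sum.inr a) x hx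
  have v1 := hT1.v (Sum.inr c) x hx
  have v2 := hT2.v (Sum.inr c) x hx
  rw [eU] at u1 u2
  rw [eV] at v1 v2
  have hSU := bad_cnt aU a (fun u => x ∉ nu u) (fun u => x ∈ cu K1 u) (fun u => x ∈ cu K' u)
    (η * s) (2 * (5 / 10 ^ 15) * s + 4 * L) (2 * (4 / 10 ^ 13) * s + 4 * L) (1 / 10 ^ 12 * s) (h.s1.hit a x hx) u1 u2 (by linarith)
  have hSV := bad_cnt aV c (fun v => x ∉ nv v) (fun v => x ∈ cv K1 v) (fun v => x ∈ cv K' v)
    (η * s) (2 * (5 / 10 ^ 15) * s + 4 * L) (2 * (4 / 10 ^ 13) * s + 4 * L) (1 / 10 ^ 12 * s) (h.s2.hit c x hx) v1 v2 (by linarith)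
  set S1 := Finset.univ.filter fun u => aU u = a ∧ (x ∉ nu u ∨ x ∈ cu K1 u ∨ x ∈ cu K' u) with hS1
  set S2 := Finset.univ.filter fun v => aV v = c ∧ (x ∉ nv v ∨ x ∈ cv K1 v ∨ x ∈ cv K' v) with hS2
  set Fk := F.filter fun p => aU p.1 = a ∧ aV p.2 = c with hFk
  have hFm : Fk.card = m := h.Fm a c hac
  have c1 := cnt_side F aU aV (2 * m / s) h.s1.degFa S1 a c
  have c2 := cnt_side2 F aU aV (2 * m / s) h.s2.degFa S2 a c
  rw [← hFk] at c1 c2
  have e1 : 1 / 10 ^ 12 * (s : ℝ) * (2 * m / s) = 2 / 10 ^ 12 * m := by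
    field_simp
  have hq0 : (0 : ℝ) ≤ 2 * m / s := div_nonneg (by positivity) hs0.le
  have c1' := c1.trans (mul_le_mul_of_nonneg_right hSU hq0)
  have c2' := c2.trans (mul_le_mul_of_nonneg_right hSV hq0)
  rw [e1] at c1' c2'
  set good := Fk.filter fun p => p ∉ dom K' ∧ p.1 ∉ S1 ∧ p.2 ∉ S2 with hgood
  have hcov : Fk ⊆ good ∪ ((Fk.filter fun p => p ∈ dom K') ∪
      ((Fk.filter fun p => p.1 ∈ S1) ∪ (Fk.filter fun p => p.2 ∈ S2))) := by
    intro p hp
    simp only [hgood, Finset.mem_union, Finset.mem_filter]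
    by_cases h1 : p ∈ dom K'
    · exact Or.inr (Or.inl ⟨hp, h1⟩)
    · by_cases h2 : p.1 ∈ S1
      · exact Or.inr (Or.inr (Or.inl ⟨hp, h2⟩))
      · by_cases h3 : p.2 ∈ S2
        · exact Or.inr (Or.inr (Or.inr ⟨hp, h3⟩))
        · exact Or.inl ⟨hp, h1, h2, h3⟩
  have hcnt : (m : ℝ) ≤ good.card + (((Fk.filter fun p => p ∈ dom K').card : ℝ) +
      (((Fk.filter fun p => p.1 ∈ S1).card : ℝ) + ((Fk.filter fun p => p.2 ∈ S2).card : ℝ))) := by
    rw [← hFm]
    norm_cast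
    refine (Finset.card_le_card hcov).trans ((Finset.card_union_le _ _).trans
      (Nat.add_le_add_left ((Finset.card_union_le _ _).trans
        (Nat.add_le_add_left (Finset.card_union_le _ _) _)) _))
  have hgc : (4 / 5 : ℝ) * m ≤ good.card := by linarith
  have hgn : (m + 1) / 2 ≤ good.card := by
    have h1 : 4 * m ≤ 5 * good.card := by
      have : (4 : ℝ) * m ≤ 5 * good.card := by linarith
      exact_mod_cast this
    have h2 : 2 ≤ m := by exact_mod_cast hm2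
    omega
  refine hgn.trans ?_
  have hinj : Function.Injective fun p : U × V => ({(p, x)} : Finset ((U × V) × X)) := by
    intro p p' hpp
    have h1 : ({(p, x)} : Finset ((U × V) × X)) = {(p', x)} := hpp
    rw [Finset.singleton_inj, Prod.mk.injEq] at h1
    exact h1.1
  rw [← Finset.card_image_of_injective good hinj]
  refine Finset.card_le_card ?_
  intro Δ hΔ
  obtain ⟨⟨u, v⟩, hp, rfl⟩ := Finset.mem_image.1 hΔ
  rw [hgood, Finset.mem_filter] at hp
  obtain ⟨hp, hn1, hn2, hn3⟩ := hp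
  have hp' := hp
  rw [hFk, Finset.mem_filter] at hp'
  obtain ⟨hpF, hpa, hpc⟩ := hp'
  have hu : x ∈ nu u ∧ x ∉ cu K1 u ∧ x ∉ cu K' u := by
    rw [hS1, Finset.mem_filter] at hn2
    have h3 : ¬ (x ∉ nu u ∨ x ∈ cu K1 u ∨ x ∈ cu K' u) :=
      fun h4 => hn2 ⟨Finset.mem_univ _, hpa, h4⟩
    push Not at h3
    exact h3
  have hv : x ∈ nv v ∧ x ∉ cv K1 v ∧ x ∉ cv K' v := by
    rw [hS2, Finset.mem_filter] at hn3
    have h3 : ¬ (x ∉ nv v ∨ x ∈ cv K1 v ∨ x ∈ cv K' v) :=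
      fun h4 => hn3 ⟨Finset.mem_univ _, hpc, h4⟩
    push Not at h3
    exact h3
  have hnd : (u, v) ∉ dom (K1 ∪ K') := by
    rw [dom_union, Finset.mem_union, hd1]
    rintro (h3 | h3)
    · exact Finset.disjoint_left.1 h.dOF h3 hpF
    · exact hn1 h3
  unfold admis
  rw [Finset.mem_filter]
  refine ⟨Finset.mem_image.2 ⟨(u, v), hp, rfl⟩, ?_, ?_⟩
  · rw [Finset.disjoint_left]
    intro p hp1 hp2
    obtain ⟨z, hz⟩ := mem_dom.1 hp1
    rw [Finset.mem_singleton, Prod.mk.injEq] at hz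
    rw [hz.1] at hp2
    exact hnd hp2
  · refine pcol_single hPC hx hu.1 hv.1 ?_ ?_ hnd
    · rw [cu_union, Finset.mem_union]
      rintro (h3 | h3)
      · exact hu.2.1 h3
      · exact hu.2.2 h3
    · rw [cv_union, Finset.mem_union]
      rintro (h3 | h3)
      · exact hv.2.1 h3
      · exact hv.2.2 h3

theorem flush2 {U V X : Type} [Fintype U] [Fintype V] {O E F : Finset (U × V)}
    {nu : U → Finset X} {nv : V → Finset X} {P : ℕ} {aU : U → Fin P} {aV : V → Fin P}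
    {G : Finset X} {s r m : ℕ} {L η : ℝ} (h : FIn O E F nu nv P aU aV G s r m L η)
    {K1 : Finset ((U × V) × X)} (hK1 : PCol K1 nu nv G) (hd1 : dom K1 = O)
    (hT1 : TB E aU aV G K1 (5 / 10 ^ 15) L) (Req : X → Fin P → Fin P → ℕ)
    (hR0 : ∀ x a, Req x a a = 0)
    (hR2 : ∀ a c, ∑ x ∈ G, (Req x a c : ℝ) ≤ (m : ℝ) / 10)
    (hR3 : ∀ x ∈ G, ∀ a, ∑ c, ((Req x a c : ℝ) + (Req x c a : ℝ)) ≤ 1 / 10 ^ 13 * s) :
    ∃ K' : Finset ((U × V) × X), PCol (K1 ∪ K') nu nv G ∧ dom K' ⊆ F ∧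
      TB E aU aV G K' (4 / 10 ^ 13) L ∧ ∀ x ∈ G, ∀ a c,
      ((cls K' x).filter fun p => aU p.1 = a ∧ aV p.2 = c).card = Req x a c := by
  obtain ⟨hs0, hm2, hL4⟩ := fr_num h
  have hm : 2 ≤ m := by exact_mod_cast hm2
  have hN0 : 0 < (m + 1) / 2 := by omega
  have hNR : (m : ℝ) / 2 ≤ (((m + 1) / 2 : ℕ) : ℝ) := by
    have h1 : m ≤ 2 * ((m + 1) / 2) := by omega
    have h2 : (m : ℝ) ≤ 2 * (((m + 1) / 2 : ℕ) : ℝ) := by exact_mod_cast h1
    linarith
  have hNR0 : (0 : ℝ) < (((m + 1) / 2 : ℕ) : ℝ) := by exact_mod_cast hN0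
  have hB : ∀ S : ℝ, 0 ≤ S → ∀ R : ℝ, 0 ≤ R → R ≤ 1 / 10 ^ 13 * s →
      R * (S * (2 * m / s) / (((m + 1) / 2 : ℕ) : ℝ)) ≤ 4 / 10 ^ 13 * S := by
    intro S hS R hR0 hR
    have h1 : S * (2 * m / s) / (((m + 1) / 2 : ℕ) : ℝ) ≤ 4 * S / s := by
      rw [div_le_iff₀ hNR0]
      have h2 : 4 * S / s * ((m : ℝ) / 2) ≤ 4 * S / s * (((m + 1) / 2 : ℕ) : ℝ) :=
        mul_le_mul_of_nonneg_left hNR (by positivity)
      refine le_trans (le_of_eq ?_) h2
      field_simp
      ring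
    have h3 : R * (S * (2 * m / s) / (((m + 1) / 2 : ℕ) : ℝ)) ≤ 1 / 10 ^ 13 * s * (4 * S / s) :=
      mul_le_mul hR h1 (by positivity) (by positivity)
    refine h3.trans (le_of_eq ?_)
    field_simp
  have hR3a : ∀ x ∈ G, ∀ a, ∑ c, (Req x a c : ℝ) ≤ 1 / 10 ^ 13 * s := by
    intro x hx a
    refine le_trans (Finset.sum_le_sum fun c _ => ?_) (hR3 x hx a)
    have : (0 : ℝ) ≤ Req x c a := Nat.cast_nonneg _
    linarith
  have hR3b : ∀ x ∈ G, ∀ a, ∑ c, (Req x c a : ℝ) ≤ 1 / 10 ^ 13 * s := by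
    intro x hx a
    refine le_trans (Finset.sum_le_sum fun c _ => ?_) (hR3 x hx a)
    have : (0 : ℝ) ≤ Req x a c := Nat.cast_nonneg _
    linarith
  obtain ⟨Opt, hOpt⟩ : ∃ Opt : RTy G P Req → Finset (Finset ((U × V) × X)), ∀ k, Opt k =
      (F.filter fun p => aU p.1 = k.1.2.1 ∧ aV p.2 = k.1.2.2).image fun p =>
        ({(p, k.1.1.1)} : Finset ((U × V) × X)) := ⟨_, fun _ => rfl⟩
  obtain ⟨ch, hch, hTB⟩ := ftasks h K1 hK1 Opt (fun _ => (m + 1) / 2) (fun _ => hN0) (4 / 10 ^ 13)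
    (by
      intro k Δ hΔ q hq q' hq' hne
      rw [hOpt, Finset.mem_image] at hΔ
      obtain ⟨p, _, rfl⟩ := hΔ
      rw [Finset.mem_singleton] at hq hq'
      exact absurd (hq.trans hq'.symm) hne)
    (by
      intro i y hy
      obtain ⟨p0, hp0⟩ : ∃ p0, ∀ u ∈ SU E aU i, aU u = p0 := by
        rcases i with v | a
        · exact ⟨aV v, fun u hu => h.Ein (u, v) (mem_tr.1 (mem_nb.1 hu))⟩
        · exact ⟨a, fun u hu => (Finset.mem_filter.1 hu).2⟩
      have h1 : ∀ k : RTy G P Req, (((Opt k).filter fun Δ => ∃ q ∈ Δ, q.1.1 ∈ SU E aU i ∧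
          q.2 = y).card : ℝ) / (((m + 1) / 2 : ℕ) : ℝ) ≤ if k.1.1.1 = y ∧ k.1.2.1 = p0 then
            ((SU E aU i).card : ℝ) * (2 * m / s) / (((m + 1) / 2 : ℕ) : ℝ) else 0 := by
        intro k
        rw [hOpt]
        exact opt_cnt F aU aV k.1.2.1 k.1.2.2 k.1.1.1 y (fun p => p.1 ∈ SU E aU i) _
          (cnt_side F aU aV (2 * m / s) h.s1.degFa (SU E aU i) k.1.2.1 k.1.2.2)
          (k.1.2.1 = p0) (fun p _ h2 _ h3 => h2.symm.trans (hp0 _ h3)) _ hNR0
      refine (Finset.sum_le_sum fun k _ => h1 k).trans ?_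
      rw [sum_RTy1 G P Req y hy p0]
      exact hB _ (Nat.cast_nonneg _) _ (Finset.sum_nonneg fun c _ => Nat.cast_nonneg _)
        (hR3a y hy p0))
    (by
      intro i y hy
      obtain ⟨p0, hp0⟩ : ∃ p0, ∀ v ∈ SV E aV i, aV v = p0 := by
        rcases i with u | a
        · exact ⟨aU u, fun v hv => (h.Ein (u, v) (mem_nb.1 hv)).symm⟩
        · exact ⟨a, fun u hu => (Finset.mem_filter.1 hu).2⟩
      have h1 : ∀ k : RTy G P Req, (((Opt k).filter fun Δ => ∃ q ∈ Δ, q.1.2 ∈ SV E aV i ∧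
          q.2 = y).card : ℝ) / (((m + 1) / 2 : ℕ) : ℝ) ≤ if k.1.1.1 = y ∧ k.1.2.2 = p0 then
            ((SV E aV i).card : ℝ) * (2 * m / s) / (((m + 1) / 2 : ℕ) : ℝ) else 0 := by
        intro k
        rw [hOpt]
        exact opt_cnt F aU aV k.1.2.1 k.1.2.2 k.1.1.1 y (fun p => p.2 ∈ SV E aV i) _
          (cnt_side2 F aU aV (2 * m / s) h.s2.degFa (SV E aV i) k.1.2.1 k.1.2.2)
          (k.1.2.2 = p0) (fun p _ _ h2 h3 => h2.symm.trans (hp0 _ h3)) _ hNR0
      refine (Finset.sum_le_sum fun k _ => h1 k).trans ?_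
      rw [sum_RTy2 G P Req y hy p0]
      exact hB _ (Nat.cast_nonneg _) _ (Finset.sum_nonneg fun c _ => Nat.cast_nonneg _)
        (hR3b y hy p0))
    (by
      intro D ch hT hTBK k hk
      rw [hOpt]
      refine fr_adm h hT.col hd1 hT1 hTBK k.1.1.1 k.1.1.2 k.1.2.1 k.1.2.2 ?_ ?_
      · intro he
        have h1 : Req k.1.1.1 k.1.2.1 k.1.2.2 = 0 := by
          rw [he]
          exact hR0 _ _
        have h2 := k.2.isLt
        omega
      · have h1 : ((F.filter fun p => aU p.1 = k.1.2.1 ∧ aV p.2 = k.1.2.2).filter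
            fun p => p ∈ dom (D.biUnion ch)).card ≤
            (Finset.univ.filter fun k' : RTy G P Req => k'.1.2.1 = k.1.2.1 ∧
              k'.1.2.2 = k.1.2.2).card := by
          have h2 : ((F.filter fun p => aU p.1 = k.1.2.1 ∧ aV p.2 = k.1.2.2).filter
              fun p => p ∈ dom (D.biUnion ch)) ⊆
              (Finset.univ.filter fun k' : RTy G P Req => k'.1.2.1 = k.1.2.1 ∧
                k'.1.2.2 = k.1.2.2).biUnion fun k' => if k' ∈ D then dom (ch k') else ∅ := by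
            intro p hp
            rw [Finset.mem_filter, Finset.mem_filter] at hp
            obtain ⟨⟨hpF, hpa, hpc⟩, hpd⟩ := hp
            obtain ⟨z, hz⟩ := mem_dom.1 hpd
            obtain ⟨k', hk', hz'⟩ := Finset.mem_biUnion.1 hz
            have h3 := hT.opt k' hk'
            rw [hOpt, Finset.mem_image] at h3
            obtain ⟨p', hp', he⟩ := h3
            rw [Finset.mem_biUnion]
            refine ⟨k', ?_, ?_⟩
            · rw [← he, Finset.mem_singleton, Prod.mk.injEq] at hz'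
              rw [Finset.mem_filter] at hp'
              rw [Finset.mem_filter, ← hp'.2.1, ← hp'.2.2, ← hz'.1]
              exact ⟨Finset.mem_univ _, hpa, hpc⟩
            · rw [if_pos hk']
              exact mem_dom.2 ⟨z, hz'⟩
          refine (Finset.card_le_card h2).trans ((Finset.card_biUnion_le_card_mul _ _ 1
            fun k' _ => ?_).trans (le_of_eq (mul_one _)))
          split_ifs with hk'
          · have h3 := hT.opt k' hk'
            rw [hOpt, Finset.mem_image] at h3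
            obtain ⟨p', _, he⟩ := h3
            rw [← he]
            unfold dom
            rw [Finset.image_singleton, Finset.card_singleton]
          · simp
        have h2 : (((F.filter fun p => aU p.1 = k.1.2.1 ∧ aV p.2 = k.1.2.2).filter
            fun p => p ∈ dom (D.biUnion ch)).card : ℝ) ≤
            ((Finset.univ.filter fun k' : RTy G P Req => k'.1.2.1 = k.1.2.1 ∧
              k'.1.2.2 = k.1.2.2).card : ℝ) := by exact_mod_cast h1
        refine h2.trans ?_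
        rw [sum_RTy3]
        exact hR2 _ _)
  have hpk : ∀ k : RTy G P Req, ∃ p : U × V, p ∈ F ∧ aU p.1 = k.1.2.1 ∧ aV p.2 = k.1.2.2 ∧
      ch k = {(p, k.1.1.1)} := by
    intro k
    have h1 := hch.opt k (Finset.mem_univ _)
    rw [hOpt, Finset.mem_image] at h1
    obtain ⟨p, hp, he⟩ := h1
    rw [Finset.mem_filter] at hp
    exact ⟨p, hp.1, hp.2.1, hp.2.2, he.symm⟩
  choose pk hpF hpa hpc hpch using hpk
  have hmemK : ∀ p x, (p, x) ∈ Finset.univ.biUnion ch ↔ ∃ k, p = pk k ∧ x = k.1.1.1 := by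
    intro p x
    rw [Finset.mem_biUnion]
    constructor
    · rintro ⟨k, _, hk⟩
      rw [hpch, Finset.mem_singleton, Prod.mk.injEq] at hk
      exact ⟨k, hk⟩
    · rintro ⟨k, hk⟩
      refine ⟨k, Finset.mem_univ _, ?_⟩
      rw [hpch, Finset.mem_singleton, Prod.mk.injEq]
      exact hk
  refine ⟨Finset.univ.biUnion ch, hch.col, ?_, hTB, ?_⟩
  · intro p hp
    obtain ⟨x, hx⟩ := mem_dom.1 hp
    obtain ⟨k, rfl, _⟩ := (hmemK _ _).1 hx
    exact hpF k
  · intro x hx a c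
    have hset : (cls (Finset.univ.biUnion ch) x).filter (fun p => aU p.1 = a ∧ aV p.2 = c) =
        Finset.univ.image fun i : Fin (Req x a c) =>
          pk (⟨(⟨x, hx⟩, a, c), i⟩ : RTy G P Req) := by
      ext p
      rw [Finset.mem_filter, mem_cls, hmemK, Finset.mem_image]
      constructor
      · rintro ⟨⟨⟨⟨⟨x', hx'⟩, a', c'⟩, i⟩, rfl, hxx⟩, h1, h2⟩
        have hxx' : x = x' := hxx
        subst hxx'
        have h3 := hpa ⟨(⟨x, hx'⟩, a', c'), i⟩
        have h4 := hpc ⟨(⟨x, hx'⟩, a', c'), i⟩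
        have h5 : a = a' := h1.symm.trans h3
        have h6 : c = c' := h2.symm.trans h4
        subst h5
        subst h6
        exact ⟨i, Finset.mem_univ _, rfl⟩
      · rintro ⟨i, _, rfl⟩
        exact ⟨⟨⟨(⟨x, hx⟩, a, c), i⟩, rfl, rfl⟩, hpa _, hpc _⟩
    rw [hset, Finset.card_image_of_injective, Finset.card_univ, Fintype.card_fin]
    intro i j hij
    by_contra hne
    have h1 := hch.new (⟨(⟨x, hx⟩, a, c), i⟩ : RTy G P Req) (Finset.mem_univ _)
      ⟨(⟨x, hx⟩, a, c), j⟩ (Finset.mem_univ _) (by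
        intro he
        rw [Sigma.mk.injEq] at he
        exact hne (eq_of_heq he.2))
    rw [hpch, hpch, Finset.disjoint_left] at h1
    refine h1 (a := pk ⟨(⟨x, hx⟩, a, c), i⟩) (mem_dom.2 ⟨x, Finset.mem_singleton_self _⟩)
      (mem_dom.2 ⟨x, ?_⟩)
    rw [Finset.mem_singleton, Prod.mk.injEq]
    exact ⟨hij, rfl⟩

end Pool.Agent.Lib.TriS
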