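import Pool.Agent.Lib.TriS.FRouteA

/-!
MODULE FRoute (about 250 lines). Routing lemma 7.2 for all colours: monochromatic triangles through the cone part `0` make the totals symmetric.

PROOF. `g = |G|`. For `x ∈ G` let `R x` be from `route_one` (for `x ∉ G` take `R x = 0`). For `a ≠ c` put `Dd a c = ∑ x ∈ G, R x c a - ∑ x ∈ G, R x a c : ℤ`
(antisymmetric, `Dd a a = 0`). (i) `|Dd a c| ≤ 4 g`: `∑ x ∈ G, R x a c` is within `2 g` of `∑ x ∈ G, (p x a + q x c)/P`, and
`∑ x ∈ G, (p x c + q x a) - ∑ x ∈ G, (p x a + q x c) = ∑ x ∈ G, β x c - ∑ x ∈ G, β x a = 0` by `h2` (`p - q = β`). (ii) `∑ c, Dd a c = -∑ x ∈ G, β x a = 0` (`h2`, divergence).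
(iii) FILL (private lemma): if `n ≤ 4 g` there is `t : X → ℕ` with `∑ x ∈ G, t x = n`, `t x ≤ 4` for `x ∈ G`, `t x = 0` for `x ∉ G` (induction on `G`: give `min n 4` to one element). Let `o = ⟨0, hP⟩` and for `a ≠ o`, `c ≠ o`,
`a ≠ c` let `t a c : X → ℕ` be the fill of `(Dd a c).toNat`; `t a c = 0` otherwise. `t a c x` is the number of triangles `a → c → o → a` of colour `x`:
`Req x a c = R x a c + t a c x + (if c = o then ∑ a', t a' a x else 0) + (if a = o then ∑ c', t c c' x else 0)` for `a ≠ c`, and `Req x a a = 0`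
(for `a = c = o` the formula would not be `0`: define `Req x a c = if a = c then 0 else ..`).
(R1) at `a ≠ o` the triangles contribute `∑ c, t a c x + ∑ a', t a' a x` to the outgoing and `∑ a', t a' a x + ∑ c', t a c' x` to the ingoing sum; at `o` both contributions are
`∑ a, ∑ c, t a c x`. (R2) for `a, c ≠ o`: `∑ x, Req x a c - ∑ x, Req x c a = -Dd a c + (Dd a c).toNat - (Dd c a).toNat = 0`; for `c ≠ o`: `∑ x, Req x c o - ∑ x, Req x o c =
-Dd c o + ∑ a ≠ o, (Dd a c).toNat - ∑ a ≠ o, (Dd c a).toNat = -Dd c o + ∑ a ≠ o, Dd a c = -Dd c o - Dd o c = 0` using (ii) for `c` (`∑ a, Dd a c = -∑ a, Dd c a = 0`). Bound: `∑ x ∈ G, R x a c ≤ 2 g b/P + 2 g`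
(`p, q ≤ b`), the triangles add at most `4 g` if `a, c ≠ o` and at most `4 g P` if one is `o`; total `≤ 2 g b/P + 20 g P` (`P ≥ 1`).
(R3) `3 b + 2` from `route_one`; the triangles add at `a ≠ o` `2 ∑ c, (t a c x + t c a x) ≤ 16 P`, at `o` `2 ∑ a, ∑ c, t a c x ≤ 8 P^2`.
-/

set_option autoImplicit false

open scoped Classical

namespace Pool.Agent.Lib.TriS

private lemma FRoute_fill {X : Type} (G : Finset X) :
    ∀ n : ℕ, n ≤ 4 * G.card → ∃ t : X → ℕ, ∑ x ∈ G, t x = n ∧ ∀ x ∈ G, t x ≤ 4 := by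
  induction G using Finset.induction_on with
  | empty =>
    intro n hn
    refine ⟨0, ?_, by simp⟩
    simp only [Finset.card_empty, mul_zero, Nat.le_zero] at hn
    simp [hn]
  | insert a s ha ih =>
    intro n hn
    rw [Finset.card_insert_of_notMem ha] at hn
    obtain ⟨t, h1, h2⟩ := ih (n - min n 4) (by omega)
    refine ⟨fun x => if x = a then min n 4 else t x, ?_, ?_⟩
    · rw [Finset.sum_insert ha, if_pos rfl]
      have : ∑ x ∈ s, (if x = a then min n 4 else t x) = ∑ x ∈ s, t x := by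
        refine Finset.sum_congr rfl fun x hx => ?_
        rw [if_neg]
        rintro rfl
        exact ha hx
      rw [this, h1]
      omega
    · intro x hx
      by_cases hxa : x = a
      · simp only [hxa, if_true]
        omega
      · simp only [hxa, if_false]
        exact h2 x ((Finset.mem_insert.1 hx).resolve_left hxa)

theorem routing {X : Type} (G : Finset X) (P : ℕ) (hP : 0 < P) (b : ℕ) (β : X → Fin P → ℤ)
    (h1 : ∀ x ∈ G, ∑ a, β x a = 0) (h2 : ∀ a, ∑ x ∈ G, β x a = 0)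
    (hb : ∀ x ∈ G, ∀ a, |β x a| ≤ (b : ℤ)) :
    ∃ Req : X → Fin P → Fin P → ℕ, (∀ x a, Req x a a = 0) ∧
      (∀ x ∈ G, ∀ a, ∑ c, (Req x a c : ℤ) - ∑ c, (Req x c a : ℤ) = β x a) ∧
      (∀ a c, ∑ x ∈ G, Req x a c = ∑ x ∈ G, Req x c a) ∧
      (∀ a c, ∑ x ∈ G, (Req x a c : ℝ) ≤
        2 * (G.card : ℝ) * b / P + 20 * (G.card : ℝ) * P) ∧
      ∀ x ∈ G, ∀ a, ∑ c, ((Req x a c : ℝ) + (Req x c a : ℝ)) ≤
        4 * b + 20 * (P : ℝ) ^ 2 + 4 := by
  have hP1 : (1 : ℝ) ≤ P := by exact_mod_cast hP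
  have hP0 : (0 : ℝ) < P := by linarith
  -- routing of the single colours
  have hR : ∀ x, ∃ R : Fin P → Fin P → ℕ, x ∈ G → (∀ a, R a a = 0) ∧
      (∀ a, ∑ c, (R a c : ℤ) - ∑ c, (R c a : ℤ) = β x a) ∧
      (∀ a c, a ≠ c →
        |(R a c : ℝ) - (((β x a).toNat : ℝ) + ((-β x c).toNat : ℝ)) / P| ≤ 2) ∧
      ∀ a, ∑ c, ((R a c : ℝ) + (R c a : ℝ)) ≤ 3 * b + 2 := by
    intro x
    by_cases hx : x ∈ G
    · obtain ⟨R, hR⟩ := route_one P hP b (β x) (h1 x hx) (hb x hx)
      exact ⟨R, fun _ => hR⟩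
    · exact ⟨0, fun h => absurd h hx⟩
  choose R hR using hR
  have hR0 : ∀ x ∈ G, ∀ a, R x a a = 0 := fun x hx => (hR x hx).1
  have hRd : ∀ x ∈ G, ∀ a, ∑ c, (R x a c : ℤ) - ∑ c, (R x c a : ℤ) = β x a :=
    fun x hx => (hR x hx).2.1
  have hRs : ∀ x ∈ G, ∀ a c, a ≠ c →
      |(R x a c : ℝ) - (((β x a).toNat : ℝ) + ((-β x c).toNat : ℝ)) / P| ≤ 2 :=
    fun x hx => (hR x hx).2.2.1
  have hRt : ∀ x ∈ G, ∀ a, ∑ c, ((R x a c : ℝ) + (R x c a : ℝ)) ≤ 3 * b + 2 :=
    fun x hx => (hR x hx).2.2.2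
  -- defects
  obtain ⟨Dd, hDd⟩ : ∃ Dd : Fin P → Fin P → ℤ, ∀ a c, Dd a c =
      ∑ x ∈ G, (R x c a : ℤ) - ∑ x ∈ G, (R x a c : ℤ) := ⟨_, fun _ _ => rfl⟩
  have hDanti : ∀ a c, Dd c a = -Dd a c := by
    intro a c
    rw [hDd, hDd]; ring
  have hDdiag : ∀ a, Dd a a = 0 := by
    intro a
    rw [hDd]; ring
  have hDsum : ∀ a, ∑ c, Dd a c = 0 := by
    intro a
    have e : ∑ c, Dd a c = ∑ x ∈ G, (-(β x a)) := by
      simp only [hDd]
      rw [Finset.sum_sub_distrib, Finset.sum_comm, Finset.sum_comm (s := Finset.univ) (t := G)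
        (f := fun c x => (R x a c : ℤ)), ← Finset.sum_sub_distrib]
      refine Finset.sum_congr rfl fun x hx => ?_
      rw [← hRd x hx a]; ring
    rw [e, Finset.sum_neg_distrib, h2 a, neg_zero]
  have hSR : ∀ a c, a ≠ c → |(∑ x ∈ G, (R x a c : ℝ)) -
      (∑ x ∈ G, (((β x a).toNat : ℝ) + ((-β x c).toNat : ℝ))) / P| ≤ 2 * G.card := by
    intro a c hac
    rw [Finset.sum_div, ← Finset.sum_sub_distrib]
    refine (Finset.abs_sum_le_sum_abs _ _).trans ?_
    refine (Finset.sum_le_sum fun x hx => hRs x hx a c hac).trans ?_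
    rw [Finset.sum_const, nsmul_eq_mul]
    linarith
  have hsym : ∀ a c, (∑ x ∈ G, (((β x a).toNat : ℝ) + ((-β x c).toNat : ℝ))) =
      ∑ x ∈ G, (((β x c).toNat : ℝ) + ((-β x a).toNat : ℝ)) := by
    intro a c
    have key : ∀ z : ℤ, ((z.toNat : ℝ)) = ((-z).toNat : ℝ) + (z : ℝ) := by
      intro z
      have h := Int.toNat_sub_toNat_neg z
      have h' : ((z.toNat : ℝ)) - ((-z).toNat : ℝ) = (z : ℝ) := by exact_mod_cast h
      linarith
    have hz : ∀ a, ∑ x ∈ G, ((β x a : ℤ) : ℝ) = 0 := by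
      intro a
      exact_mod_cast h2 a
    have e1 : (∑ x ∈ G, (((β x a).toNat : ℝ) + ((-β x c).toNat : ℝ))) =
        (∑ x ∈ G, (((-β x a).toNat : ℝ) + ((-β x c).toNat : ℝ))) := by
      have : ∀ x, (((β x a).toNat : ℝ) + ((-β x c).toNat : ℝ)) =
          (((-β x a).toNat : ℝ) + ((-β x c).toNat : ℝ)) + ((β x a : ℤ) : ℝ) := by
        intro x
        rw [key (β x a)]; ring
      rw [Finset.sum_congr rfl fun x _ => this x, Finset.sum_add_distrib, hz, add_zero]
    have e2 : (∑ x ∈ G, (((β x c).toNat : ℝ) + ((-β x a).toNat : ℝ))) =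
        (∑ x ∈ G, (((-β x a).toNat : ℝ) + ((-β x c).toNat : ℝ))) := by
      have : ∀ x, (((β x c).toNat : ℝ) + ((-β x a).toNat : ℝ)) =
          (((-β x a).toNat : ℝ) + ((-β x c).toNat : ℝ)) + ((β x c : ℤ) : ℝ) := by
        intro x
        rw [key (β x c)]; ring
      rw [Finset.sum_congr rfl fun x _ => this x, Finset.sum_add_distrib, hz, add_zero]
    rw [e1, e2]
  have hDb : ∀ a c, |Dd a c| ≤ 4 * (G.card : ℤ) := by
    intro a c
    by_cases hac : a = c
    · rw [hac, hDdiag, abs_zero]; omega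
    · have k1 := hSR a c hac
      have k2 := hSR c a (Ne.symm hac)
      rw [hsym c a] at k2
      have k3 : |((Dd a c : ℤ) : ℝ)| ≤ 4 * (G.card : ℝ) := by
        rw [hDd]
        push_cast
        rw [abs_le] at k1 k2 ⊢
        constructor <;> linarith [k1.1, k1.2, k2.1, k2.2]
      exact_mod_cast k3
  -- triangles
  let o : Fin P := ⟨0, hP⟩
  obtain ⟨n, hn⟩ : ∃ n : Fin P → Fin P → ℕ, ∀ a c, n a c =
      if a = o ∨ c = o then 0 else (Dd a c).toNat := ⟨_, fun _ _ => rfl⟩
  have hn4 : ∀ a c, n a c ≤ 4 * G.card := by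
    intro a c
    rw [hn]
    have h := (abs_le.1 (hDb a c)).2
    split_ifs <;> omega
  have hfill := fun a c => FRoute_fill G (n a c) (hn4 a c)
  choose t ht1 ht2 using hfill
  have ht0 : ∀ a c, n a c = 0 → ∀ x ∈ G, t a c x = 0 := by
    intro a c hz x hx
    have h := ht1 a c
    rw [hz, Finset.sum_eq_zero_iff] at h
    exact h x hx
  have hno1 : ∀ c, n o c = 0 := fun c => by rw [hn, if_pos (Or.inl rfl)]
  have hno2 : ∀ c, n c o = 0 := fun c => by rw [hn, if_pos (Or.inr rfl)]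
  have hnn : ∀ a, n a a = 0 := fun a => by
    rw [hn, hDdiag]; simp
  have hndiff : ∀ a c, a ≠ o → (n a c : ℤ) - (n c a : ℤ) = if c = o then 0 else Dd a c := by
    intro a c ha
    by_cases hc : c = o
    · rw [hc, hno1, hno2, if_pos rfl]; simp
    · rw [hn, hn, if_neg (by tauto), if_neg (by tauto), if_neg hc, hDanti a c]
      exact Int.toNat_sub_toNat_neg _
  obtain ⟨Q, hQ⟩ : ∃ Q : X → Fin P → Fin P → ℕ, ∀ x a c, Q x a c = R x a c + t a c x +
      (if c = o then ∑ a', t a' a x else 0) + (if a = o then ∑ c', t c c' x else 0) :=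
    ⟨_, fun _ _ _ => rfl⟩
  have hQ0 : ∀ x ∈ G, ∀ a, Q x a a = 0 := by
    intro x hx a
    rw [hQ, hR0 x hx, ht0 a a (hnn a) x hx]
    by_cases ha : a = o
    · rw [if_pos ha, if_pos ha, ha, Finset.sum_eq_zero fun a' _ => ht0 a' o (hno2 a') x hx,
        Finset.sum_eq_zero fun a' _ => ht0 o a' (hno1 a') x hx]
      rfl
    · rw [if_neg ha, if_neg ha]
  have hrow : ∀ x a, ∑ c, Q x a c = ∑ c, R x a c + ∑ c, t a c x + ∑ a', t a' a x +
      (if a = o then ∑ c, ∑ c', t c c' x else 0) := by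
    intro x a
    simp only [hQ]
    rw [Finset.sum_add_distrib, Finset.sum_add_distrib, Finset.sum_add_distrib,
      Finset.sum_ite_eq' Finset.univ o, if_pos (Finset.mem_univ o)]
    congr 1
    split_ifs <;> simp
  have hcol : ∀ x a, ∑ c, Q x c a = ∑ c, R x c a + ∑ c, t c a x +
      (if a = o then ∑ c, ∑ c', t c c' x else 0) + ∑ c', t a c' x := by
    intro x a
    simp only [hQ]
    rw [Finset.sum_add_distrib, Finset.sum_add_distrib, Finset.sum_add_distrib,
      Finset.sum_ite_eq' Finset.univ o, if_pos (Finset.mem_univ o)]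
    congr 2
    split_ifs
    · rw [Finset.sum_comm]
    · simp
  have hcolour : ∀ a c, ∑ x ∈ G, Q x a c = ∑ x ∈ G, R x a c + n a c +
      (if c = o then ∑ a', n a' a else 0) + (if a = o then ∑ c', n c c' else 0) := by
    intro a c
    simp only [hQ]
    rw [Finset.sum_add_distrib, Finset.sum_add_distrib, Finset.sum_add_distrib, ht1]
    congr 1
    · congr 1
      split_ifs
      · rw [Finset.sum_comm]
        exact Finset.sum_congr rfl fun a' _ => ht1 a' a
      · simp
    · split_ifs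
      · rw [Finset.sum_comm]
        exact Finset.sum_congr rfl fun a' _ => ht1 c a'
      · simp
  have hsymo : ∀ a, a ≠ o → ∑ x ∈ G, Q x a o = ∑ x ∈ G, Q x o a := by
    intro a ha
    rw [hcolour, hcolour, hno1, hno2, if_pos rfl, if_neg ha, if_neg ha, if_pos rfl]
    have e := hDsum a
    have e1 : ∑ c, Dd a c = Dd a o + (∑ c, (n a c : ℤ) - ∑ c, (n c a : ℤ)) := by
      rw [← Finset.sum_sub_distrib, Finset.sum_congr rfl fun c _ => hndiff a c ha]
      have e3 : ∀ c, Dd a c = (if c = o then Dd a o else 0) + (if c = o then 0 else Dd a c) := by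
        intro c
        split_ifs with hc
        · rw [hc]; ring
        · ring
      rw [Finset.sum_congr rfl fun c _ => e3 c, Finset.sum_add_distrib,
        Finset.sum_ite_eq' Finset.univ o, if_pos (Finset.mem_univ o)]
    rw [e1, hDd] at e
    have : ((∑ x ∈ G, R x a o + 0 + ∑ a', n a' a + 0 : ℕ) : ℤ) =
        ((∑ x ∈ G, R x o a + 0 + 0 + ∑ c', n a c' : ℕ) : ℤ) := by
      push_cast
      linarith
    exact_mod_cast this
  refine ⟨fun x a c => if x ∈ G then Q x a c else 0, ?_, ?_, ?_, ?_, ?_⟩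
  · intro x a
    by_cases hx : x ∈ G
    · simp only [hx, if_true]
      exact hQ0 x hx a
    · simp only [hx, if_false]
  · intro x hx a
    simp only [hx, if_true]
    have e1 : ∑ c, (Q x a c : ℤ) = ((∑ c, Q x a c : ℕ) : ℤ) := by push_cast; rfl
    have e2 : ∑ c, (Q x c a : ℤ) = ((∑ c, Q x c a : ℕ) : ℤ) := by push_cast; rfl
    rw [e1, e2, hrow, hcol, ← hRd x hx a]
    push_cast
    ring
  · intro a c
    have e : ∀ a c, ∑ x ∈ G, (if x ∈ G then Q x a c else 0) = ∑ x ∈ G, Q x a c := fun a c =>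
      Finset.sum_congr rfl fun x hx => if_pos hx
    rw [e, e]
    by_cases hac : a = c
    · rw [hac]
    by_cases ha : a = o
    · rw [ha]
      exact (hsymo c (fun h => hac (by rw [ha, h]))).symm
    by_cases hc : c = o
    · rw [hc]
      exact hsymo a ha
    rw [hcolour, hcolour, if_neg ha, if_neg hc, if_neg hc, if_neg ha]
    have h3 := hndiff a c ha
    rw [if_neg hc, hDd] at h3
    have : ((∑ x ∈ G, R x a c + n a c + 0 + 0 : ℕ) : ℤ) =
        ((∑ x ∈ G, R x c a + n c a + 0 + 0 : ℕ) : ℤ) := by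
      push_cast
      linarith
    exact_mod_cast this
  · intro a c
    have e : ∑ x ∈ G, (((if x ∈ G then Q x a c else 0 : ℕ)) : ℝ) =
        ((∑ x ∈ G, Q x a c : ℕ) : ℝ) := by
      rw [Nat.cast_sum]
      exact Finset.sum_congr rfl fun x hx => by rw [if_pos hx]
    rw [e, hcolour]
    have hRle : ((∑ x ∈ G, R x a c : ℕ) : ℝ) ≤ 2 * (G.card : ℝ) * b / P + 2 * G.card := by
      by_cases hac : a = c
      · rw [hac, Finset.sum_eq_zero fun x hx => hR0 x hx c, Nat.cast_zero]
        exact add_nonneg (div_nonneg (mul_nonneg (mul_nonneg two_pos.le (Nat.cast_nonneg _))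
          (Nat.cast_nonneg _)) hP0.le) (mul_nonneg two_pos.le (Nat.cast_nonneg _))
      · have k1 := (abs_le.1 (hSR a c hac)).2
        have k2 : (∑ x ∈ G, (((β x a).toNat : ℝ) + ((-β x c).toNat : ℝ))) ≤
            ∑ x ∈ G, (2 * (b : ℝ)) := by
          refine Finset.sum_le_sum fun x hx => ?_
          have h3 := abs_le.1 (hb x hx a)
          have h4 := abs_le.1 (hb x hx c)
          have h5 : (β x a).toNat ≤ b := by omega
          have h6 : (-β x c).toNat ≤ b := by omega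
          have h5' : ((β x a).toNat : ℝ) ≤ b := by exact_mod_cast h5
          have h6' : ((-β x c).toNat : ℝ) ≤ b := by exact_mod_cast h6
          linarith
        rw [Finset.sum_const, nsmul_eq_mul] at k2
        have k3 : (∑ x ∈ G, (((β x a).toNat : ℝ) + ((-β x c).toNat : ℝ))) / P ≤
            (G.card * (2 * (b : ℝ))) / P := by gcongr
        have k4 : (G.card * (2 * (b : ℝ))) / P = 2 * (G.card : ℝ) * b / P := by ring
        push_cast
        linarith
    have hn4' : ∀ a c, (n a c : ℝ) ≤ 4 * (G.card : ℝ) := fun a c => by exact_mod_cast hn4 a c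
    have hG0 : (0 : ℝ) ≤ G.card := Nat.cast_nonneg _
    have hs1 : ∀ a, (∑ a', (n a' a : ℝ)) ≤ 4 * (G.card : ℝ) * P := by
      intro a
      refine (Finset.sum_le_sum fun a' _ => hn4' a' a).trans ?_
      rw [Finset.sum_const, nsmul_eq_mul, Finset.card_univ, Fintype.card_fin]
      linarith
    have hs2 : ∀ c, (∑ c', (n c c' : ℝ)) ≤ 4 * (G.card : ℝ) * P := by
      intro c
      refine (Finset.sum_le_sum fun a' _ => hn4' c a').trans ?_
      rw [Finset.sum_const, nsmul_eq_mul, Finset.card_univ, Fintype.card_fin]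
      linarith
    have hGP : (G.card : ℝ) ≤ G.card * P := by nlinarith
    have hGP0 : (0 : ℝ) ≤ 4 * (G.card : ℝ) * P :=
      mul_nonneg (mul_nonneg (by norm_num) hG0) hP0.le
    have b1 : (((if c = o then ∑ a', n a' a else 0 : ℕ)) : ℝ) ≤ 4 * (G.card : ℝ) * P := by
      split_ifs
      · push_cast; exact hs1 a
      · push_cast; exact hGP0
    have b2 : (((if a = o then ∑ c', n c c' else 0 : ℕ)) : ℝ) ≤ 4 * (G.card : ℝ) * P := by
      split_ifs
      · push_cast; exact hs2 c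
      · push_cast; exact hGP0
    have b3 := hn4' a c
    rw [Nat.cast_add, Nat.cast_add, Nat.cast_add]
    nlinarith
  · intro x hx a
    simp only [hx, if_true]
    rw [Finset.sum_add_distrib]
    have e1 : ∑ c, (Q x a c : ℝ) = ((∑ c, Q x a c : ℕ) : ℝ) := by push_cast; rfl
    have e2 : ∑ c, (Q x c a : ℝ) = ((∑ c, Q x c a : ℕ) : ℝ) := by push_cast; rfl
    rw [e1, e2, hrow, hcol]
    have hr := hRt x hx a
    rw [Finset.sum_add_distrib] at hr
    have ht4 : ∀ a c, (t a c x : ℝ) ≤ 4 := fun a c => by exact_mod_cast ht2 a c x hx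
    have hb0 : (0 : ℝ) ≤ b := Nat.cast_nonneg _
    by_cases ha : a = o
    · rw [if_pos ha]
      have z1 : ∑ c, t a c x = 0 :=
        Finset.sum_eq_zero fun c _ => by rw [ha]; exact ht0 o c (hno1 c) x hx
      have z2 : ∑ c, t c a x = 0 :=
        Finset.sum_eq_zero fun c _ => by rw [ha]; exact ht0 c o (hno2 c) x hx
      rw [z1, z2]
      have z3 : (∑ c : Fin P, ∑ c' : Fin P, (t c c' x : ℝ)) ≤ 4 * (P : ℝ) ^ 2 := by
        refine (Finset.sum_le_sum fun c _ => Finset.sum_le_sum fun c' _ => ht4 c c').trans ?_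
        simp only [Finset.sum_const, nsmul_eq_mul, Finset.card_univ, Fintype.card_fin]
        apply le_of_eq
        ring
      push_cast
      nlinarith
    · rw [if_neg ha]
      have z1 : ∀ a, (∑ c : Fin P, (t a c x : ℝ)) ≤ 4 * (P : ℝ) := by
        intro a
        refine (Finset.sum_le_sum fun c _ => ht4 a c).trans ?_
        simp only [Finset.sum_const, nsmul_eq_mul, Finset.card_univ, Fintype.card_fin]
        linarith
      have z2 : ∀ a, (∑ c : Fin P, (t c a x : ℝ)) ≤ 4 * (P : ℝ) := by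
        intro a
        refine (Finset.sum_le_sum fun c _ => ht4 c a).trans ?_
        simp only [Finset.sum_const, nsmul_eq_mul, Finset.card_univ, Fintype.card_fin]
        linarith
      have z1' := z1 a
      have z2' := z2 a
      push_cast
      nlinarith

end Pool.Agent.Lib.TriS
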