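import Pool.Agent.Lib.TriS.FOne
import Pool.Agent.Lib.TriS.FBeta
import Pool.Agent.Lib.TriS.FReq
import Pool.Agent.Lib.TriS.FPair
import Pool.Agent.Lib.TriS.FRoute

/-!
MODULE FlushT (about 220 lines). Assembly of section 7.

PROOF. `K1` from `flush1`. `b = ⌊2/10^14 * s⌋₊`, `β = bet nu nv aU aV K1`: `bet_row`, `bet_col`, and `|β x a| ≤ b` (`bet_le`; an integer `≤ 2/10^14 s` is `≤ b`: `Nat.le_floor` for `natAbs`). `routing` gives `Req`.
Numbers: `b ≤ 2/10^14 s`; `4 b + 20 P^2 + 4 ≤ 8/10^14 s + 24 P^2 ≤ 1/10^13 s` (`s3`, `L1`, `P1`); `2 |G| b/P + 20 |G| P ≤ 4/10^14 |G| s/P + 20 |G| P ≤ 5/10^14 |G| s/P ≤ m/10`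
(`m1`: `m ≥ 5/10^12 |G| s/P`; `20 P^2 ≤ 1/10^14 s`). `flush2` gives `K'`; `K2 = K1 ∪ K'`, `dom K2 = O ∪ dom K' ⊆ O ∪ F`, `dom K1`, `dom K'` disjoint (`dOF`).
`heq` of `flush3`: `F \ dom K2 = F \ dom K'`; `#{p ∈ dom K' : aU p.1 = a, aV p.2 = c} = ∑ x ∈ G, Req x a c` (`dom K'` is the disjoint union of the `cls K' x`, `x ∈ G`: `PCol.fn`, `PCol.col`) and `#{p ∈ F : a, c} = m`
(`Fm`), so the number of the remaining ones is `m - ∑ x ∈ G, Req x a c`, symmetric by `routing` (R2). `flush3` gives `K''`; `K = K2 ∪ K''`, `dom K = O ∪ dom K' ∪ (F \ dom K') = O ∪ F`.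
Balance, `x ∈ G`: `gU_add`, `gV_add` twice: `|gU K x a| = |gU K1 x a| - #{p ∈ cls K' x : aU p.1 = a} - #{p ∈ cls K'' x : aU p.1 = a}`, and `#{p ∈ cls K' x : aU p.1 = a} = ∑ c, Req x a c`,
`#{p ∈ cls K' x : aV p.2 = a} = ∑ c, Req x c a` (`Finset.card_eq_sum_card_fiberwise`). So `|gU K x a| - |gV K x a| = β x a - (∑ c, Req x a c - ∑ c, Req x c a) - 0 = 0`.
Tests: for `v : V`, `x ∈ G`: `#{u ∈ nb (tr E) v : x ∈ cu K u} ≤` the sum over `K1`, `K'`, `K''` (`cu_union`) `≤ 2 (5/10^15 + 4/10^13 + 3/10^11) |nb (tr E) v| + 12 L ≤ 1/10^10 |G|`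
(`TB.u (Sum.inl v) x`; `degE`: `≤ 1.1 |G|`; `12 L ≤ 1/10^50 |G|` by `G1`, `P1`); the same for `u : U` with `TB.v (Sum.inl u) x`.
-/

set_option autoImplicit false

open scoped Classical

noncomputable section

namespace Pool.Agent.Lib.TriS

private theorem dom_cls {U V X : Type} {K : Finset ((U × V) × X)} {nu : U → Finset X}
    {nv : V → Finset X} {G : Finset X} (h : PCol K nu nv G) (q : U × V → Prop)
    [DecidablePred q] : ((dom K).filter q).card = ∑ x ∈ G, ((cls K x).filter q).card := by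
  rw [← Finset.card_biUnion]
  · congr 1
    ext p
    simp only [Finset.mem_filter, Finset.mem_biUnion, mem_dom, mem_cls]
    constructor
    · rintro ⟨⟨x, hx⟩, hq⟩
      exact ⟨x, (h.col p x hx).1, hx, hq⟩
    · rintro ⟨x, _, hx, hq⟩
      exact ⟨⟨x, hx⟩, hq⟩
  · intro x _ y _ hne
    rw [Function.onFun, Finset.disjoint_left]
    intro p hp hp'
    simp only [Finset.mem_filter, mem_cls] at hp hp'
    exact hne (h.fn p x y hp.1 hp'.1)

private theorem cls_sumU {U V X : Type} {P : ℕ} (K : Finset ((U × V) × X)) (aU : U → Fin P)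
    (aV : V → Fin P) (x : X) (a : Fin P) :
    ((cls K x).filter fun p => aU p.1 = a).card =
      ∑ c, ((cls K x).filter fun p => aU p.1 = a ∧ aV p.2 = c).card := by
  rw [Finset.card_eq_sum_card_fiberwise (f := fun p : U × V => aV p.2) (t := Finset.univ)
    (fun _ _ => Finset.mem_coe.2 (Finset.mem_univ _))]
  refine Finset.sum_congr rfl fun c _ => ?_
  rw [Finset.filter_filter]

private theorem cls_sumV {U V X : Type} {P : ℕ} (K : Finset ((U × V) × X)) (aU : U → Fin P)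
    (aV : V → Fin P) (x : X) (a : Fin P) :
    ((cls K x).filter fun p => aV p.2 = a).card =
      ∑ c, ((cls K x).filter fun p => aU p.1 = c ∧ aV p.2 = a).card := by
  rw [Finset.card_eq_sum_card_fiberwise (f := fun p : U × V => aU p.1) (t := Finset.univ)
    (fun _ _ => Finset.mem_coe.2 (Finset.mem_univ _))]
  refine Finset.sum_congr rfl fun c _ => ?_
  rw [Finset.filter_filter]
  congr 1
  ext p
  simp only [Finset.mem_filter]
  tauto

private theorem flush_num1 (P s b L : ℝ) (hP : 1 ≤ P) (hL : 1 ≤ L) (hs : 10 ^ 60 * P ^ 2 * L ≤ s)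
    (hb : b ≤ 2 / 10 ^ 14 * s) : 4 * b + 20 * P ^ 2 + 4 ≤ 1 / 10 ^ 13 * s := by
  have h1 : P ^ 2 ≤ P ^ 2 * L := by nlinarith [sq_nonneg P]
  have h2 : 1 ≤ P ^ 2 := by nlinarith
  have h3 : 10 ^ 60 * P ^ 2 * L = 10 ^ 60 * (P ^ 2 * L) := by ring
  rw [h3] at hs
  have h4 : 10 ^ 60 * P ^ 2 ≤ s := by linarith
  norm_num at h4 hb ⊢
  linarith

private theorem flush_num2 (P s b L g m : ℝ) (hP : 1 ≤ P) (hL : 1 ≤ L)
    (hs : 10 ^ 60 * P ^ 2 * L ≤ s) (hb : b ≤ 2 / 10 ^ 14 * s) (hg : 0 ≤ g)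
    (hm : 1 / 10 ^ 11 * g * s / (2 * P) ≤ m) : 2 * g * b / P + 20 * g * P ≤ m / 10 := by
  have hP0 : 0 < P := by linarith
  have h1 : P ^ 2 ≤ P ^ 2 * L := by nlinarith [sq_nonneg P]
  have h3 : 10 ^ 60 * P ^ 2 * L = 10 ^ 60 * (P ^ 2 * L) := by ring
  rw [h3] at hs
  have h4 : 10 ^ 60 * P ^ 2 ≤ s := by linarith
  have h5 : 2 * g * b / P + 20 * g * P ≤ (1 / 10 ^ 11 * g * s / (2 * P)) / 10 := by
    have e1 : 2 * g * b / P + 20 * g * P = g * (2 * b + 20 * P ^ 2) / P := by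
      field_simp
    have e2 : (1 / 10 ^ 11 * g * s / (2 * P)) / 10 = g * (s / (20 * 10 ^ 11)) / P := by
      field_simp
      ring
    rw [e1, e2]
    apply div_le_div_of_nonneg_right _ hP0.le
    apply mul_le_mul_of_nonneg_left _ hg
    have h6 : 0 ≤ s := le_trans (by positivity) h4
    norm_num at h4 hb ⊢
    linarith
  linarith

private theorem flush_num3 (g L e k1 k2 k3 P : ℝ) (hP : 1 ≤ P) (hL : 1 ≤ L)
    (hG : 10 ^ 60 * P * L ≤ g) (he : e ≤ 11 / 10 * g)
    (h1 : k1 ≤ 2 * (5 / 10 ^ 15) * e + 4 * L) (h2 : k2 ≤ 2 * (4 / 10 ^ 13) * e + 4 * L)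
    (h3 : k3 ≤ 2 * (3 / 10 ^ 11) * e + 4 * L) : k1 + k2 + k3 ≤ 1 / 10 ^ 10 * g := by
  have h4 : L ≤ P * L := by nlinarith
  have h5 : 10 ^ 60 * P * L = 10 ^ 60 * (P * L) := by ring
  rw [h5] at hG
  norm_num at hG he h1 h2 h3 ⊢
  linarith

theorem flush {U V X : Type} [Fintype U] [Fintype V] (O E F : Finset (U × V)) (nu : U → Finset X)
    (nv : V → Finset X) (P : ℕ) (aU : U → Fin P) (aV : V → Fin P) (G : Finset X) (s r m : ℕ)
    (L η : ℝ) (h : FIn O E F nu nv P aU aV G s r m L η) :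
    FlushOut O E F nu nv P aU aV G := by
  have hP1 : (1 : ℝ) ≤ P := le_trans (by norm_num) h.P1
  have hP0 : 0 < P := by exact_mod_cast (lt_of_lt_of_le one_pos hP1)
  obtain ⟨K1, hK1, hd1, hT1⟩ := flush1 h
  set b : ℕ := ⌊2 / 10 ^ 14 * (s : ℝ)⌋₊ with hb
  have hs0 : (0 : ℝ) ≤ 2 / 10 ^ 14 * (s : ℝ) := by positivity
  have hbs : (b : ℝ) ≤ 2 / 10 ^ 14 * s := Nat.floor_le hs0
  have hbet : ∀ x ∈ G, ∀ a, |bet nu nv aU aV K1 x a| ≤ (b : ℤ) := by
    intro x hx a
    have h1 := bet_le h hK1 hT1 hx a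
    rw [Int.abs_eq_natAbs]
    have h2 : ((bet nu nv aU aV K1 x a).natAbs : ℝ) ≤ 2 / 10 ^ 14 * s := by
      rw [Nat.cast_natAbs]
      push_cast
      exact h1
    have h3 : (bet nu nv aU aV K1 x a).natAbs ≤ b := Nat.le_floor h2
    exact_mod_cast h3
  obtain ⟨Req, hR0, hR1, hR2, hR2', hR3⟩ := routing G P hP0 b (bet nu nv aU aV K1)
    (fun x hx => bet_row h hK1 hx) (fun a => bet_col h hK1 hd1 a) hbet
  have hn1 := flush_num1 P s b L hP1 h.L1 h.s3 hbs
  have hn2 := flush_num2 P s b L G.card m hP1 h.L1 h.s3 hbs (Nat.cast_nonneg _) h.m1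
  obtain ⟨K', hK', hd', hT', hcls⟩ := flush2 h hK1 hd1 hT1 Req hR0
    (fun a c => (hR2' a c).trans hn2) (fun x hx a => (hR3 x hx a).trans hn1)
  have hdis1 : Disjoint (dom K1) (dom K') := by
    rw [hd1]
    exact Finset.disjoint_of_subset_right hd' h.dOF
  have hPK' : PCol K' nu nv G := hK'.mono Finset.subset_union_right
  have hdom2 : dom (K1 ∪ K') = O ∪ dom K' := by rw [dom_union, hd1]
  have hFd : F \ dom (K1 ∪ K') = F \ dom K' := by
    rw [hdom2]
    ext p
    simp only [Finset.mem_sdiff, Finset.mem_union]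
    constructor
    · rintro ⟨h1, h2⟩
      exact ⟨h1, fun h3 => h2 (Or.inr h3)⟩
    · rintro ⟨h1, h2⟩
      refine ⟨h1, ?_⟩
      rintro (h3 | h3)
      · exact Finset.disjoint_left.1 h.dOF h3 h1
      · exact h2 h3
  have hcnt : ∀ a c, a ≠ c → ((F \ dom (K1 ∪ K')).filter fun p => aU p.1 = a ∧ aV p.2 = c).card +
      ∑ x ∈ G, Req x a c = m := by
    intro a c hac
    have h1 : ((dom K').filter fun p => aU p.1 = a ∧ aV p.2 = c).card = ∑ x ∈ G, Req x a c := by
      rw [dom_cls hPK']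
      exact Finset.sum_congr rfl fun x hx => hcls x hx a c
    rw [hFd, ← h1, ← h.Fm a c hac]
    rw [← Finset.card_union_of_disjoint]
    · congr 1
      ext p
      simp only [Finset.mem_union, Finset.mem_filter, Finset.mem_sdiff]
      constructor
      · rintro (⟨⟨h2, _⟩, h3⟩ | ⟨h2, h3⟩)
        · exact ⟨h2, h3⟩
        · exact ⟨hd' h2, h3⟩
      · rintro ⟨h2, h3⟩
        by_cases h4 : p ∈ dom K'
        · exact Or.inr ⟨h4, h3⟩
        · exact Or.inl ⟨⟨h2, h4⟩, h3⟩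
    · rw [Finset.disjoint_left]
      intro p hp hp'
      simp only [Finset.mem_filter, Finset.mem_sdiff] at hp hp'
      exact hp.1.2 hp'.1
  obtain ⟨K'', hK'', hd'', hT'', hbal''⟩ := flush3 h hK' (by
    rw [hdom2]
    exact Finset.union_subset_union_right hd') (fun a c hac => by
      have h1 := hcnt a c hac
      have h2 := hcnt c a (Ne.symm hac)
      have h3 := hR2 a c
      omega)
  have hdis2 : Disjoint (dom (K1 ∪ K')) (dom K'') := by
    rw [hd'']
    exact Finset.disjoint_sdiff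
  refine ⟨(K1 ∪ K') ∪ K'', hK'', ?_, ?_, ?_, ?_⟩
  · rw [dom_union, hd'', hdom2]
    ext p
    simp only [Finset.mem_union, Finset.mem_sdiff]
    constructor
    · rintro ((h1 | h1) | ⟨h1, _⟩)
      · exact Or.inl h1
      · exact Or.inr (hd' h1)
      · exact Or.inr h1
    · rintro (h1 | h1)
      · exact Or.inl (Or.inl h1)
      · by_cases h2 : p ∈ O ∨ p ∈ dom K'
        · exact Or.inl h2
        · exact Or.inr ⟨h1, h2⟩
  · intro x hx a
    have e1 := gU_add aU hK'' hdis2 x a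
    have e2 := gU_add aU hK' hdis1 x a
    have e3 := gV_add aV hK'' hdis2 x a
    have e4 := gV_add aV hK' hdis1 x a
    have e5 := hbal'' x hx a
    have e6 : ((cls K' x).filter fun p => aU p.1 = a).card = ∑ c, Req x a c := by
      rw [cls_sumU K' aU aV x a]
      exact Finset.sum_congr rfl fun c _ => hcls x hx a c
    have e7 : ((cls K' x).filter fun p => aV p.2 = a).card = ∑ c, Req x c a := by
      rw [cls_sumV K' aU aV x a]
      exact Finset.sum_congr rfl fun c _ => hcls x hx c a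
    have e8 := hR1 x hx a
    unfold bet at e8
    have e9 : ((∑ c, Req x a c : ℕ) : ℤ) - ((∑ c, Req x c a : ℕ) : ℤ) =
        ((gU nu aU K1 x a).card : ℤ) - (gV nv aV K1 x a).card := by
      push_cast
      exact e8
    have e10 : (gU nu aU (K1 ∪ K' ∪ K'') x a).card = (gV nv aV (K1 ∪ K' ∪ K'') x a).card := by
      omega
    exact e10
  · intro u x hx
    have t1 := hT1.v (Sum.inl u) x hx
    have t2 := hT'.v (Sum.inl u) x hx
    have t3 := hT''.v (Sum.inl u) x hx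
    have hS : SV E aV (Sum.inl u : U ⊕ Fin P) = nb E u := rfl
    rw [hS] at t1 t2 t3
    have hsub : ((nb E u).filter fun v => x ∈ cv ((K1 ∪ K') ∪ K'') v) ⊆
        (((nb E u).filter fun v => x ∈ cv K1 v) ∪ ((nb E u).filter fun v => x ∈ cv K' v)) ∪
          ((nb E u).filter fun v => x ∈ cv K'' v) := by
      intro v hv
      simp only [Finset.mem_filter, Finset.mem_union, cv_union] at hv ⊢
      tauto
    have h1 := (Finset.card_le_card hsub).trans ((Finset.card_union_le _ _).trans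
      (Nat.add_le_add_right (Finset.card_union_le _ _) _))
    have h2 : (((nb E u).filter fun v => x ∈ cv ((K1 ∪ K') ∪ K'') v).card : ℝ) ≤
        (((nb E u).filter fun v => x ∈ cv K1 v).card : ℝ) +
        (((nb E u).filter fun v => x ∈ cv K' v).card : ℝ) +
          (((nb E u).filter fun v => x ∈ cv K'' v).card : ℝ) := by exact_mod_cast h1
    exact h2.trans (flush_num3 G.card L (nb E u).card _ _ _ P hP1 h.L1 h.G1 (h.s1.degE u) t1 t2 t3)
  · intro v x hx
    have t1 := hT1.u (Sum.inl v) x hx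
    have t2 := hT'.u (Sum.inl v) x hx
    have t3 := hT''.u (Sum.inl v) x hx
    have hS : SU E aU (Sum.inl v : V ⊕ Fin P) = nb (tr E) v := rfl
    rw [hS] at t1 t2 t3
    have hsub : ((nb (tr E) v).filter fun u => x ∈ cu ((K1 ∪ K') ∪ K'') u) ⊆
        (((nb (tr E) v).filter fun u => x ∈ cu K1 u) ∪
          ((nb (tr E) v).filter fun u => x ∈ cu K' u)) ∪
          ((nb (tr E) v).filter fun u => x ∈ cu K'' u) := by
      intro u hu
      simp only [Finset.mem_filter, Finset.mem_union, cu_union] at hu ⊢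
      tauto
    have h1 := (Finset.card_le_card hsub).trans ((Finset.card_union_le _ _).trans
      (Nat.add_le_add_right (Finset.card_union_le _ _) _))
    have h2 : (((nb (tr E) v).filter fun u => x ∈ cu ((K1 ∪ K') ∪ K'') u).card : ℝ) ≤
        (((nb (tr E) v).filter fun u => x ∈ cu K1 u).card : ℝ) +
        (((nb (tr E) v).filter fun u => x ∈ cu K' u).card : ℝ) +
          (((nb (tr E) v).filter fun u => x ∈ cu K'' u).card : ℝ) := by exact_mod_cast h1
    exact h2.trans (flush_num3 G.card L (nb (tr E) v).card _ _ _ P hP1 h.L1 h.G1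
      (h.s2.degE v) t1 t2 t3)

end Pool.Agent.Lib.TriS
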