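import Pool.Agent.Lib.TriS.Defs

/-!
MODULE Label (about 180 lines). Tool T2: random labels with cost, by averaging over the product distribution.

Notation: `cntL f T = #{e : (e, f e) ∈ T}`, `muL p T = ∑_{(e,a) ∈ T} p e a`.

PROOF of `label_cost`. Weights `w f = ∏ e, p e (f e) ≥ 0`, `∑ f, w f = 1` (`Fintype.sum_pow`-like: `Finset.prod_univ_sum`,
`Fintype.piFinset_univ`). For `θ : ℝ` and a test `T`:
`∑ f, w f * exp (θ * cntL f T) = ∏ e, ∑ a, p e a * exp (θ * [ (e,a) ∈ T ]) = ∏ e (1 + (exp θ - 1) q_e) ≤ exp ((exp θ - 1) μ)`, where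
`q_e = ∑ a, if (e,a) ∈ T then p e a else 0`, `∑ e q_e = μ = muL p T` (again `Finset.prod_univ_sum`, `Real.add_one_le_exp`).
Upper: `θ = z`: `E exp (z (cnt - (1+z) μ)) ≤ exp (μ (exp z - 1 - z - z²)) ≤ 1`, as `exp z ≤ 1 + z + z²` for `|z| ≤ 1`
(`Real.abs_exp_sub_one_sub_id_le`). Lower: `θ = -z`: `E exp (-z (cnt - (1-z) μ)) ≤ exp (μ (exp (-z) - 1 + z - z²)) ≤ 1`.
Let `F f = cost f + ∑ i ∈ I, (exp (z (cnt - (1+z) μ_i - t_i)) + exp (-z (cnt - (1-z) μ_i + t_i)))`; then
`∑ f, w f * F f ≤ E cost + ∑ i ∈ I, 2 exp (-z t_i) < 1 = ∑ f, w f`, so some `f` has `F f < 1`; every summand is `< 1`: cost and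
`exp (..) < 1` gives the exponent `< 0`.
-/

set_option autoImplicit false

open scoped Classical

noncomputable section

namespace Pool.Agent.Lib.TriS

def cntL {E Λ : Type} [Fintype E] (f : E → Λ) (T : Finset (E × Λ)) : ℕ :=
  (Finset.univ.filter fun e => (e, f e) ∈ T).card

def muL {E Λ : Type} (p : E → Λ → ℝ) (T : Finset (E × Λ)) : ℝ := ∑ q ∈ T, p q.1 q.2

private def ind {E Λ : Type} (T : Finset (E × Λ)) (e : E) (a : Λ) : ℝ := if (e, a) ∈ T then 1 else 0

private lemma cntL_eq {E Λ : Type} [Fintype E] (f : E → Λ) (T : Finset (E × Λ)) :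
    (cntL f T : ℝ) = ∑ e, ind T e (f e) := by
  unfold cntL ind
  rw [Finset.card_filter]
  push_cast
  rfl

private lemma sum_ind {E Λ : Type} [Fintype E] [Fintype Λ] (p : E → Λ → ℝ) (T : Finset (E × Λ)) :
    ∑ e, ∑ a, p e a * ind T e a = muL p T := by
  unfold muL ind
  rw [← Fintype.sum_prod_type' (f := fun e a => p e a * (if (e, a) ∈ T then (1 : ℝ) else 0))]
  rw [← Finset.sum_filter_add_sum_filter_not Finset.univ (fun q : E × Λ => q ∈ T)]
  have h1 : ∑ x ∈ Finset.univ.filter (fun q : E × Λ => ¬ q ∈ T),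
      p x.1 x.2 * (if (x.1, x.2) ∈ T then (1 : ℝ) else 0) = 0 := by
    apply Finset.sum_eq_zero
    intro x hx
    have := (Finset.mem_filter.mp hx).2
    simp [this]
  rw [h1, add_zero]
  have h2 : Finset.univ.filter (fun q : E × Λ => q ∈ T) = T := by ext; simp
  rw [h2]
  apply Finset.sum_congr rfl
  intro x hx
  simp [hx]

private lemma sum_prod {E Λ : Type} [Fintype E] [Fintype Λ] (g : E → Λ → ℝ) :
    ∑ f : E → Λ, ∏ e, g e (f e) = ∏ e, ∑ a, g e a := by
  rw [Finset.prod_univ_sum]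
  simp [Fintype.piFinset_univ]

private lemma mgf {E Λ : Type} [Fintype E] [Fintype Λ] (p : E → Λ → ℝ) (h0 : ∀ e a, 0 ≤ p e a)
    (h1 : ∀ e, ∑ a, p e a = 1) (T : Finset (E × Λ)) (θ : ℝ) :
    ∑ f : E → Λ, (∏ e, p e (f e)) * Real.exp (θ * cntL f T) ≤
      Real.exp ((Real.exp θ - 1) * muL p T) := by
  have e1 : ∀ f : E → Λ, (∏ e, p e (f e)) * Real.exp (θ * cntL f T) =
      ∏ e, (p e (f e) * Real.exp (θ * ind T e (f e))) := by
    intro f
    rw [cntL_eq, Finset.mul_sum, Real.exp_sum, ← Finset.prod_mul_distrib]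
  rw [Finset.sum_congr rfl (fun f _ => e1 f)]
  rw [sum_prod (fun e a => p e a * Real.exp (θ * ind T e a))]
  have e2 : ∀ e, ∑ a, p e a * Real.exp (θ * ind T e a) =
      1 + (Real.exp θ - 1) * ∑ a, p e a * ind T e a := by
    intro e
    have e20 : (1 : ℝ) + (Real.exp θ - 1) * ∑ a, p e a * ind T e a =
        ∑ a, p e a + (Real.exp θ - 1) * ∑ a, p e a * ind T e a := by rw [h1 e]
    rw [e20, Finset.mul_sum, ← Finset.sum_add_distrib]
    apply Finset.sum_congr rfl
    intro a _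
    unfold ind
    split_ifs
    · rw [mul_one, mul_one]; ring
    · rw [mul_zero, mul_zero, Real.exp_zero]; ring
  have e3 : ∀ e, ∑ a, p e a * Real.exp (θ * ind T e a) ≤
      Real.exp ((Real.exp θ - 1) * ∑ a, p e a * ind T e a) := by
    intro e
    rw [e2 e, add_comm]
    exact Real.add_one_le_exp _
  calc ∏ e, ∑ a, p e a * Real.exp (θ * ind T e a)
      ≤ ∏ e, Real.exp ((Real.exp θ - 1) * ∑ a, p e a * ind T e a) := by
        apply Finset.prod_le_prod
        · intro e _
          apply Finset.sum_nonneg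
          intro a _
          exact mul_nonneg (h0 e a) (Real.exp_pos _).le
        · intro e _
          exact e3 e
    _ = Real.exp ((Real.exp θ - 1) * muL p T) := by
        rw [← Real.exp_sum, ← Finset.mul_sum, sum_ind]

private lemma muL_nonneg {E Λ : Type} (p : E → Λ → ℝ) (h0 : ∀ e a, 0 ≤ p e a)
    (T : Finset (E × Λ)) : 0 ≤ muL p T :=
  Finset.sum_nonneg (fun q _ => h0 q.1 q.2)

private lemma upper {E Λ : Type} [Fintype E] [Fintype Λ] (p : E → Λ → ℝ) (h0 : ∀ e a, 0 ≤ p e a)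
    (h1 : ∀ e, ∑ a, p e a = 1) (T : Finset (E × Λ)) (z t : ℝ) (hz : 0 < z) (hz1 : z ≤ 1) :
    ∑ f : E → Λ, (∏ e, p e (f e)) * Real.exp (z * (cntL f T - ((1 + z) * muL p T + t))) ≤
      Real.exp (-(z * t)) := by
  have hm := mgf p h0 h1 T z
  have hμ := muL_nonneg p h0 T
  have hexp : Real.exp z ≤ 1 + z + z ^ 2 := by
    have := Real.abs_exp_sub_one_sub_id_le (x := z) (by rw [abs_of_pos hz]; exact hz1)
    have := (abs_le.mp this).2
    linarith
  have e1 : ∀ f : E → Λ, (∏ e, p e (f e)) *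
      Real.exp (z * (cntL f T - ((1 + z) * muL p T + t))) =
      Real.exp (-(z * ((1 + z) * muL p T + t))) *
        ((∏ e, p e (f e)) * Real.exp (z * cntL f T)) := by
    intro f
    rw [mul_left_comm, ← Real.exp_add]
    congr 2
    ring
  rw [Finset.sum_congr rfl (fun f _ => e1 f), ← Finset.mul_sum]
  calc Real.exp (-(z * ((1 + z) * muL p T + t))) *
        ∑ f : E → Λ, (∏ e, p e (f e)) * Real.exp (z * cntL f T)
      ≤ Real.exp (-(z * ((1 + z) * muL p T + t))) * Real.exp ((Real.exp z - 1) * muL p T) :=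
        mul_le_mul_of_nonneg_left hm (Real.exp_pos _).le
    _ = Real.exp ((Real.exp z - 1 - z - z ^ 2) * muL p T - z * t) := by
        rw [← Real.exp_add]; congr 1; ring
    _ ≤ Real.exp (-(z * t)) := by
        apply Real.exp_le_exp.mpr
        have : (Real.exp z - 1 - z - z ^ 2) * muL p T ≤ 0 :=
          mul_nonpos_of_nonpos_of_nonneg (by linarith) hμ
        linarith

private lemma lower {E Λ : Type} [Fintype E] [Fintype Λ] (p : E → Λ → ℝ) (h0 : ∀ e a, 0 ≤ p e a)
    (h1 : ∀ e, ∑ a, p e a = 1) (T : Finset (E × Λ)) (z t : ℝ) (hz : 0 < z) (hz1 : z ≤ 1) :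
    ∑ f : E → Λ, (∏ e, p e (f e)) * Real.exp (-z * (cntL f T - ((1 - z) * muL p T - t))) ≤
      Real.exp (-(z * t)) := by
  have hm := mgf p h0 h1 T (-z)
  have hμ := muL_nonneg p h0 T
  have hexp : Real.exp (-z) ≤ 1 - z + z ^ 2 := by
    have := Real.abs_exp_sub_one_sub_id_le (x := -z) (by rw [abs_neg, abs_of_pos hz]; exact hz1)
    have := (abs_le.mp this).2
    nlinarith
  have e1 : ∀ f : E → Λ, (∏ e, p e (f e)) *
      Real.exp (-z * (cntL f T - ((1 - z) * muL p T - t))) =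
      Real.exp (z * ((1 - z) * muL p T - t)) *
        ((∏ e, p e (f e)) * Real.exp (-z * cntL f T)) := by
    intro f
    rw [mul_left_comm, ← Real.exp_add]
    congr 2
    ring
  rw [Finset.sum_congr rfl (fun f _ => e1 f), ← Finset.mul_sum]
  calc Real.exp (z * ((1 - z) * muL p T - t)) *
        ∑ f : E → Λ, (∏ e, p e (f e)) * Real.exp (-z * cntL f T)
      ≤ Real.exp (z * ((1 - z) * muL p T - t)) * Real.exp ((Real.exp (-z) - 1) * muL p T) :=
        mul_le_mul_of_nonneg_left hm (Real.exp_pos _).le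
    _ = Real.exp ((Real.exp (-z) - 1 + z - z ^ 2) * muL p T - z * t) := by
        rw [← Real.exp_add]; congr 1; ring
    _ ≤ Real.exp (-(z * t)) := by
        apply Real.exp_le_exp.mpr
        have : (Real.exp (-z) - 1 + z - z ^ 2) * muL p T ≤ 0 :=
          mul_nonpos_of_nonpos_of_nonneg (by linarith) hμ
        linarith

theorem label_cost {E Λ ι : Type} [Fintype E] [Fintype Λ] (p : E → Λ → ℝ) (h0 : ∀ e a, 0 ≤ p e a)
    (h1 : ∀ e, ∑ a, p e a = 1) (I : Finset ι) (T : ι → Finset (E × Λ)) (z : ℝ) (hz : 0 < z)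
    (hz1 : z ≤ 1) (t : ι → ℝ) (cost : (E → Λ) → ℝ) (hc : ∀ f, 0 ≤ cost f)
    (hsum : ∑ f : E → Λ, (∏ e, p e (f e)) * cost f + ∑ i ∈ I, 2 * Real.exp (-(z * t i)) < 1) :
    ∃ f : E → Λ, cost f < 1 ∧ ∀ i ∈ I, (1 - z) * muL p (T i) - t i ≤ cntL f (T i) ∧
      (cntL f (T i) : ℝ) ≤ (1 + z) * muL p (T i) + t i := by
  set w : (E → Λ) → ℝ := fun f => ∏ e, p e (f e) with hw
  have hw0 : ∀ f, 0 ≤ w f := fun f => Finset.prod_nonneg (fun e _ => h0 e (f e))
  have hw1 : ∑ f, w f = 1 := by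
    rw [hw, sum_prod p]
    simp [h1]
  set U : (E → Λ) → ι → ℝ := fun f i =>
    Real.exp (z * (cntL f (T i) - ((1 + z) * muL p (T i) + t i))) with hU
  set L : (E → Λ) → ι → ℝ := fun f i =>
    Real.exp (-z * (cntL f (T i) - ((1 - z) * muL p (T i) - t i))) with hL
  set F : (E → Λ) → ℝ := fun f => cost f + ∑ i ∈ I, (U f i + L f i) with hF
  have hEF : ∑ f, w f * F f < 1 := by
    have e1 : ∑ f, w f * F f = ∑ f, w f * cost f + ∑ i ∈ I, (∑ f, w f * U f i + ∑ f, w f * L f i) := by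
      have : ∀ f, w f * F f = w f * cost f + ∑ i ∈ I, (w f * U f i + w f * L f i) := by
        intro f
        simp only [hF]
        rw [mul_add, Finset.mul_sum]
        congr 1
        apply Finset.sum_congr rfl
        intro i _
        ring
      rw [Finset.sum_congr rfl (fun f _ => this f), Finset.sum_add_distrib, Finset.sum_comm]
      congr 1
      apply Finset.sum_congr rfl
      intro i _
      rw [Finset.sum_add_distrib]
    rw [e1]
    refine lt_of_le_of_lt (add_le_add_right ?_ _) hsum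
    apply Finset.sum_le_sum
    intro i _
    have a := upper p h0 h1 (T i) z (t i) hz hz1
    have b := lower p h0 h1 (T i) z (t i) hz hz1
    simp only [hU, hL, hw]
    linarith
  have hex : ∃ f, F f < 1 := by
    by_contra hcon
    push Not at hcon
    have : ∑ f, w f ≤ ∑ f, w f * F f := by
      apply Finset.sum_le_sum
      intro f _
      nlinarith [hw0 f, hcon f]
    linarith
  obtain ⟨f, hf⟩ := hex
  have hUL : ∀ i, 0 ≤ U f i + L f i := fun i => add_nonneg (Real.exp_pos _).le (Real.exp_pos _).le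
  have hs0 : 0 ≤ ∑ i ∈ I, (U f i + L f i) := Finset.sum_nonneg (fun i _ => hUL i)
  refine ⟨f, ?_, ?_⟩
  · simp only [hF] at hf
    linarith
  · intro i hi
    have hle : U f i + L f i ≤ ∑ j ∈ I, (U f j + L f j) :=
      Finset.single_le_sum (f := fun j => U f j + L f j) (fun j _ => hUL j) hi
    have hlt : U f i + L f i < 1 := by
      have := hc f
      simp only [hF] at hf
      linarith
    have hUp : 0 < U f i := Real.exp_pos _
    have hLp : 0 < L f i := Real.exp_pos _
    have hU1 : U f i < 1 := by linarith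
    have hL1 : L f i < 1 := by linarith
    constructor
    · have h2 : -z * (cntL f (T i) - ((1 - z) * muL p (T i) - t i)) < 0 := by
        have := hL1
        simp only [hL] at this
        exact Real.exp_lt_one_iff.mp this
      by_contra hcon
      push Not at hcon
      nlinarith
    · have h2 : z * (cntL f (T i) - ((1 + z) * muL p (T i) + t i)) < 0 := by
        have := hU1
        simp only [hU] at this
        exact Real.exp_lt_one_iff.mp this
      by_contra hcon
      push Not at hcon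
      nlinarith

theorem label {E Λ ι : Type} [Fintype E] [Fintype Λ] (p : E → Λ → ℝ) (h0 : ∀ e a, 0 ≤ p e a)
    (h1 : ∀ e, ∑ a, p e a = 1) (I : Finset ι) (T : ι → Finset (E × Λ)) (z : ℝ) (hz : 0 < z)
    (hz1 : z ≤ 1) (t : ι → ℝ) (hsum : ∑ i ∈ I, 2 * Real.exp (-(z * t i)) < 1) :
    ∃ f : E → Λ, ∀ i ∈ I, (1 - z) * muL p (T i) - t i ≤ cntL f (T i) ∧
      (cntL f (T i) : ℝ) ≤ (1 + z) * muL p (T i) + t i := by
  obtain ⟨f, _, hf⟩ := label_cost p h0 h1 I T z hz hz1 t (fun _ => 0) (fun _ => le_refl _)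
    (by simpa using hsum)
  exact ⟨f, hf⟩

end Pool.Agent.Lib.TriS
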