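import Pool.Agent.Lib.TriS.ResDefs
import Pool.Agent.Lib.TriS.Label

/-!
MODULE ResF. The reserved graph between different parts: `label` with the labels core, spare, nothing;
then for every pair of different parts a set of exactly `m` edges between the core and the core plus spare edges.
-/

/-!
MODULE ResF (about 260 lines; two theorems). The reserved graph between different parts.

PROOF of `resF_core`. `k = card X`, `D1 = |G| + r`, `dF = D1/10^11`, `x = 1/10^24`. `label` with elements the edges `e ∈ H` with `aU e.1 ≠ aV e.2`, `Λ = Fin 3` (0 = core, 1 = spare, 2 = nothing) with probabilities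
`(1-x) dF/k`, `3x dF/k`, rest (`dF ≤ k`), `z = 1/10^27`, `t = 8 * 10^27 L`. Tests for each of the labels 0 and 1: the edges at `u` (at `v`); the edges at `u` towards part `b` (at `v` from part `b`); the edges from part `a` to part `b`. At most
`2 (2N + 2NP + P²) ≤ exp (4L)` tests (`P ≤ P s ≤ exp L`, `L ≥ 10`). Numbers of edges of `H`: from part `a` to part `b ≠ a`: `∑_{u in a} (1 ± 1/10^25) k/P = (1 ± 1/10^25) s k/P` (`inn`, `cU`); at `u` to parts `≠ aU u`:
`card (nu u) - (1 ± 1/10^25) k/P ∈ [(1 - 2/10^25) k, k]` (`deg`, `miss`, `P1`). So with `M0 = dF s/P` (huge: `≥ 10^40 L`): core edges from `a` to `b`: `≤ (1+z)(1-x)(1+1/10^25) M0 + t ≤ M0 - 1`; core + spare: `≥ (1-z)(1+2x)(1-1/10^25) M0 - 2t ≥ M0`.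
Statement: `Fc ⊆ Fc ∪ Fs`, both bounds, and upper/lower bounds of the degrees.
PROOF of `resF`. `m = ⌊M0⌋₊`; for every `a ≠ b` choose `F_ab` with `Fc_ab ⊆ F_ab ⊆ Fc_ab ∪ Fs_ab`, `card = m` (`Finset.exists_subsuperset_card_eq`), `F` = union. Degrees lie between those of `Fc` and of `Fc ∪ Fs`. `2m/s ≥ 2 (M0 - 1)/s ≥ 2 dF/P - 2/s`.
-/

set_option autoImplicit false

open scoped Classical

noncomputable section

namespace Pool.Agent.Lib.TriS

/-- one side of the properties of core and spare edges; `dF = (|G| + r)/10^11` -/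
structure CoreSide {U V X : Type} [Fintype V] (Fc Fs : Finset (U × V)) (P : ℕ) (aV : V → Fin P)
    (G : Finset X) (r : ℕ) : Prop where
  lo : ∀ u, (1 - 2 / 10 ^ 24) * (1 / 10 ^ 11 * ((G.card : ℝ) + r)) ≤ (nb Fc u).card
  hi : ∀ u, ((nb (Fc ∪ Fs) u).card : ℝ) ≤ (1 + 3 / 10 ^ 24) * (1 / 10 ^ 11 * ((G.card : ℝ) + r))
  hia : ∀ u b, (((nb (Fc ∪ Fs) u).filter fun v => aV v = b).card : ℝ) ≤
    11 / 10 * (1 / 10 ^ 11 * ((G.card : ℝ) + r) / P)

private theorem resF_lab {U V : Type} [Fintype U] [Fintype V] (W : Finset (U × V)) (J : ℕ)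
    (p : ℕ → ℝ) (hp0 : ∀ j, 0 ≤ p j) (hp1 : ∑ j ∈ Finset.range J, p j ≤ 1) {ι : Type}
    (I : Finset ι) (Q : ι → U × V → Prop) (A : ι → Finset ℕ) (hA : ∀ i, A i ⊆ Finset.range J)
    (t : ι → ℝ) (z : ℝ) (hz : 0 < z) (hz1 : z ≤ 1)
    (hs : ∑ i ∈ I, 2 * Real.exp (-(z * t i)) < 1) :
    ∃ R : ℕ → Finset (U × V), (∀ i j, i ≠ j → Disjoint (R i) (R j)) ∧ (∀ j, R j ⊆ W) ∧
      ∀ i ∈ I, (1 - z) * (((W.filter (Q i)).card : ℝ) * ∑ j ∈ A i, p j) - t i ≤
          ((((A i).biUnion R).filter (Q i)).card : ℝ) ∧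
        ((((A i).biUnion R).filter (Q i)).card : ℝ) ≤
          (1 + z) * (((W.filter (Q i)).card : ℝ) * ∑ j ∈ A i, p j) + t i := by
  have hsub : ∀ i, ∀ j ∈ A i, j < J := fun i j hj => Finset.mem_range.1 (hA i hj)
  obtain ⟨f, hf⟩ := label (E := W) (Λ := Fin (J + 1)) (ι := ι)
    (fun _ a => if (a : ℕ) < J then p a else 1 - ∑ j ∈ Finset.range J, p j)
    (by
      intro e a
      split_ifs
      · exact hp0 _
      · linarith)
    (by
      intro e
      rw [Fin.sum_univ_eq_sum_range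
        (fun a : ℕ => if a < J then p a else 1 - ∑ j ∈ Finset.range J, p j) (J + 1),
        Finset.sum_range_succ, if_neg (lt_irrefl J),
        Finset.sum_congr rfl fun a ha => if_pos (Finset.mem_range.1 ha)]
      ring)
    I (fun i => Finset.univ.filter fun q : W × Fin (J + 1) => Q i q.1 ∧ (q.2 : ℕ) ∈ A i)
    z hz hz1 t hs
  have hmem : ∀ (j : ℕ) (e : U × V), e ∈ (Finset.univ.filter fun e : W =>
      (f e : ℕ) = j ∧ j < J).map (Function.Embedding.subtype _) ↔
      ∃ h : e ∈ W, (f ⟨e, h⟩ : ℕ) = j ∧ j < J := by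
    intro j e
    simp only [Finset.mem_map, Finset.mem_filter, Finset.mem_univ, true_and,
      Function.Embedding.coe_subtype]
    constructor
    · rintro ⟨⟨e', he'⟩, h1, rfl⟩
      exact ⟨he', h1⟩
    · rintro ⟨h, h1⟩
      exact ⟨⟨e, h⟩, h1, rfl⟩
  refine ⟨fun j => (Finset.univ.filter fun e : W => (f e : ℕ) = j ∧ j < J).map
    (Function.Embedding.subtype _), ?_, ?_, ?_⟩
  · intro i j hij
    rw [Finset.disjoint_left]
    intro e he he'
    rw [hmem] at he he'
    obtain ⟨h, h1, _⟩ := he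
    obtain ⟨_, h2, _⟩ := he'
    exact hij (h1.symm.trans h2)
  · intro j e he
    obtain ⟨h, _⟩ := (hmem j e).1 he
    exact h
  · intro i hi
    have h1 := hf i hi
    have hmu : muL (fun (_ : W) (a : Fin (J + 1)) =>
        if (a : ℕ) < J then p a else 1 - ∑ j ∈ Finset.range J, p j)
        (Finset.univ.filter fun q : W × Fin (J + 1) => Q i q.1 ∧ (q.2 : ℕ) ∈ A i) =
        ((W.filter (Q i)).card : ℝ) * ∑ j ∈ A i, p j := by
      unfold muL
      have e1 : (Finset.univ.filter fun q : W × Fin (J + 1) => Q i q.1 ∧ (q.2 : ℕ) ∈ A i) =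
          (Finset.univ.filter fun e : W => Q i e) ×ˢ
            (Finset.univ.filter fun a : Fin (J + 1) => (a : ℕ) ∈ A i) := by
        ext q
        simp only [Finset.mem_filter, Finset.mem_univ, true_and, Finset.mem_product]
      have e2 : ∑ a ∈ Finset.univ.filter (fun a : Fin (J + 1) => (a : ℕ) ∈ A i),
          (if (a : ℕ) < J then p a else 1 - ∑ j ∈ Finset.range J, p j) = ∑ j ∈ A i, p j := by
        rw [Finset.sum_filter, Fin.sum_univ_eq_sum_range (fun a : ℕ => if a ∈ A i then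
          (if a < J then p a else 1 - ∑ j ∈ Finset.range J, p j) else 0) (J + 1),
          ← Finset.sum_filter]
        have e3 : (Finset.range (J + 1)).filter (fun a => a ∈ A i) = A i := by
          ext a
          simp only [Finset.mem_filter, Finset.mem_range]
          constructor
          · exact fun h => h.2
          · exact fun h => ⟨(hsub i a h).trans (Nat.lt_succ_self J), h⟩
        rw [e3]
        exact Finset.sum_congr rfl fun a ha => if_pos (hsub i a ha)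
      have e4 : (Finset.univ.filter fun e : W => Q i e).card = (W.filter (Q i)).card := by
        rw [← Finset.card_map (Function.Embedding.subtype _)]
        congr 1
        ext e
        simp only [Finset.mem_map, Finset.mem_filter, Finset.mem_univ, true_and,
          Function.Embedding.coe_subtype]
        constructor
        · rintro ⟨⟨e', he'⟩, h1, rfl⟩
          exact ⟨he', h1⟩
        · rintro ⟨h, h1⟩
          exact ⟨⟨e, h⟩, h1, rfl⟩
      rw [e1, Finset.sum_product]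
      simp only
      rw [e2, Finset.sum_const, nsmul_eq_mul, e4]
    have hcnt : cntL f (Finset.univ.filter fun q : W × Fin (J + 1) => Q i q.1 ∧ (q.2 : ℕ) ∈ A i) =
        (((A i).biUnion fun j => (Finset.univ.filter fun e : W => (f e : ℕ) = j ∧ j < J).map
          (Function.Embedding.subtype _)).filter (Q i)).card := by
      unfold cntL
      rw [← Finset.card_map (Function.Embedding.subtype _)]
      congr 1
      ext e
      rw [Finset.mem_filter, Finset.mem_biUnion]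
      simp only [hmem]
      simp only [Finset.mem_map, Finset.mem_filter, Finset.mem_univ, true_and,
        Function.Embedding.coe_subtype]
      constructor
      · rintro ⟨⟨e', he'⟩, h2, rfl⟩
        exact ⟨⟨_, h2.2, he', rfl, hsub i _ h2.2⟩, h2.1⟩
      · rintro ⟨⟨j, hj, h, h2, _⟩, h3⟩
        refine ⟨⟨e, h⟩, ⟨h3, ?_⟩, rfl⟩
        rw [h2]
        exact hj
    rw [hmu, hcnt] at h1
    exact h1

private theorem resF_nb {U V : Type} [Fintype V] (K : Finset (U × V)) (u : U) (P : V → Prop)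
    [DecidablePred P] (Q : U × V → Prop) [DecidablePred Q] (hQ : ∀ e, Q e ↔ e.1 = u ∧ P e.2) :
    ((nb K u).filter P).card = (K.filter Q).card := by
  refine Finset.card_bij (fun v _ => (u, v)) ?_ ?_ ?_
  · intro v hv
    rw [Finset.mem_filter, mem_nb] at hv
    rw [Finset.mem_filter, hQ]
    exact ⟨hv.1, rfl, hv.2⟩
  · intro v _ v' _ h
    exact (Prod.mk.inj h).2
  · rintro ⟨u', v⟩ h
    rw [Finset.mem_filter, hQ] at h
    obtain ⟨h1, h2, h3⟩ := h
    simp only at h2 h3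
    subst h2
    exact ⟨v, Finset.mem_filter.2 ⟨mem_nb.2 h1, h3⟩, rfl⟩

private theorem resF_nbt {U V : Type} [Fintype U] (K : Finset (U × V)) (v : V) (P : U → Prop)
    [DecidablePred P] (Q : U × V → Prop) [DecidablePred Q] (hQ : ∀ e, Q e ↔ e.2 = v ∧ P e.1) :
    ((nb (tr K) v).filter P).card = (K.filter Q).card := by
  refine Finset.card_bij (fun u _ => (u, v)) ?_ ?_ ?_
  · intro u hu
    rw [Finset.mem_filter, mem_nb, mem_tr] at hu
    rw [Finset.mem_filter, hQ]
    exact ⟨hu.1, rfl, hu.2⟩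
  · intro u _ u' _ h
    exact (Prod.mk.inj h).1
  · rintro ⟨u, v'⟩ h
    rw [Finset.mem_filter, hQ] at h
    obtain ⟨h1, h2, h3⟩ := h
    simp only at h2 h3
    subst h2
    exact ⟨u, Finset.mem_filter.2 ⟨mem_nb.2 (mem_tr.2 h1), h3⟩, rfl⟩

/-- numerical facts: `k` colours, `d = dF`, `P` parts, `s` size of the parts -/
private structure RFNum (k d P s L : ℝ) : Prop where
  k0 : 0 < k
  d0 : 10 ^ 49 * (P * L) ≤ d
  dk : 2 * d ≤ k
  L1 : 1 ≤ L
  P1 : 10 ^ 60 ≤ P
  s1 : 10 ^ 60 ≤ s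

private theorem resF_num {U V X : Type} [Fintype U] [Fintype V] [Fintype X] (H : Finset (U × V))
    (nu : U → Finset X) (nv : V → Finset X) (P : ℕ) (aU : U → Fin P) (aV : V → Fin P)
    (hub : Fin P → Finset X) (G : Finset X) (s r : ℕ) (L η : ℝ)
    (h : SInst H nu nv P aU aV hub G s r L η) :
    RFNum (Fintype.card X : ℝ) (1 / 10 ^ 11 * ((G.card : ℝ) + r)) (P : ℝ) (s : ℝ) L := by
  have hL := h.L1
  have hP := h.P1
  have hP1 : (1 : ℝ) ≤ P := le_trans (by norm_num) hP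
  have hG1 := h.G1
  have hG2 := h.G2
  have hr := h.r2
  have hr0 : (0 : ℝ) ≤ (r : ℝ) := Nat.cast_nonneg r
  have hPL : L ≤ (P : ℝ) * L := le_mul_of_one_le_left (by linarith) hP1
  have hG0 : (1 : ℝ) ≤ G.card := by nlinarith
  have hGk : 10 ^ 60 * (G.card : ℝ) ≤ Fintype.card X := by
    have e1 : (G.card : ℝ) ≤ (P : ℝ) * G.card := le_mul_of_one_le_left (by linarith) hP1
    have e2 : 10 ^ 60 * (G.card : ℝ) ≤ 10 ^ 60 * ((P : ℝ) * G.card) :=
      mul_le_mul_of_nonneg_left e1 (by norm_num)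
    linarith
  have hrG : (r : ℝ) ≤ G.card := by linarith
  refine ⟨by linarith, by linarith, by linarith, hL, hP, ?_⟩
  have h3 := h.s3
  have e1 : (1 : ℝ) ≤ (P : ℝ) ^ 2 * L := by
    have : (1 : ℝ) ≤ (P : ℝ) ^ 2 := one_le_pow₀ hP1
    nlinarith
  linarith

private theorem resF_side {U V X : Type} [Fintype U] [Fintype V] [Fintype X]
    (H W Fc Fs : Finset (U × V)) (nu : U → Finset X) (nv : V → Finset X) (P : ℕ)
    (aU : U → Fin P) (aV : V → Fin P) (hub : Fin P → Finset X) (G : Finset X) (s r : ℕ)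
    (L : ℝ) (h : SSide H nu nv P aU aV hub G s (1 / 10 ^ 25))
    (hW : ∀ p, p ∈ W ↔ p ∈ H ∧ aU p.1 ≠ aV p.2)
    (hn : RFNum (Fintype.card X : ℝ) (1 / 10 ^ 11 * ((G.card : ℝ) + r)) (P : ℝ) (s : ℝ) L)
    (h1 : ∀ u, (1 - 1 / 10 ^ 27) * (((nb W u).card : ℝ) *
      ((1 - 1 / 10 ^ 24) * (1 / 10 ^ 11 * ((G.card : ℝ) + r) / Fintype.card X))) -
        8 * 10 ^ 27 * L ≤ (nb Fc u).card)
    (h2 : ∀ u, ((nb (Fc ∪ Fs) u).card : ℝ) ≤ (1 + 1 / 10 ^ 27) * (((nb W u).card : ℝ) *
      ((1 + 2 / 10 ^ 24) * (1 / 10 ^ 11 * ((G.card : ℝ) + r) / Fintype.card X))) +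
        8 * 10 ^ 27 * L)
    (h3 : ∀ u b, (((nb (Fc ∪ Fs) u).filter fun v => aV v = b).card : ℝ) ≤
      (1 + 1 / 10 ^ 27) * ((((nb W u).filter fun v => aV v = b).card : ℝ) *
      ((1 + 2 / 10 ^ 24) * (1 / 10 ^ 11 * ((G.card : ℝ) + r) / Fintype.card X))) +
        8 * 10 ^ 27 * L) :
    CoreSide Fc Fs P aV G r := by
  obtain ⟨hk0, hd0, hdk, hL, hP, hs⟩ := hn
  set d : ℝ := 1 / 10 ^ 11 * ((G.card : ℝ) + r) with hd
  set k : ℝ := (Fintype.card X : ℝ) with hk
  have hPL : 10 ^ 60 * L ≤ (P : ℝ) * L := mul_le_mul_of_nonneg_right hP (by linarith)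
  have hd1 : 10 ^ 49 * (10 ^ 60 * L) ≤ d :=
    le_trans (mul_le_mul_of_nonneg_left hPL (by norm_num)) hd0
  have hdpos : 0 < d := by linarith
  have hPpos : (0 : ℝ) < P := by linarith
  set q : ℝ := d / k with hq
  have hqk : k * q = d := by rw [hq]; field_simp
  have hq0 : 0 < q := div_pos hdpos hk0
  have hnu : ∀ u, ((nb W u).card : ℝ) ≤ k := by
    intro u
    have e1 : nb W u ⊆ nb H u := nb_mono (fun p hp => ((hW p).1 hp).1) u
    have e2 : ((nb W u).card : ℝ) ≤ (nb H u).card := by exact_mod_cast Finset.card_le_card e1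
    rw [h.deg u] at e2
    have e3 : ((nu u).card : ℝ) ≤ k := by
      rw [hk]
      exact_mod_cast Finset.card_le_univ (nu u)
    linarith
  have hkP : k / (P : ℝ) ≤ k / 10 ^ 60 := div_le_div_of_nonneg_left hk0.le (by norm_num) hP
  have hnl : ∀ u, (1 - 2 / 10 ^ 25) * k ≤ ((nb W u).card : ℝ) := by
    intro u
    have e1 : (nb W u).card + ((nb H u).filter fun v => aV v = aU u).card = (nb H u).card := by
      rw [← Finset.card_filter_add_card_filter_not (s := nb H u) (fun v => aV v = aU u), add_comm]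
      congr 2
      ext v
      simp only [mem_nb, Finset.mem_filter, hW]
      constructor
      · rintro ⟨a, b⟩
        exact ⟨a, fun c => b c.symm⟩
      · rintro ⟨a, b⟩
        exact ⟨a, fun c => b c.symm⟩
    have e2 : ((nb W u).card : ℝ) + ((nb H u).filter fun v => aV v = aU u).card = (nu u).card := by
      rw [← h.deg u]
      exact_mod_cast e1
    have e3 := h.miss u
    have e4 : ((nu u).card : ℝ) + ((nu u)ᶜ).card = k := by
      rw [hk]
      exact_mod_cast Finset.card_add_card_compl (nu u)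
    have e5 := (abs_le.1 (h.inn u (aU u))).2
    linarith
  have hni : ∀ u b, (((nb W u).filter fun v => aV v = b).card : ℝ) ≤
      (1 + 1 / 10 ^ 25) * (k / P) := by
    intro u b
    have e1 : (nb W u).filter (fun v => aV v = b) ⊆ (nb H u).filter (fun v => aV v = b) :=
      Finset.filter_subset_filter _ (nb_mono (fun p hp => ((hW p).1 hp).1) u)
    have e2 : (((nb W u).filter fun v => aV v = b).card : ℝ) ≤
      ((nb H u).filter fun v => aV v = b).card := by exact_mod_cast Finset.card_le_card e1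
    have e5 := (abs_le.1 (h.inn u b)).2
    linarith
  refine ⟨fun u => ?_, fun u => ?_, fun u b => ?_⟩
  · have e1 := h1 u
    have e2 : (1 - 2 / 10 ^ 25) * ((1 - 1 / 10 ^ 24) * d) ≤
        ((nb W u).card : ℝ) * ((1 - 1 / 10 ^ 24) * q) := by
      have f1 := mul_le_mul_of_nonneg_right (hnl u)
        (by positivity : (0 : ℝ) ≤ (1 - 1 / 10 ^ 24) * q)
      calc (1 - 2 / 10 ^ 25) * ((1 - 1 / 10 ^ 24) * d)
          = (1 - 2 / 10 ^ 25) * k * ((1 - 1 / 10 ^ 24) * q) := by rw [← hqk]; ring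
        _ ≤ _ := f1
    linarith
  · have e1 := h2 u
    have e2 : ((nb W u).card : ℝ) * ((1 + 2 / 10 ^ 24) * q) ≤ (1 + 2 / 10 ^ 24) * d := by
      have f1 := mul_le_mul_of_nonneg_right (hnu u)
        (by positivity : (0 : ℝ) ≤ (1 + 2 / 10 ^ 24) * q)
      calc _ ≤ k * ((1 + 2 / 10 ^ 24) * q) := f1
        _ = (1 + 2 / 10 ^ 24) * d := by rw [← hqk]; ring
    linarith
  · have e1 := h3 u b
    have e2 : (((nb W u).filter fun v => aV v = b).card : ℝ) * ((1 + 2 / 10 ^ 24) * q) ≤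
        (1 + 1 / 10 ^ 25) * ((1 + 2 / 10 ^ 24) * (d / P)) := by
      have f1 := mul_le_mul_of_nonneg_right (hni u b)
        (by positivity : (0 : ℝ) ≤ (1 + 2 / 10 ^ 24) * q)
      calc _ ≤ (1 + 1 / 10 ^ 25) * (k / P) * ((1 + 2 / 10 ^ 24) * q) := f1
        _ = (1 + 1 / 10 ^ 25) * ((1 + 2 / 10 ^ 24) * (d / P)) := by rw [← hqk]; ring
    have e3 : 10 ^ 49 * L ≤ d / P := by
      rw [le_div_iff₀ hPpos]
      calc 10 ^ 49 * L * P = 10 ^ 49 * (P * L) := by ring
        _ ≤ d := hd0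
    show _ ≤ 11 / 10 * (d / P)
    linarith

/-- the predicates of the tests at a vertex -/
private def rfQ {U V : Type} {P : ℕ} (aU : U → Fin P) (aV : V → Fin P) :
    (U ⊕ V) → Option (Fin P) → U × V → Prop
  | Sum.inl u, none, e => e.1 = u ∧ True
  | Sum.inl u, some b, e => e.1 = u ∧ aV e.2 = b
  | Sum.inr v, none, e => e.2 = v ∧ True
  | Sum.inr v, some a, e => e.2 = v ∧ aU e.1 = a

private def rfE {U V : Type} {P : ℕ} (aU : U → Fin P) (aV : V → Fin P) (a b : Fin P)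
    (e : U × V) : Prop := aU e.1 = a ∧ aV e.2 = b

private theorem resF_sum {U V : Type} [Fintype U] [Fintype V] (P : ℕ) (L : ℝ) (hL : 1 ≤ L)
    (hU : (Fintype.card U : ℝ) ≤ Real.exp L) (hV : (Fintype.card V : ℝ) ≤ Real.exp L)
    (hP : (P : ℝ) ≤ Real.exp L) :
    (∑ _i : Bool × (U ⊕ V) × Option (Fin P), 2 * Real.exp (-(8 * L))) +
      ∑ _i : Bool × Fin P × Fin P, 2 * Real.exp (-(8 * L)) < 1 := by
  have hpos := Real.exp_pos L
  have h5 : 2 ≤ Real.exp L := by
    have := Real.add_one_le_exp L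
    linarith
  have e1 : (Fintype.card (Bool × (U ⊕ V) × Option (Fin P)) : ℝ) =
      2 * ((Fintype.card U + Fintype.card V) * (P + 1)) := by
    rw [Fintype.card_prod, Fintype.card_prod, Fintype.card_sum,
      Fintype.card_option, Fintype.card_fin, Fintype.card_bool]
    push_cast
    ring
  have e2 : (Fintype.card (Bool × Fin P × Fin P) : ℝ) = 2 * (P * P) := by
    rw [Fintype.card_prod, Fintype.card_prod, Fintype.card_fin, Fintype.card_bool]
    push_cast
    ring
  rw [Finset.sum_const, Finset.card_univ, nsmul_eq_mul, Finset.sum_const, Finset.card_univ,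
    nsmul_eq_mul, e1, e2]
  have hP0 : (0 : ℝ) ≤ P := Nat.cast_nonneg P
  have f1 : ((Fintype.card U : ℝ) + Fintype.card V) * (P + 1) ≤
      (2 * Real.exp L) * (2 * Real.exp L) := by
    refine mul_le_mul (by linarith) (by linarith) (by positivity) (by positivity)
  have f2 : (P : ℝ) * P ≤ Real.exp L * Real.exp L := mul_le_mul hP hP hP0 hpos.le
  set y := Real.exp (-L) with hy
  have hxy : Real.exp L * y = 1 := by
    rw [hy, ← Real.exp_add]
    simp
  have hy0 : 0 < y := Real.exp_pos _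
  have hyl : y ≤ 1 / 2 := by
    nlinarith
  have e8 : Real.exp (-(8 * L)) = y ^ 8 := by
    rw [hy, ← Real.exp_nat_mul]
    congr 1
    push_cast
    ring
  rw [e8]
  have g1 : (2 * (((Fintype.card U : ℝ) + Fintype.card V) * (P + 1)) + 2 * (P * P)) ≤
      10 * (Real.exp L * Real.exp L) := by linarith
  have g2 : (Real.exp L * Real.exp L) * y ^ 8 = y ^ 6 := by
    calc (Real.exp L * Real.exp L) * y ^ 8 = (Real.exp L * y) * (Real.exp L * y) * y ^ 6 := by ring
      _ = y ^ 6 := by rw [hxy]; ring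
  have g3 : y ^ 6 ≤ (1 / 2) ^ 6 := pow_le_pow_left₀ hy0.le hyl 6
  have g4 : (2 * (((Fintype.card U : ℝ) + Fintype.card V) * (P + 1)) + 2 * (P * P)) *
      (2 * y ^ 8) ≤ 10 * (Real.exp L * Real.exp L) * (2 * y ^ 8) :=
    mul_le_mul_of_nonneg_right g1 (by positivity)
  have g5 : 10 * (Real.exp L * Real.exp L) * (2 * y ^ 8) = 20 * y ^ 6 := by
    rw [← g2]; ring
  have g6 : (20 : ℝ) * (1 / 2) ^ 6 < 1 := by norm_num
  calc 2 * (((Fintype.card U : ℝ) + Fintype.card V) * (P + 1)) * (2 * y ^ 8) +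
        2 * (P * P) * (2 * y ^ 8)
      = (2 * (((Fintype.card U : ℝ) + Fintype.card V) * (P + 1)) + 2 * (P * P)) *
        (2 * y ^ 8) := by ring
    _ ≤ 20 * y ^ 6 := by rw [← g5]; exact g4
    _ < 1 := by linarith

/-- edges between two different parts -/
private theorem resF_cnt {U V X : Type} [Fintype U] [Fintype V] [Fintype X]
    (H W : Finset (U × V)) (nu : U → Finset X) (nv : V → Finset X) (P : ℕ)
    (aU : U → Fin P) (aV : V → Fin P) (hub : Fin P → Finset X) (G : Finset X) (s : ℕ)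
    (h : SSide H nu nv P aU aV hub G s (1 / 10 ^ 25))
    (hW : ∀ p, p ∈ W ↔ p ∈ H ∧ aU p.1 ≠ aV p.2) (a b : Fin P) (hab : a ≠ b) :
    (1 - 1 / 10 ^ 25) * (s * ((Fintype.card X : ℝ) / P)) ≤
      ((W.filter fun p => aU p.1 = a ∧ aV p.2 = b).card : ℝ) ∧
    ((W.filter fun p => aU p.1 = a ∧ aV p.2 = b).card : ℝ) ≤
      (1 + 1 / 10 ^ 25) * (s * ((Fintype.card X : ℝ) / P)) := by
  have e1 : (W.filter fun p => aU p.1 = a ∧ aV p.2 = b).card =
      ∑ u ∈ Finset.univ.filter (fun u => aU u = a), ((nb H u).filter fun v => aV v = b).card := by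
    rw [Finset.card_eq_sum_card_fiberwise (f := Prod.fst)
      (t := Finset.univ.filter (fun u => aU u = a))]
    · refine Finset.sum_congr rfl fun u hu => ?_
      refine Finset.card_bij (fun p _ => p.2) ?_ ?_ ?_
      · rintro ⟨u', v⟩ hp
        simp only [Finset.mem_filter, hW] at hp
        obtain ⟨⟨⟨h1, h2⟩, h3, h4⟩, h5⟩ := hp
        subst h5
        simp only [Finset.mem_filter, mem_nb]
        exact ⟨h1, h4⟩
      · rintro ⟨u', v⟩ hp ⟨u'', v'⟩ hp' hh
        simp only [Finset.mem_filter] at hp hp'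
        simp only at hh
        rw [hp.2, hp'.2, hh]
      · intro v hv
        simp only [Finset.mem_filter, mem_nb] at hv
        simp only [Finset.mem_filter, Finset.mem_univ, true_and] at hu
        refine ⟨(u, v), ?_, rfl⟩
        simp only [Finset.mem_filter, hW]
        refine ⟨⟨⟨hv.1, ?_⟩, hu, hv.2⟩, trivial⟩
        rw [hu, hv.2]
        exact hab
    · intro p hp
      have := (Finset.mem_filter.1 (Finset.mem_coe.1 hp)).2.1
      simp [this]
  have e2 : ((W.filter fun p => aU p.1 = a ∧ aV p.2 = b).card : ℝ) =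
      ∑ u ∈ Finset.univ.filter (fun u => aU u = a),
        (((nb H u).filter fun v => aV v = b).card : ℝ) := by
    rw [e1]
    push_cast
    rfl
  rw [e2]
  have hc := h.cU a
  constructor
  · have f1 := Finset.card_nsmul_le_sum (Finset.univ.filter (fun u => aU u = a))
      (fun u => (((nb H u).filter fun v => aV v = b).card : ℝ))
      ((1 - 1 / 10 ^ 25) * ((Fintype.card X : ℝ) / P)) (by
        intro u _
        have := (abs_le.1 (h.inn u b)).1
        linarith)
    rw [hc, nsmul_eq_mul] at f1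
    calc _ = (s : ℝ) * ((1 - 1 / 10 ^ 25) * ((Fintype.card X : ℝ) / P)) := by ring
      _ ≤ _ := f1
  · have f1 := Finset.sum_le_card_nsmul (Finset.univ.filter (fun u => aU u = a))
      (fun u => (((nb H u).filter fun v => aV v = b).card : ℝ))
      ((1 + 1 / 10 ^ 25) * ((Fintype.card X : ℝ) / P)) (by
        intro u _
        have := (abs_le.1 (h.inn u b)).2
        linarith)
    rw [hc, nsmul_eq_mul] at f1
    calc _ ≤ (s : ℝ) * ((1 + 1 / 10 ^ 25) * ((Fintype.card X : ℝ) / P)) := f1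
      _ = _ := by ring

private theorem resF_cardU {U : Type} [Fintype U] (P s : ℕ) (aU : U → Fin P)
    (h : ∀ a, (Finset.univ.filter fun u => aU u = a).card = s) : Fintype.card U = P * s := by
  rw [← Finset.card_univ, Finset.card_eq_sum_card_fiberwise (f := aU) (t := Finset.univ)
    (fun _ _ => Finset.mem_coe.2 (Finset.mem_univ _)), Finset.sum_congr rfl fun a _ => h a,
    Finset.sum_const, Finset.card_univ, Fintype.card_fin, smul_eq_mul]

theorem resF_core {U V X : Type} [Fintype U] [Fintype V] [Fintype X] (H : Finset (U × V))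
    (nu : U → Finset X) (nv : V → Finset X) (P : ℕ) (aU : U → Fin P) (aV : V → Fin P)
    (hub : Fin P → Finset X) (G : Finset X) (s r : ℕ) (L : ℝ)
    (h : SInst H nu nv P aU aV hub G s r L (1 / 10 ^ 25)) :
    ∃ Fc Fs : Finset (U × V), Disjoint Fc Fs ∧ (∀ p ∈ Fc ∪ Fs, p ∈ H ∧ aU p.1 ≠ aV p.2) ∧
      CoreSide Fc Fs P aV G r ∧ CoreSide (tr Fc) (tr Fs) P aU G r ∧
      (∀ a b, a ≠ b → ((Fc.filter fun p => aU p.1 = a ∧ aV p.2 = b).card : ℝ) ≤
        1 / 10 ^ 11 * ((G.card : ℝ) + r) * s / P - 1) ∧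
      ∀ a b, a ≠ b → 1 / 10 ^ 11 * ((G.card : ℝ) + r) * s / P ≤
        (((Fc ∪ Fs).filter fun p => aU p.1 = a ∧ aV p.2 = b).card : ℝ) := by
  have hn := resF_num H nu nv P aU aV hub G s r L _ h
  obtain ⟨hk0, hd0, hdk, hL, hP, hs⟩ := id hn
  have hPpos : (0 : ℝ) < P := by linarith
  have hspos : (0 : ℝ) < s := by linarith
  have hPL : 10 ^ 60 * L ≤ (P : ℝ) * L := mul_le_mul_of_nonneg_right hP (by linarith)
  have hd1 : 10 ^ 49 * (10 ^ 60 * L) ≤ 1 / 10 ^ 11 * ((G.card : ℝ) + r) :=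
    le_trans (mul_le_mul_of_nonneg_left hPL (by norm_num)) hd0
  have hdpos : 0 < 1 / 10 ^ 11 * ((G.card : ℝ) + r) := by linarith
  have hq0 : 0 < 1 / 10 ^ 11 * ((G.card : ℝ) + r) / (Fintype.card X : ℝ) := div_pos hdpos hk0
  have hq1 : 2 * (1 / 10 ^ 11 * ((G.card : ℝ) + r) / (Fintype.card X : ℝ)) ≤ 1 := by
    rw [← mul_div_assoc, div_le_one hk0]
    exact hdk
  obtain ⟨q, hq⟩ : ∃ q, q = 1 / 10 ^ 11 * ((G.card : ℝ) + r) / (Fintype.card X : ℝ) := ⟨_, rfl⟩
  rw [← hq] at hq0 hq1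
  have hcU : (Fintype.card U : ℝ) ≤ Real.exp L := by
    rw [resF_cardU P s aU h.s1.cU]
    push_cast
    exact h.NL
  have hcV : (Fintype.card V : ℝ) ≤ Real.exp L := by
    rw [resF_cardU P s aV h.s2.cU]
    push_cast
    exact h.NL
  have hcP : (P : ℝ) ≤ Real.exp L :=
    le_trans (le_mul_of_one_le_right hPpos.le (by linarith)) h.NL
  obtain ⟨R, hR1, hR2, hR3⟩ := resF_lab (H.filter fun p => aU p.1 ≠ aV p.2) 2
    (fun j => if j = 0 then (1 - 1 / 10 ^ 24) * q else if j = 1 then 3 / 10 ^ 24 * q else 0)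
    (by
      intro j
      split_ifs <;> positivity)
    (by
      rw [Finset.sum_range_succ, Finset.sum_range_one]
      simp only [if_true, one_ne_zero, if_false]
      linarith)
    (ι := (Bool × (U ⊕ V) × Option (Fin P)) ⊕ (Bool × Fin P × Fin P))
    Finset.univ
    (Sum.elim (fun i => rfQ aU aV i.2.1 i.2.2) fun i => rfE aU aV i.2.1 i.2.2)
    (Sum.elim (fun i => if i.1 then {0} else {0, 1}) fun i => if i.1 then {0} else {0, 1})
    (by
      rintro (⟨b, i⟩ | ⟨b, i⟩) <;> cases b <;> simp <;> decide)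
    (fun _ => 8 * 10 ^ 27 * L)
    (1 / 10 ^ 27) (by norm_num) (by norm_num)
    (by
      rw [Fintype.sum_sum_type]
      refine lt_of_eq_of_lt ?_ (resF_sum (U := U) (V := V) P L hL hcU hcV hcP)
      have e1 : (1 : ℝ) / 10 ^ 27 * (8 * 10 ^ 27 * L) = 8 * L := by ring
      rw [e1])
  have hb1 : ({0} : Finset ℕ).biUnion R = R 0 := Finset.singleton_biUnion
  have hb2 : ({0, 1} : Finset ℕ).biUnion R = R 0 ∪ R 1 := by
    rw [Finset.biUnion_insert, Finset.singleton_biUnion]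
  have hp1 : ∑ j ∈ ({0} : Finset ℕ), (if j = 0 then (1 - 1 / 10 ^ 24) * q else
      if j = 1 then 3 / 10 ^ 24 * q else 0) = (1 - 1 / 10 ^ 24) * q := by
    rw [Finset.sum_singleton, if_pos rfl]
  have hp2 : ∑ j ∈ ({0, 1} : Finset ℕ), (if j = 0 then (1 - 1 / 10 ^ 24) * q else
      if j = 1 then 3 / 10 ^ 24 * q else 0) = (1 + 2 / 10 ^ 24) * q := by
    rw [Finset.sum_pair (by norm_num), if_pos rfl, if_neg (by norm_num), if_pos rfl]
    ring
  have hT0 : ∀ (w : U ⊕ V) (o : Option (Fin P)),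
      (1 - 1 / 10 ^ 27) * ((((H.filter fun p => aU p.1 ≠ aV p.2).filter
        (rfQ aU aV w o)).card : ℝ) * ((1 - 1 / 10 ^ 24) * q)) - 8 * 10 ^ 27 * L ≤
        (((R 0).filter (rfQ aU aV w o)).card : ℝ) := by
    intro w o
    have := (hR3 (Sum.inl (true, w, o)) (Finset.mem_univ _)).1
    simp only [Sum.elim_inl, if_true] at this
    rw [hb1, hp1] at this
    exact this
  have hT1 : ∀ (w : U ⊕ V) (o : Option (Fin P)),
      (((R 0 ∪ R 1).filter (rfQ aU aV w o)).card : ℝ) ≤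
      (1 + 1 / 10 ^ 27) * ((((H.filter fun p => aU p.1 ≠ aV p.2).filter
        (rfQ aU aV w o)).card : ℝ) * ((1 + 2 / 10 ^ 24) * q)) + 8 * 10 ^ 27 * L := by
    intro w o
    have := (hR3 (Sum.inl (false, w, o)) (Finset.mem_univ _)).2
    simp only [Sum.elim_inl, Bool.false_eq_true, if_false] at this
    rw [hb2, hp2] at this
    exact this
  have hE : ∀ (a b : Fin P) (K : Finset (U × V)), K.filter (rfE aU aV a b) =
      K.filter fun p => aU p.1 = a ∧ aV p.2 = b := fun a b K =>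
    Finset.filter_congr fun _ _ => Iff.rfl
  have hP0 : ∀ a b : Fin P, (((R 0).filter fun p => aU p.1 = a ∧ aV p.2 = b).card : ℝ) ≤
      (1 + 1 / 10 ^ 27) * ((((H.filter fun p => aU p.1 ≠ aV p.2).filter
        fun p => aU p.1 = a ∧ aV p.2 = b).card : ℝ) * ((1 - 1 / 10 ^ 24) * q)) +
        8 * 10 ^ 27 * L := by
    intro a b
    have := (hR3 (Sum.inr (true, a, b)) (Finset.mem_univ _)).2
    simp only [Sum.elim_inr, if_true] at this
    rw [hb1, hp1] at this
    rw [← hE, ← hE]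
    exact this
  have hP1 : ∀ a b : Fin P, (1 - 1 / 10 ^ 27) * ((((H.filter fun p => aU p.1 ≠ aV p.2).filter
        fun p => aU p.1 = a ∧ aV p.2 = b).card : ℝ) * ((1 + 2 / 10 ^ 24) * q)) -
        8 * 10 ^ 27 * L ≤ (((R 0 ∪ R 1).filter fun p => aU p.1 = a ∧ aV p.2 = b).card : ℝ) := by
    intro a b
    have := (hR3 (Sum.inr (false, a, b)) (Finset.mem_univ _)).1
    simp only [Sum.elim_inr, Bool.false_eq_true, if_false] at this
    rw [hb2, hp2] at this
    rw [← hE, ← hE]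
    exact this
  have hW1 : ∀ p, p ∈ (H.filter fun p => aU p.1 ≠ aV p.2) ↔ p ∈ H ∧ aU p.1 ≠ aV p.2 := by
    intro p
    rw [Finset.mem_filter]
  have hW2 : ∀ p, p ∈ tr (H.filter fun p => aU p.1 ≠ aV p.2) ↔
      p ∈ tr H ∧ aV p.1 ≠ aU p.2 := by
    rintro ⟨v, u⟩
    rw [mem_tr, Finset.mem_filter, mem_tr]
    exact ⟨fun a => ⟨a.1, fun b => a.2 b.symm⟩, fun a => ⟨a.1, fun b => a.2 b.symm⟩⟩
  have hM0 : ∀ M0 : ℝ, M0 = 1 / 10 ^ 11 * ((G.card : ℝ) + r) * s / P →
      s * ((Fintype.card X : ℝ) / P) * q = M0 ∧ 10 ^ 49 * (10 ^ 60 * L) ≤ M0 := by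
    intro M0 hM
    constructor
    · rw [hM, hq]
      field_simp
    · rw [hM, le_div_iff₀ hPpos]
      have e1 : 10 ^ 49 * (P * L) * 10 ^ 60 ≤ 1 / 10 ^ 11 * ((G.card : ℝ) + r) * s :=
        mul_le_mul hd0 hs (by norm_num) hdpos.le
      calc 10 ^ 49 * (10 ^ 60 * L) * (P : ℝ) = 10 ^ 49 * (P * L) * 10 ^ 60 := by ring
        _ ≤ _ := e1
  obtain ⟨M0, hM⟩ : ∃ M0, M0 = 1 / 10 ^ 11 * ((G.card : ℝ) + r) * s / P := ⟨_, rfl⟩
  obtain ⟨hM1, hM2⟩ := hM0 M0 hM
  refine ⟨R 0, R 1, hR1 0 1 (by norm_num), ?_, ?_, ?_, ?_, ?_⟩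
  · intro p hp
    rw [← hW1]
    rcases Finset.mem_union.1 hp with hp | hp
    · exact hR2 0 hp
    · exact hR2 1 hp
  · refine resF_side H _ (R 0) (R 1) nu nv P aU aV hub G s r L h.s1 hW1 hn ?_ ?_ ?_
    · intro u
      rw [← hq, ← Finset.filter_true (nb _ u), ← Finset.filter_true (nb (R 0) u),
        resF_nb _ u _ (rfQ aU aV (Sum.inl u) none) fun _ => Iff.rfl,
        resF_nb _ u _ (rfQ aU aV (Sum.inl u) none) fun _ => Iff.rfl]
      exact hT0 (Sum.inl u) none
    · intro u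
      rw [← hq, ← Finset.filter_true (nb (R 0 ∪ R 1) u),
        ← Finset.filter_true (nb (H.filter fun p => aU p.1 ≠ aV p.2) u),
        resF_nb _ u _ (rfQ aU aV (Sum.inl u) none) fun _ => Iff.rfl,
        resF_nb _ u _ (rfQ aU aV (Sum.inl u) none) fun _ => Iff.rfl]
      exact hT1 (Sum.inl u) none
    · intro u b
      rw [← hq, resF_nb _ u _ (rfQ aU aV (Sum.inl u) (some b)) fun _ => Iff.rfl,
        resF_nb _ u _ (rfQ aU aV (Sum.inl u) (some b)) fun _ => Iff.rfl]
      exact hT1 (Sum.inl u) (some b)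
  · refine resF_side (tr H) _ (tr (R 0)) (tr (R 1)) nv nu P aV aU hub G s r L h.s2 hW2 hn
      ?_ ?_ ?_
    · intro v
      rw [← hq, ← Finset.filter_true (nb (tr (R 0)) v),
        ← Finset.filter_true (nb (tr (H.filter fun p => aU p.1 ≠ aV p.2)) v),
        resF_nbt _ v _ (rfQ aU aV (Sum.inr v) none) fun _ => Iff.rfl,
        resF_nbt _ v _ (rfQ aU aV (Sum.inr v) none) fun _ => Iff.rfl]
      exact hT0 (Sum.inr v) none
    · intro v
      rw [← hq, ← tr_union, ← Finset.filter_true (nb (tr (R 0 ∪ R 1)) v),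
        ← Finset.filter_true (nb (tr (H.filter fun p => aU p.1 ≠ aV p.2)) v),
        resF_nbt _ v _ (rfQ aU aV (Sum.inr v) none) fun _ => Iff.rfl,
        resF_nbt _ v _ (rfQ aU aV (Sum.inr v) none) fun _ => Iff.rfl]
      exact hT1 (Sum.inr v) none
    · intro v a
      rw [← hq, ← tr_union, resF_nbt _ v _ (rfQ aU aV (Sum.inr v) (some a)) fun _ => Iff.rfl,
        resF_nbt _ v _ (rfQ aU aV (Sum.inr v) (some a)) fun _ => Iff.rfl]
      exact hT1 (Sum.inr v) (some a)
  · intro a b hab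
    rw [← hM]
    have e1 := hP0 a b
    have e2 := (resF_cnt H _ nu nv P aU aV hub G s h.s1 hW1 a b hab).2
    have e3 := mul_le_mul_of_nonneg_right e2
      (by positivity : (0 : ℝ) ≤ (1 - 1 / 10 ^ 24) * q)
    have e4 : (1 + 1 / 10 ^ 25) * (s * ((Fintype.card X : ℝ) / P)) * ((1 - 1 / 10 ^ 24) * q) =
        (1 + 1 / 10 ^ 25) * ((1 - 1 / 10 ^ 24) * M0) := by
      rw [← hM1]; ring
    rw [e4] at e3
    linarith
  · intro a b hab
    rw [← hM]
    have e1 := hP1 a b
    have e2 := (resF_cnt H _ nu nv P aU aV hub G s h.s1 hW1 a b hab).1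
    have e3 := mul_le_mul_of_nonneg_right e2
      (by positivity : (0 : ℝ) ≤ (1 + 2 / 10 ^ 24) * q)
    have e4 : (1 - 1 / 10 ^ 25) * (s * ((Fintype.card X : ℝ) / P)) * ((1 + 2 / 10 ^ 24) * q) =
        (1 - 1 / 10 ^ 25) * ((1 + 2 / 10 ^ 24) * M0) := by
      rw [← hM1]; ring
    rw [e4] at e3
    linarith

private theorem resF_fside {U V X : Type} [Fintype V]
    (Fc Fs F : Finset (U × V)) (P : ℕ) (aV : V → Fin P) (G : Finset X) (s r m : ℕ)
    (k L : ℝ) (hn : RFNum k (1 / 10 ^ 11 * ((G.card : ℝ) + r)) (P : ℝ) (s : ℝ) L)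
    (h : CoreSide Fc Fs P aV G r) (h1 : Fc ⊆ F) (h2 : F ⊆ Fc ∪ Fs)
    (hm : 1 / 10 ^ 11 * ((G.card : ℝ) + r) * s / P - 1 ≤ m) : FresSide F P aV G s r m := by
  obtain ⟨hk0, hd0, hdk, hL, hP, hs⟩ := hn
  have hPpos : (0 : ℝ) < P := by linarith
  have hspos : (0 : ℝ) < s := by linarith
  have hG0 : (0 : ℝ) ≤ (G.card : ℝ) + r := by positivity
  refine ⟨fun u => ?_, fun u b => ?_⟩
  · have e1 : ((nb Fc u).card : ℝ) ≤ (nb F u).card := by
      exact_mod_cast Finset.card_le_card (nb_mono h1 u)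
    have e2 : ((nb F u).card : ℝ) ≤ (nb (Fc ∪ Fs) u).card := by
      exact_mod_cast Finset.card_le_card (nb_mono h2 u)
    have e3 := h.lo u
    have e4 := h.hi u
    rw [abs_le]
    constructor <;> linarith
  · have e1 : (((nb F u).filter fun v => aV v = b).card : ℝ) ≤
        ((nb (Fc ∪ Fs) u).filter fun v => aV v = b).card := by
      exact_mod_cast Finset.card_le_card (Finset.filter_subset_filter _ (nb_mono h2 u))
    have e2 := h.hia u b
    obtain ⟨d, hd⟩ : ∃ d, d = 1 / 10 ^ 11 * ((G.card : ℝ) + r) := ⟨_, rfl⟩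
    rw [← hd] at e2 hm hd0
    have e3 : 10 ^ 49 * L ≤ d / P := by
      rw [le_div_iff₀ hPpos]
      calc 10 ^ 49 * L * P = 10 ^ 49 * (P * L) := by ring
        _ ≤ d := hd0
    have e4 : (d * s / P - 1) * 2 / s ≤ 2 * m / s := by
      refine div_le_div_of_nonneg_right ?_ hspos.le
      linarith
    have e5 : (d * s / P - 1) * 2 / s = 2 * (d / P) - 2 / s := by
      field_simp
    have e6 : 2 / (s : ℝ) ≤ 1 := by
      rw [div_le_one hspos]
      linarith
    linarith

theorem resF {U V X : Type} [Fintype U] [Fintype V] [Fintype X] (H : Finset (U × V))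
    (nu : U → Finset X) (nv : V → Finset X) (P : ℕ) (aU : U → Fin P) (aV : V → Fin P)
    (hub : Fin P → Finset X) (G : Finset X) (s r : ℕ) (L : ℝ)
    (h : SInst H nu nv P aU aV hub G s r L (1 / 10 ^ 25)) :
    ∃ (F : Finset (U × V)) (m : ℕ), ResF H F P aU aV G s r m := by
  have hn := resF_num H nu nv P aU aV hub G s r L _ h
  obtain ⟨Fc, Fs, hdis, hsub, hc1, hc2, hlo, hup⟩ := resF_core H nu nv P aU aV hub G s r L h
  obtain ⟨hk0, hd0, hdk, hL, hP, hs⟩ := id hn
  have hPpos : (0 : ℝ) < P := by linarith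
  have hspos : (0 : ℝ) < s := by linarith
  obtain ⟨M0, hM⟩ : ∃ M0, M0 = 1 / 10 ^ 11 * ((G.card : ℝ) + r) * s / P := ⟨_, rfl⟩
  have hM2 : 2 ≤ M0 := by
    rw [hM, le_div_iff₀ hPpos]
    have hPL : (P : ℝ) ≤ (P : ℝ) * L := le_mul_of_one_le_right hPpos.le hL
    have e1 : (1 / 10 ^ 11 * ((G.card : ℝ) + r)) * 1 ≤ 1 / 10 ^ 11 * ((G.card : ℝ) + r) * s :=
      mul_le_mul_of_nonneg_left (by linarith) (by positivity)
    linarith
  have hM0 : 0 ≤ M0 := by linarith
  have hm1 : ((⌊M0⌋₊ : ℕ) : ℝ) ≤ M0 := Nat.floor_le hM0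
  have hm2 : M0 - 1 ≤ ((⌊M0⌋₊ : ℕ) : ℝ) := by
    have := Nat.lt_floor_add_one M0
    linarith
  have hch : ∀ i : Fin P × Fin P, ∃ g : Finset (U × V), i.1 ≠ i.2 →
      (Fc.filter fun p => aU p.1 = i.1 ∧ aV p.2 = i.2) ⊆ g ∧
      g ⊆ ((Fc ∪ Fs).filter fun p => aU p.1 = i.1 ∧ aV p.2 = i.2) ∧ g.card = ⌊M0⌋₊ := by
    intro i
    by_cases hi : i.1 = i.2
    · exact ⟨∅, fun h => absurd hi h⟩
    · have e1 := hlo i.1 i.2 hi
      have e2 := hup i.1 i.2 hi
      rw [← hM] at e1 e2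
      obtain ⟨g, g1, g2, g3⟩ := Finset.exists_subsuperset_card_eq
        (s := Fc.filter fun p => aU p.1 = i.1 ∧ aV p.2 = i.2)
        (t := (Fc ∪ Fs).filter fun p => aU p.1 = i.1 ∧ aV p.2 = i.2) (n := ⌊M0⌋₊)
        (Finset.filter_subset_filter _ Finset.subset_union_left)
        (Nat.le_floor (by linarith))
        (by
          have : ((⌊M0⌋₊ : ℕ) : ℝ) ≤
            (((Fc ∪ Fs).filter fun p => aU p.1 = i.1 ∧ aV p.2 = i.2).card : ℝ) := by linarith
          exact_mod_cast this)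
      exact ⟨g, fun _ => ⟨g1, g2, g3⟩⟩
  choose g hg using hch
  have hmemF : ∀ p, p ∈ ((Finset.univ : Finset (Fin P × Fin P)).filter
      fun i => i.1 ≠ i.2).biUnion g ↔ aU p.1 ≠ aV p.2 ∧ p ∈ g (aU p.1, aV p.2) := by
    intro p
    rw [Finset.mem_biUnion]
    constructor
    · rintro ⟨i, hi, hp⟩
      have hi' := (Finset.mem_filter.1 hi).2
      have h1 := Finset.mem_filter.1 ((hg i hi').2.1 hp)
      have h2 : (aU p.1, aV p.2) = i := Prod.ext h1.2.1 h1.2.2
      rw [h2, h1.2.1, h1.2.2]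
      exact ⟨hi', hp⟩
    · rintro ⟨h1, h2⟩
      exact ⟨_, Finset.mem_filter.2 ⟨Finset.mem_univ _, h1⟩, h2⟩
  have hF1 : Fc ⊆ ((Finset.univ : Finset (Fin P × Fin P)).filter
      fun i => i.1 ≠ i.2).biUnion g := by
    intro p hp
    have h1 := (hsub p (Finset.mem_union_left _ hp)).2
    rw [hmemF]
    exact ⟨h1, (hg (aU p.1, aV p.2) h1).1 (Finset.mem_filter.2 ⟨hp, rfl, rfl⟩)⟩
  have hF2 : ((Finset.univ : Finset (Fin P × Fin P)).filter
      fun i => i.1 ≠ i.2).biUnion g ⊆ Fc ∪ Fs := by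
    intro p hp
    rw [hmemF] at hp
    exact (Finset.mem_filter.1 ((hg (aU p.1, aV p.2) hp.1).2.1 hp.2)).1
  refine ⟨_, ⌊M0⌋₊, ⟨fun p hp => (hsub p (hF2 hp)).1, fun p hp => (hsub p (hF2 hp)).2, ?_, ?_,
    ?_, ?_⟩⟩
  · exact resF_fside Fc Fs _ P aV G s r _ _ L hn hc1 hF1 hF2 (by rw [← hM]; exact hm2)
  · exact resF_fside (tr Fc) (tr Fs) _ P aU G s r _ _ L hn hc2 (tr_subset.2 hF1)
      (by rw [← tr_union]; exact tr_subset.2 hF2) (by rw [← hM]; exact hm2)
  · intro a b hab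
    have e1 : ((((Finset.univ : Finset (Fin P × Fin P)).filter
        fun i => i.1 ≠ i.2).biUnion g).filter fun p => aU p.1 = a ∧ aV p.2 = b) = g (a, b) := by
      ext p
      rw [Finset.mem_filter, hmemF]
      constructor
      · rintro ⟨⟨_, h1⟩, h2, h3⟩
        rw [h2, h3] at h1
        exact h1
      · intro hp
        have h1 := Finset.mem_filter.1 ((hg (a, b) hab).2.1 hp)
        have h2 : aU p.1 = a := h1.2.1
        have h3 : aV p.2 = b := h1.2.2
        rw [h2, h3]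
        exact ⟨⟨hab, hp⟩, rfl, rfl⟩
    rw [e1]
    exact (hg (a, b) hab).2.2
  · have e1 : 1 / 10 ^ 11 * (G.card : ℝ) * s / (2 * P) ≤ M0 / 2 := by
      rw [hM]
      have : 1 / 10 ^ 11 * (G.card : ℝ) * s / (2 * P) =
        (1 / 10 ^ 11 * (G.card : ℝ) * s / P) / 2 := by
        field_simp
      rw [this]
      refine div_le_div_of_nonneg_right (div_le_div_of_nonneg_right
        (mul_le_mul_of_nonneg_right ?_ hspos.le) hPpos.le) (by norm_num)
      have : (0 : ℝ) ≤ (r : ℝ) := Nat.cast_nonneg r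
      linarith
    linarith

end Pool.Agent.Lib.TriS
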