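import Mathlib

/-!
MODULE LNum (about 130 lines). The numerical sequence of section 2.2.

PROOF. `o0 = oe + 7/8 (D - De) ≥ oe + 7/8 * 19/20 D ≥ 16 oe` (as `D ≥ 20 De ≥ 20 oe`), `o0 ≤ D`. `ℓ = log (o0/oe) ≥ log 16 > 2`, `J = ⌈128 ℓ⌉₊`, `x = ℓ/J`: `x ≤ 1/128`, and
`J ≤ 128 ℓ + 1 ≤ 128.5 ℓ` (`ℓ ≥ 2`), so `x ≥ 1/129`. `sg = 8/7 (1 - exp (-x))`, so `(1 - 7/8 sg)^J = exp (-ℓ) = oe/o0`. `x - x²/2 ≤ 1 - exp (-x) ≤ x`: `sg ≤ 8/7/128 ≤ 1/100`,
`sg ≥ 8/7 (1/129)(1 - 1/256) ≥ 1/200`. (`1 - exp(-x) ≥ x/(1+x)` is enough as well.) `J ≤ 128 ℓ + 1 ≤ 128 (log D - log oe) + 1`.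
-/

set_option autoImplicit false

noncomputable section

namespace Pool.Agent.Lib.TriS

theorem lay_num (D De oe : ℝ) (hoe : 0 < oe) (hoe2 : oe ≤ De) (hD : 20 * De ≤ D) :
    ∃ (J : ℕ) (sg : ℝ), 1 / 200 ≤ sg ∧ sg ≤ 1 / 100 ∧
      (oe + 7 / 8 * (D - De)) * (1 - 7 / 8 * sg) ^ J = oe ∧
      (J : ℝ) ≤ 128 * (Real.log D - Real.log oe) + 1 := by
  set o0 : ℝ := oe + 7 / 8 * (D - De) with ho0
  have h1 : 16 * oe ≤ o0 := by rw [ho0]; linarith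
  have h2 : o0 ≤ D := by rw [ho0]; linarith
  have h3 : 0 < o0 := by linarith
  have hD0 : 0 < D := by linarith
  set l : ℝ := Real.log (o0 / oe) with hl
  have hl1 : 1 ≤ l := by
    have h4 : (16 : ℝ) ≤ o0 / oe := by rw [le_div_iff₀ hoe]; exact h1
    have h5 : Real.exp 1 ≤ o0 / oe := by
      have := Real.exp_one_lt_d9
      linarith
    rw [hl, Real.le_log_iff_exp_le (by linarith)]
    exact h5
  set J : ℕ := ⌈128 * l⌉₊ with hJ
  have hJ1 : 128 * l ≤ (J : ℝ) := Nat.le_ceil _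
  have hJ2 : (J : ℝ) < 128 * l + 1 := Nat.ceil_lt_add_one (by linarith)
  have hJ0 : (0 : ℝ) < (J : ℝ) := by linarith
  set x : ℝ := l / J with hx
  have hx1 : x ≤ 1 / 128 := by
    rw [hx, div_le_iff₀ hJ0]
    linarith
  have hx2 : 1 / 129 ≤ x := by
    rw [hx, le_div_iff₀ hJ0]
    linarith
  have hx0 : 0 < x := by linarith
  refine ⟨J, 8 / 7 * (1 - Real.exp (-x)), ?_, ?_, ?_, ?_⟩
  · have h4 : Real.exp (-x) ≤ 129 / 130 := by
      have h5 : x + 1 ≤ Real.exp x := Real.add_one_le_exp x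
      rw [Real.exp_neg]
      have h6 : (130 : ℝ) / 129 ≤ Real.exp x := by linarith
      calc (Real.exp x)⁻¹ ≤ ((130 : ℝ) / 129)⁻¹ := inv_anti₀ (by norm_num) h6
        _ = 129 / 130 := by norm_num
    linarith
  · have h4 : -x + 1 ≤ Real.exp (-x) := Real.add_one_le_exp (-x)
    linarith
  · have h4 : 1 - 7 / 8 * (8 / 7 * (1 - Real.exp (-x))) = Real.exp (-x) := by ring
    rw [h4, ← Real.exp_nat_mul]
    have h5 : (J : ℝ) * (-x) = - l := by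
      rw [hx]
      field_simp
    rw [h5, Real.exp_neg, hl, Real.exp_log (div_pos h3 hoe)]
    field_simp
  · have h4 : l = Real.log o0 - Real.log oe := by
      rw [hl, Real.log_div h3.ne' hoe.ne']
    have h5 : Real.log o0 ≤ Real.log D := Real.log_le_log h3 h2
    linarith

/-- geometric sums: `∑_{j ≤ i < J} sg o_i = 8/7 (o_j - o_J)` for `o_i = a (1 - 7/8 sg)^i`. -/
theorem lay_sum (a sg : ℝ) (J j : ℕ) (hj : j ≤ J) :
    ∑ i ∈ Finset.Ico j J, sg * (a * (1 - 7 / 8 * sg) ^ i) =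
      8 / 7 * (a * (1 - 7 / 8 * sg) ^ j - a * (1 - 7 / 8 * sg) ^ J) := by
  induction J, hj using Nat.le_induction with
  | base => simp
  | succ n hn ih =>
    rw [Finset.sum_Ico_succ_top hn, ih, pow_succ]
    ring

end Pool.Agent.Lib.TriS
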