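import Pool.Agent.Lib.TriS.Label

/-!
MODULE LayQ (about 170 lines). Random blocks of colours.

`W` = the colours to be distributed (`C \ Ce`), `nu`, `nv` the needs. PROOF. `label` with `E = {x // x ∈ W}`, `Λ = Fin J`, `p x j = q j` (sum 1), `z = 1/10^8`, `t = 8 L/z`, and the tests
`(j, κ)`, `κ ∈ {whole, u, v}`: the sets `{(x, j')| j' = j}`, `{j' ≥ j}`, each alone and intersected with `x ∉ nu u` (with `x ∉ nv v`). There are at most `2 J (1 + 2N) ≤ exp (5 L)` tests
(`J ≤ exp (2L)`, `N ≤ exp L`, `2(1+2N) ≤ exp (3L)` because `L ≥ 2`), each contributes `2 exp (-8 L)`: sum `≤ 2 exp (-3L) < 1`. `Q j = {x ∈ W | label = j}` for `j < J` (`∅` for `j ≥ J`); the union over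
`Ico j J` is `{label ≥ j}`; means: `q j * |W|`, `(∑ i ∈ Ico j J, q i) * |W|`, the same with `|W \ nu u|`.
-/

set_option autoImplicit false

open scoped Classical

noncomputable section

namespace Pool.Agent.Lib.TriS

private theorem lq_cnt {X : Type} (W N : Finset X) {J : ℕ} (f : {x // x ∈ W} → Fin J)
    (lab : X → ℕ) (hlab : ∀ e : {x // x ∈ W}, lab e.1 = (f e : ℕ)) (S : Finset ℕ) :
    cntL f (Finset.univ.filter
      (fun p : {x // x ∈ W} × Fin J => p.1.1 ∉ N ∧ (p.2 : ℕ) ∈ S)) =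
      ((W.filter (fun x => lab x ∈ S)) \ N).card := by
  unfold cntL
  rw [← Finset.card_image_of_injective _ Subtype.val_injective]
  congr 1
  ext x
  constructor
  · intro hx
    obtain ⟨e, he, rfl⟩ := Finset.mem_image.1 hx
    simp only [Finset.mem_filter, Finset.mem_univ, true_and] at he
    refine Finset.mem_sdiff.2 ⟨Finset.mem_filter.2 ⟨e.2, ?_⟩, he.1⟩
    rw [hlab]
    exact he.2
  · intro hx
    obtain ⟨h1, h2⟩ := Finset.mem_sdiff.1 hx
    obtain ⟨h3, h4⟩ := Finset.mem_filter.1 h1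
    refine Finset.mem_image.2 ⟨⟨x, h3⟩, ?_, rfl⟩
    simp only [Finset.mem_filter, Finset.mem_univ, true_and]
    refine ⟨h2, ?_⟩
    rw [← hlab ⟨x, h3⟩]
    exact h4

private theorem lq_mu {X : Type} (W N : Finset X) {J : ℕ} (q : ℕ → ℝ) (S : Finset ℕ)
    (hS : S ⊆ Finset.range J) :
    muL (fun (_ : {x // x ∈ W}) (j : Fin J) => q j) (Finset.univ.filter
      (fun p : {x // x ∈ W} × Fin J => p.1.1 ∉ N ∧ (p.2 : ℕ) ∈ S)) =
      (∑ i ∈ S, q i) * ((W \ N).card : ℝ) := by
  unfold muL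
  rw [Finset.sum_filter, Fintype.sum_prod_type]
  have h1 : ∀ e : {x // x ∈ W},
      (∑ a : Fin J, if e.1 ∉ N ∧ (a : ℕ) ∈ S then q a else 0) =
        if e.1 ∉ N then ∑ i ∈ S, q i else 0 := by
    intro e
    by_cases he : e.1 ∉ N
    · rw [if_pos he]
      have h2 : (∑ a : Fin J, if e.1 ∉ N ∧ (a : ℕ) ∈ S then q a else 0) =
          ∑ i ∈ Finset.range J, if i ∈ S then q i else 0 := by
        rw [Finset.sum_range]
        refine Finset.sum_congr rfl fun a _ => ?_
        by_cases ha : (a : ℕ) ∈ S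
        · rw [if_pos ⟨he, ha⟩, if_pos ha]
        · rw [if_neg (fun h => ha h.2), if_neg ha]
      rw [h2, ← Finset.sum_filter]
      congr 1
      ext i
      rw [Finset.mem_filter]
      exact ⟨fun h => h.2, fun h => ⟨hS h, h⟩⟩
    · rw [if_neg he]
      exact Finset.sum_eq_zero fun a _ => if_neg (fun h => he h.1)
  have h3 : (∑ e : {x // x ∈ W}, ∑ a : Fin J,
      if e.1 ∉ N ∧ (a : ℕ) ∈ S then q a else 0) =
      ∑ e : {x // x ∈ W}, if e.1 ∉ N then ∑ i ∈ S, q i else 0 :=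
    Finset.sum_congr rfl fun e _ => h1 e
  refine Eq.trans h3 ?_
  rw [← Finset.sum_filter, Finset.sum_const, nsmul_eq_mul, mul_comm]
  congr 2
  rw [← Finset.card_image_of_injective _ Subtype.val_injective]
  congr 1
  ext x
  constructor
  · intro hx
    obtain ⟨e, he, rfl⟩ := Finset.mem_image.1 hx
    exact Finset.mem_sdiff.2 ⟨e.2, (Finset.mem_filter.1 he).2⟩
  · intro hx
    obtain ⟨h4, h5⟩ := Finset.mem_sdiff.1 hx
    exact Finset.mem_image.2 ⟨⟨x, h4⟩, Finset.mem_filter.2 ⟨Finset.mem_univ _, h5⟩, rfl⟩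

theorem lay_Q {U V X : Type} [Fintype U] [Fintype V] (nu : U → Finset X) (nv : V → Finset X)
    (W : Finset X) (L : ℝ) (hL : 2 ≤ L) (J : ℕ) (q : ℕ → ℝ) (hq0 : ∀ j, 0 ≤ q j)
    (hq1 : ∑ j ∈ Finset.range J, q j = 1) (hJ : (J : ℝ) ≤ Real.exp (2 * L))
    (hU : (Fintype.card U : ℝ) ≤ Real.exp L) (hV : (Fintype.card V : ℝ) ≤ Real.exp L) :
    ∃ Q : ℕ → Finset X, (∀ i < J, ∀ j < J, i ≠ j → Disjoint (Q i) (Q j)) ∧
      (Finset.range J).biUnion Q = W ∧
      (∀ j < J, |((Q j).card : ℝ) - q j * W.card| ≤ 1 / 10 ^ 8 * (q j * W.card) + 8 * 10 ^ 8 * L) ∧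
      (∀ j < J, |(((Finset.Ico j J).biUnion Q).card : ℝ) - (∑ i ∈ Finset.Ico j J, q i) * W.card| ≤
        1 / 10 ^ 8 * ((∑ i ∈ Finset.Ico j J, q i) * W.card) + 8 * 10 ^ 8 * L) ∧
      (∀ j < J, ∀ u, ((Q j \ nu u).card : ℝ) ≤
        (1 + 1 / 10 ^ 8) * (q j * (W \ nu u).card) + 8 * 10 ^ 8 * L) ∧
      (∀ j < J, ∀ u, (((Finset.Ico j J).biUnion Q \ nu u).card : ℝ) ≤
        (1 + 1 / 10 ^ 8) * ((∑ i ∈ Finset.Ico j J, q i) * (W \ nu u).card) + 8 * 10 ^ 8 * L) ∧
      (∀ j < J, ∀ v, ((Q j \ nv v).card : ℝ) ≤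
        (1 + 1 / 10 ^ 8) * (q j * (W \ nv v).card) + 8 * 10 ^ 8 * L) ∧
      (∀ j < J, ∀ v, (((Finset.Ico j J).biUnion Q \ nv v).card : ℝ) ≤
        (1 + 1 / 10 ^ 8) * ((∑ i ∈ Finset.Ico j J, q i) * (W \ nv v).card) + 8 * 10 ^ 8 * L) := by
  set z : ℝ := 1 / 10 ^ 8 with hz
  have hz0 : 0 < z := by rw [hz]; positivity
  have hz1 : z ≤ 1 := by rw [hz]; norm_num
  -- the tests
  set SS : Finset (Finset ℕ) := (Finset.range J).image (fun j => ({j} : Finset ℕ)) ∪
    (Finset.range J).image (fun j => Finset.Ico j J) with hSS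
  set NN : Finset (Finset X) := ({∅} ∪ Finset.univ.image nu) ∪ Finset.univ.image nv with hNN
  set T : Finset ℕ × Finset X → Finset ({x // x ∈ W} × Fin J) := fun i =>
    Finset.univ.filter (fun p : {x // x ∈ W} × Fin J => p.1.1 ∉ i.2 ∧ (p.2 : ℕ) ∈ i.1) with hT
  have hSSc : SS.card ≤ J + J := by
    refine (Finset.card_union_le _ _).trans (Nat.add_le_add ?_ ?_)
    · exact Finset.card_image_le.trans (Finset.card_range J).le
    · exact Finset.card_image_le.trans (Finset.card_range J).le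
  have hNNc : NN.card ≤ 1 + Fintype.card U + Fintype.card V := by
    refine (Finset.card_union_le _ _).trans (Nat.add_le_add
      ((Finset.card_union_le _ _).trans (Nat.add_le_add ?_ ?_)) ?_)
    · exact (Finset.card_singleton _).le
    · exact Finset.card_image_le
    · exact Finset.card_image_le
  have hprob : ∀ e : {x // x ∈ W}, ∑ a : Fin J, (fun (_ : {x // x ∈ W}) (j : Fin J) => q j) e a
      = 1 := by
    intro e
    rw [← hq1, Finset.sum_range]
  have hsum : ∑ i ∈ SS ×ˢ NN, 2 * Real.exp (-(z * (8 * 10 ^ 8 * L))) < 1 := by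
    rw [Finset.sum_const, nsmul_eq_mul, Finset.card_product]
    have h1 : z * (8 * 10 ^ 8 * L) = 8 * L := by rw [hz]; ring
    rw [h1]
    have h2 : ((SS.card * NN.card : ℕ) : ℝ) ≤ (2 * Real.exp (2 * L)) * (3 * Real.exp L) := by
      rw [Nat.cast_mul]
      have hS' : (SS.card : ℝ) ≤ 2 * Real.exp (2 * L) := by
        have h3 : (SS.card : ℝ) ≤ (J : ℝ) + J := by exact_mod_cast hSSc
        linarith
      have hN' : (NN.card : ℝ) ≤ 3 * Real.exp L := by
        have h3 : (NN.card : ℝ) ≤ 1 + (Fintype.card U : ℝ) + (Fintype.card V : ℝ) := by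
          exact_mod_cast hNNc
        have h4 : (1 : ℝ) ≤ Real.exp L := Real.one_le_exp (by linarith)
        linarith
      exact mul_le_mul hS' hN' (Nat.cast_nonneg _) (by positivity)
    have h5 : (2 * Real.exp (2 * L)) * (3 * Real.exp L) * (2 * Real.exp (-(8 * L))) =
        12 * Real.exp (-(5 * L)) := by
      have h6 : Real.exp (2 * L) * Real.exp L * Real.exp (-(8 * L)) = Real.exp (-(5 * L)) := by
        rw [← Real.exp_add, ← Real.exp_add]
        congr 1
        ring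
      calc (2 * Real.exp (2 * L)) * (3 * Real.exp L) * (2 * Real.exp (-(8 * L)))
          = 12 * (Real.exp (2 * L) * Real.exp L * Real.exp (-(8 * L))) := by ring
        _ = _ := by rw [h6]
    have h7 : 12 * Real.exp (-(5 * L)) < 1 := by
      have h8 : Real.exp (-(5 * L)) ≤ Real.exp (-10) := Real.exp_le_exp.2 (by linarith)
      have h9 : (12 : ℝ) < Real.exp 10 := by
        have h10 : (2.7182818283 : ℝ) < Real.exp 1 := Real.exp_one_gt_d9
        have h11 : Real.exp 10 = Real.exp 1 ^ 10 := by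
          rw [← Real.exp_nat_mul]; norm_num
        rw [h11]
        calc (12 : ℝ) < 2.7182818283 ^ 10 := by norm_num
          _ ≤ Real.exp 1 ^ 10 := by
            exact pow_le_pow_left₀ (by norm_num) h10.le 10
      have h12 : Real.exp (-10) < 1 / 12 := by
        rw [Real.exp_neg, ← one_div]
        exact one_div_lt_one_div_of_lt (by norm_num) h9
      linarith
    calc ((SS.card * NN.card : ℕ) : ℝ) * (2 * Real.exp (-(8 * L)))
        ≤ (2 * Real.exp (2 * L)) * (3 * Real.exp L) * (2 * Real.exp (-(8 * L))) :=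
          mul_le_mul_of_nonneg_right h2 (by positivity)
      _ = 12 * Real.exp (-(5 * L)) := h5
      _ < 1 := h7
  obtain ⟨f, hf⟩ := label (fun (_ : {x // x ∈ W}) (j : Fin J) => q j) (fun _ a => hq0 a) hprob
    (SS ×ˢ NN) T z hz0 hz1 (fun _ => 8 * 10 ^ 8 * L) hsum
  -- the blocks
  let lab : X → ℕ := fun x => if h : x ∈ W then (f ⟨x, h⟩ : ℕ) else J
  have hlab : ∀ e : {x // x ∈ W}, lab e.1 = (f e : ℕ) := fun e => dif_pos e.2
  have hlabJ : ∀ x ∈ W, lab x < J := by
    intro x hx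
    rw [hlab ⟨x, hx⟩]
    exact (f ⟨x, hx⟩).2
  have key : ∀ S ∈ SS, ∀ N ∈ NN,
      (1 - z) * ((∑ i ∈ S, q i) * ((W \ N).card : ℝ)) - 8 * 10 ^ 8 * L ≤
        (((W.filter (fun x => lab x ∈ S)) \ N).card : ℝ) ∧
      (((W.filter (fun x => lab x ∈ S)) \ N).card : ℝ) ≤
        (1 + z) * ((∑ i ∈ S, q i) * ((W \ N).card : ℝ)) + 8 * 10 ^ 8 * L := by
    intro S hS N hN
    have hSJ : S ⊆ Finset.range J := by
      rw [hSS, Finset.mem_union, Finset.mem_image, Finset.mem_image] at hS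
      rcases hS with ⟨j, hj, rfl⟩ | ⟨j, hj, rfl⟩
      · exact Finset.singleton_subset_iff.2 hj
      · intro i hi
        exact Finset.mem_range.2 (Finset.mem_Ico.1 hi).2
    have h1 := hf (S, N) (Finset.mem_product.2 ⟨hS, hN⟩)
    have h2 := lq_cnt W N f lab hlab S
    have h3 := lq_mu W N q S hSJ
    simp only [hT] at h1
    rw [h2, h3] at h1
    exact h1
  have hN0 : (∅ : Finset X) ∈ NN := by
    rw [hNN]
    exact Finset.mem_union_left _ (Finset.mem_union_left _ (Finset.mem_singleton_self _))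
  have hNu : ∀ u, nu u ∈ NN := by
    intro u
    rw [hNN]
    exact Finset.mem_union_left _ (Finset.mem_union_right _
      (Finset.mem_image_of_mem nu (Finset.mem_univ u)))
  have hNv : ∀ v, nv v ∈ NN := by
    intro v
    rw [hNN]
    exact Finset.mem_union_right _ (Finset.mem_image_of_mem nv (Finset.mem_univ v))
  have hS1 : ∀ j < J, ({j} : Finset ℕ) ∈ SS := by
    intro j hj
    rw [hSS]
    exact Finset.mem_union_left _ (Finset.mem_image.2 ⟨j, Finset.mem_range.2 hj, rfl⟩)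
  have hS2 : ∀ j < J, Finset.Ico j J ∈ SS := by
    intro j hj
    rw [hSS]
    exact Finset.mem_union_right _ (Finset.mem_image.2 ⟨j, Finset.mem_range.2 hj, rfl⟩)
  let Q : ℕ → Finset X := fun j => W.filter (fun x => lab x = j)
  have hQ1 : ∀ j, Q j = W.filter (fun x => lab x ∈ ({j} : Finset ℕ)) := by
    intro j
    ext x
    simp only [Q, Finset.mem_filter, Finset.mem_singleton]
  have hQ2 : ∀ S : Finset ℕ, S.biUnion Q = W.filter (fun x => lab x ∈ S) := by
    intro S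
    ext x
    rw [Finset.mem_biUnion, Finset.mem_filter]
    constructor
    · rintro ⟨i, hi, hx⟩
      obtain ⟨h1, h2⟩ := Finset.mem_filter.1 hx
      exact ⟨h1, by rw [h2]; exact hi⟩
    · rintro ⟨h1, h2⟩
      exact ⟨lab x, h2, Finset.mem_filter.2 ⟨h1, rfl⟩⟩
  refine ⟨Q, ?_, ?_, ?_, ?_, ?_, ?_, ?_, ?_⟩
  · intro i _ j _ hij
    rw [Finset.disjoint_left]
    intro x hx hx'
    exact hij ((Finset.mem_filter.1 hx).2.symm.trans (Finset.mem_filter.1 hx').2)
  · rw [hQ2]
    ext x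
    rw [Finset.mem_filter]
    exact ⟨fun h => h.1, fun h => ⟨h, Finset.mem_range.2 (hlabJ x h)⟩⟩
  · intro j hj
    have h := key _ (hS1 j hj) _ hN0
    rw [Finset.sdiff_empty, Finset.sdiff_empty, Finset.sum_singleton, ← hQ1] at h
    rw [abs_le]
    constructor <;> nlinarith [h.1, h.2]
  · intro j hj
    have h := key _ (hS2 j hj) _ hN0
    rw [Finset.sdiff_empty, Finset.sdiff_empty, ← hQ2] at h
    rw [abs_le]
    constructor <;> nlinarith [h.1, h.2]
  · intro j hj u
    have h := key _ (hS1 j hj) _ (hNu u)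
    rw [Finset.sum_singleton, ← hQ1] at h
    exact h.2
  · intro j hj u
    have h := key _ (hS2 j hj) _ (hNu u)
    rw [← hQ2] at h
    exact h.2
  · intro j hj v
    have h := key _ (hS1 j hj) _ (hNv v)
    rw [Finset.sum_singleton, ← hQ1] at h
    exact h.2
  · intro j hj v
    have h := key _ (hS2 j hj) _ (hNv v)
    rw [← hQ2] at h
    exact h.2

end Pool.Agent.Lib.TriS
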