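import Mathlib

/-!
MODULE PairSum (about 80 lines). The sum over pairs of sets.

PROOF. `max a b ≥ (a+b)/2`, so `exp (-8 L max (|S|,|T|)) ≤ exp (-4L|S|) exp (-4L|T|)`, and
`∑_{S ≠ ∅} exp (-4 L |S|) = (1 + exp (-4L))^N - 1` (`Finset.sum_pow_mul_eq_add_pow` / `Fintype.sum_pow_mul_eq_add_pow`: `∑ S, a^{|S|} 1^{N-|S|} = (a+1)^N`) `≤ exp (N exp (-4L)) - 1 ≤ exp (exp (-3L)) - 1 ≤ 2 exp (-3L)`
(`exp y - 1 ≤ 2y` for `0 ≤ y ≤ 1`). The double sum is `≤ 4 exp (-6L)`.
-/

set_option autoImplicit false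

open scoped Classical

noncomputable section

namespace Pool.Agent.Lib.TriS

private theorem pairSum_one {U : Type} [Fintype U] (L : ℝ) (hL : 1 ≤ L)
    (hU : (Fintype.card U : ℝ) ≤ Real.exp L) :
    ∑ S ∈ (Finset.univ : Finset (Finset U)).filter (fun S => S.Nonempty),
      Real.exp (-(4 * L * (S.card : ℝ))) ≤ 2 * Real.exp (-(3 * L)) := by
  have h1 : ∑ S : Finset U, Real.exp (-(4 * L)) ^ S.card * (1 : ℝ) ^ (Fintype.card U - S.card) =
      (Real.exp (-(4 * L)) + 1) ^ Fintype.card U := Fintype.sum_pow_mul_eq_add_pow U _ _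
  have h2 : ∀ S : Finset U, Real.exp (-(4 * L)) ^ S.card * (1 : ℝ) ^ (Fintype.card U - S.card) =
      Real.exp (-(4 * L * (S.card : ℝ))) := by
    intro S
    rw [one_pow, mul_one, ← Real.exp_nat_mul]
    congr 1
    ring
  simp only [h2] at h1
  have h3 : ∑ S : Finset U, Real.exp (-(4 * L * (S.card : ℝ))) =
      ∑ S ∈ (Finset.univ : Finset (Finset U)).filter (fun S => S.Nonempty),
        Real.exp (-(4 * L * (S.card : ℝ))) + 1 := by
    rw [← Finset.sum_filter_add_sum_filter_not Finset.univ (fun S : Finset U => S.Nonempty)]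
    congr 1
    have h4 : (Finset.univ : Finset (Finset U)).filter (fun S => ¬ S.Nonempty) = {∅} := by
      ext S
      simp [Finset.not_nonempty_iff_eq_empty]
    rw [h4]
    simp
  have h5 : (Real.exp (-(4 * L)) + 1) ^ Fintype.card U ≤
      Real.exp ((Fintype.card U : ℝ) * Real.exp (-(4 * L))) := by
    rw [Real.exp_nat_mul]
    exact pow_le_pow_left₀ (by positivity) (Real.add_one_le_exp _) _
  have h6 : (Fintype.card U : ℝ) * Real.exp (-(4 * L)) ≤ Real.exp (-(3 * L)) := by
    calc (Fintype.card U : ℝ) * Real.exp (-(4 * L)) ≤ Real.exp L * Real.exp (-(4 * L)) :=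
          mul_le_mul_of_nonneg_right hU (Real.exp_pos _).le
      _ = Real.exp (-(3 * L)) := by
          rw [← Real.exp_add]
          congr 1
          ring
  have h7 : Real.exp (-(3 * L)) ≤ 1 := Real.exp_le_one_iff.2 (by linarith)
  have h8 : |Real.exp (Real.exp (-(3 * L))) - 1| ≤ 2 * |Real.exp (-(3 * L))| :=
    Real.abs_exp_sub_one_le (by rw [abs_of_pos (Real.exp_pos _)]; exact h7)
  rw [abs_of_pos (Real.exp_pos (-(3 * L)))] at h8
  have h9 := (le_abs_self _).trans h8
  have h10 : Real.exp ((Fintype.card U : ℝ) * Real.exp (-(4 * L))) ≤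
      Real.exp (Real.exp (-(3 * L))) := Real.exp_le_exp.2 h6
  linarith

theorem pair_sum {U V : Type} [Fintype U] [Fintype V] (L : ℝ) (hL : 1 ≤ L)
    (hU : (Fintype.card U : ℝ) ≤ Real.exp L) (hV : (Fintype.card V : ℝ) ≤ Real.exp L) :
    ∑ S ∈ (Finset.univ : Finset (Finset U)).filter (fun S => S.Nonempty),
      ∑ T ∈ (Finset.univ : Finset (Finset V)).filter (fun T => T.Nonempty),
        Real.exp (-(8 * L * max (S.card : ℝ) T.card)) ≤ 4 * Real.exp (-(6 * L)) := by
  have h1 : ∀ (S : Finset U) (T : Finset V), Real.exp (-(8 * L * max (S.card : ℝ) T.card)) ≤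
      Real.exp (-(4 * L * (S.card : ℝ))) * Real.exp (-(4 * L * (T.card : ℝ))) := by
    intro S T
    rw [← Real.exp_add]
    apply Real.exp_le_exp.2
    have h2 := le_max_left (S.card : ℝ) T.card
    have h3 := le_max_right (S.card : ℝ) T.card
    nlinarith
  calc _ ≤ ∑ S ∈ (Finset.univ : Finset (Finset U)).filter (fun S => S.Nonempty),
      ∑ T ∈ (Finset.univ : Finset (Finset V)).filter (fun T => T.Nonempty),
        Real.exp (-(4 * L * (S.card : ℝ))) * Real.exp (-(4 * L * (T.card : ℝ))) :=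
        Finset.sum_le_sum fun S _ => Finset.sum_le_sum fun T _ => h1 S T
    _ = (∑ S ∈ (Finset.univ : Finset (Finset U)).filter (fun S => S.Nonempty),
        Real.exp (-(4 * L * (S.card : ℝ)))) *
        ∑ T ∈ (Finset.univ : Finset (Finset V)).filter (fun T => T.Nonempty),
          Real.exp (-(4 * L * (T.card : ℝ))) := by
        rw [Finset.sum_mul_sum]
    _ ≤ (2 * Real.exp (-(3 * L))) * (2 * Real.exp (-(3 * L))) :=
        mul_le_mul (pairSum_one L hL hU) (pairSum_one L hL hV)
          (Finset.sum_nonneg fun _ _ => (Real.exp_pos _).le) (by positivity)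
    _ = 4 * Real.exp (-(6 * L)) := by
        have h2 : Real.exp (-(6 * L)) = Real.exp (-(3 * L)) * Real.exp (-(3 * L)) := by
          rw [← Real.exp_add]
          congr 1
          ring
        rw [h2]
        ring

end Pool.Agent.Lib.TriS
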