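import Pool.Agent.Lib.TriS.Label
import Pool.Agent.Lib.TriS.PairSum

/-!
MODULE LayR (about 250 lines). Random layers of edges.

PROOF. `label` with `E = {e // e ∈ W}`, `Λ = Option (Fin J)`, `p e (some j) = p j`, `p e none = 1 - ∑ p j`, `z = 1/10^8`. Tests (index type a sum type): for `j`, `u` (resp. `v`): the edges at `u` with label `j`; with
label `≥ j`; for `j, u, x ∈ C`: the edges `(u,v)` with `x ∉ nv v` and label `j` (and the transposed ones), all with `t = 8 L/z = 8 * 10^8 L`; for `j`, nonempty `S`, `T`: the edges between `S` and `T`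
with label `j`, `t = 8 * 10^8 L max (|S|,|T|)`. Sum of `2 exp (-z t)`: the first kinds: at most `2 J (2 * 2N) + 2 J N |C| * 2... ≤ exp (6 L)` tests (`J ≤ exp (2L)`, `N, |C| ≤ exp L`, `L ≥ 2`) so `≤ 2 exp (-2L) < 1/4`; the last kind:
`J * ∑_{S,T ≠ ∅} 2 exp (-8 L max) ≤ 1/4` (module PairSum). Means: the number of the edges times `p j` (resp. `∑ i ∈ Ico j J, p i`). For `S` or `T` empty `eb = 0`.
`R j` = edges with label `j` (`∅` for `j ≥ J`).
-/

set_option autoImplicit false

open scoped Classical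

noncomputable section

namespace Pool.Agent.Lib.TriS

/-- one-sided properties of random layers -/
def LRSide {U V X : Type} [Fintype U] [Fintype V] (W : Finset (U × V)) (nv : V → Finset X)
    (C : Finset X) (J : ℕ) (p : ℕ → ℝ) (R : ℕ → Finset (U × V)) (L : ℝ) : Prop :=
  (∀ j < J, ∀ u, |((nb (R j) u).card : ℝ) - p j * (nb W u).card| ≤
    1 / 10 ^ 8 * (p j * (nb W u).card) + 8 * 10 ^ 8 * L) ∧
  (∀ j < J, ∀ u, |((nb ((Finset.Ico j J).biUnion R) u).card : ℝ) -
      (∑ i ∈ Finset.Ico j J, p i) * (nb W u).card| ≤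
    1 / 10 ^ 8 * ((∑ i ∈ Finset.Ico j J, p i) * (nb W u).card) + 8 * 10 ^ 8 * L) ∧
  (∀ j < J, ∀ u, ∀ x ∈ C, (((nb (R j) u).filter fun v => x ∉ nv v).card : ℝ) ≤
    (1 + 1 / 10 ^ 8) * (p j * ((nb W u).filter fun v => x ∉ nv v).card) + 8 * 10 ^ 8 * L)

private theorem layR_core {U V : Type} [Fintype U] [Fintype V] (W : Finset (U × V)) (J : ℕ)
    (p : ℕ → ℝ) (hp0 : ∀ j, 0 ≤ p j) (hp1 : ∑ j ∈ Finset.range J, p j ≤ 1) {ι : Type}
    (I : Finset ι) (Q : ι → U × V → Prop) (A : ι → Finset ℕ) (hA : ∀ i, A i ⊆ Finset.range J)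
    (t : ι → ℝ) (z : ℝ) (hz : 0 < z) (hz1 : z ≤ 1)
    (hs : ∑ i ∈ I, 2 * Real.exp (-(z * t i)) < 1) :
    ∃ R : ℕ → Finset (U × V), (∀ i j, i ≠ j → Disjoint (R i) (R j)) ∧ (∀ j, R j ⊆ W) ∧
      ∀ i ∈ I, (1 - z) * (((W.filter (Q i)).card : ℝ) * ∑ j ∈ A i, p j) - t i ≤
          ((((A i).biUnion R).filter (Q i)).card : ℝ) ∧
        ((((A i).biUnion R).filter (Q i)).card : ℝ) ≤
          (1 + z) * (((W.filter (Q i)).card : ℝ) * ∑ j ∈ A i, p j) + t i := by
  have hsub : ∀ i, ∀ j ∈ A i, j < J := fun i j hj => Finset.mem_range.1 (hA i hj)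
  obtain ⟨f, hf⟩ := label (E := W) (Λ := Fin (J + 1)) (ι := ι)
    (fun _ a => if (a : ℕ) < J then p a else 1 - ∑ j ∈ Finset.range J, p j)
    (by
      intro e a
      split_ifs
      · exact hp0 _
      · linarith)
    (by
      intro e
      rw [Fin.sum_univ_eq_sum_range
        (fun a : ℕ => if a < J then p a else 1 - ∑ j ∈ Finset.range J, p j) (J + 1),
        Finset.sum_range_succ, if_neg (lt_irrefl J),
        Finset.sum_congr rfl fun a ha => if_pos (Finset.mem_range.1 ha)]
      ring)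
    I (fun i => Finset.univ.filter fun q : W × Fin (J + 1) => Q i q.1 ∧ (q.2 : ℕ) ∈ A i)
    z hz hz1 t hs
  have hmem : ∀ (j : ℕ) (e : U × V), e ∈ (Finset.univ.filter fun e : W =>
      (f e : ℕ) = j ∧ j < J).map (Function.Embedding.subtype _) ↔
      ∃ h : e ∈ W, (f ⟨e, h⟩ : ℕ) = j ∧ j < J := by
    intro j e
    simp only [Finset.mem_map, Finset.mem_filter, Finset.mem_univ, true_and,
      Function.Embedding.coe_subtype]
    constructor
    · rintro ⟨⟨e', he'⟩, h1, rfl⟩
      exact ⟨he', h1⟩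
    · rintro ⟨h, h1⟩
      exact ⟨⟨e, h⟩, h1, rfl⟩
  refine ⟨fun j => (Finset.univ.filter fun e : W => (f e : ℕ) = j ∧ j < J).map
    (Function.Embedding.subtype _), ?_, ?_, ?_⟩
  · intro i j hij
    rw [Finset.disjoint_left]
    intro e he he'
    rw [hmem] at he he'
    obtain ⟨h, h1, _⟩ := he
    obtain ⟨_, h2, _⟩ := he'
    exact hij (h1.symm.trans h2)
  · intro j e he
    obtain ⟨h, _⟩ := (hmem j e).1 he
    exact h
  · intro i hi
    have h1 := hf i hi
    have hmu : muL (fun (_ : W) (a : Fin (J + 1)) =>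
        if (a : ℕ) < J then p a else 1 - ∑ j ∈ Finset.range J, p j)
        (Finset.univ.filter fun q : W × Fin (J + 1) => Q i q.1 ∧ (q.2 : ℕ) ∈ A i) =
        ((W.filter (Q i)).card : ℝ) * ∑ j ∈ A i, p j := by
      unfold muL
      have e1 : (Finset.univ.filter fun q : W × Fin (J + 1) => Q i q.1 ∧ (q.2 : ℕ) ∈ A i) =
          (Finset.univ.filter fun e : W => Q i e) ×ˢ
            (Finset.univ.filter fun a : Fin (J + 1) => (a : ℕ) ∈ A i) := by
        ext q
        simp only [Finset.mem_filter, Finset.mem_univ, true_and, Finset.mem_product]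
      have e2 : ∑ a ∈ Finset.univ.filter (fun a : Fin (J + 1) => (a : ℕ) ∈ A i),
          (if (a : ℕ) < J then p a else 1 - ∑ j ∈ Finset.range J, p j) = ∑ j ∈ A i, p j := by
        rw [Finset.sum_filter, Fin.sum_univ_eq_sum_range (fun a : ℕ => if a ∈ A i then
          (if a < J then p a else 1 - ∑ j ∈ Finset.range J, p j) else 0) (J + 1),
          ← Finset.sum_filter]
        have e3 : (Finset.range (J + 1)).filter (fun a => a ∈ A i) = A i := by
          ext a
          simp only [Finset.mem_filter, Finset.mem_range]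
          constructor
          · exact fun h => h.2
          · exact fun h => ⟨(hsub i a h).trans (Nat.lt_succ_self J), h⟩
        rw [e3]
        exact Finset.sum_congr rfl fun a ha => if_pos (hsub i a ha)
      have e4 : (Finset.univ.filter fun e : W => Q i e).card = (W.filter (Q i)).card := by
        rw [← Finset.card_map (Function.Embedding.subtype _)]
        congr 1
        ext e
        simp only [Finset.mem_map, Finset.mem_filter, Finset.mem_univ, true_and,
          Function.Embedding.coe_subtype]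
        constructor
        · rintro ⟨⟨e', he'⟩, h1, rfl⟩
          exact ⟨he', h1⟩
        · rintro ⟨h, h1⟩
          exact ⟨⟨e, h⟩, h1, rfl⟩
      rw [e1, Finset.sum_product]
      simp only
      rw [e2, Finset.sum_const, nsmul_eq_mul, e4]
    have hcnt : cntL f (Finset.univ.filter fun q : W × Fin (J + 1) => Q i q.1 ∧ (q.2 : ℕ) ∈ A i) =
        (((A i).biUnion fun j => (Finset.univ.filter fun e : W => (f e : ℕ) = j ∧ j < J).map
          (Function.Embedding.subtype _)).filter (Q i)).card := by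
      unfold cntL
      rw [← Finset.card_map (Function.Embedding.subtype _)]
      congr 1
      ext e
      rw [Finset.mem_filter, Finset.mem_biUnion]
      simp only [hmem]
      simp only [Finset.mem_map, Finset.mem_filter, Finset.mem_univ, true_and,
        Function.Embedding.coe_subtype]
      constructor
      · rintro ⟨⟨e', he'⟩, h2, rfl⟩
        exact ⟨⟨_, h2.2, he', rfl, hsub i _ h2.2⟩, h2.1⟩
      · rintro ⟨⟨j, hj, h, h2, _⟩, h3⟩
        refine ⟨⟨e, h⟩, ⟨h3, ?_⟩, rfl⟩
        rw [h2]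
        exact hj
    rw [hmu, hcnt] at h1
    exact h1

private theorem layR_nb {U V : Type} [Fintype V] (K : Finset (U × V)) (u : U) (P : V → Prop)
    [DecidablePred P] (Q : U × V → Prop) [DecidablePred Q] (hQ : ∀ e, Q e ↔ e.1 = u ∧ P e.2) :
    ((nb K u).filter P).card = (K.filter Q).card := by
  refine Finset.card_bij (fun v _ => (u, v)) ?_ ?_ ?_
  · intro v hv
    rw [Finset.mem_filter, mem_nb] at hv
    rw [Finset.mem_filter, hQ]
    exact ⟨hv.1, rfl, hv.2⟩
  · intro v _ v' _ h
    exact (Prod.mk.inj h).2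
  · rintro ⟨u', v⟩ h
    rw [Finset.mem_filter, hQ] at h
    obtain ⟨h1, h2, h3⟩ := h
    simp only at h2 h3
    subst h2
    exact ⟨v, Finset.mem_filter.2 ⟨mem_nb.2 h1, h3⟩, rfl⟩

private theorem layR_nbt {U V : Type} [Fintype U] (K : Finset (U × V)) (v : V) (P : U → Prop)
    [DecidablePred P] (Q : U × V → Prop) [DecidablePred Q] (hQ : ∀ e, Q e ↔ e.2 = v ∧ P e.1) :
    ((nb (tr K) v).filter P).card = (K.filter Q).card := by
  refine Finset.card_bij (fun u _ => (u, v)) ?_ ?_ ?_
  · intro u hu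
    rw [Finset.mem_filter, mem_nb, mem_tr] at hu
    rw [Finset.mem_filter, hQ]
    exact ⟨hu.1, rfl, hu.2⟩
  · intro u _ u' _ h
    exact (Prod.mk.inj h).1
  · rintro ⟨u, v'⟩ h
    rw [Finset.mem_filter, hQ] at h
    obtain ⟨h1, h2, h3⟩ := h
    simp only at h2 h3
    subst h2
    exact ⟨u, Finset.mem_filter.2 ⟨mem_nb.2 (mem_tr.2 h1), h3⟩, rfl⟩

/-- the predicates of the tests at a vertex -/
private def lrP {U V X : Type} (nu : U → Finset X) (nv : V → Finset X) {C : Finset X} :
    (U ⊕ V) → Option C → U × V → Prop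
  | Sum.inl u, none, e => e.1 = u ∧ True
  | Sum.inl u, some x, e => e.1 = u ∧ (x : X) ∉ nv e.2
  | Sum.inr v, none, e => e.2 = v ∧ True
  | Sum.inr v, some x, e => e.2 = v ∧ (x : X) ∉ nu e.1

private theorem layR_side {U V X : Type} [Fintype U] [Fintype V] (W : Finset (U × V))
    (nv : V → Finset X) (C : Finset X) (J : ℕ) (p : ℕ → ℝ) (R : ℕ → Finset (U × V)) (L : ℝ)
    (h1 : ∀ j < J, ∀ A : Finset ℕ, (A = {j} ∨ A = Finset.Ico j J) → ∀ u,
      (1 - 1 / 10 ^ 8) * ((((nb W u).filter fun _ => True).card : ℝ) * ∑ i ∈ A, p i) -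
        8 * 10 ^ 8 * L ≤ (((nb (A.biUnion R) u).filter fun _ => True).card : ℝ) ∧
      (((nb (A.biUnion R) u).filter fun _ => True).card : ℝ) ≤
      (1 + 1 / 10 ^ 8) * ((((nb W u).filter fun _ => True).card : ℝ) * ∑ i ∈ A, p i) +
        8 * 10 ^ 8 * L)
    (h2 : ∀ j < J, ∀ u, ∀ x ∈ C,
      (((nb (({j} : Finset ℕ).biUnion R) u).filter fun v => x ∉ nv v).card : ℝ) ≤
      (1 + 1 / 10 ^ 8) * ((((nb W u).filter fun v => x ∉ nv v).card : ℝ) *
        ∑ i ∈ ({j} : Finset ℕ), p i) + 8 * 10 ^ 8 * L) :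
    LRSide W nv C J p R L := by
  refine ⟨?_, ?_, ?_⟩
  · intro j hj u
    have h3 := h1 j hj {j} (Or.inl rfl) u
    rw [Finset.singleton_biUnion, Finset.sum_singleton, Finset.filter_true, Finset.filter_true]
      at h3
    rw [abs_le]
    constructor <;> linarith [h3.1, h3.2]
  · intro j hj u
    have h3 := h1 j hj (Finset.Ico j J) (Or.inr rfl) u
    rw [Finset.filter_true, Finset.filter_true] at h3
    rw [abs_le]
    constructor <;> linarith [h3.1, h3.2]
  · intro j hj u x hx
    have h3 := h2 j hj u x hx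
    rw [Finset.singleton_biUnion, Finset.sum_singleton] at h3
    linarith [h3]

private theorem layR_sum {U V X : Type} [Fintype U] [Fintype V] (C : Finset X) (L : ℝ)
    (hL : 2 ≤ L) (J : ℕ) (hJ : (J : ℝ) ≤ Real.exp (2 * L))
    (hU : (Fintype.card U : ℝ) ≤ Real.exp L) (hV : (Fintype.card V : ℝ) ≤ Real.exp L)
    (hC : (C.card : ℝ) ≤ Real.exp L) :
    (∑ _i : Fin J × (U ⊕ V) × Option C × Bool, 2 * Real.exp (-(8 * L))) +
      ∑ i ∈ (Finset.univ : Finset (Fin J)) ×ˢ
        (((Finset.univ : Finset (Finset U)).filter fun S => S.Nonempty) ×ˢ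
        ((Finset.univ : Finset (Finset V)).filter fun T => T.Nonempty)),
        2 * Real.exp (-(8 * L * max (i.2.1.card : ℝ) i.2.2.card)) < 1 := by
  have hpos := Real.exp_pos L
  have hp2 := Real.exp_pos (2 * L)
  have h4 : Real.exp (-(4 * L)) ≤ 1 / 64 := by
    have e1 : Real.exp (-(4 * L)) ≤ Real.exp (-8) := Real.exp_le_exp.2 (by linarith)
    have e2 : Real.exp (-8) ≤ 1 / 64 := by
      rw [Real.exp_neg]
      rw [inv_le_comm₀ (Real.exp_pos 8) (by norm_num)]
      have e3 : (8 : ℝ) = 1 + 1 + 1 + 1 + 1 + 1 + 1 + 1 := by norm_num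
      have e4 : (2 : ℝ) ≤ Real.exp 1 := by
        have := Real.add_one_le_exp (1 : ℝ)
        linarith
      have e5 : Real.exp 8 = Real.exp 1 ^ 8 := by
        rw [← Real.exp_nat_mul]
        norm_num
      rw [e5]
      calc (1 / 64 : ℝ)⁻¹ ≤ 2 ^ 8 := by norm_num
        _ ≤ Real.exp 1 ^ 8 := pow_le_pow_left₀ (by norm_num) e4 8
    exact e1.trans e2
  have h5 : 2 ≤ Real.exp L := by
    have := Real.add_one_le_exp L
    linarith
  have hA : (∑ _i : Fin J × (U ⊕ V) × Option C × Bool, 2 * Real.exp (-(8 * L))) < 1 / 2 := by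
    rw [Finset.sum_const, Finset.card_univ, nsmul_eq_mul]
    have e1 : (Fintype.card (Fin J × (U ⊕ V) × Option C × Bool) : ℝ) =
        J * ((Fintype.card U + Fintype.card V) * ((C.card + 1) * 2)) := by
      rw [Fintype.card_prod, Fintype.card_prod, Fintype.card_prod, Fintype.card_sum,
        Fintype.card_option, Fintype.card_coe, Fintype.card_fin, Fintype.card_bool]
      push_cast
      ring
    rw [e1]
    have e2 : (J : ℝ) * ((Fintype.card U + Fintype.card V) * ((C.card + 1) * 2)) ≤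
        Real.exp (2 * L) * ((Real.exp L + Real.exp L) * ((Real.exp L + Real.exp L) * 2)) := by
      have f1 : ((Fintype.card U : ℝ) + Fintype.card V) ≤ Real.exp L + Real.exp L := by linarith
      have f2 : ((C.card : ℝ) + 1) * 2 ≤ (Real.exp L + Real.exp L) * 2 := by linarith
      refine mul_le_mul hJ (mul_le_mul f1 f2 (by positivity) (by positivity)) (by positivity)
        (by positivity)
    have e3 : Real.exp (2 * L) * ((Real.exp L + Real.exp L) * ((Real.exp L + Real.exp L) * 2)) *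
        (2 * Real.exp (-(8 * L))) = 16 * Real.exp (-(4 * L)) := by
      have g1 : Real.exp (-(4 * L)) = Real.exp (2 * L) * (Real.exp L * Real.exp L) *
          Real.exp (-(8 * L)) := by
        rw [← Real.exp_add, ← Real.exp_add, ← Real.exp_add]
        congr 1
        ring
      rw [g1]
      ring
    have e4 := mul_le_mul_of_nonneg_right e2
      (by positivity : (0 : ℝ) ≤ 2 * Real.exp (-(8 * L)))
    rw [e3] at e4
    linarith
  have hB : ∑ i ∈ (Finset.univ : Finset (Fin J)) ×ˢ
        (((Finset.univ : Finset (Finset U)).filter fun S => S.Nonempty) ×ˢ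
        ((Finset.univ : Finset (Finset V)).filter fun T => T.Nonempty)),
        2 * Real.exp (-(8 * L * max (i.2.1.card : ℝ) i.2.2.card)) < 1 / 2 := by
    have e0 := pair_sum (U := U) (V := V) L (by linarith) hU hV
    rw [Finset.sum_product]
    simp only
    rw [Finset.sum_const, Finset.card_univ, Fintype.card_fin, nsmul_eq_mul, ← Finset.mul_sum,
      Finset.sum_product]
    simp only
    have e1 : (J : ℝ) * (2 * ∑ S ∈ (Finset.univ : Finset (Finset U)).filter
        (fun S => S.Nonempty), ∑ T ∈ (Finset.univ : Finset (Finset V)).filter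
        (fun T => T.Nonempty), Real.exp (-(8 * L * max (S.card : ℝ) T.card))) ≤
        Real.exp (2 * L) * (2 * (4 * Real.exp (-(6 * L)))) := by
      refine mul_le_mul hJ (by linarith) ?_ hp2.le
      refine mul_nonneg (by norm_num) (Finset.sum_nonneg fun S _ => Finset.sum_nonneg
        fun T _ => (Real.exp_pos _).le)
    have e2 : Real.exp (2 * L) * (2 * (4 * Real.exp (-(6 * L)))) = 8 * Real.exp (-(4 * L)) := by
      have g1 : Real.exp (-(4 * L)) = Real.exp (2 * L) * Real.exp (-(6 * L)) := by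
        rw [← Real.exp_add]
        congr 1
        ring
      rw [g1]
      ring
    rw [e2] at e1
    linarith
  linarith

theorem lay_R {U V X : Type} [Fintype U] [Fintype V] (nu : U → Finset X) (nv : V → Finset X)
    (W : Finset (U × V)) (C : Finset X) (L : ℝ) (hL : 2 ≤ L) (J : ℕ) (p : ℕ → ℝ)
    (hp0 : ∀ j, 0 ≤ p j) (hp1 : ∑ j ∈ Finset.range J, p j ≤ 1) (hJ : (J : ℝ) ≤ Real.exp (2 * L))
    (hU : (Fintype.card U : ℝ) ≤ Real.exp L) (hV : (Fintype.card V : ℝ) ≤ Real.exp L)
    (hC : (C.card : ℝ) ≤ Real.exp L) :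
    ∃ R : ℕ → Finset (U × V), (∀ i < J, ∀ j < J, i ≠ j → Disjoint (R i) (R j)) ∧
      (∀ j < J, R j ⊆ W) ∧ LRSide W nv C J p R L ∧ LRSide (tr W) nu C J p (fun j => tr (R j)) L ∧
      ∀ j < J, ∀ (S : Finset U) (T : Finset V), (eb (R j) S T : ℝ) ≤
        (1 + 1 / 10 ^ 8) * (p j * eb W S T) + 8 * 10 ^ 8 * L * max (S.card : ℝ) T.card := by
  have hz : (0 : ℝ) < 1 / 10 ^ 8 := by norm_num
  have hz1 : (1 : ℝ) / 10 ^ 8 ≤ 1 := by norm_num
  obtain ⟨R, hR1, hR2, hR3⟩ := layR_core W J p hp0 hp1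
    (ι := (Fin J × (U ⊕ V) × Option C × Bool) ⊕ (Fin J × Finset U × Finset V))
    ((Finset.univ : Finset (Fin J × (U ⊕ V) × Option C × Bool)).disjSum
      ((Finset.univ : Finset (Fin J)) ×ˢ
        (((Finset.univ : Finset (Finset U)).filter fun S => S.Nonempty) ×ˢ
        ((Finset.univ : Finset (Finset V)).filter fun T => T.Nonempty))))
    (Sum.elim (fun i => lrP nu nv i.2.1 i.2.2.1) fun i e => e.1 ∈ i.2.1 ∧ e.2 ∈ i.2.2)
    (Sum.elim (fun i => if i.2.2.2 then {(i.1 : ℕ)} else Finset.Ico (i.1 : ℕ) J)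
      fun i => {(i.1 : ℕ)})
    (by
      rintro (⟨j, w, o, b⟩ | ⟨j, S, T⟩)
      · simp only [Sum.elim_inl]
        split_ifs
        · intro a ha
          rw [Finset.mem_singleton] at ha
          rw [ha, Finset.mem_range]
          exact j.2
        · intro a ha
          rw [Finset.mem_Ico] at ha
          rw [Finset.mem_range]
          exact ha.2
      · simp only [Sum.elim_inr]
        intro a ha
        rw [Finset.mem_singleton] at ha
        rw [ha, Finset.mem_range]
        exact j.2)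
    (Sum.elim (fun _ => 8 * 10 ^ 8 * L)
      fun i => 8 * 10 ^ 8 * L * max (i.2.1.card : ℝ) i.2.2.card)
    (1 / 10 ^ 8) hz hz1
    (by
      rw [Finset.sum_disjSum]
      simp only [Sum.elim_inl, Sum.elim_inr]
      refine lt_of_eq_of_lt ?_ (layR_sum (U := U) (V := V) C L hL J hJ hU hV hC)
      congr 1
      · refine Finset.sum_congr rfl fun i _ => ?_
        congr 3
        ring
      · refine Finset.sum_congr rfl fun i _ => ?_
        congr 3
        ring)
  have hT : ∀ (j : ℕ) (hj : j < J) (w : U ⊕ V) (o : Option C) (b : Bool),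
      (1 - 1 / 10 ^ 8) * (((W.filter (lrP nu nv w o)).card : ℝ) *
        ∑ i ∈ (if b then {j} else Finset.Ico j J), p i) - 8 * 10 ^ 8 * L ≤
        ((((if b then {j} else Finset.Ico j J).biUnion R).filter (lrP nu nv w o)).card : ℝ) ∧
      ((((if b then {j} else Finset.Ico j J).biUnion R).filter (lrP nu nv w o)).card : ℝ) ≤
      (1 + 1 / 10 ^ 8) * (((W.filter (lrP nu nv w o)).card : ℝ) *
        ∑ i ∈ (if b then {j} else Finset.Ico j J), p i) + 8 * 10 ^ 8 * L := by
    intro j hj w o b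
    exact hR3 (Sum.inl (⟨j, hj⟩, w, o, b))
      (Finset.inl_mem_disjSum.2 (Finset.mem_univ _))
  have hT' : ∀ (j : ℕ) (hj : j < J) (A : Finset ℕ), (A = {j} ∨ A = Finset.Ico j J) →
      ∀ (w : U ⊕ V) (o : Option C),
      (1 - 1 / 10 ^ 8) * (((W.filter (lrP nu nv w o)).card : ℝ) * ∑ i ∈ A, p i) -
        8 * 10 ^ 8 * L ≤ (((A.biUnion R).filter (lrP nu nv w o)).card : ℝ) ∧
      (((A.biUnion R).filter (lrP nu nv w o)).card : ℝ) ≤
      (1 + 1 / 10 ^ 8) * (((W.filter (lrP nu nv w o)).card : ℝ) * ∑ i ∈ A, p i) +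
        8 * 10 ^ 8 * L := by
    rintro j hj A (rfl | rfl) w o
    · exact hT j hj w o true
    · exact hT j hj w o false
  refine ⟨R, fun i _ j _ hij => hR1 i j hij, fun j _ => hR2 j, ?_, ?_, ?_⟩
  · refine layR_side W nv C J p R L ?_ ?_
    · intro j hj A hA u
      rw [layR_nb W u _ (lrP nu nv (Sum.inl u) (none : Option C)) fun _ => Iff.rfl,
        layR_nb (A.biUnion R) u _ (lrP nu nv (Sum.inl u) (none : Option C)) fun _ => Iff.rfl]
      exact hT' j hj A hA (Sum.inl u) none
    · intro j hj u x hx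
      rw [layR_nb W u _ (lrP nu nv (Sum.inl u) (some ⟨x, hx⟩ : Option C)) fun _ => Iff.rfl,
        layR_nb (({j} : Finset ℕ).biUnion R) u _
          (lrP nu nv (Sum.inl u) (some ⟨x, hx⟩ : Option C)) fun _ => Iff.rfl]
      exact (hT' j hj {j} (Or.inl rfl) (Sum.inl u) (some ⟨x, hx⟩)).2
  · refine layR_side (tr W) nu C J p (fun j => tr (R j)) L ?_ ?_
    · intro j hj A hA v
      rw [← tr_biUnion,
        layR_nbt W v _ (lrP nu nv (Sum.inr v) (none : Option C)) fun _ => Iff.rfl,
        layR_nbt (A.biUnion R) v _ (lrP nu nv (Sum.inr v) (none : Option C)) fun _ => Iff.rfl]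
      exact hT' j hj A hA (Sum.inr v) none
    · intro j hj v x hx
      rw [← tr_biUnion,
        layR_nbt W v _ (lrP nu nv (Sum.inr v) (some ⟨x, hx⟩ : Option C)) fun _ => Iff.rfl,
        layR_nbt (({j} : Finset ℕ).biUnion R) v _
          (lrP nu nv (Sum.inr v) (some ⟨x, hx⟩ : Option C)) fun _ => Iff.rfl]
      exact (hT' j hj {j} (Or.inl rfl) (Sum.inr v) (some ⟨x, hx⟩)).2
  · intro j hj S T
    rcases S.eq_empty_or_nonempty with rfl | hS
    · have e1 : eb (R j) ∅ T = 0 := by
        unfold eb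
        rw [Finset.card_eq_zero, Finset.filter_eq_empty_iff]
        rintro e _ ⟨h, _⟩
        exact Finset.notMem_empty _ h
      rw [e1, Nat.cast_zero]
      have := hp0 j
      positivity
    rcases T.eq_empty_or_nonempty with rfl | hT2
    · have e1 : eb (R j) S ∅ = 0 := by
        unfold eb
        rw [Finset.card_eq_zero, Finset.filter_eq_empty_iff]
        rintro e _ ⟨_, h⟩
        exact Finset.notMem_empty _ h
      rw [e1, Nat.cast_zero]
      have := hp0 j
      positivity
    have h3 := hR3 (Sum.inr (⟨j, hj⟩, S, T)) (Finset.inr_mem_disjSum.2 (by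
      rw [Finset.mem_product, Finset.mem_product, Finset.mem_filter, Finset.mem_filter]
      exact ⟨Finset.mem_univ _, ⟨Finset.mem_univ _, hS⟩, ⟨Finset.mem_univ _, hT2⟩⟩))
    have h4 := h3.2
    simp only [Sum.elim_inr, Finset.singleton_biUnion, Finset.sum_singleton] at h4
    unfold eb
    linarith [h4]

end Pool.Agent.Lib.TriS
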