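import Pool.Agent.Lib.TriS.LDefs
import Pool.Agent.Lib.TriS.LNum
import Pool.Agent.Lib.TriS.LayQ
import Pool.Agent.Lib.TriS.LayR

/-!
MODULE LExist (about 250 lines; may be split). The layers exist.

PROOF. `D = |C| + ρ`, `De = |Ce| + ρ`, `oe = De - de ≥ el De`, `W = H \ P`. `lay_num` gives `J`, `sg`; `o j = (oe + 7/8 (D - De)) (1 - 7/8 sg)^j`, `o J = oe`, so `oe ≤ o j` for `j ≤ J`; `o (j+1) = o j (1 - 7/8 sg)`;
`Dn j = De + 8/7 (o j - oe)`, `dP j = Dn j - o j` (`dPsucc` ok; `dP j = de + 1/7 (o j - oe)`), `o 0 ≥ 7/8 * 19/20 D ≥ D/2`.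
`sg o j ≥ oe/200 ≥ el De/200 ≥ 10^21 L/200 = 5 * 10^18 L` (`hK`: `10^21/el * L ≤ De`), hence `8 * 10^8 L ≤ 2/10^10 * (sg o j)`.
`q j = sg o j/(D - De)`: sum over `range J` is `8/7 (o 0 - oe)/(D - De) = 1` (`lay_sum`); `∑_{Ico j J} q = 8/7 (o j - oe)/(D - De)`; `|C \ Ce| = D - De`.
`p j = (sg o j/8)/(D - de)`; `∑_{Ico j J} p = 1/7 (o j - oe)/(D - de)`, total `(D - De)/8/(D - de) ≤ 1`. `D - de ≥ 19/20 D`, `D - De ≥ 19/20 D`.
`L ≥ 2`: `exp L ≥ |C| = D - ρ ≥ D - De ≥ 19 De ≥ 19 * 10^21`. `J ≤ 128 (log D - log oe) + 1 ≤ 128 (L + 1) + 1 ≤ exp (2L)` (`oe ≥ el De ≥ 10^21 ≥ 1`; `D ≤ 20/19 |C| ≤ 2 exp L`).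
`cC`: `|Cl j| + ρ = De + |⋃_{i ≥ j} Q i|` (disjoint: `Q i ⊆ C \ Ce`), mean `Dn j - De`; error `1/10^8 * 8/7 o j + 8*10^8 L ≤ 1/10^7 o j`. `cQ` similar.
`miss`: `|Cl j \ nu u| ≤ |Ce \ nu u| + |⋃ Q i \ nu u| ≤ (el/10^9) De + (1+1/10^8) (8/7 (o j - oe)/(D - De)) (el/10^9) D + 8*10^8 L`; `el De ≤ oe ≤ o j`, `D/(D-De) ≤ 20/19`: `≤ 1/10^7 o j`. `missQ`:
`≤ (1+1/10^8) (sg o j/(D-De)) (el/10^9) D + ... ≤ 1/10^7 sg o j`.
`card (nb W u) = card (nb H u) - card (nb P u)` is within `(el/10^9)(D + De) ≤ 2.2/10^9 (D - de)` of `D - de` (`deg`, `miss`: `card (nu u) = |C| - |C \ nu u|`; `degP`).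
`degP`: `nb (Pl j) u` = disjoint union of `nb P u` and `nb (⋃ R i) u`; `|..- dP j| ≤ (el/10^9) De + error`, mean of the second `1/7 (o j - oe) (1 ± 3/10^9)`. `degR`, `badR` similar
(`bad`: `≤ (el/10^9) D`).
`mix`: `eb (R j) S T ≤ (1+1/10^8) (sg o j/8)/(D - de) * D (105/100 |S||T|/N + (el/10^9) max) + 8*10^8 L max`, `D/(D-de) ≤ 20/19`, `(1+1/10^8)(20/19)(1.05) ≤ 1.2`, `8*10^8 L ≤ 2/10^10 * 8 (sg o j/8)`.
-/

set_option autoImplicit false

open scoped Classical

noncomputable section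

namespace Pool.Agent.Lib.TriS

private theorem card_nu {X : Type} {C A : Finset X} (h : A ⊆ C) :
    (A.card : ℝ) = C.card - (C \ A).card := by
  have h1 := Finset.card_sdiff_add_card_eq_card h
  have h2 : (((C \ A).card + A.card : ℕ) : ℝ) = C.card := by rw [h1]
  push_cast at h2
  linarith

private theorem sc {el X : ℝ} (h : el ≤ 1) (hX : 0 ≤ X) : el / 10 ^ 9 * X ≤ X / 10 ^ 9 := by
  have h1 : el * X ≤ 1 * X := mul_le_mul_of_nonneg_right h hX
  rw [one_mul] at h1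
  rw [div_mul_eq_mul_div]
  exact div_le_div_of_nonneg_right h1 (by norm_num)

private theorem sgo {sg o : ℝ} (h : 1 / 200 ≤ sg) (ho : 0 ≤ o) : o / 200 ≤ sg * o := by
  have h1 : 1 / 200 * o ≤ sg * o := mul_le_mul_of_nonneg_right h ho
  linarith

private theorem side {U V X : Type} [Fintype U] [Fintype V] (H P : Finset (U × V))
    (nu : U → Finset X) (nv : V → Finset X) (C Ce : Finset X) (ρ : ℕ) (L el de : ℝ)
    (hP : P ⊆ H) (hel : 0 < el) (hel1 : el ≤ 1)
    (h1 : PSide H P nu nv C Ce ρ de (el / 10 ^ 9)) (J : ℕ) (sg : ℝ) (o dP q p : ℕ → ℝ)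
    (D De oe : ℝ) (hD : D = C.card + ρ) (hDe : De = Ce.card + ρ) (hoe : oe = De - de)
    (h20 : 20 * De ≤ D) (hde0 : 0 ≤ de) (helDe : el * De ≤ oe) (hLoe : 10 ^ 21 * L ≤ oe)
    (hL : 0 ≤ L) (hsg : 1 / 200 ≤ sg) (ho : ∀ j < J, oe ≤ o j)
    (hdP : ∀ j, dP j = de + 1 / 7 * (o j - oe))
    (hq0 : ∀ j, 0 ≤ q j) (hp0 : ∀ j, 0 ≤ p j)
    (hq : ∀ j, q j * (D - De) = sg * o j)
    (hqs : ∀ j < J, (∑ i ∈ Finset.Ico j J, q i) * (D - De) = 8 / 7 * (o j - oe))
    (hp : ∀ j, p j * (D - de) = sg * o j / 8)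
    (hps : ∀ j < J, (∑ i ∈ Finset.Ico j J, p i) * (D - de) = 1 / 7 * (o j - oe))
    (Q : ℕ → Finset X) (R : ℕ → Finset (U × V)) (hR : ∀ j < J, R j ⊆ H \ P)
    (hQm : ∀ j < J, ∀ u, ((Q j \ nu u).card : ℝ) ≤
      (1 + 1 / 10 ^ 8) * (q j * ((C \ Ce) \ nu u).card) + 8 * 10 ^ 8 * L)
    (hQm2 : ∀ j < J, ∀ u, (((Finset.Ico j J).biUnion Q \ nu u).card : ℝ) ≤
      (1 + 1 / 10 ^ 8) * ((∑ i ∈ Finset.Ico j J, q i) * ((C \ Ce) \ nu u).card) + 8 * 10 ^ 8 * L)
    (hRS : LRSide (H \ P) nv C J p R L) : LSide P nu nv C Ce J sg o dP Q R := by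
  have hDe0 : 0 ≤ De := by rw [hDe]; positivity
  have hD0 : 0 ≤ D := by rw [hD]; positivity
  have hoe0 : 0 ≤ oe := le_trans (by positivity) hLoe
  have hdeDe : de ≤ De := by linarith
  have hs : ∀ j < J, o j / 200 ≤ sg * o j := by
    intro j hj
    exact sgo hsg (le_trans hoe0 (ho j hj))
  -- misses
  have hmC : ∀ u, (((C \ Ce) \ nu u).card : ℝ) ≤ D / 10 ^ 9 := by
    intro u
    have e1 : ((C \ Ce) \ nu u).card ≤ (C \ nu u).card :=
      Finset.card_le_card (Finset.sdiff_subset_sdiff Finset.sdiff_subset (Finset.Subset.refl _))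
    have e2 := h1.miss u
    rw [← hD] at e2
    have e3 : (((C \ Ce) \ nu u).card : ℝ) ≤ (C \ nu u).card := by exact_mod_cast e1
    have e4 : el / 10 ^ 9 * D ≤ D / 10 ^ 9 := sc hel1 hD0
    linarith
  have hscal : ∀ (α m X' : ℝ), 0 ≤ α → α * (D - De) = m → X' ≤ D / 10 ^ 9 →
      α * X' ≤ 20 / 19 * m / 10 ^ 9 := by
    intro α m X' ha hm hX
    have e1 : D ≤ 20 / 19 * (D - De) := by linarith
    have e2 : α * X' ≤ α * (20 / 19 * (D - De) / 10 ^ 9) :=
      mul_le_mul_of_nonneg_left (by linarith) ha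
    have e3 : α * (20 / 19 * (D - De) / 10 ^ 9) = 20 / 19 * (α * (D - De)) / 10 ^ 9 := by ring
    rw [e3, hm] at e2
    exact e2
  have hscal' : ∀ (α m X' : ℝ), 0 ≤ α → α * (D - de) = m → X' ≤ D / 10 ^ 9 →
      α * X' ≤ 20 / 19 * m / 10 ^ 9 := by
    intro α m X' ha hm hX
    have e1 : D ≤ 20 / 19 * (D - de) := by linarith
    have e2 : α * X' ≤ α * (20 / 19 * (D - de) / 10 ^ 9) :=
      mul_le_mul_of_nonneg_left (by linarith) ha
    have e3 : α * (20 / 19 * (D - de) / 10 ^ 9) = 20 / 19 * (α * (D - de)) / 10 ^ 9 := by ring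
    rw [e3, hm] at e2
    exact e2
  have helDe' : el / 10 ^ 9 * De ≤ oe / 10 ^ 9 := by
    have : el / 10 ^ 9 * De = el * De / 10 ^ 9 := by ring
    rw [this]
    linarith
  -- degrees in `H \ P`
  have hdW : ∀ u, |((nb (H \ P) u).card : ℝ) - (D - de)| ≤ 12 / 10 ^ 10 * (D - de) := by
    intro u
    have e1 : ((nb (H \ P) u).card : ℝ) = (nb H u).card - (nb P u).card := by
      rw [nb_sdiff]
      have h2 := card_nu (nb_mono hP u)
      linarith
    have e2 : ((nb H u).card : ℝ) = (nu u).card + ρ := by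
      rw [h1.deg u]
      push_cast
      ring
    have e3 := card_nu (h1.sub u)
    have e4 := h1.miss u
    rw [← hD] at e4
    have e5 := h1.degP u
    rw [← hDe, abs_le] at e5
    have e6 : el / 10 ^ 9 * D ≤ D / 10 ^ 9 := sc hel1 hD0
    have e7 : el / 10 ^ 9 * De ≤ De / 10 ^ 9 := sc hel1 hDe0
    have e8 : (0 : ℝ) ≤ ((C \ nu u).card : ℝ) := Nat.cast_nonneg _
    rw [abs_le]
    constructor <;> linarith [e5.1, e5.2]
  have hdWs : ∀ (α m : ℝ), 0 ≤ α → α * (D - de) = m → ∀ u,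
      |α * ((nb (H \ P) u).card : ℝ) - m| ≤ 12 / 10 ^ 10 * m := by
    intro α m ha hm u
    have e1 : α * ((nb (H \ P) u).card : ℝ) - m = α * (((nb (H \ P) u).card : ℝ) - (D - de)) := by
      rw [← hm]; ring
    rw [e1, abs_mul, abs_of_nonneg ha]
    calc α * |((nb (H \ P) u).card : ℝ) - (D - de)| ≤ α * (12 / 10 ^ 10 * (D - de)) :=
          mul_le_mul_of_nonneg_left (hdW u) ha
      _ = 12 / 10 ^ 10 * (α * (D - de)) := by ring
      _ = 12 / 10 ^ 10 * m := by rw [hm]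
  obtain ⟨hR1, hR2, hR3⟩ := hRS
  refine ⟨?_, ?_, ?_, ?_, ?_⟩
  · intro j hj u
    have e1 : (Cl J Ce Q j \ nu u).card ≤
        (Ce \ nu u).card + ((Finset.Ico j J).biUnion Q \ nu u).card := by
      unfold Cl
      rw [Finset.union_sdiff_distrib]
      exact Finset.card_union_le _ _
    have e1' : ((Cl J Ce Q j \ nu u).card : ℝ) ≤
        (Ce \ nu u).card + ((Finset.Ico j J).biUnion Q \ nu u).card := by exact_mod_cast e1
    have e2 := h1.misse u
    rw [← hDe] at e2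
    have e3 := hQm2 j hj u
    have e4 := hscal _ _ _ (Finset.sum_nonneg fun i _ => hq0 i) (hqs j hj) (hmC u)
    have e5 := ho j hj
    linarith
  · intro j hj u
    have e3 := hQm j hj u
    have e4 := hscal _ _ _ (hq0 j) (hq j) (hmC u)
    have e5 := ho j hj
    have e6 := hs j hj
    linarith
  · intro j hj u
    have e1 : ((nb (Pl J P R j) u).card : ℝ) =
        (nb P u).card + (nb ((Finset.Ico j J).biUnion R) u).card := by
      have h2 : Disjoint P ((Finset.Ico j J).biUnion R) := by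
        rw [Finset.disjoint_left]
        intro x hx hx'
        obtain ⟨i, hi, hx'⟩ := Finset.mem_biUnion.1 hx'
        exact (Finset.mem_sdiff.1 (hR i (Finset.mem_Ico.1 hi).2 hx')).2 hx
      have h3 : nb (Pl J P R j) u = nb P u ∪ nb ((Finset.Ico j J).biUnion R) u := by
        ext v
        unfold Pl
        simp only [mem_nb, Finset.mem_union, Finset.mem_biUnion]
      rw [h3, Finset.card_union_of_disjoint (nb_disj h2 u)]
      push_cast
      ring
    have e2 := h1.degP u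
    rw [← hDe, abs_le] at e2
    have e3 := hR2 j hj u
    have e4 := hdWs _ _ (Finset.sum_nonneg fun i _ => hp0 i) (hps j hj) u
    rw [abs_le] at e3 e4
    have e5 := ho j hj
    rw [e1, hdP j, abs_le]
    constructor <;> linarith [e2.1, e2.2, e3.1, e3.2, e4.1, e4.2]
  · intro j hj u
    have e3 := hR1 j hj u
    have e4 := hdWs _ _ (hp0 j) (hp j) u
    rw [abs_le] at e3 e4
    have e5 := ho j hj
    have e6 := hs j hj
    rw [abs_le]
    constructor <;> linarith [e3.1, e3.2, e4.1, e4.2]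
  · intro j hj u x hx
    have e3 := hR3 j hj u x hx
    have e5 := ho j hj
    have e6 := hs j hj
    have e7 : (((nb (H \ P) u).filter fun v => x ∉ nv v).card : ℝ) ≤ D / 10 ^ 9 := by
      have f1 : ((nb (H \ P) u).filter fun v => x ∉ nv v).card ≤
          ((nb H u).filter fun v => x ∉ nv v).card :=
        Finset.card_le_card (Finset.filter_subset_filter _ (nb_mono Finset.sdiff_subset u))
      have f2 := h1.bad u x hx
      rw [← hD] at f2
      have f3 : (((nb (H \ P) u).filter fun v => x ∉ nv v).card : ℝ) ≤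
          ((nb H u).filter fun v => x ∉ nv v).card := by exact_mod_cast f1
      have f4 : el / 10 ^ 9 * D ≤ D / 10 ^ 9 := sc hel1 hD0
      linarith
    have e4 := hscal' _ _ _ (hp0 j) (hp j) e7
    linarith

theorem layers_exist {U V X : Type} [Fintype U] [Fintype V] (H P : Finset (U × V))
    (nu : U → Finset X) (nv : V → Finset X) (C Ce : Finset X) (ρ : ℕ) (L el de : ℝ)
    (hP : P ⊆ H) (hCe : Ce ⊆ C) (hel : 0 < el) (hel1 : el ≤ 1)
    (h1 : PSide H P nu nv C Ce ρ de (el / 10 ^ 9))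
    (h2 : PSide (tr H) (tr P) nv nu C Ce ρ de (el / 10 ^ 9)) (hL : 1 ≤ L)
    (hUV : Fintype.card U = Fintype.card V) (hN : (Fintype.card U : ℝ) ≤ Real.exp L)
    (hC : (C.card : ℝ) ≤ Real.exp L)
    (hmix : Mix H (C.card + ρ) (105 / 100) (el / 10 ^ 9) (Fintype.card U))
    (hde0 : 0 ≤ de) (hde : de ≤ (1 - el) * (Ce.card + ρ))
    (hK : 10 ^ 21 / el * L ≤ Ce.card + ρ) (h20 : 20 * ((Ce.card : ℝ) + ρ) ≤ C.card + ρ) :
    ∃ (J : ℕ) (sg : ℝ) (o dP : ℕ → ℝ) (Q : ℕ → Finset X) (R : ℕ → Finset (U × V)),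
      Layers H P nu nv C Ce ρ L J sg o dP Q R := by
  obtain ⟨D, hD⟩ : ∃ D : ℝ, D = C.card + ρ := ⟨_, rfl⟩
  obtain ⟨De, hDe⟩ : ∃ De : ℝ, De = Ce.card + ρ := ⟨_, rfl⟩
  obtain ⟨oe, hoe⟩ : ∃ oe : ℝ, oe = De - de := ⟨_, rfl⟩
  rw [← hDe] at hde hK h20
  rw [← hD] at hmix h20
  have hK' : 10 ^ 21 * L ≤ el * De := by
    have e1 : el * (10 ^ 21 / el * L) ≤ el * De := mul_le_mul_of_nonneg_left hK hel.le
    have e2 : el * (10 ^ 21 / el * L) = 10 ^ 21 * L := by field_simp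
    linarith
  have hDe0 : 0 ≤ De := by rw [hDe]; positivity
  have helDe : el * De ≤ oe := by rw [hoe]; linarith
  have helDe2 : el * De ≤ De := by
    have h1 : el * De ≤ 1 * De := mul_le_mul_of_nonneg_right hel1 hDe0
    linarith
  have hoe0 : 0 < oe := by linarith
  have hoe2 : oe ≤ De := by linarith
  have hρ : (ρ : ℝ) ≤ De := by
    rw [hDe]
    have : (0 : ℝ) ≤ Ce.card := Nat.cast_nonneg _
    linarith
  have hDD : 0 < D - De := by linarith
  have hDd : 0 < D - de := by linarith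
  obtain ⟨J, sg, hsg1, hsg2, hoJ, hJ⟩ := lay_num D De oe hoe0 hoe2 h20
  obtain ⟨a, ha⟩ : ∃ a : ℝ, a = oe + 7 / 8 * (D - De) := ⟨_, rfl⟩
  rw [← ha] at hoJ
  obtain ⟨r, hr⟩ : ∃ r : ℝ, r = 1 - 7 / 8 * sg := ⟨_, rfl⟩
  have ha0 : 0 < a := by rw [ha]; linarith
  have hr0 : 0 < r := by rw [hr]; linarith
  have hr1 : r ≤ 1 := by rw [hr]; linarith
  obtain ⟨o, ho⟩ : ∃ o : ℕ → ℝ, o = fun j => a * (1 - 7 / 8 * sg) ^ j := ⟨_, rfl⟩
  have hoj : ∀ j, o j = a * (1 - 7 / 8 * sg) ^ j := fun j => by rw [ho]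
  have hoJ' : o J = oe := by rw [hoj, hoJ]
  have ho0 : o 0 = oe + 7 / 8 * (D - De) := by rw [hoj, pow_zero, mul_one, ha]
  have hopos : ∀ j, 0 < o j := by
    intro j
    rw [hoj, ← hr]
    positivity
  have hole : ∀ j, j ≤ J → oe ≤ o j := by
    intro j hj
    rw [← hoJ', hoj, hoj, ← hr]
    exact mul_le_mul_of_nonneg_left (pow_le_pow_of_le_one hr0.le hr1 hj) ha0.le
  have hsum : ∀ j, j ≤ J → ∑ i ∈ Finset.Ico j J, sg * o i = 8 / 7 * (o j - oe) := by
    intro j hj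
    have := lay_sum a sg J j hj
    rw [ho]
    simp only
    rw [this, hoJ]
  -- the parameters of the two random choices
  obtain ⟨q, hq⟩ : ∃ q : ℕ → ℝ, q = fun j => sg * o j / (D - De) := ⟨_, rfl⟩
  obtain ⟨p, hp⟩ : ∃ p : ℕ → ℝ, p = fun j => sg * o j / 8 / (D - de) := ⟨_, rfl⟩
  have hq0 : ∀ j, 0 ≤ q j := by
    intro j
    rw [hq]
    have := hopos j
    have : 0 ≤ sg := by linarith
    simp only
    positivity
  have hp0 : ∀ j, 0 ≤ p j := by
    intro j
    rw [hp]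
    have := hopos j
    have : 0 ≤ sg := by linarith
    simp only
    positivity
  have hqj : ∀ j, q j * (D - De) = sg * o j := by
    intro j
    rw [hq]
    field_simp
  have hpj : ∀ j, p j * (D - de) = sg * o j / 8 := by
    intro j
    rw [hp]
    field_simp
  have hqs : ∀ j, j ≤ J → (∑ i ∈ Finset.Ico j J, q i) * (D - De) = 8 / 7 * (o j - oe) := by
    intro j hj
    rw [Finset.sum_mul, ← hsum j hj]
    exact Finset.sum_congr rfl fun i _ => hqj i
  have hps : ∀ j, j ≤ J → (∑ i ∈ Finset.Ico j J, p i) * (D - de) = 1 / 7 * (o j - oe) := by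
    intro j hj
    rw [Finset.sum_mul, Finset.sum_congr rfl fun i _ => hpj i, ← Finset.sum_div, hsum j hj]
    ring
  have hq1 : ∑ j ∈ Finset.range J, q j = 1 := by
    have e1 := hqs 0 (Nat.zero_le _)
    rw [ho0, ← Finset.range_eq_Ico] at e1
    have e2 : (∑ i ∈ Finset.range J, q i) * (D - De) = 1 * (D - De) := by
      rw [e1]; ring
    exact mul_right_cancel₀ hDD.ne' e2
  have hp1 : ∑ j ∈ Finset.range J, p j ≤ 1 := by
    have e1 := hps 0 (Nat.zero_le _)
    rw [ho0, ← Finset.range_eq_Ico] at e1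
    have e2 : (∑ i ∈ Finset.range J, p i) * (D - de) ≤ 1 * (D - de) := by
      rw [e1]; linarith
    exact le_of_mul_le_mul_right e2 hDd
  -- sizes
  have hCD : 19 * 10 ^ 21 ≤ Real.exp L := by
    have : (C.card : ℝ) = D - ρ := by rw [hD]; ring
    linarith
  have hL2 : 2 ≤ L := by
    by_contra hlt
    push Not at hlt
    have e1 : Real.exp L ≤ Real.exp 2 := Real.exp_le_exp.2 hlt.le
    have e2 : Real.exp 2 = Real.exp 1 * Real.exp 1 := by
      rw [← Real.exp_add]; norm_num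
    have e3 : Real.exp 1 ≤ 3 := by
      have := Real.exp_one_lt_d9
      linarith
    have e4 : Real.exp 1 * Real.exp 1 ≤ 3 * 3 :=
      mul_le_mul e3 e3 (Real.exp_pos 1).le (by norm_num)
    linarith
  have hJ' : (J : ℝ) ≤ Real.exp (2 * L) := by
    have e1 : 0 ≤ Real.log oe := Real.log_nonneg (by linarith)
    have e2 : D ≤ Real.exp (L + 1) := by
      have f1 : D ≤ 20 / 19 * Real.exp L := by
        have : (C.card : ℝ) = D - ρ := by rw [hD]; ring
        linarith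
      have f2 : Real.exp (L + 1) = Real.exp L * Real.exp 1 := Real.exp_add _ _
      have f3 : 2 ≤ Real.exp 1 := by
        have := Real.add_one_le_exp (1 : ℝ)
        linarith
      have f4 : Real.exp L * 2 ≤ Real.exp L * Real.exp 1 :=
        mul_le_mul_of_nonneg_left f3 (Real.exp_pos L).le
      have f5 := Real.exp_pos L
      rw [f2]
      linarith
    have e3 : Real.log D ≤ L + 1 := by
      have := Real.log_le_log (by linarith) e2
      rwa [Real.log_exp] at this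
    have e4 : Real.exp (2 * L) = Real.exp L * Real.exp L := by
      rw [← Real.exp_add]; ring_nf
    have e5 := Real.add_one_le_exp L
    have e6 : 200 * Real.exp L ≤ Real.exp L * Real.exp L :=
      mul_le_mul_of_nonneg_right (by linarith) (Real.exp_pos L).le
    rw [e4]
    linarith
  have hUe : (Fintype.card U : ℝ) ≤ Real.exp L := hN
  have hVe : (Fintype.card V : ℝ) ≤ Real.exp L := by rw [← hUV]; exact hN
  obtain ⟨Q, hQd, hQu, hQc, hQcs, hQm1, hQm2, hQm3, hQm4⟩ :=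
    lay_Q nu nv (C \ Ce) L hL2 J q hq0 hq1 hJ' hUe hVe
  obtain ⟨R, hRd, hRs, hRS1, hRS2, hRe⟩ :=
    lay_R nu nv (H \ P) C L hL2 J p hp0 hp1 hJ' hUe hVe hC
  have hcW : ((C \ Ce).card : ℝ) = D - De := by
    have := card_nu hCe
    rw [hD, hDe]
    linarith
  have hLo : ∀ j < J, 10 ^ 21 * L ≤ o j := fun j hj => by
    have := hole j hj.le
    linarith
  have hso : ∀ j < J, o j / 200 ≤ sg * o j := by
    intro j hj
    exact sgo hsg1 (hopos j).le
  have hside1 := side H P nu nv C Ce ρ L el de hP hel hel1 h1 J sg o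
    (fun j => de + 1 / 7 * (o j - oe)) q p D De oe hD hDe hoe h20 hde0 helDe
    (by linarith) (by linarith) hsg1 (fun j hj => hole j hj.le) (fun j => rfl) hq0 hp0 hqj
    (fun j hj => hqs j hj.le) hpj (fun j hj => hps j hj.le) Q R hRs hQm1 hQm2 hRS1
  have hside2 := side (tr H) (tr P) nv nu C Ce ρ L el de (tr_subset.2 hP) hel hel1 h2 J sg o
    (fun j => de + 1 / 7 * (o j - oe)) q p D De oe hD hDe hoe h20 hde0 helDe
    (by linarith) (by linarith) hsg1 (fun j hj => hole j hj.le) (fun j => rfl) hq0 hp0 hqj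
    (fun j hj => hqs j hj.le) hpj (fun j hj => hps j hj.le) Q (fun j => tr (R j))
    (fun j hj => by
      rw [← tr_sdiff]
      exact tr_subset.2 (hRs j hj)) hQm3 hQm4 (by
      rw [← tr_sdiff]
      exact hRS2)
  refine ⟨J, sg, o, fun j => de + 1 / 7 * (o j - oe), Q, R, ?_⟩
  refine
    { sg1 := hsg1
      sg2 := hsg2
      osucc := ?_
      dPsucc := ?_
      sL := ?_
      o0 := ?_
      Qd := hQd
      Qu := hQu
      Rd := hRd
      Rs := hRs
      cC := ?_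
      cQ := ?_
      mix := ?_
      side1 := hside1
      side2 := hside2 }
  · intro j _
    rw [hoj, hoj, pow_succ]
    ring
  · intro j _
    rw [hoj (j + 1), hoj j, pow_succ]
    ring
  · intro j hj
    have e1 := hLo j hj
    have e2 := hso j hj
    linarith
  · rw [ho0, ← hD]
    linarith
  · intro j hj
    have e0 : Disjoint Ce ((Finset.Ico j J).biUnion Q) := by
      rw [Finset.disjoint_left]
      intro x hx hx'
      obtain ⟨i, hi, hx'⟩ := Finset.mem_biUnion.1 hx'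
      have hx2 : x ∈ (Finset.range J).biUnion Q :=
        Finset.mem_biUnion.2 ⟨i, Finset.mem_range.2 (Finset.mem_Ico.1 hi).2, hx'⟩
      rw [hQu] at hx2
      exact (Finset.mem_sdiff.1 hx2).2 hx
    have e1 : ((Cl J Ce Q j).card : ℝ) = Ce.card + ((Finset.Ico j J).biUnion Q).card := by
      unfold Cl
      rw [Finset.card_union_of_disjoint e0]
      push_cast
      ring
    have e2 := hQcs j hj
    rw [hcW, hqs j hj.le, abs_le] at e2
    have e3 := hLo j hj
    have e4 := hole j hj.le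
    rw [e1, abs_le]
    constructor <;> linarith [e2.1, e2.2]
  · intro j hj
    have e2 := hQc j hj
    rw [hcW, hqj j, abs_le] at e2
    have e3 := hLo j hj
    have e5 := hso j hj
    rw [abs_le]
    constructor <;> linarith [e2.1, e2.2]
  · intro j hj S T
    have e1 := hRe j hj S T
    have e2 : (eb (H \ P) S T : ℝ) ≤ eb H S T := by
      have : eb (H \ P) S T ≤ eb H S T := by
        unfold eb
        exact Finset.card_le_card (Finset.filter_subset_filter _ Finset.sdiff_subset)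
      exact_mod_cast this
    have e3 := hmix S T
    obtain ⟨A, hA⟩ : ∃ A : ℝ, A = (S.card : ℝ) * T.card / Fintype.card U := ⟨_, rfl⟩
    obtain ⟨B, hB⟩ : ∃ B : ℝ, B = max (S.card : ℝ) T.card := ⟨_, rfl⟩
    have hA0 : 0 ≤ A := by rw [hA]; positivity
    have hB0 : 0 ≤ B := by rw [hB]; positivity
    rw [← hA, ← hB] at e3 ⊢
    rw [← hB] at e1
    have e4 : p j * (eb (H \ P) S T : ℝ) ≤
        20 / 19 * (sg * o j / 8) * (105 / 100 * A + 1 / 10 ^ 9 * B) := by
      have f1 : (eb (H \ P) S T : ℝ) ≤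
          20 / 19 * (D - de) * (105 / 100 * A + 1 / 10 ^ 9 * B) := by
        have g1 : 105 / 100 * A + el / 10 ^ 9 * B ≤ 105 / 100 * A + 1 / 10 ^ 9 * B := by
          have : el / 10 ^ 9 * B ≤ 1 / 10 ^ 9 * B :=
            mul_le_mul_of_nonneg_right (by linarith) hB0
          linarith
        have g2 : 0 ≤ 105 / 100 * A + 1 / 10 ^ 9 * B := by positivity
        have g3 : D ≤ 20 / 19 * (D - de) := by linarith
        calc (eb (H \ P) S T : ℝ) ≤ eb H S T := e2
          _ ≤ D * (105 / 100 * A + el / 10 ^ 9 * B) := e3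
          _ ≤ D * (105 / 100 * A + 1 / 10 ^ 9 * B) :=
            mul_le_mul_of_nonneg_left g1 (by linarith)
          _ ≤ 20 / 19 * (D - de) * (105 / 100 * A + 1 / 10 ^ 9 * B) :=
            mul_le_mul_of_nonneg_right g3 g2
      calc p j * (eb (H \ P) S T : ℝ) ≤
            p j * (20 / 19 * (D - de) * (105 / 100 * A + 1 / 10 ^ 9 * B)) :=
            mul_le_mul_of_nonneg_left f1 (hp0 j)
        _ = 20 / 19 * (p j * (D - de)) * (105 / 100 * A + 1 / 10 ^ 9 * B) := by ring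
        _ = _ := by rw [hpj j]
    have e5 := hLo j hj
    have e6 := hso j hj
    obtain ⟨s, hs⟩ : ∃ s : ℝ, s = sg * o j := ⟨_, rfl⟩
    rw [← hs] at e4 e6 ⊢
    have e7 : 8 * 10 ^ 8 * L * B ≤ 1 / 1000 * s * B :=
      mul_le_mul_of_nonneg_right (by linarith) hB0
    have hs0 : 0 ≤ s := by linarith
    have e8 : 0 ≤ s * A := mul_nonneg hs0 hA0
    have e9 : 0 ≤ s * B := mul_nonneg hs0 hB0
    have e10 : 20 / 19 * (s / 8) * (105 / 100 * A + 1 / 10 ^ 9 * B) =
        2100 / 15200 * (s * A) + 20 / (152 * 10 ^ 9) * (s * B) := by ring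
    have e11 : s / 8 * (12 / 10 * A + 1 / 100 * B) = 12 / 80 * (s * A) + 1 / 800 * (s * B) := by
      ring
    have e12 : 1 / 1000 * s * B = 1 / 1000 * (s * B) := by ring
    rw [e10] at e4
    rw [e12] at e7
    rw [e11]
    linarith

end Pool.Agent.Lib.TriS
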