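import Pool.Agent.Lib.TriS.PIter
import Pool.Agent.Lib.TriS.LExist

/-!
MODULE Process: the process theorem (section 2 of the paper).
-/

set_option autoImplicit false

open scoped Classical

noncomputable section

namespace Pool.Agent.Lib.TriS

theorem process {U V X : Type} [Fintype U] [Fintype V] (H P : Finset (U × V))
    (nu : U → Finset X) (nv : V → Finset X) (C Ce : Finset X) (ρ : ℕ) (L el de : ℝ)
    (hP : P ⊆ H) (hCe : Ce ⊆ C) (hel : 0 < el) (hel1 : el ≤ 1)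
    (h1 : PSide H P nu nv C Ce ρ de (el / 10 ^ 9))
    (h2 : PSide (tr H) (tr P) nv nu C Ce ρ de (el / 10 ^ 9)) (hL : 1 ≤ L)
    (hUV : Fintype.card U = Fintype.card V) (hN : (Fintype.card U : ℝ) ≤ Real.exp L)
    (hC : (C.card : ℝ) ≤ Real.exp L) (hbal : ∀ x ∈ C, (wt nu x).card = (wt nv x).card)
    (hmix : Mix H (C.card + ρ) (105 / 100) (el / 10 ^ 9) (Fintype.card U))
    (hde0 : 0 ≤ de) (hde : de ≤ (1 - el) * (Ce.card + ρ))
    (hK : 10 ^ 21 / el * L ≤ Ce.card + ρ) (h20 : 20 * ((Ce.card : ℝ) + ρ) ≤ C.card + ρ) :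
    ∃ Mt : X → Finset (U × V), (∀ x ∈ C \ Ce, Mt x ⊆ H \ P ∧ IsPM (Mt x) (wt nu x) (wt nv x)) ∧
      ∀ x ∈ C \ Ce, ∀ y ∈ C \ Ce, x ≠ y → Disjoint (Mt x) (Mt y) := by
  obtain ⟨J, sg, o, dP, Q, R, hl⟩ := layers_exist H P nu nv C Ce ρ L el de hP hCe hel hel1 h1 h2 hL
    hUV hN hC hmix hde0 hde hK h20
  exact process_of_layers H P nu nv C Ce ρ L el de sg J o dP Q R hl hP hCe hel hel1 h1 h2 hL hUV hN
    hC hbal

end Pool.Agent.Lib.TriS
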