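import Pool.Agent.Lib.TriS.ResDefs
import Pool.Agent.Lib.TriS.Process

/-!
MODULE Stage1 (about 200 lines). Stage I: the process theorem on the whole survivors' instance.

PROOF. `process` with `P := E ∪ F`, needs `nu' u = nu u \ hub (aU u)`, `nv' v = nv v \ hub (aV v)`, `C = univ`, `Ce = G`, `ρ = r`, `el = 1/10^15`, `de = (1 - 1/10^15)(|G| + r)`; `el/10^9 = 1/10^24`. `N = card U = P s` (sum over the parts of
`cU`), `k = card X`. `PSide`: `deg`: `card (nb H u) = card (nu u) = card (nu' u) + r` (`hubn`, `hubc`); `miss`: `≤ 1/10^25 k + r`, `r ≤ 10^22 L ≤ k/10^26` (`G1`, `G2`); `misse`: `G \ nu' u = G \ nu u` (`hubG`);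
`bad`: `≤ 1/10^25 k + card {v ∈ nb H u | x ∈ hub (aV v)}`, the last set is empty or `{v ∈ nb H u | aV v = a}` for the unique `a` with `x ∈ hub a` (`hubd`), `≤ 2 k/P ≤ k/10^26`; `degP`: `E`, `F` disjoint (`inn`, `out`),
errors `1/(4*10^24) + 1/(4*10^24)`. `hbal`: if `x ∈ hub a` then `wt nu' x = wt nu x \ {u | aU u = a}`, `{u | aU u = a} ⊆ wt nu x` (`hubn`), both sides lose `s`; otherwise `wt nu' x = wt nu x`. `hmix`: `√k ≤ k/10^24` since `√k ≥ 10^60`.
`hK`: `10^36 L ≤ |G|`. `h20`: `G2`, `r ≤ |G|`.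
-/

set_option autoImplicit false

open scoped Classical

noncomputable section

namespace Pool.Agent.Lib.TriS

private lemma card_parts {U : Type} [Fintype U] (P s : ℕ) (aU : U → Fin P)
    (h : ∀ a, (Finset.univ.filter fun u => aU u = a).card = s) : Fintype.card U = P * s := by
  have h1 : (Finset.univ : Finset U).card =
      ∑ a ∈ (Finset.univ : Finset (Fin P)), (Finset.univ.filter fun u => aU u = a).card :=
    Finset.card_eq_sum_card_fiberwise (fun u _ => Finset.mem_coe.2 (Finset.mem_univ _))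
  rw [Finset.card_univ] at h1
  rw [h1, Finset.sum_congr rfl (fun a _ => h a)]
  simp

private lemma wt_hub {U X : Type} [Fintype U] [Fintype X] (nu : U → Finset X) (P : ℕ)
    (aU : U → Fin P) (hub : Fin P → Finset X) (s : ℕ)
    (hubn : ∀ u, hub (aU u) ⊆ nu u)
    (cU : ∀ a, (Finset.univ.filter fun u => aU u = a).card = s)
    (hubd : ∀ a b, a ≠ b → Disjoint (hub a) (hub b)) (x : X) (a : Fin P) (hx : x ∈ hub a) :
    (wt (fun u => nu u \ hub (aU u)) x).card + s = (wt nu x).card := by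
  have e1 : wt (fun u => nu u \ hub (aU u)) x = wt nu x \ (Finset.univ.filter fun u => aU u = a) := by
    ext u
    simp only [mem_wt, Finset.mem_sdiff, Finset.mem_filter, Finset.mem_univ, true_and]
    constructor
    · rintro ⟨h1, h2⟩
      refine ⟨h1, fun h3 => h2 ?_⟩
      rw [h3]
      exact hx
    · rintro ⟨h1, h2⟩
      refine ⟨h1, fun h3 => ?_⟩
      exact (Finset.disjoint_left.1 (hubd _ _ h2) h3) hx
  have e2 : (Finset.univ.filter fun u => aU u = a) ⊆ wt nu x := by
    intro u hu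
    have h1 := (Finset.mem_filter.1 hu).2
    rw [mem_wt]
    apply hubn u
    rw [h1]
    exact hx
  rw [e1, ← cU a]
  exact Finset.card_sdiff_add_card_eq_card e2

private lemma wt_nohub {U X : Type} [Fintype U] [Fintype X] (nu : U → Finset X) (P : ℕ)
    (aU : U → Fin P) (hub : Fin P → Finset X) (x : X) (hx : ∀ a, x ∉ hub a) :
    wt (fun u => nu u \ hub (aU u)) x = wt nu x := by
  ext u
  simp only [mem_wt, Finset.mem_sdiff]
  exact ⟨fun h => h.1, fun h => ⟨h, hx _⟩⟩

private lemma side {U V X : Type} [Fintype U] [Fintype V] [Fintype X] (H E F : Finset (U × V))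
    (nu : U → Finset X) (nv : V → Finset X) (P : ℕ) (aU : U → Fin P) (aV : V → Fin P)
    (hub : Fin P → Finset X) (G : Finset X) (s r : ℕ)
    (h : SSide H nu nv P aU aV hub G s (1 / 10 ^ 25))
    (hubc : ∀ a, (hub a).card = r)
    (hubd : ∀ a b, a ≠ b → Disjoint (hub a) (hub b))
    (hubG : ∀ a, Disjoint (hub a) G)
    (hEF : ∀ u, Disjoint (nb E u) (nb F u))
    (hE : ∀ u, |((nb E u).card : ℝ) - (1 - 1 / 10 ^ 15 - 1 / 10 ^ 11) * ((G.card : ℝ) + r)| ≤
      1 / (4 * 10 ^ 24) * ((G.card : ℝ) + r))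
    (hF : ∀ u, |((nb F u).card : ℝ) - 1 / 10 ^ 11 * ((G.card : ℝ) + r)| ≤
      1 / (4 * 10 ^ 24) * ((G.card : ℝ) + r))
    (hr : (r : ℝ) ≤ (Fintype.card X : ℝ) / 10 ^ 26)
    (hP : (10 : ℝ) ^ 60 ≤ P) :
    PSide H (E ∪ F) (fun u => nu u \ hub (aU u)) (fun v => nv v \ hub (aV v)) Finset.univ G r
      ((1 - 1 / 10 ^ 15) * ((G.card : ℝ) + r)) (1 / 10 ^ 15 / 10 ^ 9) := by
  have hk0 : (0 : ℝ) ≤ Fintype.card X := Nat.cast_nonneg _
  have hr0 : (0 : ℝ) ≤ r := Nat.cast_nonneg _
  have hG0 : (0 : ℝ) ≤ G.card := Nat.cast_nonneg _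
  have hP0 : (0 : ℝ) < P := lt_of_lt_of_le (by positivity) hP
  have hkP : (Fintype.card X : ℝ) / P ≤ (Fintype.card X : ℝ) / 10 ^ 60 :=
    div_le_div_of_nonneg_left hk0 (by positivity) hP
  constructor
  · intro u
    exact Finset.subset_univ _
  · intro u
    rw [h.deg u, ← hubc (aU u)]
    exact (Finset.card_sdiff_add_card_eq_card (h.hubn u)).symm
  · intro u
    have e1 : (Finset.univ \ (nu u \ hub (aU u))) ⊆ (nu u)ᶜ ∪ hub (aU u) := by
      intro x hx
      simp only [Finset.mem_sdiff, Finset.mem_univ, true_and, not_and, not_not,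
        Finset.mem_union, Finset.mem_compl] at hx ⊢
      by_cases hx1 : x ∈ nu u
      · exact Or.inr (hx hx1)
      · exact Or.inl hx1
    have e2 := (Finset.card_le_card e1).trans (Finset.card_union_le _ _)
    have e3 : ((Finset.univ \ (nu u \ hub (aU u))).card : ℝ) ≤
        (((nu u)ᶜ).card : ℝ) + ((hub (aU u)).card : ℝ) := by exact_mod_cast e2
    have e4 := h.miss u
    rw [hubc] at e3
    rw [Finset.card_univ]
    norm_num at e4 hr ⊢
    linarith
  · intro u
    have e1 : G \ (nu u \ hub (aU u)) ⊆ G \ nu u := by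
      intro x hx
      simp only [Finset.mem_sdiff, not_and, not_not] at hx ⊢
      refine ⟨hx.1, fun h1 => ?_⟩
      exact (Finset.disjoint_left.1 (hubG (aU u)) (hx.2 h1)) hx.1
    have e2 : ((G \ (nu u \ hub (aU u))).card : ℝ) ≤ ((G \ nu u).card : ℝ) := by
      exact_mod_cast Finset.card_le_card e1
    have e3 := h.missG u
    norm_num at e3 ⊢
    linarith
  · intro u x _
    have e0 := h.bad u x
    have e1 : ((nb H u).filter fun v => x ∉ nv v \ hub (aV v)) ⊆
        ((nb H u).filter fun v => x ∉ nv v) ∪ ((nb H u).filter fun v => x ∈ hub (aV v)) := by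
      intro v hv
      simp only [Finset.mem_filter, Finset.mem_union, Finset.mem_sdiff, not_and, not_not] at hv ⊢
      by_cases h1 : x ∈ nv v
      · exact Or.inr ⟨hv.1, hv.2 h1⟩
      · exact Or.inl ⟨hv.1, h1⟩
    have e2 : (((nb H u).filter fun v => x ∉ nv v \ hub (aV v)).card : ℝ) ≤
        (((nb H u).filter fun v => x ∉ nv v).card : ℝ) +
          (((nb H u).filter fun v => x ∈ hub (aV v)).card : ℝ) := by
      exact_mod_cast (Finset.card_le_card e1).trans (Finset.card_union_le _ _)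
    have e3 : (((nb H u).filter fun v => x ∈ hub (aV v)).card : ℝ) ≤
        2 * ((Fintype.card X : ℝ) / P) := by
      by_cases hx : ∃ a, x ∈ hub a
      · obtain ⟨a, ha⟩ := hx
        have e4 : ((nb H u).filter fun v => x ∈ hub (aV v)) ⊆
            ((nb H u).filter fun v => aV v = a) := by
          intro v hv
          simp only [Finset.mem_filter] at hv ⊢
          refine ⟨hv.1, ?_⟩
          by_contra h1
          exact (Finset.disjoint_left.1 (hubd _ _ h1) hv.2) ha
        have e5 : (((nb H u).filter fun v => x ∈ hub (aV v)).card : ℝ) ≤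
            (((nb H u).filter fun v => aV v = a).card : ℝ) := by
          exact_mod_cast Finset.card_le_card e4
        have e6 := (abs_le.1 (h.inn u a)).2
        have e7 : (0 : ℝ) ≤ (Fintype.card X : ℝ) / P := by positivity
        norm_num at e6
        linarith
      · have e4 : ((nb H u).filter fun v => x ∈ hub (aV v)) = ∅ := by
          rw [Finset.eq_empty_iff_forall_notMem]
          intro v hv
          exact hx ⟨_, (Finset.mem_filter.1 hv).2⟩
        rw [e4]
        have e7 : (0 : ℝ) ≤ (Fintype.card X : ℝ) / P := by positivity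
        simp only [Finset.card_empty, Nat.cast_zero]
        linarith
    rw [Finset.card_univ]
    refine le_trans e2 (le_trans (add_le_add e0 e3) ?_)
    norm_num at hkP ⊢
    have e8 : (0 : ℝ) ≤ (Fintype.card X : ℝ) / 10 ^ 60 := by positivity
    norm_num at e8
    linarith
  · intro u
    rw [nb_union, Finset.card_union_of_disjoint (hEF u)]
    push_cast
    have e1 := abs_le.1 (hE u)
    have e2 := abs_le.1 (hF u)
    rw [abs_le]
    norm_num at e1 e2 ⊢
    constructor <;> linarith [e1.1, e1.2, e2.1, e2.2]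

theorem stage1 {U V X : Type} [Fintype U] [Fintype V] [Fintype X] (H E F : Finset (U × V))
    (nu : U → Finset X) (nv : V → Finset X) (P : ℕ) (aU : U → Fin P) (aV : V → Fin P)
    (hub : Fin P → Finset X) (G : Finset X) (s r m : ℕ) (L : ℝ)
    (h : SInst H nu nv P aU aV hub G s r L (1 / 10 ^ 25)) (hE : ResE H E nu nv P aU aV G s r)
    (hF : ResF H F P aU aV G s r m) :
    ∃ Mt : X → Finset (U × V), (∀ x, x ∉ G → Mt x ⊆ H \ (E ∪ F) ∧
      IsPM (Mt x) (wt (fun u => nu u \ hub (aU u)) x) (wt (fun v => nv v \ hub (aV v)) x)) ∧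
      ∀ x y, x ∉ G → y ∉ G → x ≠ y → Disjoint (Mt x) (Mt y) := by
  have hk0 : (0 : ℝ) ≤ Fintype.card X := Nat.cast_nonneg _
  have hr0 : (0 : ℝ) ≤ r := Nat.cast_nonneg _
  have hG0 : (0 : ℝ) ≤ G.card := Nat.cast_nonneg _
  have hL1 := h.L1
  have hP1 := h.P1
  have hP0 : (0 : ℝ) < P := lt_of_lt_of_le (by positivity) hP1
  have hPone : (1 : ℝ) ≤ P := le_trans (by norm_num) hP1
  have hcU : Fintype.card U = P * s := card_parts P s aU h.s1.cU
  have hcV : Fintype.card V = P * s := card_parts P s aV h.s2.cU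
  have hGL : 10 ^ 60 * L ≤ (G.card : ℝ) := by
    have h1 := h.G1
    have h2 : (0 : ℝ) ≤ 10 ^ 60 * L * ((P : ℝ) - 1) := by
      apply mul_nonneg
      · positivity
      · linarith
    nlinarith
  have hkG : 10 ^ 60 * (G.card : ℝ) ≤ (Fintype.card X : ℝ) := by
    have h1 := h.G2
    have h2 : (0 : ℝ) ≤ 10 ^ 60 * (G.card : ℝ) * ((P : ℝ) - 1) := by
      apply mul_nonneg
      · positivity
      · linarith
    nlinarith
  have hrG : (r : ℝ) ≤ (G.card : ℝ) / 10 ^ 38 := by
    have h1 := h.r2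
    rw [le_div_iff₀ (by positivity)]
    norm_num at h1 hGL ⊢
    linarith
  have hr : (r : ℝ) ≤ (Fintype.card X : ℝ) / 10 ^ 26 := by
    rw [le_div_iff₀ (by positivity)]
    norm_num at hrG hkG ⊢
    linarith
  have hEF : Disjoint E F := by
    rw [Finset.disjoint_left]
    intro p hp hq
    exact hF.out p hq (hE.inn p hp)
  have hEF' : Disjoint (tr E) (tr F) := by
    rw [Finset.disjoint_left]
    rintro ⟨v, u⟩ hp hq
    exact (Finset.disjoint_left.1 hEF (mem_tr.1 hp)) (mem_tr.1 hq)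
  have hs1 := side H E F nu nv P aU aV hub G s r h.s1 h.hubc h.hubd h.hubG
    (fun u => nb_disj hEF u) hE.s1.deg hF.s1.deg hr hP1
  have hs2 := side (tr H) (tr E) (tr F) nv nu P aV aU hub G s r h.s2 h.hubc h.hubd h.hubG
    (fun v => nb_disj hEF' v) hE.s2.deg hF.s2.deg hr hP1
  rw [← tr_union] at hs2
  have hsub : E ∪ F ⊆ H := Finset.union_subset hE.sub hF.sub
  have hbal : ∀ x ∈ (Finset.univ : Finset X), (wt (fun u => nu u \ hub (aU u)) x).card =
      (wt (fun v => nv v \ hub (aV v)) x).card := by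
    intro x _
    by_cases hx : ∃ a, x ∈ hub a
    · obtain ⟨a, ha⟩ := hx
      have e1 := wt_hub nu P aU hub s h.s1.hubn h.s1.cU h.hubd x a ha
      have e2 := wt_hub nv P aV hub s h.s2.hubn h.s2.cU h.hubd x a ha
      have e3 := h.bal x
      omega
    · push Not at hx
      rw [wt_nohub nu P aU hub x hx, wt_nohub nv P aV hub x hx]
      exact h.bal x
  have hNr : (Fintype.card U : ℝ) = P * s := by
    rw [hcU]
    push_cast
    rfl
  have hsq : Real.sqrt (Fintype.card X) ≤ (Fintype.card X : ℝ) / 10 ^ 60 := by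
    have e1 := h.P2
    have e2 : (10 : ℝ) ^ 60 ≤ Real.sqrt (Fintype.card X) := by
      refine le_trans ?_ e1
      nlinarith
    have e3 := Real.mul_self_sqrt hk0
    rw [le_div_iff₀ (by positivity)]
    nlinarith [Real.sqrt_nonneg (Fintype.card X : ℝ)]
  have hmix : Mix H ((Finset.univ : Finset X).card + r) (105 / 100) (1 / 10 ^ 15 / 10 ^ 9)
      (Fintype.card U) := by
    intro S T
    have e1 := h.mix S T
    rw [Finset.card_univ, hNr]
    have e2 : (0 : ℝ) ≤ (S.card : ℝ) * T.card / (P * s) := by positivity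
    have e3 : (0 : ℝ) ≤ max (S.card : ℝ) T.card := le_max_of_le_left (Nat.cast_nonneg _)
    have e4 : Real.sqrt (Fintype.card X) * max (S.card : ℝ) T.card ≤
        (Fintype.card X : ℝ) / 10 ^ 60 * max (S.card : ℝ) T.card :=
      mul_le_mul_of_nonneg_right hsq e3
    set A := (S.card : ℝ) * T.card / (P * s) with hA
    set B := max (S.card : ℝ) T.card with hB
    have e5 : (0 : ℝ) ≤ (Fintype.card X : ℝ) * A := mul_nonneg hk0 e2
    have e6 : (0 : ℝ) ≤ (Fintype.card X : ℝ) * B := mul_nonneg hk0 e3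
    have e7 : (0 : ℝ) ≤ (r : ℝ) * A := mul_nonneg hr0 e2
    have e8 : (0 : ℝ) ≤ (r : ℝ) * B := mul_nonneg hr0 e3
    have e9 : (Fintype.card X : ℝ) / 10 ^ 60 * B = (Fintype.card X : ℝ) * B / 10 ^ 60 := by ring
    rw [e9] at e4
    have e10 : ((Fintype.card X : ℝ) + r) * (105 / 100 * A + 1 / 10 ^ 15 / 10 ^ 9 * B) =
        105 / 100 * ((Fintype.card X : ℝ) * A) + 105 / 100 * (r * A) +
          1 / 10 ^ 15 / 10 ^ 9 * ((Fintype.card X : ℝ) * B) + 1 / 10 ^ 15 / 10 ^ 9 * (r * B) := by
      ring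
    rw [e10]
    norm_num at e4 ⊢
    linarith
  obtain ⟨Mt, h1, h2⟩ := process H (E ∪ F) (fun u => nu u \ hub (aU u))
    (fun v => nv v \ hub (aV v)) Finset.univ G r L (1 / 10 ^ 15)
    ((1 - 1 / 10 ^ 15) * ((G.card : ℝ) + r)) hsub (Finset.subset_univ _) (by norm_num)
    (by norm_num) hs1 hs2 hL1 (by rw [hcU, hcV]) (by rw [hNr]; exact h.NL)
    (by rw [Finset.card_univ]; exact h.kL) hbal hmix
    (mul_nonneg (by norm_num) (by linarith)) (le_refl _)
    (by norm_num at hGL ⊢; linarith)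
    (by
      rw [Finset.card_univ]
      norm_num at hrG hkG ⊢
      linarith)
  refine ⟨Mt, ?_, ?_⟩
  · intro x hx
    exact h1 x (by simp [hx])
  · intro x y hx hy hxy
    exact h2 x (by simp [hx]) y (by simp [hy]) hxy

end Pool.Agent.Lib.TriS
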