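import Pool.Agent.Lib.TriS.CDefs

/-!
Flush: data and final statement (section 7).
-/

set_option autoImplicit false

open scoped Classical

noncomputable section

namespace Pool.Agent.Lib.TriS

/-- one side of the input of the flush. `D1 = |G| + r`. -/
structure FSide {U V X : Type} [Fintype U] [Fintype V] (O E F : Finset (U × V)) (nu : U → Finset X)
    (P : ℕ) (aU : U → Fin P) (aV : V → Fin P) (G : Finset X) (s r m : ℕ) (η : ℝ) : Prop where
  cU : ∀ a, (Finset.univ.filter fun u => aU u = a).card = s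
  deg : ∀ u, (nb (O ∪ E ∪ F) u).card = (nu u ∩ G).card + r
  missG : ∀ u, ((G \ nu u).card : ℝ) ≤ η * G.card
  hit : ∀ a, ∀ x ∈ G, ((Finset.univ.filter fun u => aU u = a ∧ x ∉ nu u).card : ℝ) ≤ η * s
  degO : ∀ u, ((nb O u).card : ℝ) ≤ 2 / 10 ^ 15 * G.card * (11 / 10)
  degE : ∀ u, ((nb E u).card : ℝ) ≤ 11 / 10 * G.card
  degF : ∀ u, ((nb F u).card : ℝ) ≤ 11 / 10 * (1 / 10 ^ 11) * G.card
  degFa : ∀ u b, (((nb F u).filter fun v => aV v = b).card : ℝ) ≤ 2 * m / s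

/-- input of the flush -/
structure FIn {U V X : Type} [Fintype U] [Fintype V] (O E F : Finset (U × V)) (nu : U → Finset X)
    (nv : V → Finset X) (P : ℕ) (aU : U → Fin P) (aV : V → Fin P) (G : Finset X) (s r m : ℕ)
    (L η : ℝ) : Prop where
  s1 : FSide O E F nu P aU aV G s r m η
  s2 : FSide (tr O) (tr E) (tr F) nv P aV aU G s r m η
  dOE : Disjoint O E
  dOF : Disjoint O F
  dEF : Disjoint E F
  Ein : ∀ p ∈ E, aU p.1 = aV p.2
  Fout : ∀ p ∈ F, aU p.1 ≠ aV p.2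
  Fm : ∀ a b, a ≠ b → (F.filter fun p => aU p.1 = a ∧ aV p.2 = b).card = m
  m1 : 1 / 10 ^ 11 * (G.card : ℝ) * s / (2 * P) ≤ m
  bal : ∀ x ∈ G, (wt nu x).card = (wt nv x).card
  L1 : 1 ≤ L
  Gexp : (G.card : ℝ) ≤ Real.exp L
  NL : (P : ℝ) * s ≤ Real.exp L
  eta : η ≤ 2 / 10 ^ 25
  rG : 10 ^ 10 * (r : ℝ) ≤ G.card
  P1 : (10 : ℝ) ^ 60 ≤ P
  G1 : 10 ^ 60 * (P : ℝ) * L ≤ G.card
  s3 : 10 ^ 60 * (P : ℝ) ^ 2 * L ≤ s

/-- Output of the flush: all flags of `O ∪ F` are coloured with colours of `G`, the parts are balanced for every colour,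
and the colours are spread over the neighbourhoods in `E`. -/
def FlushOut {U V X : Type} [Fintype U] [Fintype V] (O E F : Finset (U × V)) (nu : U → Finset X)
    (nv : V → Finset X) (P : ℕ) (aU : U → Fin P) (aV : V → Fin P) (G : Finset X) : Prop :=
  ∃ K : Finset ((U × V) × X), PCol K nu nv G ∧ dom K = O ∪ F ∧
    (∀ x ∈ G, ∀ a, (Finset.univ.filter fun u => aU u = a ∧ x ∈ nu u ∧ x ∉ cu K u).card =
      (Finset.univ.filter fun v => aV v = a ∧ x ∈ nv v ∧ x ∉ cv K v).card) ∧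
    (∀ u, ∀ x ∈ G, (((nb E u).filter fun v => x ∈ cv K v).card : ℝ) ≤ 1 / 10 ^ 10 * G.card) ∧
    (∀ v, ∀ x ∈ G, (((nb (tr E) v).filter fun u => x ∈ cu K u).card : ℝ) ≤ 1 / 10 ^ 10 * G.card)

end Pool.Agent.Lib.TriS
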