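import Pool.Agent.Lib.TriS.ResDefs
import Pool.Agent.Lib.TriS.Flush
import Pool.Agent.Lib.TriS.Process
import Pool.Agent.Lib.MP_6fba53_co.Koenig

/-!
MODULE Stage2 (about 260 lines; two theorems). Stage II inside one part.

`inp a` = restriction to part `a`: work with the subtypes `U' = {u // aU u = a}`, `V' = {v // aV v = a}`, `H' = {(u,v) | (u.1, v.1) ∈ E}`, `nu'' u = (nu u ∩ G) \ cu K u`, `nv'' v = (nv v ∩ G) \ cv K v`.
PROOF of `stage2_pt`. `process` with `el = 1`, `P = ∅`, `C = G`, `Ce = ∅`, `ρ = r`, `de = 0`. `deg`: all `E`-neighbours of `u` are in the part (`hE.inn`); `O`, `E`, `F` are disjoint, so `card (nb E u) = card (nu u ∩ G) + r - card (nb (O ∪ F) u)`, and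
`card (nb (O ∪ F) u) = card (cu K u)` (`dom K = O ∪ F`; `v ↦` its colour is a bijection by `fn`, `pr1`), `cu K u ⊆ nu u ∩ G`. `miss`: `|G \ nu'' u| ≤ |G \ nu u| + |cu K u| ≤ (1/10^25 + 2.2/10^15 + 1.1/10^11)|G| ≤ 1/10^9 (|G| + r)`.
`bad`: `≤ 1/10^24 (|G| + r) + 1/10^10 |G|`. `hbal`: flush output. `hmix`: `hE.mix` (`card U' = s`). `hK`: `10^21 L ≤ r` (`r1`). `h20`: `20 r ≤ |G| + r`. `hN`: `s ≤ P s ≤ exp L`. `degP`, `misse`: `0`.
Map the matchings back to `U × V` (image under `Subtype.val`).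
PROOF of `stage2`. The graph `E_a \ ⋃ Mt x` (`E_a = {p ∈ E | aU p.1 = a}`) has degree `r` at every vertex of the part (`card_nb_family` or the degree count: `deg = card (nu'' u) + r`, minus `card (nu'' u)`). `koenig` (Lib/MP_6fba53_co/Koenig.lean, with `Z` = pairs, `m = fst`, `k = snd` on the subtypes)
gives a proper colouring with `r` colours, each class is a perfect matching of the part (all degrees are `r`: every vertex sees every colour exactly once). Enumerate `hub a` (card `r`) by `Fin r`. For `x ∈ hub a` all `u` with `aU u = a` have `x ∈ nu u` (`hubn`) and `x ∉ cu K u` (colours in `G`, `hubG`).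
-/

set_option autoImplicit false

open scoped Classical

noncomputable section

namespace Pool.Agent.Lib.TriS

/-- what the flush gives for Stage II -/
structure S2In {U V X : Type} [Fintype U] [Fintype V] [Fintype X] (H O E F : Finset (U × V))
    (nu : U → Finset X) (nv : V → Finset X) (P : ℕ) (aU : U → Fin P) (aV : V → Fin P)
    (hub : Fin P → Finset X) (G : Finset X) (s r m : ℕ) (L : ℝ) (K : Finset ((U × V) × X)) :
    Prop where
  h : SInst H nu nv P aU aV hub G s r L (1 / 10 ^ 25)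
  hE : ResE H E nu nv P aU aV G s r
  hf : FIn O E F nu nv P aU aV G s r m L (1 / 10 ^ 25)
  hK : PCol K nu nv G
  hdom : dom K = O ∪ F
  hbal : ∀ x ∈ G, ∀ a, (Finset.univ.filter fun u => aU u = a ∧ x ∈ nu u ∧ x ∉ cu K u).card =
      (Finset.univ.filter fun v => aV v = a ∧ x ∈ nv v ∧ x ∉ cv K v).card
  hb1 : ∀ u, ∀ x ∈ G, (((nb E u).filter fun v => x ∈ cv K v).card : ℝ) ≤ 1 / 10 ^ 10 * G.card
  hb2 : ∀ v, ∀ x ∈ G, (((nb (tr E) v).filter fun u => x ∈ cu K u).card : ℝ) ≤
    1 / 10 ^ 10 * G.card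

/-- restriction of a graph to a part -/
private def rE {U V : Type} [Fintype U] [Fintype V] {P : ℕ} (E : Finset (U × V)) (aU : U → Fin P)
    (aV : V → Fin P) (a : Fin P) : Finset ({u // aU u = a} × {v // aV v = a}) :=
  Finset.univ.filter fun p => (p.1.1, p.2.1) ∈ E

private theorem mem_rE {U V : Type} [Fintype U] [Fintype V] {P : ℕ} {E : Finset (U × V)}
    {aU : U → Fin P} {aV : V → Fin P} {a : Fin P} {u : {u // aU u = a}} {v : {v // aV v = a}} :
    (u, v) ∈ rE E aU aV a ↔ (u.1, v.1) ∈ E := by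
  unfold rE
  simp

private theorem tr_rE {U V : Type} [Fintype U] [Fintype V] {P : ℕ} (E : Finset (U × V))
    (aU : U → Fin P) (aV : V → Fin P) (a : Fin P) :
    tr (rE E aU aV a) = rE (tr E) aV aU a := by
  ext ⟨v, u⟩
  rw [mem_tr, mem_rE, mem_rE, mem_tr]

/-- the neighbourhoods in the restricted graph -/
private theorem nb_rE_card {U V : Type} [Fintype U] [Fintype V] {P : ℕ} (E : Finset (U × V))
    (aU : U → Fin P) (aV : V → Fin P) (a : Fin P) (hin : ∀ p ∈ E, aU p.1 = aV p.2)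
    (u : {u // aU u = a}) (q : V → Prop) :
    ((nb (rE E aU aV a) u).filter fun v => q v.1).card = ((nb E u.1).filter q).card := by
  refine Finset.card_bij (fun v _ => v.1) ?_ ?_ ?_
  · intro v hv
    rw [Finset.mem_filter, mem_nb, mem_rE] at hv
    rw [Finset.mem_filter, mem_nb]
    exact hv
  · intro v _ v' _ h
    exact Subtype.ext h
  · intro v hv
    rw [Finset.mem_filter, mem_nb] at hv
    have h1 : aV v = a := by
      have := hin _ hv.1
      simp only at this
      rw [← this]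
      exact u.2
    refine ⟨⟨v, h1⟩, ?_, rfl⟩
    rw [Finset.mem_filter, mem_nb, mem_rE]
    exact hv

private theorem nb_rE_card' {U V : Type} [Fintype U] [Fintype V] {P : ℕ} (E : Finset (U × V))
    (aU : U → Fin P) (aV : V → Fin P) (a : Fin P) (hin : ∀ p ∈ E, aU p.1 = aV p.2)
    (u : {u // aU u = a}) :
    (nb (rE E aU aV a) u).card = (nb E u.1).card := by
  have := nb_rE_card E aU aV a hin u (fun _ => True)
  simpa using this

/-- the number of colours at a vertex is the number of coloured flags at the vertex -/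
private theorem cu_card {U V X : Type} [Fintype U] [Fintype V] {K : Finset ((U × V) × X)}
    {nu : U → Finset X} {nv : V → Finset X} {G : Finset X} (hK : PCol K nu nv G) (u : U) :
    (cu K u).card = (nb (dom K) u).card := by
  symm
  have hex : ∀ v ∈ nb (dom K) u, ∃ x, ((u, v), x) ∈ K := fun v hv => mem_dom.1 (mem_nb.1 hv)
  choose f hf using hex
  refine Finset.card_bij (fun v hv => f v hv) ?_ ?_ ?_
  · intro v hv
    exact mem_cu.2 ⟨v, hf v hv⟩
  · intro v hv v' hv' h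
    have h1 := hf v hv
    have h2 := hf v' hv'
    rw [h] at h1
    exact hK.pr1 u v v' _ h1 h2
  · intro x hx
    obtain ⟨v, hv⟩ := mem_cu.1 hx
    have h1 : v ∈ nb (dom K) u := mem_nb.2 (mem_dom.2 ⟨x, hv⟩)
    exact ⟨v, h1, hK.fn _ _ _ (hf v h1) hv⟩

private theorem cv_card {U V X : Type} [Fintype U] [Fintype V] {K : Finset ((U × V) × X)}
    {nu : U → Finset X} {nv : V → Finset X} {G : Finset X} (hK : PCol K nu nv G) (v : V) :
    (cv K v).card = (nb (tr (dom K)) v).card := by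
  symm
  have hex : ∀ u ∈ nb (tr (dom K)) v, ∃ x, ((u, v), x) ∈ K :=
    fun u hu => mem_dom.1 (mem_tr.1 (mem_nb.1 hu))
  choose f hf using hex
  refine Finset.card_bij (fun u hu => f u hu) ?_ ?_ ?_
  · intro u hu
    exact mem_cv.2 ⟨u, hf u hu⟩
  · intro u hu u' hu' h
    have h1 := hf u hu
    have h2 := hf u' hu'
    rw [h] at h1
    exact hK.pr2 u u' v _ h1 h2
  · intro x hx
    obtain ⟨u, hu⟩ := mem_cv.1 hx
    have h1 : u ∈ nb (tr (dom K)) v := mem_nb.2 (mem_tr.2 (mem_dom.2 ⟨x, hu⟩))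
    exact ⟨u, h1, hK.fn _ _ _ (hf u h1) hu⟩

/-- the degrees inside the part -/
private theorem side_deg {U V X : Type} [Fintype U] [Fintype V] {O E F : Finset (U × V)}
    {nu : U → Finset X} {P : ℕ} {aU : U → Fin P} {aV : V → Fin P} {G : Finset X} {s r m : ℕ}
    {η : ℝ} (hs : FSide O E F nu P aU aV G s r m η) (dOE : Disjoint O E) (dEF : Disjoint E F)
    {c : U → Finset X} (hcu : ∀ u, c u ⊆ nu u ∩ G) (hcc : ∀ u, (c u).card = (nb (O ∪ F) u).card)
    (u : U) : (nb E u).card = ((nu u ∩ G) \ c u).card + r := by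
  have h1 := hs.deg u
  have h2 : O ∪ E ∪ F = (O ∪ F) ∪ E := by
    ext p
    simp only [Finset.mem_union]
    tauto
  have h3 : Disjoint (O ∪ F) E := Finset.disjoint_union_left.2 ⟨dOE, dEF.symm⟩
  rw [h2, nb_union, Finset.card_union_of_disjoint (nb_disj h3 u), ← hcc u,
    ← Finset.card_sdiff_add_card_eq_card (hcu u)] at h1
  omega

private theorem side {U V X : Type} [Fintype U] [Fintype V] {O E F : Finset (U × V)}
    {nu : U → Finset X} {nv : V → Finset X} {P : ℕ} {aU : U → Fin P} {aV : V → Fin P}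
    {G : Finset X} {s r m : ℕ} (hs : FSide O E F nu P aU aV G s r m (1 / 10 ^ 25))
    (dOE : Disjoint O E) (dEF : Disjoint E F) (hin : ∀ p ∈ E, aU p.1 = aV p.2)
    (hE : ESide E nv G r) {c : U → Finset X} {c' : V → Finset X} (hcu : ∀ u, c u ⊆ nu u ∩ G)
    (hcc : ∀ u, (c u).card = (nb (O ∪ F) u).card)
    (hb : ∀ u, ∀ x ∈ G, (((nb E u).filter fun v => x ∈ c' v).card : ℝ) ≤ 1 / 10 ^ 10 * G.card)
    (a : Fin P) :
    PSide (rE E aU aV a) ∅ (fun u : {u // aU u = a} => (nu u.1 ∩ G) \ c u.1)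
      (fun v : {v // aV v = a} => (nv v.1 ∩ G) \ c' v.1) G ∅ r 0 (1 / 10 ^ 9) where
  sub := by
    intro u x hx
    rw [Finset.mem_sdiff, Finset.mem_inter] at hx
    exact hx.1.2
  deg := by
    intro u
    rw [nb_rE_card' E aU aV a hin u]
    exact side_deg hs dOE dEF hcu hcc u.1
  miss := by
    intro u
    have h1 : G \ ((nu u.1 ∩ G) \ c u.1) ⊆ (G \ nu u.1) ∪ c u.1 := by
      intro x hx
      rw [Finset.mem_sdiff, Finset.mem_sdiff, Finset.mem_inter] at hx
      rw [Finset.mem_union, Finset.mem_sdiff]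
      tauto
    have h2 : ((G \ ((nu u.1 ∩ G) \ c u.1)).card : ℝ) ≤ ((G \ nu u.1).card : ℝ) + (c u.1).card := by
      exact_mod_cast (Finset.card_le_card h1).trans (Finset.card_union_le _ _)
    have h3 : ((c u.1).card : ℝ) ≤ ((nb O u.1).card : ℝ) + (nb F u.1).card := by
      rw [hcc, nb_union]
      exact_mod_cast Finset.card_union_le _ _
    have h4 := hs.missG u.1
    have h5 := hs.degO u.1
    have h6 := hs.degF u.1
    have h7 : (0 : ℝ) ≤ G.card := Nat.cast_nonneg _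
    have h8 : (0 : ℝ) ≤ r := Nat.cast_nonneg _
    norm_num at h4 h5 h6 ⊢
    linarith
  misse := by
    intro u
    simp only [Finset.empty_sdiff, Finset.card_empty, Nat.cast_zero, zero_add]
    positivity
  bad := by
    intro u x hx
    have h1 := nb_rE_card E aU aV a hin u (fun v => x ∉ (nv v ∩ G) \ c' v)
    have h2 : ((nb E u.1).filter fun v => x ∉ (nv v ∩ G) \ c' v) ⊆
        ((nb E u.1).filter fun v => x ∉ nv v) ∪ ((nb E u.1).filter fun v => x ∈ c' v) := by
      intro v hv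
      rw [Finset.mem_filter, Finset.mem_sdiff, Finset.mem_inter] at hv
      rw [Finset.mem_union, Finset.mem_filter, Finset.mem_filter]
      tauto
    have h3 : (((nb E u.1).filter fun v => x ∉ (nv v ∩ G) \ c' v).card : ℝ) ≤
        (((nb E u.1).filter fun v => x ∉ nv v).card : ℝ) +
          (((nb E u.1).filter fun v => x ∈ c' v).card : ℝ) := by
      exact_mod_cast (Finset.card_le_card h2).trans (Finset.card_union_le _ _)
    have h4 := hE.bad u.1 x hx
    have h5 := hb u.1 x hx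
    have h7 : (0 : ℝ) ≤ G.card := Nat.cast_nonneg _
    have h8 : (0 : ℝ) ≤ r := Nat.cast_nonneg _
    have h9 : (((nb (rE E aU aV a) u).filter fun v => x ∉ (nv v.1 ∩ G) \ c' v.1).card : ℝ) =
        (((nb E u.1).filter fun v => x ∉ (nv v ∩ G) \ c' v).card : ℝ) := by
      norm_cast
      convert h1
    rw [h9]
    norm_num at h4 h5 ⊢
    norm_num at h3
    linarith
  degP := by
    intro u
    have h1 : nb (∅ : Finset ({u // aU u = a} × {v // aV v = a})) u = ∅ := by
      ext v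
      simp [mem_nb]
    rw [h1]
    simp only [Finset.card_empty, Nat.cast_zero, zero_add, sub_zero, abs_zero]
    positivity

private theorem card_part {U : Type} [Fintype U] {P : ℕ} {aU : U → Fin P} {a : Fin P} {s : ℕ}
    (h : (Finset.univ.filter fun u => aU u = a).card = s) : Fintype.card {u // aU u = a} = s := by
  rw [Fintype.card_subtype, ← h]

private theorem card_wt_sub {U X : Type} [Fintype U] {P : ℕ} {aU : U → Fin P} {a : Fin P}
    (nu : U → Finset X) (x : X) :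
    (wt (fun u : {u // aU u = a} => nu u.1) x).card =
      (Finset.univ.filter fun u => aU u = a ∧ x ∈ nu u).card := by
  refine Finset.card_bij (fun u _ => u.1) ?_ ?_ ?_
  · intro u hu
    rw [mem_wt] at hu
    rw [Finset.mem_filter]
    exact ⟨Finset.mem_univ _, u.2, hu⟩
  · intro u _ u' _ h
    exact Subtype.ext h
  · intro u hu
    rw [Finset.mem_filter] at hu
    refine ⟨⟨u, hu.2.1⟩, ?_, rfl⟩
    rw [mem_wt]
    exact hu.2.2

private theorem cu_sub {U V X : Type} {K : Finset ((U × V) × X)}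
    {nu : U → Finset X} {nv : V → Finset X} {G : Finset X} (hK : PCol K nu nv G) (u : U) :
    cu K u ⊆ nu u ∩ G := by
  intro x hx
  obtain ⟨v, hv⟩ := mem_cu.1 hx
  have := hK.col _ _ hv
  exact Finset.mem_inter.2 ⟨this.2.1, this.1⟩

private theorem cv_sub {U V X : Type} {K : Finset ((U × V) × X)}
    {nu : U → Finset X} {nv : V → Finset X} {G : Finset X} (hK : PCol K nu nv G) (v : V) :
    cv K v ⊆ nv v ∩ G := by
  intro x hx
  obtain ⟨u, hu⟩ := mem_cv.1 hx
  have := hK.col _ _ hu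
  exact Finset.mem_inter.2 ⟨this.2.2, this.1⟩

private theorem disj_tr {U V : Type} {A B : Finset (U × V)} (h : Disjoint A B) :
    Disjoint (tr A) (tr B) := by
  rw [Finset.disjoint_left] at h ⊢
  rintro ⟨v, u⟩ h1 h2
  exact h (mem_tr.1 h1) (mem_tr.1 h2)

private theorem mix_rE {U V : Type} [Fintype U] [Fintype V] {P : ℕ} {E : Finset (U × V)}
    {aU : U → Fin P} {aV : V → Fin P} {D : ℝ} {s : ℕ} (hD : 0 ≤ D)
    (h : ∀ a (S : Finset U) (T : Finset V), (∀ u ∈ S, aU u = a) → (∀ v ∈ T, aV v = a) →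
      (eb E S T : ℝ) ≤ D * (104 / 100 * ((S.card : ℝ) * T.card / s) +
        1 / 10 ^ 24 * max (S.card : ℝ) T.card)) (a : Fin P) :
    Mix (rE E aU aV a) D (105 / 100) (1 / 10 ^ 9) s := by
  intro S T
  have h1 : eb (rE E aU aV a) S T = eb E (S.map (Function.Embedding.subtype _))
      (T.map (Function.Embedding.subtype _)) := by
    unfold eb
    refine Finset.card_bij (fun p _ => (p.1.1, p.2.1)) ?_ ?_ ?_
    · rintro ⟨u, v⟩ hp
      simp only [Finset.mem_filter, mem_rE] at hp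
      rw [Finset.mem_filter]
      exact ⟨hp.1, Finset.mem_map.2 ⟨u, hp.2.1, rfl⟩, Finset.mem_map.2 ⟨v, hp.2.2, rfl⟩⟩
    · rintro ⟨u, v⟩ _ ⟨u', v'⟩ _ he
      rw [Prod.mk.injEq] at he
      exact Prod.ext (Subtype.ext he.1) (Subtype.ext he.2)
    · rintro ⟨u, v⟩ hp
      rw [Finset.mem_filter] at hp
      obtain ⟨h2, h3, h4⟩ := hp
      obtain ⟨u', hu', h5⟩ := Finset.mem_map.1 h3
      obtain ⟨v', hv', h6⟩ := Finset.mem_map.1 h4
      simp only [Function.Embedding.subtype_apply] at h5 h6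
      subst h5 h6
      refine ⟨(u', v'), ?_, rfl⟩
      simp only [Finset.mem_filter, mem_rE]
      exact ⟨h2, hu', hv'⟩
  have h2 := h a (S.map (Function.Embedding.subtype _)) (T.map (Function.Embedding.subtype _))
    (by
      intro u hu
      obtain ⟨u', _, h5⟩ := Finset.mem_map.1 hu
      rw [← h5]
      exact u'.2)
    (by
      intro u hu
      obtain ⟨u', _, h5⟩ := Finset.mem_map.1 hu
      rw [← h5]
      exact u'.2)
  rw [Finset.card_map, Finset.card_map] at h2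
  rw [h1]
  refine h2.trans (mul_le_mul_of_nonneg_left ?_ hD)
  have h3 : (0 : ℝ) ≤ (S.card : ℝ) * T.card / s := by positivity
  have h4 : (0 : ℝ) ≤ max (S.card : ℝ) T.card := le_max_of_le_left (Nat.cast_nonneg _)
  nlinarith

theorem stage2_pt {U V X : Type} [Fintype U] [Fintype V] [Fintype X] (H O E F : Finset (U × V))
    (nu : U → Finset X) (nv : V → Finset X) (P : ℕ) (aU : U → Fin P) (aV : V → Fin P)
    (hub : Fin P → Finset X) (G : Finset X) (s r m : ℕ) (L : ℝ) (K : Finset ((U × V) × X))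
    (h : S2In H O E F nu nv P aU aV hub G s r m L K) (a : Fin P) :
    ∃ Mt : X → Finset (U × V), (∀ x ∈ G, Mt x ⊆ E ∧
      IsPM (Mt x) (Finset.univ.filter fun u => aU u = a ∧ x ∈ nu u ∧ x ∉ cu K u)
        (Finset.univ.filter fun v => aV v = a ∧ x ∈ nv v ∧ x ∉ cv K v)) ∧
      ∀ x ∈ G, ∀ y ∈ G, x ≠ y → Disjoint (Mt x) (Mt y) := by
  have hcu := cu_sub h.hK
  have hcv := cv_sub h.hK
  have hcc : ∀ u, (cu K u).card = (nb (O ∪ F) u).card := by
    intro u
    rw [cu_card h.hK, h.hdom]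
  have hcc' : ∀ v, (cv K v).card = (nb (tr O ∪ tr F) v).card := by
    intro v
    rw [cv_card h.hK, h.hdom, tr_union]
  have hin' : ∀ p ∈ tr E, aV p.1 = aU p.2 := by
    rintro ⟨v, u⟩ hp
    exact (h.hE.inn _ (mem_tr.1 hp)).symm
  have h1 := side h.hf.s1 h.hf.dOE h.hf.dEF h.hE.inn h.hE.s1 hcu hcc h.hb1 a
  have h2 := side h.hf.s2 (disj_tr h.hf.dOE) (disj_tr h.hf.dEF) hin' h.hE.s2 hcv hcc' h.hb2 a
  rw [← tr_rE] at h2
  have h0 : (∅ : Finset ({v // aV v = a} × {u // aU u = a})) =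
      tr (∅ : Finset ({u // aU u = a} × {v // aV v = a})) := by
    ext ⟨v, u⟩
    simp [mem_tr]
  rw [h0] at h2
  have hcU := card_part (h.hf.s1.cU a)
  have hcV := card_part (h.hf.s2.cU a)
  have hP1 : (1 : ℝ) ≤ P := le_trans (by norm_num) h.hf.P1
  have hr1 := h.h.r1
  have hrG := h.hf.rG
  have hL1 := h.hf.L1
  have hG0 : (0 : ℝ) ≤ G.card := Nat.cast_nonneg _
  have hr0 : (0 : ℝ) ≤ r := Nat.cast_nonneg _
  have hs0 : (0 : ℝ) ≤ s := Nat.cast_nonneg _
  obtain ⟨Mt, hMt, hd⟩ := process (rE E aU aV a) ∅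
    (fun u : {u // aU u = a} => (nu u.1 ∩ G) \ cu K u.1)
    (fun v : {v // aV v = a} => (nv v.1 ∩ G) \ cv K v.1) G ∅ r L 1 0 (Finset.empty_subset _)
    (Finset.empty_subset _) one_pos le_rfl h1 h2 hL1 (hcU.trans hcV.symm)
    (by
      rw [hcU]
      refine le_trans ?_ h.hf.NL
      nlinarith) h.hf.Gexp
    (by
      intro x hx
      have e1 := card_wt_sub (aU := aU) (a := a) (fun u => (nu u ∩ G) \ cu K u) x
      have e2 := card_wt_sub (aU := aV) (a := a) (fun v => (nv v ∩ G) \ cv K v) x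
      rw [e1, e2]
      have e3 := h.hbal x hx a
      have e4 : (Finset.univ.filter fun u => aU u = a ∧ x ∈ (nu u ∩ G) \ cu K u) =
          Finset.univ.filter fun u => aU u = a ∧ x ∈ nu u ∧ x ∉ cu K u := by
        ext u
        simp [hx]
      have e5 : (Finset.univ.filter fun v => aV v = a ∧ x ∈ (nv v ∩ G) \ cv K v) =
          Finset.univ.filter fun v => aV v = a ∧ x ∈ nv v ∧ x ∉ cv K v := by
        ext u
        simp [hx]
      rw [e4, e5]
      exact e3)
    (by
      rw [hcU]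
      exact mix_rE (by positivity) h.hE.mix a) le_rfl (by simp)
    (by
      simp only [Finset.card_empty, Nat.cast_zero, zero_add, div_one]
      exact hr1)
    (by
      simp only [Finset.card_empty, Nat.cast_zero, zero_add]
      linarith)
  have hem : Function.Injective fun p : {u // aU u = a} × {v // aV v = a} => (p.1.1, p.2.1) := by
    rintro ⟨u, v⟩ ⟨u', v'⟩ he
    simp only [Prod.mk.injEq] at he
    rw [Subtype.ext he.1, Subtype.ext he.2]
  have mem : ∀ x (p : U × V), p ∈ (Mt x).image (fun p => (p.1.1, p.2.1)) ↔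
      ∃ (h1 : aU p.1 = a) (h2 : aV p.2 = a), (⟨p.1, h1⟩, ⟨p.2, h2⟩) ∈ Mt x := by
    intro x p
    rw [Finset.mem_image]
    constructor
    · rintro ⟨⟨u, v⟩, hp, rfl⟩
      exact ⟨u.2, v.2, hp⟩
    · rintro ⟨h1, h2, hp⟩
      exact ⟨_, hp, rfl⟩
  refine ⟨fun x => (Mt x).image fun p => (p.1.1, p.2.1), fun x hx => ⟨?_, ?_, ?_, ?_, ?_, ?_⟩, ?_⟩
  · intro p hp
    obtain ⟨h3, h4, h5⟩ := (mem x p).1 hp
    have h6 := (hMt x (by simpa using hx)).1 h5
    simp only [Finset.mem_sdiff, mem_rE] at h6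
    exact h6.1
  · intro p hp
    obtain ⟨h3, h4, h5⟩ := (mem x p).1 hp
    have h6 := (hMt x (by simpa using hx)).2.sub _ h5
    simp only [mem_wt, Finset.mem_sdiff, Finset.mem_inter] at h6
    simp only [Finset.mem_filter, Finset.mem_univ, true_and]
    exact ⟨⟨h3, h6.1.1.1, h6.1.2⟩, ⟨h4, h6.2.1.1, h6.2.2⟩⟩
  · intro u hu
    simp only [Finset.mem_filter, Finset.mem_univ, true_and] at hu
    obtain ⟨v, hv⟩ := (hMt x (by simpa using hx)).2.ex1 ⟨u, hu.1⟩ (by
      rw [mem_wt, Finset.mem_sdiff, Finset.mem_inter]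
      exact ⟨⟨hu.2.1, hx⟩, hu.2.2⟩)
    exact ⟨v.1, (mem x _).2 ⟨hu.1, v.2, hv⟩⟩
  · intro v hv
    simp only [Finset.mem_filter, Finset.mem_univ, true_and] at hv
    obtain ⟨u, hu⟩ := (hMt x (by simpa using hx)).2.ex2 ⟨v, hv.1⟩ (by
      rw [mem_wt, Finset.mem_sdiff, Finset.mem_inter]
      exact ⟨⟨hv.2.1, hx⟩, hv.2.2⟩)
    exact ⟨u.1, (mem x _).2 ⟨u.2, hv.1, hu⟩⟩
  · intro u v v' hv hv'
    obtain ⟨h3, h4, h5⟩ := (mem x _).1 hv
    obtain ⟨h3', h4', h5'⟩ := (mem x _).1 hv'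
    have := (hMt x (by simpa using hx)).2.un1 _ _ _ h5 h5'
    exact congrArg Subtype.val this
  · intro u u' v hv hv'
    obtain ⟨h3, h4, h5⟩ := (mem x _).1 hv
    obtain ⟨h3', h4', h5'⟩ := (mem x _).1 hv'
    have := (hMt x (by simpa using hx)).2.un2 _ _ _ h5 h5'
    exact congrArg Subtype.val this
  · intro x hx y hy hxy
    rw [Finset.disjoint_left]
    intro p hp hp'
    obtain ⟨h3, h4, h5⟩ := (mem x _).1 hp
    obtain ⟨h3', h4', h5'⟩ := (mem y _).1 hp'
    exact Finset.disjoint_left.1 (hd x (by simpa using hx) y (by simpa using hy) hxy) h5 h5'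

/-- a proper colouring of a regular graph: every vertex sees every colour -/
private theorem sees {Z : Type} (S : Finset Z) (c : Z → ℕ) (r : ℕ) (hS : S.card = r)
    (h1 : ∀ z ∈ S, c z < r) (h2 : ∀ z ∈ S, ∀ z' ∈ S, c z = c z' → z = z') {i : ℕ} (hi : i < r) :
    ∃ z ∈ S, c z = i := by
  have h3 : (S.image c).card = r := by
    rw [Finset.card_image_of_injOn, hS]
    intro z hz z' hz' h
    exact h2 z hz z' hz' h
  have h4 : S.image c = Finset.range r := by
    apply Finset.eq_of_subset_of_card_le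
    · intro j hj
      obtain ⟨z, hz, rfl⟩ := Finset.mem_image.1 hj
      exact Finset.mem_range.2 (h1 z hz)
    · rw [Finset.card_range, h3]
  have h5 : i ∈ S.image c := by
    rw [h4]
    exact Finset.mem_range.2 hi
  exact Finset.mem_image.1 h5

private theorem fib1 {U V : Type} [Fintype U] [Fintype V] (S : Finset (U × V)) (u : U) :
    (S.filter fun z => z.1 = u).card = (nb S u).card := by
  refine Finset.card_bij (fun z _ => z.2) ?_ ?_ ?_
  · rintro ⟨u', v⟩ hz
    simp only [Finset.mem_filter] at hz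
    obtain ⟨hz, rfl⟩ := hz
    exact mem_nb.2 hz
  · rintro ⟨u', v⟩ hz ⟨u'', v'⟩ hz' h
    simp only [Finset.mem_filter] at hz hz'
    simp only at h
    exact Prod.ext (hz.2.trans hz'.2.symm) h
  · intro v hv
    refine ⟨(u, v), ?_, rfl⟩
    simp only [Finset.mem_filter]
    exact ⟨mem_nb.1 hv, trivial⟩

private theorem fib2 {U V : Type} [Fintype U] [Fintype V] (S : Finset (U × V)) (v : V) :
    (S.filter fun z => z.2 = v).card = (nb (tr S) v).card := by
  refine Finset.card_bij (fun z _ => z.1) ?_ ?_ ?_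
  · rintro ⟨u', v'⟩ hz
    simp only [Finset.mem_filter] at hz
    obtain ⟨hz, rfl⟩ := hz
    exact mem_nb.2 (mem_tr.2 hz)
  · rintro ⟨u', v⟩ hz ⟨u'', v'⟩ hz' h
    simp only [Finset.mem_filter] at hz hz'
    simp only at h
    exact Prod.ext h (hz.2.trans hz'.2.symm)
  · intro u hu
    refine ⟨(u, v), ?_, rfl⟩
    simp only [Finset.mem_filter]
    exact ⟨mem_tr.1 (mem_nb.1 hu), trivial⟩

/-- decomposition of a regular graph -/
private theorem regular {U V : Type} [Fintype U] [Fintype V] (S : Finset (U × V)) (r : ℕ)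
    (h1 : ∀ u, (nb S u).card = r) (h2 : ∀ v, (nb (tr S) v).card = r) :
    ∃ c : U × V → ℕ, (∀ i, i < r → ∀ u, ∃ v, (u, v) ∈ S ∧ c (u, v) = i) ∧
      (∀ i, i < r → ∀ v, ∃ u, (u, v) ∈ S ∧ c (u, v) = i) ∧
      (∀ u v v', (u, v) ∈ S → (u, v') ∈ S → c (u, v) = c (u, v') → v = v') ∧
      (∀ u u' v, (u, v) ∈ S → (u', v) ∈ S → c (u, v) = c (u', v) → u = u') := by
  obtain ⟨c, hc1, hc2, hc3⟩ := MP_6fba53_co.koenig (Prod.fst : U × V → U) Prod.snd r S
    (fun u => by rw [← h1 u, ← fib1 S u]) (fun v => by rw [← h2 v, ← fib2 S v])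
  refine ⟨c, ?_, ?_, ?_, ?_⟩
  · intro i hi u
    obtain ⟨z, hz, hz2⟩ := sees (S.filter fun z => z.1 = u) c r (by rw [fib1, h1])
      (fun z hz => hc1 z (Finset.mem_filter.1 hz).1)
      (fun z hz z' hz' h => hc2 z (Finset.mem_filter.1 hz).1 z' (Finset.mem_filter.1 hz').1
        ((Finset.mem_filter.1 hz).2.trans (Finset.mem_filter.1 hz').2.symm) h) hi
    obtain ⟨hz', rfl⟩ := Finset.mem_filter.1 hz
    exact ⟨z.2, hz', hz2⟩
  · intro i hi v
    obtain ⟨z, hz, hz2⟩ := sees (S.filter fun z => z.2 = v) c r (by rw [fib2, h2])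
      (fun z hz => hc1 z (Finset.mem_filter.1 hz).1)
      (fun z hz z' hz' h => hc3 z (Finset.mem_filter.1 hz).1 z' (Finset.mem_filter.1 hz').1
        ((Finset.mem_filter.1 hz).2.trans (Finset.mem_filter.1 hz').2.symm) h) hi
    obtain ⟨hz', rfl⟩ := Finset.mem_filter.1 hz
    exact ⟨z.1, hz', hz2⟩
  · intro u v v' hv hv' h
    exact congrArg Prod.snd (hc2 _ hv _ hv' rfl h)
  · intro u u' v hv hv' h
    exact congrArg Prod.fst (hc3 _ hv _ hv' rfl h)

theorem stage2 {U V X : Type} [Fintype U] [Fintype V] [Fintype X] (H O E F : Finset (U × V))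
    (nu : U → Finset X) (nv : V → Finset X) (P : ℕ) (aU : U → Fin P) (aV : V → Fin P)
    (hub : Fin P → Finset X) (G : Finset X) (s r m : ℕ) (L : ℝ) (K : Finset ((U × V) × X))
    (h : S2In H O E F nu nv P aU aV hub G s r m L K) (a : Fin P) (Mt : X → Finset (U × V))
    (hMt : ∀ x ∈ G, Mt x ⊆ E ∧
      IsPM (Mt x) (Finset.univ.filter fun u => aU u = a ∧ x ∈ nu u ∧ x ∉ cu K u)
        (Finset.univ.filter fun v => aV v = a ∧ x ∈ nv v ∧ x ∉ cv K v))
    (hd : ∀ x ∈ G, ∀ y ∈ G, x ≠ y → Disjoint (Mt x) (Mt y)) :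
    ∃ Nt : X → Finset (U × V), (∀ x ∈ G ∪ hub a, Nt x ⊆ E ∧
      IsPM (Nt x) (Finset.univ.filter fun u => aU u = a ∧ x ∈ nu u ∧ x ∉ cu K u)
        (Finset.univ.filter fun v => aV v = a ∧ x ∈ nv v ∧ x ∉ cv K v)) ∧
      ∀ x ∈ G ∪ hub a, ∀ y ∈ G ∪ hub a, x ≠ y → Disjoint (Nt x) (Nt y) := by
  have hcu := cu_sub h.hK
  have hcv := cv_sub h.hK
  have hcc : ∀ u, (cu K u).card = (nb (O ∪ F) u).card := by
    intro u
    rw [cu_card h.hK, h.hdom]
  have hcc' : ∀ v, (cv K v).card = (nb (tr O ∪ tr F) v).card := by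
    intro v
    rw [cv_card h.hK, h.hdom, tr_union]
  have hin' : ∀ p ∈ tr E, aV p.1 = aU p.2 := by
    rintro ⟨v, u⟩ hp
    exact (h.hE.inn _ (mem_tr.1 hp)).symm
  set nu' : {u // aU u = a} → Finset X := fun u => (nu u.1 ∩ G) \ cu K u.1 with hnu
  set nv' : {v // aV v = a} → Finset X := fun v => (nv v.1 ∩ G) \ cv K v.1 with hnv
  have d1 : ∀ u, (nb (rE E aU aV a) u).card = (nu' u).card + r := by
    intro u
    rw [nb_rE_card' E aU aV a h.hE.inn u]
    exact side_deg h.hf.s1 h.hf.dOE h.hf.dEF hcu hcc u.1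
  have d2 : ∀ v, (nb (tr (rE E aU aV a)) v).card = (nv' v).card + r := by
    intro v
    rw [tr_rE, nb_rE_card' (tr E) aV aU a hin' v]
    exact side_deg h.hf.s2 (disj_tr h.hf.dOE) (disj_tr h.hf.dEF) hcv hcc' v.1
  have hM : ∀ x ∈ G, rE (Mt x) aU aV a ⊆ rE E aU aV a ∧
      IsPM (rE (Mt x) aU aV a) (wt nu' x) (wt nv' x) := by
    intro x hx
    obtain ⟨h1, h2⟩ := hMt x hx
    refine ⟨?_, ?_, ?_, ?_, ?_, ?_⟩
    · rintro ⟨u, v⟩ hp
      exact mem_rE.2 (h1 (mem_rE.1 hp))
    · rintro ⟨u, v⟩ hp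
      have := h2.sub _ (mem_rE.1 hp)
      simp only [Finset.mem_filter, Finset.mem_univ, true_and] at this
      simp only [mem_wt, hnu, hnv, Finset.mem_sdiff, Finset.mem_inter]
      exact ⟨⟨⟨this.1.2.1, hx⟩, this.1.2.2⟩, ⟨⟨this.2.2.1, hx⟩, this.2.2.2⟩⟩
    · intro u hu
      simp only [mem_wt, hnu, Finset.mem_sdiff, Finset.mem_inter] at hu
      obtain ⟨v, hv⟩ := h2.ex1 u.1 (by
        simp only [Finset.mem_filter, Finset.mem_univ, true_and]
        exact ⟨u.2, hu.1.1, hu.2⟩)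
      have := (h2.sub _ hv).2
      simp only [Finset.mem_filter, Finset.mem_univ, true_and] at this
      exact ⟨⟨v, this.1⟩, mem_rE.2 hv⟩
    · intro v hv
      simp only [mem_wt, hnv, Finset.mem_sdiff, Finset.mem_inter] at hv
      obtain ⟨u, hu⟩ := h2.ex2 v.1 (by
        simp only [Finset.mem_filter, Finset.mem_univ, true_and]
        exact ⟨v.2, hv.1.1, hv.2⟩)
      have := (h2.sub _ hu).1
      simp only [Finset.mem_filter, Finset.mem_univ, true_and] at this
      exact ⟨⟨u, this.1⟩, mem_rE.2 hu⟩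
    · intro u v v' hv hv'
      exact Subtype.ext (h2.un1 _ _ _ (mem_rE.1 hv) (mem_rE.1 hv'))
    · intro u u' v hv hv'
      exact Subtype.ext (h2.un2 _ _ _ (mem_rE.1 hv) (mem_rE.1 hv'))
  have hdM : ∀ x ∈ G, ∀ y ∈ G, x ≠ y → Disjoint (rE (Mt x) aU aV a) (rE (Mt y) aU aV a) := by
    intro x hx y hy hxy
    rw [Finset.disjoint_left]
    rintro ⟨u, v⟩ h1 h2
    exact Finset.disjoint_left.1 (hd x hx y hy hxy) (mem_rE.1 h1) (mem_rE.1 h2)
  set S := rE E aU aV a \ G.biUnion fun x => rE (Mt x) aU aV a with hSdef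
  have hGu : ∀ u, G ∩ nu' u = nu' u := by
    intro u
    rw [Finset.inter_eq_right]
    intro x hx
    simp only [hnu, Finset.mem_sdiff, Finset.mem_inter] at hx
    exact hx.1.2
  have hGv : ∀ v, G ∩ nv' v = nv' v := by
    intro v
    rw [Finset.inter_eq_right]
    intro x hx
    simp only [hnv, Finset.mem_sdiff, Finset.mem_inter] at hx
    exact hx.1.2
  have r1 : ∀ u, (nb S u).card = r := by
    intro u
    have h1 := card_nb_family (rE E aU aV a) nu' nv' G (fun x => rE (Mt x) aU aV a) hM hdM u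
    rw [hGu, d1] at h1
    have h2 : (nb S u).card + (nu' u).card = (nu' u).card + r := by
      refine Eq.trans (congrArg (· + (nu' u).card) (congrArg Finset.card ?_)) h1
      ext v
      simp only [mem_nb, hSdef, Finset.mem_sdiff, Finset.mem_biUnion]
    omega
  have r2 : ∀ v, (nb (tr S) v).card = r := by
    intro v
    have h1 := card_nb_family (tr (rE E aU aV a)) nv' nu' G (fun x => tr (rE (Mt x) aU aV a))
      (fun x hx => ⟨tr_subset.2 (hM x hx).1, (hM x hx).2.tr⟩)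
      (fun x hx y hy hxy => disj_tr (hdM x hx y hy hxy)) v
    rw [hGv, d2] at h1
    have h3 : tr S = tr (rE E aU aV a) \ G.biUnion fun x => tr (rE (Mt x) aU aV a) := by
      ext ⟨v, u⟩
      simp only [hSdef, mem_tr, Finset.mem_sdiff, Finset.mem_biUnion]
    have h2 : (nb (tr S) v).card + (nv' v).card = (nv' v).card + r := by
      rw [h3]
      refine Eq.trans (congrArg (· + (nv' v).card) (congrArg Finset.card ?_)) h1
      ext v
      simp only [mem_nb, Finset.mem_sdiff, Finset.mem_biUnion]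
    omega
  obtain ⟨c, c1, c2, c3, c4⟩ := regular S r r1 r2
  set e : {x // x ∈ hub a} ≃ Fin r := Finset.equivFinOfCardEq (h.h.hubc a) with he
  have hSm : ∀ u v, (u, v) ∈ S ↔ (u.1, v.1) ∈ E ∧ ∀ x ∈ G, (u.1, v.1) ∉ Mt x := by
    intro u v
    rw [hSdef]
    simp only [Finset.mem_sdiff, mem_rE, Finset.mem_biUnion, not_exists, not_and]
  have hGh : ∀ x ∈ hub a, x ∉ G := fun x hx hx' => Finset.disjoint_left.1 (h.h.hubG a) hx hx'
  set Nh : {x // x ∈ hub a} → Finset (U × V) := fun x =>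
    (S.filter fun z => c z = (e x : ℕ)).image fun z => (z.1.1, z.2.1) with hNh
  have memN : ∀ x (p : U × V), p ∈ Nh x ↔ ∃ (h1 : aU p.1 = a) (h2 : aV p.2 = a),
      ((⟨p.1, h1⟩, ⟨p.2, h2⟩) : {u // aU u = a} × {v // aV v = a}) ∈ S ∧
        c (⟨p.1, h1⟩, ⟨p.2, h2⟩) = (e x : ℕ) := by
    intro x p
    rw [hNh]
    simp only [Finset.mem_image, Finset.mem_filter]
    constructor
    · rintro ⟨⟨u, v⟩, hp, rfl⟩
      exact ⟨u.2, v.2, hp⟩
    · rintro ⟨h1, h2, hp⟩
      exact ⟨_, hp, rfl⟩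
  set Nt : X → Finset (U × V) := fun x => if hx : x ∈ hub a then Nh ⟨x, hx⟩ else Mt x with hNt
  have Nt1 : ∀ x (hx : x ∈ hub a), Nt x = Nh ⟨x, hx⟩ := by
    intro x hx
    rw [hNt]
    simp only [hx, dif_pos]
  have Nt2 : ∀ x, x ∈ G → Nt x = Mt x := by
    intro x hx
    have hx' : x ∉ hub a := fun h' => hGh x h' hx
    rw [hNt]
    simp only [hx', dif_neg, not_false_iff]
  have hub1 : ∀ x ∈ hub a, ∀ u, aU u = a → x ∈ nu u ∧ x ∉ cu K u := by
    intro x hx u hu
    refine ⟨h.h.s1.hubn u (by rw [hu]; exact hx), fun h' => hGh x hx ?_⟩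
    exact (Finset.mem_inter.1 (hcu u h')).2
  have hub2 : ∀ x ∈ hub a, ∀ v, aV v = a → x ∈ nv v ∧ x ∉ cv K v := by
    intro x hx v hv
    refine ⟨h.h.s2.hubn v (by rw [hv]; exact hx), fun h' => hGh x hx ?_⟩
    exact (Finset.mem_inter.1 (hcv v h')).2
  refine ⟨Nt, ?_, ?_⟩
  · intro x hx
    by_cases hG : x ∈ G
    · rw [Nt2 x hG]
      exact hMt x hG
    · have hh : x ∈ hub a := (Finset.mem_union.1 hx).resolve_left hG
      rw [Nt1 x hh]
      refine ⟨?_, ?_, ?_, ?_, ?_, ?_⟩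
      · intro p hp
        obtain ⟨h1, h2, h3, h4⟩ := (memN _ p).1 hp
        exact ((hSm _ _).1 h3).1
      · intro p hp
        obtain ⟨h1, h2, h3, h4⟩ := (memN _ p).1 hp
        simp only [Finset.mem_filter, Finset.mem_univ, true_and]
        exact ⟨⟨h1, hub1 x hh _ h1⟩, ⟨h2, hub2 x hh _ h2⟩⟩
      · intro u hu
        simp only [Finset.mem_filter, Finset.mem_univ, true_and] at hu
        obtain ⟨v, hv⟩ := c1 (e ⟨x, hh⟩) (e ⟨x, hh⟩).2 ⟨u, hu.1⟩
        exact ⟨v.1, (memN _ _).2 ⟨hu.1, v.2, hv⟩⟩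
      · intro v hv
        simp only [Finset.mem_filter, Finset.mem_univ, true_and] at hv
        obtain ⟨u, hu⟩ := c2 (e ⟨x, hh⟩) (e ⟨x, hh⟩).2 ⟨v, hv.1⟩
        exact ⟨u.1, (memN _ _).2 ⟨u.2, hv.1, hu⟩⟩
      · intro u v v' hv hv'
        obtain ⟨h1, h2, h3, h4⟩ := (memN _ _).1 hv
        obtain ⟨h1', h2', h3', h4'⟩ := (memN _ _).1 hv'
        exact congrArg Subtype.val (c3 _ _ _ h3 h3' (h4.trans h4'.symm))
      · intro u u' v hv hv'
        obtain ⟨h1, h2, h3, h4⟩ := (memN _ _).1 hv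
        obtain ⟨h1', h2', h3', h4'⟩ := (memN _ _).1 hv'
        exact congrArg Subtype.val (c4 _ _ _ h3 h3' (h4.trans h4'.symm))
  · have key : ∀ x ∈ G, ∀ y ∈ hub a, Disjoint (Nt x) (Nt y) := by
      intro x hx y hy
      rw [Nt2 x hx, Nt1 y hy, Finset.disjoint_left]
      intro p hp hp'
      obtain ⟨h1, h2, h3, h4⟩ := (memN _ p).1 hp'
      exact ((hSm _ _).1 h3).2 x hx hp
    intro x hx y hy hxy
    rcases Finset.mem_union.1 hx with hx | hx <;> rcases Finset.mem_union.1 hy with hy | hy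
    · rw [Nt2 x hx, Nt2 y hy]
      exact hd x hx y hy hxy
    · exact key x hx y hy
    · exact (key y hy x hx).symm
    · rw [Nt1 x hx, Nt1 y hy, Finset.disjoint_left]
      intro p hp hp'
      obtain ⟨h1, h2, h3, h4⟩ := (memN _ p).1 hp
      obtain ⟨h1', h2', h3', h4'⟩ := (memN _ p).1 hp'
      have h5 : e ⟨x, hx⟩ = e ⟨y, hy⟩ := Fin.ext (h4.symm.trans h4')
      exact hxy (congrArg Subtype.val (e.injective h5))

end Pool.Agent.Lib.TriS
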