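import Pool.Agent.Lib.TriS.ResDefs
import Pool.Agent.Lib.TriS.Flush

/-!
MODULE ToFlush (about 180 lines). After Stage I the hypotheses of the flush hold.

PROOF. `O = (H \ (E ∪ F)) \ W`, `W = (univ \ G).biUnion Mt`. `O ∪ E ∪ F = H \ W` (`E ∪ F ⊆ H`, `W ⊆ H \ (E ∪ F)`). `deg`: `card_nb_family` with the needs `nu' u = nu u \ hub (aU u)` and `Q = univ \ G`:
`card (nb (H \ W) u) + card ((univ \ G) ∩ nu' u) = card (nb H u) = card (nu u) = card (nu' u) + r`, so `card (nb (H \ W) u) = card (nu' u ∩ G) + r = card (nu u ∩ G) + r` (`hubG`). `degO`: `card (nb O u) = card (nb (O ∪ E ∪ F) u) - card (nb E u) - card (nb F u) ≤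
|G| + r - (1 - 1/10^15)(|G| + r) + 1/(2*10^24)(|G| + r) ≤ 2.2/10^15 |G|` (`r ≤ |G|/10^10`: `r ≤ 10^22 L`, `G1`, `P1`). `degE ≤ 1.1 |G|`, `degF ≤ 1.1/10^11 |G|`. The rest is direct (`Gexp`: `|G| ≤ k ≤ exp L`).
-/

set_option autoImplicit false

open scoped Classical

noncomputable section

namespace Pool.Agent.Lib.TriS

private theorem flush_side {U V X : Type} [Fintype U] [Fintype V] [Fintype X]
    (H E F : Finset (U × V)) (nu : U → Finset X) (nv : V → Finset X) (P : ℕ) (aU : U → Fin P)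
    (aV : V → Fin P) (hub : Fin P → Finset X) (G : Finset X) (s r m : ℕ)
    (h : SSide H nu nv P aU aV hub G s (1 / 10 ^ 25)) (hubc : ∀ a, (hub a).card = r)
    (hubG : ∀ a, Disjoint (hub a) G) (hrG : 10 ^ 10 * (r : ℝ) ≤ G.card)
    (hEH : E ⊆ H) (hFH : F ⊆ H) (hEF : Disjoint E F) (hE : ESide E nv G r)
    (hF : FresSide F P aV G s r m) (Mt : X → Finset (U × V))
    (hMt : ∀ x, x ∉ G → Mt x ⊆ H \ (E ∪ F) ∧
      IsPM (Mt x) (wt (fun u => nu u \ hub (aU u)) x) (wt (fun v => nv v \ hub (aV v)) x))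
    (hd : ∀ x y, x ∉ G → y ∉ G → x ≠ y → Disjoint (Mt x) (Mt y)) :
    FSide ((H \ (E ∪ F)) \ (Finset.univ \ G).biUnion Mt) E F nu P aU aV G s r m
      (1 / 10 ^ 25) := by
  have hW : ∀ p, p ∈ (Finset.univ \ G).biUnion Mt → p ∈ H \ (E ∪ F) := by
    intro p hp
    obtain ⟨x, hx, hp⟩ := Finset.mem_biUnion.1 hp
    exact (hMt x (Finset.mem_sdiff.1 hx).2).1 hp
  have hOEF : (H \ (E ∪ F)) \ (Finset.univ \ G).biUnion Mt ∪ E ∪ F =
      H \ (Finset.univ \ G).biUnion Mt := by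
    ext p
    simp only [Finset.mem_union, Finset.mem_sdiff]
    constructor
    · rintro ((⟨⟨h1, -⟩, h2⟩ | h1) | h1)
      · exact ⟨h1, h2⟩
      · refine ⟨hEH h1, fun h2 => ?_⟩
        exact (Finset.mem_sdiff.1 (hW p h2)).2 (Finset.mem_union_left _ h1)
      · refine ⟨hFH h1, fun h2 => ?_⟩
        exact (Finset.mem_sdiff.1 (hW p h2)).2 (Finset.mem_union_right _ h1)
    · rintro ⟨h1, h2⟩
      by_cases h3 : p ∈ E
      · exact Or.inl (Or.inr h3)
      · by_cases h4 : p ∈ F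
        · exact Or.inr h4
        · exact Or.inl (Or.inl ⟨⟨h1, fun h5 => h5.elim h3 h4⟩, h2⟩)
  have hdeg : ∀ u, (nb ((H \ (E ∪ F)) \ (Finset.univ \ G).biUnion Mt ∪ E ∪ F) u).card =
      (nu u ∩ G).card + r := by
    intro u
    rw [hOEF]
    have h1 := card_nb_family H (fun u => nu u \ hub (aU u)) (fun v => nv v \ hub (aV v))
      (Finset.univ \ G) Mt (fun x hx => by
        have h2 := hMt x (Finset.mem_sdiff.1 hx).2
        exact ⟨h2.1.trans Finset.sdiff_subset, h2.2⟩)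
      (fun x hx x' hx' hne => hd x x' (Finset.mem_sdiff.1 hx).2 (Finset.mem_sdiff.1 hx').2 hne) u
    beta_reduce at h1
    rw [h.deg u] at h1
    have h2 : (Finset.univ \ G) ∩ (nu u \ hub (aU u)) = (nu u \ hub (aU u)) \ (nu u ∩ G) := by
      ext x
      simp only [Finset.mem_inter, Finset.mem_sdiff, Finset.mem_univ, true_and]
      constructor
      · rintro ⟨h3, h4, h5⟩
        exact ⟨⟨h4, h5⟩, fun h6 => h3 h6.2⟩
      · rintro ⟨⟨h3, h4⟩, h5⟩
        exact ⟨fun h6 => h5 ⟨h3, h6⟩, h3, h4⟩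
    have h3 : nu u ∩ G ⊆ nu u \ hub (aU u) := by
      intro x hx
      rw [Finset.mem_inter] at hx
      rw [Finset.mem_sdiff]
      exact ⟨hx.1, fun h4 => (Finset.disjoint_left.1 (hubG (aU u))) h4 hx.2⟩
    have h4 := Finset.card_sdiff_add_card_eq_card h3
    have h5 := Finset.card_sdiff_add_card_eq_card (h.hubn u)
    rw [hubc] at h5
    rw [h2] at h1
    omega
  have hEF0 : ∀ u, ((nb ((H \ (E ∪ F)) \ (Finset.univ \ G).biUnion Mt) u).card : ℝ) +
      (nb E u).card + (nb F u).card = (nu u ∩ G).card + r := by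
    intro u
    have d1 : Disjoint ((H \ (E ∪ F)) \ (Finset.univ \ G).biUnion Mt) E := by
      rw [Finset.disjoint_left]
      intro p hp hp'
      exact (Finset.mem_sdiff.1 (Finset.mem_sdiff.1 hp).1).2 (Finset.mem_union_left _ hp')
    have d2 : Disjoint ((H \ (E ∪ F)) \ (Finset.univ \ G).biUnion Mt ∪ E) F := by
      rw [Finset.disjoint_left]
      intro p hp hp'
      rcases Finset.mem_union.1 hp with hp | hp
      · exact (Finset.mem_sdiff.1 (Finset.mem_sdiff.1 hp).1).2 (Finset.mem_union_right _ hp')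
      · exact (Finset.disjoint_left.1 hEF) hp hp'
    have h1 := hdeg u
    rw [nb_union, Finset.card_union_of_disjoint (nb_disj d2 u), nb_union,
      Finset.card_union_of_disjoint (nb_disj d1 u)] at h1
    exact_mod_cast h1
  have hG0 : (0 : ℝ) ≤ G.card := Nat.cast_nonneg _
  have hr0 : (0 : ℝ) ≤ r := Nat.cast_nonneg _
  have hnG : ∀ u, ((nu u ∩ G).card : ℝ) ≤ G.card := fun u =>
    Nat.cast_le.2 (Finset.card_le_card Finset.inter_subset_right)
  refine ⟨h.cU, hdeg, h.missG, h.hit, ?_, ?_, ?_, hF.dega⟩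
  · intro u
    have h1 := hEF0 u
    have h2 := (abs_le.1 (hE.deg u)).1
    have h3 := (abs_le.1 (hF.deg u)).1
    have h4 := hnG u
    norm_num at h2 h3 hrG ⊢
    linarith
  · intro u
    have h2 := (abs_le.1 (hE.deg u)).2
    norm_num at h2 hrG ⊢
    linarith
  · intro u
    have h3 := (abs_le.1 (hF.deg u)).2
    norm_num at h3 hrG ⊢
    linarith

theorem to_flush {U V X : Type} [Fintype U] [Fintype V] [Fintype X] (H E F : Finset (U × V))
    (nu : U → Finset X) (nv : V → Finset X) (P : ℕ) (aU : U → Fin P) (aV : V → Fin P)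
    (hub : Fin P → Finset X) (G : Finset X) (s r m : ℕ) (L : ℝ)
    (h : SInst H nu nv P aU aV hub G s r L (1 / 10 ^ 25)) (hE : ResE H E nu nv P aU aV G s r)
    (hF : ResF H F P aU aV G s r m) (Mt : X → Finset (U × V))
    (hMt : ∀ x, x ∉ G → Mt x ⊆ H \ (E ∪ F) ∧
      IsPM (Mt x) (wt (fun u => nu u \ hub (aU u)) x) (wt (fun v => nv v \ hub (aV v)) x))
    (hd : ∀ x y, x ∉ G → y ∉ G → x ≠ y → Disjoint (Mt x) (Mt y)) :
    FIn ((H \ (E ∪ F)) \ (Finset.univ \ G).biUnion Mt) E F nu nv P aU aV G s r m L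
      (1 / 10 ^ 25) := by
  have hEF : Disjoint E F := by
    rw [Finset.disjoint_left]
    intro p hp hp'
    exact hF.out p hp' (hE.inn p hp)
  have hP1 : (1 : ℝ) ≤ P := by
    have h1 := h.P1
    have h2 : (1 : ℝ) ≤ 10 ^ 60 := by norm_num
    linarith
  have hL0 : (0 : ℝ) ≤ L := by linarith [h.L1]
  have hrG : 10 ^ 10 * (r : ℝ) ≤ G.card := by
    have h1 := h.r2
    have h2 := h.G1
    have h3 : L ≤ P * L := by nlinarith
    have h4 : (10 : ℝ) ^ 60 * P * L = 10 ^ 60 * (P * L) := by ring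
    rw [h4] at h2
    norm_num at h1 h2 ⊢
    linarith
  have hs1 := flush_side H E F nu nv P aU aV hub G s r m h.s1 h.hubc h.hubG hrG hE.sub hF.sub hEF
    hE.s1 hF.s1 Mt hMt hd
  have hs2 := flush_side (tr H) (tr E) (tr F) nv nu P aV aU hub G s r m h.s2 h.hubc h.hubG hrG
    (tr_subset.2 hE.sub) (tr_subset.2 hF.sub) (by
      rw [Finset.disjoint_left] at hEF ⊢
      rintro ⟨v, u⟩ hp hp'
      exact hEF (mem_tr.1 hp) (mem_tr.1 hp')) hE.s2 hF.s2 (fun x => tr (Mt x))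
    (fun x hx => by
      refine ⟨?_, (hMt x hx).2.tr⟩
      rw [← tr_union, ← tr_sdiff]
      exact tr_subset.2 (hMt x hx).1)
    (fun x y hx hy hne => by
      have h1 := hd x y hx hy hne
      rw [Finset.disjoint_left] at h1 ⊢
      rintro ⟨v, u⟩ hp hp'
      exact h1 (mem_tr.1 hp) (mem_tr.1 hp'))
  rw [← tr_union, ← tr_biUnion, ← tr_sdiff, ← tr_sdiff] at hs2
  have hGk : (G.card : ℝ) ≤ Fintype.card X := Nat.cast_le.2 (Finset.card_le_univ G)
  exact {
    s1 := hs1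
    s2 := hs2
    dOE := by
      rw [Finset.disjoint_left]
      intro p hp hp'
      exact (Finset.mem_sdiff.1 (Finset.mem_sdiff.1 hp).1).2 (Finset.mem_union_left _ hp')
    dOF := by
      rw [Finset.disjoint_left]
      intro p hp hp'
      exact (Finset.mem_sdiff.1 (Finset.mem_sdiff.1 hp).1).2 (Finset.mem_union_right _ hp')
    dEF := hEF
    Ein := hE.inn
    Fout := hF.out
    Fm := hF.cnt
    m1 := hF.m1
    bal := fun x _ => h.bal x
    L1 := h.L1
    Gexp := hGk.trans h.kL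
    NL := h.NL
    eta := by norm_num
    rG := hrG
    P1 := h.P1
    G1 := h.G1
    s3 := h.s3 }

end Pool.Agent.Lib.TriS
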