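import Pool.Agent.Lib.TriS.ResE
import Pool.Agent.Lib.TriS.ResF
import Pool.Agent.Lib.TriS.Stage1
import Pool.Agent.Lib.TriS.ToFlush
import Pool.Agent.Lib.TriS.FlushT
import Pool.Agent.Lib.TriS.Stage2

/-!
MODULE Core (about 220 lines; two theorems). The survivors' instance is solvable.

PROOF of `core_glue` (pure bookkeeping). For a colour `x` put `Mx x = (if x ∈ G then cls K x else M1 x) ∪ ⋃_{a, x ∈ G ∪ hub a} N a x`.
`x ∈ G`: `wt nu x` is the disjoint union of `{u | x ∈ cu K u}` and of the sets `{u | aU u = a, x ∈ nu u, x ∉ cu K u}` over `a` (`cu K u ⊆ nu u`), the same on the other side; `cls K x` is a perfect matching between `{u | x ∈ cu K u}` and `{v | x ∈ cv K v}`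
(`pr1`, `pr2`). `x ∈ hub a`, `x ∉ G`: only the part `a` contributes (`hubd`), `wt nu x = wt nu' x ∪ {u | aU u = a, x ∈ nu u, x ∉ cu K u}` (`hubn`: all `u` of part `a` have `x ∈ nu u`; `cu K u ⊆ G`), disjoint. Otherwise `wt nu x = wt nu' x`, `Mx x = M1 x`.
The `N a x ⊆ E` join only vertices of part `a` (`IsPM.sub`). Disjointness for `x ≠ y`: `M1 x ⊆ H \ (E ∪ F)`, `cls K x ⊆ O ∪ F`, `N a x ⊆ E`, `O` disjoint from all `M1 y` and from `E`, `F`; `cls K x`, `cls K y` disjoint by `fn`; `N a x`, `N b y` disjoint: `a = b` by hypothesis, `a ≠ b` since the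
vertices differ.
PROOF of `core`: `resE`, `resF`, `stage1`, `to_flush`, `flush`, then for every `a` `stage2_pt`, `stage2` (choice), and `core_glue`.
-/

set_option autoImplicit false

open scoped Classical

noncomputable section

namespace Pool.Agent.Lib.TriS

theorem core_glue {U V X : Type} [Fintype U] [Fintype V] [Fintype X] (H O E F : Finset (U × V))
    (nu : U → Finset X) (nv : V → Finset X) (P : ℕ) (aU : U → Fin P) (aV : V → Fin P)
    (hub : Fin P → Finset X) (G : Finset X) (K : Finset ((U × V) × X)) (M1 : X → Finset (U × V))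
    (N : Fin P → X → Finset (U × V)) (hEH : E ⊆ H) (hFH : F ⊆ H)
    (hO : O = (H \ (E ∪ F)) \ (Finset.univ \ G).biUnion M1)
    (hEF : Disjoint E F)
    (hubd : ∀ a b, a ≠ b → Disjoint (hub a) (hub b)) (hubG : ∀ a, Disjoint (hub a) G)
    (hubn : ∀ u, hub (aU u) ⊆ nu u) (hubn' : ∀ v, hub (aV v) ⊆ nv v)
    (hM1 : ∀ x, x ∉ G → M1 x ⊆ H \ (E ∪ F) ∧
      IsPM (M1 x) (wt (fun u => nu u \ hub (aU u)) x) (wt (fun v => nv v \ hub (aV v)) x))
    (hd1 : ∀ x y, x ∉ G → y ∉ G → x ≠ y → Disjoint (M1 x) (M1 y))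
    (hK : PCol K nu nv G) (hdom : dom K = O ∪ F)
    (hN : ∀ a, ∀ x ∈ G ∪ hub a, N a x ⊆ E ∧
      IsPM (N a x) (Finset.univ.filter fun u => aU u = a ∧ x ∈ nu u ∧ x ∉ cu K u)
        (Finset.univ.filter fun v => aV v = a ∧ x ∈ nv v ∧ x ∉ cv K v))
    (hd2 : ∀ a, ∀ x ∈ G ∪ hub a, ∀ y ∈ G ∪ hub a, x ≠ y → Disjoint (N a x) (N a y)) :
    ∃ Mx : X → Finset (U × V), (∀ x, Mx x ⊆ H ∧ IsPM (Mx x) (wt nu x) (wt nv x)) ∧
      ∀ x y, x ≠ y → Disjoint (Mx x) (Mx y) := by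
  set Mx : X → Finset (U × V) := fun x => Finset.univ.filter fun p =>
    (p, x) ∈ K ∨ (x ∉ G ∧ p ∈ M1 x) ∨ ∃ a, x ∈ G ∪ hub a ∧ p ∈ N a x with hMx
  have mem : ∀ x p, p ∈ Mx x ↔ ((p, x) ∈ K ∨ (x ∉ G ∧ p ∈ M1 x) ∨
      ∃ a, x ∈ G ∪ hub a ∧ p ∈ N a x) := by
    intro x p
    rw [hMx]
    simp
  have hOF : ∀ p x, (p, x) ∈ K → p ∈ O ∨ p ∈ F := by
    intro p x hp
    have : p ∈ dom K := mem_dom.2 ⟨x, hp⟩
    rw [hdom, Finset.mem_union] at this
    exact this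
  have hOm : ∀ p, p ∈ O ↔ (p ∈ H ∧ p ∉ E ∧ p ∉ F) ∧ ∀ x, x ∉ G → p ∉ M1 x := by
    intro p
    rw [hO]
    simp only [Finset.mem_sdiff, Finset.mem_union, not_or, Finset.mem_biUnion, Finset.mem_univ,
      true_and, not_exists, not_and]
  have hEF' : ∀ p, p ∈ E → p ∉ F := fun p h1 h2 => Finset.disjoint_left.1 hEF h1 h2
  have hM1' : ∀ x p, x ∉ G → p ∈ M1 x → (p ∈ H ∧ p ∉ E ∧ p ∉ F) ∧
      (x ∈ nu p.1 ∧ x ∉ hub (aU p.1)) ∧ (x ∈ nv p.2 ∧ x ∉ hub (aV p.2)) := by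
    intro x p hx hp
    have h1 := (hM1 x hx).1 hp
    have h2 := (hM1 x hx).2.sub p hp
    simp only [Finset.mem_sdiff, Finset.mem_union, not_or, mem_wt] at h1 h2
    exact ⟨h1, h2⟩
  have hN' : ∀ a x p, x ∈ G ∪ hub a → p ∈ N a x → p ∈ E ∧
      (aU p.1 = a ∧ x ∈ nu p.1 ∧ x ∉ cu K p.1) ∧ (aV p.2 = a ∧ x ∈ nv p.2 ∧ x ∉ cv K p.2) := by
    intro a x p hx hp
    have h1 := (hN a x hx).1 hp
    have h2 := (hN a x hx).2.sub p hp
    simp only [Finset.mem_filter, Finset.mem_univ, true_and] at h2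
    exact ⟨h1, h2⟩
  have hcu : ∀ u v x, ((u, v), x) ∈ K → x ∈ cu K u := fun u v x h => mem_cu.2 ⟨v, h⟩
  have hcv : ∀ u v x, ((u, v), x) ∈ K → x ∈ cv K v := fun u v x h => mem_cv.2 ⟨u, h⟩
  have hcuG : ∀ u x, x ∈ cu K u → x ∈ G := by
    intro u x hx
    obtain ⟨v, hv⟩ := mem_cu.1 hx
    exact (hK.col _ _ hv).1
  have hcvG : ∀ v x, x ∈ cv K v → x ∈ G := by
    intro v x hx
    obtain ⟨u, hu⟩ := mem_cv.1 hx
    exact (hK.col _ _ hu).1
  refine ⟨Mx, fun x => ⟨?_, ?_, ?_, ?_, ?_, ?_⟩, ?_⟩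
  · intro p hp
    rcases (mem x p).1 hp with h | ⟨h1, h2⟩ | ⟨a, h1, h2⟩
    · rcases hOF p x h with h | h
      · exact ((hOm p).1 h).1.1
      · exact hFH h
    · exact (hM1' x p h1 h2).1.1
    · exact hEH (hN' a x p h1 h2).1
  · intro p hp
    rw [mem_wt, mem_wt]
    rcases (mem x p).1 hp with h | ⟨h1, h2⟩ | ⟨a, h1, h2⟩
    · exact (hK.col p x h).2
    · exact ⟨(hM1' x p h1 h2).2.1.1, (hM1' x p h1 h2).2.2.1⟩
    · exact ⟨(hN' a x p h1 h2).2.1.2.1, (hN' a x p h1 h2).2.2.2.1⟩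
  · intro u hu
    rw [mem_wt] at hu
    by_cases hc : x ∈ cu K u
    · obtain ⟨v, hv⟩ := mem_cu.1 hc
      exact ⟨v, (mem x _).2 (Or.inl hv)⟩
    · by_cases hx : x ∈ G ∪ hub (aU u)
      · obtain ⟨v, hv⟩ := (hN (aU u) x hx).2.ex1 u (by simp [hu, hc])
        exact ⟨v, (mem x _).2 (Or.inr (Or.inr ⟨aU u, hx, hv⟩))⟩
      · rw [Finset.mem_union, not_or] at hx
        obtain ⟨v, hv⟩ := (hM1 x hx.1).2.ex1 u (by rw [mem_wt, Finset.mem_sdiff]; exact ⟨hu, hx.2⟩)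
        exact ⟨v, (mem x _).2 (Or.inr (Or.inl ⟨hx.1, hv⟩))⟩
  · intro v hv
    rw [mem_wt] at hv
    by_cases hc : x ∈ cv K v
    · obtain ⟨u, hu⟩ := mem_cv.1 hc
      exact ⟨u, (mem x _).2 (Or.inl hu)⟩
    · by_cases hx : x ∈ G ∪ hub (aV v)
      · obtain ⟨u, hu⟩ := (hN (aV v) x hx).2.ex2 v (by simp [hv, hc])
        exact ⟨u, (mem x _).2 (Or.inr (Or.inr ⟨aV v, hx, hu⟩))⟩
      · rw [Finset.mem_union, not_or] at hx
        obtain ⟨u, hu⟩ := (hM1 x hx.1).2.ex2 v (by rw [mem_wt, Finset.mem_sdiff]; exact ⟨hv, hx.2⟩)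
        exact ⟨u, (mem x _).2 (Or.inr (Or.inl ⟨hx.1, hu⟩))⟩
  · intro u v v' hv hv'
    rcases (mem x _).1 hv with h | ⟨h1, h2⟩ | ⟨a, h1, h2⟩ <;>
      rcases (mem x _).1 hv' with h' | ⟨h1', h2'⟩ | ⟨a', h1', h2'⟩
    · exact hK.pr1 u v v' x h h'
    · exact absurd (hK.col _ _ h).1 h1'
    · exact absurd (hcu u v x h) (hN' a' x _ h1' h2').2.1.2.2
    · exact absurd (hK.col _ _ h').1 h1
    · exact (hM1 x h1).2.un1 u v v' h2 h2'
    · have h3 := (hM1' x _ h1 h2).2.1.2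
      have h4 := (hN' a' x _ h1' h2').2.1.1
      simp only at h3 h4
      rw [Finset.mem_union, ← h4] at h1'
      exact absurd (h1'.resolve_left h1) h3
    · exact absurd (hcu u v' x h') (hN' a x _ h1 h2).2.1.2.2
    · have h3 := (hM1' x _ h1' h2').2.1.2
      have h4 := (hN' a x _ h1 h2).2.1.1
      simp only at h3 h4
      rw [Finset.mem_union, ← h4] at h1
      exact absurd (h1.resolve_left h1') h3
    · have h3 := (hN' a x _ h1 h2).2.1.1
      have h4 := (hN' a' x _ h1' h2').2.1.1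
      simp only at h3 h4
      have h5 : a' = a := by rw [← h4, ← h3]
      subst h5
      exact (hN _ x h1).2.un1 u v v' h2 h2'
  · intro u u' v hu hu'
    rcases (mem x _).1 hu with h | ⟨h1, h2⟩ | ⟨a, h1, h2⟩ <;>
      rcases (mem x _).1 hu' with h' | ⟨h1', h2'⟩ | ⟨a', h1', h2'⟩
    · exact hK.pr2 u u' v x h h'
    · exact absurd (hK.col _ _ h).1 h1'
    · exact absurd (hcv u v x h) (hN' a' x _ h1' h2').2.2.2.2
    · exact absurd (hK.col _ _ h').1 h1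
    · exact (hM1 x h1).2.un2 u u' v h2 h2'
    · have h3 := (hM1' x _ h1 h2).2.2.2
      have h4 := (hN' a' x _ h1' h2').2.2.1
      simp only at h3 h4
      rw [Finset.mem_union, ← h4] at h1'
      exact absurd (h1'.resolve_left h1) h3
    · exact absurd (hcv u' v x h') (hN' a x _ h1 h2).2.2.2.2
    · have h3 := (hM1' x _ h1' h2').2.2.2
      have h4 := (hN' a x _ h1 h2).2.2.1
      simp only at h3 h4
      rw [Finset.mem_union, ← h4] at h1
      exact absurd (h1.resolve_left h1') h3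
    · have h3 := (hN' a x _ h1 h2).2.2.1
      have h4 := (hN' a' x _ h1' h2').2.2.1
      simp only at h3 h4
      have h5 : a' = a := by rw [← h4, ← h3]
      subst h5
      exact (hN _ x h1).2.un2 u u' v h2 h2'
  · intro x y hxy
    have key : ∀ p x y, x ≠ y → p ∈ Mx x → p ∈ Mx y → (p, x) ∈ K → False := by
      intro p x y hxy hx hy h
      rcases (mem y p).1 hy with h' | ⟨h1', h2'⟩ | ⟨a', h1', h2'⟩
      · exact hxy (hK.fn p x y h h')
      · rcases hOF p x h with h3 | h3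
        · exact ((hOm p).1 h3).2 y h1' h2'
        · exact (hM1' y p h1' h2').1.2.2 h3
      · have h4 := (hN' a' y p h1' h2').1
        rcases hOF p x h with h3 | h3
        · exact ((hOm p).1 h3).1.2.1 h4
        · exact hEF' p h4 h3
    rw [Finset.disjoint_left]
    intro p hx hy
    rcases (mem x p).1 hx with h | ⟨h1, h2⟩ | ⟨a, h1, h2⟩
    · exact key p x y hxy hx hy h
    · rcases (mem y p).1 hy with h' | ⟨h1', h2'⟩ | ⟨a', h1', h2'⟩
      · exact key p y x (Ne.symm hxy) hy hx h'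
      · exact Finset.disjoint_left.1 (hd1 x y h1 h1' hxy) h2 h2'
      · exact (hM1' x p h1 h2).1.2.1 (hN' a' y p h1' h2').1
    · rcases (mem y p).1 hy with h' | ⟨h1', h2'⟩ | ⟨a', h1', h2'⟩
      · exact key p y x (Ne.symm hxy) hy hx h'
      · exact (hM1' y p h1' h2').1.2.1 (hN' a x p h1 h2).1
      · have h3 := (hN' a x _ h1 h2).2.1.1
        have h4 := (hN' a' y _ h1' h2').2.1.1
        have h5 : a' = a := by rw [← h4, ← h3]
        subst h5
        exact Finset.disjoint_left.1 (hd2 _ x h1 y h1' hxy) h2 h2'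

theorem core {U V X : Type} [Fintype U] [Fintype V] [Fintype X] (H : Finset (U × V))
    (nu : U → Finset X) (nv : V → Finset X) (P : ℕ) (aU : U → Fin P) (aV : V → Fin P)
    (hub : Fin P → Finset X) (G : Finset X) (s r : ℕ) (L : ℝ)
    (h : SInst H nu nv P aU aV hub G s r L (1 / 10 ^ 25)) :
    ∃ Mx : X → Finset (U × V), (∀ x, Mx x ⊆ H ∧ IsPM (Mx x) (wt nu x) (wt nv x)) ∧
      ∀ x y, x ≠ y → Disjoint (Mx x) (Mx y) := by
  obtain ⟨E, hE⟩ := resE H nu nv P aU aV hub G s r L h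
  obtain ⟨F, m, hF⟩ := resF H nu nv P aU aV hub G s r L h
  obtain ⟨M1, hM1, hd1⟩ := stage1 H E F nu nv P aU aV hub G s r m L h hE hF
  have hf := to_flush H E F nu nv P aU aV hub G s r m L h hE hF M1 hM1 hd1
  obtain ⟨K, hK, hdom, hbal, hb1, hb2⟩ := flush _ E F nu nv P aU aV G s r m L _ hf
  have hS : S2In H ((H \ (E ∪ F)) \ (Finset.univ \ G).biUnion M1)
      E F nu nv P aU aV hub G s r m L K := ⟨h, hE, hf, hK, hdom, hbal, hb1, hb2⟩
  have hst : ∀ a, ∃ Nt : X → Finset (U × V), (∀ x ∈ G ∪ hub a, Nt x ⊆ E ∧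
      IsPM (Nt x) (Finset.univ.filter fun u => aU u = a ∧ x ∈ nu u ∧ x ∉ cu K u)
        (Finset.univ.filter fun v => aV v = a ∧ x ∈ nv v ∧ x ∉ cv K v)) ∧
      ∀ x ∈ G ∪ hub a, ∀ y ∈ G ∪ hub a, x ≠ y → Disjoint (Nt x) (Nt y) := by
    intro a
    obtain ⟨Mt, hMt, hd⟩ := stage2_pt H _ E F nu nv P aU aV hub G s r m L K hS a
    exact stage2 H _ E F nu nv P aU aV hub G s r m L K hS a Mt hMt hd
  choose N hN hd2 using hst
  exact core_glue H _ E F nu nv P aU aV hub G K M1 N hE.sub hF.sub rfl hf.dEF h.hubd h.hubG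
    h.s1.hubn h.s2.hubn hM1 hd1 hK hdom hN hd2

end Pool.Agent.Lib.TriS
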