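import Pool.Agent.Lib.TriS.Defs

/-!
MODULE DPM (about 140 lines). Tool T5: disjoint perfect matchings in a bipartite graph of large minimum degree.

PROOF. `pm_of_min_degree`: Hall (`Finset.all_card_le_biUnion_card_iff_exists_injective` on the subtype of `S`): let `S' ⊆ S` nonempty, `N` its neighbourhood. `|N| ≥ f/2`
(any `u ∈ S'`), so if `|S'| ≤ f/2` fine; if `2|S'| > f` then every `v ∈ T` has a neighbour in `S'` (its degree is `≥ f/2`, `|S \ S'| < f/2`), so `N = T` and `|T| = |S| ≥ |S'|`.
The injection `S → T` is onto since `|S| = |T|`.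
`dpm`: by induction on `j ≤ m`, `4 (m-1) < f`... : there are `j` disjoint perfect matchings `M_0..M_{j-1}`; after removing `j < m` of them every degree is at least
`(7/8) f - j ≥ f/2` (`8 deg ≥ 7 f`, `4 j < f`), as a perfect matching lowers every degree by exactly one.
-/

set_option autoImplicit false

open scoped Classical

noncomputable section

namespace Pool.Agent.Lib.TriS

private theorem dpm_hall {U V : Type} [Fintype U] [Fintype V] (H : Finset (U × V)) (S : Finset U)
    (T : Finset V) (hcard : S.card = T.card)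
    (hH : ∀ p ∈ H, p.1 ∈ S ∧ p.2 ∈ T)
    (h1 : ∀ u ∈ S, S.card ≤ 2 * (nb H u).card) (h2 : ∀ v ∈ T, S.card ≤ 2 * (nb (tr H) v).card)
    (s : Finset {u : U // u ∈ S}) :
    s.card ≤ (s.biUnion fun u => nb H u.1).card := by
  rcases s.eq_empty_or_nonempty with rfl | ⟨u, hu⟩
  · simp
  by_cases hs : 2 * s.card ≤ S.card
  · have e1 : (nb H u.1).card ≤ (s.biUnion fun u => nb H u.1).card :=
      Finset.card_le_card (Finset.subset_biUnion_of_mem (fun u : {u : U // u ∈ S} => nb H u.1) hu)
    have e2 := h1 u.1 u.2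
    omega
  · push Not at hs
    have hsub : T ⊆ s.biUnion fun u => nb H u.1 := by
      intro v hv
      by_contra hc
      have e3 : nb (tr H) v ⊆ S \ s.map ⟨Subtype.val, Subtype.val_injective⟩ := by
        intro x hx
        rw [mem_nb, mem_tr] at hx
        rw [Finset.mem_sdiff]
        refine ⟨(hH _ hx).1, fun hxs => hc ?_⟩
        rw [Finset.mem_map] at hxs
        obtain ⟨y, hy, rfl⟩ := hxs
        exact Finset.mem_biUnion.2 ⟨y, hy, mem_nb.2 hx⟩
      have e4 := Finset.card_le_card e3
      have e5 : s.map ⟨Subtype.val, Subtype.val_injective⟩ ⊆ S := by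
        intro x hx
        rw [Finset.mem_map] at hx
        obtain ⟨y, _, rfl⟩ := hx
        exact y.2
      rw [Finset.card_sdiff_of_subset e5, Finset.card_map] at e4
      have e6 := h2 v hv
      have e7 := Finset.card_le_card e5
      rw [Finset.card_map] at e7
      omega
    have e8 := Finset.card_le_card hsub
    have e9 : s.card ≤ S.card := by
      have := s.card_le_univ
      rwa [Fintype.card_coe] at this
    omega

theorem pm_of_min_degree {U V : Type} [Fintype U] [Fintype V] (H : Finset (U × V)) (S : Finset U)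
    (T : Finset V) (hcard : S.card = T.card) (hH : ∀ p ∈ H, p.1 ∈ S ∧ p.2 ∈ T)
    (h1 : ∀ u ∈ S, S.card ≤ 2 * (nb H u).card) (h2 : ∀ v ∈ T, S.card ≤ 2 * (nb (tr H) v).card) :
    ∃ M ⊆ H, IsPM M S T := by
  obtain ⟨g, hg, hgn⟩ := (Finset.all_card_le_biUnion_card_iff_exists_injective
    (fun u : {u : U // u ∈ S} => nb H u.1)).1 (dpm_hall H S T hcard hH h1 h2)
  have himg : Finset.univ.image g = T := by
    refine Finset.eq_of_subset_of_card_le ?_ ?_
    · intro v hv
      obtain ⟨u, _, rfl⟩ := Finset.mem_image.1 hv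
      exact (hH _ (mem_nb.1 (hgn u))).2
    · rw [Finset.card_image_of_injective _ hg, Finset.card_univ, Fintype.card_coe, hcard]
  refine ⟨Finset.univ.image fun u : {u : U // u ∈ S} => (u.1, g u), ?_, ?_⟩
  · intro p hp
    obtain ⟨u, _, rfl⟩ := Finset.mem_image.1 hp
    exact mem_nb.1 (hgn u)
  · constructor
    · intro p hp
      obtain ⟨u, _, rfl⟩ := Finset.mem_image.1 hp
      exact hH _ (mem_nb.1 (hgn u))
    · intro u hu
      exact ⟨g ⟨u, hu⟩, Finset.mem_image.2 ⟨⟨u, hu⟩, Finset.mem_univ _, rfl⟩⟩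
    · intro v hv
      rw [← himg] at hv
      obtain ⟨u, _, rfl⟩ := Finset.mem_image.1 hv
      exact ⟨u.1, Finset.mem_image.2 ⟨u, Finset.mem_univ _, rfl⟩⟩
    · intro u v v' h h'
      obtain ⟨x, _, hx⟩ := Finset.mem_image.1 h
      obtain ⟨x', _, hx'⟩ := Finset.mem_image.1 h'
      rw [Prod.mk.injEq] at hx hx'
      have e : x = x' := Subtype.ext (hx.1.trans hx'.1.symm)
      rw [← hx.2, ← hx'.2, e]
    · intro u u' v h h'
      obtain ⟨x, _, hx⟩ := Finset.mem_image.1 h
      obtain ⟨x', _, hx'⟩ := Finset.mem_image.1 h'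
      rw [Prod.mk.injEq] at hx hx'
      have e : x = x' := hg (hx.2.trans hx'.2.symm)
      rw [← hx.1, ← hx'.1, e]

private theorem dpm_deg {U V : Type} [Fintype U] [Fintype V] (H : Finset (U × V)) (S : Finset U)
    (T : Finset V) (M : ℕ → Finset (U × V)) (j : ℕ) (hM : ∀ i < j, IsPM (M i) S T) (u : U) :
    (nb H u).card ≤ (nb (H \ (Finset.range j).biUnion M) u).card + j := by
  have e1 : nb H u ⊆ nb (H \ (Finset.range j).biUnion M) u ∪
      (Finset.range j).biUnion fun i => nb (M i) u := by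
    intro v hv
    rw [mem_nb] at hv
    by_cases h : (u, v) ∈ (Finset.range j).biUnion M
    · obtain ⟨i, hi, hp⟩ := Finset.mem_biUnion.1 h
      exact Finset.mem_union_right _ (Finset.mem_biUnion.2 ⟨i, hi, mem_nb.2 hp⟩)
    · exact Finset.mem_union_left _ (mem_nb.2 (Finset.mem_sdiff.2 ⟨hv, h⟩))
  refine (Finset.card_le_card e1).trans ((Finset.card_union_le _ _).trans ?_)
  refine Nat.add_le_add_left ?_ _
  refine Finset.card_biUnion_le.trans ?_
  have e2 : ∑ i ∈ Finset.range j, (nb (M i) u).card ≤ ∑ i ∈ Finset.range j, 1 := by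
    refine Finset.sum_le_sum fun i hi => ?_
    rw [(hM i (Finset.mem_range.1 hi)).nb_card u]
    split_ifs <;> omega
  simpa using e2

private theorem dpm_aux {U V : Type} [Fintype U] [Fintype V] (H : Finset (U × V)) (S : Finset U)
    (T : Finset V) (hcard : S.card = T.card) (hH : ∀ p ∈ H, p.1 ∈ S ∧ p.2 ∈ T)
    (h1 : ∀ u ∈ S, 7 * S.card ≤ 8 * (nb H u).card)
    (h2 : ∀ v ∈ T, 7 * S.card ≤ 8 * (nb (tr H) v).card) (j : ℕ) (hj : 4 * j < S.card + 4) :
    ∃ M : ℕ → Finset (U × V), (∀ i < j, M i ⊆ H ∧ IsPM (M i) S T) ∧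
      ∀ i < j, ∀ i' < j, i ≠ i' → Disjoint (M i) (M i') := by
  induction j with
  | zero => exact ⟨fun _ => ∅, fun i hi => absurd hi (Nat.not_lt_zero i),
      fun i hi => absurd hi (Nat.not_lt_zero i)⟩
  | succ j ih =>
    obtain ⟨M, hM, hd⟩ := ih (by omega)
    obtain ⟨K, hK, hKP⟩ := pm_of_min_degree (H \ (Finset.range j).biUnion M) S T hcard
      (fun p hp => hH p (Finset.mem_sdiff.1 hp).1)
      (fun u hu => by
        have e1 := dpm_deg H S T M j (fun i hi => (hM i hi).2) u
        have e2 := h1 u hu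
        omega)
      (fun v hv => by
        have e1 := dpm_deg (tr H) T S (fun i => tr (M i)) j (fun i hi => (hM i hi).2.tr) v
        have e2 := h2 v hv
        rw [tr_sdiff, tr_biUnion]
        omega)
    have hdis : ∀ i < j, Disjoint (M i) K := by
      intro i hi
      rw [Finset.disjoint_left]
      intro p hp hpK
      exact (Finset.mem_sdiff.1 (hK hpK)).2 (Finset.mem_biUnion.2 ⟨i, Finset.mem_range.2 hi, hp⟩)
    refine ⟨fun i => if i < j then M i else K, ?_, ?_⟩
    · intro i hi
      by_cases h : i < j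
      · simp only [h, if_true]
        exact hM i h
      · simp only [h, if_false]
        exact ⟨fun p hp => (Finset.mem_sdiff.1 (hK hp)).1, hKP⟩
    · intro i hi i' hi' hne
      by_cases h : i < j
      · by_cases h' : i' < j
        · simp only [h, h', if_true]
          exact hd i h i' h' hne
        · simp only [h, h', if_true, if_false]
          exact hdis i h
      · by_cases h' : i' < j
        · simp only [h, h', if_true, if_false]
          exact (hdis i' h').symm
        · omega

theorem dpm {U V : Type} [Fintype U] [Fintype V] (H : Finset (U × V)) (S : Finset U)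
    (T : Finset V) (hcard : S.card = T.card) (hH : ∀ p ∈ H, p.1 ∈ S ∧ p.2 ∈ T)
    (h1 : ∀ u ∈ S, 7 * S.card ≤ 8 * (nb H u).card)
    (h2 : ∀ v ∈ T, 7 * S.card ≤ 8 * (nb (tr H) v).card) :
    ∃ (m : ℕ) (M : Fin m → Finset (U × V)), S.card ≤ 4 * m ∧ (S.card ≠ 0 → 0 < m) ∧
      (∀ i, M i ⊆ H ∧ IsPM (M i) S T) ∧ ∀ i j, i ≠ j → Disjoint (M i) (M j) := by
  obtain ⟨M, hM, hd⟩ := dpm_aux H S T hcard hH h1 h2 ((S.card + 3) / 4) (by omega)
  refine ⟨(S.card + 3) / 4, fun i => M i.1, by omega, by omega, fun i => hM i.1 i.2, ?_⟩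
  intro i j hij
  exact hd i.1 i.2 j.1 j.2 fun h => hij (Fin.ext h)

end Pool.Agent.Lib.TriS
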