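import Mathlib

/-!
# Triple arrays for all large sparse symmetric designs (MP_6fba53_co): definitions
Paper: /team-store/MP_6fba53_all_paper.md

Bipartite graphs between finite types `U`, `V` are `Finset (U × V)`; `nb H u` = neighbours of `u : U`, `tr H` the transposed
graph (so `nb (tr H) v` = neighbours of `v : V`), `eb H S T` = number of edges between `S` and `T`, `IsPM M S T`: `M` is a
perfect matching between `S` and `T`, `wt nu x` = the vertices that need the colour `x`.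
-/

set_option autoImplicit false

open scoped Classical

noncomputable section

namespace Pool.Agent.Lib.TriS

/-- neighbours of a vertex of the first side -/
def nb {U V : Type} [Fintype V] (H : Finset (U × V)) (u : U) : Finset V :=
  Finset.univ.filter fun v => (u, v) ∈ H

/-- transposed graph -/
def tr {U V : Type} (H : Finset (U × V)) : Finset (V × U) :=
  H.map (Equiv.prodComm U V).toEmbedding

/-- number of edges between two sets -/
def eb {U V : Type} (H : Finset (U × V)) (S : Finset U) (T : Finset V) : ℕ :=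
  (H.filter fun p => p.1 ∈ S ∧ p.2 ∈ T).card

/-- `M` is a perfect matching between `S` and `T`. -/
structure IsPM {U V : Type} (M : Finset (U × V)) (S : Finset U) (T : Finset V) : Prop where
  sub : ∀ p ∈ M, p.1 ∈ S ∧ p.2 ∈ T
  ex1 : ∀ u ∈ S, ∃ v, (u, v) ∈ M
  ex2 : ∀ v ∈ T, ∃ u, (u, v) ∈ M
  un1 : ∀ u v v', (u, v) ∈ M → (u, v') ∈ M → v = v'
  un2 : ∀ u u' v, (u, v) ∈ M → (u', v) ∈ M → u = u'

/-- vertices whose list contains `x` -/
def wt {U X : Type} [Fintype U] (nu : U → Finset X) (x : X) : Finset U :=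
  Finset.univ.filter fun u => x ∈ nu u

/-- upper mixing: `e(S,T) ≤ d (a |S||T|/N + b max(|S|,|T|))` -/
def Mix {U V : Type} (H : Finset (U × V)) (d a b N : ℝ) : Prop :=
  ∀ (S : Finset U) (T : Finset V),
    (eb H S T : ℝ) ≤ d * (a * ((S.card : ℝ) * T.card / N) + b * max (S.card : ℝ) T.card)

/-- One side of the hypotheses of the process theorem: `H` graph, `P` protected part, `nu`, `nv` needs of the two sides,
`C` colours, `Ce` colours kept for later. -/
structure PSide {U V X : Type} [Fintype V] (H P : Finset (U × V)) (nu : U → Finset X)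
    (nv : V → Finset X) (C Ce : Finset X) (ρ : ℕ) (de ε : ℝ) : Prop where
  sub : ∀ u, nu u ⊆ C
  deg : ∀ u, (nb H u).card = (nu u).card + ρ
  miss : ∀ u, ((C \ nu u).card : ℝ) ≤ ε * (C.card + ρ)
  misse : ∀ u, ((Ce \ nu u).card : ℝ) ≤ ε * (Ce.card + ρ)
  bad : ∀ u, ∀ x ∈ C, (((nb H u).filter fun v => x ∉ nv v).card : ℝ) ≤ ε * (C.card + ρ)
  degP : ∀ u, |((nb P u).card : ℝ) - de| ≤ ε * (Ce.card + ρ)

/-- One side of the hypotheses of the block lemma (`η = 1/10^7`, `u* = 1/10^5`). -/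
structure BSide {U V X : Type} [Fintype V] (O P R : Finset (U × V)) (nu : U → Finset X)
    (nv : V → Finset X) (C Q : Finset X) (ρ : ℕ) (dP o s : ℝ) : Prop where
  deg : ∀ u, (nb (O ∪ P) u).card = (nu u ∩ C).card + ρ
  miss : ∀ u, ((C \ nu u).card : ℝ) ≤ 1 / 10 ^ 7 * o
  degP : ∀ u, |((nb P u).card : ℝ) - dP| ≤ 1 / 10 ^ 7 * o
  degR : ∀ u, |((nb R u).card : ℝ) - s / 8| ≤ 1 / 10 ^ 7 * s
  badR : ∀ u, ∀ x ∈ C, (((nb R u).filter fun v => x ∉ nv v).card : ℝ) ≤ 1 / 10 ^ 7 * s
  missQ : ∀ u, ((Q \ nu u).card : ℝ) ≤ 1 / 10 ^ 7 * s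
  badO : ∀ u, ∀ x ∈ C, (((nb O u).filter fun v => x ∉ nv v).card : ℝ) ≤ 1 / 10 ^ 5 * o

section basic

variable {U V : Type}

theorem mem_nb [Fintype V] {H : Finset (U × V)} {u : U} {v : V} : v ∈ nb H u ↔ (u, v) ∈ H := by
  unfold nb
  simp

theorem mem_tr {H : Finset (U × V)} {u : U} {v : V} : (v, u) ∈ tr H ↔ (u, v) ∈ H := by
  unfold tr
  simp

theorem tr_tr (H : Finset (U × V)) : tr (tr H) = H := by
  ext ⟨u, v⟩
  rw [mem_tr, mem_tr]

theorem tr_union (H K : Finset (U × V)) : tr (H ∪ K) = tr H ∪ tr K := by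
  ext ⟨v, u⟩
  simp only [mem_tr, Finset.mem_union]

theorem tr_inter (H K : Finset (U × V)) : tr (H ∩ K) = tr H ∩ tr K := by
  ext ⟨v, u⟩
  simp only [mem_tr, Finset.mem_inter]

theorem tr_sdiff (H K : Finset (U × V)) : tr (H \ K) = tr H \ tr K := by
  ext ⟨v, u⟩
  simp only [mem_tr, Finset.mem_sdiff]

theorem tr_subset {H K : Finset (U × V)} : tr H ⊆ tr K ↔ H ⊆ K := by
  constructor
  · rintro h ⟨u, v⟩ hp
    exact mem_tr.1 (h (mem_tr.2 hp))
  · rintro h ⟨v, u⟩ hp
    exact mem_tr.2 (h (mem_tr.1 hp))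

theorem tr_biUnion {X : Type} (Q : Finset X) (M : X → Finset (U × V)) :
    tr (Q.biUnion M) = Q.biUnion fun x => tr (M x) := by
  ext ⟨v, u⟩
  simp only [mem_tr, Finset.mem_biUnion]

theorem nb_mono [Fintype V] {H K : Finset (U × V)} (h : H ⊆ K) (u : U) : nb H u ⊆ nb K u := by
  intro v hv
  exact mem_nb.2 (h (mem_nb.1 hv))

theorem nb_union [Fintype V] (H K : Finset (U × V)) (u : U) : nb (H ∪ K) u = nb H u ∪ nb K u := by
  ext v
  simp only [mem_nb, Finset.mem_union]

theorem nb_sdiff [Fintype V] (H K : Finset (U × V)) (u : U) : nb (H \ K) u = nb H u \ nb K u := by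
  ext v
  simp only [mem_nb, Finset.mem_sdiff]

theorem nb_disj [Fintype V] {H K : Finset (U × V)} (h : Disjoint H K) (u : U) :
    Disjoint (nb H u) (nb K u) := by
  rw [Finset.disjoint_left] at h ⊢
  intro v hv hv'
  exact h (mem_nb.1 hv) (mem_nb.1 hv')

theorem mem_wt {X : Type} [Fintype U] {nu : U → Finset X} {x : X} {u : U} :
    u ∈ wt nu x ↔ x ∈ nu u := by
  unfold wt
  simp

theorem eb_tr (H : Finset (U × V)) (S : Finset U) (T : Finset V) : eb (tr H) T S = eb H S T := by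
  unfold eb
  refine Finset.card_bij (fun p _ => (p.2, p.1)) ?_ ?_ ?_
  · rintro ⟨v, u⟩ hp
    simp only [Finset.mem_filter, mem_tr] at hp ⊢
    exact ⟨hp.1, hp.2.2, hp.2.1⟩
  · rintro ⟨v, u⟩ _ ⟨v', u'⟩ _ h
    simp only [Prod.mk.injEq] at h
    rw [h.1, h.2]
  · rintro ⟨u, v⟩ hp
    refine ⟨(v, u), ?_, rfl⟩
    simp only [Finset.mem_filter, mem_tr] at hp ⊢
    exact ⟨hp.1, hp.2.2, hp.2.1⟩

theorem IsPM.tr {M : Finset (U × V)} {S : Finset U} {T : Finset V} (h : IsPM M S T) :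
    IsPM (TriS.tr M) T S where
  sub := by
    rintro ⟨v, u⟩ hp
    have := h.sub _ (mem_tr.1 hp)
    exact ⟨this.2, this.1⟩
  ex1 v hv := by
    obtain ⟨u, hu⟩ := h.ex2 v hv
    exact ⟨u, mem_tr.2 hu⟩
  ex2 u hu := by
    obtain ⟨v, hv⟩ := h.ex1 u hu
    exact ⟨v, mem_tr.2 hv⟩
  un1 v u u' h1 h2 := h.un2 u u' v (mem_tr.1 h1) (mem_tr.1 h2)
  un2 v v' u h1 h2 := h.un1 u v v' (mem_tr.1 h1) (mem_tr.1 h2)

theorem Mix.tr {H : Finset (U × V)} {d a b N : ℝ} (h : Mix H d a b N) : Mix (TriS.tr H) d a b N := by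
  intro T S
  have := h S T
  rw [eb_tr, mul_comm (T.card : ℝ), max_comm]
  exact this

/-- sum of the degrees over a set -/
theorem eb_eq_sum [Fintype V] (H : Finset (U × V)) (S : Finset U) (T : Finset V) :
    eb H S T = ∑ u ∈ S, (nb H u ∩ T).card := by
  unfold eb
  rw [Finset.card_eq_sum_card_fiberwise (f := Prod.fst) (t := S)]
  · refine Finset.sum_congr rfl fun u hu => ?_
    refine Finset.card_bij (fun p _ => p.2) ?_ ?_ ?_
    · rintro ⟨u', v⟩ hp
      simp only [Finset.mem_filter] at hp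
      obtain ⟨⟨h1, h2, h3⟩, h4⟩ := hp
      simp only [Finset.mem_inter, mem_nb]
      subst h4
      exact ⟨h1, h3⟩
    · rintro ⟨u', v⟩ hp ⟨u'', v'⟩ hp' h
      simp only [Finset.mem_filter] at hp hp'
      simp only at h
      rw [hp.2, hp'.2, h]
    · intro v hv
      simp only [Finset.mem_inter, mem_nb] at hv
      refine ⟨(u, v), ?_, rfl⟩
      simp only [Finset.mem_filter]
      exact ⟨⟨hv.1, hu, hv.2⟩, trivial⟩
  · intro p hp
    exact (Finset.mem_filter.1 (Finset.mem_coe.1 hp)).2.1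

theorem IsPM.nb_card [Fintype V] {M : Finset (U × V)} {S : Finset U} {T : Finset V}
    (h : IsPM M S T) (u : U) : (nb M u).card = if u ∈ S then 1 else 0 := by
  split_ifs with hu
  · obtain ⟨v, hv⟩ := h.ex1 u hu
    rw [Finset.card_eq_one]
    refine ⟨v, ?_⟩
    ext v'
    rw [mem_nb, Finset.mem_singleton]
    exact ⟨fun h' => h.un1 u v' v h' hv, fun h' => h' ▸ hv⟩
  · rw [Finset.card_eq_zero, Finset.eq_empty_iff_forall_notMem]
    intro v hv
    exact hu (h.sub _ (mem_nb.1 hv)).1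

/-- degrees after the removal of a disjoint family of perfect matchings -/
theorem card_nb_family [Fintype U] [Fintype V] {X : Type} (H : Finset (U × V)) (nu : U → Finset X)
    (nv : V → Finset X) (Q : Finset X) (M : X → Finset (U × V))
    (hM : ∀ x ∈ Q, M x ⊆ H ∧ IsPM (M x) (wt nu x) (wt nv x))
    (hd : ∀ x ∈ Q, ∀ x' ∈ Q, x ≠ x' → Disjoint (M x) (M x')) (u : U) :
    (nb (H \ Q.biUnion M) u).card + (Q ∩ nu u).card = (nb H u).card := by
  have h1 : (nb (Q.biUnion M) u).card = (Q ∩ nu u).card := by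
    have e1 : nb (Q.biUnion M) u = Q.biUnion fun x => nb (M x) u := by
      ext v
      simp only [mem_nb, Finset.mem_biUnion]
    rw [e1, Finset.card_biUnion fun x hx x' hx' hne => nb_disj (hd x hx x' hx' hne) u]
    rw [Finset.sum_congr rfl fun x hx => (hM x hx).2.nb_card u, ← Finset.card_filter]
    congr 1
    ext x
    simp only [Finset.mem_filter, mem_wt, Finset.mem_inter]
  have h2 : nb (Q.biUnion M) u ⊆ nb H u := by
    refine nb_mono ?_ u
    intro p hp
    obtain ⟨x, hx, hp⟩ := Finset.mem_biUnion.1 hp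
    exact (hM x hx).1 hp
  rw [nb_sdiff, ← h1, Finset.card_sdiff_add_card_eq_card h2]

end basic

end Pool.Agent.Lib.TriS
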