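import Pool.Agent.Lib.TriS.Flush

/-!
Definitions for the flush (section 7), helper89.

`used K`: the pairs (vertex, colour) used by the partial colouring `K`. `TaskS`: the tasks of `D` have been done with the choices
`ch`. `admis`: admissible options of a task. `SU`, `SV`: the sets of vertices of the tests (neighbourhoods in `E`, parts). `TB`: all
tests are small. `gU`, `gV`: vertices of a part that still need `x`. `bet`: the imbalance. `trK`: transposed colouring.
-/

set_option autoImplicit false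

open scoped Classical

noncomputable section

namespace Pool.Agent.Lib.TriS

variable {U V X : Type}

/-- pairs (vertex, colour) used by a partial colouring -/
def used (K : Finset ((U × V) × X)) : Finset ((U ⊕ V) × X) :=
  (K.image fun q => ((Sum.inl q.1.1 : U ⊕ V), q.2)) ∪ K.image fun q => ((Sum.inr q.1.2 : U ⊕ V), q.2)

theorem mem_used_inl {K : Finset ((U × V) × X)} {u : U} {x : X} :
    ((Sum.inl u : U ⊕ V), x) ∈ used K ↔ x ∈ cu K u := by
  unfold used
  rw [mem_cu]
  simp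

theorem mem_used_inr {K : Finset ((U × V) × X)} {v : V} {x : X} :
    ((Sum.inr v : U ⊕ V), x) ∈ used K ↔ x ∈ cv K v := by
  unfold used
  rw [mem_cv]
  simp

/-- the tasks of `D` have been done with the choices `ch`, starting from the colouring `K0` -/
structure TaskS {τ : Type} (K0 : Finset ((U × V) × X)) (nu : U → Finset X) (nv : V → Finset X)
    (G : Finset X) (Opt : τ → Finset (Finset ((U × V) × X))) (D : Finset τ)
    (ch : τ → Finset ((U × V) × X)) : Prop where
  opt : ∀ k ∈ D, ch k ∈ Opt k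
  new0 : ∀ k ∈ D, Disjoint (dom (ch k)) (dom K0)
  new : ∀ k ∈ D, ∀ k' ∈ D, k ≠ k' → Disjoint (dom (ch k)) (dom (ch k'))
  col : PCol (K0 ∪ D.biUnion ch) nu nv G

/-- the admissible options: new flags, still a proper partial colouring -/
def admis (K : Finset ((U × V) × X)) (nu : U → Finset X) (nv : V → Finset X) (G : Finset X)
    (Op : Finset (Finset ((U × V) × X))) : Finset (Finset ((U × V) × X)) :=
  Op.filter fun Δ => Disjoint (dom Δ) (dom K) ∧ PCol (K ∪ Δ) nu nv G

/-- test sets in `U`: neighbourhoods in `E` of the `v`, parts -/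
def SU [Fintype U] {P : ℕ} (E : Finset (U × V)) (aU : U → Fin P) : V ⊕ Fin P → Finset U :=
  Sum.elim (fun v => nb (tr E) v) fun a => Finset.univ.filter fun u => aU u = a

/-- test sets in `V`: neighbourhoods in `E` of the `u`, parts -/
def SV [Fintype V] {P : ℕ} (E : Finset (U × V)) (aV : V → Fin P) : U ⊕ Fin P → Finset V :=
  Sum.elim (fun u => nb E u) fun a => Finset.univ.filter fun v => aV v = a

/-- all tests are small: every colour is used at most `2 κ |S| + 4 L` times on the test set `S` -/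
structure TB [Fintype U] [Fintype V] {P : ℕ} (E : Finset (U × V)) (aU : U → Fin P)
    (aV : V → Fin P) (G : Finset X) (K : Finset ((U × V) × X)) (κ L : ℝ) : Prop where
  u : ∀ (i : V ⊕ Fin P), ∀ x ∈ G,
    (((SU E aU i).filter fun u => x ∈ cu K u).card : ℝ) ≤ 2 * κ * (SU E aU i).card + 4 * L
  v : ∀ (i : U ⊕ Fin P), ∀ x ∈ G,
    (((SV E aV i).filter fun v => x ∈ cv K v).card : ℝ) ≤ 2 * κ * (SV E aV i).card + 4 * L

/-- vertices of the part `a` of `U` that need `x` and have not used it -/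
def gU [Fintype U] {P : ℕ} (nu : U → Finset X) (aU : U → Fin P) (K : Finset ((U × V) × X))
    (x : X) (a : Fin P) : Finset U := Finset.univ.filter fun u => aU u = a ∧ x ∈ nu u ∧ x ∉ cu K u

/-- vertices of the part `a` of `V` that need `x` and have not used it -/
def gV [Fintype V] {P : ℕ} (nv : V → Finset X) (aV : V → Fin P) (K : Finset ((U × V) × X))
    (x : X) (a : Fin P) : Finset V := Finset.univ.filter fun v => aV v = a ∧ x ∈ nv v ∧ x ∉ cv K v

/-- the imbalance of the colour `x` in the part `a` -/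
def bet [Fintype U] [Fintype V] {P : ℕ} (nu : U → Finset X) (nv : V → Finset X) (aU : U → Fin P)
    (aV : V → Fin P) (K : Finset ((U × V) × X)) (x : X) (a : Fin P) : ℤ :=
  ((gU nu aU K x a).card : ℤ) - (gV nv aV K x a).card

/-- transposed colouring -/
def trK (K : Finset ((U × V) × X)) : Finset ((V × U) × X) := K.image fun q => ((q.1.2, q.1.1), q.2)

theorem mem_trK {K : Finset ((U × V) × X)} {u : U} {v : V} {x : X} :
    ((v, u), x) ∈ trK K ↔ ((u, v), x) ∈ K := by
  unfold trK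
  simp only [Finset.mem_image, Prod.mk.injEq, Prod.exists]
  constructor
  · rintro ⟨a, b, y, h, ⟨rfl, rfl⟩, rfl⟩
    exact h
  · intro h
    exact ⟨u, v, x, h, ⟨rfl, rfl⟩, rfl⟩

theorem trK_trK (K : Finset ((U × V) × X)) : trK (trK K) = K := by
  ext ⟨⟨u, v⟩, x⟩
  rw [mem_trK, mem_trK]

theorem trK_union (K K' : Finset ((U × V) × X)) : trK (K ∪ K') = trK K ∪ trK K' := by
  unfold trK
  rw [Finset.image_union]

theorem cu_trK (K : Finset ((U × V) × X)) (v : V) : cu (trK K) v = cv K v := by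
  ext x
  rw [mem_cu, mem_cv]
  exact ⟨fun ⟨u, h⟩ => ⟨u, mem_trK.1 h⟩, fun ⟨u, h⟩ => ⟨u, mem_trK.2 h⟩⟩

theorem cv_trK (K : Finset ((U × V) × X)) (u : U) : cv (trK K) u = cu K u := by
  ext x
  rw [mem_cu, mem_cv]
  exact ⟨fun ⟨v, h⟩ => ⟨v, mem_trK.1 h⟩, fun ⟨v, h⟩ => ⟨v, mem_trK.2 h⟩⟩

theorem dom_trK (K : Finset ((U × V) × X)) : dom (trK K) = tr (dom K) := by
  ext ⟨v, u⟩
  rw [mem_dom, mem_tr, mem_dom]
  exact ⟨fun ⟨x, h⟩ => ⟨x, mem_trK.1 h⟩, fun ⟨x, h⟩ => ⟨x, mem_trK.2 h⟩⟩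

theorem cls_trK (K : Finset ((U × V) × X)) (x : X) : cls (trK K) x = tr (cls K x) := by
  ext ⟨v, u⟩
  rw [mem_cls, mem_tr, mem_cls, mem_trK]

theorem PCol.trK {K : Finset ((U × V) × X)} {nu : U → Finset X} {nv : V → Finset X}
    {G : Finset X} (h : PCol K nu nv G) : PCol (TriS.trK K) nv nu G where
  col := by
    rintro ⟨v, u⟩ x hx
    have := h.col _ _ (mem_trK.1 hx)
    exact ⟨this.1, this.2.2, this.2.1⟩
  fn := by
    rintro ⟨v, u⟩ x y h1 h2
    exact h.fn _ _ _ (mem_trK.1 h1) (mem_trK.1 h2)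
  pr1 v u u' x h1 h2 := h.pr2 _ _ _ _ (mem_trK.1 h1) (mem_trK.1 h2)
  pr2 v v' u x h1 h2 := h.pr1 _ _ _ _ (mem_trK.1 h1) (mem_trK.1 h2)

theorem FIn.tr [Fintype U] [Fintype V] {O E F : Finset (U × V)} {nu : U → Finset X}
    {nv : V → Finset X} {P : ℕ} {aU : U → Fin P} {aV : V → Fin P} {G : Finset X} {s r m : ℕ}
    {L η : ℝ} (h : FIn O E F nu nv P aU aV G s r m L η) :
    FIn (TriS.tr O) (TriS.tr E) (TriS.tr F) nv nu P aV aU G s r m L η where
  s1 := h.s2
  s2 := by
    rw [tr_tr, tr_tr, tr_tr]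
    exact h.s1
  dOE := by
    rw [Finset.disjoint_left]
    rintro ⟨v, u⟩ h1 h2
    exact Finset.disjoint_left.1 h.dOE (mem_tr.1 h1) (mem_tr.1 h2)
  dOF := by
    rw [Finset.disjoint_left]
    rintro ⟨v, u⟩ h1 h2
    exact Finset.disjoint_left.1 h.dOF (mem_tr.1 h1) (mem_tr.1 h2)
  dEF := by
    rw [Finset.disjoint_left]
    rintro ⟨v, u⟩ h1 h2
    exact Finset.disjoint_left.1 h.dEF (mem_tr.1 h1) (mem_tr.1 h2)
  Ein := by
    rintro ⟨v, u⟩ hp
    exact (h.Ein _ (mem_tr.1 hp)).symm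
  Fout := by
    rintro ⟨v, u⟩ hp h'
    exact h.Fout _ (mem_tr.1 hp) h'.symm
  Fm a b hab := by
    rw [← h.Fm b a (Ne.symm hab)]
    refine Finset.card_bij (fun p _ => (p.2, p.1)) ?_ ?_ ?_
    · rintro ⟨v, u⟩ hp
      simp only [Finset.mem_filter, mem_tr] at hp ⊢
      exact ⟨hp.1, hp.2.2, hp.2.1⟩
    · rintro ⟨v, u⟩ _ ⟨v', u'⟩ _ h
      simp only [Prod.mk.injEq] at h
      rw [h.1, h.2]
    · rintro ⟨u, v⟩ hp
      refine ⟨(v, u), ?_, rfl⟩
      simp only [Finset.mem_filter, mem_tr] at hp ⊢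
      exact ⟨hp.1, hp.2.2, hp.2.1⟩
  m1 := h.m1
  bal x hx := (h.bal x hx).symm
  L1 := h.L1
  Gexp := h.Gexp
  NL := h.NL
  eta := h.eta
  rG := h.rG
  P1 := h.P1
  G1 := h.G1
  s3 := h.s3

end Pool.Agent.Lib.TriS
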