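import Pool.Agent.Lib.TriS.FTests
import Pool.Agent.Lib.TriS.FCu

/-!
MODULE FOne (about 200 lines). 7.1: colour the flags of `O`, one after the other.

PROOF. `ftasks` with `K0 = ∅`, `τ = {e // e ∈ O}`, `Opt e = G.image fun x => {(e.1, x)}`, `n e = (G.card + 1) / 2`, `κ = 5/10^15`. `|G|` is huge (`G1`, `P1`, `L1`). `hsep`: options are
singletons. `hU`: the only option that touches the test `(S, x)`, `S = SU E aU i`, is `{(e, x)}`, and only if `e.1.1 ∈ S`; `n e ≥ |G|/2`, so the sum is at most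
`(2/|G|) #{e ∈ O : e.1 ∈ S} = (2/|G|) ∑ u ∈ S, |nb O u| ≤ (2/|G|) |S| (2.2/10^15) |G| ≤ 5/10^15 |S|` (`eb_eq_sum` with `T = univ`; `degO`). `hV`: the same with `nb (tr O) v`
(`eb_tr`). `hadm`: let `K = ∅ ∪ D.biUnion ch`; `ch k = {(k.1, x_k)}` for `k ∈ D`, so `dom K = {k.1 | k ∈ D} ⊆ O` and `e = (u,v) ∉ dom K`. For every `x ∈ G` with `x ∈ nu u`, `x ∈ nv v`,
`x ∉ cu K u`, `x ∉ cv K v` the option `{(e, x)}` is admissible (`pcol_single`). The number of the other `x ∈ G` is at most
`|G \ nu u| + |G \ nv v| + |cu K u| + |cv K v| ≤ 2 η |G| + |nb O u| + |nb (tr O) v| ≤ |G|/10` (`missG`, `eta`, `card_cu`, `card_cv`, `degO`), so at least `9/10 |G| ≥ (|G| + 1)/2`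
options are admissible (`x ↦ {(e, x)}` is injective). Result: `K1 = univ.biUnion ch`, `dom K1 = O`.
-/

set_option autoImplicit false

open scoped Classical

noncomputable section

namespace Pool.Agent.Lib.TriS

private theorem fo_opt {U V X : Type} {G : Finset X} {e : U × V} {Δ : Finset ((U × V) × X)} :
    Δ ∈ (G.image fun x => ({(e, x)} : Finset ((U × V) × X))) ↔ ∃ x ∈ G, Δ = {(e, x)} := by
  rw [Finset.mem_image]
  exact ⟨fun ⟨x, h1, h2⟩ => ⟨x, h1, h2.symm⟩, fun ⟨x, h1, h2⟩ => ⟨x, h1, h2.symm⟩⟩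

private theorem fo_sum {U V X : Type} (O : Finset (U × V)) (G : Finset X) (x : X) (n : ℕ)
    (p : U × V → Prop) [DecidablePred p] :
    ∑ k : {e // e ∈ O}, (((G.image fun y => ({(k.1, y)} : Finset ((U × V) × X))).filter
      fun Δ => ∃ q ∈ Δ, p q.1 ∧ q.2 = x).card : ℝ) / n ≤ ((O.filter p).card : ℝ) / n := by
  have h1 : ∀ k : {e // e ∈ O}, (((G.image fun y => ({(k.1, y)} : Finset ((U × V) × X))).filter
      fun Δ => ∃ q ∈ Δ, p q.1 ∧ q.2 = x).card : ℝ) / n ≤ (if p k.1 then (1 : ℝ) else 0) / n := by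
    intro k
    refine div_le_div_of_nonneg_right ?_ (Nat.cast_nonneg n)
    split_ifs with hp
    · have hs : ((G.image fun y => ({(k.1, y)} : Finset ((U × V) × X))).filter
          fun Δ => ∃ q ∈ Δ, p q.1 ∧ q.2 = x) ⊆ {{(k.1, x)}} := by
        intro Δ hΔ
        rw [Finset.mem_filter, fo_opt] at hΔ
        obtain ⟨⟨y, hy, rfl⟩, q, hq, -, hq2⟩ := hΔ
        rw [Finset.mem_singleton] at hq
        rw [Finset.mem_singleton]
        subst hq
        simp only at hq2
        rw [hq2]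
      have := Finset.card_le_card hs
      rw [Finset.card_singleton] at this
      exact_mod_cast this
    · have hs : ((G.image fun y => ({(k.1, y)} : Finset ((U × V) × X))).filter
          fun Δ => ∃ q ∈ Δ, p q.1 ∧ q.2 = x) = ∅ := by
        rw [Finset.filter_eq_empty_iff]
        intro Δ hΔ
        rw [fo_opt] at hΔ
        obtain ⟨y, hy, rfl⟩ := hΔ
        rintro ⟨q, hq, hq1, -⟩
        rw [Finset.mem_singleton] at hq
        subst hq
        exact hp hq1
      rw [hs, Finset.card_empty, Nat.cast_zero]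
  refine (Finset.sum_le_sum fun k _ => h1 k).trans (le_of_eq ?_)
  rw [← Finset.sum_div]
  congr 1
  have h2 := Finset.sum_coe_sort O (fun e => if p e then (1 : ℝ) else 0)
  rw [Finset.card_filter]
  push_cast
  exact h2

private theorem fo_num (g S n c : ℝ) (hg : 0 < g) (hn : g ≤ 2 * n) (hS : 0 ≤ S)
    (hc : c ≤ S * (2 / 10 ^ 15 * g * (11 / 10))) : c / n ≤ 5 / 10 ^ 15 * S := by
  have hn0 : 0 < n := by linarith
  rw [div_le_iff₀ hn0]
  have h1 : S * g ≤ S * (2 * n) := mul_le_mul_of_nonneg_left hn hS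
  have h2 : 0 ≤ S * n := mul_nonneg hS hn0.le
  nlinarith

private theorem fo_G {U V X : Type} [Fintype U] [Fintype V] {O E F : Finset (U × V)}
    {nu : U → Finset X} {nv : V → Finset X} {P : ℕ} {aU : U → Fin P} {aV : V → Fin P}
    {G : Finset X} {s r m : ℕ} {L η : ℝ} (h : FIn O E F nu nv P aU aV G s r m L η) :
    (1000 : ℝ) ≤ G.card := by
  have h1 := h.G1
  have h2 := h.P1
  have h3 := h.L1
  have hP : (1 : ℝ) ≤ P := le_trans (by norm_num) h2
  have h4 : (1 : ℝ) ≤ (P : ℝ) * L := by nlinarith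
  have h5 : (10 : ℝ) ^ 60 * (P : ℝ) * L = 10 ^ 60 * ((P : ℝ) * L) := by ring
  rw [h5] at h1
  have h6 : (10 : ℝ) ^ 60 * 1 ≤ 10 ^ 60 * ((P : ℝ) * L) :=
    mul_le_mul_of_nonneg_left h4 (by norm_num)
  have h7 : (1000 : ℝ) ≤ 10 ^ 60 * 1 := by norm_num
  linarith

private theorem fo_dom {U V X : Type} {O : Finset (U × V)} {nu : U → Finset X}
    {nv : V → Finset X} {G : Finset X} {D : Finset {e // e ∈ O}}
    {ch : {e // e ∈ O} → Finset ((U × V) × X)}
    (hT : TaskS ∅ nu nv G (fun e : {e // e ∈ O} =>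
      G.image fun x => ({(e.1, x)} : Finset ((U × V) × X))) D ch) {e : U × V} :
    e ∈ dom (D.biUnion ch) ↔ ∃ k ∈ D, k.1 = e := by
  rw [mem_dom]
  constructor
  · rintro ⟨x, hx⟩
    rw [Finset.mem_biUnion] at hx
    obtain ⟨k, hk, hx⟩ := hx
    obtain ⟨y, hy, h1⟩ := fo_opt.1 (hT.opt k hk)
    rw [h1, Finset.mem_singleton, Prod.mk.injEq] at hx
    exact ⟨k, hk, hx.1.symm⟩
  · rintro ⟨k, hk, rfl⟩
    obtain ⟨y, hy, h1⟩ := fo_opt.1 (hT.opt k hk)
    refine ⟨y, Finset.mem_biUnion.2 ⟨k, hk, ?_⟩⟩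
    rw [h1, Finset.mem_singleton]

private theorem fo_adm {U V X : Type} [Fintype U] [Fintype V] {O E F : Finset (U × V)}
    {nu : U → Finset X} {nv : V → Finset X} {P : ℕ} {aU : U → Fin P} {aV : V → Fin P}
    {G : Finset X} {s r m : ℕ} {L η : ℝ} (h : FIn O E F nu nv P aU aV G s r m L η)
    (K : Finset ((U × V) × X)) (hK : PCol K nu nv G) (hd : dom K ⊆ O) (e : U × V)
    (he : e ∉ dom K) :
    (G.card + 1) / 2 ≤
      (admis K nu nv G (G.image fun x => ({(e, x)} : Finset ((U × V) × X)))).card := by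
  obtain ⟨u, v⟩ := e
  set Gd := G.filter fun x => x ∈ nu u ∧ x ∈ nv v ∧ x ∉ cu K u ∧ x ∉ cv K v with hGd
  have h1 : Gd.card ≤
      (admis K nu nv G (G.image fun x => ({((u, v), x)} : Finset ((U × V) × X)))).card := by
    refine Finset.card_le_card_of_injOn (fun x => {((u, v), x)}) ?_ ?_
    · intro x hx
      rw [hGd, Finset.mem_coe, Finset.mem_filter] at hx
      obtain ⟨hxG, h1, h2, h3, h4⟩ := hx
      rw [Finset.mem_coe]
      unfold admis
      rw [Finset.mem_filter]
      refine ⟨fo_opt.2 ⟨x, hxG, rfl⟩, ?_, pcol_single hK hxG h1 h2 h3 h4 he⟩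
      rw [Finset.disjoint_left]
      intro p hp hp'
      rw [mem_dom] at hp
      obtain ⟨y, hy⟩ := hp
      rw [Finset.mem_singleton, Prod.mk.injEq] at hy
      rw [hy.1] at hp'
      exact he hp'
    · intro x _ y _ hxy
      have hxy' : ({((u, v), x)} : Finset ((U × V) × X)) = {((u, v), y)} := hxy
      rw [Finset.singleton_inj, Prod.mk.injEq] at hxy'
      exact hxy'.2
  refine le_trans ?_ h1
  have h2 : G.card ≤ Gd.card + ((G \ nu u).card + (G \ nv v).card + (cu K u).card +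
      (cv K v).card) := by
    have hs : G ⊆ Gd ∪ ((((G \ nu u) ∪ (G \ nv v)) ∪ cu K u) ∪ cv K v) := by
      intro x hx
      simp only [hGd, Finset.mem_union, Finset.mem_filter, Finset.mem_sdiff]
      by_cases a1 : x ∈ nu u
      · by_cases a2 : x ∈ nv v
        · by_cases a3 : x ∈ cu K u
          · exact Or.inr (Or.inl (Or.inr a3))
          · by_cases a4 : x ∈ cv K v
            · exact Or.inr (Or.inr a4)
            · exact Or.inl ⟨hx, a1, a2, a3, a4⟩
        · exact Or.inr (Or.inl (Or.inl (Or.inr ⟨hx, a2⟩)))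
      · exact Or.inr (Or.inl (Or.inl (Or.inl ⟨hx, a1⟩)))
    refine (Finset.card_le_card hs).trans ((Finset.card_union_le _ _).trans ?_)
    refine Nat.add_le_add_left ?_ _
    refine (Finset.card_union_le _ _).trans (Nat.add_le_add_right ?_ _)
    refine (Finset.card_union_le _ _).trans (Nat.add_le_add_right ?_ _)
    exact Finset.card_union_le _ _
  have h3 : ((cu K u).card : ℝ) ≤ 2 / 10 ^ 15 * G.card * (11 / 10) := by
    rw [card_cu hK]
    refine le_trans ?_ (h.s1.degO u)
    exact_mod_cast Finset.card_le_card (nb_mono hd u)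
  have h4 : ((cv K v).card : ℝ) ≤ 2 / 10 ^ 15 * G.card * (11 / 10) := by
    rw [card_cv hK]
    refine le_trans ?_ (h.s2.degO v)
    exact_mod_cast Finset.card_le_card (nb_mono (tr_subset.2 hd) v)
  have h5 := h.s1.missG u
  have h6 := h.s2.missG v
  have h7 := h.eta
  have hg := fo_G h
  have h8 : η * (G.card : ℝ) ≤ 2 / 10 ^ 25 * G.card :=
    mul_le_mul_of_nonneg_right h7 (Nat.cast_nonneg _)
  have h2' : (G.card : ℝ) ≤ Gd.card + (((G \ nu u).card : ℝ) + (G \ nv v).card +
      (cu K u).card + (cv K v).card) := by exact_mod_cast h2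
  have h9 : ((G.card : ℝ) + 1) / 2 ≤ Gd.card := by
    have e1 : (2 : ℝ) / 10 ^ 15 * G.card * (11 / 10) ≤ G.card / 100 := by
      have : (0 : ℝ) ≤ G.card := Nat.cast_nonneg _
      nlinarith
    have e2 : (2 : ℝ) / 10 ^ 25 * G.card ≤ G.card / 100 := by
      have : (0 : ℝ) ≤ G.card := Nat.cast_nonneg _
      nlinarith
    linarith
  have h10 : (((G.card + 1) / 2 : ℕ) : ℝ) ≤ ((G.card : ℝ) + 1) / 2 := by
    have := Nat.cast_div_le (α := ℝ) (m := G.card + 1) (n := 2)
    push_cast at this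
    exact this
  exact_mod_cast h10.trans h9

theorem flush1 {U V X : Type} [Fintype U] [Fintype V] {O E F : Finset (U × V)}
    {nu : U → Finset X} {nv : V → Finset X} {P : ℕ} {aU : U → Fin P} {aV : V → Fin P}
    {G : Finset X} {s r m : ℕ} {L η : ℝ} (h : FIn O E F nu nv P aU aV G s r m L η) :
    ∃ K1 : Finset ((U × V) × X), PCol K1 nu nv G ∧ dom K1 = O ∧
      TB E aU aV G K1 (5 / 10 ^ 15) L := by
  have hg := fo_G h
  have hg0 : (0 : ℝ) < G.card := by linarith
  have hgn : 1000 ≤ G.card := by exact_mod_cast hg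
  have hn2 : (G.card : ℝ) ≤ 2 * (((G.card + 1) / 2 : ℕ) : ℝ) := by
    have : G.card ≤ 2 * ((G.card + 1) / 2) := by omega
    exact_mod_cast this
  have hK0 : PCol (∅ : Finset ((U × V) × X)) nu nv G :=
    ⟨fun p x hx => absurd hx (Finset.notMem_empty _),
      fun p x y hx => absurd hx (Finset.notMem_empty _),
      fun u v v' x hx => absurd hx (Finset.notMem_empty _),
      fun u u' v x hx => absurd hx (Finset.notMem_empty _)⟩
  obtain ⟨ch, hT, hTB⟩ := ftasks (τ := {e // e ∈ O}) h ∅ hK0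
    (fun e => G.image fun x => ({(e.1, x)} : Finset ((U × V) × X)))
    (fun _ => (G.card + 1) / 2) (fun _ => by omega) (5 / 10 ^ 15)
    (by
      intro k Δ hΔ q hq q' hq' hne
      obtain ⟨x, hx, rfl⟩ := fo_opt.1 hΔ
      rw [Finset.mem_singleton] at hq hq'
      rw [hq, hq'] at hne
      exact absurd rfl hne)
    (by
      intro i x hx
      refine (fo_sum O G x ((G.card + 1) / 2) (fun e => e.1 ∈ SU E aU i)).trans ?_
      refine fo_num G.card _ _ _ hg0 hn2 (Nat.cast_nonneg _) ?_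
      have e1 : (O.filter fun e => e.1 ∈ SU E aU i).card = eb O (SU E aU i) Finset.univ := by
        unfold eb
        simp
      rw [e1, eb_eq_sum]
      push_cast
      rw [← nsmul_eq_mul, ← Finset.sum_const]
      refine Finset.sum_le_sum fun u _ => ?_
      rw [Finset.inter_univ]
      exact h.s1.degO u)
    (by
      intro i x hx
      refine (fo_sum O G x ((G.card + 1) / 2) (fun e => e.2 ∈ SV E aV i)).trans ?_
      refine fo_num G.card _ _ _ hg0 hn2 (Nat.cast_nonneg _) ?_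
      have e1 : (O.filter fun e => e.2 ∈ SV E aV i).card =
          eb (tr O) (SV E aV i) Finset.univ := by
        rw [eb_tr]
        unfold eb
        simp
      rw [e1, eb_eq_sum]
      push_cast
      rw [← nsmul_eq_mul, ← Finset.sum_const]
      refine Finset.sum_le_sum fun u _ => ?_
      rw [Finset.inter_univ]
      exact h.s2.degO u)
    (by
      intro D ch hT _ k hk
      have hcol := hT.col
      rw [Finset.empty_union] at hcol ⊢
      refine fo_adm h _ hcol ?_ k.1 ?_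
      · intro e he
        obtain ⟨k', _, rfl⟩ := (fo_dom hT).1 he
        exact k'.2
      · intro he
        obtain ⟨k', hk', hkk⟩ := (fo_dom hT).1 he
        rw [Subtype.ext hkk] at hk'
        exact hk hk')
  have hcol := hT.col
  rw [Finset.empty_union] at hcol
  refine ⟨Finset.univ.biUnion ch, hcol, ?_, hTB⟩
  ext e
  rw [fo_dom hT]
  constructor
  · rintro ⟨k, _, rfl⟩
    exact k.2
  · intro he
    exact ⟨⟨e, he⟩, Finset.mem_univ _, rfl⟩

end Pool.Agent.Lib.TriS
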