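import Pool.Agent.Lib.TriS.FSpread

/-!
MODULE FRouteA (about 110 lines). Routing lemma for one colour.

PROOF. `p a = (β a).toNat`, `q a = (-β a).toNat`: `p a - q a = β a`, `p a + q a = |β a| ≤ b`, `∑ p = ∑ q =: T ≤ P b`. `spread` gives `f`, `g`. Put
`R a c = if a = c then 0 else f a c + g c a`. Divergence: `∑ c, R a c = (∑ c, f a c) + (∑ c, g c a) - (f a a + g a a) = p a + N a - (f a a + g a a)` with
`N a = ∑ c, g c a = ∑ c, f c a`, and `∑ c, R c a = (∑ c, f c a) + (∑ c, g a c) - (f a a + g a a) = N a + q a - (f a a + g a a)`; the difference is `β a`.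
Size: `|R a c - (p a + q c)/P| ≤ 2`. Sum: `∑ c, (R a c + R c a) ≤ p a + q a + 2 N a ≤ b + 2 (T/P + 1) ≤ 3 b + 2`.
-/

set_option autoImplicit false

namespace Pool.Agent.Lib.TriS

theorem route_one (P : ℕ) (hP : 0 < P) (b : ℕ) (β : Fin P → ℤ) (h1 : ∑ a, β a = 0)
    (hb : ∀ a, |β a| ≤ (b : ℤ)) :
    ∃ R : Fin P → Fin P → ℕ, (∀ a, R a a = 0) ∧
      (∀ a, ∑ c, (R a c : ℤ) - ∑ c, (R c a : ℤ) = β a) ∧
      (∀ a c, a ≠ c →
        |(R a c : ℝ) - (((β a).toNat : ℝ) + ((-β c).toNat : ℝ)) / P| ≤ 2) ∧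
      ∀ a, ∑ c, ((R a c : ℝ) + (R c a : ℝ)) ≤ 3 * b + 2 := by
  have hP' : (0 : ℝ) < P := by exact_mod_cast hP
  have hpq : ∑ a, (β a).toNat = ∑ a, (-β a).toNat := by
    have h2 : ((∑ a, (β a).toNat : ℕ) : ℤ) - ((∑ a, (-β a).toNat : ℕ) : ℤ) = 0 := by
      push_cast
      rw [← Finset.sum_sub_distrib, ← h1]
      exact Finset.sum_congr rfl fun a _ => Int.toNat_sub_toNat_neg (β a)
    omega
  obtain ⟨f, g, hf, hg, hfg, hN, hf1, hg1⟩ :=
    spread P hP (fun a => (β a).toNat) (fun a => (-β a).toNat) hpq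
  refine ⟨fun a c => if a = c then 0 else f a c + g c a, fun a => if_pos rfl, fun a => ?_,
    fun a c hac => ?_, fun a => ?_⟩
  · have e1 : ∑ c, ((if a = c then 0 else f a c + g c a : ℕ) : ℤ) =
        ∑ c, ((f a c : ℤ) + g c a) - ((f a a : ℤ) + g a a) := by
      have : ∀ c, ((if a = c then 0 else f a c + g c a : ℕ) : ℤ) =
          ((f a c : ℤ) + g c a) - (if a = c then ((f a c : ℤ) + g c a) else 0) := by
        intro c
        split_ifs <;> push_cast <;> ring
      rw [Finset.sum_congr rfl fun c _ => this c, Finset.sum_sub_distrib, Finset.sum_ite_eq,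
        if_pos (Finset.mem_univ _)]
    have e2 : ∑ c, ((if c = a then 0 else f c a + g a c : ℕ) : ℤ) =
        ∑ c, ((f c a : ℤ) + g a c) - ((f a a : ℤ) + g a a) := by
      have : ∀ c, ((if c = a then 0 else f c a + g a c : ℕ) : ℤ) =
          ((f c a : ℤ) + g a c) - (if c = a then ((f c a : ℤ) + g a c) else 0) := by
        intro c
        split_ifs <;> push_cast <;> ring
      rw [Finset.sum_congr rfl fun c _ => this c, Finset.sum_sub_distrib, Finset.sum_ite_eq',
        if_pos (Finset.mem_univ _)]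
    have e3 : ∑ c, (f a c : ℤ) = ((β a).toNat : ℤ) := by exact_mod_cast hf a
    have e4 : ∑ c, (g a c : ℤ) = ((-β a).toNat : ℤ) := by exact_mod_cast hg a
    have e5 : ∑ c, (f c a : ℤ) = ∑ c, (g c a : ℤ) := by exact_mod_cast hfg a
    rw [e1, e2, Finset.sum_add_distrib, Finset.sum_add_distrib, e3, e4, e5]
    have e6 := Int.toNat_sub_toNat_neg (β a)
    linarith
  · beta_reduce
    rw [if_neg hac]
    push_cast
    have h2 := hf1 a c
    have h3 := hg1 c a
    have e1 : (f a c : ℝ) + g c a - (((β a).toNat : ℝ) + ((-β c).toNat : ℝ)) / P =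
        ((f a c : ℝ) - ((β a).toNat : ℝ) / P) + ((g c a : ℝ) - ((-β c).toNat : ℝ) / P) := by
      ring
    rw [e1]
    refine (abs_add_le _ _).trans ?_
    linarith
  · have e1 : ∑ c, (((if a = c then 0 else f a c + g c a : ℕ) : ℝ) +
        ((if c = a then 0 else f c a + g a c : ℕ) : ℝ)) ≤
        ∑ c, (((f a c : ℝ) + g c a) + ((f c a : ℝ) + g a c)) := by
      refine Finset.sum_le_sum fun c _ => add_le_add ?_ ?_
      · split_ifs
        · push_cast
          positivity
        · push_cast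
          exact le_rfl
      · split_ifs
        · push_cast
          positivity
        · push_cast
          exact le_rfl
    refine e1.trans ?_
    rw [Finset.sum_add_distrib, Finset.sum_add_distrib, Finset.sum_add_distrib]
    have e3 : ∑ c, (f a c : ℝ) = ((β a).toNat : ℝ) := by exact_mod_cast hf a
    have e4 : ∑ c, (g a c : ℝ) = ((-β a).toNat : ℝ) := by exact_mod_cast hg a
    have e5 : ∑ c, (f c a : ℝ) = ∑ c, (g c a : ℝ) := by exact_mod_cast hfg a
    have e6 : ∑ c, (f c a : ℝ) ≤ (∑ c, ((β c).toNat : ℝ)) / P + 1 := by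
      have := hN a
      push_cast at this
      exact this
    have hb1 : ∀ c, ((β c).toNat : ℝ) ≤ b := by
      intro c
      have := abs_le.1 (hb c)
      have h3 : (β c).toNat ≤ b := by omega
      exact_mod_cast h3
    have e7 : (∑ c, ((β c).toNat : ℝ)) / P ≤ b := by
      rw [div_le_iff₀ hP']
      calc ∑ c, ((β c).toNat : ℝ) ≤ ∑ _c : Fin P, (b : ℝ) :=
            Finset.sum_le_sum fun c _ => hb1 c
        _ = b * P := by
            rw [Finset.sum_const, Finset.card_univ, Fintype.card_fin, nsmul_eq_mul, mul_comm]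
    have e8 : ((β a).toNat : ℝ) + ((-β a).toNat : ℝ) ≤ b := by
      have := abs_le.1 (hb a)
      have h3 : (β a).toNat + (-β a).toNat ≤ b := by omega
      exact_mod_cast h3
    rw [e3, e4, ← e5]
    linarith

end Pool.Agent.Lib.TriS
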