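import Mathlib

/-!
MODULE FSpread (about 130 lines). Spreading tokens over residue classes.

PROOF. `N c n = #{i < n : i % P = c}` (`= Nat.count (fun i => i % P = c) n`; `Nat.count_modEq_card` or a direct induction gives
`n/P - 1 ≤ N c n - ... `; more precisely for `n ≤ n'`: `|(N c n' - N c n) - (n' - n)/P| ≤ 1`, because a set of `n' - n` consecutive numbers contains
`⌊(n'-n)/P⌋` or `⌈(n'-n)/P⌉` numbers of the residue class `c`; with `N c n = n/P + (if c < n % P then 1 else 0)` (naturals) this is a short case distinction).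
`S p a = ∑ a' < a, p a'` (prefix sums; `S p P = T`). Put `f a c = N c (S p (a+1)) - N c (S p a)` (`N c` is monotone). `∑ c, f a c = S p (a+1) - S p a = p a`
(every `i` has exactly one residue), `∑ a, f a c = N c T` (telescoping, e.g. `Fin.sum_univ_eq_sum_range`, `Finset.sum_range_tsub`). The same for `q`: `g`. Both column sums are
`N c T`. `N c T ≤ T/P + 1`.
-/

set_option autoImplicit false

namespace Pool.Agent.Lib.TriS

private def fspN (P c n : ℕ) : ℕ := n / P + if c < n % P then 1 else 0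

private theorem fspN_real (P c n : ℕ) (hP : 0 < P) (hc : c < P) :
    (n : ℝ) / P - (c : ℝ) / P ≤ (fspN P c n : ℝ) ∧
      (fspN P c n : ℝ) ≤ (n : ℝ) / P + 1 - ((c : ℝ) + 1) / P := by
  have hP' : (0 : ℝ) < P := by exact_mod_cast hP
  have h1 : (n : ℝ) = P * ((n / P : ℕ) : ℝ) + ((n % P : ℕ) : ℝ) := by
    exact_mod_cast (Nat.div_add_mod n P).symm
  have h2 : (n : ℝ) / P = ((n / P : ℕ) : ℝ) + ((n % P : ℕ) : ℝ) / P := by
    rw [div_eq_iff hP'.ne', add_mul, div_mul_cancel₀ _ hP'.ne']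
    linarith
  have h3 : n % P < P := Nat.mod_lt _ hP
  rw [h2]
  unfold fspN
  by_cases h : c < n % P
  · rw [if_pos h]
    push_cast
    have h4 : (c : ℝ) + 1 ≤ ((n % P : ℕ) : ℝ) := by exact_mod_cast h
    have h5 : ((c : ℝ) + 1) / P ≤ ((n % P : ℕ) : ℝ) / P := by gcongr
    have h6 : ((n % P : ℕ) : ℝ) / P ≤ 1 := by
      rw [div_le_one hP']
      exact_mod_cast h3.le
    have h7 : (0 : ℝ) ≤ (c : ℝ) / P := by positivity
    constructor <;> linarith
  · rw [if_neg h]
    push_cast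
    have h4 : ((n % P : ℕ) : ℝ) ≤ (c : ℝ) := by exact_mod_cast not_lt.1 h
    have h5 : ((n % P : ℕ) : ℝ) / P ≤ (c : ℝ) / P := by gcongr
    have h6 : ((c : ℝ) + 1) / P ≤ 1 := by
      rw [div_le_one hP']
      exact_mod_cast hc
    have h7 : (0 : ℝ) ≤ ((n % P : ℕ) : ℝ) / P := by positivity
    constructor <;> linarith

private theorem fspN_mono (P c : ℕ) (hP : 0 < P) (hc : c < P) : Monotone (fspN P c) := by
  intro n n' h
  have hP' : (0 : ℝ) < P := by exact_mod_cast hP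
  have h1 := (fspN_real P c n hP hc).2
  have h2 := (fspN_real P c n' hP hc).1
  have h3 : (n : ℝ) / P ≤ (n' : ℝ) / P := by gcongr
  have h4 : ((c : ℝ) + 1) / P = (c : ℝ) / P + 1 / P := by ring
  have h5 : (0 : ℝ) < 1 / P := by positivity
  have h6 : (fspN P c n : ℝ) < (fspN P c n' : ℝ) + 1 := by linarith
  have h7 : fspN P c n < fspN P c n' + 1 := by exact_mod_cast h6
  omega

private theorem fspN_diff (P c n n' : ℕ) (hP : 0 < P) (hc : c < P) :
    |(fspN P c n' : ℝ) - fspN P c n - ((n' : ℝ) / P - (n : ℝ) / P)| ≤ 1 := by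
  have hP' : (0 : ℝ) < P := by exact_mod_cast hP
  have h1 := fspN_real P c n hP hc
  have h2 := fspN_real P c n' hP hc
  have h4 : ((c : ℝ) + 1) / P = (c : ℝ) / P + 1 / P := by ring
  have h5 : (0 : ℝ) < 1 / P := by positivity
  rw [abs_le]
  constructor <;> linarith [h1.1, h1.2, h2.1, h2.2]

private theorem fspN_sum (P n : ℕ) (hP : 0 < P) : ∑ c : Fin P, fspN P c n = n := by
  unfold fspN
  rw [Finset.sum_add_distrib, Finset.sum_const, Finset.card_univ, Fintype.card_fin,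
    Fin.sum_univ_eq_sum_range (fun c => if c < n % P then 1 else 0) P, Finset.sum_boole]
  have h1 : (Finset.range P).filter (fun c => c < n % P) = Finset.range (n % P) := by
    ext c
    have := Nat.mod_lt n hP
    simp only [Finset.mem_filter, Finset.mem_range]
    omega
  rw [h1, Finset.card_range, smul_eq_mul]
  exact Nat.div_add_mod n P

private theorem fsp_one (P : ℕ) (hP : 0 < P) (p : Fin P → ℕ) :
    ∃ f : Fin P → Fin P → ℕ, (∀ a, ∑ c, f a c = p a) ∧
      (∀ c : Fin P, ∑ a, f a c = fspN P c (∑ a, p a)) ∧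
      (∀ a c, |(f a c : ℝ) - (p a : ℝ) / P| ≤ 1) := by
  have hP' : (0 : ℝ) < P := by exact_mod_cast hP
  let p' : ℕ → ℕ := fun i => if h : i < P then p ⟨i, h⟩ else 0
  let S : ℕ → ℕ := fun k => ∑ i ∈ Finset.range k, p' i
  have hSs : ∀ k, S (k + 1) = S k + p' k := fun k => Finset.sum_range_succ _ _
  have hp' : ∀ a : Fin P, p' a = p a := fun a => by
    simp only [p', a.2, dif_pos]
  have hSP : S P = ∑ a, p a := by
    show ∑ i ∈ Finset.range P, p' i = _
    rw [← Fin.sum_univ_eq_sum_range p' P]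
    exact Finset.sum_congr rfl fun a _ => hp' a
  have hSm : Monotone S := monotone_nat_of_le_succ fun k => by rw [hSs]; omega
  have hle : ∀ (c : Fin P) (k : ℕ), fspN P c (S k) ≤ fspN P c (S (k + 1)) := fun c k =>
    fspN_mono P c hP c.2 (hSm (Nat.le_succ k))
  refine ⟨fun a c => fspN P c (S (a + 1)) - fspN P c (S a), fun a => ?_, fun c => ?_,
    fun a c => ?_⟩
  · rw [Finset.sum_tsub_distrib _ (fun c _ => hle c a), fspN_sum P _ hP, fspN_sum P _ hP, hSs,
      add_tsub_cancel_left, hp']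
  · rw [Fin.sum_univ_eq_sum_range (fun a => fspN P c (S (a + 1)) - fspN P c (S a)) P,
      Finset.sum_range_tsub (f := fun k => fspN P c (S k))
        ((fspN_mono P c hP c.2).comp hSm), hSP]
    have h0 : fspN P c (S 0) = 0 := by
      simp [S, fspN]
    rw [h0, tsub_zero]
  · rw [Nat.cast_sub (hle c a)]
    have h1 := fspN_diff P c (S a) (S (a + 1)) hP c.2
    have h2 : ((S ((a : ℕ) + 1) : ℕ) : ℝ) / P - ((S (a : ℕ) : ℕ) : ℝ) / P = (p a : ℝ) / P := by
      rw [hSs, hp']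
      push_cast
      ring
    rwa [h2] at h1

theorem spread (P : ℕ) (hP : 0 < P) (p q : Fin P → ℕ) (hpq : ∑ a, p a = ∑ a, q a) :
    ∃ f g : Fin P → Fin P → ℕ, (∀ a, ∑ c, f a c = p a) ∧ (∀ a, ∑ c, g a c = q a) ∧
      (∀ c, ∑ a, f a c = ∑ a, g a c) ∧ (∀ c, ((∑ a, f a c : ℕ) : ℝ) ≤ (∑ a, (p a : ℝ)) / P + 1) ∧
      (∀ a c, |(f a c : ℝ) - (p a : ℝ) / P| ≤ 1) ∧ ∀ a c, |(g a c : ℝ) - (q a : ℝ) / P| ≤ 1 := by
  obtain ⟨f, hf1, hf2, hf3⟩ := fsp_one P hP p
  obtain ⟨g, hg1, hg2, hg3⟩ := fsp_one P hP q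
  refine ⟨f, g, hf1, hg1, fun c => by rw [hf2, hg2, hpq], fun c => ?_, hf3, hg3⟩
  rw [hf2]
  have h1 := (fspN_real P c (∑ a, p a) hP c.2).2
  have h2 : (0 : ℝ) ≤ ((c : ℕ) + 1 : ℝ) / P := by positivity
  push_cast at h1 ⊢
  linarith

end Pool.Agent.Lib.TriS
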