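import Pool.Agent.Lib.TriS.Defs

/-!
MODULE Greedy (about 120 lines). Tool T1: greedy choices with an exponential potential.

PROOF. `Φ t s = ∑ i, exp (c s i - (e - 1) * ∑ t' < t, π t' i)` (`e = exp 1`). Claim: for all `t ≤ T` there is `s` with `Good t s` and
`Φ t s ≤ card ι`. Then `exp (c s i - (e-1) Σ π) ≤ card ι`, so `c s i ≤ (e-1) ∑_{t' < t} π t' i + log (card ι) ≤ Bd i` (`e - 1 ≤ 2`,
monotone in `t` as `π ≥ 0`; `Real.exp_one_lt_d9`; the term `i` exists so `card ι ≥ 1`). Induction: `t = 0`: `Φ = card ι`. Step: for the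
successors `f j`, `j : Fin m`: `exp (c (f j) i) ≤ exp (c s i) * (1 + (e-1) [c s i < c (f j) i])` (if `c (f j) i ≤ c s i` the factor is `1`, else
`c (f j) i = c s i + 1`), so the average over `j` of the new term `i` is at most the old one times `(1 + (e-1) π t i) exp (-(e-1) π t i) ≤ 1`.
Hence `∑ j, Φ (t+1) (f j) ≤ m Φ t s` and some `j` has `Φ (t+1) (f j) ≤ Φ t s` (`Finset.exists_le_of_sum_le`).
-/

set_option autoImplicit false

open scoped Classical

noncomputable section

namespace Pool.Agent.Lib.TriS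

private theorem Greedy_bound {S ι : Type} [Fintype ι] (c : S → ι → ℕ) (π : ℕ → ι → ℝ)
    (Bd : ι → ℝ) (T t : ℕ) (ht : t ≤ T) (hπ : ∀ t i, 0 ≤ π t i)
    (hB : ∀ i, 2 * ∑ t ∈ Finset.range T, π t i + Real.log (Fintype.card ι) ≤ Bd i) (s : S)
    (h : ∑ i, Real.exp ((c s i : ℝ) - (Real.exp 1 - 1) * ∑ t' ∈ Finset.range t, π t' i) ≤
      Fintype.card ι) (i : ι) : (c s i : ℝ) ≤ Bd i := by
  have h1 : Real.exp ((c s i : ℝ) - (Real.exp 1 - 1) * ∑ t' ∈ Finset.range t, π t' i) ≤
      Fintype.card ι := by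
    refine le_trans ?_ h
    exact Finset.single_le_sum (f := fun i => Real.exp ((c s i : ℝ) - (Real.exp 1 - 1) *
      ∑ t' ∈ Finset.range t, π t' i)) (fun i _ => (Real.exp_pos _).le) (Finset.mem_univ i)
  have hpos : (0 : ℝ) < Fintype.card ι := lt_of_lt_of_le (Real.exp_pos _) h1
  have h2 := (Real.le_log_iff_exp_le hpos).2 h1
  have he : Real.exp 1 - 1 ≤ 2 := by
    have := Real.exp_one_lt_d9
    linarith
  have hs0 : 0 ≤ ∑ t' ∈ Finset.range t, π t' i := Finset.sum_nonneg fun t' _ => hπ t' i
  have hs1 : ∑ t' ∈ Finset.range t, π t' i ≤ ∑ t' ∈ Finset.range T, π t' i := by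
    apply Finset.sum_le_sum_of_subset_of_nonneg
    · intro x hx
      rw [Finset.mem_range] at hx ⊢
      omega
    · intro t' _ _
      exact hπ t' i
  have h3 : (Real.exp 1 - 1) * ∑ t' ∈ Finset.range t, π t' i ≤
      2 * ∑ t' ∈ Finset.range t, π t' i := mul_le_mul_of_nonneg_right he hs0
  have := hB i
  linarith

theorem greedy {S ι : Type} [Fintype ι] (c : S → ι → ℕ) (Good : ℕ → S → Prop) (π : ℕ → ι → ℝ)
    (Bd : ι → ℝ) (T : ℕ) (hπ : ∀ t i, 0 ≤ π t i)
    (hB : ∀ i, 2 * ∑ t ∈ Finset.range T, π t i + Real.log (Fintype.card ι) ≤ Bd i)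
    (s0 : S) (h0 : Good 0 s0) (hc0 : ∀ i, c s0 i = 0)
    (step : ∀ t < T, ∀ s, Good t s → (∀ i, (c s i : ℝ) ≤ Bd i) → ∃ (m : ℕ) (f : Fin m → S), 0 < m ∧
      (∀ j, Good (t + 1) (f j)) ∧ (∀ j i, c (f j) i ≤ c s i + 1) ∧
      ∀ i, ((Finset.univ.filter fun j => c s i < c (f j) i).card : ℝ) ≤ π t i * m) :
    ∃ s, Good T s ∧ ∀ i, (c s i : ℝ) ≤ Bd i := by
  set e1 : ℝ := Real.exp 1 - 1 with he1
  have he0 : 0 ≤ e1 := by
    have := Real.one_le_exp (show (0 : ℝ) ≤ 1 by norm_num)
    rw [he1]
    linarith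
  have key : ∀ t, t ≤ T → ∃ s, Good t s ∧
      ∑ i, Real.exp ((c s i : ℝ) - e1 * ∑ t' ∈ Finset.range t, π t' i) ≤ Fintype.card ι := by
    intro t
    induction t with
    | zero =>
      intro _
      refine ⟨s0, h0, ?_⟩
      apply le_of_eq
      simp [hc0]
    | succ t ih =>
      intro ht
      obtain ⟨s, hs, hΦ⟩ := ih (by omega)
      obtain ⟨m, f, hm, hgood, hinc, hcard⟩ := step t (by omega) s hs
        (fun i => Greedy_bound c π Bd T t (by omega) hπ hB s hΦ i)
      have hne : (Finset.univ : Finset (Fin m)).Nonempty := ⟨⟨0, hm⟩, Finset.mem_univ _⟩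
      have hsum : ∑ j : Fin m, ∑ i, Real.exp ((c (f j) i : ℝ) -
          e1 * ∑ t' ∈ Finset.range (t + 1), π t' i) ≤
          ∑ _j : Fin m, ∑ i, Real.exp ((c s i : ℝ) - e1 * ∑ t' ∈ Finset.range t, π t' i) := by
        rw [Finset.sum_comm, Finset.sum_const, Finset.card_univ, Fintype.card_fin, nsmul_eq_mul,
          Finset.mul_sum]
        apply Finset.sum_le_sum
        intro i _
        set a : ℝ := ∑ t' ∈ Finset.range t, π t' i with ha
        have hterm : ∀ j : Fin m, Real.exp ((c (f j) i : ℝ) -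
            e1 * ∑ t' ∈ Finset.range (t + 1), π t' i) ≤
            Real.exp ((c s i : ℝ) - e1 * a - e1 * π t i) *
              (1 + e1 * (if c s i < c (f j) i then 1 else 0)) := by
          intro j
          rw [Finset.sum_range_succ, ← ha]
          by_cases hlt : c s i < c (f j) i
          · have heq : c (f j) i = c s i + 1 := le_antisymm (hinc j i) hlt
            rw [if_pos hlt, heq]
            have h1 : (1 : ℝ) + e1 * 1 = Real.exp 1 := by rw [he1]; ring
            rw [h1, ← Real.exp_add]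
            apply le_of_eq
            congr 1
            push_cast
            ring
          · rw [if_neg hlt, mul_zero, add_zero, mul_one]
            apply Real.exp_le_exp.2
            have h1 : (c (f j) i : ℝ) ≤ c s i := by exact_mod_cast not_lt.1 hlt
            have h2 : e1 * (a + π t i) = e1 * a + e1 * π t i := by ring
            rw [h2]
            linarith
        have h1 : ∑ j : Fin m, Real.exp ((c (f j) i : ℝ) -
            e1 * ∑ t' ∈ Finset.range (t + 1), π t' i) ≤
            ∑ j : Fin m, Real.exp ((c s i : ℝ) - e1 * a - e1 * π t i) *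
              (1 + e1 * (if c s i < c (f j) i then 1 else 0)) :=
          Finset.sum_le_sum fun j _ => hterm j
        refine le_trans h1 ?_
        rw [← Finset.mul_sum, Finset.sum_add_distrib, ← Finset.mul_sum, Finset.sum_boole]
        simp only [Finset.sum_const, Finset.card_univ, Fintype.card_fin, nsmul_eq_mul, mul_one]
        have h2 := hcard i
        have h3 : (m : ℝ) + e1 * ((Finset.univ.filter fun j => c s i < c (f j) i).card : ℝ) ≤
            m * (1 + e1 * π t i) := by
          have := mul_le_mul_of_nonneg_left h2 he0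
          nlinarith
        have h4 : (1 + e1 * π t i) ≤ Real.exp (e1 * π t i) := by
          have := Real.add_one_le_exp (e1 * π t i)
          linarith
        have hm0 : (0 : ℝ) ≤ m := Nat.cast_nonneg _
        calc Real.exp ((c s i : ℝ) - e1 * a - e1 * π t i) *
              ((m : ℝ) + e1 * ((Finset.univ.filter fun j => c s i < c (f j) i).card : ℝ))
            ≤ Real.exp ((c s i : ℝ) - e1 * a - e1 * π t i) * (m * Real.exp (e1 * π t i)) := by
              apply mul_le_mul_of_nonneg_left _ (Real.exp_pos _).le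
              exact h3.trans (mul_le_mul_of_nonneg_left h4 hm0)
          _ = m * (Real.exp ((c s i : ℝ) - e1 * a - e1 * π t i) * Real.exp (e1 * π t i)) := by
              ring
          _ = m * Real.exp ((c s i : ℝ) - e1 * a) := by
              rw [← Real.exp_add]
              congr 2
              ring
      obtain ⟨j, -, hj⟩ := Finset.exists_le_of_sum_le hne hsum
      exact ⟨f j, hgood j, hj.trans hΦ⟩
  obtain ⟨s, hs, hΦ⟩ := key T le_rfl
  exact ⟨s, hs, fun i => Greedy_bound c π Bd T T le_rfl hπ hB s hΦ i⟩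

end Pool.Agent.Lib.TriS
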