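import Pool.Agent.Lib.TriS.FDefs
import Pool.Agent.Lib.TriS.Greedy

/-!
MODULE FTask (about 170 lines). Tasks with options, one after the other, by the tool `greedy`.

PROOF. Enumerate the tasks: `e : τ ≃ Fin (Fintype.card τ)`, `T = card τ`, `Dn t = {k | (e k).1 < t}`. Use `greedy` with
states `S = τ → Finset ((U × V) × X)`, `Good t ch := TaskS K0 nu nv G Opt (Dn t) ch ∧ ∀ k ∉ Dn t, ch k = ∅`,
`c ch i = (used (Finset.univ.biUnion ch) ∩ Te i).card`, `π t i = if h : t < T then pr (e.symm ⟨t, h⟩) i else 0`
(`∑ t ∈ range T, π t i = ∑ k, pr k i`: `Finset.sum_range` and `Equiv.sum_comp`). Start `ch = fun _ => ∅` (`Dn 0 = ∅`, `used ∅ = ∅`). Step `t < T`,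
`k = e.symm ⟨t, _⟩ ∉ Dn t`, `Dn (t+1) = insert k (Dn t)`: since `ch k' = ∅` off `Dn t`, `univ.biUnion ch = (Dn t).biUnion ch`, so `hadm` applies (with `D = Dn t`):
let `Am = admis (K0 ∪ (Dn t).biUnion ch) nu nv G (Opt k)`, `n k ≤ Am.card`. Take `m = Am.card > 0`, `f j = Function.update ch k (Δ j)` with `Δ` an
enumeration of `Am` (`Finset.equivFin`). `Good (t+1) (f j)`: by the definition of `admis` (`dom (Δ)` is disjoint from `dom K0` and from `dom (ch k')`, `k' ∈ Dn t`).
`univ.biUnion (f j) = univ.biUnion ch ∪ Δ j`, `used (A ∪ B) = used A ∪ used B`, so the counter grows by at most `(used (Δ j) ∩ Te i).card ≤ 1` (`hone`), and only if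
`(used (Δ j) ∩ Te i).Nonempty`; the number of such `j` is at most `pr k i * n k ≤ pr k i * m` (`hpr`; `Δ` injective, `Δ j ∈ Opt k`).
At the end `Dn T = univ`.
-/

set_option autoImplicit false

open scoped Classical

noncomputable section

namespace Pool.Agent.Lib.TriS

private theorem ft_used_empty {U V X : Type} : used (∅ : Finset ((U × V) × X)) = ∅ := by
  unfold used
  rw [Finset.image_empty, Finset.image_empty, Finset.union_empty]

private theorem ft_used_union {U V X : Type} (A B : Finset ((U × V) × X)) :
    used (A ∪ B) = used A ∪ used B := by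
  unfold used
  rw [Finset.image_union, Finset.image_union, Finset.union_union_union_comm]

private theorem ft_dom_mono {U V X : Type} {A B : Finset ((U × V) × X)} (h : A ⊆ B) :
    dom A ⊆ dom B := Finset.image_subset_image h

private theorem ft_bu {U V X τ : Type} [Fintype τ] (D : Finset τ)
    (ch : τ → Finset ((U × V) × X)) (h : ∀ k, k ∉ D → ch k = ∅) :
    Finset.univ.biUnion ch = D.biUnion ch := by
  ext q
  rw [Finset.mem_biUnion, Finset.mem_biUnion]
  constructor
  · rintro ⟨k, _, hk⟩
    by_cases hD : k ∈ D
    · exact ⟨k, hD, hk⟩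
    · rw [h k hD] at hk
      exact absurd hk (Finset.notMem_empty q)
  · rintro ⟨k, _, hk⟩
    exact ⟨k, Finset.mem_univ k, hk⟩

private theorem ft_upd {U V X τ : Type} (D : Finset τ) (ch : τ → Finset ((U × V) × X)) (k : τ)
    (hk : k ∉ D) (Δ : Finset ((U × V) × X)) :
    (insert k D).biUnion (Function.update ch k Δ) = D.biUnion ch ∪ Δ := by
  rw [Finset.biUnion_insert, Function.update_self, Finset.union_comm]
  congr 1
  refine Finset.biUnion_congr rfl fun k' hk' => ?_
  rw [Function.update_of_ne]
  rintro rfl
  exact hk hk'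

private theorem ft_upd_univ {U V X τ : Type} [Fintype τ] (ch : τ → Finset ((U × V) × X)) (k : τ)
    (hk : ch k = ∅) (Δ : Finset ((U × V) × X)) :
    Finset.univ.biUnion (Function.update ch k Δ) = Finset.univ.biUnion ch ∪ Δ := by
  ext q
  rw [Finset.mem_union, Finset.mem_biUnion, Finset.mem_biUnion]
  constructor
  · rintro ⟨k', _, hk'⟩
    by_cases h : k' = k
    · subst h
      rw [Function.update_self] at hk'
      exact Or.inr hk'
    · rw [Function.update_of_ne h] at hk'
      exact Or.inl ⟨k', Finset.mem_univ _, hk'⟩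
  · rintro (⟨k', _, hk'⟩ | hq)
    · refine ⟨k', Finset.mem_univ _, ?_⟩
      rw [Function.update_of_ne]
      · exact hk'
      · rintro rfl
        rw [hk] at hk'
        exact absurd hk' (Finset.notMem_empty q)
    · refine ⟨k, Finset.mem_univ _, ?_⟩
      rw [Function.update_self]
      exact hq

private theorem ft_step {U V X τ : Type} {nu : U → Finset X}
    {nv : V → Finset X} {G : Finset X} {K0 : Finset ((U × V) × X)}
    {Opt : τ → Finset (Finset ((U × V) × X))} {D : Finset τ} {ch : τ → Finset ((U × V) × X)}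
    (h : TaskS K0 nu nv G Opt D ch) {k : τ} (hk : k ∉ D) {Δ : Finset ((U × V) × X)}
    (hΔ : Δ ∈ admis (K0 ∪ D.biUnion ch) nu nv G (Opt k)) :
    TaskS K0 nu nv G Opt (insert k D) (Function.update ch k Δ) := by
  unfold admis at hΔ
  rw [Finset.mem_filter] at hΔ
  obtain ⟨hO, hd, hP⟩ := hΔ
  have hne : ∀ k' ∈ D, k' ≠ k := by
    rintro k' hk' rfl
    exact hk hk'
  have hdk : ∀ k' ∈ D, Disjoint (dom Δ) (dom (ch k')) := by
    intro k' hk'
    refine Finset.disjoint_of_subset_right (ft_dom_mono ?_) hd
    exact (Finset.subset_biUnion_of_mem ch hk').trans Finset.subset_union_right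
  refine ⟨?_, ?_, ?_, ?_⟩
  · intro k' hk'
    rcases Finset.mem_insert.mp hk' with rfl | hk''
    · rw [Function.update_self]
      exact hO
    · rw [Function.update_of_ne (hne k' hk'')]
      exact h.opt k' hk''
  · intro k' hk'
    rcases Finset.mem_insert.mp hk' with rfl | hk''
    · rw [Function.update_self]
      exact Finset.disjoint_of_subset_right (ft_dom_mono Finset.subset_union_left) hd
    · rw [Function.update_of_ne (hne k' hk'')]
      exact h.new0 k' hk''
  · intro a ha b hb hab
    rcases Finset.mem_insert.mp ha with rfl | ha'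
    · rcases Finset.mem_insert.mp hb with rfl | hb'
      · exact absurd rfl hab
      · rw [Function.update_self, Function.update_of_ne (hne b hb')]
        exact hdk b hb'
    · rcases Finset.mem_insert.mp hb with rfl | hb'
      · rw [Function.update_self, Function.update_of_ne (hne a ha')]
        exact (hdk a ha').symm
      · rw [Function.update_of_ne (hne a ha'), Function.update_of_ne (hne b hb')]
        exact h.new a ha' b hb' hab
  · rw [ft_upd D ch k hk Δ, ← Finset.union_assoc]
    exact hP

private theorem ft_card {U V X : Type} (A B : Finset ((U × V) × X))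
    (Te : Finset ((U ⊕ V) × X)) (h1 : (used B ∩ Te).card ≤ 1) :
    (used (A ∪ B) ∩ Te).card ≤ (used A ∩ Te).card + 1 := by
  rw [ft_used_union, Finset.union_inter_distrib_right]
  exact (Finset.card_union_le _ _).trans (Nat.add_le_add_left h1 _)

private theorem ft_lt {U V X : Type} (A B : Finset ((U × V) × X))
    (Te : Finset ((U ⊕ V) × X)) (h : (used A ∩ Te).card < (used (A ∪ B) ∩ Te).card) :
    (used B ∩ Te).Nonempty := by
  by_contra hB
  rw [Finset.not_nonempty_iff_eq_empty] at hB
  rw [ft_used_union, Finset.union_inter_distrib_right, hB, Finset.union_empty] at h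
  exact lt_irrefl _ h

theorem tasks {U V X τ ι : Type} [Fintype τ] [Fintype ι] {nu : U → Finset X}
    {nv : V → Finset X} {G : Finset X} (K0 : Finset ((U × V) × X)) (hK0 : PCol K0 nu nv G)
    (Opt : τ → Finset (Finset ((U × V) × X))) (n : τ → ℕ) (hn : ∀ k, 0 < n k)
    (Te : ι → Finset ((U ⊕ V) × X)) (pr : τ → ι → ℝ) (hpr0 : ∀ k i, 0 ≤ pr k i) (Bd : ι → ℝ)
    (hone : ∀ k, ∀ Δ ∈ Opt k, ∀ i, (used Δ ∩ Te i).card ≤ 1)
    (hpr : ∀ k i, (((Opt k).filter fun Δ => (used Δ ∩ Te i).Nonempty).card : ℝ) ≤ pr k i * n k)
    (hB : ∀ i, 2 * ∑ k, pr k i + Real.log (Fintype.card ι) ≤ Bd i)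
    (hadm : ∀ (D : Finset τ) (ch : τ → Finset ((U × V) × X)), TaskS K0 nu nv G Opt D ch →
      (∀ i, ((used (D.biUnion ch) ∩ Te i).card : ℝ) ≤ Bd i) → ∀ k, k ∉ D →
      n k ≤ (admis (K0 ∪ D.biUnion ch) nu nv G (Opt k)).card) :
    ∃ ch : τ → Finset ((U × V) × X), TaskS K0 nu nv G Opt Finset.univ ch ∧
      ∀ i, ((used (Finset.univ.biUnion ch) ∩ Te i).card : ℝ) ≤ Bd i := by
  set T : ℕ := Fintype.card τ with hT
  let e : τ ≃ Fin T := Fintype.equivFin τ
  let Dn : ℕ → Finset τ := fun t => Finset.univ.filter fun k => (e k).1 < t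
  have memDn : ∀ t k, k ∈ Dn t ↔ (e k).1 < t := by
    intro t k
    simp only [Dn, Finset.mem_filter, Finset.mem_univ, true_and]
  let π : ℕ → ι → ℝ := fun t i => if h : t < T then pr (e.symm ⟨t, h⟩) i else 0
  have hπ : ∀ t i, 0 ≤ π t i := by
    intro t i
    simp only [π]
    split_ifs
    · exact hpr0 _ _
    · exact le_refl 0
  have hsum : ∀ i, ∑ t ∈ Finset.range T, π t i = ∑ k, pr k i := by
    intro i
    rw [Finset.sum_range, ← Equiv.sum_comp e.symm (fun k => pr k i)]
    refine Finset.sum_congr rfl fun t _ => ?_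
    simp only [π]
    rw [dif_pos t.2]
  have h0 : TaskS K0 nu nv G Opt (Dn 0) (fun _ => ∅) ∧
      ∀ k, k ∉ Dn 0 → (fun _ : τ => (∅ : Finset ((U × V) × X))) k = ∅ := by
    refine ⟨⟨?_, ?_, ?_, ?_⟩, fun _ _ => rfl⟩
    · intro k hk
      exact absurd ((memDn 0 k).mp hk) (Nat.not_lt_zero _)
    · intro k hk
      exact absurd ((memDn 0 k).mp hk) (Nat.not_lt_zero _)
    · intro k hk
      exact absurd ((memDn 0 k).mp hk) (Nat.not_lt_zero _)
    · have hb : (Dn 0).biUnion (fun _ => (∅ : Finset ((U × V) × X))) = ∅ := by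
        ext q
        rw [Finset.mem_biUnion]
        constructor
        · rintro ⟨k, _, hq⟩
          exact hq
        · intro hq
          exact absurd hq (Finset.notMem_empty q)
      rw [hb, Finset.union_empty]
      exact hK0
  have hc0 : ∀ i, (used (Finset.univ.biUnion (fun _ : τ => (∅ : Finset ((U × V) × X)))) ∩
      Te i).card = 0 := by
    intro i
    have hb : Finset.univ.biUnion (fun _ : τ => (∅ : Finset ((U × V) × X))) = ∅ := by
      ext q
      rw [Finset.mem_biUnion]
      constructor
      · rintro ⟨k, _, hq⟩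
        exact hq
      · intro hq
        exact absurd hq (Finset.notMem_empty q)
    rw [hb, ft_used_empty, Finset.empty_inter, Finset.card_empty]
  obtain ⟨ch, ⟨h1, _⟩, h3⟩ := greedy (S := τ → Finset ((U × V) × X))
    (fun ch i => (used (Finset.univ.biUnion ch) ∩ Te i).card)
    (fun t ch => TaskS K0 nu nv G Opt (Dn t) ch ∧ ∀ k, k ∉ Dn t → ch k = ∅) π Bd T hπ
    (fun i => by rw [hsum]; exact hB i) (fun _ => ∅) h0 hc0 (by
      intro t ht ch hg hc
      obtain ⟨hg1, hg2⟩ := hg
      let k : τ := e.symm ⟨t, ht⟩
      have hek : (e k).1 = t := by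
        simp only [k, Equiv.apply_symm_apply]
      have hkD : k ∉ Dn t := by
        rw [memDn, hek]
        exact lt_irrefl t
      have hDn : Dn (t + 1) = insert k (Dn t) := by
        ext k'
        rw [memDn, Finset.mem_insert, memDn]
        constructor
        · intro h
          rcases Nat.lt_succ_iff_lt_or_eq.mp h with h | h
          · exact Or.inr h
          · left
            apply e.injective
            apply Fin.ext
            rw [h, hek]
        · rintro (rfl | h)
          · rw [hek]
            exact Nat.lt_succ_self t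
          · exact Nat.lt_succ_of_lt h
      have hbu := ft_bu (Dn t) ch hg2
      have hchk : ch k = ∅ := hg2 k hkD
      have hA := hadm (Dn t) ch hg1 (fun i => by rw [← hbu]; exact hc i) k hkD
      set Am := admis (K0 ∪ (Dn t).biUnion ch) nu nv G (Opt k) with hAm
      have hΔ : ∀ j : Fin Am.card, (Am.equivFin.symm j).1 ∈ Am := fun j => (Am.equivFin.symm j).2
      have hsub : Am ⊆ Opt k := by
        rw [hAm]
        unfold admis
        exact Finset.filter_subset _ _
      have hO : ∀ j : Fin Am.card, (Am.equivFin.symm j).1 ∈ Opt k := fun j => hsub (hΔ j)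
      refine ⟨Am.card, fun j => Function.update ch k (Am.equivFin.symm j).1,
        lt_of_lt_of_le (hn k) hA, ?_, ?_, ?_⟩
      · intro j
        refine ⟨?_, ?_⟩
        · rw [hDn]
          exact ft_step hg1 hkD (hΔ j)
        · intro k' hk'
          rw [hDn, Finset.mem_insert, not_or] at hk'
          beta_reduce
          rw [Function.update_of_ne hk'.1]
          exact hg2 k' hk'.2
      · intro j i
        rw [ft_upd_univ ch k hchk]
        exact ft_card _ _ _ (hone k _ (hO j) i)
      · intro i
        have hle : (Finset.univ.filter fun j : Fin Am.card =>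
            (used (Finset.univ.biUnion ch) ∩ Te i).card <
              (used (Finset.univ.biUnion (Function.update ch k (Am.equivFin.symm j).1)) ∩
                Te i).card).card ≤
            ((Opt k).filter fun Δ => (used Δ ∩ Te i).Nonempty).card := by
          refine Finset.card_le_card_of_injOn (fun j => (Am.equivFin.symm j).1) ?_ ?_
          · intro j hj
            rw [Finset.mem_coe, Finset.mem_filter] at hj
            have hj2 := hj.2
            rw [ft_upd_univ ch k hchk] at hj2
            rw [Finset.mem_coe, Finset.mem_filter]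
            exact ⟨hO j, ft_lt _ _ _ hj2⟩
          · intro j _ j' _ h
            exact Am.equivFin.symm.injective (Subtype.ext h)
        have hπk : π t i = pr k i := by
          simp only [π, k]
          rw [dif_pos ht]
        rw [hπk]
        calc (((Finset.univ.filter fun j : Fin Am.card =>
            (used (Finset.univ.biUnion ch) ∩ Te i).card <
              (used (Finset.univ.biUnion (Function.update ch k (Am.equivFin.symm j).1)) ∩
                Te i).card).card : ℕ) : ℝ)
            ≤ (((Opt k).filter fun Δ => (used Δ ∩ Te i).Nonempty).card : ℝ) := by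
              exact_mod_cast hle
          _ ≤ pr k i * n k := hpr k i
          _ ≤ pr k i * Am.card := by
              refine mul_le_mul_of_nonneg_left ?_ (hpr0 k i)
              exact_mod_cast hA)
  have hDT : Dn T = Finset.univ := by
    ext k
    rw [memDn]
    exact ⟨fun _ => Finset.mem_univ k, fun _ => (e k).2⟩
  rw [hDT] at h1
  exact ⟨ch, h1, h3⟩

end Pool.Agent.Lib.TriS
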