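import Pool.Agent.Lib.TriS.FTask

/-!
MODULE FTests (about 180 lines). The tool `tasks` with the tests of the flush (neighbourhoods in `E`, parts; both sides; all colours of `G`).

PROOF. `ι = ((V ⊕ Fin P) × {x // x ∈ G}) ⊕ ((U ⊕ Fin P) × {x // x ∈ G})`, `Te (inl (i, x)) = (SU E aU i).image fun u => (Sum.inl u, x)`,
`Te (inr (i, x)) = (SV E aV i).image fun v => (Sum.inr v, x)`. `(used K ∩ Te (inl (i, x))).card = ((SU E aU i).filter fun u => x ∈ cu K u).card` (`mem_used_inl`), the same for `inr`; so the test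
bounds of `tasks` with `Bd = 2 κ |S| + 4 L` are exactly `TB`. `pr k (inl (i, x))` = (number of the `Δ ∈ Opt k` that contain some `q` with `q.1.1 ∈ SU E aU i`, `q.2 = x`) `/ n k`; this is
the condition `(used Δ ∩ Te ..).Nonempty`. `hone`: `SU E aU i` lies in one part (`FIn.Ein`: `(u,v) ∈ E → aU u = aV v`), so by `hsep` at most one `q ∈ Δ` has `q.1.1 ∈ SU E aU i`.
`log (card ι) ≤ 4 L`: `card U = P s` (`Finset.card_eq_sum_card_fiberwise` with `FSide.cU`), `card V = P s`, `P ≤ P s` (`s ≥ 1` by `s3`), so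
`card ι = (card V + P) |G| + (card U + P) |G| ≤ 4 (P s) |G| ≤ 4 exp L exp L` (`NL`, `Gexp`) and `log 4 ≤ 2 ≤ 2 L` (`exp 2 ≥ 4`); `Real.log_le_log`. (`card ι > 0`.)
-/

set_option autoImplicit false

open scoped Classical

noncomputable section

namespace Pool.Agent.Lib.TriS

private theorem ftests_inl {U V X : Type} (K : Finset ((U × V) × X)) (S : Finset U) (x : X) :
    used K ∩ S.image (fun u => ((Sum.inl u : U ⊕ V), x)) =
      (S.filter fun u => x ∈ cu K u).image fun u => ((Sum.inl u : U ⊕ V), x) := by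
  ext q
  rw [Finset.mem_inter, Finset.mem_image, Finset.mem_image]
  constructor
  · rintro ⟨h1, u, hu, rfl⟩
    exact ⟨u, Finset.mem_filter.2 ⟨hu, mem_used_inl.1 h1⟩, rfl⟩
  · rintro ⟨u, hu, rfl⟩
    rw [Finset.mem_filter] at hu
    exact ⟨mem_used_inl.2 hu.2, u, hu.1, rfl⟩

private theorem ftests_inr {U V X : Type} (K : Finset ((U × V) × X)) (S : Finset V) (x : X) :
    used K ∩ S.image (fun v => ((Sum.inr v : U ⊕ V), x)) =
      (S.filter fun v => x ∈ cv K v).image fun v => ((Sum.inr v : U ⊕ V), x) := by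
  ext q
  rw [Finset.mem_inter, Finset.mem_image, Finset.mem_image]
  constructor
  · rintro ⟨h1, u, hu, rfl⟩
    exact ⟨u, Finset.mem_filter.2 ⟨hu, mem_used_inr.1 h1⟩, rfl⟩
  · rintro ⟨u, hu, rfl⟩
    rw [Finset.mem_filter] at hu
    exact ⟨mem_used_inr.2 hu.2, u, hu.1, rfl⟩

private theorem ftests_cinl {U V X : Type} (K : Finset ((U × V) × X)) (S : Finset U) (x : X) :
    (used K ∩ S.image (fun u => ((Sum.inl u : U ⊕ V), x))).card =
      (S.filter fun u => x ∈ cu K u).card := by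
  rw [ftests_inl]
  refine Finset.card_image_of_injective _ fun a b hab => ?_
  simpa using hab

private theorem ftests_cinr {U V X : Type} (K : Finset ((U × V) × X)) (S : Finset V) (x : X) :
    (used K ∩ S.image (fun v => ((Sum.inr v : U ⊕ V), x))).card =
      (S.filter fun v => x ∈ cv K v).card := by
  rw [ftests_inr]
  refine Finset.card_image_of_injective _ fun a b hab => ?_
  simpa using hab

private theorem ftests_partU {U V X : Type} [Fintype U] [Fintype V] {O E F : Finset (U × V)}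
    {nu : U → Finset X} {nv : V → Finset X} {P : ℕ} {aU : U → Fin P} {aV : V → Fin P}
    {G : Finset X} {s r m : ℕ} {L η : ℝ} (h : FIn O E F nu nv P aU aV G s r m L η)
    (i : V ⊕ Fin P) {u u' : U} (hu : u ∈ SU E aU i) (hu' : u' ∈ SU E aU i) : aU u = aU u' := by
  rcases i with v | a
  · have h1 : (u, v) ∈ E := mem_tr.1 (mem_nb.1 hu)
    have h2 : (u', v) ∈ E := mem_tr.1 (mem_nb.1 hu')
    exact (h.Ein _ h1).trans (h.Ein _ h2).symm
  · have h1 : aU u = a := (Finset.mem_filter.1 hu).2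
    have h2 : aU u' = a := (Finset.mem_filter.1 hu').2
    rw [h1, h2]

private theorem ftests_partV {U V X : Type} [Fintype U] [Fintype V] {O E F : Finset (U × V)}
    {nu : U → Finset X} {nv : V → Finset X} {P : ℕ} {aU : U → Fin P} {aV : V → Fin P}
    {G : Finset X} {s r m : ℕ} {L η : ℝ} (h : FIn O E F nu nv P aU aV G s r m L η)
    (i : U ⊕ Fin P) {v v' : V} (hv : v ∈ SV E aV i) (hv' : v' ∈ SV E aV i) : aV v = aV v' := by
  rcases i with u | a
  · have h1 : (u, v) ∈ E := mem_nb.1 hv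
    have h2 : (u, v') ∈ E := mem_nb.1 hv'
    exact (h.Ein _ h1).symm.trans (h.Ein _ h2)
  · have h1 : aV v = a := (Finset.mem_filter.1 hv).2
    have h2 : aV v' = a := (Finset.mem_filter.1 hv').2
    rw [h1, h2]

private theorem ftests_card {U : Type} [Fintype U] {P s : ℕ} (aU : U → Fin P)
    (hc : ∀ a, (Finset.univ.filter fun u => aU u = a).card = s) : Fintype.card U = P * s := by
  rw [← Finset.card_univ, Finset.card_eq_sum_card_fiberwise (f := aU) (t := Finset.univ)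
    (fun u _ => Finset.mem_coe.2 (Finset.mem_univ _)), Finset.sum_congr rfl fun a _ => hc a,
    Finset.sum_const, Finset.card_univ, Fintype.card_fin, smul_eq_mul]

private theorem ftests_log {c : ℕ} {L : ℝ} (hL : 1 ≤ L) {P s g : ℕ} (hs : 1 ≤ s)
    (hc : c = (P * s + P) * g + (P * s + P) * g) (h1 : (P : ℝ) * s ≤ Real.exp L)
    (h2 : (g : ℝ) ≤ Real.exp L) : Real.log c ≤ 4 * L := by
  rcases Nat.eq_zero_or_pos c with h0 | h0
  · rw [h0, Nat.cast_zero, Real.log_zero]
    linarith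
  · have hc' : (c : ℝ) = (P * s + P) * g + (P * s + P) * g := by
      rw [hc]
      push_cast
      ring
    have hs' : (1 : ℝ) ≤ s := by exact_mod_cast hs
    have hP : (P : ℝ) ≤ P * s := by
      have : (0 : ℝ) ≤ P := Nat.cast_nonneg P
      nlinarith
    have h4 : (4 : ℝ) ≤ Real.exp (2 * L) := by
      have h5 : (2 : ℝ) ≤ Real.exp 1 := by
        have := Real.add_one_le_exp (1 : ℝ)
        linarith
      have h6 : Real.exp 2 = Real.exp 1 * Real.exp 1 := by
        rw [← Real.exp_add]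
        norm_num
      have h7 : Real.exp 2 ≤ Real.exp (2 * L) := Real.exp_le_exp.2 (by linarith)
      nlinarith
    have hE : 0 < Real.exp L := Real.exp_pos L
    have hg : (0 : ℝ) ≤ g := Nat.cast_nonneg g
    have h8 : (c : ℝ) ≤ Real.exp (4 * L) := by
      have h9 : Real.exp (4 * L) = Real.exp (2 * L) * (Real.exp L * Real.exp L) := by
        rw [← Real.exp_add, ← Real.exp_add]
        congr 1
        ring
      rw [h9, hc']
      have h10 : ((P : ℝ) * s) * g ≤ Real.exp L * Real.exp L :=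
        mul_le_mul h1 h2 hg hE.le
      have h11 : ((P : ℝ)) * g ≤ (P * s) * g := mul_le_mul_of_nonneg_right hP hg
      have h12 : 4 * (Real.exp L * Real.exp L) ≤
          Real.exp (2 * L) * (Real.exp L * Real.exp L) :=
        mul_le_mul_of_nonneg_right h4 (mul_pos hE hE).le
      nlinarith
    have h13 : (0 : ℝ) < c := by exact_mod_cast h0
    calc Real.log c ≤ Real.log (Real.exp (4 * L)) := Real.log_le_log h13 h8
      _ = 4 * L := Real.log_exp _

theorem ftasks {U V X τ : Type} [Fintype U] [Fintype V] [Fintype τ] {O E F : Finset (U × V)}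
    {nu : U → Finset X} {nv : V → Finset X} {P : ℕ} {aU : U → Fin P} {aV : V → Fin P}
    {G : Finset X} {s r m : ℕ} {L η : ℝ} (h : FIn O E F nu nv P aU aV G s r m L η)
    (K0 : Finset ((U × V) × X)) (hK0 : PCol K0 nu nv G)
    (Opt : τ → Finset (Finset ((U × V) × X))) (n : τ → ℕ) (hn : ∀ k, 0 < n k) (κ : ℝ)
    (hsep : ∀ k, ∀ Δ ∈ Opt k, ∀ q ∈ Δ, ∀ q' ∈ Δ, q ≠ q' →
      aU q.1.1 ≠ aU q'.1.1 ∧ aV q.1.2 ≠ aV q'.1.2)
    (hU : ∀ (i : V ⊕ Fin P), ∀ x ∈ G,
      ∑ k, (((Opt k).filter fun Δ => ∃ q ∈ Δ, q.1.1 ∈ SU E aU i ∧ q.2 = x).card : ℝ) / n k ≤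
        κ * (SU E aU i).card)
    (hV : ∀ (i : U ⊕ Fin P), ∀ x ∈ G,
      ∑ k, (((Opt k).filter fun Δ => ∃ q ∈ Δ, q.1.2 ∈ SV E aV i ∧ q.2 = x).card : ℝ) / n k ≤
        κ * (SV E aV i).card)
    (hadm : ∀ (D : Finset τ) (ch : τ → Finset ((U × V) × X)), TaskS K0 nu nv G Opt D ch →
      TB E aU aV G (D.biUnion ch) κ L → ∀ k, k ∉ D →
      n k ≤ (admis (K0 ∪ D.biUnion ch) nu nv G (Opt k)).card) :
    ∃ ch : τ → Finset ((U × V) × X), TaskS K0 nu nv G Opt Finset.univ ch ∧
      TB E aU aV G (Finset.univ.biUnion ch) κ L := by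
  have hPpos : (0 : ℝ) < P := lt_of_lt_of_le (by positivity) h.P1
  have hs1 : 1 ≤ s := by
    rcases Nat.eq_zero_or_pos s with h0 | h0
    · exfalso
      have h1 := h.s3
      rw [h0, Nat.cast_zero] at h1
      have h2 : (0 : ℝ) < 10 ^ 60 * (P : ℝ) ^ 2 * L := by
        have := h.L1
        positivity
      linarith
    · exact h0
  have hcU : Fintype.card U = P * s := ftests_card aU h.s1.cU
  have hcV : Fintype.card V = P * s := ftests_card aV h.s2.cU
  let Te : ((V ⊕ Fin P) × {x // x ∈ G}) ⊕ ((U ⊕ Fin P) × {x // x ∈ G}) →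
      Finset ((U ⊕ V) × X) := Sum.elim
    (fun i => (SU E aU i.1).image fun u => ((Sum.inl u : U ⊕ V), (i.2 : X)))
    (fun i => (SV E aV i.1).image fun v => ((Sum.inr v : U ⊕ V), (i.2 : X)))
  let pr : τ → ((V ⊕ Fin P) × {x // x ∈ G}) ⊕ ((U ⊕ Fin P) × {x // x ∈ G}) → ℝ := fun k =>
    Sum.elim
    (fun i => (((Opt k).filter fun Δ => ∃ q ∈ Δ, q.1.1 ∈ SU E aU i.1 ∧ q.2 = i.2.1).card : ℝ)
      / n k)
    (fun i => (((Opt k).filter fun Δ => ∃ q ∈ Δ, q.1.2 ∈ SV E aV i.1 ∧ q.2 = i.2.1).card : ℝ)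
      / n k)
  let Bd : ((V ⊕ Fin P) × {x // x ∈ G}) ⊕ ((U ⊕ Fin P) × {x // x ∈ G}) → ℝ := Sum.elim
    (fun i => 2 * κ * (SU E aU i.1).card + 4 * L)
    (fun i => 2 * κ * (SV E aV i.1).card + 4 * L)
  have hnpos : ∀ k, (0 : ℝ) < n k := fun k => by exact_mod_cast hn k
  have hTB : ∀ K : Finset ((U × V) × X),
      (∀ i, ((used K ∩ Te i).card : ℝ) ≤ Bd i) → TB E aU aV G K κ L := by
    intro K hK
    refine ⟨fun i x hx => ?_, fun i x hx => ?_⟩
    · have h1 := hK (Sum.inl (i, ⟨x, hx⟩))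
      simp only [Te, Bd, Sum.elim_inl] at h1
      rw [ftests_cinl] at h1
      exact h1
    · have h1 := hK (Sum.inr (i, ⟨x, hx⟩))
      simp only [Te, Bd, Sum.elim_inr] at h1
      rw [ftests_cinr] at h1
      exact h1
  have hlog : Real.log (Fintype.card
      (((V ⊕ Fin P) × {x // x ∈ G}) ⊕ ((U ⊕ Fin P) × {x // x ∈ G})) : ℝ) ≤ 4 * L := by
    refine ftests_log h.L1 hs1 ?_ h.NL h.Gexp
    rw [Fintype.card_sum, Fintype.card_prod, Fintype.card_prod, Fintype.card_sum,
      Fintype.card_sum, Fintype.card_fin, Fintype.card_coe, hcU, hcV]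
  have hpr0 : ∀ k i, 0 ≤ pr k i := by
    rintro k (i | i)
    · exact div_nonneg (Nat.cast_nonneg _) (hnpos k).le
    · exact div_nonneg (Nat.cast_nonneg _) (hnpos k).le
  have hone : ∀ k, ∀ Δ ∈ Opt k, ∀ i, (used Δ ∩ Te i).card ≤ 1 := by
    rintro k Δ hΔ (i | i)
    · simp only [Te, Sum.elim_inl]
      rw [ftests_cinl, Finset.card_le_one]
      intro u hu u' hu'
      rw [Finset.mem_filter, mem_cu] at hu hu'
      obtain ⟨hu1, v, hv⟩ := hu
      obtain ⟨hu1', v', hv'⟩ := hu'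
      by_contra hne
      refine (hsep k Δ hΔ _ hv _ hv' ?_).1 (ftests_partU h i.1 hu1 hu1')
      intro heq
      rw [Prod.mk.injEq, Prod.mk.injEq] at heq
      exact hne heq.1.1
    · simp only [Te, Sum.elim_inr]
      rw [ftests_cinr, Finset.card_le_one]
      intro v hv v' hv'
      rw [Finset.mem_filter, mem_cv] at hv hv'
      obtain ⟨hv1, u, hu⟩ := hv
      obtain ⟨hv1', u', hu'⟩ := hv'
      by_contra hne
      refine (hsep k Δ hΔ _ hu _ hu' ?_).2 (ftests_partV h i.1 hv1 hv1')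
      intro heq
      rw [Prod.mk.injEq, Prod.mk.injEq] at heq
      exact hne heq.1.2
  have hpr : ∀ k i, (((Opt k).filter fun Δ => (used Δ ∩ Te i).Nonempty).card : ℝ) ≤
      pr k i * n k := by
    rintro k (i | i)
    · simp only [pr, Te, Sum.elim_inl]
      rw [div_mul_cancel₀ _ (hnpos k).ne', Nat.cast_le]
      refine Finset.card_le_card fun Δ hΔ => ?_
      rw [Finset.mem_filter] at hΔ ⊢
      refine ⟨hΔ.1, ?_⟩
      obtain ⟨q, hq⟩ := hΔ.2
      rw [ftests_inl, Finset.mem_image] at hq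
      obtain ⟨u, hu, _⟩ := hq
      rw [Finset.mem_filter, mem_cu] at hu
      obtain ⟨hu1, v, hv⟩ := hu
      exact ⟨_, hv, hu1, rfl⟩
    · simp only [pr, Te, Sum.elim_inr]
      rw [div_mul_cancel₀ _ (hnpos k).ne', Nat.cast_le]
      refine Finset.card_le_card fun Δ hΔ => ?_
      rw [Finset.mem_filter] at hΔ ⊢
      refine ⟨hΔ.1, ?_⟩
      obtain ⟨q, hq⟩ := hΔ.2
      rw [ftests_inr, Finset.mem_image] at hq
      obtain ⟨v, hv, _⟩ := hq
      rw [Finset.mem_filter, mem_cv] at hv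
      obtain ⟨hv1, u, hu⟩ := hv
      exact ⟨_, hu, hv1, rfl⟩
  have hB : ∀ i, 2 * ∑ k, pr k i + Real.log (Fintype.card
      (((V ⊕ Fin P) × {x // x ∈ G}) ⊕ ((U ⊕ Fin P) × {x // x ∈ G})) : ℝ) ≤ Bd i := by
    rintro (i | i)
    · have h3 := hU i.1 i.2.1 i.2.2
      simp only [pr, Bd, Sum.elim_inl]
      linarith
    · have h3 := hV i.1 i.2.1 i.2.2
      simp only [pr, Bd, Sum.elim_inr]
      linarith
  obtain ⟨ch, h1, h2⟩ := tasks K0 hK0 Opt n hn Te pr hpr0 Bd hone hpr hB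
    (fun D ch hT hK k hk => hadm D ch hT (hTB _ hK) k hk)
  exact ⟨ch, h1, hTB _ h2⟩

end Pool.Agent.Lib.TriS
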