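import Pool.Agent.Lib.TriS.SDefs

/-!
MODULE FinM (about 230 lines). Gluing Stage 0 and the solution of the survivors' instance.

PROOF. `F x = {(y,l) | M y l ∧ pY y = none ∧ colA y l = x} ∪ {(y,l) | M y l ∧ pY y ≠ none ∧ pB l = none ∧ colB l y = x} ∪ image of Mx x` (under `(u,v) ↦ (u.1, v.1)`).
All pairs are flags (`Mx x ⊆ sH`) and have `A x l`: `StA.ok`; `StB.bij.mapsTo`; `v ∈ wt snv x`.
Every `y` is in exactly one pair of `F x`: `pY y = none`: `StA.bij`. `pY y ≠ none`, `x ∈ rcB y`: there is `l` with `pB l = none`, unique by `StB.inj`, and `y ∉ wt snu x` so no pair of `Mx x`. `x ∉ rcB y`: no pair of the second kind, exactly one of the third (`IsPM (Mx x) (wt snu x) (wt snv x)`).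
Every `l` with `A x l` is in exactly one pair: `x ∈ rcA l`: a pair of the first kind, unique by `StA.inj`; none of the second kind (`StB.bij` maps into `x ∉ rcA l`), none of the third (`v ∉ wt snv x`). `x ∉ rcA l`: `pB l = none`: exactly one of the second kind (`StB.bij`), `pB l ≠ none`: exactly one of the third.
Disjointness of `F x`, `F x'`: the first two kinds: the colour of the flag is a function of the flag; the third kind: hypothesis; different kinds have different (pY, pB) patterns.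
-/

set_option autoImplicit false

open scoped Classical

noncomputable section

namespace Pool.Agent.Lib.TriS

private theorem finM_rcA {X Y B : Type} [Fintype X] {P : ℕ} (M : Y → B → Prop)
    (pY : Y → Option (Fin P)) (colA : Y → B → X) (l : B) (x : X) :
    x ∈ rcA M pY colA l ↔ ∃ y, pY y = none ∧ M y l ∧ colA y l = x := by
  unfold rcA
  simp

private theorem finM_rcB {X Y B : Type} [Fintype X] {P : ℕ} (M : Y → B → Prop)
    (pB : B → Option (Fin P)) (colB : B → Y → X) (y : Y) (x : X) :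
    x ∈ rcB M pB colB y ↔ ∃ l, pB l = none ∧ M y l ∧ colB l y = x := by
  unfold rcB
  simp

theorem fin_glue {X Y B : Type} [Fintype X] [Fintype Y] [Fintype B] (A : X → B → Prop)
    (M : Y → B → Prop) (k : ℕ) (G : Finset X) (P s : ℕ) (pY : Y → Option (Fin P))
    (pB : B → Option (Fin P)) (hub : Fin P → Finset X) (L : ℝ) (colA : Y → B → X)
    (hA : StA A M k G P s pY pB hub L colA) (colB : B → Y → X)
    (hB : StB A M k G P s pY pB hub L colA colB)
    (Mx : X → Finset ({y // pY y ≠ none} × {l // pB l ≠ none}))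
    (hM : ∀ x, Mx x ⊆ sH M pY pB ∧
      IsPM (Mx x) (wt (snu M pY pB colB) x) (wt (snv A M pY pB colA) x))
    (hd : ∀ x y, x ≠ y → Disjoint (Mx x) (Mx y)) :
    ∃ F : X → Finset (Y × B), (∀ x, (∀ p ∈ F x, M p.1 p.2) ∧
      IsPM (F x) Finset.univ (Finset.univ.filter fun l => A x l)) ∧
      ∀ x y, x ≠ y → Disjoint (F x) (F y) := by
  obtain ⟨E, hE⟩ : ∃ E : X → Y → B → Prop, ∀ x y l, E x y l ↔
      (M y l ∧ pY y = none ∧ colA y l = x) ∨
      (M y l ∧ pY y ≠ none ∧ pB l = none ∧ colB l y = x) ∨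
      (∃ (hy : pY y ≠ none) (hl : pB l ≠ none),
        ((⟨y, hy⟩, ⟨l, hl⟩) : {y // pY y ≠ none} × {l // pB l ≠ none}) ∈ Mx x) :=
    ⟨_, fun _ _ _ => Iff.rfl⟩
  have hrA : ∀ x y l, M y l → pY y = none → colA y l = x → x ∈ rcA M pY colA l := by
    intro x y l h1 h2 h3
    exact (finM_rcA _ _ _ _ _).2 ⟨y, h2, h1, h3⟩
  have hrB : ∀ x y l, M y l → pB l = none → colB l y = x → x ∈ rcB M pB colB y := by
    intro x y l h1 h2 h3
    exact (finM_rcB _ _ _ _ _).2 ⟨l, h2, h1, h3⟩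
  have h2A : ∀ x y l, M y l → pY y ≠ none → pB l = none → colB l y = x →
      A x l ∧ x ∉ rcA M pY colA l := by
    intro x y l h1 h2 h3 h4
    have h5 : colB l y ∈ {x | A x l ∧ x ∉ rcA M pY colA l} := (hB.bij l h3).mapsTo ⟨h1, h2⟩
    rw [h4] at h5
    exact h5
  have h3u : ∀ x (u : {y // pY y ≠ none}) (v : {l // pB l ≠ none}), (u, v) ∈ Mx x →
      x ∉ rcB M pB colB u.1 := by
    intro x u v h
    have h1 := mem_wt.1 ((hM x).2.sub _ h).1
    unfold snu at h1
    exact (Finset.mem_sdiff.1 h1).2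
  have h3v : ∀ x (u : {y // pY y ≠ none}) (v : {l // pB l ≠ none}), (u, v) ∈ Mx x →
      A x v.1 ∧ x ∉ rcA M pY colA v.1 := by
    intro x u v h
    have h1 := mem_wt.1 ((hM x).2.sub _ h).2
    unfold snv at h1
    rw [Finset.mem_sdiff, Finset.mem_filter] at h1
    exact ⟨h1.1.2, h1.2⟩
  refine ⟨fun x => Finset.univ.filter fun p => E x p.1 p.2, fun x => ⟨?_, ?_⟩, ?_⟩
  · rintro ⟨y, l⟩ h
    rw [Finset.mem_filter, hE] at h
    rcases h.2 with ⟨h1, -, -⟩ | ⟨h1, -, -, -⟩ | ⟨hy, hl, h1⟩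
    · exact h1
    · exact h1
    · have h2 := (hM x).1 h1
      unfold sH at h2
      rw [Finset.mem_filter] at h2
      exact h2.2
  · constructor
    · rintro ⟨y, l⟩ h
      rw [Finset.mem_filter, hE] at h
      refine ⟨Finset.mem_univ _, ?_⟩
      rw [Finset.mem_filter]
      refine ⟨Finset.mem_univ _, ?_⟩
      rcases h.2 with ⟨h1, h2, h3⟩ | ⟨h1, h2, h3, h4⟩ | ⟨hy, hl, h1⟩
      · rw [← h3]
        exact hA.ok y l h2 h1
      · exact (h2A x y l h1 h2 h3 h4).1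
      · exact (h3v x _ _ h1).1
    · intro y _
      by_cases hy : pY y = none
      · obtain ⟨l, hl, hl2⟩ := (hA.bij y hy).surjOn (Set.mem_univ x)
        refine ⟨l, ?_⟩
        rw [Finset.mem_filter, hE]
        exact ⟨Finset.mem_univ _, Or.inl ⟨hl, hy, hl2⟩⟩
      · by_cases hx : x ∈ rcB M pB colB y
        · obtain ⟨l, h1, h2, h3⟩ := (finM_rcB _ _ _ _ _).1 hx
          refine ⟨l, ?_⟩
          rw [Finset.mem_filter, hE]
          exact ⟨Finset.mem_univ _, Or.inr (Or.inl ⟨h2, hy, h1, h3⟩)⟩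
        · have h1 : (⟨y, hy⟩ : {y // pY y ≠ none}) ∈ wt (snu M pY pB colB) x := by
            rw [mem_wt]
            unfold snu
            exact Finset.mem_sdiff.2 ⟨Finset.mem_univ _, hx⟩
          obtain ⟨v, hv⟩ := (hM x).2.ex1 _ h1
          refine ⟨v.1, ?_⟩
          rw [Finset.mem_filter, hE]
          exact ⟨Finset.mem_univ _, Or.inr (Or.inr ⟨hy, v.2, hv⟩)⟩
    · intro l hl
      rw [Finset.mem_filter] at hl
      by_cases hx : x ∈ rcA M pY colA l
      · obtain ⟨y, h1, h2, h3⟩ := (finM_rcA _ _ _ _ _).1 hx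
        refine ⟨y, ?_⟩
        rw [Finset.mem_filter, hE]
        exact ⟨Finset.mem_univ _, Or.inl ⟨h2, h1, h3⟩⟩
      · by_cases hb : pB l = none
        · obtain ⟨y, hy, hy2⟩ := (hB.bij l hb).surjOn (⟨hl.2, hx⟩ :
            x ∈ {x | A x l ∧ x ∉ rcA M pY colA l})
          refine ⟨y, ?_⟩
          rw [Finset.mem_filter, hE]
          exact ⟨Finset.mem_univ _, Or.inr (Or.inl ⟨hy.1, hy.2, hb, hy2⟩)⟩
        · have h1 : (⟨l, hb⟩ : {l // pB l ≠ none}) ∈ wt (snv A M pY pB colA) x := by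
            rw [mem_wt]
            unfold snv
            rw [Finset.mem_sdiff, Finset.mem_filter]
            exact ⟨⟨Finset.mem_univ _, hl.2⟩, hx⟩
          obtain ⟨u, hu⟩ := (hM x).2.ex2 _ h1
          refine ⟨u.1, ?_⟩
          rw [Finset.mem_filter, hE]
          exact ⟨Finset.mem_univ _, Or.inr (Or.inr ⟨u.2, hb, hu⟩)⟩
    · intro y l l' h h'
      rw [Finset.mem_filter, hE] at h h'
      rcases h.2 with ⟨h1, h2, h3⟩ | ⟨h1, h2, h3, h4⟩ | ⟨hy, hl, h1⟩
      · rcases h'.2 with ⟨k1, k2, k3⟩ | ⟨k1, k2, k3, k4⟩ | ⟨ky, kl, k1⟩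
        · exact (hA.bij y h2).injOn h1 k1 (h3.trans k3.symm)
        · exact absurd h2 k2
        · exact absurd h2 ky
      · rcases h'.2 with ⟨k1, k2, k3⟩ | ⟨k1, k2, k3, k4⟩ | ⟨ky, kl, k1⟩
        · exact absurd k2 h2
        · exact hB.inj y l l' h2 h3 k3 h1 k1 (h4.trans k4.symm)
        · exact absurd (hrB x y l h1 h3 h4) (h3u x _ _ k1)
      · rcases h'.2 with ⟨k1, k2, k3⟩ | ⟨k1, k2, k3, k4⟩ | ⟨ky, kl, k1⟩
        · exact absurd k2 hy
        · exact absurd (hrB x y l' k1 k3 k4) (h3u x _ _ h1)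
        · exact congrArg Subtype.val ((hM x).2.un1 _ _ _ h1 k1)
    · intro y y' l h h'
      rw [Finset.mem_filter, hE] at h h'
      rcases h.2 with ⟨h1, h2, h3⟩ | ⟨h1, h2, h3, h4⟩ | ⟨hy, hl, h1⟩
      · rcases h'.2 with ⟨k1, k2, k3⟩ | ⟨k1, k2, k3, k4⟩ | ⟨ky, kl, k1⟩
        · exact hA.inj y y' l h2 k2 h1 k1 (h3.trans k3.symm)
        · exact absurd (hrA x y l h1 h2 h3) (h2A x y' l k1 k2 k3 k4).2
        · exact absurd (hrA x y l h1 h2 h3) (h3v x _ _ k1).2
      · rcases h'.2 with ⟨k1, k2, k3⟩ | ⟨k1, k2, k3, k4⟩ | ⟨ky, kl, k1⟩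
        · exact absurd (hrA x y' l k1 k2 k3) (h2A x y l h1 h2 h3 h4).2
        · exact (hB.bij l h3).injOn ⟨h1, h2⟩ ⟨k1, k2⟩ (h4.trans k4.symm)
        · exact absurd h3 kl
      · rcases h'.2 with ⟨k1, k2, k3⟩ | ⟨k1, k2, k3, k4⟩ | ⟨ky, kl, k1⟩
        · exact absurd (hrA x y' l k1 k2 k3) (h3v x _ _ h1).2
        · exact absurd k3 hl
        · exact congrArg Subtype.val ((hM x).2.un2 _ _ _ h1 k1)
  · intro x x' hxx
    rw [Finset.disjoint_left]
    rintro ⟨y, l⟩ h h'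
    rw [Finset.mem_filter, hE] at h h'
    rcases h.2 with ⟨h1, h2, h3⟩ | ⟨h1, h2, h3, h4⟩ | ⟨hy, hl, h1⟩
    · rcases h'.2 with ⟨k1, k2, k3⟩ | ⟨k1, k2, k3, k4⟩ | ⟨ky, kl, k1⟩
      · exact hxx (h3.symm.trans k3)
      · exact k2 h2
      · exact ky h2
    · rcases h'.2 with ⟨k1, k2, k3⟩ | ⟨k1, k2, k3, k4⟩ | ⟨ky, kl, k1⟩
      · exact h2 k2
      · exact hxx (h4.symm.trans k4)
      · exact kl h3
    · rcases h'.2 with ⟨k1, k2, k3⟩ | ⟨k1, k2, k3, k4⟩ | ⟨ky, kl, k1⟩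
      · exact hy k2
      · exact hl k3
      · exact Finset.disjoint_left.1 (hd x x' hxx) h1 k1

end Pool.Agent.Lib.TriS
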