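import Pool.Agent.Lib.TriS.Defs

/-!
MODULE FlowH (about 150 lines). Integral flows with prescribed degrees from Hall's theorem.

PROOF. Units: `A = Σ u : {u // u ∈ S}, Fin (b u)`, `A' = Σ v : {v // v ∈ T}, Fin (b' v)`, both of the same cardinality `∑ b = ∑ b'`. Hall's theorem
(`Finset.all_card_le_biUnion_card_iff_exists_injective`) for `t : A → Finset A'`, `t ⟨u,i⟩ = {⟨v,j⟩ | (u,v) ∈ Gi}`: for a finite `D ⊆ A` with set of
first coordinates `S'` the union of the `t` is `{⟨v,j⟩ | v ∈ N(S')}` of size `∑ v ∈ N(S'), b' v ≥ ∑ u ∈ S', b u ≥ card D`. The injection is a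
bijection (equal cardinalities, `Fintype.bijective_iff_injective_and_card`). `f u v` = number of units of `u` sent to units of `v` (0 if `u ∉ S` or
`v ∉ T`).
`hall_of_expansion`: with `3d` and `2d`: see T3 in the paper. `S' ⊆ S`, `N S' = {v ∈ T | ∃ u ∈ S', (u,v) ∈ Gi}`.
Case `100|S'| ≤ 51|S|`: `∑_{S'} b ≤ 3d|S'| ≤ 2d|N S'| ≤ ∑_{N S'} b'`. Otherwise let `T' = T \ N S'`; no edge of `Gi` joins `S'` and `T'`, so the neighbourhood
of `T'` is in `S \ S'`. Case `100|T'| ≤ 51|T|`: `∑_{T'} b' ≤ 3d|T'| ≤ 2d|N T'| ≤ ∑_{S \ S'} b`; subtract from the equal totals. Otherwise take `S'' ⊆ S'` with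
`|S''| = 51|S|/100` (floor; `Finset.exists_subset_card_eq`): `3|S''| ≤ 2|N S''| ≤ 2|N S'| = 2(|T| - |T'|)`, but `100|T'| > 51|T|`, `|S''| ≥ (51|S| - 99)/100`,
`|S| = |T| ≥ 10`: contradiction (omega).
-/

set_option autoImplicit false

open scoped Classical

noncomputable section

namespace Pool.Agent.Lib.TriS

theorem flow_exists {U V : Type} (Gi : Finset (U × V)) (S : Finset U) (T : Finset V) (b : U → ℕ)
    (b' : V → ℕ) (hi : ∀ p ∈ Gi, p.1 ∈ S ∧ p.2 ∈ T) (hsum : ∑ u ∈ S, b u = ∑ v ∈ T, b' v)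
    (hall : ∀ S' ⊆ S, ∑ u ∈ S', b u ≤ ∑ v ∈ T.filter (fun v => ∃ u ∈ S', (u, v) ∈ Gi), b' v) :
    ∃ f : U → V → ℕ, (∀ u v, f u v ≠ 0 → (u, v) ∈ Gi) ∧ (∀ u ∈ S, ∑ v ∈ T, f u v = b u) ∧
      ∀ v ∈ T, ∑ u ∈ S, f u v = b' v := by
  let A := Σ u : {u // u ∈ S}, Fin (b u.1)
  let A' := Σ v : {v // v ∈ T}, Fin (b' v.1)
  let t : A → Finset A' := fun a => Finset.univ.filter fun c => (a.1.1, c.1.1) ∈ Gi
  have hH : ∀ D : Finset A, D.card ≤ (D.biUnion t).card := by
    intro D
    let S' : Finset U := D.image fun a => a.1.1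
    have hS' : S' ⊆ S := by
      intro u hu
      obtain ⟨a, _, rfl⟩ := Finset.mem_image.1 hu
      exact a.1.2
    have h1 : D ⊆ (S'.subtype (· ∈ S)).sigma fun u => (Finset.univ : Finset (Fin (b u.1))) := by
      intro a ha
      rw [Finset.mem_sigma]
      exact ⟨Finset.mem_subtype.2 (Finset.mem_image_of_mem _ ha), Finset.mem_univ _⟩
    have h2 : D.card ≤ ∑ u ∈ S', b u := by
      refine (Finset.card_le_card h1).trans (le_of_eq ?_)
      rw [Finset.card_sigma]
      simp only [Finset.card_univ, Fintype.card_fin]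
      exact Finset.sum_subtype_of_mem (fun u => b u) hS'
    let N : Finset V := T.filter (fun v => ∃ u ∈ S', (u, v) ∈ Gi)
    have hN : N ⊆ T := Finset.filter_subset _ _
    have h3 : ((N.subtype (· ∈ T)).sigma fun v => (Finset.univ : Finset (Fin (b' v.1)))) ⊆
        D.biUnion t := by
      intro c hc
      rw [Finset.mem_sigma] at hc
      have hc1 : c.1.1 ∈ N := Finset.mem_subtype.1 hc.1
      obtain ⟨_, u, hu, hG⟩ := Finset.mem_filter.1 hc1
      obtain ⟨a, ha, rfl⟩ := Finset.mem_image.1 hu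
      exact Finset.mem_biUnion.2 ⟨a, ha, Finset.mem_filter.2 ⟨Finset.mem_univ _, hG⟩⟩
    have h4 : ∑ v ∈ N, b' v ≤ (D.biUnion t).card := by
      refine (le_of_eq ?_).trans (Finset.card_le_card h3)
      rw [Finset.card_sigma]
      simp only [Finset.card_univ, Fintype.card_fin]
      exact (Finset.sum_subtype_of_mem (fun v => b' v) hN).symm
    exact h2.trans ((hall S' hS').trans h4)
  obtain ⟨g, hg, hgt⟩ := (Finset.all_card_le_biUnion_card_iff_exists_injective t).1 hH
  have hcA : Fintype.card A = ∑ u ∈ S, b u := by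
    rw [Fintype.card_sigma]
    simp only [Fintype.card_fin]
    exact Finset.sum_coe_sort S fun u => b u
  have hcA' : Fintype.card A' = ∑ v ∈ T, b' v := by
    rw [Fintype.card_sigma]
    simp only [Fintype.card_fin]
    exact Finset.sum_coe_sort T fun v => b' v
  have hbij : Function.Bijective g :=
    (Fintype.bijective_iff_injective_and_card g).2 ⟨hg, by rw [hcA, hcA', hsum]⟩
  let f : U → V → ℕ := fun u v =>
    if h : u ∈ S then (Finset.univ.filter fun i : Fin (b u) => (g ⟨⟨u, h⟩, i⟩).1.1 = v).card else 0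
  refine ⟨f, ?_, ?_, ?_⟩
  · intro u v huv
    by_cases h : u ∈ S
    · have h1 : f u v =
          (Finset.univ.filter fun i : Fin (b u) => (g ⟨⟨u, h⟩, i⟩).1.1 = v).card := dif_pos h
      rw [h1] at huv
      obtain ⟨i, hi'⟩ := Finset.card_pos.1 (Nat.pos_of_ne_zero huv)
      have h2 := (Finset.mem_filter.1 hi').2
      have h3 := (Finset.mem_filter.1 (hgt ⟨⟨u, h⟩, i⟩)).2
      rw [h2] at h3
      exact h3
    · exact absurd (dif_neg h) huv
  · intro u hu
    have h1 : ∀ v, f u v =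
        (Finset.univ.filter fun i : Fin (b u) => (g ⟨⟨u, hu⟩, i⟩).1.1 = v).card :=
      fun v => dif_pos hu
    simp only [h1]
    rw [← Finset.card_eq_sum_card_fiberwise (f := fun i : Fin (b u) => (g ⟨⟨u, hu⟩, i⟩).1.1)
      (s := Finset.univ) (t := T) (fun i _ => (g ⟨⟨u, hu⟩, i⟩).1.2)]
    rw [Finset.card_univ, Fintype.card_fin]
  · intro v hv
    have h1 : ∑ u ∈ S, f u v = ∑ u : {u // u ∈ S},
        (Finset.univ.filter fun i : Fin (b u.1) => (g ⟨u, i⟩).1.1 = v).card := by
      rw [← Finset.sum_coe_sort S fun u => f u v]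
      refine Finset.sum_congr rfl fun u _ => ?_
      exact dif_pos u.2
    have h2 : (Finset.univ.filter fun a : A => (g a).1.1 = v) =
        (Finset.univ : Finset {u // u ∈ S}).sigma
          fun u => Finset.univ.filter fun i : Fin (b u.1) => (g ⟨u, i⟩).1.1 = v := by
      ext ⟨u, i⟩
      constructor
      · intro h
        exact Finset.mem_sigma.2 ⟨Finset.mem_univ _, Finset.mem_filter.2
          ⟨Finset.mem_univ _, (Finset.mem_filter.1 h).2⟩⟩
      · intro h
        exact Finset.mem_filter.2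
          ⟨Finset.mem_univ _, (Finset.mem_filter.1 (Finset.mem_sigma.1 h).2).2⟩
    have h3 : (Finset.univ.filter fun a : A => (g a).1.1 = v).card =
        (Finset.univ.filter fun c : A' => c.1.1 = v).card := by
      refine Finset.card_bij (fun a _ => g a) ?_ ?_ ?_
      · intro a ha
        exact Finset.mem_filter.2 ⟨Finset.mem_univ _, (Finset.mem_filter.1 ha).2⟩
      · intro a _ a' _ h
        exact hg h
      · intro c hc
        obtain ⟨a, rfl⟩ := hbij.2 c
        exact ⟨a, Finset.mem_filter.2 ⟨Finset.mem_univ _, (Finset.mem_filter.1 hc).2⟩, rfl⟩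
    have h4 : (Finset.univ.filter fun c : A' => c.1.1 = v) =
        (({⟨v, hv⟩} : Finset {v // v ∈ T})).sigma
          fun v => (Finset.univ : Finset (Fin (b' v.1))) := by
      ext ⟨c, i⟩
      constructor
      · intro h
        have h5 : c.1 = v := (Finset.mem_filter.1 h).2
        exact Finset.mem_sigma.2 ⟨Finset.mem_singleton.2 (Subtype.ext h5), Finset.mem_univ _⟩
      · intro h
        have h5 := Finset.mem_singleton.1 (Finset.mem_sigma.1 h).1
        exact Finset.mem_filter.2 ⟨Finset.mem_univ _, congrArg Subtype.val h5⟩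
    rw [h1, ← Finset.card_sigma, ← h2, h3, h4, Finset.card_sigma]
    simp

theorem hall_of_expansion {U V : Type} [Fintype U] [Fintype V] (Gi : Finset (U × V)) (S : Finset U)
    (T : Finset V) (b : U → ℕ) (b' : V → ℕ) (d : ℕ) (hcard : S.card = T.card) (hN : 10 ≤ S.card)
    (hi : ∀ p ∈ Gi, p.1 ∈ S ∧ p.2 ∈ T) (hsum : ∑ u ∈ S, b u = ∑ v ∈ T, b' v)
    (hb : ∀ u ∈ S, 2 * d ≤ b u ∧ b u ≤ 3 * d) (hb' : ∀ v ∈ T, 2 * d ≤ b' v ∧ b' v ≤ 3 * d)
    (e1 : ∀ S' ⊆ S, 100 * S'.card ≤ 51 * S.card → 3 * S'.card ≤ 2 * (S'.biUnion (nb Gi)).card)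
    (e2 : ∀ T' ⊆ T, 100 * T'.card ≤ 51 * T.card →
      3 * T'.card ≤ 2 * (T'.biUnion (nb (tr Gi))).card) :
    ∀ S' ⊆ S, ∑ u ∈ S', b u ≤ ∑ v ∈ T.filter (fun v => ∃ u ∈ S', (u, v) ∈ Gi), b' v := by
  have hup : ∀ D ⊆ S, ∑ u ∈ D, b u ≤ 3 * d * D.card := by
    intro D hD
    rw [mul_comm, ← smul_eq_mul]
    exact Finset.sum_le_card_nsmul _ _ _ fun u hu => (hb u (hD hu)).2
  have hlo : ∀ D ⊆ S, 2 * d * D.card ≤ ∑ u ∈ D, b u := by
    intro D hD
    rw [mul_comm, ← smul_eq_mul]
    exact Finset.card_nsmul_le_sum _ _ _ fun u hu => (hb u (hD hu)).1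
  have hup' : ∀ D ⊆ T, ∑ u ∈ D, b' u ≤ 3 * d * D.card := by
    intro D hD
    rw [mul_comm, ← smul_eq_mul]
    exact Finset.sum_le_card_nsmul _ _ _ fun u hu => (hb' u (hD hu)).2
  have hlo' : ∀ D ⊆ T, 2 * d * D.card ≤ ∑ u ∈ D, b' u := by
    intro D hD
    rw [mul_comm, ← smul_eq_mul]
    exact Finset.card_nsmul_le_sum _ _ _ fun u hu => (hb' u (hD hu)).1
  have hNb : ∀ D ⊆ S, T.filter (fun v => ∃ u ∈ D, (u, v) ∈ Gi) = D.biUnion (nb Gi) := by
    intro D hD
    ext v
    simp only [Finset.mem_filter, Finset.mem_biUnion, mem_nb]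
    constructor
    · exact fun h => h.2
    · rintro ⟨u, hu, h⟩
      exact ⟨(hi _ h).2, u, hu, h⟩
  intro S' hS'
  rw [hNb S' hS']
  set N := S'.biUnion (nb Gi) with hNdef
  have hNT : N ⊆ T := by
    rw [hNdef, ← hNb S' hS']
    exact Finset.filter_subset _ _
  by_cases c1 : 100 * S'.card ≤ 51 * S.card
  · have h1 := e1 S' hS' c1
    have h2 := hup S' hS'
    have h3 := hlo' N hNT
    have h4 : 3 * d * S'.card ≤ 2 * d * N.card := by
      calc 3 * d * S'.card = d * (3 * S'.card) := by ring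
        _ ≤ d * (2 * N.card) := Nat.mul_le_mul_left _ h1
        _ = 2 * d * N.card := by ring
    exact h2.trans (h4.trans h3)
  · have hT' : T \ N ⊆ T := Finset.sdiff_subset
    by_cases c2 : 100 * (T \ N).card ≤ 51 * T.card
    · have h1 := e2 (T \ N) hT' c2
      have h2 : (T \ N).biUnion (nb (tr Gi)) ⊆ S \ S' := by
        intro u hu
        obtain ⟨v, hv, huv⟩ := Finset.mem_biUnion.1 hu
        rw [mem_nb, mem_tr] at huv
        rw [Finset.mem_sdiff] at hv ⊢
        refine ⟨(hi _ huv).1, fun hu' => hv.2 ?_⟩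
        exact Finset.mem_biUnion.2 ⟨u, hu', mem_nb.2 huv⟩
      have h3 : ∑ v ∈ T \ N, b' v ≤ ∑ u ∈ S \ S', b u := by
        have h4 := hup' (T \ N) hT'
        have h5 := hlo (S \ S') Finset.sdiff_subset
        have h6 := Finset.card_le_card h2
        have h7 : 3 * d * (T \ N).card ≤ 2 * d * (S \ S').card := by
          calc 3 * d * (T \ N).card = d * (3 * (T \ N).card) := by ring
            _ ≤ d * (2 * (S \ S').card) := Nat.mul_le_mul_left _ (by omega)
            _ = 2 * d * (S \ S').card := by ring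
        exact h4.trans (h7.trans h5)
      have h4 := Finset.sum_sdiff (f := b) hS'
      have h5 := Finset.sum_sdiff (f := b') hNT
      omega
    · exfalso
      obtain ⟨S'', hS'', hc⟩ := Finset.exists_subset_card_eq
        (s := S') (n := 51 * S.card / 100) (by omega)
      have h1 := e1 S'' (hS''.trans hS') (by omega)
      have h2 : (S''.biUnion (nb Gi)).card ≤ N.card :=
        Finset.card_le_card (Finset.biUnion_subset_biUnion_of_subset_left _ hS'')
      have h3 := Finset.card_sdiff_add_card_eq_card hNT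
      omega

end Pool.Agent.Lib.TriS
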