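import Pool.Agent.Lib.TriS.FlowH
import Pool.Agent.Lib.TriD.Birk

/-!
MODULE FlowM (about 180 lines). Tool T3: random perfect matchings.

PROOF. `b u = D + 2 d - deg_{Go} u`, `b' v = D + 2 d - deg_{Go} v` (in `[2d, 3d]` on `S`, `T`); the sums are equal because `∑_{u ∈ S} deg = |Go| = ∑_{v ∈ T} deg`
and `|S| = |T|`. `hall_of_expansion`, `flow_exists` give `f`. `W u v = ([ (u,v) ∈ Go ] + f u v) / (D + 2 d)` has row and column sums 1 on `S × T` and
`W u v ≥ 0`; it is `0` outside `Go ∪ Gi`. `Pool.Agent.Lib.TriD.birkhoff_sample` gives `m, p, π`; keep the indices with `p i > 0` (reindex with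
`(Finset.univ.filter (0 < p ·)).equivFin`; the sums do not change) and put `M i = S.image (fun u => (u, π i u))`. `M i ⊆ Go ∪ Gi`: if `(u, π i u) ∉ Go ∪ Gi` then
`W = 0 = ∑ ...≥ p i > 0`. For `q ∈ Go`: probability `W = (1 + f)/(D+2d)`. For `u ∈ S`: the probability that the edge at `u` is in `Gi` is the sum over the `v ∈ T` with
`(u,v) ∈ Gi` of `W u v = f u v/(D+2d)` (`Go`, `Gi` disjoint), so it is `≤ b u/(D+2d) ≤ 3d/(D+2d)`; the same for `v`.
-/

set_option autoImplicit false

open scoped Classical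

noncomputable section

namespace Pool.Agent.Lib.TriS

/-- A probability distribution on perfect matchings of `Go ∪ Gi` between `S` and `T`: every edge of `Go` has probability at least
`α`, an edge of `Gi` is used at any given vertex with probability at most `β`. -/
def Sampler {U V : Type} (Go Gi : Finset (U × V)) (S : Finset U) (T : Finset V) (α β : ℝ) : Prop :=
  ∃ (m : ℕ) (p : Fin m → ℝ) (M : Fin m → Finset (U × V)), (∀ i, 0 < p i) ∧ ∑ i, p i = 1 ∧
    (∀ i, IsPM (M i) S T ∧ M i ⊆ Go ∪ Gi) ∧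
    (∀ q ∈ Go, α ≤ ∑ i, if q ∈ M i then p i else 0) ∧
    (∀ u ∈ S, ∑ i, (if ∃ v, (u, v) ∈ M i ∧ (u, v) ∈ Gi then p i else 0) ≤ β) ∧
    (∀ v ∈ T, ∑ i, (if ∃ u, (u, v) ∈ M i ∧ (u, v) ∈ Gi then p i else 0) ≤ β)

private theorem flowm_deg {U V : Type} [Fintype V] (Go : Finset (U × V)) (S : Finset U)
    (T : Finset V) (ho : ∀ p ∈ Go, p.1 ∈ S ∧ p.2 ∈ T) (u : U) :
    ∑ v ∈ T, (if (u, v) ∈ Go then (1 : ℝ) else 0) = ((nb Go u).card : ℝ) := by
  rw [Finset.sum_boole]
  congr 2
  ext v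
  rw [Finset.mem_filter, mem_nb]
  exact ⟨fun h => h.2, fun h => ⟨(ho _ h).2, h⟩⟩

private theorem flowm_deg' {U V : Type} [Fintype U] (Go : Finset (U × V)) (S : Finset U)
    (T : Finset V) (ho : ∀ p ∈ Go, p.1 ∈ S ∧ p.2 ∈ T) (v : V) :
    ∑ u ∈ S, (if (u, v) ∈ Go then (1 : ℝ) else 0) = ((nb (tr Go) v).card : ℝ) := by
  rw [Finset.sum_boole]
  congr 2
  ext u
  rw [Finset.mem_filter, mem_nb, mem_tr]
  exact ⟨fun h => h.2, fun h => ⟨(ho _ h).1, h⟩⟩

private theorem flowm_reindex {m : ℕ} (p : Fin m → ℝ) (hp : ∀ i, 0 ≤ p i) (g : Fin m → ℝ)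
    (hg : ∀ i, p i = 0 → g i = 0) :
    ∑ i : Fin (Finset.univ.filter fun i => 0 < p i).card,
      g (((Finset.univ.filter fun i => 0 < p i).equivFin.symm i).1) = ∑ i, g i := by
  rw [Equiv.sum_comp (Finset.univ.filter fun i => 0 < p i).equivFin.symm (fun x => g x.1),
    Finset.sum_coe_sort (Finset.univ.filter fun i => 0 < p i) g]
  refine Finset.sum_subset (Finset.filter_subset _ _) fun i _ hi => hg i ?_
  have h1 : ¬ 0 < p i := fun h => hi (Finset.mem_filter.2 ⟨Finset.mem_univ _, h⟩)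
  exact le_antisymm (not_lt.1 h1) (hp i)

theorem flow_sample {U V : Type} [Fintype U] [Fintype V] (Go Gi : Finset (U × V)) (S : Finset U)
    (T : Finset V) (hcard : S.card = T.card) (hN : 10 ≤ S.card) (hd : Disjoint Go Gi)
    (ho : ∀ p ∈ Go, p.1 ∈ S ∧ p.2 ∈ T) (hi : ∀ p ∈ Gi, p.1 ∈ S ∧ p.2 ∈ T) (D d : ℕ) (hd0 : 0 < d)
    (hdD : d ≤ D)
    (h1 : ∀ u ∈ S, D - d ≤ (nb Go u).card ∧ (nb Go u).card ≤ D)
    (h2 : ∀ v ∈ T, D - d ≤ (nb (tr Go) v).card ∧ (nb (tr Go) v).card ≤ D)
    (e1 : ∀ S' ⊆ S, 100 * S'.card ≤ 51 * S.card → 3 * S'.card ≤ 2 * (S'.biUnion (nb Gi)).card)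
    (e2 : ∀ T' ⊆ T, 100 * T'.card ≤ 51 * T.card →
      3 * T'.card ≤ 2 * (T'.biUnion (nb (tr Gi))).card) :
    Sampler Go Gi S T (1 / ((D : ℝ) + 2 * d)) (3 * d / ((D : ℝ) + 2 * d)) := by
  have hTne : T.Nonempty := by
    rw [← Finset.card_pos]
    omega
  obtain ⟨v0, hv0⟩ := hTne
  have : Nonempty V := ⟨v0⟩
  set b : U → ℕ := fun u => D + 2 * d - (nb Go u).card with hbdef
  set b' : V → ℕ := fun v => D + 2 * d - (nb (tr Go) v).card with hbdef'
  have hb : ∀ u ∈ S, 2 * d ≤ b u ∧ b u ≤ 3 * d := by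
    intro u hu
    have := h1 u hu
    simp only [hbdef]
    omega
  have hb' : ∀ v ∈ T, 2 * d ≤ b' v ∧ b' v ≤ 3 * d := by
    intro v hv
    have := h2 v hv
    simp only [hbdef']
    omega
  have hbr : ∀ u ∈ S, (b u : ℝ) = D + 2 * d - (nb Go u).card := by
    intro u hu
    have := h1 u hu
    simp only [hbdef]
    rw [Nat.cast_sub (by omega)]
    push_cast
    ring
  have hbr' : ∀ v ∈ T, (b' v : ℝ) = D + 2 * d - (nb (tr Go) v).card := by
    intro v hv
    have := h2 v hv
    simp only [hbdef']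
    rw [Nat.cast_sub (by omega)]
    push_cast
    ring
  have hdeg : ∑ u ∈ S, ((nb Go u).card : ℝ) = ∑ v ∈ T, ((nb (tr Go) v).card : ℝ) := by
    rw [Finset.sum_congr rfl fun u _ => (flowm_deg Go S T ho u).symm,
      Finset.sum_congr rfl fun v _ => (flowm_deg' Go S T ho v).symm, Finset.sum_comm]
  have hsum : ∑ u ∈ S, b u = ∑ v ∈ T, b' v := by
    have h3 : ((∑ u ∈ S, b u : ℕ) : ℝ) = ((∑ v ∈ T, b' v : ℕ) : ℝ) := by
      push_cast
      rw [Finset.sum_congr rfl hbr, Finset.sum_congr rfl hbr', Finset.sum_sub_distrib,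
        Finset.sum_sub_distrib, hdeg, Finset.sum_const, Finset.sum_const, hcard]
    exact_mod_cast h3
  obtain ⟨f, hf0, hf1, hf2⟩ := flow_exists Gi S T b b' hi hsum
    (hall_of_expansion Gi S T b b' d hcard hN hi hsum hb hb' e1 e2)
  have hpos : (0 : ℝ) < D + 2 * d := by
    have : (0 : ℝ) < d := by exact_mod_cast hd0
    positivity
  set W : U → V → ℝ := fun u v => ((if (u, v) ∈ Go then (1 : ℝ) else 0) + f u v) / (D + 2 * d)
    with hW
  obtain ⟨m, p, π, hp0, hp1, hπ, hWs⟩ := Pool.Agent.Lib.TriD.birkhoff_sample S T hcard W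
    (by
      intro u _ v _
      simp only [hW]
      split_ifs <;> positivity)
    (by
      intro u hu
      simp only [hW]
      rw [← Finset.sum_div, Finset.sum_add_distrib, flowm_deg Go S T ho u]
      have h3 : ∑ v ∈ T, (f u v : ℝ) = b u := by exact_mod_cast hf1 u hu
      rw [h3, hbr u hu]
      rw [div_eq_one_iff_eq hpos.ne']
      ring)
    (by
      intro v hv
      simp only [hW]
      rw [← Finset.sum_div, Finset.sum_add_distrib, flowm_deg' Go S T ho v]
      have h3 : ∑ u ∈ S, (f u v : ℝ) = b' v := by exact_mod_cast hf2 v hv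
      rw [h3, hbr' v hv]
      rw [div_eq_one_iff_eq hpos.ne']
      ring)
  have hWge : ∀ i, ∀ u ∈ S, p i ≤ W u (π i u) := by
    intro i u hu
    rw [← hWs u hu (π i u) ((hπ i).mapsTo hu)]
    refine le_trans ?_ (Finset.single_le_sum (f := fun j => if π j u = π i u then p j else 0)
      (fun j _ => by
        split_ifs
        · exact hp0 j
        · exact le_rfl) (Finset.mem_univ i))
    rw [if_pos rfl]
  -- membership in the matchings
  set Mm : Fin m → Finset (U × V) := fun i => S.image fun u => (u, π i u) with hMm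
  have hmem : ∀ i u v, (u, v) ∈ Mm i ↔ u ∈ S ∧ π i u = v := by
    intro i u v
    simp only [hMm, Finset.mem_image, Prod.mk.injEq]
    constructor
    · rintro ⟨u', h3, rfl, h4⟩
      exact ⟨h3, h4⟩
    · rintro ⟨h3, h4⟩
      exact ⟨u, h3, rfl, h4⟩
  set e := (Finset.univ.filter fun i => 0 < p i).equivFin.symm with he
  have hpm : ∀ j, 0 < p j → IsPM (Mm j) S T ∧ Mm j ⊆ Go ∪ Gi := by
    intro j hpi
    refine ⟨⟨?_, ?_, ?_, ?_, ?_⟩, ?_⟩
    · rintro ⟨u, v⟩ hq
      obtain ⟨h3, h4⟩ := (hmem j u v).1 hq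
      subst h4
      exact ⟨h3, (hπ j).mapsTo h3⟩
    · intro u hu
      exact ⟨π j u, (hmem j u _).2 ⟨hu, rfl⟩⟩
    · intro v hv
      obtain ⟨u, hu, huv⟩ := (hπ j).surjOn hv
      exact ⟨u, (hmem j u v).2 ⟨hu, huv⟩⟩
    · intro u v v' h3 h4
      exact ((hmem j u v).1 h3).2.symm.trans ((hmem j u v').1 h4).2
    · intro u u' v h3 h4
      obtain ⟨h5, h6⟩ := (hmem j u v).1 h3
      obtain ⟨h7, h8⟩ := (hmem j u' v).1 h4
      exact (hπ j).injOn h5 h7 (h6.trans h8.symm)
    · rintro ⟨u, v⟩ hq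
      obtain ⟨h3, h4⟩ := (hmem j u v).1 hq
      by_contra hne
      rw [Finset.mem_union, not_or] at hne
      have h5 : f u v = 0 := by
        by_contra h6
        exact hne.2 (hf0 u v h6)
      have h6 := hWge j u h3
      rw [h4] at h6
      simp only [hW] at h6
      rw [if_neg hne.1, h5, Nat.cast_zero, add_zero, zero_div] at h6
      exact absurd h6 (not_le.2 hpi)
  refine ⟨(Finset.univ.filter fun i => 0 < p i).card, fun i => p (e i).1, fun i => Mm (e i).1,
    fun i => (Finset.mem_filter.1 (e i).2).2, ?_, ?_, ?_, ?_, ?_⟩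
  · rw [← hp1]
    exact flowm_reindex p hp0 p fun i h => h
  · intro i
    exact hpm _ (Finset.mem_filter.1 (e i).2).2
  · rintro ⟨u, v⟩ hq
    have hu := (ho _ hq).1
    have hv := (ho _ hq).2
    have h3 := flowm_reindex p hp0 (fun i => if (u, v) ∈ Mm i then p i else 0) (by
      intro i h4
      rw [h4, ite_self])
    refine le_trans ?_ (le_of_eq h3.symm)
    have h4 : ∑ i, (if (u, v) ∈ Mm i then p i else 0) = W u v := by
      rw [← hWs u hu v hv]
      refine Finset.sum_congr rfl fun i _ => if_congr ?_ rfl rfl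
      rw [hmem]
      exact ⟨fun h => h.2, fun h => ⟨hu, h⟩⟩
    rw [h4]
    simp only [hW]
    rw [if_pos hq]
    gcongr
    have : (0 : ℝ) ≤ f u v := Nat.cast_nonneg _
    linarith
  · intro u hu
    have h4 : ∀ i, (∃ v, (u, v) ∈ Mm i ∧ (u, v) ∈ Gi) → p i ≤
        ∑ v ∈ T.filter fun v => (u, v) ∈ Gi, if π i u = v then p i else 0 := by
      rintro i ⟨v, h6, h7⟩
      have h8 := ((hmem i u v).1 h6).2
      refine le_trans ?_ (Finset.single_le_sum (f := fun v => if π i u = v then p i else 0)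
        (fun j _ => by
          split_ifs
          · exact hp0 i
          · exact le_rfl) (Finset.mem_filter.2 ⟨(hi _ h7).2, h7⟩))
      rw [if_pos h8]
    have h3 := flowm_reindex p hp0
      (fun i => ∑ v ∈ T.filter fun v => (u, v) ∈ Gi, if π i u = v then p i else 0) (by
        intro i h4
        refine Finset.sum_eq_zero fun v _ => ?_
        rw [h4, ite_self])
    refine le_trans (Finset.sum_le_sum fun i _ => ?_) ((le_of_eq h3).trans ?_)
    · split_ifs with h5
      · exact h4 _ h5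
      · refine Finset.sum_nonneg fun v _ => ?_
        split_ifs
        · exact hp0 _
        · exact le_rfl
    rw [Finset.sum_comm]
    have h5 : ∀ v ∈ T.filter fun v => (u, v) ∈ Gi,
        (∑ i, if π i u = v then p i else 0) = (f u v : ℝ) / (D + 2 * d) := by
      intro v hv
      rw [Finset.mem_filter] at hv
      rw [hWs u hu v hv.1]
      simp only [hW]
      rw [if_neg (fun h => Finset.disjoint_left.1 hd h hv.2), zero_add]
    rw [Finset.sum_congr rfl h5, ← Finset.sum_div]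
    gcongr
    calc ∑ v ∈ T.filter fun v => (u, v) ∈ Gi, (f u v : ℝ) ≤ ∑ v ∈ T, (f u v : ℝ) :=
          Finset.sum_le_sum_of_subset_of_nonneg (Finset.filter_subset _ _)
            fun _ _ _ => Nat.cast_nonneg _
      _ = b u := by exact_mod_cast hf1 u hu
      _ ≤ 3 * d := by exact_mod_cast (hb u hu).2
  · intro v hv
    have h4 : ∀ i, (∃ u, (u, v) ∈ Mm i ∧ (u, v) ∈ Gi) → p i ≤
        ∑ u ∈ S.filter fun u => (u, v) ∈ Gi, if π i u = v then p i else 0 := by
      rintro i ⟨u, h6, h7⟩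
      have h8 := ((hmem i u v).1 h6).2
      refine le_trans ?_ (Finset.single_le_sum (f := fun u => if π i u = v then p i else 0)
        (fun j _ => by
          split_ifs
          · exact hp0 i
          · exact le_rfl) (Finset.mem_filter.2 ⟨(hi _ h7).1, h7⟩))
      rw [if_pos h8]
    have h3 := flowm_reindex p hp0
      (fun i => ∑ u ∈ S.filter fun u => (u, v) ∈ Gi, if π i u = v then p i else 0) (by
        intro i h4
        refine Finset.sum_eq_zero fun u _ => ?_
        rw [h4, ite_self])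
    refine le_trans (Finset.sum_le_sum fun i _ => ?_) ((le_of_eq h3).trans ?_)
    · split_ifs with h5
      · exact h4 _ h5
      · refine Finset.sum_nonneg fun u _ => ?_
        split_ifs
        · exact hp0 _
        · exact le_rfl
    rw [Finset.sum_comm]
    have h5 : ∀ u ∈ S.filter fun u => (u, v) ∈ Gi,
        (∑ i, if π i u = v then p i else 0) = (f u v : ℝ) / (D + 2 * d) := by
      intro u hu
      rw [Finset.mem_filter] at hu
      rw [hWs u hu.1 v hv]
      simp only [hW]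
      rw [if_neg (fun h => Finset.disjoint_left.1 hd h hu.2), zero_add]
    rw [Finset.sum_congr rfl h5, ← Finset.sum_div]
    gcongr
    calc ∑ u ∈ S.filter fun u => (u, v) ∈ Gi, (f u v : ℝ) ≤ ∑ u ∈ S, (f u v : ℝ) :=
          Finset.sum_le_sum_of_subset_of_nonneg (Finset.filter_subset _ _)
            fun _ _ _ => Nat.cast_nonneg _
      _ = b' v := by exact_mod_cast hf2 v hv
      _ ≤ 3 * d := by exact_mod_cast (hb' v hv).2

end Pool.Agent.Lib.TriS
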