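import Pool.Agent.Lib.TriS.BHyp

/-!
Definitions for the layers (section 2.2 of the paper): `Cl j` = colours not yet treated before block `j`, `Pl j` = protected edges
(the final ones and the layers `R i`, `i ≥ j`).
-/

set_option autoImplicit false

open scoped Classical

noncomputable section

namespace Pool.Agent.Lib.TriS

def Cl {X : Type} (J : ℕ) (Ce : Finset X) (Q : ℕ → Finset X) (j : ℕ) : Finset X :=
  Ce ∪ (Finset.Ico j J).biUnion Q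

def Pl {E : Type} (J : ℕ) (P : Finset E) (R : ℕ → Finset E) (j : ℕ) : Finset E :=
  P ∪ (Finset.Ico j J).biUnion R

/-- one side of the properties of the layers -/
structure LSide {U V X : Type} [Fintype V] (P : Finset (U × V)) (nu : U → Finset X)
    (nv : V → Finset X) (C Ce : Finset X) (J : ℕ) (sg : ℝ) (o dP : ℕ → ℝ) (Q : ℕ → Finset X)
    (R : ℕ → Finset (U × V)) : Prop where
  miss : ∀ j < J, ∀ u, ((Cl J Ce Q j \ nu u).card : ℝ) ≤ 1 / 10 ^ 7 * o j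
  missQ : ∀ j < J, ∀ u, ((Q j \ nu u).card : ℝ) ≤ 1 / 10 ^ 7 * (sg * o j)
  degP : ∀ j < J, ∀ u, |((nb (Pl J P R j) u).card : ℝ) - dP j| ≤ 1 / 10 ^ 7 * o j
  degR : ∀ j < J, ∀ u, |((nb (R j) u).card : ℝ) - sg * o j / 8| ≤ 1 / 10 ^ 7 * (sg * o j)
  badR : ∀ j < J, ∀ u, ∀ x ∈ C,
    (((nb (R j) u).filter fun v => x ∉ nv v).card : ℝ) ≤ 1 / 10 ^ 7 * (sg * o j)

structure Layers {U V X : Type} [Fintype U] [Fintype V] (H P : Finset (U × V))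
    (nu : U → Finset X) (nv : V → Finset X) (C Ce : Finset X) (ρ : ℕ) (L : ℝ) (J : ℕ) (sg : ℝ)
    (o dP : ℕ → ℝ) (Q : ℕ → Finset X) (R : ℕ → Finset (U × V)) : Prop where
  sg1 : 1 / 200 ≤ sg
  sg2 : sg ≤ 1 / 100
  osucc : ∀ j < J, o (j + 1) = o j - 7 / 8 * (sg * o j)
  dPsucc : ∀ j < J, dP (j + 1) = dP j - sg * o j / 8
  sL : ∀ j < J, 10 ^ 10 * L ≤ sg * o j
  o0 : ((C.card : ℝ) + ρ) / 2 ≤ o 0
  Qd : ∀ i < J, ∀ j < J, i ≠ j → Disjoint (Q i) (Q j)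
  Qu : (Finset.range J).biUnion Q = C \ Ce
  Rd : ∀ i < J, ∀ j < J, i ≠ j → Disjoint (R i) (R j)
  Rs : ∀ j < J, R j ⊆ H \ P
  cC : ∀ j < J, |((Cl J Ce Q j).card : ℝ) + ρ - dP j - o j| ≤ 1 / 10 ^ 7 * o j
  cQ : ∀ j < J, |((Q j).card : ℝ) - sg * o j| ≤ 1 / 10 ^ 7 * (sg * o j)
  mix : ∀ j < J, Mix (R j) (sg * o j / 8) (12 / 10) (1 / 100) (Fintype.card U)
  side1 : LSide P nu nv C Ce J sg o dP Q R
  side2 : LSide (tr P) nv nu C Ce J sg o dP Q (fun j => tr (R j))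

end Pool.Agent.Lib.TriS
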