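import Pool.Agent.Lib.TriS.SDefs

/-!
MODULE Mixing (about 130 lines). The mixing inequality of a design system and of the survivors.

PROOF of `mixing`. `e = ∑_{l ∈ T} card {y ∈ S | M y l}`, so `e - |S||T| k/(k+c) = ∑_{l ∈ T} (card {y ∈ S | M y l} - |S| k/(k+c)) ≤ √(|T| ∑_l (..)²) ≤ √(|T| n |S|)` (Cauchy-Schwarz `Finset.sum_mul_sq_le_sq_mul_sq` or `inner_mul_le_norm_mul_norm`, `DMix.m2`; restrict the sum over all `l` to `T`).
PROOF of `surv_mix`. Images of `S`, `T` under `Subtype.val` (same cardinalities, `eb` = number of pairs); `k/(k+c) ≤ k/(P s)` (`DNum.Ps`, `P s > 0`), `√(n |S||T|) ≤ √k max (|S|,|T|)` (`n ≤ k`, `|S||T| ≤ max²`).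
-/

set_option autoImplicit false

open scoped Classical

noncomputable section

namespace Pool.Agent.Lib.TriS

open Pool.Agent.Lib.TriD

theorem mixing {X Y B : Type} [Fintype X] [Fintype Y] [Fintype B] (A : X → B → Prop)
    (M : Y → B → Prop) (k c n : ℕ) (hM : DMix A M k c n) (S : Finset Y) (T : Finset B) :
    (((S ×ˢ T).filter fun p => M p.1 p.2).card : ℝ) ≤
      (k : ℝ) / (k + c) * ((S.card : ℝ) * T.card) + Real.sqrt (n * ((S.card : ℝ) * T.card)) := by
  set f : B → ℝ := fun b => ((S.filter fun y => M y b).card : ℝ) - S.card * ((k : ℝ) / (k + c))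
    with hf
  have h1 : (((S ×ˢ T).filter fun p => M p.1 p.2).card : ℝ) =
      ∑ b ∈ T, ((S.filter fun y => M y b).card : ℝ) := by
    rw [Finset.card_filter, Finset.sum_product_right]
    push_cast
    refine Finset.sum_congr rfl fun b _ => ?_
    rw [Finset.card_filter]
    push_cast
    rfl
  have h2 : (((S ×ˢ T).filter fun p => M p.1 p.2).card : ℝ) =
      ∑ b ∈ T, f b + (k : ℝ) / (k + c) * ((S.card : ℝ) * T.card) := by
    rw [h1]
    simp only [hf]
    rw [Finset.sum_sub_distrib, Finset.sum_const, nsmul_eq_mul]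
    ring
  have h3 : (∑ b ∈ T, f b) ^ 2 ≤ n * ((S.card : ℝ) * T.card) := by
    have e1 : (∑ b ∈ T, f b) ^ 2 ≤ (T.card : ℝ) * ∑ b ∈ T, f b ^ 2 := sq_sum_le_card_mul_sum_sq
    have e2 : ∑ b ∈ T, f b ^ 2 ≤ ∑ b, f b ^ 2 :=
      Finset.sum_le_sum_of_subset_of_nonneg (Finset.subset_univ T) fun b _ _ => sq_nonneg _
    have e3 : ∑ b, f b ^ 2 ≤ (n : ℝ) * S.card := hM.m2 S
    have e4 := mul_le_mul_of_nonneg_left (e2.trans e3) (Nat.cast_nonneg (α := ℝ) T.card)
    refine e1.trans (e4.trans (le_of_eq ?_))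
    ring
  have h4 : ∑ b ∈ T, f b ≤ Real.sqrt (n * ((S.card : ℝ) * T.card)) :=
    (le_abs_self _).trans (Real.abs_le_sqrt h3)
  rw [h2]
  linarith

private theorem mixing_eb_le {U V Z : Type} (H : Finset (U × V)) (S : Finset U) (T : Finset V)
    (F : Finset Z) (f : U × V → Z) (h1 : ∀ p ∈ H, p.1 ∈ S → p.2 ∈ T → f p ∈ F)
    (h2 : Function.Injective f) : eb H S T ≤ F.card := by
  unfold eb
  refine Finset.card_le_card_of_injOn f ?_ h2.injOn
  intro p hp
  obtain ⟨a, b, c⟩ := Finset.mem_filter.1 (Finset.mem_coe.1 hp)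
  exact h1 p a b c

theorem surv_mix {X Y B : Type} [Fintype X] [Fintype Y] [Fintype B] (A : X → B → Prop)
    (M : Y → B → Prop) (k c n : ℕ) (hM : DMix A M k c n) (g P s r : ℕ) (L : ℝ)
    (hN : DNum k c n g P s r L) (pY : Y → Option (Fin P)) (pB : B → Option (Fin P))
    (S : Finset {y // pY y ≠ none}) (T : Finset {l // pB l ≠ none}) :
    (eb (sH M pY pB) S T : ℝ) ≤ k * ((S.card : ℝ) * T.card / (P * s)) +
      Real.sqrt k * max (S.card : ℝ) T.card := by
  set S' : Finset Y := S.map ⟨Subtype.val, Subtype.val_injective⟩ with hS'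
  set T' : Finset B := T.map ⟨Subtype.val, Subtype.val_injective⟩ with hT'
  have hS : S'.card = S.card := Finset.card_map _
  have hT : T'.card = T.card := Finset.card_map _
  have h1 : eb (sH M pY pB) S T ≤ ((S' ×ˢ T').filter fun p => M p.1 p.2).card := by
    refine mixing_eb_le _ S T _ (fun p => (p.1.1, p.2.1)) ?_ ?_
    · rintro ⟨u, v⟩ hp1 hp2 hp3
      unfold sH at hp1
      have hp4 := Finset.mem_filter.1 hp1
      rw [Finset.mem_filter, Finset.mem_product]
      exact ⟨⟨Finset.mem_map.2 ⟨u, hp2, rfl⟩, Finset.mem_map.2 ⟨v, hp3, rfl⟩⟩, hp4.2⟩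
    · rintro ⟨u, v⟩ ⟨u', v'⟩ h
      simp only [Prod.mk.injEq] at h
      rw [Prod.mk.injEq]
      exact ⟨Subtype.ext h.1, Subtype.ext h.2⟩
  have h2 := mixing A M k c n hM S' T'
  rw [hS, hT] at h2
  have h3 : (eb (sH M pY pB) S T : ℝ) ≤ (((S' ×ˢ T').filter fun p => M p.1 p.2).card : ℝ) := by
    exact_mod_cast h1
  have hP : (0 : ℝ) < P := lt_of_lt_of_le (by norm_num) hN.P1
  have hs : (0 : ℝ) < s := by
    refine lt_of_lt_of_le ?_ hN.s3
    have hL := hN.L1
    positivity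
  have hPs : (0 : ℝ) < (P : ℝ) * s := mul_pos hP hs
  have hk0 : (0 : ℝ) ≤ k := Nat.cast_nonneg _
  have hx0 : (0 : ℝ) ≤ S.card := Nat.cast_nonneg _
  have hy0 : (0 : ℝ) ≤ T.card := Nat.cast_nonneg _
  have h4 : (k : ℝ) / (k + c) * ((S.card : ℝ) * T.card) ≤
      k * ((S.card : ℝ) * T.card / (P * s)) := by
    have e1 : (k : ℝ) / (k + c) * ((S.card : ℝ) * T.card) =
        k * ((S.card : ℝ) * T.card / (k + c)) := by ring
    rw [e1]
    refine mul_le_mul_of_nonneg_left ?_ hk0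
    exact div_le_div_of_nonneg_left (mul_nonneg hx0 hy0) hPs hN.Ps
  have h5 : Real.sqrt (n * ((S.card : ℝ) * T.card)) ≤
      Real.sqrt k * max (S.card : ℝ) T.card := by
    have hm0 : (0 : ℝ) ≤ max (S.card : ℝ) T.card := le_max_of_le_left hx0
    have e1 : Real.sqrt k * max (S.card : ℝ) T.card =
        Real.sqrt (k * (max (S.card : ℝ) T.card) ^ 2) := by
      rw [Real.sqrt_mul hk0, Real.sqrt_sq hm0]
    rw [e1]
    apply Real.sqrt_le_sqrt
    have hn : (n : ℝ) ≤ k := by exact_mod_cast hN.nk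
    have e2 : (S.card : ℝ) * T.card ≤ (max (S.card : ℝ) T.card) ^ 2 := by
      rw [sq]
      exact mul_le_mul (le_max_left _ _) (le_max_right _ _) hy0 hm0
    exact mul_le_mul hn e2 (mul_nonneg hx0 hy0) hk0
  linarith

end Pool.Agent.Lib.TriS
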