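import Mathlib

/-!
MODULE SRem (about 80 lines, only Mathlib). Remove spare elements so that all parts have exactly `s` elements.

PROOF. For every `a` let `F a = {e | (f e).1 = some a}`, `F' a = {e ∈ F a | (f e).2 = true}`; `|F a| - s ≤ |F' a|`, so there is `R a ⊆ F' a` with
`|R a| = |F a| - s` (`Finset.exists_subset_card_eq`). Put `p e = some a` if `(f e).1 = some a` and `e ∉ R a`, otherwise `none`. Then `{e | p e = some a} = F a \ R a`
has `s` elements.
-/

set_option autoImplicit false

open scoped Classical

noncomputable section

namespace Pool.Agent.Lib.TriS

theorem remv {E : Type} [Fintype E] (P s : ℕ) (f : E → Option (Fin P) × Bool)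
    (h1 : ∀ a, s ≤ (Finset.univ.filter fun e => (f e).1 = some a).card)
    (h2 : ∀ a, (Finset.univ.filter fun e => (f e).1 = some a).card ≤
      s + (Finset.univ.filter fun e => (f e).1 = some a ∧ (f e).2 = true).card) :
    ∃ p : E → Option (Fin P), (∀ a, (Finset.univ.filter fun e => p e = some a).card = s) ∧
      (∀ e a, p e = some a → (f e).1 = some a) ∧
      (∀ e, p e = none → (f e).1 = none ∨ (f e).2 = true) := by
  have hR : ∀ a : Fin P, ∃ R : Finset E,
      R ⊆ (Finset.univ.filter fun e => (f e).1 = some a ∧ (f e).2 = true) ∧
      R.card = (Finset.univ.filter fun e => (f e).1 = some a).card - s := by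
    intro a
    exact Finset.exists_subset_card_eq (Nat.sub_le_iff_le_add'.mpr (h2 a))
  choose R hR1 hR2 using hR
  refine ⟨fun e => match (f e).1 with
    | none => none
    | some a => if e ∈ R a then none else some a, ?_, ?_, ?_⟩
  · intro a
    have hsub : R a ⊆ (Finset.univ.filter fun e => (f e).1 = some a) := by
      intro e he
      have h := Finset.mem_filter.mp (hR1 a he)
      exact Finset.mem_filter.mpr ⟨h.1, h.2.1⟩
    have heq : (Finset.univ.filter fun e => (match (f e).1 with
        | none => none
        | some a => if e ∈ R a then none else some a) = some a) =
        (Finset.univ.filter fun e => (f e).1 = some a) \ R a := by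
      ext e
      rw [Finset.mem_filter, Finset.mem_sdiff, Finset.mem_filter]
      rcases h : (f e).1 with _ | b
      · simp
      · simp only [Finset.mem_univ, true_and]
        by_cases hb : e ∈ R b
        · rw [if_pos hb]
          constructor
          · intro h'
            exact absurd h' (by simp)
          · rintro ⟨h', h''⟩
            rw [Option.some.injEq] at h'
            subst h'
            exact absurd hb h''
        · rw [if_neg hb]
          constructor
          · intro h'
            refine ⟨h', ?_⟩
            rw [Option.some.injEq] at h'
            subst h'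
            exact hb
          · rintro ⟨h', _⟩
            exact h'
    rw [heq, Finset.card_sdiff_of_subset hsub, hR2 a]
    have := h1 a
    omega
  · intro e a h
    beta_reduce at h
    rcases h' : (f e).1 with _ | b
    · rw [h'] at h
      exact absurd h (by simp)
    · rw [h'] at h
      by_cases hb : e ∈ R b
      · simp [hb] at h
      · simp [hb] at h
        rw [h]
  · intro e h
    beta_reduce at h
    rcases h' : (f e).1 with _ | b
    · exact Or.inl rfl
    · right
      rw [h'] at h
      by_cases hb : e ∈ R b
      · exact (Finset.mem_filter.mp (hR1 b hb)).2.2
      · simp [hb] at h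

end Pool.Agent.Lib.TriS
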