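import Pool.Agent.Lib.TriS.SPick
import Pool.Agent.Lib.TriS.SRem

/-!
MODULE SSide. One side of the partition: `pick` (with the index type `Option J`, `none` for the whole type) and `remv`.
-/

/-!
MODULE SSide (about 130 lines). One side of the partition: `pick` + `remv`.

PROOF. Apply `pick` to the index type `Option J` with `S none = univ`, `S (some j) = S j` (`Fintype.card_option`; `hcnt`). `hs1`, `hs2` and the bounds for `S none`
give the hypotheses of `remv` (cast to ℝ, `Nat.cast_le`): `s ≤ (1-z) μ - t ≤ |F a|` and `|F a| ≤ (1+z) μ + t ≤ s + (1-z) σ μ - t ≤ s + |F' a|`. Let `p` be the result.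
Positivity: `p e = some a → (f e).1 = some a → 0 < q e a`. Upper bound: `{e ∈ S j | p e = some a} ⊆ {e ∈ S j | (f e).1 = some a}`. Lower bound:
`{e ∈ S j | (f e).1 = some a} ⊆ {e ∈ S j | p e = some a} ∪ {e ∈ S j | (f e).1 = some a ∧ (f e).2 = true}` (if `p e = none` then the mark is `true`; if
`p e = some b` then `b = a`). Last: `{e ∈ S j | p e = none} ⊆ {(f e).1 = none} ∪ {(f e).2 = true}`.
-/

set_option autoImplicit false

open scoped Classical

noncomputable section

namespace Pool.Agent.Lib.TriS

theorem side {E J : Type} [Fintype E] [Fintype J] (P s : ℕ) (q : E → Fin P → ℝ) (S : J → Finset E)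
    (σ z t : ℝ) (hq : ∀ e a, 0 ≤ q e a) (hq1 : ∀ e, ∑ a, q e a ≤ 1) (hσ0 : 0 < σ) (hσ1 : σ < 1)
    (hz : 0 < z) (hz1 : z ≤ 1)
    (hcnt : ((Fintype.card J : ℝ) + 1) * (2 * P + 2) * (2 * Real.exp (-(z * t))) < 1)
    (hs1 : ∀ a, (s : ℝ) ≤ (1 - z) * ∑ e, q e a - t)
    (hs2 : ∀ a, (1 + z) * ∑ e, q e a + t - s ≤ (1 - z) * (σ * ∑ e, q e a) - t) :
    ∃ p : E → Option (Fin P), (∀ a, (Finset.univ.filter fun e => p e = some a).card = s) ∧
      (∀ e a, p e = some a → 0 < q e a) ∧ ∀ j,
      (∀ a, (((S j).filter fun e => p e = some a).card : ℝ) ≤ (1 + z) * ∑ e ∈ S j, q e a + t ∧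
        (1 - z) * ∑ e ∈ S j, q e a - (1 + z) * (σ * ∑ e ∈ S j, q e a) - 2 * t ≤
          (((S j).filter fun e => p e = some a).card : ℝ)) ∧
      (((S j).filter fun e => p e = none).card : ℝ) ≤
        (1 + z) * ∑ e ∈ S j, (1 - ∑ a, q e a) + (1 + z) * (σ * (S j).card) + 2 * t := by
  obtain ⟨f, hf1, hf2⟩ := pick P q (fun j : Option J => j.elim Finset.univ S) σ z t hq hq1 hσ0 hσ1
    hz hz1 (by
      rw [Fintype.card_option]
      push_cast
      exact hcnt)
  have hn := hf2 none
  simp only [Option.elim_none] at hn
  obtain ⟨p, p1, p2, p3⟩ := remv P s f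
    (fun a => by
      have e1 := (hn.1 a).1
      have e2 := hs1 a
      have : (s : ℝ) ≤ ((Finset.univ.filter fun e => (f e).1 = some a).card : ℝ) := by linarith
      exact_mod_cast this)
    (fun a => by
      have e1 := (hn.1 a).2
      have e2 := hs2 a
      have e3 := (hn.2.1 a).1
      have : ((Finset.univ.filter fun e => (f e).1 = some a).card : ℝ) ≤
          s + ((Finset.univ.filter fun e => (f e).1 = some a ∧ (f e).2 = true).card : ℝ) := by
        linarith
      exact_mod_cast this)
  refine ⟨p, p1, fun e a h => hf1 e a (p2 e a h), fun j => ?_⟩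
  have hj := hf2 (some j)
  simp only [Option.elim_some] at hj
  refine ⟨fun a => ⟨?_, ?_⟩, ?_⟩
  · have e1 : (((S j).filter fun e => p e = some a).card : ℝ) ≤
        (((S j).filter fun e => (f e).1 = some a).card : ℝ) := by
      exact_mod_cast Finset.card_le_card (Finset.monotone_filter_right _ fun e _ he => p2 e a he)
    exact e1.trans (hj.1 a).2
  · have e1 : (((S j).filter fun e => (f e).1 = some a).card : ℝ) ≤
        (((S j).filter fun e => p e = some a).card : ℝ) +
        (((S j).filter fun e => (f e).1 = some a ∧ (f e).2 = true).card : ℝ) := by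
      have e2 : ((S j).filter fun e => (f e).1 = some a) ⊆
          ((S j).filter fun e => p e = some a) ∪
          ((S j).filter fun e => (f e).1 = some a ∧ (f e).2 = true) := by
        intro e he
        obtain ⟨h1, h2⟩ := Finset.mem_filter.1 he
        rw [Finset.mem_union, Finset.mem_filter, Finset.mem_filter]
        rcases hp : p e with _ | b
        · right
          refine ⟨h1, h2, ?_⟩
          rcases p3 e hp with h3 | h3
          · rw [h2] at h3
            exact absurd h3 (by simp)
          · exact h3
        · left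
          have h3 := p2 e b hp
          rw [h2] at h3
          exact ⟨h1, h3.symm⟩
      exact_mod_cast (Finset.card_le_card e2).trans (Finset.card_union_le _ _)
    have e3 := (hj.1 a).1
    have e4 := (hj.2.1 a).2
    linarith
  · have e1 : (((S j).filter fun e => p e = none).card : ℝ) ≤
        (((S j).filter fun e => (f e).1 = none).card : ℝ) +
        (((S j).filter fun e => (f e).2 = true).card : ℝ) := by
      have e2 : ((S j).filter fun e => p e = none) ⊆
          ((S j).filter fun e => (f e).1 = none) ∪ ((S j).filter fun e => (f e).2 = true) := by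
        intro e he
        obtain ⟨h1, h2⟩ := Finset.mem_filter.1 he
        rw [Finset.mem_union, Finset.mem_filter, Finset.mem_filter]
        rcases p3 e h2 with h3 | h3
        · exact Or.inl ⟨h1, h3⟩
        · exact Or.inr ⟨h1, h3⟩
      exact_mod_cast (Finset.card_le_card e2).trans (Finset.card_union_le _ _)
    have e3 := hj.2.2.1
    have e4 := hj.2.2.2
    linarith

end Pool.Agent.Lib.TriS
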