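import Pool.Agent.Lib.TriS.SRel
import Pool.Agent.Lib.TriS.SSide

/-!
MODULE SFinB (about 280 lines). The parts of the blocks `l`.

PROOF. `side` with `E = B`, `J = Y ⊕ (Y × X) ⊕ X`, `S (inl y) = {l | M y l}`, `S (inr (inl (y,x))) = {l | M y l ∧ ¬ A x l}`, `S (inr (inr x)) = {l | ¬ A x l}`,
`q l a = if gd A (hub a) l then 1/((1+ζ) g P) else 0` (`ζ = 1/10^29`, `g P ≥ 10^60 > 0` by `gP`), `σ = 4/10^28`, `z = 1/10^31`, `t = 8·10^31 L` (`z t = 8 L`).
`v = k + c = exp L = w^10000`, `κ = k/P`; `P ≥ w^100/2`, `w ≥ 10^200 (L+1)`, `κ ≥ w^4900 ≥ w`, so `t ≤ 10^(-100) κ`, `t + 1 ≤ 10^(-100) v/P`. `Σ_{l ∈ S} q l a` is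
the number of good `l ∈ S` divided by `(1+ζ) g P` (`Finset.sum_ite`, `Finset.filter_filter`).
* `∑ a, q l a ≤ 1`: `b2`. `hcnt`: `card J + 1 = c + c k + k + 1 = (c+1)(k+1) ≤ v^2` (`hS.cR`, `hS.cC`), `2P + 2 ≤ 4 v`: `v^2 · 4 v · 2 · exp (-8L) = 8 exp (-5L) < 1`.
* `μ = ∑ l, q l a` is between `(1-ζ)/(1+ζ) · v/P ≥ (1 - 2ζ) v/P` and `v/P` (`b5`). `hs1`: `s ≤ (1-10^(-28)) v/P ≤ (1-z) μ - t`. `hs2`: `s > (1-10^(-28)) v/P - 1`.
* `hubA`: `0 < q l a` means `gd A (hub a) l`.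
* `inY` (`y ∉ Ex`, `S (inl y)`): by `b1` the mean is between `(1 - 2ζ) κ` and `κ`; then as in `SFinY`: `(1 - z - (1+z)σ)(1 - 2ζ) κ - 2t ≥ (1 - 10^(-27)) κ`.
* `upY` (all `y`): at most `k` blocks contain `y` (`hS.degC`), so the mean is `≤ k/(g P) ≤ 10^(-60) k`; `(1+z) 10^(-60) k + t ≤ 10^(-27) k`.
* `wY` (all `y`): `∑_{l ∋ y} (1 - ∑ a, q l a) = k - ∑_{l ∋ y} #{a good}/((1+ζ) g P) ≤ k (1 - (1-ζ)/(1+ζ)) ≤ 2 ζ k` (`b3`), `|S| = k`:
  `(1+z) 2ζ k + (1+z) σ k + 2 t ≤ 10^(-27) k`.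
* `pair` (`y ∉ Ex`, `x ∈ G`, `S (inr (inl (y,x)))`): mean `≤ 2 g (k-n)/(g P) ≤ 2·10^(-30) κ` (`b4`, `N3.n2`); `(1+z) mean + t ≤ 10^(-27) κ`.
* `hit` (`x ∈ G`, `S (inr (inr x))`): mean `≤ 2 g k/(g P) = 2 κ ≤ 2·10^(-30) v/P` (`b6`, `N3.k2`), `s ≥ (1-10^(-28)) v/P - 1 ≥ v/(2P)`.
(The filters in `BFin` are conjunctions: rewrite `Finset.filter_filter` and permute the conjuncts.)
-/

set_option autoImplicit false

open scoped Classical

noncomputable section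

namespace Pool.Agent.Lib.TriS

open Pool.Agent.Lib.TriD

private theorem fb_scale_up {g P N x : ℝ} (hg : 0 < g) (hP : 0 < P)
    (h : N ≤ (1 + 1 / 10 ^ 29) * (g * x)) :
    N / ((1 + 1 / 10 ^ 29) * (g * P)) ≤ x / P := by
  have h1 : (0 : ℝ) < (1 + 1 / 10 ^ 29) * (g * P) := by positivity
  rw [div_le_div_iff₀ h1 hP]
  calc N * P ≤ ((1 + 1 / 10 ^ 29) * (g * x)) * P := mul_le_mul_of_nonneg_right h hP.le
    _ = x * ((1 + 1 / 10 ^ 29) * (g * P)) := by ring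

private theorem fb_scale_lo {g P N x : ℝ} (hg : 0 < g) (hP : 0 < P) (hx : 0 ≤ x)
    (h : (1 - 1 / 10 ^ 29) * (g * x) ≤ N) :
    (1 - 2 / 10 ^ 29) * (x / P) ≤ N / ((1 + 1 / 10 ^ 29) * (g * P)) := by
  have h1 : (0 : ℝ) < (1 + 1 / 10 ^ 29) * (g * P) := by positivity
  rw [le_div_iff₀ h1]
  have h2 : (1 - 2 / 10 ^ 29) * (x / P) * ((1 + 1 / 10 ^ 29) * (g * P)) =
      ((1 - 2 / 10 ^ 29) * (1 + 1 / 10 ^ 29)) * (g * x) := by
    field_simp
  rw [h2]
  refine le_trans ?_ h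
  refine mul_le_mul_of_nonneg_right ?_ (by positivity)
  norm_num

private theorem fb_scale_2 {g P N x : ℝ} (hg : 0 < g) (hP : 0 < P) (hx : 0 ≤ x)
    (h : N ≤ 2 * (g * x)) :
    N / ((1 + 1 / 10 ^ 29) * (g * P)) ≤ 2 * (x / P) := by
  have h1 : (0 : ℝ) < (1 + 1 / 10 ^ 29) * (g * P) := by positivity
  rw [div_le_iff₀ h1]
  refine h.trans ?_
  have h2 : 2 * (x / P) * ((1 + 1 / 10 ^ 29) * (g * P)) =
      (1 + 1 / 10 ^ 29) * (2 * (g * x)) := by
    field_simp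
  rw [h2]
  have : 0 ≤ 2 * (g * x) := by positivity
  have h3 : (1 : ℝ) ≤ 1 + 1 / 10 ^ 29 := by norm_num
  calc 2 * (g * x) = 1 * (2 * (g * x)) := (one_mul _).symm
    _ ≤ (1 + 1 / 10 ^ 29) * (2 * (g * x)) := mul_le_mul_of_nonneg_right h3 this

/-- the numerical facts -/
private theorem fb_num {k c n P r : ℕ} {L w : ℝ} (hN : N3 k c n P r L w) :
    (1 : ℝ) ≤ P ∧ (1 : ℝ) ≤ k ∧ 0 ≤ (c : ℝ) ∧
    8 * 10 ^ 31 * L + 1 ≤ 1 / 10 ^ 100 * ((k : ℝ) / P) ∧
    (k : ℝ) / P ≤ k ∧ (k : ℝ) / P ≤ 1 / 10 ^ 30 * (((k : ℝ) + c) / P) ∧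
    (P : ℝ) ≤ (k : ℝ) + c ∧ (1 : ℝ) ≤ c ∧ 8 < (k : ℝ) + c := by
  have hL := hN.L1
  have hw1 := hN.w1
  have hwb : (10 : ℝ) ^ 200 * 2 ≤ w := by
    refine le_trans ?_ hw1
    have : (2 : ℝ) ≤ L + 1 := by linarith
    exact mul_le_mul_of_nonneg_left this (by positivity)
  have hw : (1 : ℝ) ≤ w := by
    refine le_trans ?_ hwb
    norm_num
  have hw0 : (0 : ℝ) < w := by linarith
  have hw2 : (2 : ℝ) ≤ w := by
    refine le_trans ?_ hwb
    norm_num
  have hwp : ∀ m : ℕ, 1 ≤ m → w ≤ w ^ m := fun m hm => le_self_pow₀ hw (by omega)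
  have hP1 : (1 : ℝ) ≤ P := by
    refine le_trans ?_ hN.P2
    have := hwp 100 (by norm_num)
    linarith
  have hP0 : (0 : ℝ) < P := by linarith
  have hk1 : (1 : ℝ) ≤ k := by
    refine le_trans ?_ hN.k1
    have := hwp 5000 (by norm_num)
    linarith
  have hc0 : (0 : ℝ) ≤ c := Nat.cast_nonneg _
  have hκ : w ≤ (k : ℝ) / P := by
    rw [le_div_iff₀ hP0]
    calc w * P ≤ w * w ^ 100 := mul_le_mul_of_nonneg_left hN.P1 hw0.le
      _ = w ^ 101 := by ring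
      _ ≤ w ^ 5000 := pow_le_pow_right₀ hw (by norm_num)
      _ ≤ k := hN.k1
  have hPv : (P : ℝ) ≤ (k : ℝ) + c := by
    rw [hN.vw]
    exact hN.P1.trans (pow_le_pow_right₀ hw (by norm_num))
  have hk2 := hN.k2
  have h30 : (10 : ℝ) ^ 30 * k ≤ (k : ℝ) + c := by
    have h1 : (10 : ℝ) ^ 30 * k ≤ 10 ^ 30 * (1 / 10 ^ 30 * ((k : ℝ) + c)) :=
      mul_le_mul_of_nonneg_left hk2 (by positivity)
    refine h1.trans (le_of_eq ?_)
    rw [← mul_assoc]
    norm_num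
  refine ⟨hP1, hk1, hc0, ?_, ?_, ?_, hPv, ?_, ?_⟩
  · have h1 : (1 : ℝ) / 10 ^ 100 * (10 ^ 200 * (L + 1)) ≤ 1 / 10 ^ 100 * ((k : ℝ) / P) :=
      mul_le_mul_of_nonneg_left (hw1.trans hκ) (by positivity)
    refine le_trans ?_ h1
    have h2 : (1 : ℝ) / 10 ^ 100 * (10 ^ 200 * (L + 1)) = 10 ^ 100 * (L + 1) := by
      rw [← mul_assoc]
      norm_num
    rw [h2]
    have h3 : (8 * 10 ^ 31 : ℝ) ≤ 10 ^ 100 := by norm_num
    have h4 : (1 : ℝ) ≤ 10 ^ 100 := by norm_num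
    have h5 : 8 * 10 ^ 31 * L ≤ 10 ^ 100 * L := mul_le_mul_of_nonneg_right h3 (by linarith)
    rw [mul_add, mul_one]
    exact add_le_add h5 h4
  · exact div_le_self (by linarith) hP1
  · rw [← mul_div_assoc]
    exact div_le_div_of_nonneg_right hk2 hP0.le
  · have : (2 : ℝ) ≤ 10 ^ 30 := by norm_num
    have h2 : 2 * (k : ℝ) ≤ 10 ^ 30 * k := mul_le_mul_of_nonneg_right this (by linarith)
    linarith
  · have : (9 : ℝ) ≤ 10 ^ 30 := by norm_num
    have h2 : 9 * (k : ℝ) ≤ 10 ^ 30 * k := mul_le_mul_of_nonneg_right this (by linarith)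
    linarith

private theorem fb_cnt {k c n P r : ℕ} {L w : ℝ} (hN : N3 k c n P r L w) :
    (((c : ℝ) + (c * k + k)) + 1) * (2 * P + 2) *
      (2 * Real.exp (-(1 / 10 ^ 31 * (8 * 10 ^ 31 * L)))) < 1 := by
  obtain ⟨hP1, hk1, hc0, -, -, -, hPv, hc1, hv8⟩ := fb_num hN
  set v : ℝ := (k : ℝ) + c with hv
  have hv0 : 0 < v := by linarith
  have h1 : ((c : ℝ) + (c * k + k)) + 1 ≤ v * v := by
    have : ((c : ℝ) + (c * k + k)) + 1 = (c + 1) * (k + 1) := by ring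
    rw [this]
    exact mul_le_mul (by linarith) (by linarith) (by linarith) hv0.le
  have h2 : 2 * (P : ℝ) + 2 ≤ 4 * v := by linarith
  have h3 : Real.exp (-(1 / 10 ^ 31 * (8 * 10 ^ 31 * L))) = 1 / v ^ 8 := by
    have h4 : (1 : ℝ) / 10 ^ 31 * (8 * 10 ^ 31 * L) = (8 : ℕ) * L := by
      push_cast
      ring
    rw [h4, Real.exp_neg, Real.exp_nat_mul, hN.eL, one_div]
  rw [h3]
  have h5 : (((c : ℝ) + (c * k + k)) + 1) * (2 * P + 2) ≤ (v * v) * (4 * v) :=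
    mul_le_mul h1 h2 (by linarith) (by positivity)
  calc (((c : ℝ) + (c * k + k)) + 1) * (2 * P + 2) * (2 * (1 / v ^ 8))
      ≤ ((v * v) * (4 * v)) * (2 * (1 / v ^ 8)) := mul_le_mul_of_nonneg_right h5 (by positivity)
    _ = 8 / v ^ 5 := by
      field_simp
      ring
    _ < 1 := by
      rw [div_lt_one (by positivity)]
      calc (8 : ℝ) < v := hv8
        _ ≤ v ^ 5 := le_self_pow₀ (by linarith) (by norm_num)

private theorem fb_s {k c n P r : ℕ} {L w : ℝ} (hN : N3 k c n P r L w) (s : ℕ)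
    (hs : s = ⌊(1 - 1 / 10 ^ 28) * (((k : ℝ) + c) / P)⌋₊) :
    (s : ℝ) ≤ (1 - 1 / 10 ^ 28) * (((k : ℝ) + c) / P) ∧
      (1 - 1 / 10 ^ 28) * (((k : ℝ) + c) / P) ≤ s + 1 := by
  have h0 : 0 ≤ (1 - 1 / 10 ^ 28) * (((k : ℝ) + c) / P) := by
    refine mul_nonneg (by norm_num) (by positivity)
  rw [hs]
  exact ⟨Nat.floor_le h0, (Nat.lt_floor_add_one _).le⟩

theorem fin_b {X Y B : Type} [Fintype X] [Fintype Y] [Fintype B] {A : X → B → Prop}
    {M : Y → B → Prop} {k c n P r : ℕ} {L w : ℝ} (hS : DSys A M k c n) (hN : N3 k c n P r L w)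
    (G : Finset X) (hub : Fin P → Finset X) (Ex : Finset Y) (g : ℝ)
    (hH : HubSys A M k c n G P r hub Ex g) (s : ℕ)
    (hs : s = ⌊(1 - 1 / 10 ^ 28) * (((k : ℝ) + c) / P)⌋₊) :
    ∃ pB : B → Option (Fin P), BFin A M k P s G hub Ex pB := by
  obtain ⟨hP1, hk1, hc0, ht, hκk, hκv, hPv, hc1, hv8⟩ := fb_num hN
  obtain ⟨hsu, hsl⟩ := fb_s hN s hs
  have hL := hN.L1
  have hP0 : (0 : ℝ) < P := by linarith
  have hgP0 : (0 : ℝ) < g * P := lt_of_lt_of_le (by positivity) hH.gP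
  have hg0 : 0 < g := by
    by_contra h
    have : g * P ≤ 0 := mul_nonpos_of_nonpos_of_nonneg (not_lt.1 h) hP0.le
    linarith
  have hq0 : (0 : ℝ) < (1 + 1 / 10 ^ 29) * (g * P) := by positivity
  set q : B → Fin P → ℝ := fun l a =>
    if gd A (hub a) l then 1 / ((1 + 1 / 10 ^ 29) * (g * P)) else 0 with hq
  have hsum : ∀ (S : Finset B) (a : Fin P), ∑ l ∈ S, q l a =
      ((S.filter fun l => gd A (hub a) l).card : ℝ) / ((1 + 1 / 10 ^ 29) * (g * P)) := by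
    intro S a
    simp only [hq]
    rw [← Finset.sum_filter, Finset.sum_const, nsmul_eq_mul]
    ring
  have hsumT : ∀ l : B, ∑ a, q l a =
      ((Finset.univ.filter fun a => gd A (hub a) l).card : ℝ) /
        ((1 + 1 / 10 ^ 29) * (g * P)) := by
    intro l
    simp only [hq]
    rw [← Finset.sum_filter, Finset.sum_const, nsmul_eq_mul]
    ring
  have hqn : ∀ l a, 0 ≤ q l a := by
    intro l a
    simp only [hq]
    split_ifs
    · positivity
    · exact le_rfl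
  have hq1 : ∀ l, ∑ a, q l a ≤ 1 := by
    intro l
    rw [hsumT, div_le_one hq0]
    exact hH.b2 l
  set t : ℝ := 8 * 10 ^ 31 * L with htdef
  have ht0 : 0 ≤ t := by positivity
  set κ : ℝ := (k : ℝ) / P with hκdef
  set μ0 : ℝ := ((k : ℝ) + c) / P with hμ0def
  have hκ0 : 0 ≤ κ := by positivity
  have hμ00 : 0 ≤ μ0 := by positivity
  -- the totals
  have hμ : ∀ a, (1 - 2 / 10 ^ 29) * μ0 ≤ ∑ l, q l a ∧ ∑ l, q l a ≤ μ0 := by
    intro a
    rw [hsum]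
    obtain ⟨h1, h2⟩ := hH.b5 a
    exact ⟨fb_scale_lo hg0 hP0 (by linarith) h1, fb_scale_up hg0 hP0 h2⟩
  have hcnt : ((Fintype.card (Y ⊕ (Y × X) ⊕ X) : ℝ) + 1) * (2 * P + 2) *
      (2 * Real.exp (-(1 / 10 ^ 31 * t))) < 1 := by
    have h1 : (Fintype.card (Y ⊕ (Y × X) ⊕ X) : ℝ) = (c : ℝ) + (c * k + k) := by
      rw [Fintype.card_sum, Fintype.card_sum, Fintype.card_prod, hS.cR, hS.cC]
      push_cast
      ring
    rw [h1]
    exact fb_cnt hN
  obtain ⟨p, hp1, hp2, hp3⟩ := side P s q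
    (fun j : Y ⊕ (Y × X) ⊕ X => Sum.elim (fun y => Finset.univ.filter fun l => M y l)
      (Sum.elim (fun yx => Finset.univ.filter fun l => M yx.1 l ∧ ¬ A yx.2 l)
        (fun x => Finset.univ.filter fun l => ¬ A x l)) j)
    (4 / 10 ^ 28) (1 / 10 ^ 31) t hqn hq1 (by norm_num) (by norm_num) (by norm_num)
    (by norm_num) hcnt
    (by
      intro a
      obtain ⟨h1, h2⟩ := hμ a
      linarith)
    (by
      intro a
      obtain ⟨h1, h2⟩ := hμ a
      linarith)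
  refine ⟨p, ⟨hp1, ?_, ?_, ?_, ?_, ?_, ?_⟩⟩
  · -- hubA
    intro l a hla x hx
    have h1 := hp2 l a hla
    simp only [hq] at h1
    split_ifs at h1 with h2
    · exact h2 x hx
    · exact absurd h1 (lt_irrefl _)
  · -- wY
    intro y
    have h1 := (hp3 (Sum.inl y)).2
    simp only [Sum.elim_inl] at h1
    rw [Finset.filter_filter] at h1
    refine h1.trans ?_
    rw [Finset.sum_sub_distrib, Finset.sum_const, nsmul_eq_mul, mul_one, hS.degC y]
    have h2 := hH.b3 y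
    have h3 : ∑ l ∈ Finset.univ.filter (fun l => M y l), ∑ a, q l a =
        (∑ l ∈ Finset.univ.filter (fun l => M y l),
          ((Finset.univ.filter fun a => gd A (hub a) l).card : ℝ)) /
            ((1 + 1 / 10 ^ 29) * (g * P)) := by
      rw [Finset.sum_div]
      exact Finset.sum_congr rfl fun l _ => hsumT l
    have h4 : (1 - 2 / 10 ^ 29) * (k : ℝ) ≤
        ∑ l ∈ Finset.univ.filter (fun l => M y l), ∑ a, q l a := by
      rw [h3, le_div_iff₀ hq0]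
      refine le_trans ?_ h2
      have h5 : (1 - 2 / 10 ^ 29) * (k : ℝ) * ((1 + 1 / 10 ^ 29) * (g * P)) =
          ((1 - 2 / 10 ^ 29) * (1 + 1 / 10 ^ 29)) * (g * P * k) := by ring
      rw [h5]
      refine mul_le_mul_of_nonneg_right ?_ (by positivity)
      norm_num
    linarith
  · -- upY
    intro y a
    have h1 := ((hp3 (Sum.inl y)).1 a).1
    simp only [Sum.elim_inl] at h1
    rw [Finset.filter_filter] at h1
    refine h1.trans ?_
    rw [hsum]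
    have h2 : (((Finset.univ.filter fun l => M y l).filter fun l => gd A (hub a) l).card : ℝ) ≤
        k := by
      have := Finset.card_filter_le (Finset.univ.filter fun l => M y l)
        (fun l => gd A (hub a) l)
      rw [hS.degC y] at this
      exact_mod_cast this
    have h3 : (((Finset.univ.filter fun l => M y l).filter fun l => gd A (hub a) l).card : ℝ) /
        ((1 + 1 / 10 ^ 29) * (g * P)) ≤ 1 / 10 ^ 60 * k := by
      rw [div_le_iff₀ hq0]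
      refine h2.trans ?_
      have h4 : (10 : ℝ) ^ 60 ≤ (1 + 1 / 10 ^ 29) * (g * P) := by
        have := hH.gP
        have h5 : (0 : ℝ) ≤ 1 / 10 ^ 29 * (g * P) := by positivity
        linarith
      calc (k : ℝ) = 1 / 10 ^ 60 * k * 10 ^ 60 := by ring
        _ ≤ 1 / 10 ^ 60 * k * ((1 + 1 / 10 ^ 29) * (g * P)) :=
          mul_le_mul_of_nonneg_left h4 (by positivity)
    linarith
  · -- inY
    intro y hy a
    have h1 := (hp3 (Sum.inl y)).1 a
    simp only [Sum.elim_inl] at h1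
    rw [Finset.filter_filter, hsum, Finset.filter_filter] at h1
    obtain ⟨h2, h3⟩ := hH.b1 y hy a
    have h4 := fb_scale_lo hg0 hP0 (by linarith) h2
    have h5 := fb_scale_up hg0 hP0 h3
    obtain ⟨h6, h7⟩ := h1
    rw [← hκdef] at h4 h5
    rw [abs_le]
    constructor <;> linarith
  · -- pair
    intro y hy x hx a
    have h1 := ((hp3 (Sum.inr (Sum.inl (y, x)))).1 a).1
    simp only [Sum.elim_inl, Sum.elim_inr] at h1
    rw [Finset.filter_filter, hsum, Finset.filter_filter] at h1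
    have h0 : (Finset.univ.filter fun l => M y l ∧ p l = some a ∧ ¬ A x l) =
        (Finset.univ.filter fun l => (M y l ∧ ¬ A x l) ∧ p l = some a) := by
      refine Finset.filter_congr fun l _ => ?_
      tauto
    rw [h0]
    refine h1.trans ?_
    have hn1 := hN.n1
    have hn2 := hN.n2
    have h2 := fb_scale_2 hg0 hP0 (by linarith) (hH.b4 y hy x hx a)
    have h3 : ((k : ℝ) - n) / P ≤ 1 / 10 ^ 30 * κ := by
      rw [hκdef, ← mul_div_assoc]
      exact div_le_div_of_nonneg_right hn2 hP0.le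
    linarith
  · -- hit
    intro x hx a
    have h1 := ((hp3 (Sum.inr (Sum.inr x))).1 a).1
    simp only [Sum.elim_inr] at h1
    rw [Finset.filter_filter, hsum, Finset.filter_filter] at h1
    have h0 : (Finset.univ.filter fun l => p l = some a ∧ ¬ A x l) =
        (Finset.univ.filter fun l => ¬ A x l ∧ p l = some a) := by
      refine Finset.filter_congr fun l _ => ?_
      tauto
    rw [h0]
    refine h1.trans ?_
    have h2 := fb_scale_2 hg0 hP0 (by linarith) (hH.b6 x hx a)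
    rw [← hκdef] at h2
    linarith

end Pool.Agent.Lib.TriS
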