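import Pool.Agent.Lib.TriS.SRel
import Pool.Agent.Lib.TriS.SSide

/-!
MODULE SFinY (about 200 lines). The parts of the points `y`.

PROOF. `side` with `E = Y`, `J = B`, `S l = {y | M y l}`, `q y a = if y ∈ Ex then 0 else 1/P`, `σ = 4/10^28`, `z = 1/10^31`, `t = 8·10^31 L` (so `z t = 8 L`),
`s` as in the hypothesis `hs`. Put `v = k + c = exp L = w^10000`, `κ = k/P`. Facts: `P ≥ w^100/2 ≥ 10^60`, `w ≥ 10^200 (L+1)`, `k/P ≥ w^5000/w^100 ≥ w`, so `t ≤ 10^(-100) κ` and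
`t + 1 ≤ 10^(-100) v/P`.
* `∑ a, q y a ∈ {0, 1}`. `hcnt`: `(card B + 1)(2P+2) 2 exp (-8L) ≤ exp L · 4 exp L · 2 exp (-8L) < 1` (`P ≤ w^100 ≤ w^10000 = exp L`, `2P + 2 ≤ 4 exp L`).
* `∑ y, q y a = (c - |Ex|)/P =: μ`, `(1 - 2·10^(-30)) v/P ≤ μ ≤ v/P` (`c = v - k ≥ (1 - 10^(-30)) v`, `|Ex| ≤ 10^(-29) k`).
  `hs1`: `s ≤ (1 - 10^(-28)) v/P ≤ (1-z) μ - t`. `hs2`: `s > (1-10^(-28)) v/P - 1`, so the left side is `≤ 1.01·10^(-28) v/P + t + 1 ≤ 3.9·10^(-28) v/P ≤ (1-z) σ μ - t`.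
* `ex`: `0 < q y a` means `y ∉ Ex`.
* `inB`: `μ_l = ∑_{y ∈ S l} q y a = (n - |Ex ∩ S l|)/P` (`hS.degSC`), `(1 - 1.1·10^(-29)) κ ≤ μ_l ≤ κ` (`N3.n1`, `N3.n2`). Upper: `(1+z) μ_l + t ≤ (1 + 10^(-27)) κ`. Lower:
  `(1 - z - (1+z) σ) μ_l - 2t ≥ (1 - 4.1·10^(-28))(1 - 1.1·10^(-29)) κ - 2 t ≥ (1 - 10^(-27)) κ`.
* `wB`: `∑_{y ∈ S l} (1 - ∑ a, q y a) = |Ex ∩ S l| ≤ 10^(-29) k`, `|S l| = n ≤ k`: total `≤ 1.01·10^(-29) k + 4.01·10^(-28) k + 2 t ≤ 10^(-27) k`.
-/

set_option autoImplicit false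

open scoped Classical

noncomputable section

namespace Pool.Agent.Lib.TriS

open Pool.Agent.Lib.TriD

theorem fin_y {X Y B : Type} [Fintype X] [Fintype Y] [Fintype B] {A : X → B → Prop}
    {M : Y → B → Prop} {k c n P r : ℕ} {L w : ℝ} (hS : DSys A M k c n) (hN : N3 k c n P r L w)
    (Ex : Finset Y) (hEx : (Ex.card : ℝ) ≤ 1 / 10 ^ 29 * k) (s : ℕ)
    (hs : s = ⌊(1 - 1 / 10 ^ 28) * (((k : ℝ) + c) / P)⌋₊) :
    ∃ pY : Y → Option (Fin P), YFin M k P s Ex pY := by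
  have hL1 := hN.L1
  have hw1 := hN.w1
  have hw0 : (1 : ℝ) ≤ w := by
    have h : (1 : ℝ) ≤ 10 ^ 200 * (L + 1) := by
      have h1 : (1 : ℝ) ≤ 10 ^ 200 := by norm_num
      nlinarith
    linarith
  have hwpow : ∀ a b : ℕ, a ≤ b → w ^ a ≤ w ^ b := fun a b h => pow_le_pow_right₀ hw0 h
  have hPpos : (0 : ℝ) < P := lt_of_lt_of_le (by positivity) hN.P2
  obtain ⟨κ, hκ⟩ : ∃ κ : ℝ, κ = (k : ℝ) / P := ⟨_, rfl⟩
  obtain ⟨u, hu⟩ : ∃ u : ℝ, u = ((k : ℝ) + c) / P := ⟨_, rfl⟩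
  have hκw : w ≤ κ := by
    rw [hκ, le_div_iff₀ hPpos]
    calc w * P ≤ w * w ^ 100 := mul_le_mul_of_nonneg_left hN.P1 (by linarith)
      _ = w ^ 101 := by ring
      _ ≤ w ^ 5000 := hwpow _ _ (by norm_num)
      _ ≤ k := hN.k1
  obtain ⟨t, ht⟩ : ∃ t : ℝ, t = 8 * 10 ^ 31 * L := ⟨_, rfl⟩
  have ht0 : 0 ≤ t := by rw [ht]; positivity
  have ht1 : 10 ^ 100 * (t + 1) ≤ κ := by
    rw [ht]
    have h1 : (10 : ℝ) ^ 100 * (8 * 10 ^ 31 * L + 1) ≤ 10 ^ 200 * (L + 1) := by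
      norm_num
      linarith
    linarith
  have hκ0 : 0 ≤ κ := by linarith
  have hκk : κ ≤ k := by
    rw [hκ]
    refine div_le_self (Nat.cast_nonneg _) ?_
    have h1 : w ≤ w ^ 100 := by simpa using hwpow 1 100 (by norm_num)
    have h2 := hN.P2
    have h3 : (1 : ℝ) ≤ w ^ 100 / 2 := by
      have h4 : (2 : ℝ) ≤ 10 ^ 200 * (L + 1) := by
        norm_num
        linarith
      linarith
    linarith
  have hκu : κ ≤ 1 / 10 ^ 30 * u := by
    rw [hκ, hu, ← mul_div_assoc]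
    exact div_le_div_of_nonneg_right hN.k2 hPpos.le
  obtain ⟨cP, hcP⟩ : ∃ x : ℝ, x = (c : ℝ) / P := ⟨_, rfl⟩
  have huc : u = κ + cP := by rw [hu, hκ, hcP, add_div]
  -- the weights
  obtain ⟨q, hqd⟩ : ∃ q : Y → Fin P → ℝ, q = fun y _ => if y ∈ Ex then (0 : ℝ) else 1 / P :=
    ⟨_, rfl⟩
  have hqs : ∀ (S : Finset Y) (a : Fin P), ∑ y ∈ S, q y a =
      (S.card : ℝ) / P - ((S.filter fun y => y ∈ Ex).card : ℝ) / P := by
    intro S a
    have h1 : ((S.filter fun y => y ∈ Ex).card : ℝ) + ((S.filter fun y => y ∉ Ex).card : ℝ) =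
        S.card := by
      rw [← Nat.cast_add, Finset.card_filter_add_card_filter_not]
    rw [hqd]
    simp only
    rw [Finset.sum_ite, Finset.sum_const_zero, zero_add, Finset.sum_const, nsmul_eq_mul, ← h1]
    ring
  have hqa : ∀ y, ∑ a, q y a = if y ∈ Ex then (0 : ℝ) else 1 := by
    intro y
    rw [hqd]
    simp only
    split_ifs with h
    · simp
    · rw [Finset.sum_const, Finset.card_univ, Fintype.card_fin, nsmul_eq_mul]
      field_simp
  have hEx0 : (0 : ℝ) ≤ Ex.card := Nat.cast_nonneg _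
  have hfe : ∀ S : Finset Y, ((S.filter fun y => y ∈ Ex).card : ℝ) ≤ Ex.card := fun S => by
    refine Nat.cast_le.2 (Finset.card_le_card fun y hy => ?_)
    exact (Finset.mem_filter.1 hy).2
  have heP : (Ex.card : ℝ) / P ≤ 1 / 10 ^ 29 * κ := by
    rw [hκ, ← mul_div_assoc]
    exact div_le_div_of_nonneg_right hEx hPpos.le
  have hfeP : ∀ S : Finset Y, 0 ≤ ((S.filter fun y => y ∈ Ex).card : ℝ) / P ∧
      ((S.filter fun y => y ∈ Ex).card : ℝ) / P ≤ 1 / 10 ^ 29 * κ := fun S =>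
    ⟨by positivity, (div_le_div_of_nonneg_right (hfe S) hPpos.le).trans heP⟩
  have hs' : (s : ℝ) ≤ (1 - 1 / 10 ^ 28) * u ∧ (1 - 1 / 10 ^ 28) * u < s + 1 := by
    rw [hs, ← hu]
    refine ⟨Nat.floor_le ?_, Nat.lt_floor_add_one _⟩
    have hu0 : 0 ≤ u := by rw [hu]; positivity
    exact mul_nonneg (by norm_num) hu0
  have hmu : ∀ a, ∑ y, q y a = cP - ((Finset.univ.filter fun y => y ∈ Ex).card : ℝ) / P := by
    intro a
    rw [hqs, Finset.card_univ, hS.cC, hcP]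
  have hexp : ((Fintype.card B : ℝ) + 1) = Real.exp L := by
    rw [hN.eL, ← Nat.cast_add, ← hS.cS, Nat.cast_add, Nat.cast_one]
  have hPexp : (P : ℝ) ≤ Real.exp L := by
    rw [hN.eL, hN.vw]
    exact hN.P1.trans (hwpow _ _ (by norm_num))
  obtain ⟨p, hp1, hp2, hp3⟩ := side P s q (fun l : B => Finset.univ.filter fun y => M y l)
    (4 / 10 ^ 28) (1 / 10 ^ 31) t
    (by
      intro y a
      rw [hqd]
      simp only
      split_ifs
      · exact le_rfl
      · positivity)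
    (by
      intro y
      rw [hqa]
      split_ifs <;> norm_num)
    (by norm_num) (by norm_num) (by norm_num) (by norm_num)
    (by
      have h1 : 1 / 10 ^ 31 * t = 8 * L := by
        rw [ht]
        ring
      rw [hexp, h1]
      have hE : 1 ≤ Real.exp L := by
        have := Real.add_one_le_exp L
        linarith
      have h2 : (2 * (P : ℝ) + 2) ≤ 4 * Real.exp L := by linarith
      have h3 : Real.exp L * (2 * (P : ℝ) + 2) * (2 * Real.exp (-(8 * L))) ≤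
          Real.exp L * (4 * Real.exp L) * (2 * Real.exp (-(8 * L))) := by
        refine mul_le_mul_of_nonneg_right (mul_le_mul_of_nonneg_left h2 (by positivity))
          (by positivity)
      have h4 : Real.exp L * (4 * Real.exp L) * (2 * Real.exp (-(8 * L))) =
          8 * Real.exp (-(6 * L)) := by
        have h5 : Real.exp (-(6 * L)) = Real.exp L * Real.exp L * Real.exp (-(8 * L)) := by
          rw [← Real.exp_add, ← Real.exp_add]
          congr 1
          ring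
        rw [h5]
        ring
      rw [h4] at h3
      refine lt_of_le_of_lt h3 ?_
      rw [Real.exp_neg, ← div_eq_mul_inv, div_lt_one (Real.exp_pos _)]
      have h6 : Real.exp (6 * L) = Real.exp (3 * L) * Real.exp (3 * L) := by
        rw [← Real.exp_add]
        congr 1
        ring
      have h7 : 4 ≤ Real.exp (3 * L) := by
        have := Real.add_one_le_exp (3 * L)
        linarith
      rw [h6]
      nlinarith)
    (by
      intro a
      rw [hmu a]
      obtain ⟨h1, h2⟩ := hfeP Finset.univ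
      obtain ⟨h3, h4⟩ := hs'
      norm_num at h1 h2 h3 h4 ht1 hκu ⊢
      linarith)
    (by
      intro a
      rw [hmu a]
      obtain ⟨h1, h2⟩ := hfeP Finset.univ
      obtain ⟨h3, h4⟩ := hs'
      norm_num at h1 h2 h3 h4 ht1 hκu ⊢
      linarith)
  have hnP : (n : ℝ) / P ≤ κ ∧ (1 - 1 / 10 ^ 30) * κ ≤ (n : ℝ) / P := by
    constructor
    · rw [hκ]
      exact div_le_div_of_nonneg_right hN.n1 hPpos.le
    · rw [hκ, ← mul_div_assoc]
      refine div_le_div_of_nonneg_right ?_ hPpos.le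
      have := hN.n2
      linarith
  have hSl : ∀ l, ((Finset.univ.filter fun y => M y l).card : ℝ) = n := fun l => by
    rw [hS.degSC l]
  have hff : ∀ (l : B) (x : Option (Fin P)), (Finset.univ.filter fun y => M y l ∧ p y = x) =
      (Finset.univ.filter fun y => M y l).filter fun y => p y = x := fun l x => by
    rw [Finset.filter_filter]
  refine ⟨p, hp1, fun y a hya hy => ?_, fun l => ?_, fun l a => ?_⟩
  · have h := hp2 y a hya
    rw [hqd] at h
    simp only [if_pos hy] at h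
    exact lt_irrefl _ h
  · have h := (hp3 l).2
    rw [hff]
    have h1 : ∑ y ∈ Finset.univ.filter (fun y => M y l), (1 - ∑ a, q y a) =
        (((Finset.univ.filter fun y => M y l).filter fun y => y ∈ Ex).card : ℝ) := by
      rw [Finset.card_filter, Nat.cast_sum]
      refine Finset.sum_congr rfl fun y _ => ?_
      rw [hqa]
      split_ifs <;> simp
    rw [h1, hSl l] at h
    have h2 := (hfe (Finset.univ.filter fun y => M y l)).trans hEx
    have h3 := hN.n1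
    refine h.trans ?_
    norm_num at h2 ht1 ⊢
    linarith
  · obtain ⟨h1, h2⟩ := (hp3 l).1 a
    rw [hff]
    rw [hqs, hSl l] at h1 h2
    obtain ⟨h3, h4⟩ := hfeP (Finset.univ.filter fun y => M y l)
    obtain ⟨h5, h6⟩ := hnP
    rw [← hκ, abs_le]
    norm_num at h1 h2 h3 h4 h5 h6 ht1 ⊢
    constructor <;> linarith

end Pool.Agent.Lib.TriS
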