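import Pool.Agent.Lib.TriS.SRel
import Pool.Agent.Lib.TriS.Label

/-!
MODULE SGset (about 150 lines). The set `G` of colours (3.0 of the paper).

PROOF. `label` (Label.lean) with `E = X`, `Λ = Bool`, `p x true = q`, `p x false = 1 - q`, `q = w^1000 / k` (`0 ≤ q ≤ 1` because
`k ≥ w^5000 ≥ w^1000`), `z = 1/2`, all `t = 8 L`, tests indexed by `Option B`: `T none = {(x, true)}` (all `x`), and
`T (some l) = {(x, true) | ¬ A x l}`. Means: `muL p (T none) = k q = w^1000`, `muL p (T (some l)) = (k - n) q = (k - n) w^1000 / k ≤ 10^(-30) w^1000`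
(`dsys_notA_b`, `N3.n2`). Number of tests `Fintype.card B + 1 = k + c = exp L`: `∑ 2 exp (-(8L)/2) = 2 exp L exp (-4 L) < 1` (`L ≥ 1`).
`G = {x | f x = true}`: `w^1000/2 - 8 L ≤ |G| ≤ (3/2) w^1000 + 8 L`, and `8 L ≤ 8 w / 10^200 ≤ w^1000 / 10^100`: so
`w^1000/4 ≤ |G| ≤ 2 w^1000`. `#{x ∈ G | ¬ A x l} ≤ (3/2) 10^(-30) w^1000 + 8 L ≤ 2·10^(-30) w^1000 ≤ 10^(-27) · w^1000/4 ≤ 10^(-27) |G|`.
-/

set_option autoImplicit false

open scoped Classical

noncomputable section

namespace Pool.Agent.Lib.TriS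

open Pool.Agent.Lib.TriD

private theorem SGset_mu {X : Type} [Fintype X] (q : ℝ) (T : Finset (X × Bool)) (W : X → Prop)
    (D : Finset X) (hT : ∀ e, e ∈ T ↔ e.2 = true ∧ W e.1) (hD : ∀ x, x ∈ D ↔ W x) :
    muL (fun (_ : X) (b : Bool) => if b = true then q else 1 - q) T = (D.card : ℝ) * q := by
  have hT' : T = Finset.univ.filter fun e : X × Bool => e.2 = true ∧ W e.1 := by
    ext e
    simp [hT]
  have hD' : D = Finset.univ.filter W := by
    ext x
    simp [hD]
  rw [hT', hD']
  unfold muL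
  rw [Finset.sum_filter, Fintype.sum_prod_type]
  have h1 : ∀ x : X, ∑ b : Bool, (if (x, b).2 = true ∧ W (x, b).1 then
      (if (x, b).2 = true then q else 1 - q) else 0) = if W x then q else 0 := by
    intro x
    rw [Fintype.sum_bool]
    by_cases h : W x
    · simp [h]
    · simp [h]
  rw [Finset.sum_congr rfl fun x _ => h1 x, ← Finset.sum_filter, Finset.sum_const, nsmul_eq_mul]

private theorem SGset_cnt {X : Type} [Fintype X] (f : X → Bool) (T : Finset (X × Bool))
    (D : Finset X) (hT : ∀ x, (x, f x) ∈ T ↔ x ∈ D) : cntL f T = D.card := by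
  unfold cntL
  congr 1
  ext x
  simp [hT]

private theorem SGset_exp {L : ℝ} (hL : 1 ≤ L) :
    Real.exp L * (2 * Real.exp (-(1 / 2 * (8 * L)))) < 1 := by
  have h1 : Real.exp L * (2 * Real.exp (-(1 / 2 * (8 * L)))) = 2 * Real.exp (-(3 * L)) := by
    have : Real.exp L * Real.exp (-(1 / 2 * (8 * L))) = Real.exp (-(3 * L)) := by
      rw [← Real.exp_add]
      congr 1
      ring
    rw [← this]
    ring
  rw [h1, Real.exp_neg]
  have h2 : 3 * L + 1 ≤ Real.exp (3 * L) := Real.add_one_le_exp _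
  have h3 : (4 : ℝ) ≤ Real.exp (3 * L) := by linarith
  have h4 : (Real.exp (3 * L))⁻¹ ≤ 4⁻¹ := inv_anti₀ (by norm_num) h3
  linarith

theorem gset {X Y B : Type} [Fintype X] [Fintype Y] [Fintype B] {A : X → B → Prop}
    {M : Y → B → Prop} {k c n P r : ℕ} {L w : ℝ} (hS : DSys A M k c n) (hN : N3 k c n P r L w) :
    ∃ G : Finset X, w ^ 1000 / 4 ≤ (G.card : ℝ) ∧ (G.card : ℝ) ≤ 2 * w ^ 1000 ∧
      ∀ l, ((G.filter fun x => ¬ A x l).card : ℝ) ≤ 1 / 10 ^ 27 * G.card := by
  have hL1 := hN.L1
  have hw := hN.w1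
  have hw1 : 1 ≤ w := by
    have h1 : (1 : ℝ) ≤ (10 : ℝ) ^ 200 := one_le_pow₀ (by norm_num)
    have h2 : (10 : ℝ) ^ 200 * 1 ≤ (10 : ℝ) ^ 200 * (L + 1) :=
      mul_le_mul_of_nonneg_left (by linarith) (by positivity)
    linarith
  set W : ℝ := w ^ 1000 with hW
  have hwW : w ≤ W := le_self_pow₀ hw1 (by norm_num)
  have hW1 : 1 ≤ W := one_le_pow₀ hw1
  have hW5 : W ≤ w ^ 5000 := pow_le_pow_right₀ hw1 (by norm_num)
  have hWk : W ≤ k := hW5.trans hN.k1
  have hk0 : (0 : ℝ) < k := by linarith
  have h8 : 8 * L ≤ 1 / 10 ^ 100 * W := by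
    have h1 : (10 : ℝ) ^ 200 * L ≤ W := by
      have : (10 : ℝ) ^ 200 * L ≤ (10 : ℝ) ^ 200 * (L + 1) :=
        mul_le_mul_of_nonneg_left (by linarith) (by positivity)
      linarith
    have h2 : (10 : ℝ) ^ 100 * (8 * L) ≤ (10 : ℝ) ^ 200 * L := by
      have h3 : (10 : ℝ) ^ 100 * 8 ≤ (10 : ℝ) ^ 200 := by norm_num
      have := mul_le_mul_of_nonneg_right h3 (by linarith : 0 ≤ L)
      linarith
    rw [div_mul_eq_mul_div, one_mul, le_div_iff₀ (by positivity)]
    linarith
  have hc100 : (1 : ℝ) / 10 ^ 100 ≤ 1 / 10 ^ 31 := by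
    apply one_div_le_one_div_of_le (by positivity)
    exact pow_le_pow_right₀ (by norm_num) (by norm_num)
  have h8' : 8 * L ≤ 1 / 10 ^ 31 * W :=
    h8.trans (mul_le_mul_of_nonneg_right hc100 (by linarith))
  set q : ℝ := W / k with hq
  have hq0 : 0 ≤ q := by positivity
  have hq1 : q ≤ 1 := by
    rw [hq, div_le_one hk0]
    exact hWk
  have hkq : (k : ℝ) * q = W := by
    rw [hq]
    field_simp
  let Tt : Option B → Finset (X × Bool) := fun o =>
    Finset.univ.filter fun e : X × Bool => e.2 = true ∧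
      (match o with
        | none => True
        | some l => ¬ A e.1 l)
  have hlab := label (E := X) (Λ := Bool) (ι := Option B)
    (fun (_ : X) (b : Bool) => if b = true then q else 1 - q)
    (by
      intro e a
      by_cases h : a = true
      · simp only [h, if_true]
        exact hq0
      · simp only [h]
        simp only [Bool.false_eq_true, if_false]
        linarith)
    (by
      intro e
      rw [Fintype.sum_bool]
      simp)
    Finset.univ Tt (1 / 2) (by norm_num) (by norm_num) (fun _ => 8 * L)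
    (by
      rw [Finset.sum_const, Finset.card_univ, Fintype.card_option, nsmul_eq_mul]
      have h1 : ((Fintype.card B + 1 : ℕ) : ℝ) = Real.exp L := by
        rw [hS.cS, hN.eL]
        push_cast
        rfl
      rw [h1]
      exact SGset_exp hL1)
  obtain ⟨f, hf⟩ := hlab
  refine ⟨Finset.univ.filter fun x => f x = true, ?_⟩
  have hnone := hf none (Finset.mem_univ _)
  have hmuN : muL (fun (_ : X) (b : Bool) => if b = true then q else 1 - q) (Tt none) = W := by
    rw [SGset_mu (X := X) q (Tt none) (fun _ => True) Finset.univ (by intro e; simp [Tt])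
      (by intro x; simp), Finset.card_univ, hS.cR, hkq]
  have hcntN : cntL f (Tt none) = (Finset.univ.filter fun x => f x = true).card := by
    exact SGset_cnt (X := X) f (Tt none) _ (by intro x; simp [Tt])
  rw [hmuN, hcntN] at hnone
  have hG1 : W / 4 ≤ ((Finset.univ.filter fun x => f x = true).card : ℝ) := by
    have := hnone.1
    linarith
  refine ⟨hG1, ?_, ?_⟩
  · have := hnone.2
    linarith
  · intro l
    have hl := (hf (some l) (Finset.mem_univ _)).2
    have hmuL : muL (fun (_ : X) (b : Bool) => if b = true then q else 1 - q) (Tt (some l)) =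
        ((k : ℝ) - n) * q := by
      have h2 : ((Finset.univ.filter fun x => ¬ A x l).card : ℝ) = (k : ℝ) - n := by
        have h3 := dsys_notA_b hS l
        have h4 : (((Finset.univ.filter fun x => ¬ A x l).card + n : ℕ) : ℝ) = k := by
          rw [h3]
        push_cast at h4
        linarith
      rw [SGset_mu (X := X) q (Tt (some l)) (fun x => ¬ A x l)
        (Finset.univ.filter fun x => ¬ A x l) (by intro e; simp [Tt]) (by intro x; simp), h2]
    have hcntL : cntL f (Tt (some l)) =
        ((Finset.univ.filter fun x => f x = true).filter fun x => ¬ A x l).card := by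
      exact SGset_cnt (X := X) f (Tt (some l)) _ (by intro x; simp [Tt])
    rw [hmuL, hcntL] at hl
    have h2 : ((k : ℝ) - n) * q ≤ 1 / 10 ^ 30 * W := by
      have h3 := mul_le_mul_of_nonneg_right hN.n2 hq0
      have h4 : 1 / 10 ^ 30 * (k : ℝ) * q = 1 / 10 ^ 30 * W := by
        rw [mul_assoc, hkq]
      linarith
    have h5 : 1 / 10 ^ 27 * (W / 4) ≤
        1 / 10 ^ 27 * ((Finset.univ.filter fun x => f x = true).card : ℝ) :=
      mul_le_mul_of_nonneg_left hG1 (by positivity)
    refine le_trans hl (le_trans ?_ h5)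
    linarith

end Pool.Agent.Lib.TriS
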