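import Pool.Agent.Lib.TriS.S3Defs

/-!
MODULE SHubB (about 200 lines). From the chosen candidates to `HubSys` (dense case), `g = (n/k)^r`.

PROOF. Put `hub a = Finset.univ.image (f a)`, so `gd A (hub a) l ↔ ∀ i, A (f a i) l`, and the filters `{l | Q l ∧ gd A (hub a) l}` have
`zc A {l | Q l} (f a)` elements (`Finset.filter_filter`). All summands of `badw` and `coll` are `≥ 0` (`10^29/k ≥ 0`), so from
`∑ a, badw (f a) + coll f < 1` every 0/1 summand with coefficient 1 vanishes: no `bad5 (f a)`, no `bad6 x (f a)` (`x ∈ G`), no `f a i ∈ G`, and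
`f a i ≠ f b j` for `(a,i) ≠ (b,j)` (`Finset.single_le_sum`). Hence `hubc` (injective: `Finset.card_image_of_injective`), `hubd`, `hubG`, `b5`, `b6`.
`Ex = {y | ∃ a, bad1 y (f a) ∨ ∃ x ∈ G, bad4 y x (f a)}`: `|Ex| ≤ ∑ a (∑_y [bad1 y (f a)] + ∑_y ∑_{x ∈ G} [bad4 y x (f a)])` and
`10^29/k` times this sum is `< 1`, so `|Ex| ≤ k/10^29`. `b1`, `b4` hold for `y ∉ Ex` by definition. `b2`: second part of `hf`. `b3`: exchange nothing: every `l`
has at least `(1-ζ) g P` good `a`, and there are `k` blocks with `M y l` (`hS.degC`). `g1`: `n ≤ k` (`N3.n1`). `gP`: `1 ≤ w^50 g`, `P ≥ w^100/2`, so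
`g P ≥ w^50/2 ≥ 10^60` (`w ≥ 10^200`).
-/

set_option autoImplicit false

open scoped Classical

noncomputable section

namespace Pool.Agent.Lib.TriS

open Pool.Agent.Lib.TriD

private lemma hubB_ite_nonneg (p : Prop) [Decidable p] :
    (0 : ℝ) ≤ (if p then (1 : ℝ) else 0) := by
  split_ifs <;> norm_num

theorem hub_b {X Y B : Type} [Fintype X] [Fintype Y] [Fintype B] {A : X → B → Prop}
    {M : Y → B → Prop} {k c n P r : ℕ} {L w : ℝ} (hS : DSys A M k c n)
    (hN : N3 k c n P r L w) (G : Finset X) (f : Fin P → (Fin r → X))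
    (hf1 : ∑ a, badw A M k c n G (((n : ℝ) / k) ^ r) (f a) + coll f < 1)
    (hf2 : ∀ l : B, (1 - 1 / 10 ^ 29) * (((n : ℝ) / k) ^ r * P) ≤
          ((Finset.univ.filter fun a => ∀ i, A (f a i) l).card : ℝ) ∧
        ((Finset.univ.filter fun a => ∀ i, A (f a i) l).card : ℝ) ≤
          (1 + 1 / 10 ^ 29) * (((n : ℝ) / k) ^ r * P)) :
    ∃ (hub : Fin P → Finset X) (Ex : Finset Y) (g : ℝ), HubSys A M k c n G P r hub Ex g := by
  set g : ℝ := ((n : ℝ) / k) ^ r with hg
  have hw200 : (10 : ℝ) ^ 200 ≤ w := by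
    have h1 := hN.w1
    have h2 := hN.L1
    nlinarith [show (0 : ℝ) < 10 ^ 200 by positivity]
  have hw1 : (1 : ℝ) ≤ w := le_trans (by norm_num) hw200
  have hk0 : (0 : ℝ) < k := by
    have h1 := hN.k1
    have h2 : (1 : ℝ) ≤ w ^ 5000 := one_le_pow₀ hw1
    linarith
  have hg0 : 0 ≤ g := by positivity
  have hcoef : (0 : ℝ) ≤ 10 ^ 29 / k := by positivity
  -- the summands
  have hS6 : ∀ a, (0 : ℝ) ≤ ∑ x ∈ G, (if bad6 A k g x (f a) then (1 : ℝ) else 0) := fun a =>
    Finset.sum_nonneg fun x _ => hubB_ite_nonneg _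
  have hSG : ∀ a, (0 : ℝ) ≤ ∑ i, (if f a i ∈ G then (1 : ℝ) else 0) := fun a =>
    Finset.sum_nonneg fun x _ => hubB_ite_nonneg _
  have hS1 : ∀ a, (0 : ℝ) ≤ ∑ y : Y, (if bad1 A M k g y (f a) then (1 : ℝ) else 0) := fun a =>
    Finset.sum_nonneg fun x _ => hubB_ite_nonneg _
  have hS4 : ∀ a, (0 : ℝ) ≤ ∑ y : Y, ∑ x ∈ G, (if bad4 A M k n g y x (f a) then (1 : ℝ) else 0) :=
    fun a => Finset.sum_nonneg fun x _ => Finset.sum_nonneg fun _ _ => hubB_ite_nonneg _
  have hprod : ∀ a, (0 : ℝ) ≤ 10 ^ 29 / k * (∑ y : Y, (if bad1 A M k g y (f a) then (1 : ℝ) else 0) +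
      ∑ y : Y, ∑ x ∈ G, (if bad4 A M k n g y x (f a) then (1 : ℝ) else 0)) := fun a =>
    mul_nonneg hcoef (add_nonneg (hS1 a) (hS4 a))
  have hbw : ∀ a, (0 : ℝ) ≤ badw A M k c n G g (f a) := by
    intro a
    unfold badw
    have h1 := hubB_ite_nonneg (bad5 A k c g (f a))
    have h2 := hS6 a
    have h3 := hSG a
    have h4 := hprod a
    positivity
  have hco : (0 : ℝ) ≤ coll f := by
    unfold coll
    exact Finset.sum_nonneg fun p _ => Finset.sum_nonneg fun q _ => hubB_ite_nonneg _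
  have hsum0 : (0 : ℝ) ≤ ∑ a, badw A M k c n G g (f a) := Finset.sum_nonneg fun a _ => hbw a
  have hbw1 : ∀ a, badw A M k c n G g (f a) < 1 := by
    intro a
    have h1 : badw A M k c n G g (f a) ≤ ∑ a, badw A M k c n G g (f a) :=
      Finset.single_le_sum (fun b _ => hbw b) (Finset.mem_univ a)
    linarith
  have hco1 : coll f < 1 := by linarith
  have hn5 : ∀ a, ¬ bad5 A k c g (f a) := by
    intro a hb
    have h1 := hbw1 a
    unfold badw at h1
    rw [if_pos hb] at h1
    have h2 := hS6 a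
    have h3 := hSG a
    have h4 := hprod a
    linarith
  have hn6 : ∀ a, ∀ x ∈ G, ¬ bad6 A k g x (f a) := by
    intro a x hx hb
    have h1 := hbw1 a
    unfold badw at h1
    have h2 : (1 : ℝ) ≤ ∑ x ∈ G, (if bad6 A k g x (f a) then (1 : ℝ) else 0) := by
      have := Finset.single_le_sum (f := fun x => (if bad6 A k g x (f a) then (1 : ℝ) else 0))
        (fun b _ => hubB_ite_nonneg _) hx
      simpa [hb] using this
    have h0 := hubB_ite_nonneg (bad5 A k c g (f a))
    have h3 := hSG a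
    have h4 := hprod a
    linarith
  have hnG : ∀ a i, f a i ∉ G := by
    intro a i hb
    have h1 := hbw1 a
    unfold badw at h1
    have h2 : (1 : ℝ) ≤ ∑ i, (if f a i ∈ G then (1 : ℝ) else 0) := by
      have := Finset.single_le_sum (f := fun i => (if f a i ∈ G then (1 : ℝ) else 0))
        (fun b _ => hubB_ite_nonneg _) (Finset.mem_univ i)
      simpa [hb] using this
    have h0 := hubB_ite_nonneg (bad5 A k c g (f a))
    have h3 := hS6 a
    have h4 := hprod a
    linarith
  have hnc : ∀ p q : Fin P × Fin r, p ≠ q → f p.1 p.2 ≠ f q.1 q.2 := by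
    intro p q hpq hb
    have h1 : (1 : ℝ) ≤ coll f := by
      unfold coll
      have h2 := Finset.single_le_sum (f := fun q : Fin P × Fin r =>
        (if p ≠ q ∧ f p.1 p.2 = f q.1 q.2 then (1 : ℝ) else 0))
        (fun b _ => hubB_ite_nonneg _) (Finset.mem_univ q)
      have h3 := Finset.single_le_sum (f := fun p : Fin P × Fin r =>
        ∑ q : Fin P × Fin r, (if p ≠ q ∧ f p.1 p.2 = f q.1 q.2 then (1 : ℝ) else 0))
        (fun b _ => Finset.sum_nonneg fun _ _ => hubB_ite_nonneg _) (Finset.mem_univ p)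
      rw [if_pos ⟨hpq, hb⟩] at h2
      linarith
    linarith
  have hgd : ∀ a l, gd A (Finset.univ.image (f a)) l ↔ ∀ i, A (f a i) l := by
    intro a l
    unfold gd
    constructor
    · intro h i
      exact h _ (Finset.mem_image_of_mem _ (Finset.mem_univ i))
    · intro h x hx
      obtain ⟨i, _, rfl⟩ := Finset.mem_image.1 hx
      exact h i
  have hzc : ∀ (a : Fin P) (Q : B → Prop) [DecidablePred Q],
      ((Finset.univ.filter fun l => Q l ∧ gd A (Finset.univ.image (f a)) l).card) =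
        zc A (Finset.univ.filter fun l => Q l) (f a) := by
    intro a Q _
    unfold zc
    congr 1
    ext l
    simp only [Finset.mem_filter, Finset.mem_univ, true_and, hgd]
  set Ex : Finset Y := Finset.univ.filter fun y =>
    ∃ a, bad1 A M k g y (f a) ∨ ∃ x ∈ G, bad4 A M k n g y x (f a) with hEx
  have hExc : 10 ^ 29 / (k : ℝ) * (Ex.card : ℝ) < 1 := by
    have h1 : (Ex.card : ℝ) ≤ ∑ a : Fin P, (∑ y : Y, (if bad1 A M k g y (f a) then (1 : ℝ) else 0) +
        ∑ y : Y, ∑ x ∈ G, (if bad4 A M k n g y x (f a) then (1 : ℝ) else 0)) := by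
      have e1 : (Ex.card : ℝ) = ∑ y : Y, (if (∃ a, bad1 A M k g y (f a) ∨
          ∃ x ∈ G, bad4 A M k n g y x (f a)) then (1 : ℝ) else 0) := by
        rw [hEx, Finset.sum_boole]
      have e2 : ∑ a : Fin P, (∑ y : Y, (if bad1 A M k g y (f a) then (1 : ℝ) else 0) +
        ∑ y : Y, ∑ x ∈ G, (if bad4 A M k n g y x (f a) then (1 : ℝ) else 0)) =
        ∑ y : Y, ∑ a : Fin P, ((if bad1 A M k g y (f a) then (1 : ℝ) else 0) +
          ∑ x ∈ G, (if bad4 A M k n g y x (f a) then (1 : ℝ) else 0)) := by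
        rw [Finset.sum_comm]
        refine Finset.sum_congr rfl fun a _ => ?_
        rw [Finset.sum_add_distrib]
      rw [e1, e2]
      refine Finset.sum_le_sum fun y _ => ?_
      have hnn : ∀ a : Fin P, (0 : ℝ) ≤ (if bad1 A M k g y (f a) then (1 : ℝ) else 0) +
          ∑ x ∈ G, (if bad4 A M k n g y x (f a) then (1 : ℝ) else 0) := fun a =>
        add_nonneg (hubB_ite_nonneg _) (Finset.sum_nonneg fun _ _ => hubB_ite_nonneg _)
      split_ifs with hy
      · obtain ⟨a, ha⟩ := hy
        have h2 := Finset.single_le_sum (f := fun a : Fin P =>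
          (if bad1 A M k g y (f a) then (1 : ℝ) else 0) +
          ∑ x ∈ G, (if bad4 A M k n g y x (f a) then (1 : ℝ) else 0))
          (fun b _ => hnn b) (Finset.mem_univ a)
        refine le_trans ?_ h2
        have h4nn : (0 : ℝ) ≤ ∑ x ∈ G, (if bad4 A M k n g y x (f a) then (1 : ℝ) else 0) :=
          Finset.sum_nonneg fun _ _ => hubB_ite_nonneg _
        rcases ha with ha | ⟨x, hx, ha⟩
        · rw [if_pos ha]; linarith
        · have h3 := Finset.single_le_sum (f := fun x =>
            (if bad4 A M k n g y x (f a) then (1 : ℝ) else 0))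
            (fun b _ => hubB_ite_nonneg _) hx
          rw [if_pos ha] at h3
          have h5 := hubB_ite_nonneg (bad1 A M k g y (f a))
          linarith
      · exact Finset.sum_nonneg fun a _ => hnn a
    have h2 : 10 ^ 29 / (k : ℝ) * (Ex.card : ℝ) ≤ ∑ a, badw A M k c n G g (f a) := by
      refine le_trans (mul_le_mul_of_nonneg_left h1 hcoef) ?_
      rw [Finset.mul_sum]
      refine Finset.sum_le_sum fun a _ => ?_
      unfold badw
      have h0 := hubB_ite_nonneg (bad5 A k c g (f a))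
      have h3 := hS6 a
      have h4 := hSG a
      linarith
    linarith
  have hyn : ∀ y, y ∉ Ex → (∀ a, ¬ bad1 A M k g y (f a)) ∧
      ∀ x ∈ G, ∀ a, ¬ bad4 A M k n g y x (f a) := by
    intro y hy
    rw [hEx, Finset.mem_filter] at hy
    push Not at hy
    have h1 := hy (Finset.mem_univ y)
    exact ⟨fun a => (h1 a).1, fun x hx a => (h1 a).2 x hx⟩
  refine ⟨fun a => Finset.univ.image (f a), Ex, g, ?_⟩
  refine
    { hubc := ?_, hubd := ?_, hubG := ?_, g1 := ?_, gP := ?_, ex := ?_, b1 := ?_, b2 := ?_,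
      b3 := ?_, b4 := ?_, b5 := ?_, b6 := ?_ }
  · intro a
    rw [Finset.card_image_of_injective _ ?_, Finset.card_univ, Fintype.card_fin]
    intro i j hij
    by_contra hne
    exact hnc (a, i) (a, j) (by simp [hne]) hij
  · intro a b hab
    rw [Finset.disjoint_left]
    intro x hx hx'
    obtain ⟨i, _, hi⟩ := Finset.mem_image.1 hx
    obtain ⟨j, _, hj⟩ := Finset.mem_image.1 hx'
    exact hnc (a, i) (b, j) (by simp [hab]) (hi.trans hj.symm)
  · intro a
    rw [Finset.disjoint_left]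
    intro x hx hx'
    obtain ⟨i, _, hi⟩ := Finset.mem_image.1 hx
    exact hnG a i (hi ▸ hx')
  · rw [hg]
    exact pow_le_one₀ (by positivity) ((div_le_one hk0).2 hN.n1)
  · have h1 := hN.gw
    have h2 := hN.P2
    have h3 : (10 : ℝ) ^ 200 ≤ w ^ 50 := le_trans hw200 (le_self_pow₀ hw1 (by norm_num))
    have h4 : g * (w ^ 100 / 2) ≤ g * P := mul_le_mul_of_nonneg_left h2 hg0
    have h5 : g * (w ^ 100 / 2) = (w ^ 50 * g) * (w ^ 50 / 2) := by ring
    have h6 : (1 : ℝ) * (w ^ 50 / 2) ≤ (w ^ 50 * g) * (w ^ 50 / 2) :=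
      mul_le_mul_of_nonneg_right h1 (by positivity)
    have h7 : (10 : ℝ) ^ 60 ≤ 10 ^ 200 / 2 := by norm_num
    linarith
  · have h1 : (Ex.card : ℝ) = (k : ℝ) / 10 ^ 29 * (10 ^ 29 / (k : ℝ) * (Ex.card : ℝ)) := by
      field_simp
    rw [h1]
    have h2 : (0 : ℝ) ≤ (k : ℝ) / 10 ^ 29 := by positivity
    have h3 := mul_le_mul_of_nonneg_left hExc.le h2
    refine le_trans h3 (le_of_eq ?_)
    ring
  · intro y hy a
    have h1 := (hyn y hy).1 a
    unfold bad1 at h1
    rw [not_not] at h1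
    rw [hzc a (fun l => M y l)]
    exact h1
  · intro l
    have h1 := (hf2 l).2
    simp only [hgd]
    exact h1
  · intro y
    have h1 : ∀ l ∈ Finset.univ.filter (fun l => M y l), (1 - 1 / 10 ^ 29) * (g * P) ≤
        ((Finset.univ.filter fun a => gd A (Finset.univ.image (f a)) l).card : ℝ) := by
      intro l _
      have h2 := (hf2 l).1
      simp only [hgd]
      exact h2
    have h2 := Finset.card_nsmul_le_sum _ _ _ h1
    rw [hS.degC y, nsmul_eq_mul] at h2
    refine le_trans (le_of_eq ?_) h2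
    ring
  · intro y hy x hx a
    have h1 := (hyn y hy).2 x hx a
    unfold bad4 at h1
    rw [not_lt] at h1
    rw [hzc a (fun l => M y l ∧ ¬ A x l)]
    exact h1
  · intro a
    have h1 := hn5 a
    unfold bad5 at h1
    rw [not_not] at h1
    have e : ((Finset.univ.filter fun l => gd A (Finset.univ.image (f a)) l).card) =
        zc A Finset.univ (f a) := by
      unfold zc
      congr 1
      ext l
      simp only [Finset.mem_filter, Finset.mem_univ, true_and, hgd]
    rw [e]
    exact h1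
  · intro x hx a
    have h1 := hn6 a x hx
    unfold bad6 at h1
    rw [not_lt] at h1
    rw [hzc a (fun l => ¬ A x l)]
    exact h1

end Pool.Agent.Lib.TriS
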