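import Pool.Agent.Lib.TriS.S3Defs

/-!
MODULE SBadN (about 150 lines). Numerics for the hub candidates in the dense case `r k > (ζ/4)(k+c)`, `ζ = 1/10^29` (only real numbers;
`gc` = number of elements of `G`, `g = (n/k)^r`).

PROOF. `w ≥ 10^200 (L+1) ≥ 2·10^200`, `r ≤ 2·10^21 L ≤ w`, `P ≤ w^100`, `gc ≤ 2 w^1000`, `v = k + c = w^10000`, `1/g^2 ≤ w^100` (from `1 ≤ w^50 g`),
`k > v/(4·10^29 r) ≥ w^9998` (as `4·10^29 r ≤ w^2`), `k - 1 ≥ k/2`, `λ = k - n = k (k-1)/(v-1) ≥ k^2/(2 v) ≥ w^9998 · w^9998/(2 w^10000) ≥ w^9995`, `c ≤ v`.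
Terms of the first sum, each multiplied by `P ≤ w^100`:
1. `4 r 10^58/(g^2 (v-1)) ≤ w^2 · w^100/(w^10000/2)`; 2. `gc r/(g^2 (k-1)) ≤ 2 w^1000 · w · w^100 · 2/w^9998`; 3. `r gc/k ≤ w · 2 w^1000/w^9998`;
4. `10^29/k · c · r 10^58/(g^2 k) ≤ w · w^10000 · w^2 · w^100/w^(2·9998)`; 5. `10^29/k · c · gc · r/(g^2 λ) ≤ w · w^10000 · 2 w^1000 · w · w^100/(w^9998 · w^9995)`.
All are at most `w^(-2)` after multiplication with `P`; the sum is `≤ 5 w^(-2) ≤ 1/8`. Second claim: `(P r)^2 ≤ w^202 ≤ w^5000/8 ≤ k/8`.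
(Hint: prove `x ≤ w^a` facts first, then `div_le_iff₀`, `pow_add`, `pow_le_pow_right₀`; avoid `nlinarith` with big powers.)
-/

set_option autoImplicit false

open scoped Classical

noncomputable section

namespace Pool.Agent.Lib.TriS

private theorem sb_frac {w : ℝ} (hw : (400 : ℝ) ≤ w) {N D : ℝ} (a b : ℕ) (hN : N ≤ w ^ a)
    (hD : w ^ b / 4 ≤ D) (hab : a + 1 ≤ b) : N / D ≤ 1 / 100 := by
  have hw0 : 0 < w := by linarith
  have hw1 : 1 ≤ w := by linarith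
  have hb : 0 < w ^ b := pow_pos hw0 b
  have hD0 : 0 < D := by linarith
  rw [div_le_iff₀ hD0]
  have h1 : w ^ (a + 1) ≤ w ^ b := pow_le_pow_right₀ hw1 hab
  have h2 : 400 * w ^ a ≤ w ^ (a + 1) := by
    rw [pow_succ, mul_comm (w ^ a) w]
    exact mul_le_mul_of_nonneg_right hw (pow_pos hw0 a).le
  linarith

theorem bad_num {k c n P r : ℕ} {L w : ℝ} (hN : N3 k c n P r L w) (gc : ℝ) (hg0 : 0 ≤ gc)
    (hG : gc ≤ 2 * w ^ 1000)
    (hB : 1 / 10 ^ 29 / 4 * ((k : ℝ) + c) < (r : ℝ) * k) :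
    (P : ℝ) * (4 * r * 10 ^ 58 / ((((n : ℝ) / k) ^ r) ^ 2 * ((k : ℝ) + c - 1)) +
        gc * (r / ((((n : ℝ) / k) ^ r) ^ 2 * ((k : ℝ) - 1))) + r * gc / k +
        10 ^ 29 / k * (c * (r * 10 ^ 58 / ((((n : ℝ) / k) ^ r) ^ 2 * k)) +
          c * (gc * (r / ((((n : ℝ) / k) ^ r) ^ 2 * ((k : ℝ) - n)))))) ≤ 1 / 8 ∧
      ((P : ℝ) * r) ^ 2 / k ≤ 1 / 8 := by
  obtain ⟨hL1, hw, -, hvw, hP1, -, hr1, hr2, -, -, hn1, -, hlam, hgw⟩ := hN
  set g : ℝ := ((n : ℝ) / k) ^ r with hg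
  have hw200 : (10 : ℝ) ^ 200 ≤ w := by
    have h1 : (10 : ℝ) ^ 200 * 1 ≤ 10 ^ 200 * (L + 1) :=
      mul_le_mul_of_nonneg_left (by linarith) (by norm_num)
    linarith
  have hw400 : (400 : ℝ) ≤ w := le_trans (by norm_num) hw200
  have hw0 : 0 < w := by linarith
  have hw1 : 1 ≤ w := by linarith
  have hLw : (10 : ℝ) ^ 200 * L ≤ w := by
    have h1 : (10 : ℝ) ^ 200 * L ≤ 10 ^ 200 * (L + 1) :=
      mul_le_mul_of_nonneg_left (by linarith) (by norm_num)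
    linarith
  have hr0 : (0 : ℝ) ≤ r := Nat.cast_nonneg r
  have hP0 : (0 : ℝ) ≤ P := Nat.cast_nonneg P
  have hc0 : (0 : ℝ) ≤ c := Nat.cast_nonneg c
  have hk0 : (0 : ℝ) ≤ k := Nat.cast_nonneg k
  have hrw : (r : ℝ) * 10 ^ 100 ≤ w := by
    have h1 : (r : ℝ) * 10 ^ 100 ≤ 2 * 10 ^ 21 * L * 10 ^ 100 :=
      mul_le_mul_of_nonneg_right hr2 (by norm_num)
    have h2 : 2 * 10 ^ 21 * L * 10 ^ 100 ≤ (10 : ℝ) ^ 200 * L := by
      have h3 : (2 * 10 ^ 21 * 10 ^ 100 : ℝ) ≤ 10 ^ 200 := by norm_num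
      nlinarith
    linarith
  have hpos : ∀ i : ℕ, 0 < w ^ i := fun i => pow_pos hw0 i
  -- `k` is large
  have hk : w ^ 9999 ≤ (k : ℝ) := by
    have h1 : 1 / 10 ^ 29 / 4 * w ^ 10000 < (r : ℝ) * k := by rwa [hvw] at hB
    have h2 : (r : ℝ) * k * 10 ^ 100 ≤ w * k := by
      have := mul_le_mul_of_nonneg_right hrw hk0
      linarith
    have h3 : w ^ 10000 = w * w ^ 9999 := by rw [← pow_succ']
    have h4 : w * w ^ 9999 ≤ w * (k : ℝ) := by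
      have h5 : (1 : ℝ) ≤ 1 / 10 ^ 29 / 4 * 10 ^ 100 := by norm_num
      have h6 : w ^ 10000 * 1 ≤ w ^ 10000 * (1 / 10 ^ 29 / 4 * 10 ^ 100) :=
        mul_le_mul_of_nonneg_left h5 (hpos _).le
      rw [← h3]
      linarith
    exact le_of_mul_le_mul_left h4 hw0
  have h1k : (1 : ℝ) ≤ w ^ 9999 := one_le_pow₀ hw1
  have hk400 : (400 : ℝ) ≤ k := by
    have h1 : w ≤ w ^ 9999 := le_self_pow₀ hw1 (by norm_num)
    linarith
  have hkpos : (0 : ℝ) < k := by linarith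
  have hv400 : (400 : ℝ) ≤ (k : ℝ) + c := by linarith
  have hcv : (c : ℝ) ≤ w ^ 10000 := by linarith
  have hlam' : w ^ 9998 / 2 ≤ (k : ℝ) - n := by
    have hn0 : 0 ≤ (k : ℝ) - n := by linarith
    have h1 : (k : ℝ) * k / 2 ≤ ((k : ℝ) - n) * w ^ 10000 := by
      rw [← hvw]
      nlinarith
    have h2 : w ^ 9999 * w ^ 9999 ≤ (k : ℝ) * k := mul_le_mul hk hk (hpos _).le hk0
    have h3 : w ^ 9999 * w ^ 9999 = w ^ 9998 * w ^ 10000 := by
      rw [← pow_add, ← pow_add]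
    have h4 : w ^ 9998 / 2 * w ^ 10000 ≤ ((k : ℝ) - n) * w ^ 10000 := by
      rw [h3] at h2
      linarith
    exact le_of_mul_le_mul_right h4 (hpos _)
  -- `g`
  have hg0' : 0 < g := by
    by_contra h
    have h1 : w ^ 50 * g ≤ 0 := mul_nonpos_of_nonneg_of_nonpos (hpos _).le (not_lt.1 h)
    linarith
  obtain ⟨q, hq0, hq1, hq⟩ : ∃ q : ℝ, 0 ≤ q ∧ q ≤ w ^ 100 ∧ ∀ x : ℝ, x / g ^ 2 = x * q := by
    refine ⟨1 / g ^ 2, by positivity, ?_, fun x => by rw [mul_one_div]⟩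
    rw [div_le_iff₀ (by positivity)]
    have h1 : 1 ≤ (w ^ 50 * g) ^ 2 := one_le_pow₀ hgw
    have h2 : (w ^ 50 * g) ^ 2 = w ^ 100 * g ^ 2 := by rw [mul_pow, ← pow_mul]
    linarith
  have hr4 : 4 * (r : ℝ) * 10 ^ 58 ≤ w := by
    have h3 : (4 * 10 ^ 58 : ℝ) ≤ 10 ^ 100 := by norm_num
    nlinarith
  have hr2' : 2 * (r : ℝ) ≤ w := by
    have h3 : (2 : ℝ) ≤ 10 ^ 100 := by norm_num
    nlinarith
  have hr5 : 10 ^ 29 * ((r : ℝ) * 10 ^ 58) ≤ w := by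
    have h3 : (10 ^ 29 * 10 ^ 58 : ℝ) ≤ 10 ^ 100 := by norm_num
    nlinarith
  have hr6 : 2 * 10 ^ 29 * (r : ℝ) ≤ w := by
    have h3 : (2 * 10 ^ 29 : ℝ) ≤ 10 ^ 100 := by norm_num
    nlinarith
  have hrw' : (r : ℝ) ≤ w := by linarith
  -- the five terms
  have t1 : (P : ℝ) * (4 * r * 10 ^ 58 / (g ^ 2 * ((k : ℝ) + c - 1))) ≤ 1 / 100 := by
    have e : (P : ℝ) * (4 * r * 10 ^ 58 / (g ^ 2 * ((k : ℝ) + c - 1))) =
        (P * (4 * r * 10 ^ 58) * q) / ((k : ℝ) + c - 1) := by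
      rw [← div_div, hq]
      ring
    rw [e]
    refine sb_frac hw400 201 10000 ?_ ?_ (by norm_num)
    · calc (P : ℝ) * (4 * r * 10 ^ 58) * q ≤ w ^ 100 * w * w ^ 100 :=
            mul_le_mul (mul_le_mul hP1 hr4 (by positivity) (hpos _).le) hq1 hq0 (by positivity)
        _ = w ^ 201 := by ring
    · rw [hvw] at hv400 ⊢
      linarith
  have t2 : (P : ℝ) * (gc * (r / (g ^ 2 * ((k : ℝ) - 1)))) ≤ 1 / 100 := by
    have e : (P : ℝ) * (gc * (r / (g ^ 2 * ((k : ℝ) - 1)))) =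
        (P * (gc * r) * q) / ((k : ℝ) - 1) := by
      rw [← div_div, hq]
      ring
    rw [e]
    refine sb_frac hw400 1201 9999 ?_ ?_ (by norm_num)
    · have h1 : gc * (r : ℝ) ≤ w ^ 1000 * w := by
        calc gc * (r : ℝ) ≤ 2 * w ^ 1000 * r := mul_le_mul_of_nonneg_right hG hr0
          _ = w ^ 1000 * (2 * r) := by ring
          _ ≤ w ^ 1000 * w := mul_le_mul_of_nonneg_left hr2' (hpos _).le
      calc (P : ℝ) * (gc * r) * q ≤ w ^ 100 * (w ^ 1000 * w) * w ^ 100 :=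
            mul_le_mul (mul_le_mul hP1 h1 (by positivity) (hpos _).le) hq1 hq0 (by positivity)
        _ = w ^ 1201 := by ring
    · linarith
  have t3 : (P : ℝ) * (r * gc / k) ≤ 1 / 100 := by
    have e : (P : ℝ) * (r * gc / k) = (P * (gc * r)) / k := by ring
    rw [e]
    refine sb_frac hw400 1101 9999 ?_ ?_ (by norm_num)
    · have h1 : gc * (r : ℝ) ≤ w ^ 1000 * w := by
        calc gc * (r : ℝ) ≤ 2 * w ^ 1000 * r := mul_le_mul_of_nonneg_right hG hr0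
          _ = w ^ 1000 * (2 * r) := by ring
          _ ≤ w ^ 1000 * w := mul_le_mul_of_nonneg_left hr2' (hpos _).le
      calc (P : ℝ) * (gc * r) ≤ w ^ 100 * (w ^ 1000 * w) :=
            mul_le_mul hP1 h1 (by positivity) (hpos _).le
        _ = w ^ 1101 := by ring
    · linarith
  have t4 : (P : ℝ) * (10 ^ 29 / k * (c * (r * 10 ^ 58 / (g ^ 2 * k)))) ≤ 1 / 100 := by
    have e : (P : ℝ) * (10 ^ 29 / k * (c * (r * 10 ^ 58 / (g ^ 2 * k)))) =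
        (P * c * (10 ^ 29 * (r * 10 ^ 58)) * q) / (k * k) := by
      rw [← div_div, hq]
      field_simp
    rw [e]
    refine sb_frac hw400 10201 19998 ?_ ?_ (by norm_num)
    · calc (P : ℝ) * c * (10 ^ 29 * (r * 10 ^ 58)) * q ≤ w ^ 100 * w ^ 10000 * w * w ^ 100 :=
            mul_le_mul (mul_le_mul (mul_le_mul hP1 hcv hc0 (hpos _).le) hr5 (by positivity)
              (by positivity)) hq1 hq0 (by positivity)
        _ = w ^ 10201 := by ring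
    · have h2 : w ^ 9999 * w ^ 9999 ≤ (k : ℝ) * k := mul_le_mul hk hk (hpos _).le hk0
      rw [← pow_add] at h2
      have h3 := hpos 19998
      have h4 : w ^ 19998 ≤ (k : ℝ) * k := h2
      linarith
  have t5 : (P : ℝ) * (10 ^ 29 / k * (c * (gc * (r / (g ^ 2 * ((k : ℝ) - n)))))) ≤ 1 / 100 := by
    have e : (P : ℝ) * (10 ^ 29 / k * (c * (gc * (r / (g ^ 2 * ((k : ℝ) - n)))))) =
        (P * c * (gc * (10 ^ 29 * r)) * q) / (k * ((k : ℝ) - n)) := by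
      rw [← div_div, hq]
      field_simp
    rw [e]
    refine sb_frac hw400 11201 19997 ?_ ?_ (by norm_num)
    · have h1 : gc * (10 ^ 29 * (r : ℝ)) ≤ w ^ 1000 * w := by
        calc gc * (10 ^ 29 * (r : ℝ)) ≤ 2 * w ^ 1000 * (10 ^ 29 * r) :=
              mul_le_mul_of_nonneg_right hG (by positivity)
          _ = w ^ 1000 * (2 * 10 ^ 29 * r) := by ring
          _ ≤ w ^ 1000 * w := mul_le_mul_of_nonneg_left hr6 (hpos _).le
      calc (P : ℝ) * c * (gc * (10 ^ 29 * r)) * q ≤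
            w ^ 100 * w ^ 10000 * (w ^ 1000 * w) * w ^ 100 :=
            mul_le_mul (mul_le_mul (mul_le_mul hP1 hcv hc0 (hpos _).le) h1 (by positivity)
              (by positivity)) hq1 hq0 (by positivity)
        _ = w ^ 11201 := by ring
    · have h2 : w ^ 9999 * (w ^ 9998 / 2) ≤ (k : ℝ) * ((k : ℝ) - n) :=
        mul_le_mul hk hlam' (by positivity) hk0
      have h3 : w ^ 9999 * (w ^ 9998 / 2) = w ^ 19997 / 2 := by
        rw [← mul_div_assoc, ← pow_add]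
      have h4 := hpos 19997
      rw [h3] at h2
      linarith
  refine ⟨?_, ?_⟩
  · rw [mul_add, mul_add, mul_add, mul_add (10 ^ 29 / (k : ℝ)), mul_add (P : ℝ)]
    linarith
  · have h1 : ((P : ℝ) * r) ^ 2 / k ≤ 1 / 100 := by
      refine sb_frac hw400 202 9999 ?_ ?_ (by norm_num)
      · have h2 : (P : ℝ) * r ≤ w ^ 100 * w := mul_le_mul hP1 hrw' hr0 (hpos _).le
        calc ((P : ℝ) * r) ^ 2 ≤ (w ^ 100 * w) ^ 2 := pow_le_pow_left₀ (by positivity) h2 2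
          _ = w ^ 202 := by ring
      · linarith
    linarith

end Pool.Agent.Lib.TriS
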