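import Pool.Agent.Lib.TriS.SBad
import Pool.Agent.Lib.TriS.SBadN
import Pool.Agent.Lib.TriS.Label

/-!
MODULE SHubF (about 200 lines). Choice of the hub candidates in the dense case.

PROOF. `label_cost` (Label.lean) with `E = Fin P`, `Λ = Fin r → X`, `p a ω = 1/Fintype.card Λ` (`Fintype.card Λ = k^r`; `X` is nonempty as `k ≥ w^5000 > 0`),
`I = univ : Finset B`, `T l = {(a, ω) | ∀ i, A (ω i) l}`, `z = 1/(2·10^29)`, `t = 16·10^29 L` (so `z t = 8 L`), `cost f = ∑ a, badw .. (f a) + coll f ≥ 0`.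
* `muL p (T l) = P n^r/k^r = g P`, `g = (n/k)^r` (number of `ω` with `∀ i, A (ω i) l` is `n^r`: `Fintype.card_piFinset_const`, `hS.degSR`).
* expected cost: `avg_one` + `badw_sum` + `bad_num.1`: at most `1/8` (`∑_ω badw ω / k^r ≤ (..)`, times `P`), `coll_avg` + `bad_num.2`: at most `1/8`
  (`badw_sum` needs `n > 0`: from `N3.n2`, `n < k`: from `N3.lam`, as `k (k-1) > 0`; `v ≥ 10^60`).
* tests: `(Fintype.card B) · 2 exp (-(8L)) ≤ 2 exp L exp (-(8 L)) ≤ 1/4` (`L ≥ 1`). Sum `< 1`.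
* `cntL f (T l) = #{a | ∀ i, A (f a i) l}`; with `g P ≥ w^(-50) w^100/2 = w^50/2 ≥ 10^60 (L+1)`: `t ≤ (ζ/2) g P`, `ζ = 1/10^29`, so the count is between
  `(1 - ζ) g P` and `(1 + ζ) g P`.
-/

set_option autoImplicit false

open scoped Classical

noncomputable section

namespace Pool.Agent.Lib.TriS

open Pool.Agent.Lib.TriD

private theorem shubF_badw_nonneg {X Y B : Type} [Fintype X] [Fintype Y] [Fintype B]
    (A : X → B → Prop) (M : Y → B → Prop) (k c n : ℕ) (G : Finset X) (g : ℝ) {r : ℕ}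
    (ω : Fin r → X) : 0 ≤ badw A M k c n G g ω := by
  unfold badw
  have h1 : (0 : ℝ) ≤ ∑ x ∈ G, (if bad6 A k g x ω then 1 else 0) :=
    Finset.sum_nonneg fun _ _ => by split_ifs <;> norm_num
  have h2 : (0 : ℝ) ≤ ∑ i, (if ω i ∈ G then 1 else 0) :=
    Finset.sum_nonneg fun _ _ => by split_ifs <;> norm_num
  have h3 : (0 : ℝ) ≤ ∑ y : Y, (if bad1 A M k g y ω then 1 else 0) :=
    Finset.sum_nonneg fun _ _ => by split_ifs <;> norm_num
  have h4 : (0 : ℝ) ≤ ∑ y : Y, ∑ x ∈ G, (if bad4 A M k n g y x ω then 1 else 0) :=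
    Finset.sum_nonneg fun _ _ => Finset.sum_nonneg fun _ _ => by split_ifs <;> norm_num
  have h5 : (0 : ℝ) ≤ 10 ^ 29 / (k : ℝ) := by positivity
  have h6 := mul_nonneg h5 (add_nonneg h3 h4)
  have h7 : (0 : ℝ) ≤ (if bad5 A k c g ω then 1 else 0) := by split_ifs <;> norm_num
  linarith

private theorem shubF_coll_nonneg {X : Type} {P r : ℕ} (f : Fin P → (Fin r → X)) :
    0 ≤ coll f := by
  unfold coll
  refine Finset.sum_nonneg fun _ _ => Finset.sum_nonneg fun _ _ => ?_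
  split_ifs <;> norm_num

private theorem shubF_card {X B : Type} [Fintype X] {A : X → B → Prop} {n : ℕ} (r : ℕ) (l : B)
    (h : (Finset.univ.filter fun x => A x l).card = n) :
    (Finset.univ.filter fun ω : Fin r → X => ∀ i, A (ω i) l).card = n ^ r := by
  have h1 : (Finset.univ.filter fun ω : Fin r → X => ∀ i, A (ω i) l) =
      Fintype.piFinset fun _ : Fin r => Finset.univ.filter fun x => A x l := by
    ext ω
    simp [Fintype.mem_piFinset]
  rw [h1, Fintype.card_piFinset_const, h]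

private theorem shubF_mu {X B : Type} [Fintype X] {A : X → B → Prop} {n : ℕ} (P r : ℕ) (l : B)
    (h : (Finset.univ.filter fun x => A x l).card = n) (q : ℝ) :
    muL (fun (_ : Fin P) (_ : Fin r → X) => q)
      (Finset.univ.filter fun p : Fin P × (Fin r → X) => ∀ i, A (p.2 i) l) =
      P * (n : ℝ) ^ r * q := by
  unfold muL
  rw [Finset.sum_const, nsmul_eq_mul]
  have h1 : (Finset.univ.filter fun p : Fin P × (Fin r → X) => ∀ i, A (p.2 i) l) =
      (Finset.univ : Finset (Fin P)) ×ˢ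
        (Finset.univ.filter fun ω : Fin r → X => ∀ i, A (ω i) l) := by
    ext p
    simp [Finset.mem_product]
  rw [h1, Finset.card_product, shubF_card r l h, Finset.card_univ, Fintype.card_fin]
  push_cast
  ring

/-- `label_cost` for `E = Fin P` (the instances on the function space). -/
private theorem shubF_label {P : ℕ} {Λ ι : Type} [Fintype Λ] (p : Fin P → Λ → ℝ)
    (h0 : ∀ e a, 0 ≤ p e a) (h1 : ∀ e, ∑ a, p e a = 1) (I : Finset ι)
    (T : ι → Finset (Fin P × Λ)) (z : ℝ) (hz : 0 < z) (hz1 : z ≤ 1) (t : ι → ℝ)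
    (cost : (Fin P → Λ) → ℝ) (hc : ∀ f, 0 ≤ cost f) (u v : ℝ) (huv : u + v < 1)
    (hu : ∑ f : Fin P → Λ, (∏ e, p e (f e)) * cost f ≤ u)
    (hv : ∑ i ∈ I, 2 * Real.exp (-(z * t i)) ≤ v) :
    ∃ f : Fin P → Λ, cost f < 1 ∧ ∀ i ∈ I, (1 - z) * muL p (T i) - t i ≤ cntL f (T i) ∧
      (cntL f (T i) : ℝ) ≤ (1 + z) * muL p (T i) + t i := by
  refine label_cost p h0 h1 I T z hz hz1 t cost hc ?_
  refine lt_of_le_of_lt (add_le_add ?_ hv) huv
  exact le_trans (le_of_eq (Finset.sum_congr (Finset.ext fun f => by simp) fun _ _ => rfl)) hu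

theorem hub_f {X Y B : Type} [Fintype X] [Fintype Y] [Fintype B] {A : X → B → Prop}
    {M : Y → B → Prop} {k c n P r : ℕ} {L w : ℝ} (hS : DSys A M k c n) (hM : DMix A M k c n)
    (hN : N3 k c n P r L w) (G : Finset X) (hG : (G.card : ℝ) ≤ 2 * w ^ 1000)
    (hB : 1 / 10 ^ 29 / 4 * ((k : ℝ) + c) < (r : ℝ) * k) :
    ∃ f : Fin P → (Fin r → X),
      ∑ a, badw A M k c n G (((n : ℝ) / k) ^ r) (f a) + coll f < 1 ∧
      ∀ l : B, (1 - 1 / 10 ^ 29) * (((n : ℝ) / k) ^ r * P) ≤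
          ((Finset.univ.filter fun a => ∀ i, A (f a i) l).card : ℝ) ∧
        ((Finset.univ.filter fun a => ∀ i, A (f a i) l).card : ℝ) ≤
          (1 + 1 / 10 ^ 29) * (((n : ℝ) / k) ^ r * P) := by
  have hL := hN.L1
  have hw1 : (10 : ℝ) ^ 200 * (L + 1) ≤ w := hN.w1
  have hw2 : (2 : ℝ) * 10 ^ 200 ≤ w := by
    refine le_trans ?_ hw1
    rw [mul_comm]
    exact mul_le_mul_of_nonneg_left (by linarith) (by positivity)
  have hw0 : (1 : ℝ) ≤ w := le_trans (by norm_num) hw2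
  have hwp : (0 : ℝ) < w := by linarith
  have hpow : ∀ a : ℕ, a ≠ 0 → w ≤ w ^ a := fun a ha => le_self_pow₀ hw0 ha
  have hk1 : w ≤ k := le_trans (hpow 5000 (by norm_num)) hN.k1
  have hkp : (0 : ℝ) < k := by linarith
  have hk2 : 2 ≤ k := by
    have : (2 : ℝ) ≤ k := le_trans (le_trans (by norm_num) hw2) hk1
    exact_mod_cast this
  have hv1 : w ≤ (k : ℝ) + c := by
    rw [hN.vw]
    exact hpow 10000 (by norm_num)
  have hv : (10 : ℝ) ^ 60 ≤ (k : ℝ) + c := le_trans (le_trans (by norm_num) hw2) hv1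
  have hn0 : 0 < n := by
    have h1 := hN.n2
    have h2 : (0 : ℝ) < n := by
      have h3 : (1 : ℝ) / 10 ^ 30 * k < k := by
        have : (1 : ℝ) / 10 ^ 30 < 1 := by norm_num
        nlinarith
      linarith
    exact_mod_cast h2
  have hnk : n < k := by
    have h1 := hN.lam
    have h2 : (0 : ℝ) < (k : ℝ) - 1 := by
      have : (2 : ℝ) ≤ k := by exact_mod_cast hk2
      linarith
    have h3 : (0 : ℝ) < (k : ℝ) + c - 1 := by
      have h4 : (0 : ℝ) ≤ c := Nat.cast_nonneg c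
      linarith
    have h5 : (0 : ℝ) < ((k : ℝ) - n) * ((k : ℝ) + c - 1) := by
      rw [h1]
      exact mul_pos hkp h2
    have h6 : (0 : ℝ) < (k : ℝ) - n := by
      by_contra hcon
      push Not at hcon
      have := mul_nonpos_of_nonpos_of_nonneg hcon h3.le
      linarith
    have h7 : (n : ℝ) < k := by linarith
    exact_mod_cast h7
  have hX : Nonempty X := by
    rw [← Fintype.card_pos_iff, hS.cR]
    omega
  have hcard : (Fintype.card (Fin r → X) : ℝ) = (k : ℝ) ^ r := by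
    rw [Fintype.card_fun, hS.cR, Fintype.card_fin]
    push_cast
    rfl
  have hkr : (0 : ℝ) < (k : ℝ) ^ r := pow_pos hkp r
  obtain ⟨hb1, hb2⟩ := bad_num hN (G.card : ℝ) (Nat.cast_nonneg _) hG hB
  have hbs := badw_sum hS hM hk2 hn0 hnk hv G r
  -- the expected cost
  have hcost : ∑ f : Fin P → (Fin r → X),
      (∏ _e : Fin P, (1 / (Fintype.card (Fin r → X) : ℝ))) *
        (∑ a, badw A M k c n G (((n : ℝ) / k) ^ r) (f a) + coll f) ≤ 1 / 4 := by
    have h1 := avg_one (Λ := Fin r → X) P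
      (fun ω => badw A M k c n G (((n : ℝ) / k) ^ r) ω)
    have h2 := coll_avg (X := X) P r
    have h3 : (P : ℝ) * ((∑ ω : Fin r → X, badw A M k c n G (((n : ℝ) / k) ^ r) ω) /
        Fintype.card (Fin r → X)) ≤ 1 / 8 := by
      refine le_trans (mul_le_mul_of_nonneg_left ?_ (Nat.cast_nonneg P)) hb1
      rw [hcard, div_le_iff₀ hkr, mul_comm]
      exact hbs
    have h4 : ((P : ℝ) * r) ^ 2 / (Fintype.card X : ℝ) ≤ 1 / 8 := by
      rw [hS.cR]
      exact hb2
    have h5 : ∑ f : Fin P → (Fin r → X),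
        (∏ _e : Fin P, (1 / (Fintype.card (Fin r → X) : ℝ))) *
          (∑ a, badw A M k c n G (((n : ℝ) / k) ^ r) (f a) + coll f) =
        ∑ f : Fin P → (Fin r → X), (∏ _e : Fin P, (1 / (Fintype.card (Fin r → X) : ℝ))) *
          ∑ a, badw A M k c n G (((n : ℝ) / k) ^ r) (f a) +
        ∑ f : Fin P → (Fin r → X), (∏ _e : Fin P, (1 / (Fintype.card (Fin r → X) : ℝ))) *
          coll f := by
      rw [← Finset.sum_add_distrib]
      exact Finset.sum_congr rfl fun f _ => mul_add _ _ _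
    rw [h5, h1]
    linarith
  -- the tests
  have htest : ∑ _l ∈ (Finset.univ : Finset B),
      2 * Real.exp (-((1 / (2 * 10 ^ 29) : ℝ) * (16 * 10 ^ 29 * L))) ≤ 1 / 4 := by
    rw [Finset.sum_const, nsmul_eq_mul, Finset.card_univ]
    have h1 : (1 / (2 * 10 ^ 29) : ℝ) * (16 * 10 ^ 29 * L) = 8 * L := by ring
    rw [h1]
    have h2 : (Fintype.card B : ℝ) ≤ Real.exp L := by
      rw [hN.eL]
      have h3 : (Fintype.card B : ℝ) + 1 = (k : ℝ) + c := by exact_mod_cast hS.cS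
      linarith
    have h3 : Real.exp (-(8 * L)) * Real.exp L = Real.exp (-(7 * L)) := by
      rw [← Real.exp_add]
      congr 1
      ring
    have h4 : Real.exp (-(7 * L)) ≤ 1 / 8 := by
      rw [Real.exp_neg, one_div]
      refine inv_anti₀ (by norm_num) ?_
      have := Real.add_one_le_exp (7 * L)
      linarith
    have h5 : (0 : ℝ) < Real.exp (-(8 * L)) := Real.exp_pos _
    calc (Fintype.card B : ℝ) * (2 * Real.exp (-(8 * L)))
        ≤ Real.exp L * (2 * Real.exp (-(8 * L))) :=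
          mul_le_mul_of_nonneg_right h2 (by positivity)
      _ = 2 * (Real.exp (-(8 * L)) * Real.exp L) := by ring
      _ ≤ 1 / 4 := by rw [h3]; linarith
  have hN0 : (0 : ℝ) ≤ 1 / (Fintype.card (Fin r → X) : ℝ) := by positivity
  obtain ⟨f, hf1, hf2⟩ := shubF_label (P := P) (Λ := Fin r → X)
    (fun _ _ => 1 / (Fintype.card (Fin r → X) : ℝ)) (fun _ _ => hN0)
    (fun _ => by
      rw [Finset.sum_const, nsmul_eq_mul, Finset.card_univ, mul_one_div, div_self]
      rw [hcard]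
      exact hkr.ne')
    (Finset.univ : Finset B)
    (fun l => Finset.univ.filter fun q : Fin P × (Fin r → X) => ∀ i, A (q.2 i) l)
    (1 / (2 * 10 ^ 29)) (by norm_num) (by norm_num) (fun _ => 16 * 10 ^ 29 * L)
    (fun f => ∑ a, badw A M k c n G (((n : ℝ) / k) ^ r) (f a) + coll f)
    (fun f => add_nonneg (Finset.sum_nonneg fun a _ => shubF_badw_nonneg _ _ _ _ _ _ _ _)
      (shubF_coll_nonneg f))
    (1 / 4) (1 / 4) (by norm_num) hcost htest
  refine ⟨f, hf1, fun l => ?_⟩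
  obtain ⟨h1, h2⟩ := hf2 l (Finset.mem_univ l)
  have hcnt : (cntL f (Finset.univ.filter fun q : Fin P × (Fin r → X) => ∀ i, A (q.2 i) l) : ℝ) =
      ((Finset.univ.filter fun a => ∀ i, A (f a i) l).card : ℝ) := by
    unfold cntL
    congr 2
    ext a
    simp
  have hmu : muL (fun (_ : Fin P) (_ : Fin r → X) => 1 / (Fintype.card (Fin r → X) : ℝ))
      (Finset.univ.filter fun q : Fin P × (Fin r → X) => ∀ i, A (q.2 i) l) =
      ((n : ℝ) / k) ^ r * P := by
    rw [shubF_mu P r l (hS.degSR l), hcard, div_pow]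
    ring
  rw [hmu, hcnt] at h1 h2
  -- `g P` is large
  have hgP : w ≤ 2 * (((n : ℝ) / k) ^ r * P) := by
    have h3 := hN.gw
    have h4 := hN.P2
    have h5 : (P : ℝ) ≤ w ^ 50 * (((n : ℝ) / k) ^ r * P) := by
      have h6 := mul_le_mul_of_nonneg_right h3 (Nat.cast_nonneg P : (0 : ℝ) ≤ P)
      rw [one_mul, mul_assoc] at h6
      exact h6
    have h6 : w ^ 50 * w ^ 50 ≤ w ^ 50 * (2 * (((n : ℝ) / k) ^ r * P)) := by
      rw [← pow_add]
      have e : w ^ (50 + 50) = w ^ 100 := by norm_num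
      rw [e]
      linarith
    have h7 : w ^ 50 ≤ 2 * (((n : ℝ) / k) ^ r * P) :=
      le_of_mul_le_mul_left h6 (pow_pos hwp 50)
    exact le_trans (hpow 50 (by norm_num)) h7
  have ht : 16 * 10 ^ 29 * L ≤ 1 / (2 * 10 ^ 29) * (((n : ℝ) / k) ^ r * P) := by
    have h3 : (64 : ℝ) * 10 ^ 58 * L ≤ w := by
      refine le_trans ?_ hw1
      have h4 : (64 : ℝ) * 10 ^ 58 ≤ 10 ^ 200 := by norm_num
      nlinarith
    have h4 : (64 : ℝ) * 10 ^ 58 * L ≤ 2 * (((n : ℝ) / k) ^ r * P) := le_trans h3 hgP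
    have h5 : (16 : ℝ) * 10 ^ 29 * L = 1 / (4 * 10 ^ 29) * (64 * 10 ^ 58 * L) := by ring
    rw [h5]
    refine le_trans (mul_le_mul_of_nonneg_left h4 (by positivity)) (le_of_eq ?_)
    ring
  have e1 : (1 - 1 / 10 ^ 29 : ℝ) * (((n : ℝ) / k) ^ r * P) =
      (1 - 1 / (2 * 10 ^ 29)) * (((n : ℝ) / k) ^ r * P) -
        1 / (2 * 10 ^ 29) * (((n : ℝ) / k) ^ r * P) := by ring
  have e2 : (1 + 1 / 10 ^ 29 : ℝ) * (((n : ℝ) / k) ^ r * P) =
      (1 + 1 / (2 * 10 ^ 29)) * (((n : ℝ) / k) ^ r * P) +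
        1 / (2 * 10 ^ 29) * (((n : ℝ) / k) ^ r * P) := by ring
  rw [e1, e2]
  exact ⟨by linarith, by linarith⟩

end Pool.Agent.Lib.TriS
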