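import Pool.Agent.Lib.TriS.SHubA
import Pool.Agent.Lib.TriS.SHubF
import Pool.Agent.Lib.TriS.SHubB

/-!
Assembly of the hub lemma (helper35).
-/

set_option autoImplicit false

open scoped Classical

noncomputable section

namespace Pool.Agent.Lib.TriS

open Pool.Agent.Lib.TriD

theorem hub_all {X Y B : Type} [Fintype X] [Fintype Y] [Fintype B] {A : X → B → Prop}
    {M : Y → B → Prop} {k c n P r : ℕ} {L w : ℝ} (hS : DSys A M k c n) (hM : DMix A M k c n)
    (hN : N3 k c n P r L w) (G : Finset X) (hG : (G.card : ℝ) ≤ 2 * w ^ 1000) :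
    ∃ (hub : Fin P → Finset X) (Ex : Finset Y) (g : ℝ), HubSys A M k c n G P r hub Ex g := by
  rcases le_or_gt ((r : ℝ) * k) (1 / 10 ^ 29 / 4 * ((k : ℝ) + c)) with h | h
  · exact hub_a hS hN G hG h
  · obtain ⟨f, h1, h2⟩ := hub_f hS hM hN G hG h
    exact hub_b hS hN G f h1 h2

end Pool.Agent.Lib.TriS
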