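import Pool.Agent.Lib.TriS.SRel

/-!
MODULE SNum (about 170 lines). The numerical facts `N3` (only real analysis; `BigV`, `N3` in S3Defs.lean).

Put `v = k + c`, `L = log v`, `w = v^(1/10000)` (real power). Then `w^10000 = v` (`Real.rpow_natCast_mul`-type identity:
`Real.rpow_natCast`, `← Real.rpow_mul`), `w ≥ 10^200 (L+1) ≥ 10^200`, `w^100 = v^(1/100)`, `w^1000 = v^(1/10)`.

`L1`: `v = w^10000 ≥ w ≥ 10^200 ≥ exp 1`, so `L ≥ 1` (`Real.exp_one_lt_d9`, `Real.le_log_iff_exp_le`). `eL`: `Real.exp_log`.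
`P1`, `P2`: `P = ⌊w^100⌋₊`: `Nat.floor_le`, `Nat.lt_floor_add_one` and `w^100 ≥ 2`.
`r1`, `r2`: `r = ⌈10^21 L⌉₊`: `Nat.le_ceil`, `Nat.ceil_lt_add_one` and `1 ≤ 10^21 L`.
`k1`: `k^2 ≥ v = (w^5000)^2` (`dsys_sq`), `pow_le_pow_left` / `abs_le_of_sq_le`.
`k2`: hypothesis. `n1`: `dsys_n_le`. `lam`: `dsys_lam`.
`n2`: `k - n = k (k-1)/(v-1) ≤ k · (k/v)` (as `(k-1)/(v-1) ≤ k/v` for `k ≤ v`) `≤ 10^(-30) k`.
`gw`: put `q = n/k ≥ 1 - 10^(-30)`. `q ≥ exp (-2/10^30)` since `exp (-2x) ≤ 1 - x` for `0 ≤ x ≤ 1/2` (`exp(2x) (1-x) ≥ (1+2x)(1-x) ≥ 1`).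
 So `q^r ≥ exp (-2 r/10^30) ≥ exp (-4·10^21 L/10^30) ≥ exp (-L/200)` and `w^50 = exp (L/200)`: `w^10000 = v = exp L`, so
 `w = exp (L/10000)` (`Real.log w = L/10000`), `w^50 = exp (50 · L/10000)`. Product ≥ 1.
-/

set_option autoImplicit false

open scoped Classical

noncomputable section

namespace Pool.Agent.Lib.TriS

open Pool.Agent.Lib.TriD

private theorem snum_pow {v : ℝ} (hv : 0 ≤ v) (a b : ℕ) (t : ℝ) (h : (a : ℝ)⁻¹ * (b : ℝ) = t) :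
    (v ^ ((1 : ℝ) / a)) ^ b = v ^ t := by
  rw [← Real.rpow_natCast, ← Real.rpow_mul hv, one_div, h]

private theorem snum_exp {x : ℝ} (h0 : 0 ≤ x) (h1 : x ≤ 1 / 2) : Real.exp (-(2 * x)) ≤ 1 - x := by
  have h2 : 1 + 2 * x ≤ Real.exp (2 * x) := by
    have := Real.add_one_le_exp (2 * x)
    linarith
  have h3 : 0 < Real.exp (2 * x) := Real.exp_pos _
  rw [Real.exp_neg, inv_le_comm₀ h3 (by linarith)]
  have h4 : (1 - x)⁻¹ ≤ 1 + 2 * x := by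
    rw [inv_le_comm₀ (by linarith) (by linarith)]
    rw [inv_eq_one_div, div_le_iff₀ (by linarith)]
    nlinarith
  linarith

theorem n3_exists {X Y B : Type} [Fintype X] [Fintype Y] [Fintype B] (A : X → B → Prop)
    (M : Y → B → Prop) (k c n : ℕ) (hS : DSys A M k c n)
    (hk : 2 ≤ k) (hv : BigV ((k : ℝ) + c)) (hphi : (k : ℝ) ≤ 1 / 10 ^ 30 * (k + c)) :
    N3 k c n ⌊((k : ℝ) + c) ^ ((1 : ℝ) / 100)⌋₊ ⌈10 ^ 21 * Real.log ((k : ℝ) + c)⌉₊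
        (Real.log ((k : ℝ) + c)) (((k : ℝ) + c) ^ ((1 : ℝ) / 10000)) ∧
      (((k : ℝ) + c) ^ ((1 : ℝ) / 10000)) ^ 1000 = ((k : ℝ) + c) ^ ((1 : ℝ) / 10) := by
  have hn1 : (n : ℝ) ≤ k := by exact_mod_cast dsys_n_le hS hk
  have hlam := dsys_lam hS hk
  have hsq : ((k : ℝ) + c) ≤ (k : ℝ) ^ 2 := by exact_mod_cast dsys_sq hS hk
  have hk2 : (2 : ℝ) ≤ k := by exact_mod_cast hk
  obtain ⟨hv1, hv2⟩ := hv
  set v : ℝ := (k : ℝ) + c with hvdef
  have hv0 : 0 ≤ v := by linarith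
  set L : ℝ := Real.log v with hL
  set w : ℝ := v ^ ((1 : ℝ) / 10000) with hw
  have hL0 : 0 ≤ L := Real.log_nonneg hv1
  have hw10000 : w ^ 10000 = v := by
    have h := snum_pow hv0 10000 10000 1 (by norm_num)
    rw [Real.rpow_one, Nat.cast_ofNat] at h
    exact h
  have hw100 : w ^ 100 = v ^ ((1 : ℝ) / 100) := by
    have h := snum_pow hv0 10000 100 ((1 : ℝ) / 100) (by norm_num)
    rw [Nat.cast_ofNat] at h
    exact h
  have hw1000 : w ^ 1000 = v ^ ((1 : ℝ) / 10) := by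
    have h := snum_pow hv0 10000 1000 ((1 : ℝ) / 10) (by norm_num)
    rw [Nat.cast_ofNat] at h
    exact h
  have hwbig : (10 : ℝ) ^ 200 ≤ w := by
    refine le_trans ?_ hv2
    have h0 : (0 : ℝ) ≤ 10 ^ 200 := pow_nonneg (by norm_num) 200
    have h1 : (10 : ℝ) ^ 200 * 1 ≤ 10 ^ 200 * (L + 1) :=
      mul_le_mul_of_nonneg_left (by linarith) h0
    rw [mul_one] at h1
    exact h1
  have h10 : (10 : ℝ) ≤ 10 ^ 200 := by
    have := pow_le_pow_right₀ (show (1 : ℝ) ≤ 10 by norm_num) (show 1 ≤ 200 by norm_num)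
    rwa [pow_one] at this
  have hw10 : (10 : ℝ) ≤ w := h10.trans hwbig
  have hw1 : (1 : ℝ) ≤ w := by linarith
  have hwv : w ≤ v := by
    rw [← hw10000]
    exact le_self_pow₀ hw1 (by norm_num)
  have hv10 : (10 : ℝ) ≤ v := hw10.trans hwv
  have hvpos : 0 < v := by linarith
  have hL1 : 1 ≤ L := by
    rw [hL, Real.le_log_iff_exp_le hvpos]
    have := Real.exp_one_lt_d9
    linarith
  have hP1 : (⌊v ^ ((1 : ℝ) / 100)⌋₊ : ℝ) ≤ w ^ 100 := by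
    rw [hw100]
    exact Nat.floor_le (Real.rpow_nonneg hv0 _)
  have hP2 : w ^ 100 / 2 ≤ (⌊v ^ ((1 : ℝ) / 100)⌋₊ : ℝ) := by
    have h1 := Nat.lt_floor_add_one (v ^ ((1 : ℝ) / 100))
    rw [← hw100] at h1 ⊢
    have h2 : w ≤ w ^ 100 := le_self_pow₀ hw1 (by norm_num)
    linarith
  have hr1 : (10 : ℝ) ^ 21 * L ≤ (⌈(10 : ℝ) ^ 21 * L⌉₊ : ℝ) := Nat.le_ceil _
  have hr2 : (⌈(10 : ℝ) ^ 21 * L⌉₊ : ℝ) ≤ 2 * 10 ^ 21 * L := by
    have h1 := Nat.ceil_lt_add_one (show (0 : ℝ) ≤ 10 ^ 21 * L by positivity)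
    have h2 : (1 : ℝ) ≤ 10 ^ 21 * L := by
      have : (1 : ℝ) * 1 ≤ 10 ^ 21 * L :=
        mul_le_mul (by norm_num) hL1 zero_le_one (by norm_num)
      linarith
    linarith
  have hk1 : w ^ 5000 ≤ (k : ℝ) := by
    have h1 : (w ^ 5000) ^ 2 ≤ (k : ℝ) ^ 2 := by
      rw [← pow_mul]
      have h2 : w ^ (5000 * 2) = v := by
        rw [← hw10000]
      rw [h2]
      exact hsq
    exact (pow_le_pow_iff_left₀ (by positivity) (by positivity) two_ne_zero).1 h1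
  have hn2 : (k : ℝ) - n ≤ 1 / 10 ^ 30 * k := by
    have h1 : (k : ℝ) - 1 ≤ 1 / 10 ^ 30 * (v - 1) := by
      have : (1 : ℝ) / 10 ^ 30 ≤ 1 := by norm_num
      linarith
    have h2 : ((k : ℝ) - n) * (v - 1) ≤ (1 / 10 ^ 30 * k) * (v - 1) := by
      have h3 : ((k : ℝ) - n) * (v - 1) = k * (k - 1) := hlam
      rw [h3]
      have h4 : (k : ℝ) * (k - 1) ≤ k * (1 / 10 ^ 30 * (v - 1)) :=
        mul_le_mul_of_nonneg_left h1 (by linarith)
      linarith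
    exact le_of_mul_le_mul_right h2 (by linarith)
  have hgw : 1 ≤ w ^ 50 * ((n : ℝ) / k) ^ ⌈(10 : ℝ) ^ 21 * L⌉₊ := by
    have hkpos : (0 : ℝ) < k := by linarith
    have hq : Real.exp (-(2 * (1 / 10 ^ 30))) ≤ (n : ℝ) / k := by
      refine (snum_exp (x := 1 / 10 ^ 30) (by norm_num) (by norm_num)).trans ?_
      rw [le_div_iff₀ hkpos]
      linarith
    have hlogw : Real.log w = L / 10000 := by
      rw [hw, Real.log_rpow hvpos]
      ring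
    have hw50 : w ^ 50 = Real.exp (L / 200) := by
      have h1 : w = Real.exp (L / 10000) := by
        rw [← hlogw, Real.exp_log (by linarith)]
      rw [h1, ← Real.exp_nat_mul]
      congr 1
      push_cast
      ring
    have h3 : Real.exp (-(L / 200)) ≤ ((n : ℝ) / k) ^ ⌈(10 : ℝ) ^ 21 * L⌉₊ := by
      refine le_trans ?_ (pow_le_pow_left₀ (Real.exp_pos _).le hq _)
      rw [← Real.exp_nat_mul]
      apply Real.exp_le_exp.2
      have h4 : (⌈(10 : ℝ) ^ 21 * L⌉₊ : ℝ) * (2 * (1 / 10 ^ 30)) ≤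
          (2 * 10 ^ 21 * L) * (2 * (1 / 10 ^ 30)) :=
        mul_le_mul_of_nonneg_right hr2 (by norm_num)
      have h5 : ((2 : ℝ) * 10 ^ 21 * L) * (2 * (1 / 10 ^ 30)) ≤ L / 200 := by
        have h6 : ((2 : ℝ) * 10 ^ 21 * L) * (2 * (1 / 10 ^ 30)) = 4 / 10 ^ 9 * L := by ring
        rw [h6]
        have h7 : (4 : ℝ) / 10 ^ 9 ≤ 1 / 200 := by norm_num
        have h8 := mul_le_mul_of_nonneg_right h7 hL0
        linarith
      linarith
    rw [hw50]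
    have h4 : Real.exp (L / 200) * Real.exp (-(L / 200)) = 1 := by
      rw [← Real.exp_add, add_neg_cancel, Real.exp_zero]
    rw [← h4]
    exact mul_le_mul_of_nonneg_left h3 (Real.exp_pos _).le
  refine ⟨⟨hL1, hv2, ?_, ?_, hP1, hP2, hr1, hr2, hk1, hphi, hn1, hn2, hlam, hgw⟩, hw1000⟩
  · rw [hL, Real.exp_log hvpos]
  · rw [hw10000]

end Pool.Agent.Lib.TriS
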