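import Pool.Agent.Lib.TriS.SBigE
import Pool.Agent.Lib.TriS.SNum
import Pool.Agent.Lib.TriS.SGset
import Pool.Agent.Lib.TriS.SHub
import Pool.Agent.Lib.TriS.SFinY
import Pool.Agent.Lib.TriS.SFinB

/-!
MODULE PartsT (assembly of section 3, helper35).

`BigV v` (in S3Defs): the real number `v` is large (only hypothesis on the size).
-/

set_option autoImplicit false

open scoped Classical

noncomputable section

namespace Pool.Agent.Lib.TriS

open Pool.Agent.Lib.TriD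

theorem parts {X Y B : Type} [Fintype X] [Fintype Y] [Fintype B] (A : X → B → Prop)
    (M : Y → B → Prop) (k c n : ℕ) (hS : DSys A M k c n) (hM : DMix A M k c n)
    (hk : 2 ≤ k) (hv : BigV ((k : ℝ) + c)) (hphi : (k : ℝ) ≤ 1 / 10 ^ 30 * (k + c)) :
    ∃ (G : Finset X) (P s r : ℕ) (pY : Y → Option (Fin P)) (pB : B → Option (Fin P))
      (hub : Fin P → Finset X), PartSys A M k G P s r pY pB hub (1 / 10 ^ 27) ∧
      P = ⌊((k : ℝ) + c) ^ ((1 : ℝ) / 100)⌋₊ ∧ r = ⌈10 ^ 21 * Real.log ((k : ℝ) + c)⌉₊ ∧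
      s = ⌊(1 - 1 / 10 ^ 28) * (((k : ℝ) + c) / P)⌋₊ ∧
      ((k : ℝ) + c) ^ ((1 : ℝ) / 10) / 4 ≤ G.card ∧
      (G.card : ℝ) ≤ 2 * ((k : ℝ) + c) ^ ((1 : ℝ) / 10) := by
  obtain ⟨hN, hw⟩ := n3_exists A M k c n hS hk hv hphi
  set P := ⌊((k : ℝ) + c) ^ ((1 : ℝ) / 100)⌋₊ with hP
  set r := ⌈10 ^ 21 * Real.log ((k : ℝ) + c)⌉₊ with hr
  obtain ⟨G, hG1, hG2, hG3⟩ := gset hS hN
  obtain ⟨hub, Ex, g, hH⟩ := hub_all hS hM hN G hG2
  obtain ⟨pY, hY⟩ := fin_y hS hN Ex hH.ex ⌊(1 - 1 / 10 ^ 28) * (((k : ℝ) + c) / P)⌋₊ rfl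
  obtain ⟨pB, hB⟩ := fin_b hS hN G hub Ex g hH ⌊(1 - 1 / 10 ^ 28) * (((k : ℝ) + c) / P)⌋₊ rfl
  rw [hw] at hG1 hG2
  have hP60 : (10 : ℝ) ^ 60 ≤ P := by
    have h1 : g * P ≤ 1 * P := mul_le_mul_of_nonneg_right hH.g1 (Nat.cast_nonneg _)
    linarith [hH.gP]
  have hP0 : (0 : ℝ) < P := lt_of_lt_of_le (by positivity) hP60
  have hk0 : (0 : ℝ) ≤ k := Nat.cast_nonneg _
  have hkP : (1 + 1 / 10 ^ 27) * ((k : ℝ) / P) ≤ 1 / 10 ^ 27 * k := by
    have h1 : (k : ℝ) / P ≤ k / 10 ^ 60 := by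
      exact div_le_div_of_nonneg_left hk0 (by positivity) hP60
    have h2 : (0 : ℝ) ≤ (k : ℝ) / P := div_nonneg hk0 hP0.le
    have h3 : (1 + 1 / 10 ^ 27 : ℝ) * ((k : ℝ) / P) ≤ 2 * ((k : ℝ) / 10 ^ 60) := by
      nlinarith
    refine h3.trans ?_
    have : (2 : ℝ) * ((k : ℝ) / 10 ^ 60) = (2 / 10 ^ 60) * k := by ring
    rw [this]
    exact mul_le_mul_of_nonneg_right (by norm_num) hk0
  refine ⟨G, P, _, r, pY, pB, hub, ?_, rfl, rfl, rfl, hG1, hG2⟩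
  refine
    { cY := hY.cY
      cB := hB.cB
      hubc := hH.hubc
      hubd := hH.hubd
      hubG := hH.hubG
      hubA := hB.hubA
      wY := hB.wY
      wB := hY.wB
      upY := hB.upY
      upB := ?_
      inY := ?_
      inB := fun l _ a => hY.inB l a
      pair := ?_
      hit := hB.hit
      GA := hG3 }
  · intro l a
    have := (abs_le.1 (hY.inB l a)).2
    refine le_trans ?_ hkP
    linarith
  · intro y hy a
    obtain ⟨b, hb⟩ := Option.ne_none_iff_exists'.1 hy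
    exact hB.inY y (hY.ex y b hb) a
  · intro y hy x hx a
    obtain ⟨b, hb⟩ := Option.ne_none_iff_exists'.1 hy
    exact hB.pair y (hY.ex y b hb) x hx a

end Pool.Agent.Lib.TriS
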