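import Pool.Agent.Lib.TriS.SDefs
import Pool.Agent.Lib.TriS.PartsT

/-!
MODULE NumD (about 200 lines). The numerical hypotheses from `BigV`.

Notation: `v = k + c ≥ 1`, `L = log v`, `b = v^(1/10000)`, `b ≥ 10^200 (L + 1) ≥ 10^200`. (`v^(1/100) = b^100`, `v^(1/10) = b^1000`, `v^(1/2) = b^5000`, `v = b^10000`.) `P = ⌊b^100⌋₊`, so `b^100/2 ≤ P ≤ b^100`. `g ∈ [b^1000/4, 2 b^1000]`. `k ≥ √v`-bound: `k (k - 1) = (k - n) (v - 1)` with `k - n ≥ 1` (`2 ≤ k`), hypothesis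
`hkk`; so `k^2 ≥ v`, `k ≥ b^5000`. `s = ⌊(1 - 1/10^28) (v/P)⌋₊ ≥ v/(2P) ≥ b^9900/2`.
`lam`: `(k - n)(v - 1) = k (k-1)`, so `k - n ≤ k * k/v ≤ 1/10^30 k` (`k ≤ v/10^30`; `k(k-1)/(v-1) ≤ k²/v` as `k ≤ v`). `vL`: equality. `Ps`: `s ≤ v/P`. `r1`, `r2`: `r = ⌈10^21 L⌉₊ ≤ 10^21 L + 1 ≤ 10^22 L`, needs `L ≥ 1`: `b ≥ 10^200` gives `v ≥ 3`. `P1`: `b^100/2 ≥ 10^60`. `G1`: `10^60 b^100 L ≤ b^1000/4`. `G2`: `10^60 b^100 2 b^1000 ≤ b^5000`.
`P2`: `√k ≥ b^2500`. `s3`: `10^60 b^200 L ≤ b^9900/2`.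
-/

set_option autoImplicit false

open scoped Classical

noncomputable section

namespace Pool.Agent.Lib.TriS

theorem num_design (k c n g P s r : ℕ) (hk : 2 ≤ k) (hnk : n < k)
    (hkk : (k : ℝ) * (k - 1) = ((k : ℝ) - n) * ((k : ℝ) + c - 1))
    (hv : BigV ((k : ℝ) + c)) (hphi : (k : ℝ) ≤ 1 / 10 ^ 30 * (k + c))
    (hP : P = ⌊((k : ℝ) + c) ^ ((1 : ℝ) / 100)⌋₊)
    (hr : r = ⌈10 ^ 21 * Real.log ((k : ℝ) + c)⌉₊)
    (hs : s = ⌊(1 - 1 / 10 ^ 28) * (((k : ℝ) + c) / P)⌋₊)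
    (hg1 : ((k : ℝ) + c) ^ ((1 : ℝ) / 10) / 4 ≤ g)
    (hg2 : (g : ℝ) ≤ 2 * ((k : ℝ) + c) ^ ((1 : ℝ) / 10)) :
    DNum k c n g P s r (Real.log ((k : ℝ) + c)) := by
  obtain ⟨hv1, hv2⟩ := hv
  set v : ℝ := (k : ℝ) + c with hvdef
  set L : ℝ := Real.log v with hL
  have hv0 : 0 < v := by linarith
  have hL0 : 0 ≤ L := Real.log_nonneg hv1
  set b : ℝ := v ^ ((1 : ℝ) / 10000) with hb
  set p : ℝ := v ^ ((1 : ℝ) / 100) with hp
  have hbp : b ^ 100 = p := by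
    rw [hb, hp, ← Real.rpow_natCast, ← Real.rpow_mul hv0.le]
    norm_num
  have hpv : p ^ 100 = v := by
    rw [hp, ← Real.rpow_natCast, ← Real.rpow_mul hv0.le]
    norm_num
  have hp10 : v ^ ((1 : ℝ) / 10) = p ^ 10 := by
    rw [hp, ← Real.rpow_natCast, ← Real.rpow_mul hv0.le]
    norm_num
  have hb200 : (10 : ℝ) ^ 200 ≤ b := by nlinarith
  have hb1 : (1 : ℝ) ≤ b := le_trans (by norm_num) hb200
  have hbp' : b ≤ p := by
    rw [← hbp]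
    exact le_self_pow₀ hb1 (by norm_num)
  have hpL : (10 : ℝ) ^ 200 * (L + 1) ≤ p := hv2.trans hbp'
  have hp200 : (10 : ℝ) ^ 200 ≤ p := hb200.trans hbp'
  have hp1 : (1 : ℝ) ≤ p := hb1.trans hbp'
  have hp0 : 0 < p := by linarith
  have hmono : ∀ i j : ℕ, i ≤ j → p ^ i ≤ p ^ j := fun i j h => pow_le_pow_right₀ hp1 h
  have hLp : 10 ^ 200 * L ≤ p := by
    refine le_trans ?_ hpL
    have : (0 : ℝ) ≤ 10 ^ 200 := by norm_num
    nlinarith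
  have hpv' : p ≤ v := by
    rw [← hpv]
    exact le_self_pow₀ hp1 (by norm_num)
  have hL1 : 1 ≤ L := by
    rw [hL, Real.le_log_iff_exp_le hv0]
    have := Real.exp_one_lt_d9
    have h3 : (3 : ℝ) ≤ 10 ^ 200 := by norm_num
    linarith
  have hk0 : (0 : ℝ) < k := by
    have : 0 < k := by omega
    exact_mod_cast this
  have hn0 : (0 : ℝ) ≤ n := Nat.cast_nonneg n
  have hkn : (1 : ℝ) ≤ (k : ℝ) - n := by
    have : (n : ℝ) + 1 ≤ k := by exact_mod_cast hnk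
    linarith
  have hkk' : (k : ℝ) * (k - 1) = ((k : ℝ) - n) * (v - 1) := by rw [hkk]
  have hkv : ((k : ℝ) - n) * v ≤ k * k := by nlinarith
  have hv2k : v ≤ (k : ℝ) ^ 2 := by nlinarith
  have hk50 : p ^ 50 ≤ k := by
    have h1 : (p ^ 50) ^ 2 ≤ (k : ℝ) ^ 2 := by
      rw [← pow_mul]
      show p ^ 100 ≤ _
      rw [hpv]
      exact hv2k
    exact le_of_sq_le_sq h1 hk0.le
  have hPle : (P : ℝ) ≤ p := by
    rw [hP]
    exact Nat.floor_le hp0.le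
  have hPge : p / 2 ≤ (P : ℝ) := by
    have h1 : p < (P : ℝ) + 1 := by
      rw [hP]
      exact Nat.lt_floor_add_one p
    have h2 : (2 : ℝ) ≤ 10 ^ 200 := by norm_num
    linarith
  have hP0 : (0 : ℝ) < P := by linarith
  have hvP0 : 0 ≤ (1 - 1 / 10 ^ 28 : ℝ) * (v / P) := by
    have h1 : 0 ≤ v / P := (div_pos hv0 hP0).le
    have h2 : (0 : ℝ) ≤ 1 - 1 / 10 ^ 28 := by norm_num
    exact mul_nonneg h2 h1
  have hvP : p ^ 99 ≤ v / P := by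
    rw [le_div_iff₀ hP0, ← hpv]
    calc p ^ 99 * (P : ℝ) ≤ p ^ 99 * p := mul_le_mul_of_nonneg_left hPle (pow_nonneg hp0.le _)
      _ = p ^ 100 := by ring
  have hsge : p ^ 99 / 2 ≤ (s : ℝ) := by
    have h1 : (1 - 1 / 10 ^ 28 : ℝ) * (v / P) < (s : ℝ) + 1 := by
      rw [hs]
      exact Nat.lt_floor_add_one _
    have h2 : (1 - 1 / 10 ^ 28 : ℝ) * p ^ 99 ≤ (1 - 1 / 10 ^ 28 : ℝ) * (v / P) :=
      mul_le_mul_of_nonneg_left hvP (by norm_num)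
    have h3 : p ≤ p ^ 99 := by
      have := hmono 1 99 (by norm_num)
      rwa [pow_one] at this
    have h4 : (10 : ℝ) ≤ 10 ^ 200 := by norm_num
    have h5 : (10 : ℝ) ≤ p ^ 99 := by linarith
    generalize p ^ 99 = q at *
    linarith
  have h200 : (10 : ℝ) ^ 60 * 4 ≤ 10 ^ 200 := by norm_num
  have h60p : (10 : ℝ) ^ 60 * 4 ≤ p := by linarith
  have h60 : (0 : ℝ) ≤ 10 ^ 60 := by norm_num
  have hLle : 4 * L ≤ p := by
    have : (4 : ℝ) ≤ 10 ^ 200 := by norm_num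
    nlinarith
  refine ⟨hL1, ?_, hnk.le, ?_, ?_, ?_, ?_, ?_, ?_, ?_, ?_, ?_⟩
  · rw [hL, Real.exp_log hv0]
  · have h1 : (k : ℝ) * k ≤ k * (1 / 10 ^ 30 * v) := mul_le_mul_of_nonneg_left hphi hk0.le
    have h2 : ((k : ℝ) - n) * v ≤ (1 / 10 ^ 30 * k) * v := by
      refine (hkv.trans h1).trans (le_of_eq ?_)
      ring
    exact le_of_mul_le_mul_right h2 hv0
  · have h1 : (s : ℝ) ≤ (1 - 1 / 10 ^ 28 : ℝ) * (v / P) := by
      rw [hs]
      exact Nat.floor_le hvP0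
    have h2 : (1 - 1 / 10 ^ 28 : ℝ) * (v / P) ≤ v / P := by
      have h3 : 0 ≤ v / P := (div_pos hv0 hP0).le
      have h4 : (1 - 1 / 10 ^ 28 : ℝ) ≤ 1 := by norm_num
      exact mul_le_of_le_one_left h3 h4
    calc (P : ℝ) * s ≤ P * (v / P) := mul_le_mul_of_nonneg_left (h1.trans h2) hP0.le
      _ = v := by field_simp
  · rw [hr]
    exact Nat.le_ceil _
  · have h1 : (r : ℝ) < 10 ^ 21 * L + 1 := by
      rw [hr]
      exact Nat.ceil_lt_add_one (by positivity)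
    nlinarith
  · linarith
  · have h1 : 10 ^ 60 * (P : ℝ) * L ≤ p ^ 3 / 4 := by
      calc 10 ^ 60 * (P : ℝ) * L ≤ p * p * (p / 4) := by
            have e1 : (10 : ℝ) ^ 60 ≤ p := by linarith
            have e2 : L ≤ p / 4 := by linarith
            have e3 : (10 : ℝ) ^ 60 * (P : ℝ) ≤ p * p :=
              mul_le_mul e1 hPle hP0.le hp0.le
            exact mul_le_mul e3 e2 hL0 (mul_nonneg hp0.le hp0.le)
        _ = p ^ 3 / 4 := by ring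
    have h2 := hmono 3 10 (by norm_num)
    rw [hp10] at hg1
    linarith
  · have h1 : (10 : ℝ) ^ 60 * (P : ℝ) * g ≤ p ^ 12 := by
      have e1 : (10 : ℝ) ^ 60 * (P : ℝ) ≤ 10 ^ 60 * p := mul_le_mul_of_nonneg_left hPle h60
      have e2 : (g : ℝ) ≤ 2 * p ^ 10 := by rwa [hp10] at hg2
      have e3 : (10 : ℝ) ^ 60 * (P : ℝ) * g ≤ (10 ^ 60 * p) * (2 * p ^ 10) :=
        mul_le_mul e1 e2 (Nat.cast_nonneg g) (mul_nonneg h60 hp0.le)
      have e4 : (10 : ℝ) ^ 60 * p * (2 * p ^ 10) = (10 ^ 60 * 2) * p ^ 11 := by ring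
      have e5 : ((10 : ℝ) ^ 60 * 2) * p ^ 11 ≤ p * p ^ 11 := by
        refine mul_le_mul_of_nonneg_right ?_ (pow_nonneg hp0.le _)
        linarith
      have e6 : p * p ^ 11 = p ^ 12 := by ring
      linarith
    exact (h1.trans (hmono 12 50 (by norm_num))).trans hk50
  · have h1 : (10 : ℝ) ^ 60 * (P : ℝ) ≤ p * p := by
      refine mul_le_mul ?_ hPle hP0.le hp0.le
      linarith
    have h2 : p * p ≤ p ^ 25 := by
      have := hmono 2 25 (by norm_num)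
      rwa [pow_two] at this
    have h3 : p ^ 25 ≤ Real.sqrt k := by
      refine Real.le_sqrt_of_sq_le ?_
      rw [← pow_mul]
      exact hk50
    linarith
  · have h1 : (10 : ℝ) ^ 60 * (P : ℝ) ^ 2 * L ≤ p ^ 4 := by
      have e1 : (10 : ℝ) ^ 60 * (P : ℝ) ^ 2 ≤ p * p ^ 2 := by
        refine mul_le_mul ?_ (pow_le_pow_left₀ hP0.le hPle 2) (by positivity) hp0.le
        linarith
      have e2 : L ≤ p := by linarith
      calc (10 : ℝ) ^ 60 * (P : ℝ) ^ 2 * L ≤ p * p ^ 2 * p :=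
            mul_le_mul e1 e2 hL0 (by positivity)
        _ = p ^ 4 := by ring
    have h2 : p ^ 4 ≤ p ^ 99 / 2 := by
      have e1 := hmono 5 99 (by norm_num)
      have e2 : 2 * p ^ 4 ≤ p ^ 5 := by
        have e3 : p ^ 5 = p * p ^ 4 := by ring
        rw [e3]
        refine mul_le_mul_of_nonneg_right ?_ (pow_nonneg hp0.le _)
        linarith
      linarith
    linarith

end Pool.Agent.Lib.TriS
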