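import Pool.Agent.Lib.TriS.LDefs
import Pool.Agent.Lib.TriS.Block

/-!
MODULE PIter (about 200 lines). Iteration of the block lemma over the layers.

PROOF. Claim for `j ≤ J`: there are `Mt : X → Finset (U × V)` such that with `D_j = (range j).biUnion Q`, `W = D_j.biUnion Mt`:
for `x ∈ D_j`: `Mt x ⊆ H \ P`, `IsPM (Mt x) (wt nu x) (wt nv x)`; pairwise disjoint on `D_j`; `W` is disjoint from `Pl j`; and `O_j := (H \ Pl j) \ W` satisfies
`card {v ∈ nb O_j u | x ∉ nv v} ≤ 1/10^5 * o j` for `x ∈ Cl j` (and the transposed statement). (If `j = J` nothing is claimed about `O_J` beyond this.)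
`j = 0`: `W = ∅`; the bad neighbours in `H` are `≤ el/10^9 (|C| + ρ) ≤ 2/10^9 * o 0` (`bad`, `o0`, `el ≤ 1`).
Step `j < J`: `BHyp O_j (Pl j) (R j) nu nv (Cl j) (Q j) ρ (dP j) (o j) (sg * o j) L`: `deg`: `O_j ∪ Pl j = H \ W` (`Pl j ⊆ H`, `W` disjoint from it), `card_nb_family` gives
`card (nb (H \ W) u) = card (nu u) + ρ - card (D_j ∩ nu u) = card (nu u ∩ Cl j) + ρ` (`nu u ⊆ C = D_j ∪ Cl j`, disjoint: `Qu`, `Qd`, `Ce ⊆ C`, `Q i ⊆ C \ Ce`); `miss, degP, degR, badR, missQ` from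
`side1`, `side2` (`tr (Pl J P R j) = Pl J (tr P) (tr ∘ R) j`), `badO` from the claim. `block` gives `Mt'` on `Q j`; extend `Mt` by it. New `O_{j+1} = (H \ Pl (j+1)) \ W' = (O_j ∪ R j) \ (Q j).biUnion Mt'`
since `Pl j = Pl (j+1) ∪ R j`, `R j` disjoint from `Pl (j+1)` and from `W`. `o (j+1) = o j - 7/8 (sg o j)`. The new matchings are in `O_j ∪ R j`, disjoint from `W`, from `P` and from `Pl (j+1)`.
At `j = J`: `D_J = C \ Ce`.
-/

set_option autoImplicit false

open scoped Classical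

noncomputable section

namespace Pool.Agent.Lib.TriS

private theorem mem_Pl {E : Type} {J : ℕ} {P : Finset E} {R : ℕ → Finset E} {j : ℕ} {e : E} :
    e ∈ Pl J P R j ↔ e ∈ P ∨ ∃ i, (j ≤ i ∧ i < J) ∧ e ∈ R i := by
  unfold Pl
  simp only [Finset.mem_union, Finset.mem_biUnion, Finset.mem_Ico]

private theorem tr_Pl {U V : Type} (J : ℕ) (P : Finset (U × V)) (R : ℕ → Finset (U × V)) (j : ℕ) :
    tr (Pl J P R j) = Pl J (tr P) (fun i => tr (R i)) j := by
  ext ⟨v, u⟩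
  simp only [mem_tr, mem_Pl]

private theorem tr_O {U V X : Type} (J : ℕ) (H P : Finset (U × V)) (R : ℕ → Finset (U × V)) (j : ℕ)
    (D : Finset X) (Mt : X → Finset (U × V)) :
    tr ((H \ Pl J P R j) \ D.biUnion Mt) =
      (tr H \ Pl J (tr P) (fun i => tr (R i)) j) \ D.biUnion (fun x => tr (Mt x)) := by
  rw [tr_sdiff, tr_sdiff, tr_biUnion, tr_Pl]

private theorem bside {U V X : Type} [Fintype U] [Fintype V] (H P : Finset (U × V))
    (nu : U → Finset X) (nv : V → Finset X) (C Ce : Finset X) (ρ : ℕ) (sg : ℝ) (J : ℕ)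
    (o dP : ℕ → ℝ) (Q : ℕ → Finset X) (R : ℕ → Finset (U × V)) (j : ℕ) (hj : j < J)
    (hPl : Pl J P R j ⊆ H) (hs : LSide P nu nv C Ce J sg o dP Q R)
    (hsub : ∀ u, nu u ⊆ C) (hdeg : ∀ u, (nb H u).card = (nu u).card + ρ)
    (D : Finset X) (hCl : Cl J Ce Q j ∪ D = C) (hdj : Disjoint (Cl J Ce Q j) D)
    (Mt : X → Finset (U × V)) (hM : ∀ x ∈ D, Mt x ⊆ H ∧ IsPM (Mt x) (wt nu x) (wt nv x))
    (hd : ∀ x ∈ D, ∀ x' ∈ D, x ≠ x' → Disjoint (Mt x) (Mt x'))
    (hW : ∀ x ∈ D, Disjoint (Mt x) (Pl J P R j))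
    (hbad : ∀ u, ∀ x ∈ Cl J Ce Q j,
      (((nb ((H \ Pl J P R j) \ D.biUnion Mt) u).filter fun v => x ∉ nv v).card : ℝ) ≤
        1 / 10 ^ 5 * o j) :
    BSide ((H \ Pl J P R j) \ D.biUnion Mt) (Pl J P R j) (R j) nu nv (Cl J Ce Q j) (Q j) ρ
      (dP j) (o j) (sg * o j) where
  deg := by
    intro u
    have e1 : (H \ Pl J P R j) \ D.biUnion Mt ∪ Pl J P R j = H \ D.biUnion Mt := by
      ext e
      simp only [Finset.mem_union, Finset.mem_sdiff, Finset.mem_biUnion, not_exists, not_and]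
      constructor
      · rintro (h | h)
        · exact ⟨h.1.1, h.2⟩
        · exact ⟨hPl h, fun x hx hx' => Finset.disjoint_left.1 (hW x hx) hx' h⟩
      · intro h
        by_cases h' : e ∈ Pl J P R j
        · exact Or.inr h'
        · exact Or.inl ⟨⟨h.1, h'⟩, h.2⟩
    rw [e1]
    have e2 := card_nb_family H nu nv D Mt hM hd u
    rw [hdeg u] at e2
    have e3 : (nu u).card = (nu u ∩ Cl J Ce Q j).card + (D ∩ nu u).card := by
      rw [Finset.inter_comm D, ← Finset.card_union_of_disjoint]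
      · rw [← Finset.inter_union_distrib_left, hCl, Finset.inter_eq_left.2 (hsub u)]
      · exact Finset.disjoint_of_subset_left Finset.inter_subset_right
          (Finset.disjoint_of_subset_right Finset.inter_subset_right hdj)
    omega
  miss := hs.miss j hj
  degP := hs.degP j hj
  degR := hs.degR j hj
  badR := by
    intro u x hx
    refine hs.badR j hj u x ?_
    rw [← hCl]
    exact Finset.mem_union_left _ hx
  missQ := hs.missQ j hj
  badO := hbad

/-- state after `j` blocks -/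
private structure St {U V X : Type} [Fintype U] [Fintype V] (H P : Finset (U × V))
    (nu : U → Finset X) (nv : V → Finset X) (Ce : Finset X) (J : ℕ)
    (o : ℕ → ℝ) (Q : ℕ → Finset X) (R : ℕ → Finset (U × V)) (j : ℕ)
    (Mt : X → Finset (U × V)) : Prop where
  a : ∀ x ∈ (Finset.range j).biUnion Q, Mt x ⊆ H \ P ∧ IsPM (Mt x) (wt nu x) (wt nv x)
  b : ∀ x ∈ (Finset.range j).biUnion Q, ∀ y ∈ (Finset.range j).biUnion Q, x ≠ y →
    Disjoint (Mt x) (Mt y)
  c : ∀ x ∈ (Finset.range j).biUnion Q, Disjoint (Mt x) (Pl J P R j)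
  d : ∀ u, ∀ x ∈ Cl J Ce Q j,
    (((nb ((H \ Pl J P R j) \ ((Finset.range j).biUnion Q).biUnion Mt) u).filter
      fun v => x ∉ nv v).card : ℝ) ≤ 1 / 10 ^ 5 * o j
  e : ∀ v, ∀ x ∈ Cl J Ce Q j,
    (((nb (tr ((H \ Pl J P R j) \ ((Finset.range j).biUnion Q).biUnion Mt)) v).filter
      fun u => x ∉ nu u).card : ℝ) ≤ 1 / 10 ^ 5 * o j

section combin

variable {U V X : Type} {H P : Finset (U × V)}
    {nu : U → Finset X} {nv : V → Finset X} {C Ce : Finset X} {ρ : ℕ} {L sg : ℝ} {J : ℕ}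
    {o dP : ℕ → ℝ} {Q : ℕ → Finset X} {R : ℕ → Finset (U × V)}

private theorem QinC [Fintype U] [Fintype V] (h : Layers H P nu nv C Ce ρ L J sg o dP Q R) {j : ℕ} (hj : j < J) :
    Q j ⊆ C \ Ce := by
  intro x hx
  rw [← h.Qu]
  exact Finset.mem_biUnion.2 ⟨j, Finset.mem_range.2 hj, hx⟩

private theorem Cl_union [Fintype U] [Fintype V] (h : Layers H P nu nv C Ce ρ L J sg o dP Q R) (hCe : Ce ⊆ C) {j : ℕ}
    (hj : j ≤ J) : Cl J Ce Q j ∪ (Finset.range j).biUnion Q = C := by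
  unfold Cl
  ext x
  simp only [Finset.mem_union, Finset.mem_biUnion, Finset.mem_Ico, Finset.mem_range]
  constructor
  · rintro ((hx | ⟨i, hi, hx⟩) | ⟨i, hi, hx⟩)
    · exact hCe hx
    · exact (Finset.mem_sdiff.1 (QinC h hi.2 hx)).1
    · exact (Finset.mem_sdiff.1 (QinC h (lt_of_lt_of_le hi hj) hx)).1
  · intro hx
    by_cases hx' : x ∈ Ce
    · exact Or.inl (Or.inl hx')
    · have : x ∈ C \ Ce := Finset.mem_sdiff.2 ⟨hx, hx'⟩
      rw [← h.Qu] at this
      obtain ⟨i, hi, hxi⟩ := Finset.mem_biUnion.1 this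
      rw [Finset.mem_range] at hi
      by_cases hij : i < j
      · exact Or.inr ⟨i, hij, hxi⟩
      · exact Or.inl (Or.inr ⟨i, ⟨not_lt.1 hij, hi⟩, hxi⟩)

private theorem Cl_disj [Fintype U] [Fintype V] (h : Layers H P nu nv C Ce ρ L J sg o dP Q R) {j : ℕ}
    (hj : j ≤ J) : Disjoint (Cl J Ce Q j) ((Finset.range j).biUnion Q) := by
  unfold Cl
  rw [Finset.disjoint_left]
  intro x hx hx'
  obtain ⟨i, hi, hxi⟩ := Finset.mem_biUnion.1 hx'
  rw [Finset.mem_range] at hi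
  rcases Finset.mem_union.1 hx with hx | hx
  · exact (Finset.mem_sdiff.1 (QinC h (lt_of_lt_of_le hi hj) hxi)).2 hx
  · obtain ⟨k, hk, hxk⟩ := Finset.mem_biUnion.1 hx
    rw [Finset.mem_Ico] at hk
    exact Finset.disjoint_left.1
      (h.Qd i (lt_of_lt_of_le hi hj) k hk.2 (by omega)) hxi hxk

private theorem Pl_sub [Fintype U] [Fintype V] (h : Layers H P nu nv C Ce ρ L J sg o dP Q R) (hP : P ⊆ H) (j : ℕ) :
    Pl J P R j ⊆ H := by
  intro e he
  rcases mem_Pl.1 he with he | ⟨k, hk, hek⟩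
  · exact hP he
  · exact (Finset.mem_sdiff.1 (h.Rs k hk.2 hek)).1

private theorem P_sub (j : ℕ) : P ⊆ Pl J P R j := fun _ he => mem_Pl.2 (Or.inl he)

private theorem R_sub {j : ℕ} (hj : j < J) : R j ⊆ Pl J P R j := by
  intro e he
  exact mem_Pl.2 (Or.inr ⟨j, ⟨le_rfl, hj⟩, he⟩)

private theorem Pl_succ {j : ℕ} (hj : j < J) : Pl J P R j = Pl J P R (j + 1) ∪ R j := by
  ext e
  simp only [Finset.mem_union, mem_Pl]
  constructor
  · rintro (he | ⟨i, hi, he⟩)
    · exact Or.inl (Or.inl he)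
    · by_cases hij : i = j
      · subst hij
        exact Or.inr he
      · exact Or.inl (Or.inr ⟨i, ⟨by omega, hi.2⟩, he⟩)
  · rintro ((he | ⟨i, hi, he⟩) | he)
    · exact Or.inl he
    · exact Or.inr ⟨i, ⟨by omega, hi.2⟩, he⟩
    · exact Or.inr ⟨j, ⟨le_rfl, hj⟩, he⟩

private theorem R_disj [Fintype U] [Fintype V] (h : Layers H P nu nv C Ce ρ L J sg o dP Q R) {j : ℕ} (hj : j < J) :
    Disjoint (R j) (Pl J P R (j + 1)) := by
  rw [Finset.disjoint_left]
  intro e he he'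
  rcases mem_Pl.1 he' with he' | ⟨k, hk, hek⟩
  · exact (Finset.mem_sdiff.1 (h.Rs j hj he)).2 he'
  · exact Finset.disjoint_left.1 (h.Rd j hj k hk.2 (by omega)) he hek

private theorem opos [Fintype U] [Fintype V] (h : Layers H P nu nv C Ce ρ L J sg o dP Q R) (hL : 1 ≤ L) {j : ℕ}
    (hj : j < J) : 0 < o j := by
  have h1 := h.sL j hj
  have h2 := h.sg1
  by_contra h3
  rw [not_lt] at h3
  have : sg * o j ≤ 0 := mul_nonpos_of_nonneg_of_nonpos (by linarith) h3
  nlinarith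

end combin

private theorem hyp {U V X : Type} [Fintype U] [Fintype V] (H P : Finset (U × V))
    (nu : U → Finset X) (nv : V → Finset X) (C Ce : Finset X) (ρ : ℕ) (L el de sg : ℝ) (J : ℕ)
    (o dP : ℕ → ℝ) (Q : ℕ → Finset X) (R : ℕ → Finset (U × V))
    (h : Layers H P nu nv C Ce ρ L J sg o dP Q R) (hP : P ⊆ H) (hCe : Ce ⊆ C)
    (h1 : PSide H P nu nv C Ce ρ de (el / 10 ^ 9))
    (h2 : PSide (tr H) (tr P) nv nu C Ce ρ de (el / 10 ^ 9)) (hL : 1 ≤ L)
    (hUV : Fintype.card U = Fintype.card V) (hN : (Fintype.card U : ℝ) ≤ Real.exp L)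
    (hC : (C.card : ℝ) ≤ Real.exp L) (hbal : ∀ x ∈ C, (wt nu x).card = (wt nv x).card)
    (j : ℕ) (hj : j < J) (Mt : X → Finset (U × V)) (hS : St H P nu nv Ce J o Q R j Mt) :
    BHyp ((H \ Pl J P R j) \ ((Finset.range j).biUnion Q).biUnion Mt) (Pl J P R j) (R j) nu nv
      (Cl J Ce Q j) (Q j) ρ (dP j) (o j) (sg * o j) L := by
  have hCU := Cl_union h hCe hj.le
  have hCD := Cl_disj h hj.le
  have ho := opos h hL hj
  have hCC : Cl J Ce Q j ⊆ C := by
    intro x hx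
    rw [← hCU]
    exact Finset.mem_union_left _ hx
  refine
    { s1 := ?_, s2 := ?_, dOP := ?_, RP := ?_, QC := ?_, so1 := ?_, so2 := ?_, sL := ?_,
      L1 := hL, NL := hN, CL := ?_, cUV := hUV, cC := ?_, cQ := ?_, bal := ?_, mix := ?_ }
  · exact bside H P nu nv C Ce ρ sg J o dP Q R j hj (Pl_sub h hP j) h.side1 h1.sub h1.deg _ hCU hCD
      Mt (fun x hx => ⟨(hS.a x hx).1.trans Finset.sdiff_subset, (hS.a x hx).2⟩) hS.b hS.c hS.d
  · rw [tr_O, tr_Pl]
    refine bside (tr H) (tr P) nv nu C Ce ρ sg J o dP Q (fun i => tr (R i)) j hj ?_ h.side2 h2.sub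
      h2.deg _ hCU hCD (fun x => tr (Mt x)) ?_ ?_ ?_ ?_
    · rw [← tr_Pl]
      exact tr_subset.2 (Pl_sub h hP j)
    · intro x hx
      exact ⟨tr_subset.2 ((hS.a x hx).1.trans Finset.sdiff_subset), (hS.a x hx).2.tr⟩
    · intro x hx y hy hxy
      have := hS.b x hx y hy hxy
      rw [Finset.disjoint_left] at this ⊢
      rintro ⟨v, u⟩ ha hb
      exact this (mem_tr.1 ha) (mem_tr.1 hb)
    · intro x hx
      have := hS.c x hx
      rw [← tr_Pl]
      rw [Finset.disjoint_left] at this ⊢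
      rintro ⟨v, u⟩ ha hb
      exact this (mem_tr.1 ha) (mem_tr.1 hb)
    · intro v x hx
      rw [← tr_O]
      exact hS.e v x hx
  · rw [Finset.disjoint_left]
    intro e he he'
    exact (Finset.mem_sdiff.1 (Finset.mem_sdiff.1 he).1).2 he'
  · exact R_sub hj
  · intro x hx
    exact Finset.mem_union_right _ (Finset.mem_biUnion.2 ⟨j, Finset.mem_Ico.2 ⟨le_rfl, hj⟩, hx⟩)
  · have := h.sg1
    nlinarith
  · have := h.sg2
    nlinarith
  · exact h.sL j hj
  · exact le_trans (by exact_mod_cast Finset.card_le_card hCC) hC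
  · refine (h.cC j hj).trans ?_
    nlinarith
  · exact h.cQ j hj
  · intro x hx
    exact hbal x (Finset.mem_sdiff.1 (QinC h hj hx)).1
  · exact h.mix j hj

private theorem step {U V X : Type} [Fintype U] [Fintype V] (H P : Finset (U × V))
    (nu : U → Finset X) (nv : V → Finset X) (C Ce : Finset X) (ρ : ℕ) (L el de sg : ℝ) (J : ℕ)
    (o dP : ℕ → ℝ) (Q : ℕ → Finset X) (R : ℕ → Finset (U × V))
    (h : Layers H P nu nv C Ce ρ L J sg o dP Q R) (hP : P ⊆ H) (hCe : Ce ⊆ C)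
    (h1 : PSide H P nu nv C Ce ρ de (el / 10 ^ 9))
    (h2 : PSide (tr H) (tr P) nv nu C Ce ρ de (el / 10 ^ 9)) (hL : 1 ≤ L)
    (hUV : Fintype.card U = Fintype.card V) (hN : (Fintype.card U : ℝ) ≤ Real.exp L)
    (hC : (C.card : ℝ) ≤ Real.exp L) (hbal : ∀ x ∈ C, (wt nu x).card = (wt nv x).card)
    (j : ℕ) (hj : j < J) (Mt : X → Finset (U × V)) (hS : St H P nu nv Ce J o Q R j Mt) :
    ∃ Mt' : X → Finset (U × V), St H P nu nv Ce J o Q R (j + 1) Mt' := by
  have hB := hyp H P nu nv C Ce ρ L el de sg J o dP Q R h hP hCe h1 h2 hL hUV hN hC hbal j hj Mt hS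
  obtain ⟨Mn, n1, n2, n3, n4⟩ := block _ _ _ _ _ _ _ _ _ _ _ _ hB
  have hDQ : Disjoint ((Finset.range j).biUnion Q) (Q j) := by
    rw [Finset.disjoint_left]
    intro x hx hx'
    obtain ⟨i, hi, hxi⟩ := Finset.mem_biUnion.1 hx
    rw [Finset.mem_range] at hi
    exact Finset.disjoint_left.1 (h.Qd i (by omega) j hj (by omega)) hxi hx'
  have hDs : (Finset.range (j + 1)).biUnion Q = (Finset.range j).biUnion Q ∪ Q j := by
    rw [Finset.range_add_one, Finset.biUnion_insert, Finset.union_comm]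
  set D := (Finset.range j).biUnion Q with hD
  set Mt' : X → Finset (U × V) := fun x => if x ∈ Q j then Mn x else Mt x with hMt'
  have hQ : ∀ x ∈ Q j, Mt' x = Mn x := fun x hx => if_pos hx
  have hDD : ∀ x ∈ D, Mt' x = Mt x := fun x hx => if_neg (Finset.disjoint_left.1 hDQ hx)
  have hWn : (D ∪ Q j).biUnion Mt' = D.biUnion Mt ∪ (Q j).biUnion Mn := by
    rw [Finset.union_biUnion, Finset.biUnion_congr rfl hDD, Finset.biUnion_congr rfl hQ]
  have hOn : (H \ Pl J P R (j + 1)) \ (D ∪ Q j).biUnion Mt' =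
      (((H \ Pl J P R j) \ D.biUnion Mt) ∪ R j) \ (Q j).biUnion Mn := by
    rw [hWn, Pl_succ hj]
    have hRd := R_disj h hj
    rw [Finset.disjoint_left] at hRd
    ext e
    have hRW : e ∈ R j → e ∉ D.biUnion Mt := by
      intro he he'
      obtain ⟨x, hx, hex⟩ := Finset.mem_biUnion.1 he'
      exact Finset.disjoint_left.1 (hS.c x hx) hex (R_sub hj he)
    have hRH : e ∈ R j → e ∈ H := fun he => (Finset.mem_sdiff.1 (h.Rs j hj he)).1
    have hRd' := @hRd e
    simp only [Finset.mem_union, Finset.mem_sdiff]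
    tauto
  have hnO : ∀ x ∈ Q j, Mn x ⊆ H \ P := by
    intro x hx e he
    rcases Finset.mem_union.1 ((n1 x hx).1 he) with h' | h'
    · have h3 := Finset.mem_sdiff.1 (Finset.mem_sdiff.1 h').1
      exact Finset.mem_sdiff.2 ⟨h3.1, fun h4 => h3.2 (P_sub j h4)⟩
    · exact h.Rs j hj h'
  have hcross : ∀ x ∈ D, ∀ y ∈ Q j, Disjoint (Mt x) (Mn y) := by
    intro x hx y hy
    rw [Finset.disjoint_left]
    intro e he he'
    rcases Finset.mem_union.1 ((n1 y hy).1 he') with h' | h'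
    · exact (Finset.mem_sdiff.1 h').2 (Finset.mem_biUnion.2 ⟨x, hx, he⟩)
    · exact Finset.disjoint_left.1 (hS.c x hx) he (R_sub hj h')
  have hClm : Cl J Ce Q (j + 1) ⊆ Cl J Ce Q j := by
    intro x hx
    unfold Cl at hx ⊢
    rcases Finset.mem_union.1 hx with hx | hx
    · exact Finset.mem_union_left _ hx
    · obtain ⟨k, hk, hxk⟩ := Finset.mem_biUnion.1 hx
      rw [Finset.mem_Ico] at hk
      exact Finset.mem_union_right _
        (Finset.mem_biUnion.2 ⟨k, Finset.mem_Ico.2 ⟨by omega, hk.2⟩, hxk⟩)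
  refine ⟨Mt', ?_⟩
  refine { a := ?_, b := ?_, c := ?_, d := ?_, e := ?_ }
  · rw [hDs]
    intro x hx
    rcases Finset.mem_union.1 hx with hx | hx
    · rw [hDD x hx]
      exact hS.a x hx
    · rw [hQ x hx]
      exact ⟨hnO x hx, (n1 x hx).2⟩
  · rw [hDs]
    intro x hx y hy hxy
    rcases Finset.mem_union.1 hx with hx | hx <;> rcases Finset.mem_union.1 hy with hy | hy
    · rw [hDD x hx, hDD y hy]
      exact hS.b x hx y hy hxy
    · rw [hDD x hx, hQ y hy]
      exact hcross x hx y hy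
    · rw [hQ x hx, hDD y hy]
      exact (hcross y hy x hx).symm
    · rw [hQ x hx, hQ y hy]
      exact n2 x hx y hy hxy
  · rw [hDs]
    intro x hx
    rcases Finset.mem_union.1 hx with hx | hx
    · rw [hDD x hx]
      refine Finset.disjoint_of_subset_right ?_ (hS.c x hx)
      rw [Pl_succ hj]
      exact Finset.subset_union_left
    · rw [hQ x hx, Finset.disjoint_left]
      intro e he he'
      rcases Finset.mem_union.1 ((n1 x hx).1 he) with h' | h'
      · refine (Finset.mem_sdiff.1 (Finset.mem_sdiff.1 h').1).2 ?_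
        rw [Pl_succ hj]
        exact Finset.mem_union_left _ he'
      · exact Finset.disjoint_left.1 (R_disj h hj) h' he'
  · rw [hDs, hOn, h.osucc j hj]
    intro u x hx
    exact n3 u x (hClm hx)
  · rw [hDs, hOn, h.osucc j hj]
    intro v x hx
    exact n4 v x (hClm hx)

private theorem init {U V X : Type} [Fintype U] [Fintype V] (H P : Finset (U × V))
    (nu : U → Finset X) (nv : V → Finset X) (C Ce : Finset X) (ρ : ℕ) (L el de sg : ℝ) (J : ℕ)
    (o dP : ℕ → ℝ) (Q : ℕ → Finset X) (R : ℕ → Finset (U × V))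
    (h : Layers H P nu nv C Ce ρ L J sg o dP Q R) (hCe : Ce ⊆ C)
    (hel1 : el ≤ 1) (h1 : PSide H P nu nv C Ce ρ de (el / 10 ^ 9))
    (h2 : PSide (tr H) (tr P) nv nu C Ce ρ de (el / 10 ^ 9)) :
    St H P nu nv Ce J o Q R 0 (fun _ => ∅) := by
  have hCl : Cl J Ce Q 0 ⊆ C := by
    have := Cl_union h hCe (Nat.zero_le J)
    intro x hx
    rw [← this]
    exact Finset.mem_union_left _ hx
  have hnum : el / 10 ^ 9 * ((C.card : ℝ) + ρ) ≤ 1 / 10 ^ 5 * o 0 := by
    have h3 := h.o0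
    have h4 : (0 : ℝ) ≤ (C.card : ℝ) + ρ := by positivity
    nlinarith
  refine { a := ?_, b := ?_, c := ?_, d := ?_, e := ?_ }
  · intro x hx
    simp at hx
  · intro x hx
    simp at hx
  · intro x hx
    simp at hx
  · intro u x hx
    refine le_trans ?_ ((h1.bad u x (hCl hx)).trans hnum)
    refine Nat.cast_le.2 (Finset.card_le_card (Finset.filter_subset_filter _ (nb_mono ?_ u)))
    exact Finset.sdiff_subset.trans Finset.sdiff_subset
  · intro v x hx
    refine le_trans ?_ ((h2.bad v x (hCl hx)).trans hnum)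
    refine Nat.cast_le.2 (Finset.card_le_card (Finset.filter_subset_filter _ (nb_mono ?_ v)))
    exact tr_subset.2 (Finset.sdiff_subset.trans Finset.sdiff_subset)

theorem process_of_layers {U V X : Type} [Fintype U] [Fintype V] (H P : Finset (U × V))
    (nu : U → Finset X) (nv : V → Finset X) (C Ce : Finset X) (ρ : ℕ) (L el de sg : ℝ) (J : ℕ)
    (o dP : ℕ → ℝ) (Q : ℕ → Finset X) (R : ℕ → Finset (U × V))
    (h : Layers H P nu nv C Ce ρ L J sg o dP Q R) (hP : P ⊆ H) (hCe : Ce ⊆ C)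
    (hel : 0 < el) (hel1 : el ≤ 1) (h1 : PSide H P nu nv C Ce ρ de (el / 10 ^ 9))
    (h2 : PSide (tr H) (tr P) nv nu C Ce ρ de (el / 10 ^ 9)) (hL : 1 ≤ L)
    (hUV : Fintype.card U = Fintype.card V) (hN : (Fintype.card U : ℝ) ≤ Real.exp L)
    (hC : (C.card : ℝ) ≤ Real.exp L) (hbal : ∀ x ∈ C, (wt nu x).card = (wt nv x).card) :
    ∃ Mt : X → Finset (U × V), (∀ x ∈ C \ Ce, Mt x ⊆ H \ P ∧ IsPM (Mt x) (wt nu x) (wt nv x)) ∧
      ∀ x ∈ C \ Ce, ∀ y ∈ C \ Ce, x ≠ y → Disjoint (Mt x) (Mt y) := by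
  have key : ∀ j, j ≤ J → ∃ Mt : X → Finset (U × V), St H P nu nv Ce J o Q R j Mt := by
    intro j
    induction j with
    | zero =>
      intro _
      exact ⟨_, init H P nu nv C Ce ρ L el de sg J o dP Q R h hCe hel1 h1 h2⟩
    | succ j ih =>
      intro hj
      obtain ⟨Mt, hMt⟩ := ih (by omega)
      exact step H P nu nv C Ce ρ L el de sg J o dP Q R h hP hCe h1 h2 hL hUV hN hC hbal j
        (by omega) Mt hMt
  obtain ⟨Mt, hMt⟩ := key J le_rfl
  refine ⟨Mt, ?_, ?_⟩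
  · rw [← h.Qu]
    exact hMt.a
  · rw [← h.Qu]
    exact hMt.b

end Pool.Agent.Lib.TriS
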