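import Pool.Agent.Lib.TriS.DPM

/-!
MODULE PhGraph (about 110 lines). The auxiliary graph of one step of the phase lemma.

PROOF. `H = {(z,x) | z ∈ N0, x ∈ nd, x ∈ al z, x ∉ rcv z}` as a `Finset (Z × X)`; `f = card N0 = card nd ≥ F0`. Degree of `z ∈ N0`: `≥ f - F0/16 - ka F0 ≥ f (1 - 1/16 - 1/1000) ≥ 7/8 f`. Degree of `x ∈ nd`: `≥ f - F0/16 - (16 ka F0 + 4L) ≥
f (1 - 1/16 - 16/1000 - 4/300) ≥ 7/8 f`. `dpm`.
-/

set_option autoImplicit false

open scoped Classical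

noncomputable section

namespace Pool.Agent.Lib.TriS

/-- the auxiliary graph -/
private def phgH {Z X : Type} [Fintype Z] [Fintype X] (N0 : Finset Z) (nd : Finset X)
    (al rcv : Z → Finset X) : Finset (Z × X) :=
  Finset.univ.filter fun p => p.1 ∈ N0 ∧ p.2 ∈ nd ∧ p.2 ∈ al p.1 ∧ p.2 ∉ rcv p.1

private theorem phg_mem {Z X : Type} [Fintype Z] [Fintype X] (N0 : Finset Z) (nd : Finset X)
    (al rcv : Z → Finset X) (p : Z × X) :
    p ∈ phgH N0 nd al rcv ↔ p.1 ∈ N0 ∧ p.2 ∈ nd ∧ p.2 ∈ al p.1 ∧ p.2 ∉ rcv p.1 := by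
  unfold phgH
  rw [Finset.mem_filter]
  exact ⟨fun h => h.2, fun h => ⟨Finset.mem_univ _, h⟩⟩

private theorem phg_degZ {Z X : Type} [Fintype Z] [Fintype X] (N0 : Finset Z) (nd : Finset X)
    (al rcv : Z → Finset X) (z : Z) (hz : z ∈ N0) :
    nd.card ≤ (nb (phgH N0 nd al rcv) z).card + (nd \ al z).card + (rcv z).card := by
  have hsub : nd ⊆ nb (phgH N0 nd al rcv) z ∪ (nd \ al z) ∪ rcv z := by
    intro x hx
    by_cases h1 : x ∈ al z
    · by_cases h2 : x ∈ rcv z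
      · exact Finset.mem_union_right _ h2
      · exact Finset.mem_union_left _ (Finset.mem_union_left _
          (mem_nb.2 ((phg_mem N0 nd al rcv (z, x)).2 ⟨hz, hx, h1, h2⟩)))
    · exact Finset.mem_union_left _ (Finset.mem_union_right _ (Finset.mem_sdiff.2 ⟨hx, h1⟩))
  refine (Finset.card_le_card hsub).trans ((Finset.card_union_le _ _).trans ?_)
  exact Nat.add_le_add_right (Finset.card_union_le _ _) _

private theorem phg_degX {Z X : Type} [Fintype Z] [Fintype X] (N0 : Finset Z) (nd : Finset X)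
    (al rcv : Z → Finset X) (x : X) (hx : x ∈ nd) :
    N0.card ≤ (nb (tr (phgH N0 nd al rcv)) x).card + (N0.filter fun z => x ∉ al z).card
      + (N0.filter fun z => x ∈ rcv z).card := by
  have hsub : N0 ⊆ nb (tr (phgH N0 nd al rcv)) x ∪ (N0.filter fun z => x ∉ al z)
      ∪ (N0.filter fun z => x ∈ rcv z) := by
    intro z hz
    by_cases h1 : x ∈ al z
    · by_cases h2 : x ∈ rcv z
      · exact Finset.mem_union_right _ (Finset.mem_filter.2 ⟨hz, h2⟩)
      · exact Finset.mem_union_left _ (Finset.mem_union_left _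
          (mem_nb.2 (mem_tr.2 ((phg_mem N0 nd al rcv (z, x)).2 ⟨hz, hx, h1, h2⟩))))
    · exact Finset.mem_union_left _ (Finset.mem_union_right _ (Finset.mem_filter.2 ⟨hz, h1⟩))
  refine (Finset.card_le_card hsub).trans ((Finset.card_union_le _ _).trans ?_)
  exact Nat.add_le_add_right (Finset.card_union_le _ _) _

theorem ph_graph {Z X : Type} [Fintype Z] [Fintype X] (N0 : Finset Z) (nd : Finset X)
    (al rcv : Z → Finset X) (F0 ka L : ℝ) (hcard : N0.card = nd.card) (hf : F0 ≤ N0.card)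
    (hL : 1 ≤ L) (hF : 300 * L ≤ F0) (hka : 0 ≤ ka) (hka2 : ka ≤ 1 / 1000)
    (h1 : ∀ z ∈ N0, ((nd \ al z).card : ℝ) ≤ F0 / 16)
    (h2 : ∀ z ∈ N0, ((rcv z).card : ℝ) ≤ ka * F0)
    (h3 : ∀ x ∈ nd, ((N0.filter fun z => x ∉ al z).card : ℝ) ≤ F0 / 16)
    (h4 : ∀ x ∈ nd, ((N0.filter fun z => x ∈ rcv z).card : ℝ) ≤ 16 * ka * F0 + 4 * L) :
    ∃ (m : ℕ) (M : Fin m → Finset (Z × X)), 0 < m ∧ N0.card ≤ 4 * m ∧
      (∀ j, IsPM (M j) N0 nd ∧ ∀ p ∈ M j, p.2 ∈ al p.1 ∧ p.2 ∉ rcv p.1) ∧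
      ∀ i j, i ≠ j → Disjoint (M i) (M j) := by
  have hF0 : 0 ≤ F0 := by linarith
  have hkF : ka * F0 ≤ 1 / 1000 * F0 := mul_le_mul_of_nonneg_right hka2 hF0
  obtain ⟨m, M, hm, hm0, hM, hd⟩ := dpm (phgH N0 nd al rcv) N0 nd hcard
    (fun p hp => by
      have h := (phg_mem N0 nd al rcv p).1 hp
      exact ⟨h.1, h.2.1⟩)
    (fun z hz => by
      have e1 := phg_degZ N0 nd al rcv z hz
      rw [← hcard] at e1
      have e2 : (N0.card : ℝ) ≤ (nb (phgH N0 nd al rcv) z).card + (nd \ al z).card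
          + (rcv z).card := by exact_mod_cast e1
      have e3 := h1 z hz
      have e4 := h2 z hz
      have e5 : 7 * (N0.card : ℝ) ≤ 8 * (nb (phgH N0 nd al rcv) z).card := by linarith
      exact_mod_cast e5)
    (fun x hx => by
      have e1 := phg_degX N0 nd al rcv x hx
      have e2 : (N0.card : ℝ) ≤ (nb (tr (phgH N0 nd al rcv)) x).card
          + (N0.filter fun z => x ∉ al z).card + (N0.filter fun z => x ∈ rcv z).card := by
        exact_mod_cast e1
      have e3 := h3 x hx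
      have e4 := h4 x hx
      have e5 : 7 * (N0.card : ℝ) ≤ 8 * (nb (tr (phgH N0 nd al rcv)) x).card := by linarith
      exact_mod_cast e5)
  have hN : N0.card ≠ 0 := by
    intro h
    rw [h, Nat.cast_zero] at hf
    linarith
  refine ⟨m, M, hm0 hN, hm, fun j => ⟨(hM j).2, fun p hp => ?_⟩, hd⟩
  have h := (phg_mem N0 nd al rcv p).1 ((hM j).1 hp)
  exact h.2.2

end Pool.Agent.Lib.TriS
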