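import Pool.Agent.Lib.TriS.PhGraph
import Pool.Agent.Lib.TriS.Greedy

/-!
MODULE Phase (about 250 lines). The phase lemma (4.1).

PROOF. `greedy` with states `K : Finset (Wt × Z × X)`. Enumerate `W = {w_0, ..., w_{T-1}}`. `Good t K`: the first coordinates of the elements of `K` are among `w_0..w_{t-1}`; for `i < t` the set `{(z,x) | (w_i,z,x) ∈ K}` is a perfect matching (`IsPM`) between `N w_i` and
`nd w_i`, all its pairs have `x ∈ al z`; `(w,z,x), (w',z,x) ∈ K → w = w'`. Tests: `ι ⊕ {w // w ∈ W} × X`, for `(w,x)` the set `(N w) × {x}`; at most `exp (3L) + exp (2L) ≤ exp (4L)` of them. Counter of a test `T`: `card {p ∈ T | ∃ w, (w, p.1, p.2) ∈ K}`.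
`Bd = 8 ka |T| + 4 L`. Step `t`, `w = w_t`: `rcv z = {x | ∃ w', (w', z, x) ∈ K}`: `card (rcv z) ≤ card {i < t | z ∈ N w_i} ≤ ka F0` (for `z ∈ N w`; for each `w'` at most one `x`); `card {z ∈ N w | x ∈ rcv z}` = counter of the test `(w,x)` `≤ 8 ka (2 F0) + 4L`. `ph_graph` gives
`m`, `M j`; successors `K ∪ {(w,z,x) | (z,x) ∈ M j}`. A counter increases by the number of the pairs `p ∈ T ∩ M j` (new ones: `p.2 ∉ rcv p.1`), at most one since two pairs of `T` share a coordinate and `M j` is a matching. The number of `j` with `T ∩ M j ≠ ∅` is at most `card {p ∈ T | p.1 ∈ N w}` (disjointness), so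
`π t i = card {p ∈ T | p.1 ∈ N w_t} * 4/F0` works (`card N w ≤ 4 m`, `F0 ≤ card (N w)`, so `1 ≤ 4 m/F0`). `∑_t π t i = 4/F0 ∑_{p ∈ T} card {w ∈ W | p.1 ∈ N w} ≤ 4 ka |T|` (hypothesis `h2`). `2 * 4 ka |T| + log (card tests) ≤ 8 ka |T| + 4L`.
At the end `col w z` = the `x` with `(w,z,x) ∈ K` (default: need an element of `X`; if `X` is empty then all `nd w`, `N w` are empty and `F0 ≤ 0`, impossible when `W ≠ ∅`; if `W = ∅` any function, `X` may be empty only if `Wt → Z → X` has to be produced: `W = ∅` and `X` empty is excluded by `hne`).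
-/

set_option autoImplicit false

open scoped Classical

noncomputable section

namespace Pool.Agent.Lib.TriS

private def Phase_sl {Wt Z X : Type} [Fintype Z] [Fintype X] (K : Finset (Wt × Z × X)) (w : Wt) :
    Finset (Z × X) := Finset.univ.filter fun p => (w, p.1, p.2) ∈ K

private theorem Phase_mem_sl {Wt Z X : Type} [Fintype Z] [Fintype X] {K : Finset (Wt × Z × X)}
    {w : Wt} {p : Z × X} : p ∈ Phase_sl K w ↔ (w, p.1, p.2) ∈ K := by
  unfold Phase_sl
  rw [Finset.mem_filter]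
  exact ⟨fun h => h.2, fun h => ⟨Finset.mem_univ _, h⟩⟩

private structure Phase_good {Wt Z X : Type} [Fintype Z] [Fintype X] (ws : ℕ → Wt)
    (N : Wt → Finset Z) (nd : Wt → Finset X) (al : Z → Finset X) (t : ℕ)
    (K : Finset (Wt × Z × X)) : Prop where
  a : ∀ q ∈ K, ∃ s < t, q.1 = ws s
  b : ∀ s < t, IsPM (Phase_sl K (ws s)) (N (ws s)) (nd (ws s))
  c : ∀ q ∈ K, q.2.2 ∈ al q.2.1
  d : ∀ w w' z x, (w, z, x) ∈ K → (w', z, x) ∈ K → w = w'

private def Phase_cnt {Wt Z X : Type} (S : Finset (Z × X)) (K : Finset (Wt × Z × X)) : ℕ :=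
  (S.filter fun p => ∃ w, (w, p.1, p.2) ∈ K).card

private theorem Phase_le_cnt {α Wt Z X : Type} {S : Finset (Z × X)} {K : Finset (Wt × Z × X)}
    (s : Finset α) (φ : α → Z × X) (h : ∀ a ∈ s, φ a ∈ S ∧ ∃ w, (w, (φ a).1, (φ a).2) ∈ K)
    (hi : ∀ a ∈ s, ∀ b ∈ s, φ a = φ b → a = b) : s.card ≤ Phase_cnt S K := by
  unfold Phase_cnt
  refine Finset.card_le_card_of_injOn φ ?_ ?_
  · intro a ha
    rw [Finset.mem_coe, Finset.mem_filter]
    exact h a ha
  · intro a ha b hb hab
    exact hi a ha b hb hab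

private theorem Phase_cnt_empty {Wt Z X : Type} (S : Finset (Z × X)) :
    Phase_cnt S (∅ : Finset (Wt × Z × X)) = 0 := by
  unfold Phase_cnt
  rw [Finset.filter_false_of_mem, Finset.card_empty]
  rintro p - ⟨w, hw⟩
  exact absurd hw (Finset.notMem_empty _)

private theorem Phase_enum {Wt : Type} (W : Finset Wt) (w0 : Wt) :
    ∃ ws : ℕ → Wt, (∀ t < W.card, ws t ∈ W) ∧ (∀ w ∈ W, ∃ t < W.card, ws t = w) ∧
      ∀ s < W.card, ∀ t < W.card, ws s = ws t → s = t := by
  refine ⟨fun t => if h : t < W.card then (W.equivFin.symm ⟨t, h⟩ : Wt) else w0, ?_, ?_, ?_⟩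
  · intro t ht
    beta_reduce
    rw [dif_pos ht]
    exact Subtype.mem _
  · intro w hw
    refine ⟨W.equivFin ⟨w, hw⟩, (W.equivFin ⟨w, hw⟩).2, ?_⟩
    beta_reduce
    rw [dif_pos (W.equivFin ⟨w, hw⟩).2, Fin.eta, Equiv.symm_apply_apply]
  · intro s hs t ht h
    beta_reduce at h
    rw [dif_pos hs, dif_pos ht] at h
    have h1 := W.equivFin.symm.injective (Subtype.ext h)
    exact congrArg Fin.val h1

private def Phase_add {Wt Z X : Type} (K : Finset (Wt × Z × X)) (w : Wt) (M : Finset (Z × X)) :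
    Finset (Wt × Z × X) := K ∪ M.image fun p => (w, p.1, p.2)

private theorem Phase_mem_add {Wt Z X : Type} {K : Finset (Wt × Z × X)} {w : Wt}
    {M : Finset (Z × X)} {w' : Wt} {z : Z} {x : X} :
    (w', z, x) ∈ Phase_add K w M ↔ (w', z, x) ∈ K ∨ (w' = w ∧ (z, x) ∈ M) := by
  unfold Phase_add
  rw [Finset.mem_union, Finset.mem_image]
  constructor
  · rintro (h | ⟨p, hp, hpe⟩)
    · exact Or.inl h
    · simp only [Prod.mk.injEq] at hpe
      obtain ⟨h1, h2, h3⟩ := hpe
      subst h2 h3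
      exact Or.inr ⟨h1.symm, hp⟩
  · rintro (h | ⟨h1, h2⟩)
    · exact Or.inl h
    · exact Or.inr ⟨(z, x), h2, by rw [h1]⟩

private theorem Phase_rcv {Wt Z X : Type} [Fintype Wt] [Fintype Z] [Fintype X] {ws : ℕ → Wt}
    {W : Finset Wt} {N : Wt → Finset Z} {nd : Wt → Finset X} {al : Z → Finset X} {t : ℕ}
    {K : Finset (Wt × Z × X)} (hK : Phase_good ws N nd al t K) (hws : ∀ s < t, ws s ∈ W) (z : Z) :
    (Finset.univ.filter fun x => ∃ w', (w', z, x) ∈ K).card ≤
      (W.filter fun w => z ∈ N w).card := by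
  have h1 : (Finset.univ.filter fun x => ∃ w', (w', z, x) ∈ K) ⊆
      (W.filter fun w => z ∈ N w).biUnion fun w => Finset.univ.filter fun x => (w, z, x) ∈ K := by
    intro x hx
    rw [Finset.mem_filter] at hx
    obtain ⟨-, w, hw⟩ := hx
    rw [Finset.mem_biUnion]
    obtain ⟨s, hs, hse⟩ := hK.a _ hw
    have hse' : w = ws s := hse
    have hb := hK.b s hs
    have hm : (z, x) ∈ Phase_sl K (ws s) := Phase_mem_sl.2 (by rw [← hse']; exact hw)
    refine ⟨w, ?_, ?_⟩
    · rw [Finset.mem_filter, hse']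
      exact ⟨hws s hs, (hb.sub _ hm).1⟩
    · rw [Finset.mem_filter]
      exact ⟨Finset.mem_univ _, hw⟩
  refine (Finset.card_le_card h1).trans ?_
  refine (Finset.card_biUnion_le_card_mul _ _ 1 ?_).trans (by rw [mul_one])
  intro w _
  rw [Finset.card_le_one]
  intro x hx y hy
  rw [Finset.mem_filter] at hx hy
  obtain ⟨s, hs, hse⟩ := hK.a _ hx.2
  have hse' : w = ws s := hse
  have hb := hK.b s hs
  rw [hse'] at hx hy
  exact hb.un1 z x y (Phase_mem_sl.2 hx.2) (Phase_mem_sl.2 hy.2)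

private theorem Phase_good_add {Wt Z X : Type} [Fintype Z] [Fintype X] {ws : ℕ → Wt}
    {N : Wt → Finset Z} {nd : Wt → Finset X} {al : Z → Finset X} {t : ℕ}
    {K : Finset (Wt × Z × X)} (hK : Phase_good ws N nd al t K) (hne : ∀ s < t, ws s ≠ ws t)
    {M : Finset (Z × X)} (hM : IsPM M (N (ws t)) (nd (ws t)))
    (h1 : ∀ p ∈ M, p.2 ∈ al p.1) (h2 : ∀ p ∈ M, ¬ ∃ w', (w', p.1, p.2) ∈ K) :
    Phase_good ws N nd al (t + 1) (Phase_add K (ws t) M) where
  a := by
    rintro ⟨w, z, x⟩ hq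
    rcases Phase_mem_add.1 hq with h | ⟨h, -⟩
    · obtain ⟨s, hs, hse⟩ := hK.a _ h
      exact ⟨s, by omega, hse⟩
    · exact ⟨t, by omega, h⟩
  b := by
    intro s hs
    rcases Nat.lt_succ_iff_lt_or_eq.1 hs with h | h
    · have he : Phase_sl (Phase_add K (ws t) M) (ws s) = Phase_sl K (ws s) := by
        ext ⟨z, x⟩
        rw [Phase_mem_sl, Phase_mem_sl, Phase_mem_add]
        constructor
        · rintro (h' | ⟨h', -⟩)
          · exact h'
          · exact absurd h' (hne s h)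
        · exact Or.inl
      rw [he]
      exact hK.b s h
    · subst h
      have he : Phase_sl (Phase_add K (ws s) M) (ws s) = M := by
        ext ⟨z, x⟩
        rw [Phase_mem_sl, Phase_mem_add]
        constructor
        · rintro (h' | ⟨-, h'⟩)
          · obtain ⟨s', hs', hse⟩ := hK.a _ h'
            exact absurd hse.symm (hne s' hs')
          · exact h'
        · exact fun h' => Or.inr ⟨rfl, h'⟩
      rw [he]
      exact hM
  c := by
    rintro ⟨w, z, x⟩ hq
    rcases Phase_mem_add.1 hq with h | ⟨-, h⟩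
    · exact hK.c _ h
    · exact h1 _ h
  d := by
    intro w w' z x hq hq'
    rcases Phase_mem_add.1 hq with h | ⟨h, hm⟩ <;> rcases Phase_mem_add.1 hq' with h' | ⟨h', hm'⟩
    · exact hK.d _ _ _ _ h h'
    · exact absurd ⟨w, h⟩ (h2 _ hm')
    · exact absurd ⟨w', h'⟩ (h2 _ hm)
    · rw [h, h']

private theorem Phase_cnt_add {Wt Z X : Type} {S : Finset (Z × X)} {K : Finset (Wt × Z × X)}
    {w : Wt} {M : Finset (Z × X)} : Phase_cnt S (Phase_add K w M) ≤ Phase_cnt S K + (S ∩ M).card := by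
  unfold Phase_cnt
  refine (Finset.card_le_card ?_).trans (Finset.card_union_le _ _)
  intro p hp
  rw [Finset.mem_filter] at hp
  obtain ⟨hpS, w', hw'⟩ := hp
  rw [Finset.mem_union, Finset.mem_filter, Finset.mem_inter]
  rcases Phase_mem_add.1 hw' with h | ⟨-, h⟩
  · exact Or.inl ⟨hpS, w', h⟩
  · exact Or.inr ⟨hpS, h⟩

private theorem Phase_inter {Z X : Type} {S M : Finset (Z × X)} {A : Finset Z} {B : Finset X}
    (hM : IsPM M A B) (hlin : ∀ p ∈ S, ∀ q ∈ S, p.1 = q.1 ∨ p.2 = q.2) : (S ∩ M).card ≤ 1 := by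
  rw [Finset.card_le_one]
  rintro ⟨z, x⟩ hp ⟨z', x'⟩ hq
  rw [Finset.mem_inter] at hp hq
  rcases hlin _ hp.1 _ hq.1 with h | h
  · have h' : z = z' := h
    subst h'
    rw [hM.un1 z x x' hp.2 hq.2]
  · have h' : x = x' := h
    subst h'
    rw [hM.un2 z z' x hp.2 hq.2]

private theorem Phase_hit {Z X : Type} {S : Finset (Z × X)} {A : Finset Z} {B : Finset X} {m : ℕ}
    {M : Fin m → Finset (Z × X)} (hM : ∀ j, IsPM (M j) A B)
    (hd : ∀ i j, i ≠ j → Disjoint (M i) (M j)) :
    (Finset.univ.filter fun j => (S ∩ M j).Nonempty).card ≤ (S.filter fun p => p.1 ∈ A).card := by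
  have h1 : ∀ j ∈ Finset.univ.filter fun j => (S ∩ M j).Nonempty, ∃ p, p ∈ S ∩ M j := by
    intro j hj
    rw [Finset.mem_filter] at hj
    exact hj.2
  rcases S.eq_empty_or_nonempty with hS | ⟨p0, -⟩
  · subst hS
    rw [Finset.filter_false_of_mem, Finset.card_empty]
    · exact Nat.zero_le _
    · intro j _ h
      rw [Finset.empty_inter] at h
      exact Finset.not_nonempty_empty h
  have hne : Nonempty (Z × X) := ⟨p0⟩
  choose! φ hφ using h1
  refine Finset.card_le_card_of_injOn φ ?_ ?_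
  · intro j hj
    have h2 := hφ j hj
    rw [Finset.mem_inter] at h2
    rw [Finset.mem_coe, Finset.mem_filter]
    exact ⟨h2.1, ((hM j).sub _ h2.2).1⟩
  · intro i hi j hj hij
    by_contra hne
    have h2 := hφ i hi
    have h3 := hφ j hj
    rw [hij] at h2
    rw [Finset.mem_inter] at h2 h3
    exact Finset.disjoint_left.1 (hd i j hne) h2.2 h3.2

theorem phase {Wt Z X ι : Type} [Fintype Wt] [Fintype Z] [Fintype X] [Fintype ι] (hne : Nonempty X)
    (W : Finset Wt) (N : Wt → Finset Z) (nd : Wt → Finset X) (al : Z → Finset X) (F0 ka L : ℝ)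
    (T : ι → Finset (Z × X)) (hL : 1 ≤ L) (hcard : ∀ w ∈ W, (N w).card = (nd w).card)
    (hf1 : ∀ w ∈ W, F0 ≤ (N w).card) (hf2 : ∀ w ∈ W, ((N w).card : ℝ) ≤ 2 * F0)
    (hka : 0 ≤ ka) (hka2 : ka ≤ 1 / 1000) (hF : 300 * L ≤ F0)
    (h1 : ∀ w ∈ W, ∀ z ∈ N w, ((nd w \ al z).card : ℝ) ≤ F0 / 16)
    (h2 : ∀ z, ((W.filter fun w => z ∈ N w).card : ℝ) ≤ ka * F0)
    (h3 : ∀ w ∈ W, ∀ x ∈ nd w, (((N w).filter fun z => x ∉ al z).card : ℝ) ≤ F0 / 16)
    (hι : (Fintype.card ι : ℝ) ≤ Real.exp (3 * L)) (hW : (W.card : ℝ) ≤ Real.exp L)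
    (hX : (Fintype.card X : ℝ) ≤ Real.exp L)
    (hlin : ∀ i, ∀ p ∈ T i, ∀ q ∈ T i, p.1 = q.1 ∨ p.2 = q.2) :
    ∃ col : Wt → Z → X, (∀ w ∈ W, Set.BijOn (col w) (N w) (nd w)) ∧
      (∀ w ∈ W, ∀ z ∈ N w, col w z ∈ al z) ∧
      (∀ w ∈ W, ∀ w' ∈ W, w ≠ w' → ∀ z ∈ N w, z ∈ N w' → col w z ≠ col w' z) ∧
      ∀ i, (((T i).filter fun p => ∃ w ∈ W, p.1 ∈ N w ∧ col w p.1 = p.2).card : ℝ) ≤
        8 * ka * (T i).card + 4 * L := by
  classical
  have hL0 : 0 < L := by linarith
  have hF0 : 0 < F0 := by nlinarith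
  rcases W.eq_empty_or_nonempty with hWe | ⟨w0, hw0⟩
  · subst hWe
    refine ⟨fun _ _ => hne.some, ?_, ?_, ?_, ?_⟩
    · intro w hw
      exact absurd hw (Finset.notMem_empty _)
    · intro w hw
      exact absurd hw (Finset.notMem_empty _)
    · intro w hw
      exact absurd hw (Finset.notMem_empty _)
    · intro i
      rw [Finset.filter_false_of_mem]
      · rw [Finset.card_empty, Nat.cast_zero]
        positivity
      · rintro p - ⟨w, hw, -⟩
        exact absurd hw (Finset.notMem_empty _)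
  obtain ⟨ws, hws, hws', hinj⟩ := Phase_enum W w0
  let TT : ι ⊕ ({w // w ∈ W} × X) → Finset (Z × X) :=
    Sum.elim T fun q => N q.1 ×ˢ {q.2}
  have hTT1 : ∀ i, TT (Sum.inl i) = T i := fun i => rfl
  have hTT2 : ∀ q, TT (Sum.inr q) = N q.1 ×ˢ {q.2} := fun q => rfl
  have hTTlin : ∀ i, ∀ p ∈ TT i, ∀ q ∈ TT i, p.1 = q.1 ∨ p.2 = q.2 := by
    rintro (i | q)
    · exact hlin i
    · intro p hp p' hp'
      rw [hTT2, Finset.mem_product, Finset.mem_singleton] at hp hp'
      exact Or.inr (hp.2.trans hp'.2.symm)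
  have hcardI : Real.log (Fintype.card (ι ⊕ ({w // w ∈ W} × X))) ≤ 4 * L := by
    rcases Nat.eq_zero_or_pos (Fintype.card (ι ⊕ ({w // w ∈ W} × X))) with h0 | hpos
    · rw [h0, Nat.cast_zero, Real.log_zero]
      linarith
    · rw [Real.log_le_iff_le_exp (by exact_mod_cast hpos)]
      rw [Fintype.card_sum, Fintype.card_prod, Fintype.card_coe]
      push_cast
      have e1 : Real.exp (4 * L) = Real.exp (3 * L) * Real.exp L := by
        rw [← Real.exp_add]
        ring_nf
      have e2 : Real.exp L * Real.exp L ≤ Real.exp (3 * L) := by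
        rw [← Real.exp_add]
        exact Real.exp_le_exp.2 (by linarith)
      have e3 : 2 ≤ Real.exp L := by
        have := Real.add_one_le_exp L
        linarith
      have e4 : (W.card : ℝ) * Fintype.card X ≤ Real.exp L * Real.exp L :=
        mul_le_mul hW hX (Nat.cast_nonneg _) (Real.exp_pos _).le
      have e5 : 0 < Real.exp (3 * L) := Real.exp_pos _
      rw [e1]
      nlinarith
  have hπsum : ∀ i, ∑ t ∈ Finset.range W.card,
      (((TT i).filter fun p => p.1 ∈ N (ws t)).card : ℝ) * (4 / F0) ≤ 4 * ka * (TT i).card := by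
    intro i
    rw [← Finset.sum_mul]
    have e1 : ∑ t ∈ Finset.range W.card, (((TT i).filter fun p => p.1 ∈ N (ws t)).card : ℝ) =
        ∑ p ∈ TT i, (((Finset.range W.card).filter fun t => p.1 ∈ N (ws t)).card : ℝ) := by
      simp only [Finset.card_filter, Nat.cast_sum, Nat.cast_ite, Nat.cast_one, Nat.cast_zero]
      exact Finset.sum_comm
    have e2 : ∀ p ∈ TT i, (((Finset.range W.card).filter fun t => p.1 ∈ N (ws t)).card : ℝ) ≤
        ka * F0 := by
      intro p _
      refine le_trans ?_ (h2 p.1)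
      rw [Nat.cast_le]
      refine Finset.card_le_card_of_injOn ws ?_ ?_
      · intro t ht
        rw [Finset.mem_coe, Finset.mem_filter, Finset.mem_range] at ht
        rw [Finset.mem_coe, Finset.mem_filter]
        exact ⟨hws t ht.1, ht.2⟩
      · intro s hs t ht hst
        rw [Finset.mem_coe, Finset.mem_filter, Finset.mem_range] at hs ht
        exact hinj s hs.1 t ht.1 hst
    rw [e1]
    have e3 := Finset.sum_le_card_nsmul _ _ _ e2
    rw [nsmul_eq_mul] at e3
    have e4 : 0 < 4 / F0 := by positivity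
    refine (mul_le_mul_of_nonneg_right e3 e4.le).trans (le_of_eq ?_)
    field_simp
  have hstep : ∀ t < W.card, ∀ K : Finset (Wt × Z × X), Phase_good ws N nd al t K →
      (∀ i, (Phase_cnt (TT i) K : ℝ) ≤ 8 * ka * (TT i).card + 4 * L) →
      ∃ (m : ℕ) (f : Fin m → Finset (Wt × Z × X)), 0 < m ∧
        (∀ j, Phase_good ws N nd al (t + 1) (f j)) ∧
        (∀ j i, Phase_cnt (TT i) (f j) ≤ Phase_cnt (TT i) K + 1) ∧
        ∀ i, ((Finset.univ.filter fun j => Phase_cnt (TT i) K < Phase_cnt (TT i) (f j)).card : ℝ) ≤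
          (((TT i).filter fun p => p.1 ∈ N (ws t)).card : ℝ) * (4 / F0) * m := by
    intro t ht K hK hcnt
    have hw := hws t ht
    obtain ⟨m, M, hm, hNm, hM, hdis⟩ := ph_graph (N (ws t)) (nd (ws t)) al
      (fun z => Finset.univ.filter fun x => ∃ w', (w', z, x) ∈ K) F0 ka L (hcard _ hw)
      (hf1 _ hw) hL hF hka hka2 (h1 _ hw)
      (fun z _ => le_trans (Nat.cast_le.2
        (Phase_rcv hK (fun s hs => hws s (by omega)) z)) (h2 z))
      (h3 _ hw) (fun x hx => by
        have e1 := hcnt (Sum.inr (⟨ws t, hw⟩, x))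
        rw [hTT2, Finset.card_product, Finset.card_singleton, mul_one] at e1
        have e2 : ((N (ws t)).filter fun z => x ∈
            Finset.univ.filter fun x => ∃ w', (w', z, x) ∈ K).card ≤
            Phase_cnt (N (ws t) ×ˢ {x}) K := by
          refine Phase_le_cnt _ (fun z => (z, x)) ?_ ?_
          · intro z hz
            simp only [Finset.mem_filter, Finset.mem_univ, true_and] at hz
            simp only [Finset.mem_product, Finset.mem_singleton, and_true]
            exact hz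
          · intro z _ z' _ hzz
            exact congrArg Prod.fst hzz
        have e3 : (((N (ws t)).filter fun z => x ∈
            Finset.univ.filter fun x => ∃ w', (w', z, x) ∈ K).card : ℝ) ≤
            Phase_cnt (N (ws t) ×ˢ {x}) K := Nat.cast_le.2 e2
        refine e3.trans (e1.trans ?_)
        have e4 := hf2 _ hw
        have e5 := mul_le_mul_of_nonneg_left e4 (show 0 ≤ 8 * ka by positivity)
        have e6 : ((N (ws t)).card : ℝ) = (N ((⟨ws t, hw⟩ : {w // w ∈ W}) : Wt)).card := rfl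
        push_cast
        nlinarith)
    have hPM : ∀ j, IsPM (M j) (N (ws t)) (nd (ws t)) := fun j => (hM j).1
    refine ⟨m, fun j => Phase_add K (ws t) (M j), hm, ?_, ?_, ?_⟩
    · intro j
      refine Phase_good_add hK ?_ (hPM j) (fun p hp => ((hM j).2 p hp).1) ?_
      · intro s hs h
        exact absurd (hinj s (by omega) t ht h) (by omega)
      · intro p hp h
        have := ((hM j).2 p hp).2
        rw [Finset.mem_filter] at this
        exact this ⟨Finset.mem_univ _, h⟩
    · intro j i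
      refine Phase_cnt_add.trans ?_
      have := Phase_inter (hPM j) (hTTlin i)
      omega
    · intro i
      have e1 : (Finset.univ.filter fun j =>
          Phase_cnt (TT i) K < Phase_cnt (TT i) (Phase_add K (ws t) (M j))).card ≤
          ((TT i).filter fun p => p.1 ∈ N (ws t)).card := by
        refine le_trans (Finset.card_le_card ?_) (Phase_hit hPM hdis)
        intro j hj
        rw [Finset.mem_filter] at hj ⊢
        refine ⟨Finset.mem_univ _, ?_⟩
        rw [← Finset.card_pos]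
        have := hj.2
        have := Phase_cnt_add (S := TT i) (K := K) (w := ws t) (M := M j)
        omega
      have e2 : (1 : ℝ) ≤ 4 / F0 * m := by
        rw [div_mul_eq_mul_div, le_div_iff₀ hF0, one_mul]
        have e3 : ((N (ws t)).card : ℝ) ≤ 4 * m := by exact_mod_cast hNm
        exact (hf1 _ hw).trans e3
      have e4 : ((Finset.univ.filter fun j =>
          Phase_cnt (TT i) K < Phase_cnt (TT i) (Phase_add K (ws t) (M j))).card : ℝ) ≤
          ((TT i).filter fun p => p.1 ∈ N (ws t)).card := Nat.cast_le.2 e1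
      refine e4.trans ?_
      rw [mul_assoc]
      exact le_mul_of_one_le_right (Nat.cast_nonneg _) e2
  obtain ⟨K, hK, hcnt⟩ := greedy (S := Finset (Wt × Z × X)) (ι := ι ⊕ ({w // w ∈ W} × X))
    (fun K i => Phase_cnt (TT i) K) (Phase_good ws N nd al)
    (fun t i => (((TT i).filter fun p => p.1 ∈ N (ws t)).card : ℝ) * (4 / F0))
    (fun i => 8 * ka * (TT i).card + 4 * L) W.card
    (fun t i => mul_nonneg (Nat.cast_nonneg _) (by positivity))
    (fun i => by
      have := hπsum i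
      linarith)
    ∅
    { a := fun q hq => absurd hq (Finset.notMem_empty _)
      b := fun s hs => absurd hs (Nat.not_lt_zero _)
      c := fun q hq => absurd hq (Finset.notMem_empty _)
      d := fun w w' z x h => absurd h (Finset.notMem_empty _) }
    (fun i => Phase_cnt_empty (TT i))
    hstep
  have hPMw : ∀ w ∈ W, IsPM (Phase_sl K w) (N w) (nd w) := by
    intro w hw
    obtain ⟨t, ht, rfl⟩ := hws' w hw
    exact hK.b t ht
  let col : Wt → Z → X := fun w z => if h : ∃ x, (w, z, x) ∈ K then h.choose else hne.some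
  have hcol : ∀ w ∈ W, ∀ z ∈ N w, (w, z, col w z) ∈ K := by
    intro w hw z hz
    obtain ⟨x, hx⟩ := (hPMw w hw).ex1 z hz
    have h : ∃ x, (w, z, x) ∈ K := ⟨x, Phase_mem_sl.1 hx⟩
    have e : col w z = h.choose := dif_pos h
    rw [e]
    exact h.choose_spec
  refine ⟨col, ?_, ?_, ?_, ?_⟩
  · intro w hw
    have hP := hPMw w hw
    refine ⟨?_, ?_, ?_⟩
    · intro z hz
      exact (hP.sub (z, col w z) (Phase_mem_sl.2 (hcol w hw z hz))).2
    · intro z hz z' hz' hzz
      have e1 : (z, col w z) ∈ Phase_sl K w := Phase_mem_sl.2 (hcol w hw z hz)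
      have e2 : (z', col w z) ∈ Phase_sl K w := by
        rw [hzz]
        exact Phase_mem_sl.2 (hcol w hw z' hz')
      exact hP.un2 z z' _ e1 e2
    · intro x hx
      obtain ⟨z, hz⟩ := hP.ex2 x hx
      have hzN : z ∈ N w := (hP.sub _ hz).1
      refine ⟨z, hzN, ?_⟩
      have e1 : (z, col w z) ∈ Phase_sl K w := Phase_mem_sl.2 (hcol w hw z hzN)
      exact hP.un1 z _ _ e1 hz
  · intro w hw z hz
    exact hK.c _ (hcol w hw z hz)
  · intro w hw w' hw' hww z hz hz' he
    have e1 := hcol w hw z hz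
    rw [he] at e1
    exact hww (hK.d _ _ _ _ e1 (hcol w' hw' z hz'))
  · intro i
    have e1 := hcnt (Sum.inl i)
    refine le_trans (Nat.cast_le.2 (Phase_le_cnt _ id ?_ fun a _ b _ h => h)) e1
    intro p hp
    simp only [Finset.mem_filter] at hp
    obtain ⟨hpT, w, hw, hpN, hpc⟩ := hp
    refine ⟨hpT, w, ?_⟩
    have := hcol w hw p.1 hpN
    rw [hpc] at this
    exact this

end Pool.Agent.Lib.TriS
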