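import Pool.Agent.Lib.TriS.CDefs

/-!
Properties of the reserved graphs `E` (inside the parts) and `F` (between different parts), section 5. `D1 = |G| + r`,
`dE = (1 - 1/10^15 - 1/10^11) D1`, `dF = D1/10^11`.
-/

set_option autoImplicit false

open scoped Classical

noncomputable section

namespace Pool.Agent.Lib.TriS

structure ESide {U V X : Type} [Fintype V] (E : Finset (U × V)) (nv : V → Finset X) (G : Finset X)
    (r : ℕ) : Prop where
  deg : ∀ u, |((nb E u).card : ℝ) - (1 - 1 / 10 ^ 15 - 1 / 10 ^ 11) * ((G.card : ℝ) + r)| ≤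
    1 / (4 * 10 ^ 24) * ((G.card : ℝ) + r)
  bad : ∀ u, ∀ x ∈ G, (((nb E u).filter fun v => x ∉ nv v).card : ℝ) ≤
    1 / 10 ^ 24 * ((G.card : ℝ) + r)

structure FresSide {U V X : Type} [Fintype V] (F : Finset (U × V)) (P : ℕ) (aV : V → Fin P)
    (G : Finset X) (s r m : ℕ) : Prop where
  deg : ∀ u, |((nb F u).card : ℝ) - 1 / 10 ^ 11 * ((G.card : ℝ) + r)| ≤
    1 / (4 * 10 ^ 24) * ((G.card : ℝ) + r)
  dega : ∀ u b, (((nb F u).filter fun v => aV v = b).card : ℝ) ≤ 2 * m / s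

/-- the reserved graph `E` -/
structure ResE {U V X : Type} [Fintype U] [Fintype V] (H E : Finset (U × V)) (nu : U → Finset X)
    (nv : V → Finset X) (P : ℕ) (aU : U → Fin P) (aV : V → Fin P) (G : Finset X) (s r : ℕ) :
    Prop where
  sub : E ⊆ H
  inn : ∀ p ∈ E, aU p.1 = aV p.2
  s1 : ESide E nv G r
  s2 : ESide (tr E) nu G r
  mix : ∀ a (S : Finset U) (T : Finset V), (∀ u ∈ S, aU u = a) → (∀ v ∈ T, aV v = a) →
    (eb E S T : ℝ) ≤ ((G.card : ℝ) + r) * (104 / 100 * ((S.card : ℝ) * T.card / s) +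
      1 / 10 ^ 24 * max (S.card : ℝ) T.card)

/-- the reserved graph `F` -/
structure ResF {U V X : Type} [Fintype U] [Fintype V] (H F : Finset (U × V)) (P : ℕ)
    (aU : U → Fin P) (aV : V → Fin P) (G : Finset X) (s r m : ℕ) : Prop where
  sub : F ⊆ H
  out : ∀ p ∈ F, aU p.1 ≠ aV p.2
  s1 : FresSide F P aV G s r m
  s2 : FresSide (tr F) P aU G s r m
  cnt : ∀ a b, a ≠ b → (F.filter fun p => aU p.1 = a ∧ aV p.2 = b).card = m
  m1 : 1 / 10 ^ 11 * (G.card : ℝ) * s / (2 * P) ≤ m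

end Pool.Agent.Lib.TriS
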