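import Pool.Agent.Lib.TriS.ResDefs
import Pool.Agent.Lib.TriS.Label
import Pool.Agent.Lib.TriS.PairSum

/-!
MODULE ResE (about 230 lines). The reserved graph inside the parts.

PROOF. `k = card X`, `D1 = |G| + r`, `dE = (1 - 1/10^15 - 1/10^11) D1`, `p = dE P/k ∈ [0,1]` (`G2`, `r ≤ 10^22 L ≤ |G|/10`). `label` with elements the edges
`e ∈ H` with `aU e.1 = aV e.2`, `Λ = Bool`, probability `p` for `true`, `z = 1/10^27`. Tests: edges at `u` (at `v`) with label `true`; edges `(u,v)` with `x ∉ nv v`, `x ∈ G` (and transposed), all with `t = 8 * 10^27 L`;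
for nonempty `S`, `T` in the same part the edges between them, `t = 8 * 10^27 L max (|S|,|T|)`. The sum of `2 exp (-z t)` is `≤ 2 (2N + 2N|G|) exp (-8L) + 2 * 4 exp (-6L) < 1` (`N = card U = P s ≤ exp L`,
`|G| ≤ k ≤ exp L`; `L ≥ 10` as `exp L ≥ P s ≥ 10^60`; `pair_sum`; `card V = P s` too: sum over the parts of `s2.cU`). `t ≤ D1/10^50` by `G1`, `P1`.
Degrees: number of edges of `H` at `u` inside the part is `(1 ± 1/10^25) k/P` (`s1.inn u (aU u)`), so the mean is `(1 ± 1/10^25) dE`: total error `≤ (1/10^25 + 2/10^27 + 1/10^50) D1 ≤ D1/(4 * 10^24)`.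
`bad`: the mean is `≤ p * (1/10^25) k/P = dE/10^25` (`badin`). Mixing: `eb H S T` edges (all inside the part), mean `≤ (dE P/k)(k |S||T|/(P s) + √k max) = dE |S||T|/s + dE (P/√k) max`, `P/√k ≤ 1/10^60`
(`P2`), times `1 + z`, plus `8 * 10^27 L max ≤ D1/10^50 max`. For `S` or `T` empty `eb = 0`. `E` = the edges with label `true`.
-/

set_option autoImplicit false

open scoped Classical

noncomputable section

namespace Pool.Agent.Lib.TriS

private theorem resE_labelSets {E ι : Type} [Fintype E] [DecidableEq E] (p : ℝ) (hp0 : 0 ≤ p) (hp1 : p ≤ 1)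
    (I : Finset ι) (S : ι → Finset E) (z : ℝ) (hz : 0 < z) (hz1 : z ≤ 1) (t : ι → ℝ)
    (hsum : ∑ i ∈ I, 2 * Real.exp (-(z * t i)) < 1) :
    ∃ F : Finset E, ∀ i ∈ I, (1 - z) * (p * (S i).card) - t i ≤ ((S i ∩ F).card : ℝ) ∧
      ((S i ∩ F).card : ℝ) ≤ (1 + z) * (p * (S i).card) + t i := by
  obtain ⟨f, hf⟩ := label (E := E) (Λ := Bool) (fun _ a => if a then p else 1 - p)
    (by
      intro e a
      cases a
      · simpa using hp1
      · simpa using hp0)
    (by
      intro e
      simp)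
    I (fun i => S i ×ˢ {true}) z hz hz1 t hsum
  refine ⟨Finset.univ.filter fun e => f e = true, fun i hi => ?_⟩
  have h1 := hf i hi
  have h2 : cntL f (S i ×ˢ {true}) = (S i ∩ Finset.univ.filter fun e => f e = true).card := by
    unfold cntL
    congr 1
    ext e
    simp
  have h3 : muL (fun (_ : E) (a : Bool) => if a then p else 1 - p) (S i ×ˢ {true}) =
      p * (S i).card := by
    unfold muL
    rw [Finset.sum_product]
    simp [mul_comm]
  rw [h2, h3] at h1
  exact h1

private theorem resE_side {U V X : Type} [Fintype U] [Fintype V] [Fintype X]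
    (H E Hin : Finset (U × V)) (nu : U → Finset X) (nv : V → Finset X) (P : ℕ) (aU : U → Fin P)
    (aV : V → Fin P) (hub : Fin P → Finset X) (G : Finset X) (s r : ℕ)
    (h : SSide H nu nv P aU aV hub G s (1 / 10 ^ 25))
    (hHin : ∀ u v, (u, v) ∈ Hin ↔ (u, v) ∈ H ∧ aV v = aU u)
    (D dE p τ : ℝ) (hD : D = (G.card : ℝ) + r) (hD0 : 0 ≤ D)
    (hdE : dE = (1 - 1 / 10 ^ 15 - 1 / 10 ^ 11) * D) (hp0 : 0 ≤ p)
    (hp : p * ((Fintype.card X : ℝ) / P) = dE) (hτ : τ ≤ D / 10 ^ 50)
    (hdeg : ∀ u, (1 - 1 / 10 ^ 27) * (p * (nb Hin u).card) - τ ≤ ((nb E u).card : ℝ) ∧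
      ((nb E u).card : ℝ) ≤ (1 + 1 / 10 ^ 27) * (p * (nb Hin u).card) + τ)
    (hbad : ∀ u, ∀ x ∈ G, (((nb E u).filter fun v => x ∉ nv v).card : ℝ) ≤
      (1 + 1 / 10 ^ 27) * (p * ((nb Hin u).filter fun v => x ∉ nv v).card) + τ) :
    ESide E nv G r := by
  constructor
  · intro u
    have e1 : nb Hin u = (nb H u).filter fun v => aV v = aU u := by
      ext v
      rw [Finset.mem_filter, mem_nb, mem_nb, hHin]
    have h1 := h.inn u (aU u)
    rw [← e1] at h1
    set n : ℝ := ((nb Hin u).card : ℝ) with hn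
    have h2 := abs_le.1 h1
    have h3 : p * n ≤ dE + 1 / 10 ^ 25 * dE := by
      have h4 : n ≤ (Fintype.card X : ℝ) / P + 1 / 10 ^ 25 * ((Fintype.card X : ℝ) / P) := by
        linarith [h2.2]
      calc p * n ≤ p * ((Fintype.card X : ℝ) / P + 1 / 10 ^ 25 * ((Fintype.card X : ℝ) / P)) :=
            mul_le_mul_of_nonneg_left h4 hp0
        _ = p * ((Fintype.card X : ℝ) / P) + 1 / 10 ^ 25 * (p * ((Fintype.card X : ℝ) / P)) := by
            ring
        _ = dE + 1 / 10 ^ 25 * dE := by rw [hp]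
    have h5 : dE - 1 / 10 ^ 25 * dE ≤ p * n := by
      have h4 : (Fintype.card X : ℝ) / P - 1 / 10 ^ 25 * ((Fintype.card X : ℝ) / P) ≤ n := by
        linarith [h2.1]
      calc dE - 1 / 10 ^ 25 * dE =
            p * ((Fintype.card X : ℝ) / P) - 1 / 10 ^ 25 * (p * ((Fintype.card X : ℝ) / P)) := by
            rw [hp]
        _ = p * ((Fintype.card X : ℝ) / P - 1 / 10 ^ 25 * ((Fintype.card X : ℝ) / P)) := by
            ring
        _ ≤ p * n := mul_le_mul_of_nonneg_left h4 hp0
    obtain ⟨h6, h7⟩ := hdeg u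
    rw [← hD, ← hdE, abs_le]
    constructor
    · have h8 : (1 - 1 / 10 ^ 27) * (dE - 1 / 10 ^ 25 * dE) ≤ (1 - 1 / 10 ^ 27) * (p * n) :=
        mul_le_mul_of_nonneg_left h5 (by norm_num)
      have h9 : -(1 / (4 * 10 ^ 24) * D) ≤
          (1 - 1 / 10 ^ 27) * (dE - 1 / 10 ^ 25 * dE) - D / 10 ^ 50 - dE := by
        rw [hdE]
        norm_num
        linarith
      linarith
    · have h8 : (1 + 1 / 10 ^ 27) * (p * n) ≤ (1 + 1 / 10 ^ 27) * (dE + 1 / 10 ^ 25 * dE) :=
        mul_le_mul_of_nonneg_left h3 (by norm_num)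
      have h9 : (1 + 1 / 10 ^ 27) * (dE + 1 / 10 ^ 25 * dE) + D / 10 ^ 50 - dE ≤
          1 / (4 * 10 ^ 24) * D := by
        rw [hdE]
        norm_num
        linarith
      linarith
  · intro u x hx
    have e1 : ((nb Hin u).filter fun v => x ∉ nv v) =
        (nb H u).filter fun v => aV v = aU u ∧ x ∉ nv v := by
      ext v
      rw [Finset.mem_filter, Finset.mem_filter, mem_nb, mem_nb, hHin, and_assoc]
    have h1 := h.badin u x hx
    have h2 := hbad u x hx
    rw [e1] at h2
    set n : ℝ := (((nb H u).filter fun v => aV v = aU u ∧ x ∉ nv v).card : ℝ) with hn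
    have h3 : p * n ≤ 1 / 10 ^ 25 * dE := by
      calc p * n ≤ p * (1 / 10 ^ 25 * ((Fintype.card X : ℝ) / P)) :=
            mul_le_mul_of_nonneg_left h1 hp0
        _ = 1 / 10 ^ 25 * (p * ((Fintype.card X : ℝ) / P)) := by ring
        _ = 1 / 10 ^ 25 * dE := by rw [hp]
    rw [← hD]
    have h8 : (1 + 1 / 10 ^ 27) * (p * n) ≤ (1 + 1 / 10 ^ 27) * (1 / 10 ^ 25 * dE) :=
      mul_le_mul_of_nonneg_left h3 (by norm_num)
    have h9 : (1 + 1 / 10 ^ 27) * (1 / 10 ^ 25 * dE) + D / 10 ^ 50 ≤ 1 / 10 ^ 24 * D := by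
      rw [hdE]
      norm_num
      linarith
    linarith

private def resE_flt {α : Type} (K : Finset α) (q : α → Prop) : Finset α := K.filter q

private theorem mem_resE_flt {α : Type} {K : Finset α} {q : α → Prop} {e : α} :
    e ∈ resE_flt K q ↔ e ∈ K ∧ q e := by
  unfold resE_flt
  exact Finset.mem_filter

private theorem resE_cardU {U V : Type} [Fintype V] (K : Finset (U × V)) (u : U)
    (q : V → Prop) [DecidablePred q] :
    (resE_flt K fun e => e.1 = u ∧ q e.2).card = ((nb K u).filter q).card := by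
  refine Finset.card_bij (fun e _ => e.2) ?_ ?_ ?_
  · rintro ⟨u', v⟩ he
    obtain ⟨h1, h2, h3⟩ := mem_resE_flt.1 he
    have h2' : u' = u := h2
    subst h2'
    exact Finset.mem_filter.2 ⟨mem_nb.2 h1, h3⟩
  · rintro ⟨u', v⟩ he ⟨u'', v'⟩ he' h
    have h2 : u' = u := (mem_resE_flt.1 he).2.1
    have h3 : u'' = u := (mem_resE_flt.1 he').2.1
    have h4 : v = v' := h
    rw [h2, h3, h4]
  · intro v hv
    obtain ⟨h1, h2⟩ := Finset.mem_filter.1 hv
    exact ⟨(u, v), mem_resE_flt.2 ⟨mem_nb.1 h1, rfl, h2⟩, rfl⟩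

private theorem resE_cardV {U V : Type} [Fintype U] (K : Finset (U × V)) (v : V)
    (q : U → Prop) [DecidablePred q] :
    (resE_flt K fun e => e.2 = v ∧ q e.1).card = ((nb (tr K) v).filter q).card := by
  refine Finset.card_bij (fun e _ => e.1) ?_ ?_ ?_
  · rintro ⟨u, v'⟩ he
    obtain ⟨h1, h2, h3⟩ := mem_resE_flt.1 he
    have h2' : v' = v := h2
    subst h2'
    exact Finset.mem_filter.2 ⟨mem_nb.2 (mem_tr.2 h1), h3⟩
  · rintro ⟨u', v'⟩ he ⟨u'', v''⟩ he' h
    have h2 : v' = v := (mem_resE_flt.1 he).2.1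
    have h3 : v'' = v := (mem_resE_flt.1 he').2.1
    have h4 : u' = u'' := h
    rw [h2, h3, h4]
  · intro u hu
    obtain ⟨h1, h2⟩ := Finset.mem_filter.1 hu
    exact ⟨(u, v), mem_resE_flt.2 ⟨mem_tr.1 (mem_nb.1 h1), rfl, h2⟩, rfl⟩

private theorem resE_card {U : Type} [Fintype U] (P s : ℕ) (aU : U → Fin P)
    (h : ∀ a, (Finset.univ.filter fun u => aU u = a).card = s) : Fintype.card U = P * s := by
  have h1 := Finset.card_eq_sum_card_fiberwise (f := aU) (s := Finset.univ)
    (t := Finset.univ) (fun u _ => Finset.mem_coe.2 (Finset.mem_univ _))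
  rw [Finset.card_univ] at h1
  rw [h1, Finset.sum_congr rfl fun a _ => h a]
  simp

theorem resE {U V X : Type} [Fintype U] [Fintype V] [Fintype X] (H : Finset (U × V))
    (nu : U → Finset X) (nv : V → Finset X) (P : ℕ) (aU : U → Fin P) (aV : V → Fin P)
    (hub : Fin P → Finset X) (G : Finset X) (s r : ℕ) (L : ℝ)
    (h : SInst H nu nv P aU aV hub G s r L (1 / 10 ^ 25)) :
    ∃ E : Finset (U × V), ResE H E nu nv P aU aV G s r := by
  set D : ℝ := (G.card : ℝ) + r with hD
  set k : ℝ := (Fintype.card X : ℝ) with hk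
  have hL := h.L1
  have hP := h.P1
  have hP0 : (0 : ℝ) < P := lt_of_lt_of_le (by positivity) hP
  have hg1 : (10 : ℝ) ^ 120 * L ≤ G.card := by
    calc (10 : ℝ) ^ 120 * L = 10 ^ 60 * 10 ^ 60 * L := by norm_num
      _ ≤ 10 ^ 60 * P * L := by
          apply mul_le_mul_of_nonneg_right _ (by linarith)
          exact mul_le_mul_of_nonneg_left hP (by positivity)
      _ ≤ G.card := h.G1
  have hr := h.r2
  have hr0 : (0 : ℝ) ≤ r := Nat.cast_nonneg r
  have hDg : D ≤ 2 * G.card := by
    have h1 : (10 : ℝ) ^ 22 * L ≤ 10 ^ 120 * L :=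
      mul_le_mul_of_nonneg_right (by norm_num) (by linarith)
    rw [hD]
    linarith
  have hgD : (G.card : ℝ) ≤ D := by rw [hD]; linarith
  have hLD : (10 : ℝ) ^ 120 * L ≤ D := hg1.trans hgD
  have hD0 : 0 < D := lt_of_lt_of_le (by positivity) hLD
  have hkG := h.G2
  have hg0 : (0 : ℝ) < G.card := lt_of_lt_of_le (by positivity) hg1
  have hk0 : 0 < k := lt_of_lt_of_le (by positivity) hkG
  set dE : ℝ := (1 - 1 / 10 ^ 15 - 1 / 10 ^ 11) * D with hdE
  have hdE0 : 0 ≤ dE := by
    rw [hdE]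
    exact mul_nonneg (by norm_num) hD0.le
  have hdED : dE ≤ D := by
    rw [hdE]
    have : (1 - 1 / 10 ^ 15 - 1 / 10 ^ 11 : ℝ) ≤ 1 := by norm_num
    nlinarith
  set p : ℝ := dE * P / k with hpdef
  have hp0 : 0 ≤ p := by rw [hpdef]; positivity
  have hp1 : p ≤ 1 := by
    rw [hpdef, div_le_one hk0]
    calc dE * P ≤ 2 * G.card * P := mul_le_mul_of_nonneg_right (hdED.trans hDg) hP0.le
      _ = 2 * (P * G.card) := by ring
      _ ≤ 10 ^ 60 * (P * G.card) := mul_le_mul_of_nonneg_right (by norm_num) (by positivity)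
      _ = 10 ^ 60 * P * G.card := by ring
      _ ≤ k := hkG
  have hpk : p * (k / P) = dE := by
    rw [hpdef]
    field_simp
  have hcU : Fintype.card U = P * s := resE_card P s aU h.s1.cU
  have hcV : Fintype.card V = P * s := resE_card P s aV h.s2.cU
  have hUe : (Fintype.card U : ℝ) ≤ Real.exp L := by
    rw [hcU]
    push_cast
    exact h.NL
  have hVe : (Fintype.card V : ℝ) ≤ Real.exp L := by
    rw [hcV]
    push_cast
    exact h.NL
  set Hin : Finset (U × V) := H.filter fun e => aU e.1 = aV e.2 with hHin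
  let S : U ⊕ V ⊕ (U × X) ⊕ (V × X) ⊕ (Finset U × Finset V) → Finset (U × V) :=
    Sum.elim (fun u => resE_flt Hin fun e => e.1 = u ∧ True)
      (Sum.elim (fun v => resE_flt Hin fun e => e.2 = v ∧ True)
        (Sum.elim (fun q => resE_flt Hin fun e => e.1 = q.1 ∧ q.2 ∉ nv e.2)
          (Sum.elim (fun q => resE_flt Hin fun e => e.2 = q.1 ∧ q.2 ∉ nu e.1)
            (fun q => resE_flt Hin fun e => e.1 ∈ q.1 ∧ e.2 ∈ q.2))))
  set τ : ℝ := 8 * 10 ^ 27 * L with hτ
  let t : U ⊕ V ⊕ (U × X) ⊕ (V × X) ⊕ (Finset U × Finset V) → ℝ :=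
    Sum.elim (fun _ => τ) (Sum.elim (fun _ => τ) (Sum.elim (fun _ => τ)
      (Sum.elim (fun _ => τ) (fun q => τ * max (q.1.card : ℝ) q.2.card))))
  let I : Finset (U ⊕ V ⊕ (U × X) ⊕ (V × X) ⊕ (Finset U × Finset V)) :=
    Finset.univ.disjSum (Finset.univ.disjSum (Finset.univ.disjSum (Finset.univ.disjSum
      ((Finset.univ.filter fun S : Finset U => S.Nonempty) ×ˢ
        (Finset.univ.filter fun T : Finset V => T.Nonempty)))))
  have hτD : τ ≤ D / 10 ^ 50 := by
    rw [le_div_iff₀ (by positivity)]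
    calc τ * 10 ^ 50 = 8 * 10 ^ 77 * L := by rw [hτ]; ring
      _ ≤ 10 ^ 120 * L := mul_le_mul_of_nonneg_right (by norm_num) (by linarith)
      _ ≤ D := hLD
  have hτ0 : 0 ≤ τ := by rw [hτ]; positivity
  have hzτ : (1 / 10 ^ 27 : ℝ) * τ = 8 * L := by
    rw [hτ]
    ring
  have hsum : ∑ i ∈ I, 2 * Real.exp (-((1 / 10 ^ 27 : ℝ) * t i)) < 1 := by
    have e5 : ∑ q ∈ (Finset.univ.filter fun S : Finset U => S.Nonempty) ×ˢ
        (Finset.univ.filter fun T : Finset V => T.Nonempty),
        2 * Real.exp (-((1 / 10 ^ 27 : ℝ) * (τ * max (q.1.card : ℝ) q.2.card))) ≤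
        2 * (4 * Real.exp (-(6 * L))) := by
      rw [Finset.sum_product]
      have h1 := pair_sum (U := U) (V := V) L hL hUe hVe
      have h2 : ∀ (S : Finset U) (T : Finset V),
          2 * Real.exp (-((1 / 10 ^ 27 : ℝ) * (τ * max (S.card : ℝ) T.card))) =
          2 * Real.exp (-(8 * L * max (S.card : ℝ) T.card)) := by
        intro S T
        rw [← mul_assoc, hzτ]
      simp only [h2, ← Finset.mul_sum]
      linarith
    have hE : Real.exp L * Real.exp (-(8 * L)) ≤ Real.exp (-(6 * L)) := by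
      rw [← Real.exp_add]
      exact Real.exp_le_exp.2 (by linarith)
    have hEE : Real.exp L * Real.exp L * Real.exp (-(8 * L)) = Real.exp (-(6 * L)) := by
      rw [← Real.exp_add, ← Real.exp_add]
      congr 1
      ring
    have e1 : (Fintype.card U : ℝ) * (2 * Real.exp (-(8 * L))) ≤ 2 * Real.exp (-(6 * L)) := by
      have h1 : (Fintype.card U : ℝ) * Real.exp (-(8 * L)) ≤ Real.exp L * Real.exp (-(8 * L)) :=
        mul_le_mul_of_nonneg_right hUe (Real.exp_pos _).le
      linarith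
    have e2 : (Fintype.card V : ℝ) * (2 * Real.exp (-(8 * L))) ≤ 2 * Real.exp (-(6 * L)) := by
      have h1 : (Fintype.card V : ℝ) * Real.exp (-(8 * L)) ≤ Real.exp L * Real.exp (-(8 * L)) :=
        mul_le_mul_of_nonneg_right hVe (Real.exp_pos _).le
      linarith
    have e3 : (Fintype.card U : ℝ) * k * (2 * Real.exp (-(8 * L))) ≤
        2 * Real.exp (-(6 * L)) := by
      have h1 : (Fintype.card U : ℝ) * k ≤ Real.exp L * Real.exp L :=
        mul_le_mul hUe h.kL hk0.le (Real.exp_pos _).le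
      have h2 := mul_le_mul_of_nonneg_right h1 (Real.exp_pos (-(8 * L))).le
      linarith
    have e4 : (Fintype.card V : ℝ) * k * (2 * Real.exp (-(8 * L))) ≤
        2 * Real.exp (-(6 * L)) := by
      have h1 : (Fintype.card V : ℝ) * k ≤ Real.exp L * Real.exp L :=
        mul_le_mul hVe h.kL hk0.le (Real.exp_pos _).le
      have h2 := mul_le_mul_of_nonneg_right h1 (Real.exp_pos (-(8 * L))).le
      linarith
    have hsm : 16 * Real.exp (-(6 * L)) < 1 := by
      have h1 : Real.exp (-(6 * L)) ≤ Real.exp (-6) := Real.exp_le_exp.2 (by linarith)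
      have h2 : Real.exp (-6) < 1 / 16 := by
        have h3 : (2 : ℝ) ≤ Real.exp 1 := by
          have := Real.add_one_le_exp (1 : ℝ)
          linarith
        have h4 : Real.exp 6 = Real.exp 1 ^ 6 := by
          rw [← Real.exp_nat_mul]
          norm_num
        have h5 : (64 : ℝ) ≤ Real.exp 6 := by
          rw [h4]
          calc (64 : ℝ) = 2 ^ 6 := by norm_num
            _ ≤ Real.exp 1 ^ 6 := pow_le_pow_left₀ (by norm_num) h3 6
        rw [Real.exp_neg]
        have h6 : (Real.exp 6)⁻¹ ≤ (64 : ℝ)⁻¹ := inv_anti₀ (by norm_num) h5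
        linarith [show (64 : ℝ)⁻¹ < 1 / 16 by norm_num]
      linarith
    have htot : ∑ i ∈ I, 2 * Real.exp (-((1 / 10 ^ 27 : ℝ) * t i)) =
        (Fintype.card U : ℝ) * (2 * Real.exp (-(8 * L))) +
        ((Fintype.card V : ℝ) * (2 * Real.exp (-(8 * L))) +
        ((Fintype.card U : ℝ) * k * (2 * Real.exp (-(8 * L))) +
        ((Fintype.card V : ℝ) * k * (2 * Real.exp (-(8 * L))) +
        ∑ q ∈ (Finset.univ.filter fun S : Finset U => S.Nonempty) ×ˢ
          (Finset.univ.filter fun T : Finset V => T.Nonempty),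
          2 * Real.exp (-((1 / 10 ^ 27 : ℝ) * (τ * max (q.1.card : ℝ) q.2.card)))))) := by
      simp only [I, t, Finset.sum_disjSum, Sum.elim_inl, Sum.elim_inr, hzτ, Finset.sum_const,
        Finset.card_univ, Fintype.card_prod, nsmul_eq_mul, Nat.cast_mul]
      rfl
    rw [htot]
    linarith
  obtain ⟨F, hF⟩ := resE_labelSets p hp0 hp1 I S (1 / 10 ^ 27) (by positivity) (by norm_num) t hsum
  set E : Finset (U × V) := Hin ∩ F with hE
  have hfil : ∀ q : U × V → Prop, (resE_flt Hin q) ∩ F = resE_flt E q := by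
    intro q
    ext e
    rw [hE, Finset.mem_inter, mem_resE_flt, mem_resE_flt, Finset.mem_inter]
    tauto
  have hinU : ∀ u v, (u, v) ∈ Hin ↔ (u, v) ∈ H ∧ aV v = aU u := by
    intro u v
    rw [hHin, Finset.mem_filter]
    exact and_congr_right fun _ => eq_comm
  have hinV : ∀ v u, (v, u) ∈ tr Hin ↔ (v, u) ∈ tr H ∧ aU u = aV v := by
    intro v u
    rw [mem_tr, mem_tr, hHin, Finset.mem_filter]
  have hTU : ∀ (K : Finset (U × V)) u, ((nb K u).filter fun _ => True) = nb K u := by
    intro K u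
    exact Finset.filter_true_of_mem fun _ _ => trivial
  have hTV : ∀ (K : Finset (V × U)) v, ((nb K v).filter fun _ => True) = nb K v := by
    intro K v
    exact Finset.filter_true_of_mem fun _ _ => trivial
  refine ⟨E, ⟨?_, ?_, ?_, ?_, ?_⟩⟩
  · intro e he
    exact (Finset.mem_filter.1 (Finset.mem_inter.1 he).1).1
  · intro e he
    exact (Finset.mem_filter.1 (Finset.mem_inter.1 he).1).2
  · refine resE_side H E Hin nu nv P aU aV hub G s r h.s1 hinU D dE p τ hD hD0.le hdE hp0 hpk hτD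
      ?_ ?_
    · intro u
      have h1 := hF (Sum.inl u) (by simp [I])
      simp only [S, t, Sum.elim_inl, hfil] at h1
      rw [resE_cardU Hin u (fun _ => True), resE_cardU E u (fun _ => True), hTU, hTU] at h1
      exact h1
    · intro u x _
      have h1 := hF (Sum.inr (Sum.inr (Sum.inl (u, x)))) (by simp [I])
      simp only [S, t, Sum.elim_inl, Sum.elim_inr, hfil] at h1
      rw [resE_cardU Hin u (fun v => x ∉ nv v), resE_cardU E u (fun v => x ∉ nv v)] at h1
      exact h1.2
  · refine resE_side (tr H) (tr E) (tr Hin) nv nu P aV aU hub G s r h.s2 hinV D dE p τ hD hD0.le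
      hdE hp0 hpk hτD ?_ ?_
    · intro v
      have h1 := hF (Sum.inr (Sum.inl v)) (by simp [I])
      simp only [S, t, Sum.elim_inl, Sum.elim_inr, hfil] at h1
      rw [resE_cardV Hin v (fun _ => True), resE_cardV E v (fun _ => True), hTV, hTV] at h1
      exact h1
    · intro v x _
      have h1 := hF (Sum.inr (Sum.inr (Sum.inr (Sum.inl (v, x))))) (by simp [I])
      simp only [S, t, Sum.elim_inl, Sum.elim_inr, hfil] at h1
      rw [resE_cardV Hin v (fun u => x ∉ nu u), resE_cardV E v (fun u => x ∉ nu u)] at h1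
      exact h1.2
  · intro a S' T' hS' hT'
    rcases S'.eq_empty_or_nonempty with hSe | hSn
    · have h0 : eb E S' T' = 0 := by
        unfold eb
        rw [hSe]
        simp
      rw [h0]
      push_cast
      positivity
    rcases T'.eq_empty_or_nonempty with hTe | hTn
    · have h0 : eb E S' T' = 0 := by
        unfold eb
        rw [hTe]
        simp
      rw [h0]
      push_cast
      positivity
    have h1 := hF (Sum.inr (Sum.inr (Sum.inr (Sum.inr (S', T'))))) (by simp [I, hSn, hTn])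
    simp only [S, t, Sum.elim_inr, hfil] at h1
    have h2 : (resE_flt E fun e => e.1 ∈ S' ∧ e.2 ∈ T').card = eb E S' T' := by
      unfold eb
      congr 1
      ext e
      rw [mem_resE_flt, Finset.mem_filter]
    rw [h2] at h1
    have h3 : ((resE_flt Hin fun e => e.1 ∈ S' ∧ e.2 ∈ T').card : ℝ) ≤ (eb H S' T' : ℝ) := by
      unfold eb
      have h5 : (resE_flt Hin fun e => e.1 ∈ S' ∧ e.2 ∈ T') ⊆
          H.filter fun e => e.1 ∈ S' ∧ e.2 ∈ T' := by
        intro e he
        obtain ⟨he1, he2⟩ := mem_resE_flt.1 he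
        exact Finset.mem_filter.2 ⟨(Finset.mem_filter.1 he1).1, he2⟩
      exact_mod_cast Finset.card_le_card h5
    have h4 := h.mix S' T'
    set m : ℝ := max (S'.card : ℝ) T'.card with hm
    have hm0 : 0 ≤ m := le_max_of_le_left (Nat.cast_nonneg _)
    set st : ℝ := (S'.card : ℝ) * T'.card with hst
    have hst0 : 0 ≤ st := by positivity
    have h5 : p * ((resE_flt Hin fun e => e.1 ∈ S' ∧ e.2 ∈ T').card : ℝ) ≤
        D * (st / s) + D / 10 ^ 60 * m := by
      have hs0 : (0 : ℝ) < s := by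
        refine lt_of_lt_of_le ?_ h.s3
        positivity
      have hsq : 0 < Real.sqrt k := Real.sqrt_pos.2 hk0
      have h6 : p * (k * (st / (P * s))) = dE * (st / s) := by
        rw [hpdef]
        field_simp
      have h7 : p * (Real.sqrt k * m) ≤ D / 10 ^ 60 * m := by
        rw [← mul_assoc]
        apply mul_le_mul_of_nonneg_right _ hm0
        have h8 : p * Real.sqrt k = dE * (P / Real.sqrt k) := by
          rw [hpdef]
          have h9 : k = Real.sqrt k * Real.sqrt k := (Real.mul_self_sqrt hk0.le).symm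
          rw [div_mul_eq_mul_div, mul_div_assoc' dE, div_eq_div_iff hk0.ne' hsq.ne']
          calc dE * P * Real.sqrt k * Real.sqrt k = dE * P * (Real.sqrt k * Real.sqrt k) := by ring
            _ = dE * P * k := by rw [← h9]
        rw [h8]
        have h10 : P / Real.sqrt k ≤ 1 / 10 ^ 60 := by
          rw [div_le_div_iff₀ hsq (by positivity)]
          have := h.P2
          linarith
        calc dE * (P / Real.sqrt k) ≤ D * (1 / 10 ^ 60) :=
              mul_le_mul hdED h10 (by positivity) hD0.le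
          _ = D / 10 ^ 60 := by ring
      calc p * ((resE_flt Hin fun e => e.1 ∈ S' ∧ e.2 ∈ T').card : ℝ)
          ≤ p * (k * (st / (P * s)) + Real.sqrt k * m) :=
            mul_le_mul_of_nonneg_left (h3.trans h4) hp0
        _ = p * (k * (st / (P * s))) + p * (Real.sqrt k * m) := by ring
        _ ≤ dE * (st / s) + D / 10 ^ 60 * m := by rw [h6]; linarith
        _ ≤ D * (st / s) + D / 10 ^ 60 * m := by
            have : dE * (st / s) ≤ D * (st / s) := mul_le_mul_of_nonneg_right hdED (by positivity)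
            linarith
    have h6 : (1 + 1 / 10 ^ 27 : ℝ) * (p * ((resE_flt Hin fun e => e.1 ∈ S' ∧ e.2 ∈ T').card : ℝ)) ≤
        (1 + 1 / 10 ^ 27) * (D * (st / s) + D / 10 ^ 60 * m) :=
      mul_le_mul_of_nonneg_left h5 (by norm_num)
    have h7 : τ * m ≤ D / 10 ^ 50 * m := mul_le_mul_of_nonneg_right hτD hm0
    have h8 : 0 ≤ D * (st / s) := by positivity
    have h9 : 0 ≤ D * m := by positivity
    rw [← hD]
    have h10 := h1.2
    calc (eb E S' T' : ℝ) ≤ (1 + 1 / 10 ^ 27) * (D * (st / s) + D / 10 ^ 60 * m) +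
          D / 10 ^ 50 * m := by linarith
      _ = (1 + 1 / 10 ^ 27) * (D * (st / s)) +
          ((1 + 1 / 10 ^ 27) / 10 ^ 60 + 1 / 10 ^ 50) * (D * m) := by ring
      _ ≤ 104 / 100 * (D * (st / s)) + 1 / 10 ^ 24 * (D * m) := by
          apply add_le_add
          · exact mul_le_mul_of_nonneg_right (by norm_num) h8
          · exact mul_le_mul_of_nonneg_right (by norm_num) h9
      _ = D * (104 / 100 * (st / s) + 1 / 10 ^ 24 * m) := by ring

end Pool.Agent.Lib.TriS
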