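import Pool.Agent.Lib.TriS.CDefs

/-!
Definitions for section 3 of the paper (hubs and parts), MP_6fba53_co.

`A x l` iff the colour `x` is not in the block `l`, `M y l` iff `y ∈ l`, `k` = number of colours (points of `B0`), `c` = number of
points `y`, `n` = order of the design, `v = k + c`, `w = v^(1/10000)`, `L = log v`.
-/

set_option autoImplicit false

open scoped Classical

noncomputable section

namespace Pool.Agent.Lib.TriS

/-- the only largeness hypothesis -/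
def BigV (v : ℝ) : Prop := 1 ≤ v ∧ (10 : ℝ) ^ 200 * (Real.log v + 1) ≤ v ^ ((1 : ℝ) / 10000)

/-- All numerical facts used in section 3 (`w = v^(1/10000)`, `v = k + c`, `(n/k)^r ≥ w^(-50)`, `lambda = k - n`). -/
structure N3 (k c n P r : ℕ) (L w : ℝ) : Prop where
  L1 : 1 ≤ L
  w1 : (10 : ℝ) ^ 200 * (L + 1) ≤ w
  eL : Real.exp L = (k : ℝ) + c
  vw : (k : ℝ) + c = w ^ 10000
  P1 : (P : ℝ) ≤ w ^ 100
  P2 : w ^ 100 / 2 ≤ P
  r1 : 10 ^ 21 * L ≤ r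
  r2 : (r : ℝ) ≤ 2 * 10 ^ 21 * L
  k1 : w ^ 5000 ≤ k
  k2 : (k : ℝ) ≤ 1 / 10 ^ 30 * ((k : ℝ) + c)
  n1 : (n : ℝ) ≤ k
  n2 : (k : ℝ) - n ≤ 1 / 10 ^ 30 * k
  lam : ((k : ℝ) - n) * ((k : ℝ) + c - 1) = k * ((k : ℝ) - 1)
  gw : 1 ≤ w ^ 50 * ((n : ℝ) / k) ^ r

/-- the block `l` contains no colour of the hub `H` -/
def gd {X B : Type} (A : X → B → Prop) (H : Finset X) (l : B) : Prop := ∀ x ∈ H, A x l

/-- number of blocks of `D` that contain no colour of `ω` -/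
def zc {X B : Type} (A : X → B → Prop) {r : ℕ} (D : Finset B) (ω : Fin r → X) : ℕ :=
  (D.filter fun l => ∀ i, A (ω i) l).card

/-- Hubs, with `ζ = 1/10^29` and the density `g` of good blocks: properties (B1)-(B6) of the paper. -/
structure HubSys {X Y B : Type} [Fintype X] [Fintype Y] [Fintype B] (A : X → B → Prop)
    (M : Y → B → Prop) (k c n : ℕ) (G : Finset X) (P r : ℕ) (hub : Fin P → Finset X)
    (Ex : Finset Y) (g : ℝ) : Prop where
  hubc : ∀ a, (hub a).card = r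
  hubd : ∀ a b, a ≠ b → Disjoint (hub a) (hub b)
  hubG : ∀ a, Disjoint (hub a) G
  g1 : g ≤ 1
  gP : (10 : ℝ) ^ 60 ≤ g * P
  ex : (Ex.card : ℝ) ≤ 1 / 10 ^ 29 * k
  b1 : ∀ y, y ∉ Ex → ∀ a, (1 - 1 / 10 ^ 29) * (g * k) ≤
      ((Finset.univ.filter fun l => M y l ∧ gd A (hub a) l).card : ℝ) ∧
    ((Finset.univ.filter fun l => M y l ∧ gd A (hub a) l).card : ℝ) ≤ (1 + 1 / 10 ^ 29) * (g * k)
  b2 : ∀ l, ((Finset.univ.filter fun a => gd A (hub a) l).card : ℝ) ≤ (1 + 1 / 10 ^ 29) * (g * P)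
  b3 : ∀ y, (1 - 1 / 10 ^ 29) * (g * P * k) ≤
    ∑ l ∈ Finset.univ.filter (fun l => M y l), ((Finset.univ.filter fun a => gd A (hub a) l).card : ℝ)
  b4 : ∀ y, y ∉ Ex → ∀ x ∈ G, ∀ a,
    ((Finset.univ.filter fun l => (M y l ∧ ¬ A x l) ∧ gd A (hub a) l).card : ℝ) ≤ 2 * (g * (k - n))
  b5 : ∀ a, (1 - 1 / 10 ^ 29) * (g * (k + c)) ≤
      ((Finset.univ.filter fun l => gd A (hub a) l).card : ℝ) ∧
    ((Finset.univ.filter fun l => gd A (hub a) l).card : ℝ) ≤ (1 + 1 / 10 ^ 29) * (g * (k + c))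
  b6 : ∀ x ∈ G, ∀ a,
    ((Finset.univ.filter fun l => ¬ A x l ∧ gd A (hub a) l).card : ℝ) ≤ 2 * (g * k)

/-- (B5) fails for `ω` -/
def bad5 {X B : Type} [Fintype B] (A : X → B → Prop) (k c : ℕ) (g : ℝ) {r : ℕ} (ω : Fin r → X) :
    Prop :=
  ¬ ((1 - 1 / 10 ^ 29) * (g * (k + c)) ≤ (zc A Finset.univ ω : ℝ) ∧
    (zc A Finset.univ ω : ℝ) ≤ (1 + 1 / 10 ^ 29) * (g * (k + c)))

/-- (B6) fails for `ω` and `x` -/
def bad6 {X B : Type} [Fintype B] (A : X → B → Prop) (k : ℕ) (g : ℝ) (x : X) {r : ℕ}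
    (ω : Fin r → X) : Prop :=
  2 * (g * k) < (zc A (Finset.univ.filter fun l => ¬ A x l) ω : ℝ)

/-- (B1) fails for `ω` and `y` -/
def bad1 {X Y B : Type} [Fintype B] (A : X → B → Prop) (M : Y → B → Prop) (k : ℕ) (g : ℝ) (y : Y)
    {r : ℕ} (ω : Fin r → X) : Prop :=
  ¬ ((1 - 1 / 10 ^ 29) * (g * k) ≤ (zc A (Finset.univ.filter fun l => M y l) ω : ℝ) ∧
    (zc A (Finset.univ.filter fun l => M y l) ω : ℝ) ≤ (1 + 1 / 10 ^ 29) * (g * k))

/-- (B4) fails for `ω`, `y` and `x` -/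
def bad4 {X Y B : Type} [Fintype B] (A : X → B → Prop) (M : Y → B → Prop) (k n : ℕ) (g : ℝ) (y : Y)
    (x : X) {r : ℕ} (ω : Fin r → X) : Prop :=
  2 * (g * (k - n)) < (zc A (Finset.univ.filter fun l => M y l ∧ ¬ A x l) ω : ℝ)

/-- the cost of one hub candidate `ω` -/
def badw {X Y B : Type} [Fintype X] [Fintype Y] [Fintype B] (A : X → B → Prop) (M : Y → B → Prop)
    (k c n : ℕ) (G : Finset X) (g : ℝ) {r : ℕ} (ω : Fin r → X) : ℝ :=
  (if bad5 A k c g ω then 1 else 0) + ∑ x ∈ G, (if bad6 A k g x ω then 1 else 0) +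
    ∑ i, (if ω i ∈ G then 1 else 0) +
    10 ^ 29 / k * (∑ y : Y, (if bad1 A M k g y ω then 1 else 0) +
      ∑ y : Y, ∑ x ∈ G, (if bad4 A M k n g y x ω then 1 else 0))

/-- number of collisions between the hub candidates -/
def coll {X : Type} {P r : ℕ} (f : Fin P → (Fin r → X)) : ℝ :=
  ∑ p : Fin P × Fin r, ∑ q : Fin P × Fin r, (if p ≠ q ∧ f p.1 p.2 = f q.1 q.2 then 1 else 0)

/-- The parts on the side of the points `y`. `q` says that `y` is not exceptional. -/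
structure YFin {Y B : Type} [Fintype Y] [Fintype B] (M : Y → B → Prop) (k P s : ℕ)
    (Ex : Finset Y) (pY : Y → Option (Fin P)) : Prop where
  cY : ∀ a, (Finset.univ.filter fun y => pY y = some a).card = s
  ex : ∀ y a, pY y = some a → y ∉ Ex
  wB : ∀ l, ((Finset.univ.filter fun y => M y l ∧ pY y = none).card : ℝ) ≤ 1 / 10 ^ 27 * k
  inB : ∀ l a, |((Finset.univ.filter fun y => M y l ∧ pY y = some a).card : ℝ) - (k : ℝ) / P| ≤
      1 / 10 ^ 27 * ((k : ℝ) / P)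

/-- The parts on the side of the blocks `l`. -/
structure BFin {X Y B : Type} [Fintype X] [Fintype Y] [Fintype B] (A : X → B → Prop)
    (M : Y → B → Prop) (k P s : ℕ) (G : Finset X) (hub : Fin P → Finset X)
    (Ex : Finset Y) (pB : B → Option (Fin P)) : Prop where
  cB : ∀ a, (Finset.univ.filter fun l => pB l = some a).card = s
  hubA : ∀ l a, pB l = some a → ∀ x ∈ hub a, A x l
  wY : ∀ y, ((Finset.univ.filter fun l => M y l ∧ pB l = none).card : ℝ) ≤ 1 / 10 ^ 27 * k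
  upY : ∀ y a, ((Finset.univ.filter fun l => M y l ∧ pB l = some a).card : ℝ) ≤ 1 / 10 ^ 27 * k
  inY : ∀ y, y ∉ Ex → ∀ a,
    |((Finset.univ.filter fun l => M y l ∧ pB l = some a).card : ℝ) - (k : ℝ) / P| ≤
      1 / 10 ^ 27 * ((k : ℝ) / P)
  pair : ∀ y, y ∉ Ex → ∀ x ∈ G, ∀ a,
    ((Finset.univ.filter fun l => M y l ∧ pB l = some a ∧ ¬ A x l).card : ℝ) ≤
      1 / 10 ^ 27 * ((k : ℝ) / P)
  hit : ∀ x ∈ G, ∀ a, ((Finset.univ.filter fun l => pB l = some a ∧ ¬ A x l).card : ℝ) ≤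
    1 / 10 ^ 27 * s

end Pool.Agent.Lib.TriS
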