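import Pool.Agent.Lib.TriS.S3Defs

/-!
MODULE SCnt (about 130 lines). Expectations for uniform labels (only Mathlib).

PROOF. The weight `∏ _e : Fin P, 1/N` is `(1/N)^P`, `N = Fintype.card Λ > 0`, and there are `N^P` functions.
`avg_one`: exchange the sums; for fixed `a`: `∑_f h (f a) = N^(P-1) ∑_ω h ω`. (Elegant: `∑_f (∏_e 1/N) h (f a) = ∑_f ∏_e (if e = a then h (f e)/N else 1/N)
= ∏_e ∑_ω (..)` by `Finset.prod_univ_sum` backwards (`Fintype.piFinset_univ`), the factors `e ≠ a` are `1`.)
`avg_pair`: for `p = (a,i) ≠ q = (b,j)`. Put `N' = Fintype.card X`. The map `(f, x) ↦ (f with value x at p)` from `{f | f p = f q} × X` to all functions is a bijection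
(inverse `f ↦ (f with the value f q at p, f p)`), so `#{f | f p = f q} · N' = #all`. Here functions are `Fin P → (Fin r → X)`; updating at `p` is
`Function.update f a (Function.update (f a) i x)`; or transport to `Fin P × Fin r → X` with `Equiv.curry`.
`coll_avg`: sum of `avg_pair` over the at most `(P r)^2` pairs.
`hit_avg`: `∑_ω ∑_i [ω i ∈ G] = r |G| k^(r-1)`, i.e. `· k = r |G| k^r`: same product trick.
-/

set_option autoImplicit false

open scoped Classical

noncomputable section

namespace Pool.Agent.Lib.TriS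

private theorem scnt_sum_prod {ι Λ : Type} [Fintype ι] [DecidableEq ι] [Fintype Λ]
    (g : ι → Λ → ℝ) : ∑ f : ι → Λ, ∏ e, g e (f e) = ∏ e, ∑ ω, g e ω := by
  rw [Finset.prod_univ_sum, Fintype.piFinset_univ]

theorem avg_one {Λ : Type} [Fintype Λ] [Nonempty Λ] (P : ℕ) (h : Λ → ℝ) :
    ∑ f : Fin P → Λ, (∏ _e : Fin P, (1 / (Fintype.card Λ : ℝ))) * ∑ a, h (f a) =
      P * ((∑ ω, h ω) / Fintype.card Λ) := by
  have hN : (Fintype.card Λ : ℝ) ≠ 0 := by
    exact_mod_cast Fintype.card_ne_zero
  have key : ∀ a : Fin P, ∑ f : Fin P → Λ, (∏ _e : Fin P, (1 / (Fintype.card Λ : ℝ))) * h (f a) =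
      (∑ ω, h ω) / Fintype.card Λ := by
    intro a
    have h1 : ∀ f : Fin P → Λ, (∏ _e : Fin P, (1 / (Fintype.card Λ : ℝ))) * h (f a) =
        ∏ e : Fin P, ((1 / (Fintype.card Λ : ℝ)) * (if e = a then h (f e) else 1)) := by
      intro f
      rw [Finset.prod_mul_distrib, Finset.prod_ite_eq' Finset.univ a, if_pos (Finset.mem_univ a)]
    rw [Finset.sum_congr rfl fun f _ => h1 f,
      scnt_sum_prod fun e ω => (1 / (Fintype.card Λ : ℝ)) * (if e = a then h ω else 1)]
    have h2 : ∀ e : Fin P, ∑ ω, (1 / (Fintype.card Λ : ℝ)) * (if e = a then h ω else 1) =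
        if e = a then (∑ ω, h ω) / Fintype.card Λ else 1 := by
      intro e
      rw [← Finset.mul_sum]
      split_ifs with he
      · rw [one_div, inv_mul_eq_div]
      · rw [Finset.sum_const, Finset.card_univ, nsmul_eq_mul, mul_one, one_div,
          inv_mul_cancel₀ hN]
    rw [Finset.prod_congr rfl fun e _ => h2 e, Finset.prod_ite_eq' Finset.univ a,
      if_pos (Finset.mem_univ a)]
  have h3 : ∀ f : Fin P → Λ, (∏ _e : Fin P, (1 / (Fintype.card Λ : ℝ))) * ∑ a, h (f a) =
      ∑ a, (∏ _e : Fin P, (1 / (Fintype.card Λ : ℝ))) * h (f a) := fun f => Finset.mul_sum _ _ _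
  rw [Finset.sum_congr rfl fun f _ => h3 f, Finset.sum_comm, Finset.sum_congr rfl fun a _ => key a,
    Finset.sum_const, Finset.card_univ, Fintype.card_fin, nsmul_eq_mul]

private theorem scnt_pair {ι X : Type} [Fintype ι] [DecidableEq ι] [Fintype X] [DecidableEq X]
    [Nonempty X] {p q : ι} (h : p ≠ q) :
    ∑ F : ι → X, (∏ _e : ι, (1 / (Fintype.card X : ℝ))) * (if F p = F q then 1 else 0) =
      1 / Fintype.card X := by
  have hN : (Fintype.card X : ℝ) ≠ 0 := by
    exact_mod_cast Fintype.card_ne_zero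
  have h1 : ∀ F : ι → X, (∏ _e : ι, (1 / (Fintype.card X : ℝ))) * (if F p = F q then 1 else 0) =
      ∑ x : X, ∏ e : ι, ((1 / (Fintype.card X : ℝ)) *
        (if e ∈ ({p, q} : Finset ι) then (if F e = x then 1 else 0) else 1)) := by
    intro F
    have h2 : ∀ x : X, ∏ e : ι, ((1 / (Fintype.card X : ℝ)) *
        (if e ∈ ({p, q} : Finset ι) then (if F e = x then 1 else 0) else 1)) =
        (∏ _e : ι, (1 / (Fintype.card X : ℝ))) *
          (if F p = x then (if F q = x then 1 else 0) else 0) := by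
      intro x
      rw [Finset.prod_mul_distrib, Finset.prod_ite_mem, Finset.univ_inter, Finset.prod_pair h]
      congr 1
      by_cases hp : F p = x
      · rw [if_pos hp, if_pos hp, one_mul]
      · rw [if_neg hp, if_neg hp, zero_mul]
    rw [Finset.sum_congr rfl fun x _ => h2 x, ← Finset.mul_sum]
    congr 1
    rw [Finset.sum_ite_eq Finset.univ (F p), if_pos (Finset.mem_univ _)]
    by_cases hpq : F p = F q
    · rw [if_pos hpq, if_pos hpq.symm]
    · rw [if_neg hpq, if_neg (Ne.symm hpq)]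
  rw [Finset.sum_congr rfl fun F _ => h1 F, Finset.sum_comm]
  have h3 : ∀ x : X, ∑ F : ι → X, ∏ e : ι, ((1 / (Fintype.card X : ℝ)) *
        (if e ∈ ({p, q} : Finset ι) then (if F e = x then 1 else 0) else 1)) =
      (1 / (Fintype.card X : ℝ)) * (1 / (Fintype.card X : ℝ)) := by
    intro x
    rw [scnt_sum_prod fun e y => (1 / (Fintype.card X : ℝ)) *
        (if e ∈ ({p, q} : Finset ι) then (if y = x then 1 else 0) else 1)]
    have h4 : ∀ e : ι, ∑ y : X, (1 / (Fintype.card X : ℝ)) *
        (if e ∈ ({p, q} : Finset ι) then (if y = x then 1 else 0) else 1) =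
        if e ∈ ({p, q} : Finset ι) then (1 / (Fintype.card X : ℝ)) else 1 := by
      intro e
      rw [← Finset.mul_sum]
      split_ifs with he
      · rw [Finset.sum_ite_eq' Finset.univ x, if_pos (Finset.mem_univ x), mul_one]
      · rw [Finset.sum_const, Finset.card_univ, nsmul_eq_mul, mul_one, one_div,
          inv_mul_cancel₀ hN]
    rw [Finset.prod_congr rfl fun e _ => h4 e, Finset.prod_ite_mem, Finset.univ_inter,
      Finset.prod_pair h]
  rw [Finset.sum_congr rfl fun x _ => h3 x, Finset.sum_const, Finset.card_univ, nsmul_eq_mul,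
    ← mul_assoc, mul_one_div_cancel hN, one_mul]

theorem avg_pair {X : Type} [Fintype X] [Nonempty X] (P r : ℕ) (p q : Fin P × Fin r) (h : p ≠ q) :
    ∑ f : Fin P → (Fin r → X), (∏ _e : Fin P, (1 / (Fintype.card (Fin r → X) : ℝ))) *
      (if f p.1 p.2 = f q.1 q.2 then 1 else 0) = 1 / Fintype.card X := by
  rw [← scnt_pair (X := X) h]
  symm
  refine Fintype.sum_equiv (Equiv.curry (Fin P) (Fin r) X) _ _ fun F => ?_
  have h1 : (∏ _e : Fin P × Fin r, (1 / (Fintype.card X : ℝ))) =
      ∏ _e : Fin P, (1 / (Fintype.card (Fin r → X) : ℝ)) := by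
    rw [Finset.prod_const, Finset.prod_const, Finset.card_univ, Finset.card_univ,
      Fintype.card_prod, Fintype.card_fin, Fintype.card_fin, Fintype.card_fun, Fintype.card_fin,
      Nat.cast_pow, mul_comm P r, pow_mul, one_div_pow]
  rw [h1]
  rfl

theorem coll_avg {X : Type} [Fintype X] [Nonempty X] (P r : ℕ) :
    ∑ f : Fin P → (Fin r → X), (∏ _e : Fin P, (1 / (Fintype.card (Fin r → X) : ℝ))) * coll f ≤
      ((P : ℝ) * r) ^ 2 / Fintype.card X := by
  have h1 : ∀ f : Fin P → (Fin r → X),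
      (∏ _e : Fin P, (1 / (Fintype.card (Fin r → X) : ℝ))) * coll f =
      ∑ p : Fin P × Fin r, ∑ q : Fin P × Fin r,
        (∏ _e : Fin P, (1 / (Fintype.card (Fin r → X) : ℝ))) *
          (if p ≠ q ∧ f p.1 p.2 = f q.1 q.2 then 1 else 0) := by
    intro f
    unfold coll
    rw [Finset.mul_sum]
    exact Finset.sum_congr rfl fun p _ => Finset.mul_sum _ _ _
  rw [Finset.sum_congr rfl fun f _ => h1 f, Finset.sum_comm]
  have h2 : ∀ p q : Fin P × Fin r, ∑ f : Fin P → (Fin r → X),
      (∏ _e : Fin P, (1 / (Fintype.card (Fin r → X) : ℝ))) *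
          (if p ≠ q ∧ f p.1 p.2 = f q.1 q.2 then 1 else 0) ≤ 1 / (Fintype.card X : ℝ) := by
    intro p q
    by_cases hpq : p = q
    · rw [Finset.sum_eq_zero]
      · positivity
      · intro f _
        rw [if_neg fun hh => hh.1 hpq, mul_zero]
    · rw [← avg_pair (X := X) P r p q hpq]
      refine le_of_eq (Finset.sum_congr rfl fun f _ => ?_)
      by_cases hf : f p.1 p.2 = f q.1 q.2
      · rw [if_pos hf, if_pos ⟨hpq, hf⟩]
      · rw [if_neg hf, if_neg fun hh => hf hh.2]
  have h3 : ∀ p : Fin P × Fin r, ∑ f : Fin P → (Fin r → X), ∑ q : Fin P × Fin r,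
      (∏ _e : Fin P, (1 / (Fintype.card (Fin r → X) : ℝ))) *
          (if p ≠ q ∧ f p.1 p.2 = f q.1 q.2 then 1 else 0) ≤
      ((P : ℝ) * r) * (1 / (Fintype.card X : ℝ)) := by
    intro p
    rw [Finset.sum_comm]
    refine (Finset.sum_le_sum fun q _ => h2 p q).trans (le_of_eq ?_)
    rw [Finset.sum_const, Finset.card_univ, Fintype.card_prod, Fintype.card_fin, Fintype.card_fin,
      nsmul_eq_mul, Nat.cast_mul]
  refine (Finset.sum_le_sum fun p _ => h3 p).trans (le_of_eq ?_)
  rw [Finset.sum_const, Finset.card_univ, Fintype.card_prod, Fintype.card_fin, Fintype.card_fin,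
    nsmul_eq_mul, Nat.cast_mul]
  ring

theorem hit_avg {X : Type} [Fintype X] (r : ℕ) (G : Finset X) :
    (∑ ω : Fin r → X, ∑ i, (if ω i ∈ G then (1 : ℝ) else 0)) * Fintype.card X =
      r * G.card * (Fintype.card X : ℝ) ^ r := by
  rcases isEmpty_or_nonempty X with hX | hX
  · have hG : G = ∅ := Finset.eq_empty_of_isEmpty G
    subst hG
    rw [Finset.card_empty, Finset.sum_eq_zero]
    · norm_num
    · intro ω _
      refine Finset.sum_eq_zero fun i _ => ?_
      rw [if_neg (Finset.notMem_empty _)]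
  · have hN : (Fintype.card X : ℝ) ≠ 0 := by
      exact_mod_cast Fintype.card_ne_zero
    have h1 := avg_one (Λ := X) r fun x => if x ∈ G then (1 : ℝ) else 0
    rw [← Finset.mul_sum, Finset.prod_const, Finset.card_univ, Fintype.card_fin,
      Finset.sum_boole, one_div_pow] at h1
    have h2 : (Finset.univ.filter fun x => x ∈ G) = G := by
      ext x
      simp
    rw [h2] at h1
    have hNr : (Fintype.card X : ℝ) ^ r ≠ 0 := pow_ne_zero r hN
    field_simp at h1
    linarith

end Pool.Agent.Lib.TriS
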