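import Pool.Agent.Lib.TriS.S3Defs

/-!
MODULE SMom (about 170 lines). Second moment of the number `zc A D ω` of blocks of `D` that contain no colour of `ω`, for `ω`
uniform in `X^r` (`Fin r → X`), and the Chebyshev inequality.

PROOF. `zc_sum`: induction on `r` with `Fin.consEquiv` / `Fintype.sum_equiv (Fin.consEquiv ..)`, or directly: exchange the sums,
for a fixed block `l` the number of `ω` with `∀ i, A (ω i) l` is `n^r` (`Fintype.card_piFinset_const`, `degSR`).
`zc_var`: induction on `r`. `r = 0`: `zc A D ω = |D|`, the summand is `0`. Step `r → r+1`: write `ω = Fin.cons x ω'`, `D_x = {l ∈ D | A x l}`;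
`zc A D (Fin.cons x ω') = zc A D_x ω'` (`Fin.forall_fin_succ`). With `q = n/k`, `g = q^r`:
`zc - q g |D| = (zc A D_x ω' - g |D_x|) + g (|D_x| - q |D|)`; summing the square over `ω'` the mixed term vanishes by `zc_sum`
(`∑_ω' zc A D_x ω' = n^r |D_x| = k^r g |D_x|`, `k > 0`), so
`∑_x ∑_ω' (..)^2 = ∑_x ∑_ω' (zc A D_x ω' - g |D_x|)^2 + k^r g^2 ∑_x (|D_x| - q|D|)^2 ≤ ∑_x k^r r |D_x| + k^r g^2 n |D| ≤ k^r r n |D| + k^r n |D|
≤ k^(r+1) (r+1) |D|` (`0 ≤ g ≤ 1`, `n ≤ k`).
Used: `∑_x |D_x| = n |D|` (exchange, `degSR`) and `∑_x (|D_x| - q|D|)^2 ≤ ∑_x (|D_x| - (c/(k+c)) |D|)^2 ≤ n |D|`: the first inequality because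
`q |D|` is the mean of `|D_x|` over the `k` colours (expand the squares: for every real `m`, `∑_x (a_x - m)^2 = ∑_x (a_x - mean)^2 + k (mean - m)^2`), the second
is `hM.m3 D`.
`zc_cheb`: if `D` is empty the filter is empty (`0 < |0 - 0|` is false). Otherwise every `ω` in the filter has
`(zc - g|D|)^2 ≥ δ^2 |D|^2`, so `card filter · δ^2 |D|^2 ≤ k^r r |D|`; divide by `|D| > 0`.
-/

/-!
MODULE SMom (about 170 lines). Second moment of the number `zc A D ω` of blocks of `D` that contain no colour of `ω`, for `ω`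
uniform in `X^r` (`Fin r → X`), and the Chebyshev inequality.

PROOF. `zc_sum`: induction on `r` with `Fin.consEquiv` / `Fintype.sum_equiv (Fin.consEquiv ..)`, or directly: exchange the sums,
for a fixed block `l` the number of `ω` with `∀ i, A (ω i) l` is `n^r` (`Fintype.card_piFinset_const`, `degSR`).
`zc_var`: induction on `r`. `r = 0`: `zc A D ω = |D|`, the summand is `0`. Step `r → r+1`: write `ω = Fin.cons x ω'`, `D_x = {l ∈ D | A x l}`;
`zc A D (Fin.cons x ω') = zc A D_x ω'` (`Fin.forall_fin_succ`). With `q = n/k`, `g = q^r`: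
`zc - q g |D| = (zc A D_x ω' - g |D_x|) + g (|D_x| - q |D|)`; summing the square over `ω'` the mixed term vanishes by `zc_sum`
(`∑_ω' zc A D_x ω' = n^r |D_x| = k^r g |D_x|`, `k > 0`), so
`∑_x ∑_ω' (..)^2 = ∑_x ∑_ω' (zc A D_x ω' - g |D_x|)^2 + k^r g^2 ∑_x (|D_x| - q|D|)^2 ≤ ∑_x k^r r |D_x| + k^r g^2 n |D| ≤ k^r r n |D| + k^r n |D|
≤ k^(r+1) (r+1) |D|` (`0 ≤ g ≤ 1`, `n ≤ k`).
Used: `∑_x |D_x| = n |D|` (exchange, `degSR`) and `∑_x (|D_x| - q|D|)^2 ≤ ∑_x (|D_x| - (c/(k+c)) |D|)^2 ≤ n |D|`: the first inequality because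
`q |D|` is the mean of `|D_x|` over the `k` colours (expand the squares: for every real `m`, `∑_x (a_x - m)^2 = ∑_x (a_x - mean)^2 + k (mean - m)^2`), the second
is `hM.m3 D`.
`zc_cheb`: if `D` is empty the filter is empty (`0 < |0 - 0|` is false). Otherwise every `ω` in the filter has
`(zc - g|D|)^2 ≥ δ^2 |D|^2`, so `card filter · δ^2 |D|^2 ≤ k^r r |D|`; divide by `|D| > 0`.
-/

set_option autoImplicit false

open scoped Classical

noncomputable section

namespace Pool.Agent.Lib.TriS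

open Pool.Agent.Lib.TriD

variable {X Y B : Type} [Fintype X] [Fintype Y] [Fintype B] {A : X → B → Prop} {M : Y → B → Prop}
  {k c n : ℕ}

private theorem SMom_cnt (hS : DSys A M k c n) (r : ℕ) (l : B) :
    (Finset.univ.filter fun ω : Fin r → X => ∀ i, A (ω i) l).card = n ^ r := by
  have h : (Finset.univ.filter fun ω : Fin r → X => ∀ i, A (ω i) l) =
      Fintype.piFinset fun _ : Fin r => Finset.univ.filter fun x => A x l := by
    ext ω
    rw [Finset.mem_filter, Fintype.mem_piFinset]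
    constructor
    · rintro ⟨-, h⟩ i
      rw [Finset.mem_filter]
      exact ⟨Finset.mem_univ _, h i⟩
    · intro h
      exact ⟨Finset.mem_univ _, fun i => (Finset.mem_filter.1 (h i)).2⟩
  rw [h, Fintype.card_piFinset, Finset.prod_const, hS.degSR l, Finset.card_univ, Fintype.card_fin]

theorem zc_sum (hS : DSys A M k c n) (r : ℕ) (D : Finset B) :
    ∑ ω : Fin r → X, (zc A D ω : ℝ) = (n : ℝ) ^ r * D.card := by
  have h1 : ∀ ω : Fin r → X, (zc A D ω : ℝ) = ∑ l ∈ D, if ∀ i, A (ω i) l then (1 : ℝ) else 0 := by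
    intro ω
    unfold zc
    rw [Finset.card_filter]
    push_cast
    rfl
  simp only [h1]
  rw [Finset.sum_comm]
  have h2 : ∀ l ∈ D, ∑ ω : Fin r → X, (if ∀ i, A (ω i) l then (1 : ℝ) else 0) = (n : ℝ) ^ r := by
    intro l _
    have h3 := SMom_cnt (A := A) hS r l
    rw [Finset.card_filter] at h3
    exact_mod_cast h3
  rw [Finset.sum_congr rfl h2, Finset.sum_const, nsmul_eq_mul, mul_comm]

omit [Fintype X] [Fintype B] in
private theorem SMom_cons (D : Finset B) {r : ℕ} (x : X) (ω : Fin r → X) :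
    zc A D (Fin.cons x ω : Fin (r + 1) → X) = zc A (D.filter fun l => A x l) ω := by
  unfold zc
  rw [Finset.filter_filter]
  congr 1
  refine Finset.filter_congr ?_
  intro l _
  rw [Fin.forall_fin_succ, Fin.cons_zero]
  simp only [Fin.cons_succ]

private theorem SMom_split {r : ℕ} (F : (Fin (r + 1) → X) → ℝ) :
    ∑ ω, F ω = ∑ x : X, ∑ ω : Fin r → X, F (Fin.cons x ω) := by
  rw [← (Fin.consEquiv (fun _ : Fin (r + 1) => X)).sum_comp, Fintype.sum_prod_type]
  rfl

private theorem SMom_dx (hS : DSys A M k c n) (D : Finset B) :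
    ∑ x : X, ((D.filter fun l => A x l).card : ℝ) = n * D.card := by
  have h1 : ∀ x : X, ((D.filter fun l => A x l).card : ℝ) =
      ∑ l ∈ D, if A x l then (1 : ℝ) else 0 := by
    intro x
    rw [Finset.card_filter]
    push_cast
    rfl
  simp only [h1]
  rw [Finset.sum_comm]
  have h2 : ∀ l ∈ D, ∑ x : X, (if A x l then (1 : ℝ) else 0) = (n : ℝ) := by
    intro l _
    have h3 := hS.degSR l
    rw [Finset.card_filter] at h3
    exact_mod_cast h3
  rw [Finset.sum_congr rfl h2, Finset.sum_const, nsmul_eq_mul, mul_comm]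

private theorem SMom_var1 (hS : DSys A M k c n) (hM : DMix A M k c n) (hk : 0 < k)
    (D : Finset B) :
    ∑ x : X, (((D.filter fun l => A x l).card : ℝ) - ((n : ℝ) / k) * D.card) ^ 2 ≤
      n * D.card := by
  have h1 := hM.m3 D
  have h2 := SMom_dx (A := A) hS D
  have hk' : (k : ℝ) ≠ 0 := by
    have : (0 : ℝ) < k := by exact_mod_cast hk
    exact this.ne'
  obtain ⟨m, hm⟩ : ∃ m : ℝ, m = D.card * ((c : ℝ) / (k + c)) := ⟨_, rfl⟩
  obtain ⟨μ, hμ⟩ : ∃ μ : ℝ, μ = ((n : ℝ) / k) * D.card := ⟨_, rfl⟩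
  rw [← hm] at h1
  rw [← hμ]
  refine le_trans ?_ h1
  have hμ2 : (n : ℝ) * D.card = k * μ := by
    rw [hμ]
    field_simp
  rw [hμ2] at h2
  have h3 : ∑ x : X, (((D.filter fun l => A x l).card : ℝ) - m) ^ 2 -
      ∑ x : X, (((D.filter fun l => A x l).card : ℝ) - μ) ^ 2 = k * (μ - m) ^ 2 := by
    rw [← Finset.sum_sub_distrib]
    have h4 : ∀ x : X, (((D.filter fun l => A x l).card : ℝ) - m) ^ 2 -
        (((D.filter fun l => A x l).card : ℝ) - μ) ^ 2 =
        2 * (μ - m) * ((D.filter fun l => A x l).card : ℝ) + (m ^ 2 - μ ^ 2) := by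
      intro x
      ring
    simp only [h4]
    rw [Finset.sum_add_distrib, ← Finset.mul_sum, h2, Finset.sum_const, Finset.card_univ, hS.cR,
      nsmul_eq_mul]
    ring
  have h5 : 0 ≤ (k : ℝ) * (μ - m) ^ 2 := by positivity
  linarith

theorem zc_var (hS : DSys A M k c n) (hM : DMix A M k c n) (hk : 0 < k) (hn : n ≤ k) (r : ℕ)
    (D : Finset B) :
    ∑ ω : Fin r → X, ((zc A D ω : ℝ) - ((n : ℝ) / k) ^ r * D.card) ^ 2 ≤
      (k : ℝ) ^ r * (r * D.card) := by
  have hk' : (0 : ℝ) < k := by exact_mod_cast hk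
  have hn' : (n : ℝ) ≤ k := by exact_mod_cast hn
  induction r generalizing D with
  | zero =>
    have h1 : ∀ ω : Fin 0 → X, (zc A D ω : ℝ) = D.card := by
      intro ω
      unfold zc
      rw [Finset.filter_true_of_mem]
      intro l _ i
      exact i.elim0
    simp only [h1]
    simp
  | succ r ih =>
    rw [SMom_split]
    simp only [SMom_cons]
    obtain ⟨g, hg⟩ : ∃ g : ℝ, g = ((n : ℝ) / k) ^ r := ⟨_, rfl⟩
    obtain ⟨q, hq⟩ : ∃ q : ℝ, q = (n : ℝ) / k := ⟨_, rfl⟩
    have hg0 : 0 ≤ g := by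
      rw [hg]
      positivity
    have hg1 : g ≤ 1 := by
      rw [hg]
      refine pow_le_one₀ (by positivity) ?_
      rw [div_le_one hk']
      exact hn'
    have hgk : (k : ℝ) ^ r * g = (n : ℝ) ^ r := by
      rw [hg, div_pow]
      field_simp
    have hcX : (Fintype.card (Fin r → X) : ℝ) = (k : ℝ) ^ r := by
      rw [Fintype.card_fun, Fintype.card_fin, hS.cR]
      push_cast
      rfl
    have key : ∀ x : X, ∑ ω : Fin r → X, ((zc A (D.filter fun l => A x l) ω : ℝ) -
        ((n : ℝ) / k) ^ (r + 1) * D.card) ^ 2 ≤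
        (k : ℝ) ^ r * (r * (D.filter fun l => A x l).card) +
        (k : ℝ) ^ r * (((D.filter fun l => A x l).card : ℝ) - ((n : ℝ) / k) * D.card) ^ 2 := by
      intro x
      have h1 := ih (D.filter fun l => A x l)
      have h2 := zc_sum (A := A) hS r (D.filter fun l => A x l)
      rw [← hg] at h1
      rw [pow_succ, ← hg, ← hq]
      obtain ⟨d, hd⟩ : ∃ d : ℝ, d = ((D.filter fun l => A x l).card : ℝ) := ⟨_, rfl⟩
      rw [← hd] at h1 h2 ⊢
      obtain ⟨e, he⟩ : ∃ e : ℝ, e = d - q * D.card := ⟨_, rfl⟩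
      rw [← he]
      have h3 : ∀ ω : Fin r → X, ((zc A (D.filter fun l => A x l) ω : ℝ) - g * q * D.card) ^ 2 =
          ((zc A (D.filter fun l => A x l) ω : ℝ) - g * d) ^ 2 +
          2 * g * e * (zc A (D.filter fun l => A x l) ω : ℝ) +
          (g ^ 2 * e ^ 2 - 2 * g * e * (g * d)) := by
        intro ω
        rw [he]
        ring
      simp only [h3]
      rw [Finset.sum_add_distrib, Finset.sum_add_distrib, ← Finset.mul_sum, h2, Finset.sum_const,
        Finset.card_univ, nsmul_eq_mul, hcX, ← hgk]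
      have h4 : (k : ℝ) ^ r * (g ^ 2 * e ^ 2) ≤ (k : ℝ) ^ r * e ^ 2 := by
        refine mul_le_mul_of_nonneg_left ?_ (by positivity)
        have : g ^ 2 ≤ 1 := pow_le_one₀ hg0 hg1
        have h5 := mul_le_mul_of_nonneg_right this (sq_nonneg e)
        linarith
      nlinarith
    refine (Finset.sum_le_sum fun x _ => key x).trans ?_
    rw [Finset.sum_add_distrib, ← Finset.mul_sum, ← Finset.mul_sum, ← Finset.mul_sum,
      SMom_dx hS D]
    have h1 := SMom_var1 hS hM hk D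
    have h2 : (k : ℝ) ^ r * ∑ x : X, (((D.filter fun l => A x l).card : ℝ) -
        ((n : ℝ) / k) * D.card) ^ 2 ≤ (k : ℝ) ^ r * (n * D.card) :=
      mul_le_mul_of_nonneg_left h1 (by positivity)
    have h3 : (k : ℝ) ^ r * ((r + 1) * D.card) * n ≤ (k : ℝ) ^ r * ((r + 1) * D.card) * k :=
      mul_le_mul_of_nonneg_left hn' (by positivity)
    rw [pow_succ]
    push_cast
    nlinarith

theorem zc_cheb (hS : DSys A M k c n) (hM : DMix A M k c n) (hk : 0 < k) (hn : n ≤ k) (r : ℕ)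
    (D : Finset B) (δ : ℝ) (hδ : 0 < δ) :
    ((Finset.univ.filter fun ω : Fin r → X =>
        δ * D.card < |(zc A D ω : ℝ) - ((n : ℝ) / k) ^ r * D.card|).card : ℝ) * (δ ^ 2 * D.card) ≤
      (k : ℝ) ^ r * r := by
  have h1 := zc_var hS hM hk hn r D
  rcases Nat.eq_zero_or_pos D.card with h0 | h0
  · have h00 : δ ^ 2 * (D.card : ℝ) = 0 := by rw [h0, Nat.cast_zero, mul_zero]
    rw [h00, mul_zero]
    positivity
  have h0' : (0 : ℝ) < D.card := by exact_mod_cast h0
  obtain ⟨W, hW⟩ : ∃ W : Finset (Fin r → X), W = Finset.univ.filter fun ω : Fin r → X =>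
        δ * D.card < |(zc A D ω : ℝ) - ((n : ℝ) / k) ^ r * D.card| := ⟨_, rfl⟩
  rw [← hW]
  have h2 : (W.card : ℝ) * (δ * D.card) ^ 2 ≤
      ∑ ω : Fin r → X, ((zc A D ω : ℝ) - ((n : ℝ) / k) ^ r * D.card) ^ 2 := by
    refine le_trans ?_ (Finset.sum_le_sum_of_subset_of_nonneg (Finset.subset_univ W)
      (fun _ _ _ => sq_nonneg _))
    rw [← nsmul_eq_mul]
    refine Finset.card_nsmul_le_sum _ _ _ ?_
    intro ω hω
    rw [hW, Finset.mem_filter] at hω
    rw [← sq_abs ((zc A D ω : ℝ) - ((n : ℝ) / k) ^ r * D.card)]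
    exact pow_le_pow_left₀ (by positivity) hω.2.le 2
  have h3 : ((W.card : ℝ) * (δ ^ 2 * D.card)) * D.card ≤ ((k : ℝ) ^ r * r) * D.card := by
    nlinarith
  exact le_of_mul_le_mul_right h3 h0'

end Pool.Agent.Lib.TriS
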