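import Pool.Agent.Lib.TriS.SRel
import Pool.Agent.Lib.TriS.SMom
import Pool.Agent.Lib.TriS.SCnt

/-!
MODULE SBad (about 190 lines). The expected cost of one hub candidate.

PROOF. `g = (n/k)^r > 0`. With `zc_cheb` (sets `D`, `δ`), all counts over `ω : Fin r → X`:
* `bad1 y`: `D = {l | M y l}`, `|D| = k` (`hS.degC`), `bad1` implies `δ |D| < |zc - g |D||` for `δ = g/10^29`: at most `k^r r / (δ^2 k) = k^r · r 10^58/(g^2 k)`.
* `bad4 y x`: `D = {l | M y l ∧ ¬ A x l}`, `|D| = k - n > 0` (`dsys_MnotA`), `δ = g`: `2 g |D| < zc` implies `g |D| < |zc - g|D||`: at most `k^r r/(g^2 (k-n))`.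
* `bad5`: `D = univ`, `|D| = k + c - 1` (`hS.cS`), `δ = g/(2·10^29)`: if `|zc - g|D|| ≤ δ|D|` then `zc ≤ (1+ζ/2) g (v-1) ≤ (1+ζ) g v` and
 `zc ≥ (1-ζ/2) g (v-1) ≥ (1-ζ) g v` because `(ζ/2) v ≥ 1` (`ζ = 10^(-29)`, hypothesis `hv`): at most `k^r · 4 r 10^58/(g^2 (k+c-1))`.
* `bad6 x`: `D = {l | ¬ A x l}`, `|D| = k - 1 > 0` (`dsys_notA_x`), `δ = g`: `zc > 2 g k` implies `zc - g (k-1) > g (k-1)`: at most `k^r r/(g^2 (k-1))`.
* hits: `hit_avg` and `hS.cR`.
Sum up: exchange the sums `∑_ω ∑_y`, `∑_ω ∑_{x ∈ G}`; `Fintype.card Y = c` (`hS.cC`); `∑_ω (if bad then 1 else 0) = #{ω | bad}` (`Finset.sum_boole`).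
-/

set_option autoImplicit false

open scoped Classical

noncomputable section

namespace Pool.Agent.Lib.TriS

open Pool.Agent.Lib.TriD

private theorem sbad_cnt {X Y B : Type} [Fintype X] [Fintype Y] [Fintype B] {A : X → B → Prop}
    {M : Y → B → Prop} {k c n : ℕ} (hS : DSys A M k c n) (hM : DMix A M k c n) (hk : 0 < k)
    (hn : n ≤ k) (r : ℕ) (D : Finset B) (δ : ℝ) (hδ : 0 < δ) (hD : (0 : ℝ) < D.card)
    (p : (Fin r → X) → Prop)
    (hp : ∀ ω, p ω → δ * D.card < |(zc A D ω : ℝ) - ((n : ℝ) / k) ^ r * D.card|) :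
    ∑ ω : Fin r → X, (if p ω then (1 : ℝ) else 0) ≤ (k : ℝ) ^ r * (r / (δ ^ 2 * D.card)) := by
  rw [Finset.sum_boole]
  have h1 := zc_cheb hS hM hk hn r D δ hδ
  have h2 : (Finset.univ.filter fun ω : Fin r → X => p ω).card ≤
      (Finset.univ.filter fun ω : Fin r → X =>
        δ * D.card < |(zc A D ω : ℝ) - ((n : ℝ) / k) ^ r * D.card|).card := by
    refine Finset.card_le_card fun ω hω => ?_
    rw [Finset.mem_filter] at hω ⊢
    exact ⟨Finset.mem_univ _, hp ω hω.2⟩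
  have h3 : ((Finset.univ.filter fun ω : Fin r → X => p ω).card : ℝ) ≤
      ((Finset.univ.filter fun ω : Fin r → X =>
        δ * D.card < |(zc A D ω : ℝ) - ((n : ℝ) / k) ^ r * D.card|).card : ℝ) := by
    exact_mod_cast h2
  have h4 : 0 < δ ^ 2 * (D.card : ℝ) := by positivity
  refine h3.trans ?_
  rw [← mul_div_assoc, le_div_iff₀ h4]
  exact h1

theorem badw_sum {X Y B : Type} [Fintype X] [Fintype Y] [Fintype B] {A : X → B → Prop}
    {M : Y → B → Prop} {k c n : ℕ} (hS : DSys A M k c n) (hM : DMix A M k c n) (hk : 2 ≤ k)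
    (hn0 : 0 < n) (hn : n < k) (hv : (10 : ℝ) ^ 60 ≤ (k : ℝ) + c) (G : Finset X) (r : ℕ) :
    ∑ ω : Fin r → X, badw A M k c n G (((n : ℝ) / k) ^ r) ω ≤
      (k : ℝ) ^ r * (4 * r * 10 ^ 58 / ((((n : ℝ) / k) ^ r) ^ 2 * ((k : ℝ) + c - 1)) +
        G.card * (r / ((((n : ℝ) / k) ^ r) ^ 2 * ((k : ℝ) - 1))) + r * G.card / k +
        10 ^ 29 / k * (c * (r * 10 ^ 58 / ((((n : ℝ) / k) ^ r) ^ 2 * k)) +
          c * (G.card * (r / ((((n : ℝ) / k) ^ r) ^ 2 * ((k : ℝ) - n)))))) := by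
  have hk0 : 0 < k := by omega
  have hkR : (2 : ℝ) ≤ k := by exact_mod_cast hk
  have hkR0 : (0 : ℝ) < k := by linarith
  have hnR0 : (0 : ℝ) < n := by exact_mod_cast hn0
  have hnk : (n : ℝ) < k := by exact_mod_cast hn
  have hg : 0 < ((n : ℝ) / k) ^ r := by positivity
  have hCheb := fun (D : Finset B) (δ : ℝ) (hδ : 0 < δ) (hD : (0 : ℝ) < D.card)
    (p : (Fin r → X) → Prop) hp => sbad_cnt hS hM hk0 hn.le r D δ hδ hD p hp
  have hHit := hit_avg (X := X) r G
  rw [hS.cR] at hHit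
  generalize hgd : ((n : ℝ) / k) ^ r = g at hg hCheb ⊢
  -- (B1)
  have h1 : ∀ y : Y, ∑ ω : Fin r → X, (if bad1 A M k g y ω then (1 : ℝ) else 0) ≤
      (k : ℝ) ^ r * (r * 10 ^ 58 / (g ^ 2 * k)) := by
    intro y
    have hD : ((Finset.univ.filter fun l => M y l).card : ℝ) = k := by
      exact_mod_cast hS.degC y
    have h2 := hCheb (Finset.univ.filter fun l => M y l) (g / 10 ^ 29) (by positivity)
      (by rw [hD]; exact hkR0) (fun ω => bad1 A M k g y ω) (by
        intro ω hω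
        rw [hD]
        by_contra hc
        rw [not_lt, abs_le] at hc
        apply hω
        have e : g / 10 ^ 29 * (k : ℝ) = 1 / 10 ^ 29 * (g * k) := by ring
        rw [e] at hc
        constructor
        · linarith [hc.1]
        · linarith [hc.2])
    rw [hD] at h2
    refine h2.trans (le_of_eq ?_)
    congr 1
    field_simp
  -- (B4)
  have h4 : ∀ (y : Y) (x : X), ∑ ω : Fin r → X, (if bad4 A M k n g y x ω then (1 : ℝ) else 0) ≤
      (k : ℝ) ^ r * (r / (g ^ 2 * ((k : ℝ) - n))) := by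
    intro y x
    have hD : ((Finset.univ.filter fun l => M y l ∧ ¬ A x l).card : ℝ) = (k : ℝ) - n := by
      have h := dsys_MnotA hS x y
      have h' : ((Finset.univ.filter fun l => M y l ∧ ¬ A x l).card : ℝ) + n = k := by
        exact_mod_cast h
      linarith
    have h2 := hCheb (Finset.univ.filter fun l => M y l ∧ ¬ A x l) g hg
      (by rw [hD]; linarith) (fun ω => bad4 A M k n g y x ω) (by
        intro ω hω
        rw [hD]
        have h3 : 2 * (g * ((k : ℝ) - n)) <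
          (zc A (Finset.univ.filter fun l => M y l ∧ ¬ A x l) ω : ℝ) := hω
        refine lt_of_lt_of_le ?_ (le_abs_self _)
        linarith)
    rw [hD] at h2
    exact h2
  -- (B6)
  have h6 : ∀ x : X, ∑ ω : Fin r → X, (if bad6 A k g x ω then (1 : ℝ) else 0) ≤
      (k : ℝ) ^ r * (r / (g ^ 2 * ((k : ℝ) - 1))) := by
    intro x
    have hD : ((Finset.univ.filter fun l => ¬ A x l).card : ℝ) = (k : ℝ) - 1 := by
      have h := dsys_notA_x hS x
      have h' : ((Finset.univ.filter fun l => ¬ A x l).card : ℝ) + 1 = k := by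
        exact_mod_cast h
      linarith
    have h2 := hCheb (Finset.univ.filter fun l => ¬ A x l) g hg
      (by rw [hD]; linarith) (fun ω => bad6 A k g x ω) (by
        intro ω hω
        rw [hD]
        have h3 : 2 * (g * (k : ℝ)) < (zc A (Finset.univ.filter fun l => ¬ A x l) ω : ℝ) := hω
        refine lt_of_lt_of_le ?_ (le_abs_self _)
        linarith)
    rw [hD] at h2
    exact h2
  -- (B5)
  have h5 : ∑ ω : Fin r → X, (if bad5 A k c g ω then (1 : ℝ) else 0) ≤
      (k : ℝ) ^ r * (4 * r * 10 ^ 58 / (g ^ 2 * ((k : ℝ) + c - 1))) := by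
    have hD : ((Finset.univ : Finset B).card : ℝ) = (k : ℝ) + c - 1 := by
      have h := hS.cS
      have h' : ((Finset.univ : Finset B).card : ℝ) + 1 = (k : ℝ) + c := by
        rw [Finset.card_univ]
        exact_mod_cast h
      linarith
    have hv1 : (1 : ℝ) < (k : ℝ) + c := by
      have : (1 : ℝ) < 10 ^ 60 := by norm_num
      linarith
    have hv2 : (2 : ℝ) * 10 ^ 29 ≤ (k : ℝ) + c := by
      have : (2 : ℝ) * 10 ^ 29 ≤ 10 ^ 60 := by norm_num
      linarith
    have h2 := hCheb Finset.univ (g / (2 * 10 ^ 29)) (by positivity)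
      (by rw [hD]; linarith) (fun ω => bad5 A k c g ω) (by
        intro ω hω
        rw [hD]
        by_contra hc
        rw [not_lt, abs_le] at hc
        apply hω
        have e : g / (2 * 10 ^ 29) * ((k : ℝ) + c - 1) =
          1 / (2 * 10 ^ 29) * (g * ((k : ℝ) + c) - g) := by ring
        rw [e] at hc
        have hgv : g * (2 * 10 ^ 29) ≤ g * ((k : ℝ) + c) := mul_le_mul_of_nonneg_left hv2 hg.le
        have hgv' : g ≤ 1 / (2 * 10 ^ 29) * (g * ((k : ℝ) + c)) := by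
          rw [one_div, inv_mul_eq_div, le_div_iff₀ (by positivity)]
          exact hgv
        have e2 : (1 : ℝ) / 10 ^ 29 = 2 * (1 / (2 * 10 ^ 29)) := by norm_num
        have hcc : (0 : ℝ) < 1 / (2 * 10 ^ 29) := by positivity
        have hcg : 0 < 1 / (2 * 10 ^ 29) * g := by positivity
        rw [e2]
        generalize (1 : ℝ) / (2 * 10 ^ 29) = q at hc hgv' hcc hcg ⊢
        constructor
        · nlinarith [hc.1]
        · nlinarith [hc.2])
    rw [hD] at h2
    refine h2.trans (le_of_eq ?_)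
    congr 1
    have : (k : ℝ) + c - 1 ≠ 0 := by
      intro h
      linarith
    field_simp
    norm_num
  -- hits
  have hh : ∑ ω : Fin r → X, ∑ i, (if ω i ∈ G then (1 : ℝ) else 0) =
      (k : ℝ) ^ r * (r * G.card / k) := by
    field_simp
    rw [hHit]
    ring
  have hsum : ∑ ω : Fin r → X, badw A M k c n G g ω =
      ∑ ω : Fin r → X, (if bad5 A k c g ω then (1 : ℝ) else 0) +
      ∑ x ∈ G, ∑ ω : Fin r → X, (if bad6 A k g x ω then (1 : ℝ) else 0) +
      ∑ ω : Fin r → X, ∑ i, (if ω i ∈ G then (1 : ℝ) else 0) +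
      10 ^ 29 / k * (∑ y : Y, ∑ ω : Fin r → X, (if bad1 A M k g y ω then (1 : ℝ) else 0) +
        ∑ y : Y, ∑ x ∈ G, ∑ ω : Fin r → X, (if bad4 A M k n g y x ω then (1 : ℝ) else 0)) := by
    unfold badw
    rw [Finset.sum_add_distrib, Finset.sum_add_distrib, Finset.sum_add_distrib, ← Finset.mul_sum,
      Finset.sum_add_distrib]
    congr 1
    · congr 1
      congr 1
      exact Finset.sum_comm
    · congr 1
      congr 1
      · exact Finset.sum_comm
      · rw [Finset.sum_comm]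
        refine Finset.sum_congr rfl fun y _ => Finset.sum_comm
  have h6' : ∑ x ∈ G, ∑ ω : Fin r → X, (if bad6 A k g x ω then (1 : ℝ) else 0) ≤
      G.card * ((k : ℝ) ^ r * (r / (g ^ 2 * ((k : ℝ) - 1)))) := by
    have h := Finset.sum_le_card_nsmul G _ _ fun x _ => h6 x
    rwa [nsmul_eq_mul] at h
  have h1' : ∑ y : Y, ∑ ω : Fin r → X, (if bad1 A M k g y ω then (1 : ℝ) else 0) ≤
      c * ((k : ℝ) ^ r * (r * 10 ^ 58 / (g ^ 2 * k))) := by
    have h := Finset.sum_le_card_nsmul (Finset.univ : Finset Y) _ _ fun y _ => h1 y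
    rwa [nsmul_eq_mul, Finset.card_univ, hS.cC] at h
  have h4' : ∑ y : Y, ∑ x ∈ G, ∑ ω : Fin r → X, (if bad4 A M k n g y x ω then (1 : ℝ) else 0) ≤
      c * (G.card * ((k : ℝ) ^ r * (r / (g ^ 2 * ((k : ℝ) - n))))) := by
    have h2 : ∀ y : Y, ∑ x ∈ G, ∑ ω : Fin r → X, (if bad4 A M k n g y x ω then (1 : ℝ) else 0) ≤
        G.card * ((k : ℝ) ^ r * (r / (g ^ 2 * ((k : ℝ) - n)))) := by
      intro y
      have h := Finset.sum_le_card_nsmul G _ _ fun x _ => h4 y x
      rwa [nsmul_eq_mul] at h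
    have h := Finset.sum_le_card_nsmul (Finset.univ : Finset Y) _ _ fun y _ => h2 y
    rwa [nsmul_eq_mul, Finset.card_univ, hS.cC] at h
  have hpre : (0 : ℝ) ≤ 10 ^ 29 / k := by positivity
  rw [hsum, hh]
  have hA := mul_le_mul_of_nonneg_left (add_le_add h1' h4') hpre
  calc _ ≤ (k : ℝ) ^ r * (4 * r * 10 ^ 58 / (g ^ 2 * ((k : ℝ) + c - 1))) +
      G.card * ((k : ℝ) ^ r * (r / (g ^ 2 * ((k : ℝ) - 1)))) + (k : ℝ) ^ r * (r * G.card / k) +
      10 ^ 29 / k * (c * ((k : ℝ) ^ r * (r * 10 ^ 58 / (g ^ 2 * k))) +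
        c * (G.card * ((k : ℝ) ^ r * (r / (g ^ 2 * ((k : ℝ) - n)))))) :=
        add_le_add (add_le_add (add_le_add h5 h6') le_rfl) hA
    _ = _ := by ring

end Pool.Agent.Lib.TriS
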