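import Pool.Agent.Lib.TriS.S3Defs

/-!
MODULE SBigE (about 40 lines). All large natural numbers satisfy `BigV`.

PROOF. `log x / x^(1/10000) → 0` and `1/x^(1/10000) → 0` (`isLittleO_log_rpow_atTop`, `isLittleO_const_..` or `tendsto_rpow_atTop`): eventually
`10^200 (log x + 1) ≤ x^(1/10000)` (`Asymptotics.IsLittleO.def` with constant `1/(2·10^200)` twice); compose with `tendsto_natCast_atTop_atTop` and use
`Filter.eventually_atTop`.
-/

set_option autoImplicit false

open scoped Classical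

noncomputable section

namespace Pool.Agent.Lib.TriS

theorem bigV_eventually : ∃ N : ℕ, ∀ n : ℕ, N ≤ n → BigV n := by
  have hr : (0 : ℝ) < 1 / 10000 := by norm_num
  have h1 := (isLittleO_log_rpow_atTop hr).def
    (show (0 : ℝ) < 1 / (2 * 10 ^ 200) by positivity)
  have h2 := (tendsto_rpow_atTop hr).eventually_ge_atTop (2 * 10 ^ 200)
  have h4 : ∀ᶠ x : ℝ in Filter.atTop, BigV x := by
    filter_upwards [h1, h2, Filter.eventually_ge_atTop (1 : ℝ)] with x hx1 hx2 hx3
    refine ⟨hx3, ?_⟩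
    have h5 : (0 : ℝ) ≤ x ^ ((1 : ℝ) / 10000) := Real.rpow_nonneg (by linarith) _
    rw [Real.norm_of_nonneg (Real.log_nonneg hx3), Real.norm_of_nonneg h5] at hx1
    have h6 : (10 : ℝ) ^ 200 * Real.log x ≤ x ^ ((1 : ℝ) / 10000) / 2 := by
      have h7 := mul_le_mul_of_nonneg_left hx1 (show (0 : ℝ) ≤ 10 ^ 200 by positivity)
      have h8 : (10 : ℝ) ^ 200 * (1 / (2 * 10 ^ 200) * x ^ ((1 : ℝ) / 10000)) =
          x ^ ((1 : ℝ) / 10000) / 2 := by
        have h9 : (10 : ℝ) ^ 200 ≠ 0 := by positivity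
        field_simp
      rwa [h8] at h7
    have h7 : (10 : ℝ) ^ 200 ≤ x ^ ((1 : ℝ) / 10000) / 2 := by linarith
    rw [mul_add, mul_one]
    linarith
  exact Filter.eventually_atTop.1 (tendsto_natCast_atTop_atTop.eventually h4)

end Pool.Agent.Lib.TriS
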