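import Pool.Agent.Lib.TriS.CDefs

/-!
Definitions for Stage 0 (section 4.2) and the numerical hypotheses at the level of the design.

`W` = the vertices with part `none`. Phase A colours all flags at `y` with `pY y = none` by `colA y l`; Phase B colours the flags between `l`
with `pB l = none` and `y` with `pY y ≠ none` by `colB l y`. `rcA l`, `rcB y` = colours received.
-/

set_option autoImplicit false

open scoped Classical

noncomputable section

namespace Pool.Agent.Lib.TriS

/-- numerical hypotheses: `g = |G|` -/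
structure DNum (k c n g P s r : ℕ) (L : ℝ) : Prop where
  L1 : 1 ≤ L
  vL : (k : ℝ) + c ≤ Real.exp L
  nk : n ≤ k
  lam : (k : ℝ) - n ≤ 1 / 10 ^ 30 * k
  Ps : (P : ℝ) * s ≤ k + c
  r1 : 10 ^ 21 * L ≤ r
  r2 : (r : ℝ) ≤ 10 ^ 22 * L
  P1 : (10 : ℝ) ^ 60 ≤ P
  G1 : 10 ^ 60 * (P : ℝ) * L ≤ g
  G2 : 10 ^ 60 * (P : ℝ) * g ≤ k
  P2 : 10 ^ 60 * (P : ℝ) ≤ Real.sqrt k
  s3 : 10 ^ 60 * (P : ℝ) ^ 2 * L ≤ s

/-- colours received by `l` in Phase A -/
def rcA {X Y B : Type} [Fintype X] {P : ℕ} (M : Y → B → Prop) (pY : Y → Option (Fin P))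
    (colA : Y → B → X) (l : B) : Finset X :=
  Finset.univ.filter fun x => ∃ y, pY y = none ∧ M y l ∧ colA y l = x

/-- colours received by `y` in Phase B -/
def rcB {X Y B : Type} [Fintype X] {P : ℕ} (M : Y → B → Prop) (pB : B → Option (Fin P))
    (colB : B → Y → X) (y : Y) : Finset X :=
  Finset.univ.filter fun x => ∃ l, pB l = none ∧ M y l ∧ colB l y = x

/-- output of Phase A -/
structure StA {X Y B : Type} [Fintype X] [Fintype Y] [Fintype B] (A : X → B → Prop)
    (M : Y → B → Prop) (k : ℕ) (G : Finset X) (P s : ℕ) (pY : Y → Option (Fin P))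
    (pB : B → Option (Fin P)) (hub : Fin P → Finset X) (L : ℝ) (colA : Y → B → X) : Prop where
  bij : ∀ y, pY y = none → Set.BijOn (colA y) {l | M y l} Set.univ
  ok : ∀ y l, pY y = none → M y l → A (colA y l) l
  hb : ∀ y l a, pY y = none → M y l → pB l = some a → colA y l ∉ hub a
  inj : ∀ y y' l, pY y = none → pY y' = none → M y l → M y' l → colA y l = colA y' l → y = y'
  t1 : ∀ y x, ((Finset.univ.filter fun l => M y l ∧ pB l ≠ none ∧ x ∈ rcA M pY colA l).card : ℝ) ≤
    16 / 10 ^ 27 * k + 4 * L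
  t2 : ∀ y a x,
    ((Finset.univ.filter fun l => M y l ∧ pB l = some a ∧ x ∈ rcA M pY colA l).card : ℝ) ≤
      16 / 10 ^ 27 * ((Finset.univ.filter fun l => M y l ∧ pB l = some a).card : ℝ) + 4 * L
  t3 : ∀ l, ((G.filter fun x => x ∈ rcA M pY colA l).card : ℝ) ≤ 16 / 10 ^ 27 * G.card + 4 * L
  t4 : ∀ a x, ((Finset.univ.filter fun l => pB l = some a ∧ x ∈ rcA M pY colA l).card : ℝ) ≤
    16 / 10 ^ 27 * s + 4 * L

/-- output of Phase B -/
structure StB {X Y B : Type} [Fintype X] [Fintype Y] [Fintype B] (A : X → B → Prop)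
    (M : Y → B → Prop) (k : ℕ) (G : Finset X) (P s : ℕ) (pY : Y → Option (Fin P))
    (pB : B → Option (Fin P)) (hub : Fin P → Finset X) (L : ℝ) (colA : Y → B → X)
    (colB : B → Y → X) : Prop where
  bij : ∀ l, pB l = none → Set.BijOn (colB l) {y | M y l ∧ pY y ≠ none}
    {x | A x l ∧ x ∉ rcA M pY colA l}
  hb : ∀ y l a, pB l = none → M y l → pY y = some a → colB l y ∉ hub a
  inj : ∀ y l l', pY y ≠ none → pB l = none → pB l' = none → M y l → M y l' →
    colB l y = colB l' y → l = l'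
  t1 : ∀ l x, ((Finset.univ.filter fun y => M y l ∧ pY y ≠ none ∧ x ∈ rcB M pB colB y).card : ℝ) ≤
    16 / 10 ^ 27 * k + 4 * L
  t2 : ∀ l a x,
    ((Finset.univ.filter fun y => M y l ∧ pY y = some a ∧ x ∈ rcB M pB colB y).card : ℝ) ≤
      16 / 10 ^ 27 * ((Finset.univ.filter fun y => M y l ∧ pY y = some a).card : ℝ) + 4 * L
  t3 : ∀ y, pY y ≠ none → ((G.filter fun x => x ∈ rcB M pB colB y).card : ℝ) ≤
    16 / 10 ^ 27 * G.card + 4 * L
  t4 : ∀ a x, ((Finset.univ.filter fun y => pY y = some a ∧ x ∈ rcB M pB colB y).card : ℝ) ≤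
    16 / 10 ^ 27 * s + 4 * L

/-- survivors -/
def partOf {T : Type} {P : ℕ} (p : T → Option (Fin P)) (u : {y // p y ≠ none}) : Fin P :=
  (p u.1).get (Option.isSome_iff_ne_none.2 u.2)

theorem partOf_spec {T : Type} {P : ℕ} (p : T → Option (Fin P)) (u : {y // p y ≠ none}) :
    p u.1 = some (partOf p u) := by
  unfold partOf
  rw [Option.some_get]

theorem partOf_eq {T : Type} {P : ℕ} (p : T → Option (Fin P)) (u : {y // p y ≠ none})
    (a : Fin P) : partOf p u = a ↔ p u.1 = some a := by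
  rw [partOf_spec p u, Option.some_inj]

/-- flags between survivors -/
def sH {Y B : Type} [Fintype Y] [Fintype B] {P : ℕ} (M : Y → B → Prop) (pY : Y → Option (Fin P))
    (pB : B → Option (Fin P)) : Finset ({y // pY y ≠ none} × {l // pB l ≠ none}) :=
  Finset.univ.filter fun p => M p.1.1 p.2.1

/-- needs of the surviving points -/
def snu {X Y B : Type} [Fintype X] {P : ℕ} (M : Y → B → Prop) (pY : Y → Option (Fin P))
    (pB : B → Option (Fin P)) (colB : B → Y → X) (u : {y // pY y ≠ none}) : Finset X :=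
  Finset.univ \ rcB M pB colB u.1

/-- needs of the surviving blocks -/
def snv {X Y B : Type} [Fintype X] {P : ℕ} (A : X → B → Prop) (M : Y → B → Prop)
    (pY : Y → Option (Fin P)) (pB : B → Option (Fin P)) (colA : Y → B → X)
    (v : {l // pB l ≠ none}) : Finset X :=
  (Finset.univ.filter fun x => A x v.1) \ rcA M pY colA v.1

end Pool.Agent.Lib.TriS
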