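import Pool.Agent.Lib.TriS.SRel

/-!
MODULE SHubA (about 150 lines). Hubs in the very sparse case `r k ≤ (ζ/4)(k+c)`, `ζ = 1/10^29`: arbitrary disjoint sets of size `r` in `X - G`,
`g = 1`, no exceptional `y`.

PROOF. `P r + |G| ≤ w^100 · w + 2 w^1000 ≤ w^5000 ≤ k` (`r ≤ 2·10^21 L ≤ w` as `w ≥ 10^200 (L+1)`; powers of `w ≥ 10^200`). So `X - G` has at least `P r` elements;
choose an injection `e : Fin P × Fin r → X` with values outside `G` (e.g. `Finset.exists_subset_card_eq` and an equivalence, or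
`Function.Embedding.nonempty_of_card_le` into the subtype) and `hub a = image of e (a, ·)`: size `r`, disjoint, disjoint from `G`.
`gP`: `P ≥ w^100/2 ≥ 10^60`. Let `λ = k - n ≤ 10^(-30) k` and note `(k-1)/(v-1) ≤ k/v` gives `λ v ≤ k^2` (from `N3.lam`), `v = k + c`; the case hypothesis
`r k ≤ (ζ/4) v` gives `r λ ≤ r k^2/v ≤ (ζ/4) k`.
(b1): the blocks `l ∋ y` that are not good contain some `x ∈ hub a`: at most `r λ ≤ (ζ/4) k` of them (`Finset.card_biUnion_le`, `dsys_MnotA`), and there are `k`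
blocks `l ∋ y` (`hS.degC`). (b2): at most `P`. (b3): `∑_{l ∋ y} #{a good} = ∑_a #{l ∋ y good} ≥ P (1 - ζ/4) k` (exchange the sums). (b4): at most
`#{l | M y l ∧ ¬ A x l} = λ ≤ 2 λ` (`dsys_MnotA`). (b5): the number of all blocks is `v - 1`, at most `r (k-1)` are not good (`dsys_notA_x`), and
`v - 1 - r k ≥ v - 1 - (ζ/4) v ≥ (1 - ζ) v`. (b6): at most `#{l | ¬ A x l} = k - 1`.
-/

set_option autoImplicit false

open scoped Classical

noncomputable section

namespace Pool.Agent.Lib.TriS

open Pool.Agent.Lib.TriD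

private theorem shuba_cnt {X B : Type} (A : X → B → Prop) (D : Finset B) (H : Finset X) (m : ℝ)
    (hm : ∀ x ∈ H, ((D.filter fun l => ¬ A x l).card : ℝ) ≤ m) :
    (D.card : ℝ) ≤ ((D.filter fun l => gd A H l).card : ℝ) + H.card * m := by
  have h1 : D ⊆ (D.filter fun l => gd A H l) ∪ H.biUnion fun x => D.filter fun l => ¬ A x l := by
    intro l hl
    rw [Finset.mem_union]
    by_cases h : gd A H l
    · exact Or.inl (Finset.mem_filter.2 ⟨hl, h⟩)
    · right
      unfold gd at h
      push Not at h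
      obtain ⟨x, hx, hx2⟩ := h
      exact Finset.mem_biUnion.2 ⟨x, hx, Finset.mem_filter.2 ⟨hl, hx2⟩⟩
  have h2 : (D.card : ℝ) ≤ ((D.filter fun l => gd A H l).card : ℝ) +
      ∑ x ∈ H, ((D.filter fun l => ¬ A x l).card : ℝ) := by
    have h3 := (Finset.card_le_card h1).trans (Finset.card_union_le _ _)
    have h4 : (H.biUnion fun x => D.filter fun l => ¬ A x l).card ≤
        ∑ x ∈ H, (D.filter fun l => ¬ A x l).card := Finset.card_biUnion_le
    have h5 := h3.trans (Nat.add_le_add_left h4 _)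
    exact_mod_cast h5
  have h6 : ∑ x ∈ H, ((D.filter fun l => ¬ A x l).card : ℝ) ≤ H.card * m := by
    refine (Finset.sum_le_card_nsmul H _ m hm).trans_eq ?_
    rw [nsmul_eq_mul]
  linarith

private theorem shuba_hub {X : Type} [Fintype X] (G : Finset X) (P r : ℕ)
    (h : P * r + G.card ≤ Fintype.card X) : ∃ hub : Fin P → Finset X,
      (∀ a, (hub a).card = r) ∧ (∀ a b, a ≠ b → Disjoint (hub a) (hub b)) ∧
      ∀ a, Disjoint (hub a) G := by
  have h1 : Fintype.card (Fin P × Fin r) ≤ Fintype.card ↥(Gᶜ) := by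
    rw [Fintype.card_prod, Fintype.card_fin, Fintype.card_fin, Fintype.card_coe,
      Finset.card_compl]
    omega
  obtain ⟨e⟩ := Function.Embedding.nonempty_of_card_le h1
  refine ⟨fun a => Finset.univ.image fun i => (e (a, i) : X), fun a => ?_, fun a b hab => ?_,
    fun a => ?_⟩
  · rw [Finset.card_image_of_injective, Finset.card_univ, Fintype.card_fin]
    intro i i' hi
    have h2 := e.injective (Subtype.ext hi)
    exact (Prod.mk.inj h2).2
  · rw [Finset.disjoint_left]
    intro x hx hx'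
    obtain ⟨i, _, hi⟩ := Finset.mem_image.1 hx
    obtain ⟨i', _, hi'⟩ := Finset.mem_image.1 hx'
    have h2 := e.injective (Subtype.ext (hi.trans hi'.symm))
    exact hab (Prod.mk.inj h2).1
  · rw [Finset.disjoint_left]
    intro x hx hx'
    obtain ⟨i, _, hi⟩ := Finset.mem_image.1 hx
    have h2 := (e (a, i)).2
    rw [hi, Finset.mem_compl] at h2
    exact h2 hx'

theorem hub_a {X Y B : Type} [Fintype X] [Fintype Y] [Fintype B] {A : X → B → Prop}
    {M : Y → B → Prop} {k c n P r : ℕ} {L w : ℝ} (hS : DSys A M k c n) (hN : N3 k c n P r L w)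
    (G : Finset X) (hG : (G.card : ℝ) ≤ 2 * w ^ 1000)
    (hA : (r : ℝ) * k ≤ 1 / 10 ^ 29 / 4 * ((k : ℝ) + c)) :
    ∃ (hub : Fin P → Finset X) (Ex : Finset Y) (g : ℝ), HubSys A M k c n G P r hub Ex g := by
  have hL := hN.L1
  have hw1 := hN.w1
  have hw2 : (10 : ℝ) ^ 200 * 2 ≤ w := le_trans (by gcongr; linarith) hw1
  have hw3 : (3 : ℝ) ≤ w := le_trans (by norm_num) hw2
  have hw0 : (1 : ℝ) ≤ w := by linarith
  have hrw : (r : ℝ) ≤ w := by
    refine hN.r2.trans (le_trans ?_ hw1)
    have h1 : (2 : ℝ) * 10 ^ 21 * L ≤ 10 ^ 200 * L :=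
      mul_le_mul_of_nonneg_right (by norm_num) (by linarith)
    have h2 : (10 : ℝ) ^ 200 * L ≤ 10 ^ 200 * (L + 1) :=
      mul_le_mul_of_nonneg_left (by linarith) (by positivity)
    exact h1.trans h2
  have hr1 : (1 : ℝ) ≤ r := by
    refine le_trans ?_ hN.r1
    have h1 : (10 : ℝ) ^ 21 * 1 ≤ 10 ^ 21 * L := mul_le_mul_of_nonneg_left hL (by positivity)
    linarith [show (1 : ℝ) ≤ 10 ^ 21 by norm_num]
  have hcard : P * r + G.card ≤ Fintype.card X := by
    rw [hS.cR]
    have h1 : (P : ℝ) * r ≤ w ^ 1000 := by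
      calc (P : ℝ) * r ≤ w ^ 100 * w := mul_le_mul hN.P1 hrw (by positivity) (by positivity)
        _ = w ^ 101 := by ring
        _ ≤ w ^ 1000 := pow_le_pow_right₀ hw0 (by norm_num)
    have h2 : 3 * w ^ 1000 ≤ w ^ 5000 := by
      calc 3 * w ^ 1000 ≤ w * w ^ 1000 := mul_le_mul_of_nonneg_right hw3 (by positivity)
        _ = w ^ 1001 := by ring
        _ ≤ w ^ 5000 := pow_le_pow_right₀ hw0 (by norm_num)
    have h3 : (P : ℝ) * r + G.card ≤ k := by linarith [hN.k1]
    exact_mod_cast h3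
  obtain ⟨hub, hh1, hh2, hh3⟩ := shuba_hub G P r hcard
  have hk0 : (1 : ℝ) ≤ k := (one_le_pow₀ hw0).trans hN.k1
  have hk1 : 1 ≤ k := by exact_mod_cast hk0
  have hc0 : (0 : ℝ) ≤ c := Nat.cast_nonneg c
  have hn0 : (0 : ℝ) ≤ n := Nat.cast_nonneg n
  have hln : (0 : ℝ) ≤ (k : ℝ) - n := by linarith [hN.n1]
  have hlam : ((k : ℝ) - n) * ((k : ℝ) + c) ≤ (k : ℝ) * k := by
    have h1 : ((k : ℝ) - n) * ((k : ℝ) + c) =
        ((k : ℝ) - n) * ((k : ℝ) + c - 1) + ((k : ℝ) - n) := by ring
    rw [h1, hN.lam]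
    have h2 : (k : ℝ) * ((k : ℝ) - 1) = (k : ℝ) * k - k := by ring
    rw [h2]
    linarith
  have hrl : (r : ℝ) * ((k : ℝ) - n) ≤ 1 / 10 ^ 29 / 4 * k := by
    have hv : (0 : ℝ) < (k : ℝ) + c := by linarith
    refine le_of_mul_le_mul_right ?_ hv
    calc (r : ℝ) * ((k : ℝ) - n) * ((k : ℝ) + c)
        = r * (((k : ℝ) - n) * ((k : ℝ) + c)) := by ring
      _ ≤ r * ((k : ℝ) * k) := mul_le_mul_of_nonneg_left hlam (by linarith)
      _ = (r * k) * k := by ring
      _ ≤ (1 / 10 ^ 29 / 4 * ((k : ℝ) + c)) * k := mul_le_mul_of_nonneg_right hA (by linarith)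
      _ = 1 / 10 ^ 29 / 4 * k * ((k : ℝ) + c) := by ring
  have hMy : ∀ (y : Y) (x : X),
      ((Finset.univ.filter fun b => M y b ∧ ¬ A x b).card : ℝ) = (k : ℝ) - n := by
    intro y x
    have h1 := dsys_MnotA hS x y
    have h2 : ((Finset.univ.filter fun b => M y b ∧ ¬ A x b).card : ℝ) + n = k := by
      exact_mod_cast h1
    linarith
  have hnA : ∀ x : X, ((Finset.univ.filter fun b => ¬ A x b).card : ℝ) = (k : ℝ) - 1 := by
    intro x
    have h1 := dsys_notA_x hS x
    have h2 : ((Finset.univ.filter fun b => ¬ A x b).card : ℝ) + 1 = k := by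
      exact_mod_cast h1
    linarith
  have hb1 : ∀ (y : Y) (a : Fin P), (1 - 1 / 10 ^ 29 / 4) * (k : ℝ) ≤
      ((Finset.univ.filter fun l => M y l ∧ gd A (hub a) l).card : ℝ) := by
    intro y a
    have h1 := shuba_cnt A (Finset.univ.filter fun l => M y l) (hub a) ((k : ℝ) - n)
      (fun x _ => by
        rw [Finset.filter_filter]
        exact (hMy y x).le)
    rw [Finset.filter_filter, hS.degC y, hh1 a] at h1
    linarith
  have hb1' : ∀ (y : Y) (a : Fin P),
      ((Finset.univ.filter fun l => M y l ∧ gd A (hub a) l).card : ℝ) ≤ k := by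
    intro y a
    have h1 : (Finset.univ.filter fun l => M y l ∧ gd A (hub a) l).card ≤
        (Finset.univ.filter fun l => M y l).card :=
      Finset.card_le_card fun l hl => by
        rw [Finset.mem_filter] at hl ⊢
        exact ⟨hl.1, hl.2.1⟩
    rw [hS.degC y] at h1
    exact_mod_cast h1
  have hP0 : (0 : ℝ) ≤ P := Nat.cast_nonneg P
  refine ⟨hub, ∅, 1, ?_⟩
  refine
    { hubc := hh1
      hubd := hh2
      hubG := hh3
      g1 := le_rfl
      gP := ?_
      ex := ?_
      b1 := ?_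
      b2 := ?_
      b3 := ?_
      b4 := ?_
      b5 := ?_
      b6 := ?_ }
  · rw [one_mul]
    refine le_trans ?_ hN.P2
    have h1 : w ≤ w ^ 100 := le_self_pow₀ hw0 (by norm_num)
    have h2 : (10 : ℝ) ^ 60 ≤ 10 ^ 200 := pow_le_pow_right₀ (by norm_num) (by norm_num)
    linarith
  · rw [Finset.card_empty, Nat.cast_zero]
    positivity
  · intro y _ a
    have h1 := hb1 y a
    have h2 := hb1' y a
    rw [one_mul]
    constructor
    · refine le_trans (mul_le_mul_of_nonneg_right ?_ (by linarith)) h1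
      norm_num
    · refine h2.trans ?_
      have h3 : (1 : ℝ) * k ≤ (1 + 1 / 10 ^ 29) * k :=
        mul_le_mul_of_nonneg_right (by norm_num) (by linarith)
      linarith
  · intro l
    have h1 : (Finset.univ.filter fun a => gd A (hub a) l).card ≤ P := by
      refine (Finset.card_le_univ _).trans_eq (Fintype.card_fin P)
    have h2 : ((Finset.univ.filter fun a => gd A (hub a) l).card : ℝ) ≤ P := by exact_mod_cast h1
    have h3 : (1 : ℝ) * P ≤ (1 + 1 / 10 ^ 29) * P :=
      mul_le_mul_of_nonneg_right (by norm_num) hP0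
    rw [one_mul]
    linarith
  · intro y
    have h1 : ∑ l ∈ Finset.univ.filter (fun l => M y l),
        ((Finset.univ.filter fun a => gd A (hub a) l).card : ℝ) =
        ∑ a : Fin P, ((Finset.univ.filter fun l => M y l ∧ gd A (hub a) l).card : ℝ) := by
      have h2 : ∀ l : B, ((Finset.univ.filter fun a => gd A (hub a) l).card : ℝ) =
          ∑ a : Fin P, if gd A (hub a) l then (1 : ℝ) else 0 := by
        intro l
        rw [Finset.sum_boole]
      have h3 : ∀ a : Fin P, ((Finset.univ.filter fun l => M y l ∧ gd A (hub a) l).card : ℝ) =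
          ∑ l ∈ Finset.univ.filter (fun l => M y l), if gd A (hub a) l then (1 : ℝ) else 0 := by
        intro a
        rw [Finset.sum_boole, Finset.filter_filter]
      simp only [h2, h3]
      exact Finset.sum_comm
    rw [h1, one_mul]
    have h4 : (P : ℝ) * ((1 - 1 / 10 ^ 29 / 4) * (k : ℝ)) ≤
        ∑ a : Fin P, ((Finset.univ.filter fun l => M y l ∧ gd A (hub a) l).card : ℝ) := by
      have h5 := Finset.card_nsmul_le_sum (Finset.univ : Finset (Fin P))
        (fun a => ((Finset.univ.filter fun l => M y l ∧ gd A (hub a) l).card : ℝ))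
        ((1 - 1 / 10 ^ 29 / 4) * (k : ℝ)) (fun a _ => hb1 y a)
      rw [Finset.card_univ, Fintype.card_fin, nsmul_eq_mul] at h5
      exact h5
    refine le_trans ?_ h4
    have h6 : (0 : ℝ) ≤ P * k := mul_nonneg hP0 (by linarith)
    have h7 : (1 - 1 / 10 ^ 29) * ((P : ℝ) * k) ≤ (1 - 1 / 10 ^ 29 / 4) * ((P : ℝ) * k) :=
      mul_le_mul_of_nonneg_right (by norm_num) h6
    linarith
  · intro y _ x _ a
    have h1 : (Finset.univ.filter fun l => (M y l ∧ ¬ A x l) ∧ gd A (hub a) l).card ≤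
        (Finset.univ.filter fun l => M y l ∧ ¬ A x l).card :=
      Finset.card_le_card fun l hl => by
        rw [Finset.mem_filter] at hl ⊢
        exact ⟨hl.1, hl.2.1⟩
    have h2 : ((Finset.univ.filter fun l => (M y l ∧ ¬ A x l) ∧ gd A (hub a) l).card : ℝ) ≤
        ((Finset.univ.filter fun l => M y l ∧ ¬ A x l).card : ℝ) := by exact_mod_cast h1
    rw [hMy y x] at h2
    linarith
  · intro a
    have hcB : ((Finset.univ : Finset B).card : ℝ) + 1 = (k : ℝ) + c := by
      rw [Finset.card_univ]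
      exact_mod_cast hS.cS
    have h1 := shuba_cnt A (Finset.univ : Finset B) (hub a) ((k : ℝ) - 1)
      (fun x _ => (hnA x).le)
    rw [hh1 a] at h1
    have h2 : ((Finset.univ.filter fun l => gd A (hub a) l).card : ℝ) ≤
        ((Finset.univ : Finset B).card : ℝ) := by
      exact_mod_cast Finset.card_le_card (Finset.filter_subset _ _)
    rw [one_mul]
    constructor
    · have h3 : (r : ℝ) * ((k : ℝ) - 1) = r * k - r := by ring
      have h4 : (1 - 1 / 10 ^ 29 / 4) * ((k : ℝ) + c) ≤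
          ((Finset.univ.filter fun l => gd A (hub a) l).card : ℝ) := by linarith
      refine le_trans (mul_le_mul_of_nonneg_right ?_ (by linarith)) h4
      norm_num
    · have h3 : (1 : ℝ) * ((k : ℝ) + c) ≤ (1 + 1 / 10 ^ 29) * ((k : ℝ) + c) :=
        mul_le_mul_of_nonneg_right (by norm_num) (by linarith)
      linarith
  · intro x _ a
    have h1 : (Finset.univ.filter fun l => ¬ A x l ∧ gd A (hub a) l).card ≤
        (Finset.univ.filter fun l => ¬ A x l).card :=
      Finset.card_le_card fun l hl => by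
        rw [Finset.mem_filter] at hl ⊢
        exact ⟨hl.1, hl.2.1⟩
    have h2 : ((Finset.univ.filter fun l => ¬ A x l ∧ gd A (hub a) l).card : ℝ) ≤
        ((Finset.univ.filter fun l => ¬ A x l).card : ℝ) := by exact_mod_cast h1
    rw [hnA x] at h2
    linarith

end Pool.Agent.Lib.TriS
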