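import Pool.Agent.Lib.TriS.Label

/-!
MODULE SPick (about 220 lines). Random labels `(part, spare mark)`: `e` gets the part `a` with probability `q e a`, no part with the remaining probability, and
independently the mark `true` with probability `σ`.

PROOF. `label_cost` (Label.lean) with `Λ = Option (Fin P) × Bool`, `p e (some a, β) = q e a · s(β)`, `p e (none, β) = (1 - ∑ a, q e a) · s(β)`, `s(true) = σ`,
`s(false) = 1 - σ`; `∑ p = 1` (`Fintype.sum_prod_type`, `Fintype.sum_option`, `Fintype.sum_bool`). Tests indexed by `J × (Fin P × Bool ⊕ Bool)` (so `card J (2P + 2)` of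
them), all with the same `t`: for `j`: `T1 a = {(e, x) | e ∈ S j, x.1 = some a}` with mean `μ = ∑_{e ∈ S j} q e a`; `T2 a = {.. x.1 = some a, x.2 = true}` with mean
`σ μ`; `T3 = {.. x.1 = none}` with mean `∑_{e ∈ S j} (1 - ∑ a, q e a)`; `T4 = {.. x.2 = true}` with mean `σ |S j|`. Cost
`cost f = #{e | p e (f e) = 0}` (as a real): its mean is `∑_e ∑_x p e x · [p e x = 0] = 0` (each `f` with a zero factor has weight `0`: the summand
`(∏ e, p e (f e)) * cost f` vanishes for every `f`, since `cost f ≠ 0` implies that some factor is `0`). So `cost f < 1` gives `cost f = 0`, i.e. `p e (f e) ≠ 0` for all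
`e`, hence `q e a ≠ 0` if `(f e).1 = some a`. The conclusions are the conclusions of `label_cost`.
-/

set_option autoImplicit false

open scoped Classical

noncomputable section

namespace Pool.Agent.Lib.TriS

private def TT {E Λ : Type} [Fintype E] [Fintype Λ] (Sj : Finset E) (Pd : Λ → Prop) :
    Finset (E × Λ) :=
  Finset.univ.filter fun p => p.1 ∈ Sj ∧ Pd p.2

private lemma cntTT {E Λ : Type} [Fintype E] [Fintype Λ] (Sj : Finset E) (Pd : Λ → Prop)
    (f : E → Λ) (inst : DecidablePred fun e => Pd (f e)) :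
    cntL f (TT Sj Pd) = (@Finset.filter E (fun e => Pd (f e)) inst Sj).card := by
  unfold cntL TT
  congr 1
  ext e
  simp only [Finset.mem_filter, Finset.mem_univ, true_and]

private lemma muTT {E Λ : Type} [Fintype E] [Fintype Λ] (p : E → Λ → ℝ) (Sj : Finset E)
    (Pd : Λ → Prop) : muL p (TT Sj Pd) = ∑ e ∈ Sj, ∑ x, if Pd x then p e x else 0 := by
  unfold muL TT
  rw [Finset.sum_filter, Fintype.sum_prod_type]
  rw [← Finset.sum_subset (Finset.subset_univ Sj)]
  · refine Finset.sum_congr rfl fun e he => Finset.sum_congr rfl fun x _ => ?_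
    by_cases h : Pd x
    · rw [if_pos ⟨he, h⟩, if_pos h]
    · rw [if_neg (fun h' => h h'.2), if_neg h]
  · intro e _ he
    exact Finset.sum_eq_zero fun x _ => if_neg fun h' => he h'.1

private def pr {E : Type} {P : ℕ} (q : E → Fin P → ℝ) (σ : ℝ) (e : E)
    (x : Option (Fin P) × Bool) : ℝ :=
  (match x.1 with
    | some a => q e a
    | none => 1 - ∑ a, q e a) * (if x.2 then σ else 1 - σ)

private lemma pr_some {E : Type} {P : ℕ} (q : E → Fin P → ℝ) (σ : ℝ) (e : E) (a : Fin P)
    (b : Bool) : pr q σ e (some a, b) = q e a * (if b then σ else 1 - σ) := rfl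

private lemma pr_none {E : Type} {P : ℕ} (q : E → Fin P → ℝ) (σ : ℝ) (e : E)
    (b : Bool) : pr q σ e (none, b) = (1 - ∑ a, q e a) * (if b then σ else 1 - σ) := rfl

private lemma pr_sum {E : Type} {P : ℕ} (q : E → Fin P → ℝ) (σ : ℝ) (e : E)
    (Pd : Option (Fin P) × Bool → Prop) :
    ∑ x, (if Pd x then pr q σ e x else 0) =
      ((if Pd (none, true) then (1 - ∑ a, q e a) * σ else 0) +
        (if Pd (none, false) then (1 - ∑ a, q e a) * (1 - σ) else 0)) +
      ∑ a, ((if Pd (some a, true) then q e a * σ else 0) +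
        (if Pd (some a, false) then q e a * (1 - σ) else 0)) := by
  rw [Fintype.sum_prod_type, Fintype.sum_option]
  simp only [Fintype.sum_bool, pr_some, pr_none, if_true, Bool.false_eq_true, if_false]

private lemma pr_one {E : Type} {P : ℕ} (q : E → Fin P → ℝ) (σ : ℝ) (e : E) :
    ∑ x, pr q σ e x = 1 := by
  have h := pr_sum q σ e (fun _ => True)
  simp only [if_true] at h
  rw [h, Finset.sum_add_distrib, ← Finset.sum_mul, ← Finset.sum_mul]
  ring

private lemma pr_s1 {E : Type} {P : ℕ} (q : E → Fin P → ℝ) (σ : ℝ) (e : E) (a : Fin P)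
    (Pd : Option (Fin P) × Bool → Prop) (hPd : Pd = fun x => x.1 = some a) :
    ∑ x, (if Pd x then pr q σ e x else 0) = q e a := by
  have hn : ∀ b, ¬ Pd (none, b) := by
    intro b
    rw [hPd]
    simp
  have hs : ∀ a' b, Pd (some a', b) ↔ a' = a := by
    intro a' b
    rw [hPd]
    simp
  rw [pr_sum, if_neg (hn _), if_neg (hn _), Finset.sum_eq_single a]
  · rw [if_pos ((hs a _).2 rfl), if_pos ((hs a _).2 rfl)]
    ring
  · intro a' _ h
    rw [if_neg fun h' => h ((hs a' _).1 h'), if_neg fun h' => h ((hs a' _).1 h'), add_zero]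
  · intro h
    exact absurd (Finset.mem_univ a) h

private lemma pr_s2 {E : Type} {P : ℕ} (q : E → Fin P → ℝ) (σ : ℝ) (e : E) (a : Fin P)
    (Pd : Option (Fin P) × Bool → Prop) (hPd : Pd = fun x => x.1 = some a ∧ x.2 = true) :
    ∑ x, (if Pd x then pr q σ e x else 0) = σ * q e a := by
  have hn : ∀ b, ¬ Pd (none, b) := by
    intro b
    rw [hPd]
    simp
  have hf : ∀ a', ¬ Pd (some a', false) := by
    intro a'
    rw [hPd]
    simp
  have hs : ∀ a', Pd (some a', true) ↔ a' = a := by
    intro a'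
    rw [hPd]
    simp
  rw [pr_sum, if_neg (hn _), if_neg (hn _), Finset.sum_eq_single a]
  · rw [if_pos ((hs a).2 rfl), if_neg (hf a)]
    ring
  · intro a' _ h
    rw [if_neg fun h' => h ((hs a').1 h'), if_neg (hf a'), add_zero]
  · intro h
    exact absurd (Finset.mem_univ a) h

private lemma pr_s3 {E : Type} {P : ℕ} (q : E → Fin P → ℝ) (σ : ℝ) (e : E)
    (Pd : Option (Fin P) × Bool → Prop) (hPd : Pd = fun x => x.1 = none) :
    ∑ x, (if Pd x then pr q σ e x else 0) = 1 - ∑ a, q e a := by
  have hn : ∀ b, Pd (none, b) := by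
    intro b
    rw [hPd]
  have hs : ∀ a' b, ¬ Pd (some a', b) := by
    intro a' b
    rw [hPd]
    simp
  have h0 : ∑ a, ((if Pd (some a, true) then q e a * σ else 0) +
      (if Pd (some a, false) then q e a * (1 - σ) else 0)) = 0 := by
    refine Finset.sum_eq_zero fun a _ => ?_
    rw [if_neg (hs _ _), if_neg (hs _ _), add_zero]
  rw [pr_sum, if_pos (hn _), if_pos (hn _), h0]
  ring

private lemma pr_s4 {E : Type} {P : ℕ} (q : E → Fin P → ℝ) (σ : ℝ) (e : E)
    (Pd : Option (Fin P) × Bool → Prop) (hPd : Pd = fun x => x.2 = true) :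
    ∑ x, (if Pd x then pr q σ e x else 0) = σ := by
  have hn : Pd (none, true) := by
    rw [hPd]
  have hn' : ¬ Pd (none, false) := by
    rw [hPd]
    simp
  have hs : ∀ a', Pd (some a', true) := by
    intro a'
    rw [hPd]
  have hs' : ∀ a', ¬ Pd (some a', false) := by
    intro a'
    rw [hPd]
    simp
  rw [pr_sum, if_pos hn, if_neg hn']
  have h1 : ∀ a ∈ (Finset.univ : Finset (Fin P)),
      ((if Pd (some a, true) then q e a * σ else 0) +
        (if Pd (some a, false) then q e a * (1 - σ) else 0)) = q e a * σ := by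
    intro a _
    rw [if_pos (hs a), if_neg (hs' a), add_zero]
  rw [Finset.sum_congr rfl h1, ← Finset.sum_mul]
  ring

theorem pick {E J : Type} [Fintype E] [Fintype J] (P : ℕ) (q : E → Fin P → ℝ) (S : J → Finset E)
    (σ z t : ℝ) (hq : ∀ e a, 0 ≤ q e a) (hq1 : ∀ e, ∑ a, q e a ≤ 1) (hσ0 : 0 < σ) (hσ1 : σ < 1)
    (hz : 0 < z) (hz1 : z ≤ 1)
    (hcnt : (Fintype.card J : ℝ) * (2 * P + 2) * (2 * Real.exp (-(z * t))) < 1) :
    ∃ f : E → Option (Fin P) × Bool, (∀ e a, (f e).1 = some a → 0 < q e a) ∧ ∀ j,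
      (∀ a, (1 - z) * ∑ e ∈ S j, q e a - t ≤ (((S j).filter fun e => (f e).1 = some a).card : ℝ) ∧
        (((S j).filter fun e => (f e).1 = some a).card : ℝ) ≤ (1 + z) * ∑ e ∈ S j, q e a + t) ∧
      (∀ a, (1 - z) * (σ * ∑ e ∈ S j, q e a) - t ≤
          (((S j).filter fun e => (f e).1 = some a ∧ (f e).2 = true).card : ℝ) ∧
        (((S j).filter fun e => (f e).1 = some a ∧ (f e).2 = true).card : ℝ) ≤
          (1 + z) * (σ * ∑ e ∈ S j, q e a) + t) ∧
      (((S j).filter fun e => (f e).1 = none).card : ℝ) ≤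
        (1 + z) * ∑ e ∈ S j, (1 - ∑ a, q e a) + t ∧
      (((S j).filter fun e => (f e).2 = true).card : ℝ) ≤ (1 + z) * (σ * (S j).card) + t := by
  set p : E → Option (Fin P) × Bool → ℝ := pr q σ with hp
  have hp0 : ∀ e x, 0 ≤ p e x := by
    intro e x
    obtain ⟨o, b⟩ := x
    have hs : (0 : ℝ) ≤ (if b then σ else 1 - σ) := by
      split_ifs <;> linarith
    cases o with
    | none =>
      rw [hp, pr_none]
      exact mul_nonneg (by linarith [hq1 e]) hs
    | some a =>
      rw [hp, pr_some]
      exact mul_nonneg (hq e a) hs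
  have hp1 : ∀ e, ∑ x, p e x = 1 := fun e => pr_one q σ e
  set T : J × ((Fin P × Bool) ⊕ Bool) → Finset (E × (Option (Fin P) × Bool)) := fun i =>
    match i.2 with
    | Sum.inl (a, false) => TT (S i.1) (fun x => x.1 = some a)
    | Sum.inl (a, true) => TT (S i.1) (fun x => x.1 = some a ∧ x.2 = true)
    | Sum.inr false => TT (S i.1) (fun x => x.1 = none)
    | Sum.inr true => TT (S i.1) (fun x => x.2 = true) with hT
  set cost : (E → Option (Fin P) × Bool) → ℝ := fun f =>
    ((Finset.univ.filter fun e => p e (f e) = 0).card : ℝ) with hcost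
  have hc0 : ∀ f, 0 ≤ cost f := fun f => Nat.cast_nonneg _
  have hzero : ∑ f : E → Option (Fin P) × Bool, (∏ e, p e (f e)) * cost f = 0 := by
    refine Finset.sum_eq_zero fun f _ => ?_
    by_cases h : ∃ e, p e (f e) = 0
    · obtain ⟨e, he⟩ := h
      rw [Finset.prod_eq_zero (Finset.mem_univ e) he, zero_mul]
    · push Not at h
      have h1 : cost f = 0 := by
        rw [hcost]
        have : (Finset.univ.filter fun e => p e (f e) = 0) = ∅ :=
          Finset.filter_eq_empty_iff.2 fun e _ => h e
        simp only [this, Finset.card_empty, Nat.cast_zero]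
      rw [h1, mul_zero]
  have hsum : ∑ f : E → Option (Fin P) × Bool, (∏ e, p e (f e)) * cost f +
      ∑ i ∈ (Finset.univ : Finset (J × ((Fin P × Bool) ⊕ Bool))),
        2 * Real.exp (-(z * (fun _ => t) i)) < 1 := by
    rw [hzero, zero_add, Finset.sum_const, Finset.card_univ, Fintype.card_prod, Fintype.card_sum,
      Fintype.card_prod, Fintype.card_fin, Fintype.card_bool, nsmul_eq_mul]
    push_cast
    have h1 : (Fintype.card J : ℝ) * ((P : ℝ) * 2 + 2) * (2 * Real.exp (-(z * t))) =
        (Fintype.card J : ℝ) * (2 * P + 2) * (2 * Real.exp (-(z * t))) := by ring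
    rw [h1]
    exact hcnt
  obtain ⟨f, hf1, hf2⟩ := label_cost p hp0 hp1 Finset.univ T z hz hz1 (fun _ => t) cost hc0 hsum
  have hne : ∀ e, p e (f e) ≠ 0 := by
    intro e he
    have h1 : (1 : ℝ) ≤ cost f := by
      simp only [hcost]
      have h2 : 0 < (Finset.univ.filter fun e => p e (f e) = 0).card :=
        Finset.card_pos.2 ⟨e, Finset.mem_filter.2 ⟨Finset.mem_univ e, he⟩⟩
      exact_mod_cast h2
    linarith
  refine ⟨f, ?_, ?_⟩
  · intro e a he
    have h1 := hne e
    rcases hfe : f e with ⟨o, b⟩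
    rw [hfe] at h1 he
    have he' : o = some a := he
    rw [he', hp, pr_some] at h1
    exact lt_of_le_of_ne (hq e a) (fun h => h1 (by rw [← h, zero_mul]))
  · intro j
    refine ⟨fun a => ?_, fun a => ?_, ?_, ?_⟩
    · have h := hf2 (j, Sum.inl (a, false)) (Finset.mem_univ _)
      have e1 : T (j, Sum.inl (a, false)) = TT (S j) (fun x => x.1 = some a) := rfl
      have e3 : cntL f (TT (S j) (fun x : Option (Fin P) × Bool => x.1 = some a)) =
          ((S j).filter fun e => (f e).1 = some a).card := cntTT _ _ f _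
      rw [e1, e3, muTT] at h
      rw [Finset.sum_congr rfl fun e _ => pr_s1 q σ e a _ rfl] at h
      exact h
    · have h := hf2 (j, Sum.inl (a, true)) (Finset.mem_univ _)
      have e1 : T (j, Sum.inl (a, true)) = TT (S j) (fun x => x.1 = some a ∧ x.2 = true) := rfl
      have e3 : cntL f (TT (S j) (fun x : Option (Fin P) × Bool => x.1 = some a ∧ x.2 = true)) =
          ((S j).filter fun e => (f e).1 = some a ∧ (f e).2 = true).card := cntTT _ _ f _
      rw [e1, e3, muTT] at h
      rw [Finset.sum_congr rfl fun e _ => pr_s2 q σ e a _ rfl, ← Finset.mul_sum] at h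
      exact h
    · have h := (hf2 (j, Sum.inr false) (Finset.mem_univ _)).2
      have e1 : T (j, Sum.inr false) = TT (S j) (fun x => x.1 = none) := rfl
      have e3 : cntL f (TT (S j) (fun x : Option (Fin P) × Bool => x.1 = none)) =
          ((S j).filter fun e => (f e).1 = none).card := cntTT _ _ f _
      rw [e1, e3, muTT] at h
      rw [Finset.sum_congr rfl fun e _ => pr_s3 q σ e _ rfl] at h
      exact h
    · have h := (hf2 (j, Sum.inr true) (Finset.mem_univ _)).2
      have e1 : T (j, Sum.inr true) = TT (S j) (fun x => x.2 = true) := rfl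
      have e3 : cntL f (TT (S j) (fun x : Option (Fin P) × Bool => x.2 = true)) =
          ((S j).filter fun e => (f e).2 = true).card := cntTT _ _ f _
      rw [e1, e3, muTT] at h
      rw [Finset.sum_congr rfl fun e _ => pr_s4 q σ e _ rfl, Finset.sum_const, nsmul_eq_mul,
        mul_comm ((S j).card : ℝ) σ] at h
      exact h

end Pool.Agent.Lib.TriS
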