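import Pool.Agent.Lib.TriS.S3Defs

/-!
MODULE SRel (about 130 lines). Elementary relations in a symmetric design (`DSys A M k c n`, see TriD/ZDefs.lean: `Fintype.card X = k`,
`Fintype.card Y = c`, `Fintype.card B + 1 = k + c`).

PROOFS.
`dsys_notA_x`: `Fintype.card B = k + c - 1`, `degR : #{b | A x b} = c`, complement (`Finset.card_filter_not` /
 `Finset.filter_card_add_filter_neg_card_eq_card`).
`dsys_MnotA`: `degC` (`#{b | M y b} = k`) and `rc` (`#{b | A x b ∧ M y b} = n`).
`dsys_notA_b`: `cR` and `degSR`.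
`dsys_n_le`: from `degSR` and `Finset.card_le_univ` (`B` is nonempty because `k + c = card B + 1 ≥ 2`).
`dsys_rel`: double counting for one fixed `x : X` (`X` is nonempty as `k ≥ 1`):
 `∑ x' ∈ univ.erase x, #{b | A x b ∧ A x' b} = ∑ b with A x b, #{x' ≠ x | A x' b} = c * (n - 1)` by `degSR`, and the left side is
 `(k - 1) * (c - n)` by `rr`. So `(k-1)(c-n) = c (n-1)` (in ℤ), i.e. `k c = n (k + c - 1)`. It is convenient to add the term `x' = x`:
 `∑ x', #{b | A x b ∧ A x' b} = c * n` (swap with `Finset.sum_comm`, indicator functions), the term `x' = x` is `c`, the others are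
 `c - n`, so `c n + (k-1) n = k c`.
`dsys_lam`: real form: `(k - n)(k + c - 1) = k (k + c - 1) - k c = k (k - 1)`.
`dsys_sq`: `k ≥ 2`: `(k - n)(k+c-1) = k (k-1) > 0`, so `k - n ≥ 1` (naturals) and `k + c - 1 ≤ k (k - 1)`, so `k + c ≤ k^2`.
-/

set_option autoImplicit false

open scoped Classical

noncomputable section

namespace Pool.Agent.Lib.TriS

open Pool.Agent.Lib.TriD

variable {X Y B : Type} [Fintype X] [Fintype Y] [Fintype B] {A : X → B → Prop} {M : Y → B → Prop}
  {k c n : ℕ}

theorem dsys_notA_x (hS : DSys A M k c n) (x : X) :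
    (Finset.univ.filter fun b => ¬ A x b).card + 1 = k := by
  have h1 := Finset.card_filter_add_card_filter_not (s := (Finset.univ : Finset B)) (fun b => A x b)
  rw [hS.degR x, Finset.card_univ] at h1
  have h2 := hS.cS
  omega

theorem dsys_MnotA (hS : DSys A M k c n) (x : X) (y : Y) :
    (Finset.univ.filter fun b => M y b ∧ ¬ A x b).card + n = k := by
  have h1 := Finset.card_filter_add_card_filter_not
    (s := (Finset.univ.filter fun b => M y b)) (fun b => A x b)
  rw [Finset.filter_filter, Finset.filter_filter, hS.degC y] at h1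
  have h2 : (Finset.univ.filter fun b => M y b ∧ A x b).card = n := by
    rw [← hS.rc x y]
    congr 1
    ext b
    simp only [Finset.mem_filter, Finset.mem_univ, true_and]
    exact and_comm
  omega

theorem dsys_notA_b (hS : DSys A M k c n) (b : B) :
    (Finset.univ.filter fun x => ¬ A x b).card + n = k := by
  have h1 := Finset.card_filter_add_card_filter_not (s := (Finset.univ : Finset X)) (fun x => A x b)
  rw [hS.degSR b, Finset.card_univ, hS.cR] at h1
  omega

theorem dsys_n_le (hS : DSys A M k c n) (hk : 2 ≤ k) : n ≤ k := by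
  have h1 := hS.cS
  have h2 : 0 < Fintype.card B := by omega
  obtain ⟨b⟩ := Fintype.card_pos_iff.mp h2
  rw [← hS.degSR b, ← hS.cR]
  exact Finset.card_le_univ _

theorem dsys_rel (hS : DSys A M k c n) (hk : 2 ≤ k) : c * n + (k - 1) * n = k * c := by
  have h1 : 0 < Fintype.card X := by rw [hS.cR]; omega
  obtain ⟨x⟩ := Fintype.card_pos_iff.mp h1
  have h2 : ∑ x' : X, (Finset.univ.filter fun b => A x b ∧ A x' b).card = c * n := by
    have e1 : ∀ x' : X, (Finset.univ.filter fun b => A x b ∧ A x' b).card =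
        ∑ b ∈ Finset.univ.filter (fun b => A x b), if A x' b then 1 else 0 := by
      intro x'
      rw [← Finset.filter_filter, Finset.card_filter]
    rw [Finset.sum_congr rfl fun x' _ => e1 x', Finset.sum_comm]
    rw [Finset.sum_congr rfl (fun b _ => by
      rw [← Finset.card_filter, hS.degSR b] :
        ∀ b ∈ Finset.univ.filter (fun b => A x b), (∑ x' : X, if A x' b then 1 else 0) = n)]
    rw [Finset.sum_const, hS.degR x, smul_eq_mul]
  have h3 : ∑ x' ∈ (Finset.univ : Finset X).erase x,
      ((Finset.univ.filter fun b => A x b ∧ A x' b).card + n) = (k - 1) * c := by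
    rw [Finset.sum_congr rfl fun x' hx' => hS.rr x x' (Finset.ne_of_mem_erase hx').symm]
    rw [Finset.sum_const, Finset.card_erase_of_mem (Finset.mem_univ x), Finset.card_univ, hS.cR,
      smul_eq_mul]
  rw [Finset.sum_add_distrib, Finset.sum_const, Finset.card_erase_of_mem (Finset.mem_univ x),
    Finset.card_univ, hS.cR, smul_eq_mul] at h3
  have h4 := Finset.add_sum_erase (Finset.univ : Finset X)
    (fun x' => (Finset.univ.filter fun b => A x b ∧ A x' b).card) (Finset.mem_univ x)
  have h5 : (Finset.univ.filter fun b => A x b ∧ A x b).card = c := by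
    simp only [and_self]
    exact hS.degR x
  rw [h2] at h4
  simp only [h5] at h4
  obtain ⟨m, rfl⟩ : ∃ m, k = m + 1 := ⟨k - 1, by omega⟩
  simp only [Nat.add_sub_cancel] at h3 ⊢
  rw [add_mul (m) 1 c, one_mul, ← h3, ← h4]
  ring

theorem dsys_lam (hS : DSys A M k c n) (hk : 2 ≤ k) :
    ((k : ℝ) - n) * ((k : ℝ) + c - 1) = k * ((k : ℝ) - 1) := by
  have h1 := dsys_rel hS hk
  have h2 : (c : ℝ) * n + ((k : ℝ) - 1) * n = k * c := by
    have h3 : ((k - 1 : ℕ) : ℝ) = (k : ℝ) - 1 := by
      rw [Nat.cast_sub (by omega), Nat.cast_one]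
    rw [← h3]
    exact_mod_cast h1
  linarith [h2]

theorem dsys_sq (hS : DSys A M k c n) (hk : 2 ≤ k) : k + c ≤ k ^ 2 := by
  have h1 := dsys_lam hS hk
  have h2 := dsys_n_le hS hk
  have hk' : (2 : ℝ) ≤ k := by exact_mod_cast hk
  have hc : (0 : ℝ) ≤ c := Nat.cast_nonneg c
  have h3 : n ≠ k := by
    rintro rfl
    rw [sub_self, zero_mul] at h1
    have : (0 : ℝ) < (n : ℝ) * ((n : ℝ) - 1) := by
      apply mul_pos <;> linarith
    linarith
  have h4 : n + 1 ≤ k := by omega
  have h5 : (n : ℝ) + 1 ≤ k := by exact_mod_cast h4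
  have h6 : ((k : ℝ) + c - 1) ≤ ((k : ℝ) - n) * ((k : ℝ) + c - 1) := by
    nlinarith
  have h7 : (k : ℝ) + c ≤ (k : ℝ) ^ 2 := by nlinarith
  exact_mod_cast h7

end Pool.Agent.Lib.TriS
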