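import Pool.Agent.Lib.TriS.SDefs
import Pool.Agent.Lib.TriS.Phase

/-!
MODULE St0A (about 220 lines). Phase A of Stage 0.

PROOF. `phase` with `Wt = Y`, `Z = B`, `W = {y | pY y = none}`, `N y = {l | M y l}`, `nd y = univ`, `al l = {x | A x l ∧ ∀ a, pB l = some a → x ∉ hub a}`, `F0 = k/2`, `ka = 2/10^27`. `card (N y) = k = card X` (`degC`, `cR`). `h1`: `univ \ al l` has at most
`(k - n) + r ≤ k/32` elements (`degSR`: `card {x | A x l} = n`; `hubc`; `r ≤ 10^22 L ≤ k/10^60`). `h2`: `wB` (`1/10^27 k = ka F0`). `h3`: `l ∈ N y` with `x ∉ al l`: `¬ A x l`: `k - n` of them (`rc`: `card {l | A x l ∧ M y l} = n`), or `pB l = some a`, `x ∈ hub a` for the unique such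
`a` (`hubd`): at most `1/10^27 k` (`upY`). `hF`: `300 L ≤ k/2` (`G1`, `G2`). `W.card ≤ c ≤ exp L`, `card X = k ≤ exp L`.
Tests: `ι = (Y × X) ⊕ (Y × Fin P × X) ⊕ B ⊕ (Fin P × X)`: `{l | M y l ∧ pB l ≠ none} × {x}` (at most `k` pairs), `{l | M y l ∧ pB l = some a} × {x}`, `{l} × G`, `{l | pB l = some a} × {x}` (`cB`: `s` pairs). With `v = k + c`: `card ι ≤ v² + v² P + v + P v ≤ v³ ≤ exp (3L)` (`P ≤ v/10^60` as
`P s ≤ v`, `s ≥ 10^60`; `v ≥ 10^60`; `cC`, `cS`). `8 ka = 16/10^27`. The received colours: `x ∈ rcA l ↔ ∃ y ∈ W, l ∈ N y ∧ colA y l = x`. `Nonempty X`: `card X = k > 0`.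
-/

set_option autoImplicit false

open scoped Classical

noncomputable section

namespace Pool.Agent.Lib.TriS

open Pool.Agent.Lib.TriD

private theorem St0A_num {k c n g P s r : ℕ} {L : ℝ} (h : DNum k c n g P s r L) :
    (10 : ℝ) ^ 240 * L ≤ k ∧ (10 : ℝ) ^ 60 ≤ (k : ℝ) + c ∧ (10 : ℝ) ^ 60 * P ≤ (k : ℝ) + c := by
  have hL := h.L1
  have hP := h.P1
  have hP0 : (0 : ℝ) < P := lt_of_lt_of_le (by positivity) hP
  have h1 := h.G1
  have h2 := h.G2
  have h3 : (10 : ℝ) ^ 120 * L ≤ g := by
    refine le_trans ?_ h1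
    have e1 : (10 : ℝ) ^ 120 * L = 10 ^ 60 * 10 ^ 60 * L := by norm_num
    rw [e1]
    gcongr
  have h4 : (10 : ℝ) ^ 240 * L ≤ k := by
    refine le_trans ?_ h2
    have e1 : (10 : ℝ) ^ 240 * L = 10 ^ 60 * 10 ^ 60 * (10 ^ 120 * L) := by
      rw [← mul_assoc]
      norm_num
    rw [e1]
    gcongr
  have h5 : (10 : ℝ) ^ 60 ≤ (k : ℝ) + c := by
    have e1 : (10 : ℝ) ^ 60 ≤ 10 ^ 240 * L := by
      calc (10 : ℝ) ^ 60 ≤ 10 ^ 240 * 1 := by norm_num
        _ ≤ 10 ^ 240 * L := by gcongr
    have e2 : (0 : ℝ) ≤ c := Nat.cast_nonneg _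
    linarith
  refine ⟨h4, h5, ?_⟩
  have h6 := h.s3
  have h7 := h.Ps
  have h8 : (10 : ℝ) ^ 60 ≤ s := by
    refine le_trans ?_ h6
    have e1 : (1 : ℝ) ≤ P := le_trans (by norm_num) hP
    calc (10 : ℝ) ^ 60 = 10 ^ 60 * 1 ^ 2 * 1 := by norm_num
      _ ≤ 10 ^ 60 * (P : ℝ) ^ 2 * L := by gcongr
  calc (10 : ℝ) ^ 60 * (P : ℝ) = (P : ℝ) * (10 : ℝ) ^ 60 := mul_comm _ _
    _ ≤ (P : ℝ) * (s : ℝ) := mul_le_mul_of_nonneg_left h8 hP0.le
    _ ≤ (k : ℝ) + c := h7

private theorem St0A_card {k c P b : ℕ} {L : ℝ} (hv : (k : ℝ) + c ≤ Real.exp L)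
    (h5 : (10 : ℝ) ^ 60 ≤ (k : ℝ) + c) (h6 : (10 : ℝ) ^ 60 * P ≤ (k : ℝ) + c)
    (hb : b + 1 = k + c) :
    (c : ℝ) * k + (c * (P * k) + (b + P * k)) ≤ Real.exp (3 * L) := by
  set v : ℝ := (k : ℝ) + c with hvdef
  have hk0 : (0 : ℝ) ≤ k := Nat.cast_nonneg _
  have hc0 : (0 : ℝ) ≤ c := Nat.cast_nonneg _
  have hP0 : (0 : ℝ) ≤ P := Nat.cast_nonneg _
  have hb' : (b : ℝ) + 1 = v := by
    rw [hvdef]
    exact_mod_cast hb
  have hkv : (k : ℝ) ≤ v := by linarith
  have hcv : (c : ℝ) ≤ v := by linarith
  have hv0 : (0 : ℝ) ≤ v := by linarith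
  have hv1 : (1 : ℝ) ≤ v := le_trans (by norm_num) h5
  have hv4 : (4 : ℝ) ≤ v := le_trans (by norm_num) h5
  have hP4 : 4 * (P : ℝ) ≤ v := by
    refine le_trans ?_ h6
    have : (4 : ℝ) ≤ 10 ^ 60 := by norm_num
    gcongr
  have e1 : (c : ℝ) * k ≤ v * v := mul_le_mul hcv hkv hk0 hv0
  have e2 : (c : ℝ) * (P * k) ≤ v * (P * v) := by gcongr
  have e3 : (P : ℝ) * k ≤ P * v := by gcongr
  have e4 : v * v ≤ v ^ 3 / 4 := by
    have : v ^ 3 / 4 - v * v = v * v * ((v - 4) / 4) := by ring
    have h : 0 ≤ v * v * ((v - 4) / 4) := by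
      apply mul_nonneg (mul_nonneg hv0 hv0)
      linarith
    linarith
  have e5 : v * (P * v) ≤ v ^ 3 / 4 := by
    have : v ^ 3 / 4 - v * (P * v) = v * v * ((v - 4 * P) / 4) := by ring
    have h : 0 ≤ v * v * ((v - 4 * P) / 4) := by
      apply mul_nonneg (mul_nonneg hv0 hv0)
      linarith
    linarith
  have e6 : (b : ℝ) ≤ v ^ 3 / 4 := by
    have : v ≤ v * v := by nlinarith
    linarith
  have e7 : (P : ℝ) * v ≤ v ^ 3 / 4 := by
    have h1 : (P : ℝ) * v ≤ v * (P * v) := by
      have : 0 ≤ (P : ℝ) * v := mul_nonneg hP0 hv0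
      nlinarith
    linarith
  have e8 : v ^ 3 ≤ Real.exp (3 * L) := by
    have : Real.exp (3 * L) = Real.exp L ^ 3 := by
      rw [← Real.exp_nat_mul]
      norm_num
    rw [this]
    gcongr
  linarith

private theorem St0A_mem_rcA {X Y B : Type} [Fintype X] {P : ℕ} {M : Y → B → Prop}
    {pY : Y → Option (Fin P)} {colA : Y → B → X} {l : B} {x : X} :
    x ∈ rcA M pY colA l ↔ ∃ y, pY y = none ∧ M y l ∧ colA y l = x := by
  unfold rcA
  rw [Finset.mem_filter]
  exact ⟨fun h => h.2, fun h => ⟨Finset.mem_univ _, h⟩⟩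

private theorem St0A_test {X Y B : Type} [Fintype X] {P : ℕ}
    {M : Y → B → Prop} {pY : Y → Option (Fin P)} {colA : Y → B → X} {α : Type} (s : Finset α)
    (T S : Finset (B × X)) (φ : α → B × X)
    (h : ∀ a ∈ s, φ a ∈ T ∧ (φ a).2 ∈ rcA M pY colA (φ a).1)
    (hi : ∀ a ∈ s, ∀ b ∈ s, φ a = φ b → a = b)
    (hS : ∀ p ∈ T, ∀ w, pY w = none → M w p.1 → colA w p.1 = p.2 → p ∈ S) :
    s.card ≤ S.card := by
  refine Finset.card_le_card_of_injOn φ ?_ ?_
  · intro a ha
    have ha' := h a ha
    obtain ⟨y, hy1, hy2, hy3⟩ := St0A_mem_rcA.1 ha'.2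
    exact hS _ ha'.1 y hy1 hy2 hy3
  · intro a ha b hb hab
    exact hi a ha b hb hab

theorem st0A {X Y B : Type} [Fintype X] [Fintype Y] [Fintype B] (A : X → B → Prop)
    (M : Y → B → Prop) (k c n : ℕ) (hS : DSys A M k c n) (G : Finset X) (P s r : ℕ)
    (pY : Y → Option (Fin P)) (pB : B → Option (Fin P)) (hub : Fin P → Finset X) (L : ℝ)
    (hN : DNum k c n G.card P s r L) (hP : PartSys A M k G P s r pY pB hub (1 / 10 ^ 27)) :
    ∃ colA : Y → B → X, StA A M k G P s pY pB hub L colA := by
  classical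
  obtain ⟨hk240, hv60, hP60⟩ := St0A_num hN
  have hL1 := hN.L1
  have hk0 : (0 : ℝ) < k := lt_of_lt_of_le (by positivity) hk240
  have hcX := hS.cR
  have hcY := hS.cC
  have hcB := hS.cS
  have hne : Nonempty X := by
    rw [← Fintype.card_pos_iff, hcX]
    exact_mod_cast hk0
  -- complement counts
  have hnA : ∀ l, (Finset.univ.filter fun x => ¬ A x l).card + n = k := by
    intro l
    have h1 := Finset.card_filter_add_card_filter_not (s := (Finset.univ : Finset X))
      (fun x => A x l)
    rw [hS.degSR l, Finset.card_univ, hcX] at h1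
    omega
  have hnM : ∀ y x, (Finset.univ.filter fun l => M y l ∧ ¬ A x l).card + n = k := by
    intro y x
    have h1 := Finset.card_filter_add_card_filter_not
      (s := (Finset.univ.filter fun l => M y l)) (fun l => A x l)
    rw [hS.degC y, Finset.filter_filter, Finset.filter_filter] at h1
    have h2 : (Finset.univ.filter fun l => M y l ∧ A x l).card = n := by
      rw [← hS.rc x y]
      congr 1
      ext l
      simp only [Finset.mem_filter, Finset.mem_univ, true_and]
      exact and_comm
    omega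
  have hlam : ∀ m : ℕ, m + n = k → (m : ℝ) ≤ 1 / 10 ^ 30 * k := by
    intro m hm
    refine le_trans (le_of_eq ?_) hN.lam
    rw [← hm]
    push_cast
    ring
  have hr : (r : ℝ) ≤ 1 / 10 ^ 60 * k := by
    refine hN.r2.trans ?_
    calc (10 : ℝ) ^ 22 * L ≤ 10 ^ 180 * L := by gcongr <;> norm_num
      _ = 1 / 10 ^ 60 * (10 ^ 240 * L) := by
        rw [← mul_assoc]
        norm_num
      _ ≤ 1 / 10 ^ 60 * k := by gcongr
  let ι := (Y × X) ⊕ (Y × Fin P × X) ⊕ B ⊕ (Fin P × X)
  let T : ι → Finset (B × X) :=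
    Sum.elim (fun q => (Finset.univ.filter fun l => M q.1 l ∧ pB l ≠ none) ×ˢ {q.2})
      (Sum.elim (fun q => (Finset.univ.filter fun l => M q.1 l ∧ pB l = some q.2.1) ×ˢ {q.2.2})
        (Sum.elim (fun l => {l} ×ˢ G)
          (fun q => (Finset.univ.filter fun l => pB l = some q.1) ×ˢ {q.2})))
  obtain ⟨col, hc1, hc2, hc3, hc4⟩ := phase (ι := ι) hne
    (Finset.univ.filter fun y => pY y = none) (fun y => Finset.univ.filter fun l => M y l)
    (fun _ => Finset.univ)
    (fun l => Finset.univ.filter fun x => A x l ∧ ∀ a, pB l = some a → x ∉ hub a)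
    ((k : ℝ) / 2) (2 / 10 ^ 27) L T hL1
    (by
      intro y _
      rw [hS.degC y, Finset.card_univ, hcX])
    (by
      intro y _
      rw [hS.degC y]
      linarith)
    (by
      intro y _
      rw [hS.degC y]
      linarith)
    (by positivity) (by norm_num)
    (by
      have : (600 : ℝ) * L ≤ 10 ^ 240 * L := by
        gcongr
        norm_num
      linarith)
    (by
      intro y _ l _
      have hsub : Finset.univ \ (Finset.univ.filter fun x =>
          A x l ∧ ∀ a, pB l = some a → x ∉ hub a) ⊆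
          (Finset.univ.filter fun x => ¬ A x l) ∪ ((pB l).elim ∅ hub) := by
        intro x hx
        rw [Finset.mem_sdiff, Finset.mem_filter] at hx
        rw [Finset.mem_union, Finset.mem_filter]
        by_cases hA : A x l
        · right
          have h1 : ∃ a, pB l = some a ∧ x ∈ hub a := by
            by_contra hcon
            push Not at hcon
            exact hx.2 ⟨Finset.mem_univ _, hA, hcon⟩
          obtain ⟨a, ha, hxa⟩ := h1
          rw [ha]
          exact hxa
        · left
          exact ⟨Finset.mem_univ _, hA⟩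
      have h1 := (Finset.card_le_card hsub).trans (Finset.card_union_le _ _)
      have h2 : ((pB l).elim ∅ hub).card ≤ r := by
        cases hpl : pB l with
        | none => simp
        | some a =>
          simp only [Option.elim_some]
          exact (hP.hubc a).le
      have h3 := hlam _ (hnA l)
      have h4 : ((Finset.univ \ (Finset.univ.filter fun x =>
          A x l ∧ ∀ a, pB l = some a → x ∉ hub a)).card : ℝ) ≤
          ((Finset.univ.filter fun x => ¬ A x l).card : ℝ) + r := by
        exact_mod_cast h1.trans (Nat.add_le_add_left h2 _)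
      refine h4.trans ?_
      have h5 : (1 : ℝ) / 10 ^ 30 * k + 1 / 10 ^ 60 * k ≤ (k : ℝ) / 2 / 16 := by
        have : (1 : ℝ) / 10 ^ 30 + 1 / 10 ^ 60 ≤ 1 / 32 := by norm_num
        nlinarith
      linarith)
    (by
      intro l
      have h1 := hP.wB l
      have h2 : ((Finset.univ.filter fun y => pY y = none).filter fun w =>
          l ∈ Finset.univ.filter fun l => M w l) =
          Finset.univ.filter fun y => M y l ∧ pY y = none := by
        ext y
        simp only [Finset.mem_filter, Finset.mem_univ, true_and]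
        exact and_comm
      rw [h2]
      refine h1.trans (le_of_eq ?_)
      ring)
    (by
      intro y _ x _
      have h3 := hlam _ (hnM y x)
      by_cases hx : ∃ a, x ∈ hub a
      · obtain ⟨a, ha⟩ := hx
        have hsub : ((Finset.univ.filter fun l => M y l).filter fun z => x ∉
            Finset.univ.filter fun x => A x z ∧ ∀ a, pB z = some a → x ∉ hub a) ⊆
            (Finset.univ.filter fun l => M y l ∧ ¬ A x l) ∪
              (Finset.univ.filter fun l => M y l ∧ pB l = some a) := by
          intro l hl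
          simp only [Finset.mem_filter, Finset.mem_univ, true_and] at hl
          simp only [Finset.mem_union, Finset.mem_filter, Finset.mem_univ, true_and]
          by_cases hA : A x l
          · right
            refine ⟨hl.1, ?_⟩
            by_contra hcon
            refine hl.2 ⟨hA, ?_⟩
            intro b hb hxb
            by_cases hab : b = a
            · subst hab
              exact hcon hb
            · exact Finset.disjoint_left.1 (hP.hubd b a hab) hxb ha
          · left
            exact ⟨hl.1, hA⟩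
        have h1 := (Finset.card_le_card hsub).trans (Finset.card_union_le _ _)
        have h2 := hP.upY y a
        have h4 : (((Finset.univ.filter fun l => M y l).filter fun z => x ∉
            Finset.univ.filter fun x => A x z ∧ ∀ a, pB z = some a → x ∉ hub a).card : ℝ) ≤
            ((Finset.univ.filter fun l => M y l ∧ ¬ A x l).card : ℝ) +
              ((Finset.univ.filter fun l => M y l ∧ pB l = some a).card : ℝ) := by
          exact_mod_cast h1
        refine h4.trans ?_
        have h5 : (1 : ℝ) / 10 ^ 30 * k + 1 / 10 ^ 27 * k ≤ (k : ℝ) / 2 / 16 := by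
          have : (1 : ℝ) / 10 ^ 30 + 1 / 10 ^ 27 ≤ 1 / 32 := by norm_num
          nlinarith
        linarith
      · have hsub : ((Finset.univ.filter fun l => M y l).filter fun z => x ∉
            Finset.univ.filter fun x => A x z ∧ ∀ a, pB z = some a → x ∉ hub a) ⊆
            (Finset.univ.filter fun l => M y l ∧ ¬ A x l) := by
          intro l hl
          simp only [Finset.mem_filter, Finset.mem_univ, true_and] at hl ⊢
          refine ⟨hl.1, fun hA => hl.2 ⟨hA, ?_⟩⟩
          intro b _ hxb
          exact hx ⟨b, hxb⟩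
        have h1 := Finset.card_le_card hsub
        have h4 : (((Finset.univ.filter fun l => M y l).filter fun z => x ∉
            Finset.univ.filter fun x => A x z ∧ ∀ a, pB z = some a → x ∉ hub a).card : ℝ) ≤
            ((Finset.univ.filter fun l => M y l ∧ ¬ A x l).card : ℝ) := by
          exact_mod_cast h1
        refine h4.trans ?_
        have h5 : (1 : ℝ) / 10 ^ 30 * k ≤ (k : ℝ) / 2 / 16 := by
          have : (1 : ℝ) / 10 ^ 30 ≤ 1 / 32 := by norm_num
          nlinarith
        linarith)
    (by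
      have h1 : (Fintype.card ι : ℝ) = (c : ℝ) * k + (c * (P * k) +
          ((Fintype.card B : ℕ) + P * k)) := by
        have : Fintype.card ι = c * k + (c * (P * k) + (Fintype.card B + P * k)) := by
          simp only [ι, Fintype.card_sum, Fintype.card_prod, Fintype.card_fin, hcX, hcY]
        rw [this]
        push_cast
        ring
      rw [h1]
      exact St0A_card hN.vL hv60 hP60 hcB)
    (by
      have h1 : (Finset.univ.filter fun y => pY y = none).card ≤ c := by
        rw [← hcY]
        exact (Finset.card_filter_le _ _).trans (le_of_eq Finset.card_univ)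
      have h2 : ((Finset.univ.filter fun y => pY y = none).card : ℝ) ≤ c := by
        exact_mod_cast h1
      have h3 := hN.vL
      linarith)
    (by
      rw [hcX]
      have h3 := hN.vL
      have h4 : (0 : ℝ) ≤ c := Nat.cast_nonneg _
      linarith)
    (by
      rintro (q | q | l | q) p hp p' hp'
      · simp only [T, Sum.elim_inl, Finset.mem_product, Finset.mem_singleton] at hp hp'
        exact Or.inr (hp.2.trans hp'.2.symm)
      · simp only [T, Sum.elim_inl, Sum.elim_inr, Finset.mem_product,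
          Finset.mem_singleton] at hp hp'
        exact Or.inr (hp.2.trans hp'.2.symm)
      · simp only [T, Sum.elim_inl, Sum.elim_inr, Finset.mem_product,
          Finset.mem_singleton] at hp hp'
        exact Or.inl (hp.1.trans hp'.1.symm)
      · simp only [T, Sum.elim_inr, Finset.mem_product, Finset.mem_singleton] at hp hp'
        exact Or.inr (hp.2.trans hp'.2.symm))
  have hW : ∀ y, pY y = none → y ∈ Finset.univ.filter fun y => pY y = none :=
    fun y hy => Finset.mem_filter.2 ⟨Finset.mem_univ _, hy⟩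
  have hM : ∀ y l, M y l → l ∈ Finset.univ.filter fun l => M y l :=
    fun y l hl => Finset.mem_filter.2 ⟨Finset.mem_univ _, hl⟩
  refine ⟨col, ?_, ?_, ?_, ?_, ?_, ?_, ?_, ?_⟩
  · intro y hy
    have h1 := hc1 y (hW y hy)
    have e1 : ((Finset.univ.filter fun l => M y l : Finset B) : Set B) = {l | M y l} := by
      ext l
      simp
    rw [e1, Finset.coe_univ] at h1
    exact h1
  · intro y l hy hl
    exact (Finset.mem_filter.1 (hc2 y (hW y hy) l (hM y l hl))).2.1
  · intro y l a hy hl ha
    exact (Finset.mem_filter.1 (hc2 y (hW y hy) l (hM y l hl))).2.2 a ha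
  · intro y y' l hy hy' hl hl' he
    by_contra hyy
    exact hc3 y (hW y hy) y' (hW y' hy') hyy l (hM y l hl) (hM y' l hl') he
  · intro y x
    have h1 := hc4 (Sum.inl (y, x))
    have h3 : (T (Sum.inl (y, x))).card ≤ k := by
      simp only [T, Sum.elim_inl, Finset.card_product, Finset.card_singleton, mul_one]
      rw [← hS.degC y]
      refine Finset.card_le_card ?_
      intro l hl
      simp only [Finset.mem_filter, Finset.mem_univ, true_and] at hl ⊢
      exact hl.1
    have h3' : ((T (Sum.inl (y, x))).card : ℝ) ≤ k := by exact_mod_cast h3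
    refine le_trans (Nat.cast_le.2 (St0A_test (M := M) (pY := pY) (colA := col) _
      (T (Sum.inl (y, x))) _ (fun l => (l, x)) ?_ ?_ ?_)) (h1.trans ?_)
    · intro l hl
      simp only [Finset.mem_filter, Finset.mem_univ, true_and] at hl
      refine ⟨?_, hl.2.2⟩
      simp only [T, Sum.elim_inl, Finset.mem_product, Finset.mem_singleton, Finset.mem_filter,
        Finset.mem_univ, true_and, and_true]
      exact ⟨hl.1, hl.2.1⟩
    · exact fun a _ b _ hab => congrArg Prod.fst hab
    · exact fun p hp w h1 h2 h3 => Finset.mem_filter.2 ⟨hp, w, hW w h1, hM w _ h2, h3⟩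
    · have : (16 : ℝ) / 10 ^ 27 * (T (Sum.inl (y, x))).card ≤ 16 / 10 ^ 27 * k := by gcongr
      linarith
  · intro y a x
    have h1 := hc4 (Sum.inr (Sum.inl (y, a, x)))
    have h3 : (T (Sum.inr (Sum.inl (y, a, x)))).card =
        (Finset.univ.filter fun l => M y l ∧ pB l = some a).card := by
      simp only [T, Sum.elim_inl, Sum.elim_inr, Finset.card_product, Finset.card_singleton,
        mul_one]
    refine le_trans (Nat.cast_le.2 (St0A_test (M := M) (pY := pY) (colA := col) _
      (T (Sum.inr (Sum.inl (y, a, x)))) _ (fun l => (l, x)) ?_ ?_ ?_)) (h1.trans (le_of_eq ?_))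
    · intro l hl
      simp only [Finset.mem_filter, Finset.mem_univ, true_and] at hl
      refine ⟨?_, hl.2.2⟩
      simp only [T, Sum.elim_inl, Sum.elim_inr, Finset.mem_product, Finset.mem_singleton,
        Finset.mem_filter, Finset.mem_univ, true_and, and_true]
      exact ⟨hl.1, hl.2.1⟩
    · exact fun a _ b _ hab => congrArg Prod.fst hab
    · exact fun p hp w h1 h2 h3 => Finset.mem_filter.2 ⟨hp, w, hW w h1, hM w _ h2, h3⟩
    · rw [h3]
      ring
  · intro l
    have h1 := hc4 (Sum.inr (Sum.inr (Sum.inl l)))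
    have h3 : (T (Sum.inr (Sum.inr (Sum.inl l)))).card = G.card := by
      simp only [T, Sum.elim_inl, Sum.elim_inr, Finset.card_product, Finset.card_singleton,
        one_mul]
    refine le_trans (Nat.cast_le.2 (St0A_test (M := M) (pY := pY) (colA := col) _
      (T (Sum.inr (Sum.inr (Sum.inl l)))) _ (fun x => (l, x)) ?_ ?_ ?_)) (h1.trans (le_of_eq ?_))
    · intro x hx
      rw [Finset.mem_filter] at hx
      refine ⟨?_, hx.2⟩
      simp only [T, Sum.elim_inl, Sum.elim_inr, Finset.mem_product, Finset.mem_singleton,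
        true_and]
      exact hx.1
    · exact fun a _ b _ hab => congrArg Prod.snd hab
    · exact fun p hp w h1 h2 h3 => Finset.mem_filter.2 ⟨hp, w, hW w h1, hM w _ h2, h3⟩
    · rw [h3]
      ring
  · intro a x
    have h1 := hc4 (Sum.inr (Sum.inr (Sum.inr (a, x))))
    have h3 : (T (Sum.inr (Sum.inr (Sum.inr (a, x))))).card = s := by
      simp only [T, Sum.elim_inr, Finset.card_product, Finset.card_singleton, mul_one]
      exact hP.cB a
    refine le_trans (Nat.cast_le.2 (St0A_test (M := M) (pY := pY) (colA := col) _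
      (T (Sum.inr (Sum.inr (Sum.inr (a, x))))) _ (fun l => (l, x)) ?_ ?_ ?_))
      (h1.trans (le_of_eq ?_))
    · intro l hl
      simp only [Finset.mem_filter, Finset.mem_univ, true_and] at hl
      refine ⟨?_, hl.2⟩
      simp only [T, Sum.elim_inr, Finset.mem_product, Finset.mem_singleton,
        Finset.mem_filter, Finset.mem_univ, true_and, and_true]
      exact hl.1
    · exact fun a _ b _ hab => congrArg Prod.fst hab
    · exact fun p hp w h1 h2 h3 => Finset.mem_filter.2 ⟨hp, w, hW w h1, hM w _ h2, h3⟩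
    · rw [h3]
      ring

end Pool.Agent.Lib.TriS
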