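import Pool.Agent.Lib.TriS.SDefs
import Pool.Agent.Lib.TriS.Phase

/-!
MODULE St0B (about 230 lines). Phase B of Stage 0.

PROOF. `phase` with `Wt = B`, `Z = Y`, `W = {l | pB l = none}`, `N l = {y | M y l ∧ pY y ≠ none}`, `nd l = {x | A x l ∧ x ∉ rcA l}`, `al y = {x | ∀ a, pY y = some a → x ∉ hub a}`, `F0 = k/2`, `ka = 2/10^27`. `card (N l) = n - card {y | M y l ∧ pY y = none}` (`degSC`), and `rcA l ⊆ {x | A x l}` (`StA.ok`),
`card (rcA l) = card {y | M y l ∧ pY y = none}` (`StA.inj`: `y ↦ colA y l` is injective on that set), so `card (nd l) = n - card (rcA l) = card (N l)`; it is between `n - 1/10^27 k ≥ k/2` (`wB`, `lam`) and `n ≤ k`. `h1`: `nd l \ al y ⊆ hub a`, `≤ r ≤ k/32`. `h2`: `wY`. `h3`: the `y ∈ N l` with `x ∉ al y` are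
in part `a` for the unique `a` with `x ∈ hub a`: `upB`. Tests: `ι = (B × X) ⊕ (B × Fin P × X) ⊕ {y // pY y ≠ none} ⊕ (Fin P × X)` as in Phase A with the roles of `Y` and `B` exchanged. For `y` with `pY y ≠ none`: `x ∈ rcB y ↔ ∃ l ∈ W, y ∈ N l ∧ colB l y = x`.
-/

/-!
MODULE St0B (about 230 lines). Phase B of Stage 0.

PROOF. `phase` with `Wt = B`, `Z = Y`, `W = {l | pB l = none}`, `N l = {y | M y l ∧ pY y ≠ none}`, `nd l = {x | A x l ∧ x ∉ rcA l}`, `al y = {x | ∀ a, pY y = some a → x ∉ hub a}`, `F0 = k/2`, `ka = 2/10^27`. `card (N l) = n - card {y | M y l ∧ pY y = none}` (`degSC`), and `rcA l ⊆ {x | A x l}` (`StA.ok`),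
`card (rcA l) = card {y | M y l ∧ pY y = none}` (`StA.inj`: `y ↦ colA y l` is injective on that set), so `card (nd l) = n - card (rcA l) = card (N l)`; it is between `n - 1/10^27 k ≥ k/2` (`wB`, `lam`) and `n ≤ k`. `h1`: `nd l \ al y ⊆ hub a`, `≤ r ≤ k/32`. `h2`: `wY`. `h3`: the `y ∈ N l` with `x ∉ al y` are
in part `a` for the unique `a` with `x ∈ hub a`: `upB`. Tests: `ι = (B × X) ⊕ (B × Fin P × X) ⊕ {y // pY y ≠ none} ⊕ (Fin P × X)` as in Phase A with the roles of `Y` and `B` exchanged. For `y` with `pY y ≠ none`: `x ∈ rcB y ↔ ∃ l ∈ W, y ∈ N l ∧ colB l y = x`.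
-/

set_option autoImplicit false

open scoped Classical

noncomputable section

namespace Pool.Agent.Lib.TriS

open Pool.Agent.Lib.TriD

private theorem St0B_cardN {X Y B : Type} [Fintype X] [Fintype Y] [Fintype B] {A : X → B → Prop}
    {M : Y → B → Prop} {k c n : ℕ} (hS : DSys A M k c n) {P : ℕ} (pY : Y → Option (Fin P)) (l : B) :
    (Finset.univ.filter fun y => M y l ∧ pY y ≠ none).card +
      (Finset.univ.filter fun y => M y l ∧ pY y = none).card = n := by
  rw [← hS.degSC l, ← Finset.card_filter_add_card_filter_not (s := Finset.univ.filter fun y => M y l)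
    (p := fun y => pY y ≠ none)]
  rw [Finset.filter_filter, Finset.filter_filter]
  simp only [ne_eq, not_not]

private theorem St0B_cardR {X Y B : Type} [Fintype X] [Fintype Y] [Fintype B] {A : X → B → Prop}
    {M : Y → B → Prop} {k : ℕ} {G : Finset X} {P s : ℕ}
    {pY : Y → Option (Fin P)} {pB : B → Option (Fin P)} {hub : Fin P → Finset X} {L : ℝ}
    {colA : Y → B → X} (hA : StA A M k G P s pY pB hub L colA) (l : B) :
    (rcA M pY colA l).card = (Finset.univ.filter fun y => M y l ∧ pY y = none).card := by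
  have h : rcA M pY colA l = (Finset.univ.filter fun y => M y l ∧ pY y = none).image
      (fun y => colA y l) := by
    ext x
    simp only [rcA, Finset.mem_filter, Finset.mem_univ, true_and, Finset.mem_image]
    constructor
    · rintro ⟨y, h1, h2, h3⟩
      exact ⟨y, ⟨h2, h1⟩, h3⟩
    · rintro ⟨y, ⟨h2, h1⟩, h3⟩
      exact ⟨y, h1, h2, h3⟩
  rw [h]
  apply Finset.card_image_of_injOn
  intro y hy y' hy' hyy
  rw [Finset.mem_coe, Finset.mem_filter] at hy hy'
  exact hA.inj y y' l hy.2.2 hy'.2.2 hy.2.1 hy'.2.1 hyy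

private theorem St0B_cardnd {X Y B : Type} [Fintype X] [Fintype Y] [Fintype B] {A : X → B → Prop}
    {M : Y → B → Prop} {k c n : ℕ} (hS : DSys A M k c n) {G : Finset X} {P s : ℕ}
    {pY : Y → Option (Fin P)} {pB : B → Option (Fin P)} {hub : Fin P → Finset X} {L : ℝ}
    {colA : Y → B → X} (hA : StA A M k G P s pY pB hub L colA) (l : B) :
    (Finset.univ.filter fun x => A x l ∧ x ∉ rcA M pY colA l).card +
      (Finset.univ.filter fun y => M y l ∧ pY y = none).card = n := by
  rw [← hS.degSR l, ← Finset.card_filter_add_card_filter_not (s := Finset.univ.filter fun x => A x l)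
    (p := fun x => x ∉ rcA M pY colA l)]
  rw [Finset.filter_filter, Finset.filter_filter, ← St0B_cardR hA l]
  congr 2
  ext x
  simp only [Finset.mem_filter, Finset.mem_univ, true_and, not_not]
  constructor
  · intro hx
    refine ⟨?_, hx⟩
    have hx' := hx
    simp only [rcA, Finset.mem_filter, Finset.mem_univ, true_and] at hx'
    obtain ⟨y, h1, h2, h3⟩ := hx'
    rw [← h3]
    exact hA.ok y l h1 h2
  · exact fun hx => hx.2

private theorem St0B_num {k c n g P s r : ℕ} {L : ℝ} (hN : DNum k c n g P s r L) :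
    10 ^ 100 * L ≤ k ∧ (10 : ℝ) ^ 100 ≤ k ∧ 10 ^ 60 * (P : ℝ) ≤ (k + c : ℝ) := by
  have hL := hN.L1
  have h1 := hN.P1
  have h2 := hN.G1
  have h3 := hN.G2
  have hP : (0 : ℝ) ≤ P := by positivity
  have e1 : (10 : ℝ) ^ 60 * 10 ^ 60 * L ≤ g := by
    refine le_trans ?_ h2
    have : (10 : ℝ) ^ 60 * 10 ^ 60 ≤ 10 ^ 60 * (P : ℝ) :=
      mul_le_mul_of_nonneg_left h1 (by positivity)
    exact mul_le_mul_of_nonneg_right this (by linarith)
  have hg : (1 : ℝ) ≤ g := by
    refine le_trans ?_ e1
    nlinarith
  have e2 : 10 ^ 60 * (P : ℝ) ≤ k := by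
    refine le_trans ?_ h3
    exact le_mul_of_one_le_right (by positivity) hg
  have e3 : (10 : ℝ) ^ 60 * 10 ^ 60 * g ≤ k := by
    refine le_trans ?_ h3
    have : (10 : ℝ) ^ 60 * 10 ^ 60 ≤ 10 ^ 60 * (P : ℝ) :=
      mul_le_mul_of_nonneg_left h1 (by positivity)
    exact mul_le_mul_of_nonneg_right this (by linarith)
  have e4 : 10 ^ 100 * L ≤ k := by nlinarith
  refine ⟨e4, by nlinarith, ?_⟩
  have : (0 : ℝ) ≤ c := by positivity
  linarith

private theorem St0B_iota {k c P b : ℕ} {L : ℝ} {y : ℕ} (hk : (10 : ℝ) ^ 100 ≤ k)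
    (hv : (k : ℝ) + c ≤ Real.exp L) (hb : b ≤ k + c) (hy : y ≤ c)
    (hP : 10 ^ 60 * (P : ℝ) ≤ (k + c : ℝ)) :
    ((b * k + (b * (P * k) + (y + P * k)) : ℕ) : ℝ) ≤ Real.exp (3 * L) := by
  have hc : (0 : ℝ) ≤ c := by positivity
  have hP0 : (0 : ℝ) ≤ P := by positivity
  have hb' : (b : ℝ) ≤ k + c := by exact_mod_cast hb
  have hy' : (y : ℝ) ≤ c := by exact_mod_cast hy
  have hb0 : (0 : ℝ) ≤ b := by positivity
  obtain ⟨v, hvd⟩ : ∃ v : ℝ, v = k + c := ⟨_, rfl⟩
  rw [← hvd] at hv hP hb'
  have hkv : (k : ℝ) ≤ v := by rw [hvd]; linarith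
  have hv2 : (10 : ℝ) ^ 100 ≤ v := hk.trans hkv
  have hyv : (y : ℝ) ≤ v := by rw [hvd]; linarith
  have hk0 : (0 : ℝ) ≤ k := by positivity
  have hv0 : 0 ≤ v := by linarith
  have hv4 : (4 : ℝ) ≤ v := le_trans (by norm_num) hv2
  have e1 : (b : ℝ) * k ≤ v * v := mul_le_mul hb' hkv hk0 hv0
  have hPv : (P : ℝ) ≤ v / 4 := by
    have : (10 : ℝ) ^ 60 * P ≥ 4 * P := by nlinarith
    linarith
  have e2 : (P : ℝ) * k ≤ v / 4 * v := mul_le_mul hPv hkv hk0 (by linarith)
  have e3 : (b : ℝ) * (P * k) ≤ v * (v / 4 * v) :=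
    mul_le_mul hb' e2 (by positivity) hv0
  have e4 : Real.exp (3 * L) = Real.exp L * Real.exp L * Real.exp L := by
    rw [← Real.exp_add, ← Real.exp_add]
    ring_nf
  have e5 : v * v * v ≤ Real.exp L * Real.exp L * Real.exp L :=
    mul_le_mul (mul_le_mul hv hv hv0 (Real.exp_pos _).le) hv hv0 (by positivity)
  rw [e4]
  refine le_trans ?_ e5
  push_cast
  have e6 : 4 * (v * v) ≤ v * v * v := by nlinarith [mul_nonneg hv0 hv0]
  have e7 : 4 * v ≤ v * v := by nlinarith
  nlinarith

private theorem St0B_test {X Y : Type} [Fintype X] [Fintype Y] {S : Finset Y} {x : X}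
    {f : Y × X → Prop} [DecidablePred f] {g : Y → Prop} [DecidablePred g] (h : ∀ y ∈ S, g y → f (y, x)) :
    (S.filter g).card ≤ ((S ×ˢ {x}).filter f).card := by
  refine Finset.card_le_card_of_injOn (fun y => (y, x)) ?_ ?_
  · intro y hy
    rw [Finset.mem_coe, Finset.mem_filter] at hy
    rw [Finset.mem_coe, Finset.mem_filter, Finset.mem_product, Finset.mem_singleton]
    exact ⟨⟨hy.1, rfl⟩, h y hy.1 hy.2⟩
  · intro y _ y' _ hyy
    exact congrArg Prod.fst hyy

private theorem St0B_test2 {X Y : Type} [Fintype X] [Fintype Y] {G : Finset X} {y : Y}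
    {f : Y × X → Prop} [DecidablePred f] {g : X → Prop} [DecidablePred g]
    (h : ∀ x ∈ G, g x → f (y, x)) :
    (G.filter g).card ≤ ((({y} : Finset Y) ×ˢ G).filter f).card := by
  refine Finset.card_le_card_of_injOn (fun x => (y, x)) ?_ ?_
  · intro x hx
    rw [Finset.mem_coe, Finset.mem_filter] at hx
    rw [Finset.mem_coe, Finset.mem_filter, Finset.mem_product, Finset.mem_singleton]
    exact ⟨⟨rfl, hx.1⟩, h x hx.1 hx.2⟩
  · intro x _ x' _ hxx
    exact congrArg Prod.snd hxx

theorem st0B {X Y B : Type} [Fintype X] [Fintype Y] [Fintype B] (A : X → B → Prop)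
    (M : Y → B → Prop) (k c n : ℕ) (hS : DSys A M k c n) (G : Finset X) (P s r : ℕ)
    (pY : Y → Option (Fin P)) (pB : B → Option (Fin P)) (hub : Fin P → Finset X) (L : ℝ)
    (hN : DNum k c n G.card P s r L) (hP : PartSys A M k G P s r pY pB hub (1 / 10 ^ 27))
    (colA : Y → B → X) (hA : StA A M k G P s pY pB hub L colA) :
    ∃ colB : B → Y → X, StB A M k G P s pY pB hub L colA colB := by
  obtain ⟨hk1, hk2, hk3⟩ := St0B_num hN
  have hL := hN.L1
  have hcX : Fintype.card X = k := hS.cR
  have hcY : Fintype.card Y = c := hS.cC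
  have hcB : Fintype.card B ≤ k + c := by have := hS.cS; omega
  have hkpos : 0 < k := by
    have : (0 : ℝ) < k := by linarith [show (0 : ℝ) < 10 ^ 100 by positivity]
    exact_mod_cast this
  have hne : Nonempty X := by
    rw [← Fintype.card_pos_iff, hcX]
    exact hkpos
  have hkv : (k : ℝ) ≤ k + c := by
    have : (0 : ℝ) ≤ c := by positivity
    linarith
  have hnk : (n : ℝ) ≤ k := by exact_mod_cast hN.nk
  have hcN := fun l => St0B_cardN hS pY l
  have hcnd := fun l => St0B_cardnd hS hA l
  have hNn : ∀ l, ((Finset.univ.filter fun y => M y l ∧ pY y ≠ none).card : ℝ) ≤ k := by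
    intro l
    refine le_trans ?_ hnk
    have := hcN l
    exact_mod_cast (by omega : (Finset.univ.filter fun y => M y l ∧ pY y ≠ none).card ≤ n)
  let T : (B × X) ⊕ ((B × Fin P × X) ⊕ ({y // pY y ≠ none} ⊕ (Fin P × X))) → Finset (Y × X) :=
    Sum.elim (fun q => (Finset.univ.filter fun y => M y q.1 ∧ pY y ≠ none) ×ˢ {q.2})
      (Sum.elim (fun q => (Finset.univ.filter fun y => M y q.1 ∧ pY y = some q.2.1) ×ˢ {q.2.2})
        (Sum.elim (fun q => {q.1} ×ˢ G)
          (fun q => (Finset.univ.filter fun y => pY y = some q.1) ×ˢ {q.2})))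
  obtain ⟨col, hc1, hc2, hc3, hc4⟩ := phase (Wt := B) (Z := Y) (X := X)
    (ι := (B × X) ⊕ ((B × Fin P × X) ⊕ ({y // pY y ≠ none} ⊕ (Fin P × X)))) hne
    (Finset.univ.filter fun l => pB l = none)
    (fun l => Finset.univ.filter fun y => M y l ∧ pY y ≠ none)
    (fun l => Finset.univ.filter fun x => A x l ∧ x ∉ rcA M pY colA l)
    (fun y => Finset.univ.filter fun x => ∀ a, pY y = some a → x ∉ hub a)
    ((k : ℝ) / 2) (2 / 10 ^ 27) L T hL
    (by
      intro l _
      have h1 := hcN l
      have h2 := hcnd l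
      omega)
    (by
      intro l _
      have h1 := hcN l
      have h2 := hP.wB l
      have h3 := hN.lam
      have h4 : ((Finset.univ.filter fun y => M y l ∧ pY y ≠ none).card : ℝ) +
        ((Finset.univ.filter fun y => M y l ∧ pY y = none).card : ℝ) = n := by exact_mod_cast h1
      have h5 : (0 : ℝ) < k := by exact_mod_cast hkpos
      have h6 : (1 : ℝ) / 10 ^ 27 * k ≤ 1 / 4 * k :=
        mul_le_mul_of_nonneg_right (by norm_num) h5.le
      have h7 : (1 : ℝ) / 10 ^ 30 * k ≤ 1 / 4 * k :=
        mul_le_mul_of_nonneg_right (by norm_num) h5.le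
      linarith)
    (by
      intro l _
      have := hNn l
      linarith)
    (by positivity) (by norm_num)
    (by linarith)
    (by
      intro l _ y hy
      simp only [Finset.mem_filter, Finset.mem_univ, true_and] at hy
      obtain ⟨a, ha⟩ := Option.ne_none_iff_exists'.1 hy.2
      have h1 : ((Finset.univ.filter fun x => A x l ∧ x ∉ rcA M pY colA l) \
          (Finset.univ.filter fun x => ∀ a, pY y = some a → x ∉ hub a)) ⊆ hub a := by
        intro x hx
        simp only [Finset.mem_sdiff, Finset.mem_filter, Finset.mem_univ, true_and, not_forall,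
          not_not] at hx
        obtain ⟨-, b, hb, hb'⟩ := hx
        rw [ha, Option.some_inj] at hb
        rw [hb]
        exact hb'
      have h2 : ((((Finset.univ.filter fun x => A x l ∧ x ∉ rcA M pY colA l) \
          (Finset.univ.filter fun x => ∀ a, pY y = some a → x ∉ hub a)).card : ℕ) : ℝ) ≤ r := by
        rw [← hP.hubc a]
        exact_mod_cast Finset.card_le_card h1
      refine h2.trans ?_
      have := hN.r2
      linarith)
    (by
      intro y
      have h1 := hP.wY y
      refine le_trans ?_ (h1.trans (le_of_eq (by ring)))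
      rw [Nat.cast_le]
      refine Finset.card_le_card ?_
      intro l hl
      simp only [Finset.mem_filter, Finset.mem_univ, true_and] at hl ⊢
      exact ⟨hl.2.1, hl.1⟩)
    (by
      intro l _ x _
      by_cases hx : ∃ a, x ∈ hub a
      · obtain ⟨a, ha⟩ := hx
        have h1 := hP.upB l a
        have h5 : (0 : ℝ) < k := by exact_mod_cast hkpos
        have h6 : (1 : ℝ) / 10 ^ 27 * k ≤ 1 / 32 * k :=
          mul_le_mul_of_nonneg_right (by norm_num) h5.le
        refine le_trans ?_ (h1.trans (h6.trans (le_of_eq (by ring))))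
        rw [Nat.cast_le]
        refine Finset.card_le_card ?_
        intro y hy
        simp only [Finset.mem_filter, Finset.mem_univ, true_and, not_forall, not_not] at hy ⊢
        obtain ⟨⟨h2, -⟩, b, hb, hb'⟩ := hy
        refine ⟨h2, ?_⟩
        by_cases hab : b = a
        · rw [hb, hab]
        · exact absurd ha (Finset.disjoint_left.1 (hP.hubd b a hab) hb')
      · rw [Finset.filter_false_of_mem, Finset.card_empty, Nat.cast_zero]
        · positivity
        · intro y _ h
          simp only [Finset.mem_filter, Finset.mem_univ, true_and, not_forall, not_not] at h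
          obtain ⟨b, -, hb'⟩ := h
          exact hx ⟨b, hb'⟩)
    (by
      rw [Fintype.card_sum, Fintype.card_sum, Fintype.card_sum, Fintype.card_prod,
        Fintype.card_prod, Fintype.card_prod, hcX, Fintype.card_fin]
      exact St0B_iota hk2 hN.vL hcB
        ((Fintype.card_subtype_le _).trans hcY.le) hk3)
    (by
      refine le_trans ?_ hN.vL
      have h1 : (Finset.univ.filter fun l => pB l = none).card ≤ Fintype.card B :=
        Finset.card_le_univ _
      exact_mod_cast h1.trans hcB)
    (by
      rw [hcX]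
      exact hkv.trans hN.vL)
    (by
      rintro (q | q | q | q) p hp p' hp'
      · simp only [T, Sum.elim_inl, Finset.mem_product, Finset.mem_singleton] at hp hp'
        exact Or.inr (hp.2.trans hp'.2.symm)
      · simp only [T, Sum.elim_inl, Sum.elim_inr, Finset.mem_product,
          Finset.mem_singleton] at hp hp'
        exact Or.inr (hp.2.trans hp'.2.symm)
      · simp only [T, Sum.elim_inl, Sum.elim_inr, Finset.mem_product,
          Finset.mem_singleton] at hp hp'
        exact Or.inl (hp.1.trans hp'.1.symm)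
      · simp only [T, Sum.elim_inr, Finset.mem_product,
          Finset.mem_singleton] at hp hp'
        exact Or.inr (hp.2.trans hp'.2.symm))
  refine ⟨col, ?_⟩
  have hrc : ∀ y x, x ∈ rcB M pB col y → pY y ≠ none →
      ∃ w ∈ Finset.univ.filter fun l => pB l = none,
        y ∈ (Finset.univ.filter fun y => M y w ∧ pY y ≠ none) ∧ col w y = x := by
    intro y x hx hy
    simp only [rcB, Finset.mem_filter, Finset.mem_univ, true_and] at hx
    obtain ⟨l, h1, h2, h3⟩ := hx
    refine ⟨l, ?_, ?_, h3⟩
    · simp only [Finset.mem_filter, Finset.mem_univ, true_and]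
      exact h1
    · simp only [Finset.mem_filter, Finset.mem_univ, true_and]
      exact ⟨h2, hy⟩
  refine
    { bij := ?_
      hb := ?_
      inj := ?_
      t1 := ?_
      t2 := ?_
      t3 := ?_
      t4 := ?_ }
  · intro l hl
    have h1 := hc1 l (by simp only [Finset.mem_filter, Finset.mem_univ, true_and]; exact hl)
    have e1 : ((Finset.univ.filter fun y => M y l ∧ pY y ≠ none : Finset Y) : Set Y) =
        {y | M y l ∧ pY y ≠ none} := by
      ext y
      simp
    have e2 : ((Finset.univ.filter fun x => A x l ∧ x ∉ rcA M pY colA l : Finset X) : Set X) =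
        {x | A x l ∧ x ∉ rcA M pY colA l} := by
      ext x
      simp
    rw [← e1, ← e2]
    exact h1
  · intro y l a hl hM hy
    have h1 := hc2 l (by simp only [Finset.mem_filter, Finset.mem_univ, true_and]; exact hl) y
      (by
        simp only [Finset.mem_filter, Finset.mem_univ, true_and]
        exact ⟨hM, by rw [hy]; exact Option.some_ne_none a⟩)
    simp only [Finset.mem_filter, Finset.mem_univ, true_and] at h1
    exact h1 a hy
  · intro y l l' hy hl hl' hM hM' he
    by_contra hll
    exact hc3 l (by simp only [Finset.mem_filter, Finset.mem_univ, true_and]; exact hl) l'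
      (by simp only [Finset.mem_filter, Finset.mem_univ, true_and]; exact hl') hll y
      (by
        simp only [Finset.mem_filter, Finset.mem_univ, true_and]
        exact ⟨hM, hy⟩)
      (by
        simp only [Finset.mem_filter, Finset.mem_univ, true_and]
        exact ⟨hM', hy⟩) he
  · intro l x
    have h1 := hc4 (Sum.inl (l, x))
    have e0 : T (Sum.inl (l, x)) =
      (Finset.univ.filter fun y => M y l ∧ pY y ≠ none) ×ˢ {x} := rfl
    rw [e0] at h1
    have h2 := St0B_test (S := Finset.univ.filter fun y => M y l ∧ pY y ≠ none) (x := x)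
      (f := fun p => ∃ w ∈ Finset.univ.filter fun l => pB l = none,
        p.1 ∈ (Finset.univ.filter fun y => M y w ∧ pY y ≠ none) ∧ col w p.1 = p.2)
      (g := fun y => x ∈ rcB M pB col y)
      (by
        intro y hy hx
        simp only [Finset.mem_filter, Finset.mem_univ, true_and] at hy
        exact hrc y x hx hy.2)
    have e3 : (Finset.univ.filter fun y => M y l ∧ pY y ≠ none ∧ x ∈ rcB M pB col y) =
        (Finset.univ.filter fun y => M y l ∧ pY y ≠ none).filter
          fun y => x ∈ rcB M pB col y := by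
      rw [Finset.filter_filter]
      refine Finset.filter_congr ?_
      intro y _
      exact and_assoc.symm
    rw [e3]
    refine le_trans (Nat.cast_le.2 (le_trans (le_of_eq (by congr)) (h2.trans (le_of_eq (by congr))))) (h1.trans ?_)
    rw [Finset.card_product, Finset.card_singleton, mul_one]
    have h3 := hNn l
    have h4 := mul_le_mul_of_nonneg_left h3 (show (0 : ℝ) ≤ 8 * (2 / 10 ^ 27) by positivity)
    refine (add_le_add_left h4 (4 * L)).trans (le_of_eq ?_)
    ring
  · intro l a x
    have h1 := hc4 (Sum.inr (Sum.inl (l, a, x)))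
    have e0 : T (Sum.inr (Sum.inl (l, a, x))) =
      (Finset.univ.filter fun y => M y l ∧ pY y = some a) ×ˢ {x} := rfl
    rw [e0] at h1
    have h2 := St0B_test (S := Finset.univ.filter fun y => M y l ∧ pY y = some a) (x := x)
      (f := fun p => ∃ w ∈ Finset.univ.filter fun l => pB l = none,
        p.1 ∈ (Finset.univ.filter fun y => M y w ∧ pY y ≠ none) ∧ col w p.1 = p.2)
      (g := fun y => x ∈ rcB M pB col y)
      (by
        intro y hy hx
        simp only [Finset.mem_filter, Finset.mem_univ, true_and] at hy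
        exact hrc y x hx (by rw [hy.2]; exact Option.some_ne_none a))
    have e3 : (Finset.univ.filter fun y => M y l ∧ pY y = some a ∧ x ∈ rcB M pB col y) =
        (Finset.univ.filter fun y => M y l ∧ pY y = some a).filter
          fun y => x ∈ rcB M pB col y := by
      rw [Finset.filter_filter]
      refine Finset.filter_congr ?_
      intro y _
      exact and_assoc.symm
    rw [e3]
    refine le_trans (Nat.cast_le.2 (le_trans (le_of_eq (by congr)) (h2.trans (le_of_eq (by congr))))) (h1.trans ?_)
    rw [Finset.card_product, Finset.card_singleton, mul_one]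
    refine le_of_eq ?_
    ring
  · intro y hy
    have h1 := hc4 (Sum.inr (Sum.inr (Sum.inl ⟨y, hy⟩)))
    have e0 : T (Sum.inr (Sum.inr (Sum.inl ⟨y, hy⟩))) = {y} ×ˢ G := rfl
    rw [e0] at h1
    have h2 := St0B_test2 (G := G) (y := y)
      (f := fun p => ∃ w ∈ Finset.univ.filter fun l => pB l = none,
        p.1 ∈ (Finset.univ.filter fun y => M y w ∧ pY y ≠ none) ∧ col w p.1 = p.2)
      (g := fun x => x ∈ rcB M pB col y)
      (fun x _ hx => hrc y x hx hy)
    refine le_trans (Nat.cast_le.2 (le_trans (le_of_eq (by congr)) (h2.trans (le_of_eq (by congr))))) (h1.trans ?_)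
    rw [Finset.card_product, Finset.card_singleton, one_mul]
    refine le_of_eq ?_
    ring
  · intro a x
    have h1 := hc4 (Sum.inr (Sum.inr (Sum.inr (a, x))))
    have e0 : T (Sum.inr (Sum.inr (Sum.inr (a, x)))) =
      (Finset.univ.filter fun y => pY y = some a) ×ˢ {x} := rfl
    rw [e0] at h1
    have h2 := St0B_test (S := Finset.univ.filter fun y => pY y = some a) (x := x)
      (f := fun p => ∃ w ∈ Finset.univ.filter fun l => pB l = none,
        p.1 ∈ (Finset.univ.filter fun y => M y w ∧ pY y ≠ none) ∧ col w p.1 = p.2)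
      (g := fun y => x ∈ rcB M pB col y)
      (by
        intro y hy hx
        simp only [Finset.mem_filter, Finset.mem_univ, true_and] at hy
        exact hrc y x hx (by rw [hy]; exact Option.some_ne_none a))
    rw [Finset.filter_filter] at h2
    refine le_trans (Nat.cast_le.2 (le_trans (le_of_eq (by congr)) (h2.trans (le_of_eq (by congr))))) (h1.trans ?_)
    rw [Finset.card_product, Finset.card_singleton, mul_one, hP.cY a]
    refine le_of_eq ?_
    ring

end Pool.Agent.Lib.TriS
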