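import Pool.Agent.Lib.TriS.SDefs

/-!
MODULE SurvB (about 200 lines). The survivors' instance, side of the blocks.

PROOF. `nb (tr sH) v` = surviving `y` with `M y v`. `cU`: `cB`. `deg`: `card {y | M y v ∧ pY y ≠ none} = n - card {y | M y v ∧ pY y = none}` (`degSC`), `card (snv v) = n - card (rcA v)` (`degSR`, `rcA v ⊆ {x | A x v}` by `StA.ok`), `card (rcA v) = card {y | M y v ∧ pY y = none}` (`StA.inj`).
`hubn`: `hubA`, `StA.hb`. `miss`: `(snv v)ᶜ ⊆ {¬ A x v} ∪ rcA v`: `≤ (k - n) + 1/10^27 k` (`wB`). `missG`: `GA` and `StA.t3`. `bad`: `x ∉ snu u ↔ x ∈ rcB u`: `StB.t1`. `inn`: `inB`. `badin`: `StB.t2`, `inB`: `≤ 16/10^27 (1 + 1/10^27) k/P + 4 L ≤ 1/10^25 k/P`.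
`hit`: `PartSys.hit` and `StA.t4`: `≤ 1/10^27 s + 16/10^27 s + 4 L ≤ 1/10^25 s`. (Numbers as in SurvY.)
-/

set_option autoImplicit false

open scoped Classical

noncomputable section

namespace Pool.Agent.Lib.TriS

open Pool.Agent.Lib.TriD

section svB

variable {X Y B : Type} {P : ℕ}

private theorem svB_nb [Fintype Y] [Fintype B] (M : Y → B → Prop) (pY : Y → Option (Fin P))
    (pB : B → Option (Fin P)) (u : {l // pB l ≠ none}) (Q : {y // pY y ≠ none} → Prop)
    [DecidablePred Q] (Q' : Y → Prop) [DecidablePred Q']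
    (h : ∀ y, Q' y ↔ M y u.1 ∧ ∃ h : pY y ≠ none, Q ⟨y, h⟩) :
    ((nb (tr (sH M pY pB)) u).filter Q).card = (Finset.univ.filter Q').card := by
  rw [← Finset.card_map (Function.Embedding.subtype _)]
  congr 1
  ext y
  simp only [Finset.mem_map, Finset.mem_filter, mem_nb, mem_tr, sH, Finset.mem_univ, true_and,
    Function.Embedding.coe_subtype, h y]
  constructor
  · rintro ⟨⟨y', hy'⟩, h1, rfl⟩
    exact ⟨h1.1, hy', h1.2⟩
  · rintro ⟨h1, h2, h3⟩
    exact ⟨⟨y, h2⟩, ⟨h1, h3⟩, rfl⟩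

private theorem svB_sub [Fintype B] (pB : B → Option (Fin P)) (Q : {l // pB l ≠ none} → Prop)
    [DecidablePred Q] (Q' : B → Prop) [DecidablePred Q']
    (h : ∀ l, Q' l ↔ ∃ h : pB l ≠ none, Q ⟨l, h⟩) :
    (Finset.univ.filter Q).card = (Finset.univ.filter Q').card := by
  rw [← Finset.card_map (Function.Embedding.subtype _)]
  congr 1
  ext l
  simp only [Finset.mem_map, Finset.mem_filter, Finset.mem_univ, true_and,
    Function.Embedding.coe_subtype, h l]
  constructor
  · rintro ⟨⟨l', hl'⟩, h1, rfl⟩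
    exact ⟨hl', h1⟩
  · rintro ⟨h2, h3⟩
    exact ⟨⟨l, h2⟩, h3, rfl⟩

private theorem svB_part {T : Type} (p : T → Option (Fin P)) (y : T) (a : Fin P) :
    p y = some a ↔ ∃ h : p y ≠ none, partOf p ⟨y, h⟩ = a := by
  constructor
  · intro h
    have h1 : p y ≠ none := by rw [h]; exact Option.some_ne_none a
    exact ⟨h1, (partOf_eq p ⟨y, h1⟩ a).2 h⟩
  · rintro ⟨h, h1⟩
    exact (partOf_eq p ⟨y, h⟩ a).1 h1

private theorem svB_snu [Fintype X] (M : Y → B → Prop) (pY : Y → Option (Fin P))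
    (pB : B → Option (Fin P)) (colB : B → Y → X) (u : {y // pY y ≠ none}) (x : X) :
    x ∉ snu M pY pB colB u ↔ x ∈ rcB M pB colB u.1 := by
  unfold snu
  rw [Finset.mem_sdiff, not_and_not_right]
  exact ⟨fun h => h (Finset.mem_univ _), fun h _ => h⟩

private theorem svB_snv [Fintype X] (A : X → B → Prop) (M : Y → B → Prop)
    (pY : Y → Option (Fin P)) (pB : B → Option (Fin P)) (colA : Y → B → X)
    (v : {l // pB l ≠ none}) (x : X) :
    x ∉ snv A M pY pB colA v ↔ ¬ A x v.1 ∨ x ∈ rcA M pY colA v.1 := by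
  unfold snv
  rw [Finset.mem_sdiff, Finset.mem_filter]
  constructor
  · intro h
    by_cases h1 : A x v.1
    · right
      by_contra h2
      exact h ⟨⟨Finset.mem_univ _, h1⟩, h2⟩
    · exact Or.inl h1
  · rintro (h | h) ⟨⟨_, h1⟩, h2⟩
    · exact h h1
    · exact h2 h

private theorem svB_or {T : Type} (S : Finset T) (T0 T1 T2 : T → Prop) [DecidablePred T0]
    [DecidablePred T1] [DecidablePred T2] (h : ∀ l, T0 l → T1 l ∨ T2 l) :
    ((S.filter T0).card : ℝ) ≤ ((S.filter T1).card : ℝ) + ((S.filter T2).card : ℝ) := by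
  have h1 : S.filter T0 ⊆ S.filter T1 ∪ S.filter T2 := by
    intro l hl
    rw [Finset.mem_union, Finset.mem_filter, Finset.mem_filter]
    rw [Finset.mem_filter] at hl
    exact (h l hl.2).imp (fun h => ⟨hl.1, h⟩) fun h => ⟨hl.1, h⟩
  exact_mod_cast (Finset.card_le_card h1).trans (Finset.card_union_le _ _)

private theorem svB_memrc [Fintype X] (M : Y → B → Prop) (pY : Y → Option (Fin P))
    (colA : Y → B → X) (l : B) (x : X) :
    x ∈ rcA M pY colA l ↔ ∃ y, pY y = none ∧ M y l ∧ colA y l = x := by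
  unfold rcA
  simp

end svB

theorem survB {X Y B : Type} [Fintype X] [Fintype Y] [Fintype B] (A : X → B → Prop)
    (M : Y → B → Prop) (k c n : ℕ) (hS : DSys A M k c n) (G : Finset X) (P s r : ℕ)
    (pY : Y → Option (Fin P)) (pB : B → Option (Fin P)) (hub : Fin P → Finset X) (L : ℝ)
    (hN : DNum k c n G.card P s r L) (hP : PartSys A M k G P s r pY pB hub (1 / 10 ^ 27))
    (colA : Y → B → X) (hA : StA A M k G P s pY pB hub L colA) (colB : B → Y → X)
    (hB : StB A M k G P s pY pB hub L colA colB) :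
    SSide (tr (sH M pY pB)) (snv A M pY pB colA) (snu M pY pB colB) P (partOf pB) (partOf pY) hub G
      s (1 / 10 ^ 25) := by
  have hk : (Fintype.card X : ℝ) = k := by rw [hS.cR]
  have hL := hN.L1
  have hP1 := hN.P1
  have hP0 : (0 : ℝ) < P := lt_of_lt_of_le (by norm_num) hP1
  have hP1' : (1 : ℝ) ≤ P := le_trans (by norm_num) hP1
  have hL0 : (0 : ℝ) ≤ L := le_trans zero_le_one hL
  have hg0 : (0 : ℝ) ≤ G.card := Nat.cast_nonneg _
  have hk0 : (0 : ℝ) ≤ k := Nat.cast_nonneg _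
  have hLG : 10 ^ 60 * L ≤ G.card := by
    refine le_trans ?_ hN.G1
    rw [mul_assoc]
    exact mul_le_mul_of_nonneg_left (le_mul_of_one_le_left hL0 hP1') (by norm_num)
  have hgkP : 10 ^ 60 * (G.card : ℝ) ≤ (k : ℝ) / P := by
    rw [le_div_iff₀ hP0]
    refine le_trans (le_of_eq ?_) hN.G2
    ring
  have hLkP : 10 ^ 60 * L ≤ (k : ℝ) / P := by
    exact le_trans hLG (le_trans (le_mul_of_one_le_left hg0 (by norm_num)) hgkP)
  have hkP : (k : ℝ) / P ≤ k := div_le_self hk0 hP1'
  have hLk : 10 ^ 60 * L ≤ k := hLkP.trans hkP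
  have hcardW : ∀ u : {l // pB l ≠ none}, (rcA M pY colA u.1).card =
      (Finset.univ.filter fun y => M y u.1 ∧ pY y = none).card := by
    intro u
    have h1 : rcA M pY colA u.1 =
        (Finset.univ.filter fun y => M y u.1 ∧ pY y = none).image fun y => colA y u.1 := by
      ext x
      rw [svB_memrc]
      simp only [Finset.mem_filter, Finset.mem_univ, true_and, Finset.mem_image]
      constructor
      · rintro ⟨l, h1, h2, h3⟩
        exact ⟨l, ⟨h2, h1⟩, h3⟩
      · rintro ⟨l, ⟨h2, h1⟩, h3⟩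
        exact ⟨l, h1, h2, h3⟩
    rw [h1, Finset.card_image_of_injOn]
    intro l hl l' hl' he
    rw [Finset.mem_coe, Finset.mem_filter] at hl hl'
    exact hA.inj l l' u.1 hl.2.2 hl'.2.2 hl.2.1 hl'.2.1 he
  refine ⟨?_, ?_, ?_, ?_, ?_, ?_, ?_, ?_, ?_⟩
  · intro a
    rw [svB_sub pB (fun u => partOf pB u = a) (fun l => pB l = some a)
      fun l => svB_part pB l a]
    exact hP.cB a
  · intro u
    have h1 : (nb (tr (sH M pY pB)) u).card =
        (Finset.univ.filter fun y => M y u.1 ∧ pY y ≠ none).card := by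
      rw [← Finset.filter_true (s := nb (tr (sH M pY pB)) u)]
      refine svB_nb M pY pB u (fun _ => True) (fun y => M y u.1 ∧ pY y ≠ none) fun y => ?_
      constructor
      · rintro ⟨h2, h3⟩
        exact ⟨h2, h3, trivial⟩
      · rintro ⟨h2, h3, _⟩
        exact ⟨h2, h3⟩
    have h2 : (Finset.univ.filter fun y => M y u.1 ∧ pY y = none).card +
        (Finset.univ.filter fun y => M y u.1 ∧ pY y ≠ none).card = n := by
      rw [← hS.degSC u.1, ← Finset.card_filter_add_card_filter_not (s :=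
        Finset.univ.filter fun y => M y u.1) (fun y => pY y = none), Finset.filter_filter,
        Finset.filter_filter]
    have h4 : rcA M pY colA u.1 ⊆ Finset.univ.filter fun x => A x u.1 := by
      intro x hx
      rw [svB_memrc] at hx
      obtain ⟨y, h5, h6, h7⟩ := hx
      rw [Finset.mem_filter, ← h7]
      exact ⟨Finset.mem_univ _, hA.ok y u.1 h5 h6⟩
    have h3 : (snv A M pY pB colA u).card + (rcA M pY colA u.1).card = n := by
      rw [← hS.degSR u.1]
      exact Finset.card_sdiff_add_card_eq_card h4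
    rw [hcardW] at h3
    rw [h1]
    omega
  · intro u x hx
    by_contra h
    rw [svB_snv, svB_memrc] at h
    rcases h with h | h
    · exact h (hP.hubA u.1 (partOf pB u) (partOf_spec pB u) x hx)
    obtain ⟨y, h1, h2, h3⟩ := h
    have h4 := hA.hb y u.1 (partOf pB u) h1 h2 (partOf_spec pB u)
    rw [h3] at h4
    exact h4 hx
  · intro u
    have h1 := hP.wB u.1
    rw [← hcardW u] at h1
    have h2 : (snv A M pY pB colA u)ᶜ ⊆
        (Finset.univ.filter fun x => ¬ A x u.1) ∪ rcA M pY colA u.1 := by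
      intro x hx
      rw [Finset.mem_compl, svB_snv] at hx
      rw [Finset.mem_union, Finset.mem_filter]
      exact hx.imp (fun h => ⟨Finset.mem_univ _, h⟩) id
    have h3 : (Finset.univ.filter fun x => A x u.1).card +
        (Finset.univ.filter fun x => ¬ A x u.1).card = k := by
      rw [Finset.card_filter_add_card_filter_not, Finset.card_univ, hS.cR]
    rw [hS.degSR] at h3
    have h4 : (n : ℝ) + ((Finset.univ.filter fun x => ¬ A x u.1).card : ℝ) = k := by
      exact_mod_cast h3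
    have h5 : (((snv A M pY pB colA u)ᶜ).card : ℝ) ≤
        ((Finset.univ.filter fun x => ¬ A x u.1).card : ℝ) + ((rcA M pY colA u.1).card : ℝ) := by
      exact_mod_cast (Finset.card_le_card h2).trans (Finset.card_union_le _ _)
    have h6 := hN.lam
    rw [hk]
    norm_num at h1 h6 ⊢
    linarith
  · intro u
    have h1 : G \ snv A M pY pB colA u =
        G.filter fun x => ¬ A x u.1 ∨ x ∈ rcA M pY colA u.1 := by
      ext x
      rw [Finset.mem_sdiff, Finset.mem_filter, svB_snv]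
    rw [h1]
    refine (svB_or G _ (fun x => ¬ A x u.1) (fun x => x ∈ rcA M pY colA u.1)
      fun x hx => hx).trans ?_
    have h2 := hA.t3 u.1
    have h3 := hP.GA u.1
    norm_num at hLG h2 h3 ⊢
    linarith
  · intro u x
    rw [svB_nb M pY pB u (fun v => x ∉ snu M pY pB colB v)
      (fun y => (M y u.1 ∧ pY y ≠ none) ∧ x ∈ rcB M pB colB y) fun y => by
        constructor
        · rintro ⟨⟨h1, h2⟩, h3⟩
          exact ⟨h1, h2, (svB_snu M pY pB colB ⟨y, h2⟩ x).2 h3⟩
        · rintro ⟨h1, h2, h3⟩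
          exact ⟨⟨h1, h2⟩, (svB_snu M pY pB colB ⟨y, h2⟩ x).1 h3⟩]
    have h2 : ((Finset.univ.filter fun y =>
        (M y u.1 ∧ pY y ≠ none) ∧ x ∈ rcB M pB colB y).card : ℝ) ≤ 16 / 10 ^ 27 * k + 4 * L := by
      refine le_trans (le_of_eq ?_) (hB.t1 u.1 x)
      congr 2
      ext l
      simp only [Finset.mem_filter, Finset.mem_univ, true_and, and_assoc]
    rw [hk]
    norm_num at hLk h2 ⊢
    linarith
  · intro u a
    rw [svB_nb M pY pB u (fun v => partOf pY v = a) (fun y => M y u.1 ∧ pY y = some a) fun y => by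
      rw [svB_part pY y a], hk]
    refine (hP.inB u.1 u.2 a).trans ?_
    exact mul_le_mul_of_nonneg_right (by norm_num) (div_nonneg hk0 hP0.le)
  · intro u x hx
    rw [svB_nb M pY pB u (fun v => partOf pY v = partOf pB u ∧ x ∉ snu M pY pB colB v)
      (fun y => (M y u.1 ∧ pY y = some (partOf pB u)) ∧ x ∈ rcB M pB colB y)
      fun y => by
        constructor
        · rintro ⟨⟨h1, h2⟩, h3⟩
          obtain ⟨h4, h5⟩ := (svB_part pY y _).1 h2
          exact ⟨h1, h4, h5, (svB_snu M pY pB colB ⟨y, h4⟩ x).2 h3⟩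
        · rintro ⟨h1, h2, h3, h4⟩
          exact ⟨⟨h1, (svB_part pY y _).2 ⟨h2, h3⟩⟩, (svB_snu M pY pB colB ⟨y, h2⟩ x).1 h4⟩]
    have h2 : ((Finset.univ.filter fun y =>
        (M y u.1 ∧ pY y = some (partOf pB u)) ∧ x ∈ rcB M pB colB y).card : ℝ) ≤
        16 / 10 ^ 27 * ((Finset.univ.filter fun y =>
          M y u.1 ∧ pY y = some (partOf pB u)).card : ℝ) + 4 * L := by
      refine le_trans (le_of_eq ?_) (hB.t2 u.1 (partOf pB u) x)
      congr 2
      ext l
      simp only [Finset.mem_filter, Finset.mem_univ, true_and, and_assoc]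
    have h3 := (abs_le.1 (hP.inB u.1 u.2 (partOf pB u))).2
    have h4 : (0 : ℝ) ≤ (k : ℝ) / P := div_nonneg hk0 hP0.le
    rw [hk]
    norm_num at hLkP h2 h3 ⊢
    linarith
  · intro a x hx
    rw [svB_sub pB (fun u => partOf pB u = a ∧ x ∉ snv A M pY pB colA u)
      (fun l => pB l = some a ∧ (¬ A x l ∨ x ∈ rcA M pY colA l)) fun l => by
        constructor
        · rintro ⟨h1, h2⟩
          obtain ⟨h3, h4⟩ := (svB_part pB l a).1 h1
          exact ⟨h3, h4, (svB_snv A M pY pB colA ⟨l, h3⟩ x).2 h2⟩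
        · rintro ⟨h1, h2, h3⟩
          exact ⟨(svB_part pB l a).2 ⟨h1, h2⟩, (svB_snv A M pY pB colA ⟨l, h1⟩ x).1 h3⟩]
    refine (svB_or Finset.univ _ (fun l => pB l = some a ∧ ¬ A x l)
      (fun l => pB l = some a ∧ x ∈ rcA M pY colA l) fun l hl =>
        hl.2.imp (fun h => ⟨hl.1, h⟩) fun h => ⟨hl.1, h⟩).trans ?_
    have h3 := hP.hit x hx a
    have h4 := hA.t4 a x
    have h1 := hN.s3
    have h2 : 10 ^ 60 * L ≤ s := by
      refine le_trans ?_ h1
      rw [mul_assoc]
      exact mul_le_mul_of_nonneg_left (le_mul_of_one_le_left hL0 (one_le_pow₀ hP1'))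
        (by norm_num)
    norm_num at h2 h3 h4 ⊢
    linarith

end Pool.Agent.Lib.TriS
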