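import Pool.Agent.Lib.TriS.SDefs

/-!
MODULE SurvBal (about 170 lines). Every colour is needed by as many surviving points as surviving blocks.

PROOF. Fix `x`. `w = card {y | pY y = none}`, `β = card {y | pY y ≠ none ∧ x ∈ rcB y}`.
(1) `card {l | x ∈ rcA l} = w`: for `y` with `pY y = none` there is exactly one `l` with `M y l`, `colA y l = x` (`StA.bij`); `y ↦ l` is a bijection onto `{l | x ∈ rcA l}` (injective by `StA.inj`).
(2) `card {l | pB l = none ∧ A x l ∧ x ∉ rcA l} = β`: for such `l` there is exactly one `y` with `M y l`, `pY y ≠ none`, `colB l y = x` (`StB.bij`); `l ↦ y` is a bijection onto `{y | pY y ≠ none ∧ x ∈ rcB y}` (injective by `StB.inj`; onto: `x ∈ rcB y` gives `l` with `pB l = none`, `M y l`, `colB l y = x`, and then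
`A x l`, `x ∉ rcA l` by `StB.bij.mapsTo`).
`card (wt snu x) = card {y | pY y ≠ none} - β = c - w - β` (`cC`). `card (wt snv x) = card {l | pB l ≠ none ∧ A x l ∧ x ∉ rcA l} = card {l | A x l ∧ x ∉ rcA l} - β = (c - w) - β` (`degR`: `card {l | A x l} = c`; `x ∈ rcA l → A x l` by `StA.ok`, so `card {l | A x l ∧ x ∉ rcA l} = c - w`).
-/

set_option autoImplicit false

open scoped Classical

noncomputable section

namespace Pool.Agent.Lib.TriS

open Pool.Agent.Lib.TriD

private theorem card_sub {T : Type} {p q : T → Prop} (S : Finset {t // p t}) (R : Finset T)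
    (hS : ∀ u, u ∈ S ↔ q u.1) (hR : ∀ t, t ∈ R ↔ p t ∧ q t) : S.card = R.card := by
  refine Finset.card_bij (fun u _ => u.1) ?_ ?_ ?_
  · intro u hu
    exact (hR _).2 ⟨u.2, (hS _).1 hu⟩
  · intro u _ v _ h
    exact Subtype.ext h
  · intro t ht
    have h := (hR _).1 ht
    exact ⟨⟨t, h.1⟩, (hS _).2 h.2, rfl⟩

private theorem card_split {T : Type} {p q : T → Prop} (S1 S2 S3 : Finset T)
    (h1 : ∀ t, t ∈ S1 ↔ p t ∧ q t) (h2 : ∀ t, t ∈ S2 ↔ p t ∧ ¬ q t) (h3 : ∀ t, t ∈ S3 ↔ p t) :
    S1.card + S2.card = S3.card := by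
  rw [← Finset.card_union_of_disjoint]
  · congr 1
    ext t
    rw [Finset.mem_union, h1, h2, h3]
    tauto
  · rw [Finset.disjoint_left]
    intro t h4 h5
    exact ((h2 t).1 h5).2 ((h1 t).1 h4).2

private theorem mem_rcA {X Y B : Type} [Fintype X] {P : ℕ} {M : Y → B → Prop}
    {pY : Y → Option (Fin P)} {colA : Y → B → X} {l : B} {x : X} :
    x ∈ rcA M pY colA l ↔ ∃ y, pY y = none ∧ M y l ∧ colA y l = x := by
  unfold rcA
  simp

private theorem mem_rcB {X Y B : Type} [Fintype X] {P : ℕ} {M : Y → B → Prop}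
    {pB : B → Option (Fin P)} {colB : B → Y → X} {y : Y} {x : X} :
    x ∈ rcB M pB colB y ↔ ∃ l, pB l = none ∧ M y l ∧ colB l y = x := by
  unfold rcB
  simp

theorem surv_bal {X Y B : Type} [Fintype X] [Fintype Y] [Fintype B] (A : X → B → Prop)
    (M : Y → B → Prop) (k c n : ℕ) (hS : DSys A M k c n) (G : Finset X) (P s : ℕ)
    (pY : Y → Option (Fin P)) (pB : B → Option (Fin P)) (hub : Fin P → Finset X) (L : ℝ)
    (colA : Y → B → X) (hA : StA A M k G P s pY pB hub L colA) (colB : B → Y → X)
    (hB : StB A M k G P s pY pB hub L colA colB) (x : X) :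
    (wt (snu M pY pB colB) x).card = (wt (snv A M pY pB colA) x).card := by
  have e1 : (Finset.univ.filter fun l => x ∈ rcA M pY colA l).card =
      (Finset.univ.filter fun y => pY y = none).card := by
    symm
    have hex : ∀ y, pY y = none → ∃ l, M y l ∧ colA y l = x := by
      intro y hy
      obtain ⟨l, hl, hl2⟩ := (hA.bij y hy).surjOn (Set.mem_univ x)
      exact ⟨l, hl, hl2⟩
    choose f hf using hex
    refine Finset.card_bij (fun y hy => f y (by simpa using hy)) ?_ ?_ ?_
    · intro y hy
      have hy2 : pY y = none := by simpa using hy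
      have h1 := hf y hy2
      simp only [Finset.mem_filter, Finset.mem_univ, true_and, mem_rcA]
      exact ⟨y, hy2, h1.1, h1.2⟩
    · intro y hy y' hy' h
      have hy2 : pY y = none := by simpa using hy
      have hy3 : pY y' = none := by simpa using hy'
      have h1 := hf y hy2
      have h2 := hf y' hy3
      rw [← h] at h2
      exact hA.inj y y' (f y hy2) hy2 hy3 h1.1 h2.1 (h1.2.trans h2.2.symm)
    · intro l hl
      simp only [Finset.mem_filter, Finset.mem_univ, true_and, mem_rcA] at hl
      obtain ⟨y, hy, hM, hc⟩ := hl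
      refine ⟨y, by simpa using hy, ?_⟩
      exact (hA.bij y hy).injOn (hf y hy).1 hM ((hf y hy).2.trans hc.symm)
  have e2 : (Finset.univ.filter fun l => pB l = none ∧ A x l ∧ x ∉ rcA M pY colA l).card =
      (Finset.univ.filter fun y => pY y ≠ none ∧ x ∈ rcB M pB colB y).card := by
    have hex : ∀ l, (pB l = none ∧ A x l ∧ x ∉ rcA M pY colA l) →
        ∃ y, (M y l ∧ pY y ≠ none) ∧ colB l y = x := by
      intro l hl
      obtain ⟨y, hy, hy2⟩ := (hB.bij l hl.1).surjOn (show x ∈ {x | A x l ∧ x ∉ rcA M pY colA l}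
        from hl.2)
      exact ⟨y, hy, hy2⟩
    choose f hf using hex
    refine Finset.card_bij (fun l hl => f l (by simpa using hl)) ?_ ?_ ?_
    · intro l hl
      have hl2 : pB l = none ∧ A x l ∧ x ∉ rcA M pY colA l := by simpa using hl
      have h1 := hf l hl2
      simp only [Finset.mem_filter, Finset.mem_univ, true_and, mem_rcB]
      exact ⟨h1.1.2, l, hl2.1, h1.1.1, h1.2⟩
    · intro l hl l' hl' h
      have hl2 : pB l = none ∧ A x l ∧ x ∉ rcA M pY colA l := by simpa using hl
      have hl3 : pB l' = none ∧ A x l' ∧ x ∉ rcA M pY colA l' := by simpa using hl'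
      have h1 := hf l hl2
      have h2 := hf l' hl3
      rw [← h] at h2
      exact hB.inj (f l hl2) l l' h1.1.2 hl2.1 hl3.1 h1.1.1 h2.1.1 (h1.2.trans h2.2.symm)
    · intro y hy
      simp only [Finset.mem_filter, Finset.mem_univ, true_and, mem_rcB] at hy
      obtain ⟨hy1, l, hl, hM, hc⟩ := hy
      have hm : y ∈ {y | M y l ∧ pY y ≠ none} := ⟨hM, hy1⟩
      have hm2 := (hB.bij l hl).mapsTo hm
      rw [hc] at hm2
      have hl2 : pB l = none ∧ A x l ∧ x ∉ rcA M pY colA l := ⟨hl, hm2⟩
      refine ⟨l, by simpa using hl2, ?_⟩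
      exact (hB.bij l hl).injOn (hf l hl2).1 hm ((hf l hl2).2.trans hc.symm)
  have u1 := card_sub (p := fun y => pY y ≠ none) (q := fun y => ¬ x ∈ rcB M pB colB y)
    (wt (snu M pY pB colB) x) (Finset.univ.filter fun y => pY y ≠ none ∧ ¬ x ∈ rcB M pB colB y)
    (fun u => by rw [mem_wt]; unfold snu; simp) (fun t => by simp)
  have v1 := card_sub (p := fun l => pB l ≠ none) (q := fun l => A x l ∧ ¬ x ∈ rcA M pY colA l)
    (wt (snv A M pY pB colA) x)
    (Finset.univ.filter fun l => pB l ≠ none ∧ (A x l ∧ ¬ x ∈ rcA M pY colA l))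
    (fun u => by rw [mem_wt]; unfold snv; simp) (fun t => by simp)
  have s1 := card_split (p := fun y => pY y ≠ none) (q := fun y => x ∈ rcB M pB colB y)
    (Finset.univ.filter fun y => pY y ≠ none ∧ x ∈ rcB M pB colB y)
    (Finset.univ.filter fun y => pY y ≠ none ∧ ¬ x ∈ rcB M pB colB y)
    (Finset.univ.filter fun y => pY y ≠ none) (by simp) (by simp) (by simp)
  have s2 := card_split (p := fun l : B => A x l) (q := fun l => x ∈ rcA M pY colA l)
    (Finset.univ.filter fun l => x ∈ rcA M pY colA l)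
    (Finset.univ.filter fun l => A x l ∧ ¬ x ∈ rcA M pY colA l)
    (Finset.univ.filter fun l => A x l)
    (by
      intro l
      simp only [Finset.mem_filter, Finset.mem_univ, true_and, mem_rcA]
      constructor
      · rintro ⟨y, hy, hM, hc⟩
        exact ⟨hc ▸ hA.ok y l hy hM, y, hy, hM, hc⟩
      · rintro ⟨-, h⟩
        exact h) (by simp) (by simp)
  have s3 := card_split (p := fun l : B => A x l ∧ ¬ x ∈ rcA M pY colA l)
    (q := fun l => pB l = none)
    (Finset.univ.filter fun l => pB l = none ∧ A x l ∧ x ∉ rcA M pY colA l)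
    (Finset.univ.filter fun l => pB l ≠ none ∧ (A x l ∧ ¬ x ∈ rcA M pY colA l))
    (Finset.univ.filter fun l => A x l ∧ ¬ x ∈ rcA M pY colA l)
    (by intro l; simp only [Finset.mem_filter, Finset.mem_univ, true_and]; tauto)
    (by intro l; simp only [Finset.mem_filter, Finset.mem_univ, true_and]; tauto) (by simp)
  have s4 := card_split (p := fun _ : Y => True) (q := fun y => pY y = none)
    (Finset.univ.filter fun y => pY y = none) (Finset.univ.filter fun y => pY y ≠ none)
    Finset.univ (by simp) (by simp) (by simp)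
  have f6 : (Finset.univ : Finset Y).card = c := by
    rw [Finset.card_univ, hS.cC]
  have hd := hS.degR x
  have hd2 : (Finset.univ.filter fun l => A x l).card = c := by convert hd
  omega

end Pool.Agent.Lib.TriS
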