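import Pool.Agent.Lib.TriS.SurvY
import Pool.Agent.Lib.TriS.SurvB
import Pool.Agent.Lib.TriS.SurvBal
import Pool.Agent.Lib.TriS.Mixing

/-!
MODULE SurvAll: the survivors' instance.
-/

set_option autoImplicit false

open scoped Classical

noncomputable section

namespace Pool.Agent.Lib.TriS

open Pool.Agent.Lib.TriD

theorem surv_all {X Y B : Type} [Fintype X] [Fintype Y] [Fintype B] (A : X → B → Prop)
    (M : Y → B → Prop) (k c n : ℕ) (hS : DSys A M k c n) (hM : DMix A M k c n) (G : Finset X)
    (P s r : ℕ) (pY : Y → Option (Fin P)) (pB : B → Option (Fin P)) (hub : Fin P → Finset X)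
    (L : ℝ) (hN : DNum k c n G.card P s r L)
    (hP : PartSys A M k G P s r pY pB hub (1 / 10 ^ 27))
    (colA : Y → B → X) (hA : StA A M k G P s pY pB hub L colA) (colB : B → Y → X)
    (hB : StB A M k G P s pY pB hub L colA colB) :
    SInst (sH M pY pB) (snu M pY pB colB) (snv A M pY pB colA) P (partOf pY) (partOf pB) hub G s r
      L (1 / 10 ^ 25) where
  s1 := survY A M k c n hS G P s r pY pB hub L hN hP colA hA colB hB
  s2 := survB A M k c n hS G P s r pY pB hub L hN hP colA hA colB hB
  hubc := hP.hubc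
  hubd := hP.hubd
  hubG := hP.hubG
  bal x := surv_bal A M k c n hS G P s pY pB hub L colA hA colB hB x
  mix S T := by
    rw [hS.cR]
    exact surv_mix A M k c n hM G.card P s r L hN pY pB S T
  L1 := hN.L1
  kL := by
    rw [hS.cR]
    have := hN.vL
    have h2 : (0 : ℝ) ≤ c := Nat.cast_nonneg c
    linarith
  NL := hN.Ps.trans hN.vL
  r1 := hN.r1
  r2 := hN.r2
  P1 := hN.P1
  G1 := hN.G1
  G2 := by
    rw [hS.cR]
    exact hN.G2
  P2 := by
    rw [hS.cR]
    exact hN.P2
  s3 := hN.s3

end Pool.Agent.Lib.TriS
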