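import Pool.Agent.Lib.TriS.NumD
import Pool.Agent.Lib.TriS.St0A
import Pool.Agent.Lib.TriS.St0B
import Pool.Agent.Lib.TriS.SurvAll
import Pool.Agent.Lib.TriS.Core
import Pool.Agent.Lib.TriS.FinM
import Pool.Agent.Lib.TriS.ArrS

/-!
MODULE Sparse: large sparse design systems have triple arrays.
-/

set_option autoImplicit false

open scoped Classical

noncomputable section

namespace Pool.Agent.Lib.TriS

open Pool.Agent.Lib.TriD Pool.Agent.Lib.MP_6fba53_co

theorem sparse {X Y B : Type} [Fintype X] [Fintype Y] [Fintype B] [DecidableEq B]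
    (A : X → B → Prop) (M : Y → B → Prop) (k c n : ℕ) (hS : DSys A M k c n)
    (hM : DMix A M k c n) (hk : 2 ≤ k) (hnk : n < k)
    (hkk : (k : ℝ) * (k - 1) = ((k : ℝ) - n) * ((k : ℝ) + c - 1))
    (hv : BigV ((k : ℝ) + c)) (hphi : (k : ℝ) ≤ 1 / 10 ^ 30 * (k + c)) :
    ∃ f : X → Y → B, (∀ x y, A x (f x y) ∧ M y (f x y)) ∧
      IsTripleArray f n (c - n) (k - n) n := by
  obtain ⟨G, P, s, r, pY, pB, hub, hP, h1, h2, h3, h4, h5⟩ := parts A M k c n hS hM hk hv hphi
  have hN := num_design k c n G.card P s r hk hnk hkk hv hphi h1 h2 h3 h4 h5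
  obtain ⟨colA, hA⟩ := st0A A M k c n hS G P s r pY pB hub _ hN hP
  obtain ⟨colB, hB⟩ := st0B A M k c n hS G P s r pY pB hub _ hN hP colA hA
  have hI := surv_all A M k c n hS hM G P s r pY pB hub _ hN hP colA hA colB hB
  obtain ⟨Mx, hMx, hd⟩ := core _ _ _ P _ _ hub G s r _ hI
  obtain ⟨F, hF, hd2⟩ := fin_glue A M k G P s pY pB hub _ colA hA colB hB Mx hMx hd
  exact array_of_family hS F hF hd2

end Pool.Agent.Lib.TriS
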