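import Pool.Agent.Lib.TriS.SDefs

/-!
MODULE SurvY (about 200 lines). The survivors' instance, side of the points.

PROOF. Cardinalities over the subtypes are cardinalities of filters on `Y`, `B` (`Finset.card_bij` / `Finset.card_subtype`-style; `partOf_eq`). `cU`: `cY`. `deg`: `card (nb sH u) = card {l | M u l ∧ pB l ≠ none} = k - card {l | M u l ∧ pB l = none}` (`degC`), `card (snu u) = k - card (rcB u)` (`cR`),
`card (rcB u) = card {l | M u l ∧ pB l = none}` (`StB.inj`). `hubn`: `StB.hb`. `miss`: `(snu u)ᶜ = rcB u`, `wY`. `missG`: `G \ snu u = G.filter (x ∈ rcB u)`, `t3`, `4 L ≤ |G|/10^60`. `bad`: `x ∉ snv v ↔ ¬ A x v ∨ x ∈ rcA v`: `≤ (k - n) + 16/10^27 k + 4 L ≤ 1/10^25 k` (`rc`, `degC`, `StA.t1`).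
`inn`: `inY`, `1/10^27 ≤ 1/10^25`, `card X = k`. `badin`: `PartSys.pair` and `StA.t2`, `inY`: `≤ 1/10^27 k/P + 16/10^27 (1 + 1/10^27) k/P + 4 L`, `4 L ≤ 1/10^60 k/P` (`G1`, `G2`, `P1`). `hit`: `StB.t4`, `4 L ≤ s/10^60` (`s3`).
-/

set_option autoImplicit false

open scoped Classical

noncomputable section

namespace Pool.Agent.Lib.TriS

open Pool.Agent.Lib.TriD

section svY

variable {X Y B : Type} {P : ℕ}

private theorem svY_nb [Fintype Y] [Fintype B] (M : Y → B → Prop) (pY : Y → Option (Fin P))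
    (pB : B → Option (Fin P)) (u : {y // pY y ≠ none}) (Q : {l // pB l ≠ none} → Prop)
    [DecidablePred Q] (Q' : B → Prop) [DecidablePred Q']
    (h : ∀ l, Q' l ↔ M u.1 l ∧ ∃ h : pB l ≠ none, Q ⟨l, h⟩) :
    ((nb (sH M pY pB) u).filter Q).card = (Finset.univ.filter Q').card := by
  rw [← Finset.card_map (Function.Embedding.subtype _)]
  congr 1
  ext l
  simp only [Finset.mem_map, Finset.mem_filter, mem_nb, sH, Finset.mem_univ, true_and,
    Function.Embedding.coe_subtype, h l]
  constructor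
  · rintro ⟨⟨l', hl'⟩, h1, rfl⟩
    exact ⟨h1.1, hl', h1.2⟩
  · rintro ⟨h1, h2, h3⟩
    exact ⟨⟨l, h2⟩, ⟨h1, h3⟩, rfl⟩

private theorem svY_sub [Fintype Y] (pY : Y → Option (Fin P)) (Q : {y // pY y ≠ none} → Prop)
    [DecidablePred Q] (Q' : Y → Prop) [DecidablePred Q']
    (h : ∀ y, Q' y ↔ ∃ h : pY y ≠ none, Q ⟨y, h⟩) :
    (Finset.univ.filter Q).card = (Finset.univ.filter Q').card := by
  rw [← Finset.card_map (Function.Embedding.subtype _)]
  congr 1
  ext y
  simp only [Finset.mem_map, Finset.mem_filter, Finset.mem_univ, true_and,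
    Function.Embedding.coe_subtype, h y]
  constructor
  · rintro ⟨⟨y', hy'⟩, h1, rfl⟩
    exact ⟨hy', h1⟩
  · rintro ⟨h2, h3⟩
    exact ⟨⟨y, h2⟩, h3, rfl⟩

private theorem svY_part {T : Type} (p : T → Option (Fin P)) (y : T) (a : Fin P) :
    p y = some a ↔ ∃ h : p y ≠ none, partOf p ⟨y, h⟩ = a := by
  constructor
  · intro h
    have h1 : p y ≠ none := by rw [h]; exact Option.some_ne_none a
    exact ⟨h1, (partOf_eq p ⟨y, h1⟩ a).2 h⟩
  · rintro ⟨h, h1⟩
    exact (partOf_eq p ⟨y, h⟩ a).1 h1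

private theorem svY_snu [Fintype X] (M : Y → B → Prop) (pY : Y → Option (Fin P))
    (pB : B → Option (Fin P)) (colB : B → Y → X) (u : {y // pY y ≠ none}) (x : X) :
    x ∉ snu M pY pB colB u ↔ x ∈ rcB M pB colB u.1 := by
  unfold snu
  rw [Finset.mem_sdiff, not_and_not_right]
  exact ⟨fun h => h (Finset.mem_univ _), fun h _ => h⟩

private theorem svY_snv [Fintype X] (A : X → B → Prop) (M : Y → B → Prop)
    (pY : Y → Option (Fin P)) (pB : B → Option (Fin P)) (colA : Y → B → X)
    (v : {l // pB l ≠ none}) (x : X) :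
    x ∉ snv A M pY pB colA v ↔ ¬ A x v.1 ∨ x ∈ rcA M pY colA v.1 := by
  unfold snv
  rw [Finset.mem_sdiff, Finset.mem_filter]
  constructor
  · intro h
    by_cases h1 : A x v.1
    · right
      by_contra h2
      exact h ⟨⟨Finset.mem_univ _, h1⟩, h2⟩
    · exact Or.inl h1
  · rintro (h | h) ⟨⟨_, h1⟩, h2⟩
    · exact h h1
    · exact h2 h

private theorem svY_or [Fintype B] (T T1 T2 : B → Prop) [DecidablePred T] [DecidablePred T1]
    [DecidablePred T2] (h : ∀ l, T l → T1 l ∨ T2 l) :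
    ((Finset.univ.filter T).card : ℝ) ≤
      ((Finset.univ.filter T1).card : ℝ) + ((Finset.univ.filter T2).card : ℝ) := by
  have h1 : Finset.univ.filter T ⊆ Finset.univ.filter T1 ∪ Finset.univ.filter T2 := by
    intro l hl
    rw [Finset.mem_union, Finset.mem_filter, Finset.mem_filter]
    rw [Finset.mem_filter] at hl
    exact (h l hl.2).imp (fun h => ⟨hl.1, h⟩) fun h => ⟨hl.1, h⟩
  exact_mod_cast (Finset.card_le_card h1).trans (Finset.card_union_le _ _)

private theorem svY_memrc [Fintype X] (M : Y → B → Prop) (pB : B → Option (Fin P))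
    (colB : B → Y → X) (y : Y) (x : X) :
    x ∈ rcB M pB colB y ↔ ∃ l, pB l = none ∧ M y l ∧ colB l y = x := by
  unfold rcB
  simp

end svY

theorem survY {X Y B : Type} [Fintype X] [Fintype Y] [Fintype B] (A : X → B → Prop)
    (M : Y → B → Prop) (k c n : ℕ) (hS : DSys A M k c n) (G : Finset X) (P s r : ℕ)
    (pY : Y → Option (Fin P)) (pB : B → Option (Fin P)) (hub : Fin P → Finset X) (L : ℝ)
    (hN : DNum k c n G.card P s r L) (hP : PartSys A M k G P s r pY pB hub (1 / 10 ^ 27))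
    (colA : Y → B → X) (hA : StA A M k G P s pY pB hub L colA) (colB : B → Y → X)
    (hB : StB A M k G P s pY pB hub L colA colB) :
    SSide (sH M pY pB) (snu M pY pB colB) (snv A M pY pB colA) P (partOf pY) (partOf pB) hub G s
      (1 / 10 ^ 25) := by
  have hk : (Fintype.card X : ℝ) = k := by rw [hS.cR]
  have hL := hN.L1
  have hP1 := hN.P1
  have hP0 : (0 : ℝ) < P := lt_of_lt_of_le (by norm_num) hP1
  have hP1' : (1 : ℝ) ≤ P := le_trans (by norm_num) hP1
  have hL0 : (0 : ℝ) ≤ L := le_trans zero_le_one hL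
  have hg0 : (0 : ℝ) ≤ G.card := Nat.cast_nonneg _
  have hk0 : (0 : ℝ) ≤ k := Nat.cast_nonneg _
  have hLG : 10 ^ 60 * L ≤ G.card := by
    refine le_trans ?_ hN.G1
    rw [mul_assoc]
    exact mul_le_mul_of_nonneg_left (le_mul_of_one_le_left hL0 hP1') (by norm_num)
  have hgkP : 10 ^ 60 * (G.card : ℝ) ≤ (k : ℝ) / P := by
    rw [le_div_iff₀ hP0]
    refine le_trans (le_of_eq ?_) hN.G2
    ring
  have hLkP : 10 ^ 60 * L ≤ (k : ℝ) / P := by
    exact le_trans hLG (le_trans (le_mul_of_one_le_left hg0 (by norm_num)) hgkP)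
  have hkP : (k : ℝ) / P ≤ k := div_le_self hk0 hP1'
  have hLk : 10 ^ 60 * L ≤ k := hLkP.trans hkP
  have hcardW : ∀ u : {y // pY y ≠ none}, (rcB M pB colB u.1).card =
      (Finset.univ.filter fun l => M u.1 l ∧ pB l = none).card := by
    intro u
    have h1 : rcB M pB colB u.1 =
        (Finset.univ.filter fun l => M u.1 l ∧ pB l = none).image fun l => colB l u.1 := by
      ext x
      rw [svY_memrc]
      simp only [Finset.mem_filter, Finset.mem_univ, true_and, Finset.mem_image]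
      constructor
      · rintro ⟨l, h1, h2, h3⟩
        exact ⟨l, ⟨h2, h1⟩, h3⟩
      · rintro ⟨l, ⟨h2, h1⟩, h3⟩
        exact ⟨l, h1, h2, h3⟩
    rw [h1, Finset.card_image_of_injOn]
    intro l hl l' hl' he
    rw [Finset.mem_coe, Finset.mem_filter] at hl hl'
    exact hB.inj u.1 l l' u.2 hl.2.2 hl'.2.2 hl.2.1 hl'.2.1 he
  have hcompl : ∀ u : {y // pY y ≠ none}, (snu M pY pB colB u)ᶜ = rcB M pB colB u.1 := by
    intro u
    ext x
    rw [Finset.mem_compl]
    exact svY_snu M pY pB colB u x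
  refine ⟨?_, ?_, ?_, ?_, ?_, ?_, ?_, ?_, ?_⟩
  · intro a
    rw [svY_sub pY (fun u => partOf pY u = a) (fun y => pY y = some a)
      fun y => svY_part pY y a]
    exact hP.cY a
  · intro u
    have h1 : (nb (sH M pY pB) u).card =
        (Finset.univ.filter fun l => M u.1 l ∧ pB l ≠ none).card := by
      rw [← Finset.filter_true (s := nb (sH M pY pB) u)]
      refine svY_nb M pY pB u (fun _ => True) (fun l => M u.1 l ∧ pB l ≠ none) fun l => ?_
      constructor
      · rintro ⟨h2, h3⟩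
        exact ⟨h2, h3, trivial⟩
      · rintro ⟨h2, h3, _⟩
        exact ⟨h2, h3⟩
    have h2 : (Finset.univ.filter fun l => M u.1 l ∧ pB l = none).card +
        (Finset.univ.filter fun l => M u.1 l ∧ pB l ≠ none).card = k := by
      rw [← hS.degC u.1, ← Finset.card_filter_add_card_filter_not (s :=
        Finset.univ.filter fun l => M u.1 l) (fun l => pB l = none), Finset.filter_filter,
        Finset.filter_filter]
    have h3 := Finset.card_add_card_compl (snu M pY pB colB u)
    rw [hcompl, hcardW, hS.cR] at h3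
    rw [h1]
    omega
  · intro u x hx
    by_contra h
    rw [svY_snu, svY_memrc] at h
    obtain ⟨l, h1, h2, h3⟩ := h
    have h4 := hB.hb u.1 l (partOf pY u) h1 h2 (partOf_spec pY u)
    rw [h3] at h4
    exact h4 hx
  · intro u
    rw [hcompl, hcardW, hk]
    have h1 := hP.wY u.1
    have h2 : (1 : ℝ) / 10 ^ 27 * k ≤ 1 / 10 ^ 25 * k :=
      mul_le_mul_of_nonneg_right (by norm_num) hk0
    exact h1.trans h2
  · intro u
    have h1 : G \ snu M pY pB colB u = G.filter fun x => x ∈ rcB M pB colB u.1 := by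
      ext x
      rw [Finset.mem_sdiff, Finset.mem_filter, svY_snu]
    rw [h1]
    have h2 := hB.t3 u.1 u.2
    refine h2.trans ?_
    norm_num at hLG ⊢
    linarith
  · intro u x
    rw [svY_nb M pY pB u (fun v => x ∉ snv A M pY pB colA v)
      (fun l => (M u.1 l ∧ pB l ≠ none) ∧ (¬ A x l ∨ x ∈ rcA M pY colA l)) fun l => by
        constructor
        · rintro ⟨⟨h1, h2⟩, h3⟩
          exact ⟨h1, h2, (svY_snv A M pY pB colA ⟨l, h2⟩ x).2 h3⟩
        · rintro ⟨h1, h2, h3⟩
          exact ⟨⟨h1, h2⟩, (svY_snv A M pY pB colA ⟨l, h2⟩ x).1 h3⟩]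
    refine (svY_or _ (fun l => (M u.1 l ∧ pB l ≠ none) ∧ ¬ A x l)
      (fun l => (M u.1 l ∧ pB l ≠ none) ∧ x ∈ rcA M pY colA l) fun l hl =>
        hl.2.imp (fun h => ⟨hl.1, h⟩) fun h => ⟨hl.1, h⟩).trans ?_
    have h1 : ((Finset.univ.filter fun l => (M u.1 l ∧ pB l ≠ none) ∧ ¬ A x l).card : ℝ) ≤
        (k : ℝ) - n := by
      have e1 : (Finset.univ.filter fun l => (M u.1 l ∧ pB l ≠ none) ∧ ¬ A x l) ⊆
          Finset.univ.filter fun l => M u.1 l ∧ ¬ A x l := by
        intro l hl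
        rw [Finset.mem_filter] at hl ⊢
        exact ⟨hl.1, hl.2.1.1, hl.2.2⟩
      have e2 : (Finset.univ.filter fun l => A x l ∧ M u.1 l).card +
          (Finset.univ.filter fun l => M u.1 l ∧ ¬ A x l).card = k := by
        rw [← hS.degC u.1, ← Finset.card_filter_add_card_filter_not (s :=
          Finset.univ.filter fun l => M u.1 l) (fun l => A x l), Finset.filter_filter,
          Finset.filter_filter]
        congr 2
        ext l
        simp only [Finset.mem_filter, Finset.mem_univ, true_and]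
        exact and_comm
      rw [hS.rc] at e2
      have e3 : ((Finset.univ.filter fun l => M u.1 l ∧ ¬ A x l).card : ℝ) = (k : ℝ) - n := by
        have : (n : ℝ) + ((Finset.univ.filter fun l => M u.1 l ∧ ¬ A x l).card : ℝ) = k := by
          exact_mod_cast e2
        linarith
      rw [← e3]
      exact_mod_cast Finset.card_le_card e1
    have h2 : ((Finset.univ.filter fun l =>
        (M u.1 l ∧ pB l ≠ none) ∧ x ∈ rcA M pY colA l).card : ℝ) ≤ 16 / 10 ^ 27 * k + 4 * L := by
      refine le_trans (le_of_eq ?_) (hA.t1 u.1 x)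
      congr 2
      ext l
      simp only [Finset.mem_filter, Finset.mem_univ, true_and, and_assoc]
    have h3 := hN.lam
    rw [hk]
    norm_num at hLk h1 h2 h3 ⊢
    linarith
  · intro u a
    rw [svY_nb M pY pB u (fun v => partOf pB v = a) (fun l => M u.1 l ∧ pB l = some a) fun l => by
      rw [svY_part pB l a], hk]
    refine (hP.inY u.1 u.2 a).trans ?_
    exact mul_le_mul_of_nonneg_right (by norm_num) (div_nonneg hk0 hP0.le)
  · intro u x hx
    rw [svY_nb M pY pB u (fun v => partOf pB v = partOf pY u ∧ x ∉ snv A M pY pB colA v)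
      (fun l => (M u.1 l ∧ pB l = some (partOf pY u)) ∧ (¬ A x l ∨ x ∈ rcA M pY colA l))
      fun l => by
        constructor
        · rintro ⟨⟨h1, h2⟩, h3⟩
          obtain ⟨h4, h5⟩ := (svY_part pB l _).1 h2
          exact ⟨h1, h4, h5, (svY_snv A M pY pB colA ⟨l, h4⟩ x).2 h3⟩
        · rintro ⟨h1, h2, h3, h4⟩
          exact ⟨⟨h1, (svY_part pB l _).2 ⟨h2, h3⟩⟩, (svY_snv A M pY pB colA ⟨l, h2⟩ x).1 h4⟩]
    refine (svY_or _ (fun l => (M u.1 l ∧ pB l = some (partOf pY u)) ∧ ¬ A x l)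
      (fun l => (M u.1 l ∧ pB l = some (partOf pY u)) ∧ x ∈ rcA M pY colA l) fun l hl =>
        hl.2.imp (fun h => ⟨hl.1, h⟩) fun h => ⟨hl.1, h⟩).trans ?_
    have h1 : ((Finset.univ.filter fun l =>
        (M u.1 l ∧ pB l = some (partOf pY u)) ∧ ¬ A x l).card : ℝ) ≤
        1 / 10 ^ 27 * ((k : ℝ) / P) := by
      refine le_trans (le_of_eq ?_) (hP.pair u.1 u.2 x hx (partOf pY u))
      congr 2
      ext l
      simp only [Finset.mem_filter, Finset.mem_univ, true_and, and_assoc]
    have h2 : ((Finset.univ.filter fun l =>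
        (M u.1 l ∧ pB l = some (partOf pY u)) ∧ x ∈ rcA M pY colA l).card : ℝ) ≤
        16 / 10 ^ 27 * ((Finset.univ.filter fun l =>
          M u.1 l ∧ pB l = some (partOf pY u)).card : ℝ) + 4 * L := by
      refine le_trans (le_of_eq ?_) (hA.t2 u.1 (partOf pY u) x)
      congr 2
      ext l
      simp only [Finset.mem_filter, Finset.mem_univ, true_and, and_assoc]
    have h3 := (abs_le.1 (hP.inY u.1 u.2 (partOf pY u))).2
    have h4 : (0 : ℝ) ≤ (k : ℝ) / P := div_nonneg hk0 hP0.le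
    rw [hk]
    norm_num at hLkP h1 h2 h3 ⊢
    linarith
  · intro a x hx
    rw [svY_sub pY (fun u => partOf pY u = a ∧ x ∉ snu M pY pB colB u)
      (fun y => pY y = some a ∧ x ∈ rcB M pB colB y) fun y => by
        constructor
        · rintro ⟨h1, h2⟩
          obtain ⟨h3, h4⟩ := (svY_part pY y a).1 h1
          exact ⟨h3, h4, (svY_snu M pY pB colB ⟨y, h3⟩ x).2 h2⟩
        · rintro ⟨h1, h2, h3⟩
          exact ⟨(svY_part pY y a).2 ⟨h1, h2⟩, (svY_snu M pY pB colB ⟨y, h1⟩ x).1 h3⟩]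
    refine (hB.t4 a x).trans ?_
    have h1 := hN.s3
    have h2 : 10 ^ 60 * L ≤ s := by
      refine le_trans ?_ h1
      rw [mul_assoc]
      exact mul_le_mul_of_nonneg_left (le_mul_of_one_le_left hL0 (one_le_pow₀ hP1'))
        (by norm_num)
    norm_num at h2 ⊢
    linarith

end Pool.Agent.Lib.TriS
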